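import Mathlib

/-!
# MRZ: a soft Matomäki–Radziwiłł–Tao theorem over `ℤ` and `∑_h |∑_n Λ(n) μ(n+h)|`

Definitions shared by all files of the folder (problem MP_0bfb7f_nt, room R3, helper80).

Overall plan (every file has its complete paper proof in its header).

* `f : ℕ → ℂ` completely multiplicative, `|f| ≤ 1` (later `f = λ χ`).
  `R f y t = ∑_{y < m ≤ 2y} f(m) m^{-1-it}`, `Q f V v t = ∑_{v/V < log p ≤ (v+1)/V} f(p) p^{-1-it}`.
* The frequencies `t` are *integers*, `|t| < T`; the mean value theorem is a Fejér kernel computation.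
* `NP f` : `sup_{|t| ≤ y²} |R f y t| → 0` (qualitative Halász theorem, proved for `λ χ`).
* `NP f → Short f` : cancellation in almost all intervals of length `H ≥ H₀(η)`.
* `Short (λ χ)` for all `χ` gives (major + minor arcs) the bound
  `sup_α ∑_{x<X} |∑_{x<n≤x+H} μ(n) e(αn)| ≤ η H X`, and this gives the correlation theorem.
-/

namespace Pool.MRZ

open Finset

/-- the twist `n ^ (i u) = exp (i u log n)` (it is `1` for `n = 0`). -/
noncomputable def tw (u : ℝ) (n : ℕ) : ℂ :=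
  Complex.exp (((u * Real.log n : ℝ) : ℂ) * Complex.I)

/-- `e(x) = exp (2 π i x)` -/
noncomputable def ee (x : ℝ) : ℂ := Complex.exp (((2 * Real.pi * x : ℝ) : ℂ) * Complex.I)

/-- completely multiplicative functions bounded by one -/
structure CM (f : ℕ → ℂ) : Prop where
  one : f 1 = 1
  mul : ∀ m n, f (m * n) = f m * f n
  bdd : ∀ n, ‖f n‖ ≤ 1

/-- the primes `p` with `v / V < log p ≤ (v + 1) / V` -/
noncomputable def PV (V v : ℕ) : Finset ℕ :=
  (Finset.Ioc ⌊Real.exp ((v : ℝ) / V)⌋₊ ⌊Real.exp (((v : ℝ) + 1) / V)⌋₊).filter Nat.Prime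

/-- `Q_v(t) = ∑_{p ∈ PV V v} f(p) p^{-1-it}` -/
noncomputable def Q (f : ℕ → ℂ) (V v : ℕ) (t : ℝ) : ℂ :=
  ∑ p ∈ PV V v, f p * tw (-t) p / (p : ℂ)

/-- the dyadic sum `∑_{y < m ≤ 2y} f(m) m^{-1-it}` -/
noncomputable def R (f : ℕ → ℂ) (y t : ℝ) : ℂ :=
  ∑ m ∈ Finset.Ioc ⌊y⌋₊ ⌊2 * y⌋₊, f m * tw (-t) m / (m : ℂ)

/-- `∑ 1/p` over the primes of the blocks `v ∈ [v0, v1)` -/
noncomputable def LL (V v0 v1 : ℕ) : ℝ :=
  ∑ v ∈ Finset.Ico v0 v1, ∑ p ∈ PV V v, (1 : ℝ) / p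

/-- the factored polynomial `(1/L) ∑_v Q_v(t) R_v(t)`, `R_v = R f (X e^{-v/V})` -/
noncomputable def MM (f : ℕ → ℂ) (X : ℝ) (V v0 v1 : ℕ) (t : ℝ) : ℂ :=
  ((LL V v0 v1 : ℝ) : ℂ)⁻¹ *
    ∑ v ∈ Finset.Ico v0 v1, Q f V v t * R f (X * Real.exp (-((v : ℝ) / V))) t

/-- not pretentious: `sup_{|t| ≤ y²} |R f y t| → 0` as `y → ∞` -/
def NP (f : ℕ → ℂ) : Prop :=
  ∀ ε : ℝ, 0 < ε → ∃ y₀ : ℝ, ∀ y : ℝ, y₀ ≤ y → ∀ t : ℝ, |t| ≤ y ^ 2 → ‖R f y t‖ ≤ ε

/-- cancellation in almost all short intervals, uniformly in the length -/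
def Short (f : ℕ → ℂ) : Prop :=
  ∀ η : ℝ, 0 < η → ∃ H₀ X₀ : ℕ, ∀ X H : ℕ, X₀ ≤ X → H₀ ≤ H → H ≤ X →
    ∑ x ∈ Finset.range X, ‖∑ n ∈ Finset.Ioc x (x + H), f n‖ ≤ η * H * X

/-- the Liouville function as a complex valued function on `ℕ` (`0` at `0`) -/
noncomputable def lam (n : ℕ) : ℂ := ((ArithmeticFunction.liouville n : ℤ) : ℂ)

/-! ### first lemmas -/

@[simp] lemma norm_tw (u : ℝ) (n : ℕ) : ‖tw u n‖ = 1 := by
  unfold tw; exact Complex.norm_exp_ofReal_mul_I _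

@[simp] lemma norm_ee (x : ℝ) : ‖ee x‖ = 1 := by
  unfold ee; exact Complex.norm_exp_ofReal_mul_I _

lemma tw_mul (u : ℝ) {m n : ℕ} (hm : m ≠ 0) (hn : n ≠ 0) : tw u (m * n) = tw u m * tw u n := by
  have hm' : (m : ℝ) ≠ 0 := by exact_mod_cast hm
  have hn' : (n : ℝ) ≠ 0 := by exact_mod_cast hn
  unfold tw
  rw [← Complex.exp_add, Nat.cast_mul, Real.log_mul hm' hn']
  congr 1
  push_cast
  ring

lemma tw_add (u v : ℝ) (n : ℕ) : tw (u + v) n = tw u n * tw v n := by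
  unfold tw
  rw [← Complex.exp_add]
  congr 1
  push_cast
  ring

lemma tw_zero (n : ℕ) : tw 0 n = 1 := by simp [tw]

lemma conj_tw (u : ℝ) (n : ℕ) : (starRingEnd ℂ) (tw u n) = tw (-u) n := by
  unfold tw
  rw [← Complex.exp_conj, map_mul, Complex.conj_ofReal, Complex.conj_I]
  congr 1
  push_cast
  ring

lemma ee_add (x y : ℝ) : ee (x + y) = ee x * ee y := by
  unfold ee
  rw [← Complex.exp_add]
  congr 1
  push_cast
  ring

lemma ee_zero : ee 0 = 1 := by simp [ee]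

lemma ee_int (k : ℤ) : ee k = 1 := by
  unfold ee
  have : (((2 * Real.pi * (k : ℝ) : ℝ) : ℂ) * Complex.I) = k * (2 * Real.pi * Complex.I) := by
    push_cast; ring
  rw [this, Complex.exp_int_mul_two_pi_mul_I]

lemma conj_ee (x : ℝ) : (starRingEnd ℂ) (ee x) = ee (-x) := by
  unfold ee
  rw [← Complex.exp_conj, map_mul, Complex.conj_ofReal, Complex.conj_I]
  congr 1
  push_cast
  ring

lemma mem_PV {V v p : ℕ} : p ∈ PV V v ↔
    p.Prime ∧ Real.exp ((v : ℝ) / V) < p ∧ (p : ℝ) ≤ Real.exp (((v : ℝ) + 1) / V) := by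
  unfold PV
  simp only [Finset.mem_filter, Finset.mem_Ioc]
  rw [Nat.floor_lt (Real.exp_pos _).le, Nat.le_floor_iff (Real.exp_pos _).le]
  tauto

lemma lam_zero : lam 0 = 0 := by simp [lam]

lemma lam_one : lam 1 = 1 := by simp [lam, ArithmeticFunction.liouville_apply_one]

lemma lam_mul (m n : ℕ) : lam (m * n) = lam m * lam n := by
  simp [lam, ArithmeticFunction.liouville_apply_mul]

lemma norm_lam_le (n : ℕ) : ‖lam n‖ ≤ 1 := by
  unfold lam
  rcases Nat.eq_zero_or_pos n with h | h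
  · simp [h]
  · rw [ArithmeticFunction.liouville_apply h.ne']
    simp

lemma lam_prime {p : ℕ} (hp : p.Prime) : lam p = -1 := by
  unfold lam
  rw [ArithmeticFunction.liouville_apply hp.ne_zero, ArithmeticFunction.cardFactors_apply_prime hp]
  simp

/-- `λ χ` is completely multiplicative and bounded by one -/
lemma cm_lam_chi {q : ℕ} (χ : DirichletCharacter ℂ q) : CM (fun n => lam n * χ n) where
  one := by simp [lam_one]
  mul := by
    intro m n
    simp only [lam_mul, Nat.cast_mul, map_mul]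
    ring
  bdd := by
    intro n
    rw [norm_mul]
    exact mul_le_one₀ (norm_lam_le n) (norm_nonneg _) (DirichletCharacter.norm_le_one χ _)

lemma CM.tw {f : ℕ → ℂ} (hf : CM f) (u : ℝ) (h0 : f 0 = 0) : CM (fun n => f n * tw u n) where
  one := by simp [hf.one, Pool.MRZ.tw]
  mul := by
    intro m n
    rcases eq_or_ne m 0 with hm | hm
    · simp [hm, h0]
    rcases eq_or_ne n 0 with hn | hn
    · simp [hn, h0]
    simp only [hf.mul, tw_mul u hm hn]
    ring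
  bdd := by
    intro n
    rw [norm_mul, norm_tw, mul_one]
    exact hf.bdd n

end Pool.MRZ
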