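import Mathlib
import Pool.Agent.MRZ.Defs

/-!
# MRZ/Sup: definitions for the exponential sum part and the correlation part
-/

namespace Pool.MRZ

open Finset

/-- `sup_α ∑_{x<X} |∑_{x<n≤x+H} g(n) e(αn)| = o(HX)` as `H → ∞`, uniformly in `H ≤ X` -/
def SupA (g : ℕ → ℂ) : Prop :=
  ∀ η : ℝ, 0 < η → ∃ H₀ X₀ : ℕ, ∀ X H : ℕ, X₀ ≤ X → H₀ ≤ H → H ≤ X → ∀ α : ℝ,
    ∑ x ∈ Finset.range X, ‖∑ n ∈ Finset.Ioc x (x + H), g n * ee (α * n)‖ ≤ η * H * X

/-- the Möbius function, complex valued -/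
noncomputable def mu (n : ℕ) : ℂ := ((ArithmeticFunction.moebius n : ℤ) : ℂ)

/-- `log p` on primes, `0` elsewhere -/
noncomputable def thp (n : ℕ) : ℝ := if n.Prime then Real.log n else 0

lemma mu_zero : mu 0 = 0 := by simp [mu]

lemma norm_mu_le (n : ℕ) : ‖mu n‖ ≤ 1 := by
  unfold mu
  have h : |ArithmeticFunction.moebius n| ≤ 1 := ArithmeticFunction.abs_moebius_le_one
  rw [Complex.norm_intCast]
  exact_mod_cast h

lemma thp_nonneg (n : ℕ) : 0 ≤ thp n := by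
  unfold thp
  split_ifs with h
  · exact Real.log_natCast_nonneg n
  · exact le_rfl

lemma thp_le (n : ℕ) : thp n ≤ Real.log n := by
  unfold thp
  split_ifs with h
  · exact le_rfl
  · exact Real.log_natCast_nonneg n

end Pool.MRZ
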