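import Mathlib
import Pool.Agent.MRZ.Defs

/-!
# MRZ/Dft: finite Fourier analysis mod `N`

Orthogonality: `∑_{r<N} e(rm/N) = N` if `N ∣ m`, else `0` (`m ∈ ℤ`).
* `dft_triple`: for `N ≥ 2H`: `∑_{i,h∈[1,H]} a(i) e(h) b(i+h) = (1/N) ∑_{r<N} â(r) ê(r) b̂(-r)` with
  `â(r) = ∑_{i≤H} a(i) e(ri/N)`, `ê(r) = ∑_{h≤H} e(h) e(rh/N)`, `b̂(-r) = ∑_{l≤2H} b(l) e(-rl/N)`: here
  `|i + h - l| ≤ 2H - 1 < N`, so `N ∣ i+h-l` iff `l = i+h`.
* `dft_parseval`: `∑_{r<N} |∑_{l∈[1,M]} b(l) e(±rl/N)|² = N ∑ |b(l)|²` for `M ≤ N`.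
* `dft_l2`: for a trigonometric polynomial `S(r) = ∑_{|d|<H} c_d e(rd/N)`, `N ≥ 2H`:
  `∑_{r<N} |S(r)|² = N ∑_{|d|<H} |c_d|²`.
-/

namespace Pool.MRZ

open Finset

private lemma ee_pow (x : ℝ) (n : ℕ) : ee x ^ n = ee (n * x) := by
  unfold ee
  rw [← Complex.exp_nat_mul]
  congr 1
  push_cast
  ring

private lemma ee_eq_one {x : ℝ} (h : ee x = 1) : ∃ k : ℤ, x = k := by
  unfold ee at h
  rw [Complex.exp_eq_one_iff] at h
  obtain ⟨k, hk⟩ := h
  refine ⟨k, ?_⟩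
  have h1 : ((2 * Real.pi * x : ℝ) : ℂ) * Complex.I = ((k * (2 * Real.pi) : ℝ) : ℂ) * Complex.I := by
    rw [hk]
    push_cast
    ring
  have h2 := mul_right_cancel₀ Complex.I_ne_zero h1
  have h3 : 2 * Real.pi * x = k * (2 * Real.pi) := by exact_mod_cast h2
  have hpi : (2 * Real.pi) ≠ 0 := by positivity
  apply mul_left_cancel₀ hpi
  rw [h3]
  ring

/-- orthogonality of the characters mod `N` -/
lemma dft_orth (N : ℕ) (hN : 1 ≤ N) (m : ℤ) :
    ∑ r ∈ Finset.range N, ee ((r : ℝ) / N * m) = if (N : ℤ) ∣ m then (N : ℂ) else 0 := by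
  have hN0 : (N : ℝ) ≠ 0 := by
    have : (0 : ℝ) < N := by exact_mod_cast hN
    exact this.ne'
  have h1 : ∀ r : ℕ, ee ((r : ℝ) / N * m) = ee ((m : ℝ) / N) ^ r := by
    intro r
    rw [ee_pow]
    congr 1
    field_simp
  simp_rw [h1]
  split_ifs with hd
  · obtain ⟨k, hk⟩ := hd
    have h2 : ee ((m : ℝ) / N) = 1 := by
      have : (m : ℝ) / N = (k : ℤ) := by
        rw [hk]
        push_cast
        field_simp
      rw [this, ee_int]
    simp [h2]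
  · have h2 : ee ((m : ℝ) / N) ≠ 1 := by
      intro h
      obtain ⟨k, hk⟩ := ee_eq_one h
      apply hd
      refine ⟨k, ?_⟩
      have : (m : ℝ) = N * k := by
        rw [← hk]
        field_simp
      exact_mod_cast this
    have h3 : ee ((m : ℝ) / N) ^ N = 1 := by
      rw [ee_pow]
      have : (N : ℝ) * ((m : ℝ) / N) = (m : ℤ) := by
        field_simp
      rw [this, ee_int]
    rw [geom_sum_eq h2, h3]
    simp

/-- Parseval for an arbitrary finite family of frequencies which are distinct mod `N` -/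
lemma dft_parseval_gen {ι : Type*} (s : Finset ι) (φ : ι → ℤ) (c : ι → ℂ) (N : ℕ) (hN : 1 ≤ N)
    (hinj : ∀ i ∈ s, ∀ j ∈ s, (N : ℤ) ∣ φ i - φ j → i = j) :
    ∑ r ∈ Finset.range N, ‖∑ i ∈ s, c i * ee ((r : ℝ) / N * φ i)‖ ^ 2 =
      N * ∑ i ∈ s, ‖c i‖ ^ 2 := by
  classical
  have hsq : ∀ z : ℂ, ((‖z‖ ^ 2 : ℝ) : ℂ) = z * (starRingEnd ℂ) z := by
    intro z
    rw [Complex.mul_conj, Complex.normSq_eq_norm_sq]
  have key : ((∑ r ∈ Finset.range N, ‖∑ i ∈ s, c i * ee ((r : ℝ) / N * φ i)‖ ^ 2 : ℝ) : ℂ) =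
      ((N * ∑ i ∈ s, ‖c i‖ ^ 2 : ℝ) : ℂ) := by
    push_cast
    have h1 : ∀ r ∈ Finset.range N, ((‖∑ i ∈ s, c i * ee ((r : ℝ) / N * φ i)‖ : ℝ) : ℂ) ^ 2 =
        ∑ i ∈ s, ∑ j ∈ s, (c i * (starRingEnd ℂ) (c j)) * ee ((r : ℝ) / N * ((φ i - φ j : ℤ) : ℝ)) := by
      intro r _
      have h2 := hsq (∑ i ∈ s, c i * ee ((r : ℝ) / N * φ i))
      push_cast at h2
      rw [h2, map_sum, Finset.sum_mul_sum]
      refine Finset.sum_congr rfl fun i _ => Finset.sum_congr rfl fun j _ => ?_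
      rw [map_mul, conj_ee]
      have h3 : ee ((r : ℝ) / N * ((φ i - φ j : ℤ) : ℝ)) =
          ee ((r : ℝ) / N * φ i) * ee (-((r : ℝ) / N * φ j)) := by
        rw [← ee_add]
        congr 1
        push_cast
        ring
      rw [h3]
      ring
    rw [Finset.sum_congr rfl h1, Finset.sum_comm, Finset.mul_sum]
    refine Finset.sum_congr rfl fun i hi => ?_
    rw [Finset.sum_comm]
    simp_rw [← Finset.mul_sum, dft_orth N hN]
    rw [Finset.sum_eq_single i]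
    · rw [sub_self, if_pos (dvd_zero _)]
      have := hsq (c i)
      push_cast at this
      rw [this]
      ring
    · intro j hj hji
      rw [if_neg]
      · ring
      · intro hd
        exact hji (hinj i hi j hj hd).symm
    · intro h
      exact absurd hi h
  exact_mod_cast key

theorem dft_triple (a e b : ℕ → ℂ) (H N : ℕ) (hH : 1 ≤ H) (hN : 2 * H ≤ N) :
    ∑ i ∈ Finset.Icc 1 H, ∑ h ∈ Finset.Icc 1 H, a i * e h * b (i + h) =
      (N : ℂ)⁻¹ * ∑ r ∈ Finset.range N,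
        (∑ i ∈ Finset.Icc 1 H, a i * ee ((r : ℝ) / N * i)) *
        (∑ h ∈ Finset.Icc 1 H, e h * ee ((r : ℝ) / N * h)) *
        (∑ l ∈ Finset.Icc 1 (2 * H), b l * ee (-((r : ℝ) / N) * l)) := by
  have hN1 : 1 ≤ N := by omega
  have hN0 : (N : ℂ) ≠ 0 := by
    have : N ≠ 0 := by omega
    exact_mod_cast this
  have h1 : ∀ r ∈ Finset.range N,
      (∑ i ∈ Finset.Icc 1 H, a i * ee ((r : ℝ) / N * i)) *
        (∑ h ∈ Finset.Icc 1 H, e h * ee ((r : ℝ) / N * h)) *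
        (∑ l ∈ Finset.Icc 1 (2 * H), b l * ee (-((r : ℝ) / N) * l)) =
      ∑ i ∈ Finset.Icc 1 H, ∑ h ∈ Finset.Icc 1 H, ∑ l ∈ Finset.Icc 1 (2 * H),
        a i * e h * b l * ee ((r : ℝ) / N * (((i : ℤ) + h - l : ℤ) : ℝ)) := by
    intro r _
    rw [Finset.sum_mul_sum, Finset.sum_mul]
    refine Finset.sum_congr rfl fun i _ => ?_
    rw [Finset.sum_mul]
    refine Finset.sum_congr rfl fun h _ => ?_
    rw [Finset.mul_sum]
    refine Finset.sum_congr rfl fun l _ => ?_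
    have h3 : ee ((r : ℝ) / N * (((i : ℤ) + h - l : ℤ) : ℝ)) =
        ee ((r : ℝ) / N * i) * ee ((r : ℝ) / N * h) * ee (-((r : ℝ) / N) * l) := by
      rw [← ee_add, ← ee_add]
      congr 1
      push_cast
      ring
    rw [h3]
    ring
  have h2 : ∑ r ∈ Finset.range N, ∑ i ∈ Finset.Icc 1 H, ∑ h ∈ Finset.Icc 1 H, ∑ l ∈ Finset.Icc 1 (2 * H),
        a i * e h * b l * ee ((r : ℝ) / N * (((i : ℤ) + h - l : ℤ) : ℝ)) =
      ∑ i ∈ Finset.Icc 1 H, ∑ h ∈ Finset.Icc 1 H, (N : ℂ) * (a i * e h * b (i + h)) := by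
    rw [Finset.sum_comm]
    refine Finset.sum_congr rfl fun i hi => ?_
    rw [Finset.sum_comm]
    refine Finset.sum_congr rfl fun h hh => ?_
    rw [Finset.sum_comm]
    simp_rw [← Finset.mul_sum, dft_orth N hN1]
    rw [Finset.mem_Icc] at hi hh
    rw [Finset.sum_eq_single (i + h)]
    · rw [if_pos]
      · ring
      · push_cast
        simp
    · intro l hl hne
      rw [if_neg, mul_zero]
      intro hd
      rw [Finset.mem_Icc] at hl
      have h4 : |(i : ℤ) + h - l| < N := by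
        rw [abs_lt]
        constructor <;> omega
      have h5 := Int.eq_zero_of_abs_lt_dvd hd h4
      omega
    · intro hnot
      exfalso
      apply hnot
      rw [Finset.mem_Icc]
      omega
  rw [Finset.sum_congr rfl h1, h2, Finset.mul_sum]
  refine Finset.sum_congr rfl fun i _ => ?_
  rw [Finset.mul_sum]
  refine Finset.sum_congr rfl fun h _ => ?_
  rw [← mul_assoc, inv_mul_cancel₀ hN0, one_mul]

theorem dft_parseval (b : ℕ → ℂ) (M N : ℕ) (hM : M ≤ N) (hN : 1 ≤ N) :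
    ∑ r ∈ Finset.range N, ‖∑ l ∈ Finset.Icc 1 M, b l * ee ((r : ℝ) / N * l)‖ ^ 2 =
      N * ∑ l ∈ Finset.Icc 1 M, ‖b l‖ ^ 2 := by
  have h := dft_parseval_gen (Finset.Icc 1 M) (fun l : ℕ => (l : ℤ)) b N hN (by
    intro i hi j hj hd
    rw [Finset.mem_Icc] at hi hj
    have h4 : |(i : ℤ) - j| < N := by
      rw [abs_lt]
      constructor <;> omega
    have h5 := Int.eq_zero_of_abs_lt_dvd hd h4
    omega)
  simpa using h

theorem dft_parseval' (b : ℕ → ℂ) (M N : ℕ) (hM : M ≤ N) (hN : 1 ≤ N) :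
    ∑ r ∈ Finset.range N, ‖∑ l ∈ Finset.Icc 1 M, b l * ee (-((r : ℝ) / N) * l)‖ ^ 2 =
      N * ∑ l ∈ Finset.Icc 1 M, ‖b l‖ ^ 2 := by
  have h := dft_parseval_gen (Finset.Icc 1 M) (fun l : ℕ => -(l : ℤ)) b N hN (by
    intro i hi j hj hd
    rw [Finset.mem_Icc] at hi hj
    have h4 : |(-(i : ℤ)) - -(j : ℤ)| < N := by
      rw [abs_lt]
      constructor <;> omega
    have h5 := Int.eq_zero_of_abs_lt_dvd hd h4
    omega)
  rw [← h]
  refine Finset.sum_congr rfl fun r _ => ?_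
  congr 2
  refine Finset.sum_congr rfl fun l _ => ?_
  congr 2
  push_cast
  ring

theorem dft_l2 (c : ℤ → ℂ) (H N : ℕ) (hN : 2 * H ≤ N) (hN1 : 1 ≤ N) :
    ∑ r ∈ Finset.range N,
      ‖∑ d ∈ Finset.Ioo (-(H : ℤ)) H, c d * ee ((r : ℝ) / N * d)‖ ^ 2 =
      N * ∑ d ∈ Finset.Ioo (-(H : ℤ)) H, ‖c d‖ ^ 2 := by
  exact dft_parseval_gen (Finset.Ioo (-(H : ℤ)) H) (fun d : ℤ => d) c N hN1 (by
    intro i hi j hj hd
    rw [Finset.mem_Ioo] at hi hj
    have h4 : |i - j| < N := by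
      rw [abs_lt]
      constructor <;> omega
    have h5 := Int.eq_zero_of_abs_lt_dvd hd h4
    omega)

end Pool.MRZ
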