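import Mathlib
import Pool.Agent.MRZ.Sup
import Pool.Agent.Lib.PrimePairsMoment

/-!
# MRZ/PairUp: upper bound for prime pairs, in the form used for the correlations

There are `C > 0` and `G : ℕ → ℝ`, `G ≥ 0`, `∑_{d≤N} G(d)² ≤ C N`, with
`∑_{k≤X} thp k · thp (k+d) ≤ G(d) X` for `1 ≤ d ≤ X`. Also `∑_{k≤X} thp k ≤ C X`, `∑_{k≤X} (thp k)² ≤ C X log X`
for `X ≥ 2`.

Proof. `G(d) = K F(2d)²`, `F` from `Pool/Agent/Lib/PrimePairs.lean` (`sum_F_pow_four_le`: `∑_{D≤N} F(D)⁴ ≤ W⁴ N`, so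
`∑_{d≤N} G(d)² ≤ 2K²W⁴N`; and `F D ≥ 1` for `D ≥ 1`). For `X ≤ X₁` (constant) trivial, as
`∑ ≤ X (log (2X))²` (`thp n ≤ log n`). For large `X`: the `k ≤ √X` contribute at most `√X (log 2X)² ≤ X`; the
`k ∈ (M, X]`, `M = ⌊√X⌋`: by `card_prime_pairs_le M X d y` with `y = ⌊X^{1/24}⌋` (`y² ≤ M`, `y^{12} ≤ √X`,
`log y ≥ (log X)/48`; compare `exists_level`, `rr_le` in `PrimePairsMoment.lean`) their number is at most
`8·48² F(2d)² X/(log X)² + √X`, and `thp k · thp (k+d) ≤ (log 2X)² ≤ 4 (log X)²`.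
`∑ thp k ≤ θ(X) ≤ C X` (`Chebyshev.theta_le_log4_mul_x`).
-/

namespace Pool.MRZ

open Finset

namespace PairUpAux

open Pool.Agent.Lib.PrimePairs

theorem F_ge_one (D : ℕ) (hD : 0 < D) : 1 ≤ F D := by
  unfold F
  have h := Finset.single_le_sum (f := fun e : ℕ => (1 : ℝ) / e) (s := D.divisors)
    (fun e _ => by positivity) (a := 1) (by simp; omega)
  simpa using h

theorem logsq_le (x : ℝ) (hx : 1 ≤ x) : Real.log x ^ 2 ≤ 16 * √x := by
  have h0 : 0 ≤ x := by linarith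
  have h := Real.log_le_rpow_div h0 (ε := 1 / 4) (by norm_num)
  have hl : 0 ≤ Real.log x := Real.log_nonneg hx
  calc Real.log x ^ 2 ≤ (x ^ (1 / 4 : ℝ) / (1 / 4)) ^ 2 := by gcongr
    _ = 16 * √x := by
      rw [div_pow, ← Real.rpow_natCast, ← Real.rpow_mul h0, Real.sqrt_eq_rpow]
      norm_num
      ring

theorem sum_F2 (N : ℕ) : ∑ d ∈ Icc 1 N, F (2 * d) ^ 4 ≤ W ^ 4 * (2 * N) := by
  have h6 : ∑ d ∈ Icc 1 N, F (2 * d) ^ 4 = ∑ D ∈ (Icc 1 N).image (fun d => 2 * d), F D ^ 4 := by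
    rw [Finset.sum_image (fun a _ b _ h => by simpa using h)]
  rw [h6]
  have hsub : (Icc 1 N).image (fun d => 2 * d) ⊆ Icc 1 (2 * N) := by
    intro D hD
    rw [Finset.mem_image] at hD
    obtain ⟨d, hd, rfl⟩ := hD
    rw [Finset.mem_Icc] at hd ⊢
    omega
  refine (Finset.sum_le_sum_of_subset_of_nonneg hsub (fun D _ _ => by
    have := F_nonneg D
    positivity)).trans ?_
  have := sum_F_pow_four_le (2 * N)
  push_cast at this
  exact this

theorem thp_pair_le (X k d : ℕ) (hk : k ∈ Icc 1 X) (_hd : 1 ≤ d) (hdX : d ≤ X) :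
    thp k * thp (k + d) ≤ Real.log (2 * X) ^ 2 := by
  rw [mem_Icc] at hk
  have h1 : thp k ≤ Real.log (2 * X) := by
    refine (thp_le k).trans (Real.log_le_log (by exact_mod_cast hk.1) ?_)
    have : (k : ℝ) ≤ X := by exact_mod_cast hk.2
    linarith [(Nat.cast_nonneg X : (0 : ℝ) ≤ X)]
  have h2 : thp (k + d) ≤ Real.log (2 * X) := by
    refine (thp_le (k + d)).trans (Real.log_le_log (by exact_mod_cast (by omega : 0 < k + d)) ?_)
    have : ((k + d : ℕ) : ℝ) ≤ ((2 * X : ℕ) : ℝ) := by exact_mod_cast (by omega)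
    simpa using this
  rw [sq]
  exact mul_le_mul h1 h2 (thp_nonneg _) ((thp_nonneg k).trans h1)

theorem thp_pair_zero (k d : ℕ) (h : ¬ (k.Prime ∧ (k + d).Prime)) : thp k * thp (k + d) = 0 := by
  unfold thp
  by_cases h1 : k.Prime
  · by_cases h2 : (k + d).Prime
    · exact absurd ⟨h1, h2⟩ h
    · rw [if_neg h2, mul_zero]
  · rw [if_neg h1, zero_mul]

/-- large `X` -/
theorem large (X d : ℕ) (hX : 2 ^ 98 ≤ X) (hd : 1 ≤ d) (hdX : d ≤ X) :
    ∑ k ∈ Icc 1 X, thp k * thp (k + d) ≤ (32 * 192 ^ 2 * F (2 * d) ^ 2 + 96) * X := by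
  set M := Nat.sqrt X with hM
  have hM48 : 2 ^ 48 ≤ M := by
    rw [hM, Nat.le_sqrt]
    calc 2 ^ 48 * 2 ^ 48 ≤ 2 ^ 98 := by norm_num
      _ ≤ X := hX
  have hMX : M ≤ X := Nat.sqrt_le_self X
  have hX0 : (0 : ℝ) < X := by
    have : 0 < X := by omega
    exact_mod_cast this
  have hX98 : ((2 : ℝ) ^ 98) ≤ X := by exact_mod_cast hX
  have hX1 : (1 : ℝ) ≤ X := by linarith [show (1 : ℝ) ≤ 2 ^ 98 by norm_num]
  have hMs : (M : ℝ) ≤ √X := by
    apply Real.le_sqrt_of_sq_le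
    have := Nat.sqrt_le' X
    exact_mod_cast this
  have hMs2 : √X < M + 1 := by
    rw [Real.sqrt_lt' (by positivity)]
    have := Nat.lt_succ_sqrt' X
    exact_mod_cast this
  have hM0 : (0 : ℝ) < M := by
    have : 0 < M := by omega
    exact_mod_cast this
  have hM1 : (1 : ℝ) ≤ M := by
    have : 1 ≤ M := by omega
    exact_mod_cast this
  have hlogX : 0 < Real.log X := Real.log_pos (by linarith [show (1 : ℝ) < 2 ^ 98 by norm_num])
  have hlog2X : Real.log (2 * X) ≤ 2 * Real.log X := by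
    rw [Real.log_mul (by norm_num) hX0.ne']
    have : Real.log 2 ≤ Real.log X := Real.log_le_log (by norm_num) (by
      linarith [show (2 : ℝ) ≤ 2 ^ 98 by norm_num])
    linarith
  have hlog2X0 : 0 ≤ Real.log (2 * X) := Real.log_nonneg (by linarith)
  -- log M
  have hlogM : Real.log X / 4 ≤ Real.log M := by
    have h1 : (X : ℝ) ^ (1 / 4 : ℝ) ≤ M := by
      have h2 : √X ≤ 2 * M := by linarith
      have h3 : (2 : ℝ) ≤ (X : ℝ) ^ (1 / 4 : ℝ) := by
        calc (2 : ℝ) ≤ ((2 : ℝ) ^ 98) ^ (1 / 4 : ℝ) := by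
              rw [← Real.rpow_natCast, ← Real.rpow_mul (by norm_num)]
              calc (2 : ℝ) = 2 ^ (1 : ℝ) := by norm_num
                _ ≤ _ := Real.rpow_le_rpow_of_exponent_le (by norm_num) (by norm_num)
          _ ≤ _ := Real.rpow_le_rpow (by norm_num) hX98 (by norm_num)
      have h4 : √X = (X : ℝ) ^ (1 / 4 : ℝ) * (X : ℝ) ^ (1 / 4 : ℝ) := by
        rw [← Real.rpow_add hX0, Real.sqrt_eq_rpow]
        norm_num
      nlinarith
    calc Real.log X / 4 = Real.log ((X : ℝ) ^ (1 / 4 : ℝ)) := by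
          rw [Real.log_rpow hX0]; ring
      _ ≤ Real.log M := Real.log_le_log (by positivity) h1
  -- splitting
  have hsplit : ∑ k ∈ Icc 1 X, thp k * thp (k + d) =
      ∑ k ∈ Icc 1 M, thp k * thp (k + d) + ∑ k ∈ Ioc M X, thp k * thp (k + d) := by
    have : Icc 1 X = Icc 1 M ∪ Ioc M X := by
      ext k
      simp only [mem_Icc, mem_union, mem_Ioc]
      omega
    rw [this, sum_union]
    rw [disjoint_left]
    intro k hk hk'
    simp only [mem_Icc, mem_Ioc] at hk hk'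
    omega
  have hA : ∑ k ∈ Icc 1 M, thp k * thp (k + d) ≤ 32 * X := by
    calc ∑ k ∈ Icc 1 M, thp k * thp (k + d) ≤ ∑ k ∈ Icc 1 M, Real.log (2 * X) ^ 2 := by
          apply sum_le_sum
          intro k hk
          rw [mem_Icc] at hk
          exact thp_pair_le X k d (mem_Icc.2 ⟨hk.1, hk.2.trans hMX⟩) hd hdX
      _ = M * Real.log (2 * X) ^ 2 := by
          rw [sum_const, Nat.card_Icc, nsmul_eq_mul, Nat.add_sub_cancel]
      _ ≤ √X * (16 * √(2 * X)) := by
          apply mul_le_mul hMs (logsq_le _ (by linarith)) (by positivity) (by positivity)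
      _ = 16 * √2 * (√X * √X) := by
          rw [Real.sqrt_mul (by norm_num)]; ring
      _ ≤ 32 * X := by
          rw [Real.mul_self_sqrt hX0.le]
          have : √2 ≤ 2 := by
            rw [Real.sqrt_le_left (by norm_num)]; norm_num
          nlinarith
  obtain ⟨y, hy2, hy12, hyM, hylog⟩ := exists_level hM48
  have hcount := card_prime_pairs_le M (X - M) d y (by omega) hy2 hyM
  rw [Nat.add_sub_cancel' hMX] at hcount
  have hlogM0 : 0 < Real.log M := by linarith [div_pos hlogX (by norm_num : (0 : ℝ) < 4)]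
  have hlogy : Real.log X / 192 ≤ Real.log y := by linarith
  have hF0 := F_nonneg (2 * d)
  have hB : ∑ k ∈ Ioc M X, thp k * thp (k + d) ≤
      (32 * 192 ^ 2 * F (2 * d) ^ 2 + 64) * X := by
    have h1 : ∑ k ∈ Ioc M X, thp k * thp (k + d) ≤
        (((Ioc M X).filter (fun n => n.Prime ∧ (n + d).Prime)).card : ℝ) *
          Real.log (2 * X) ^ 2 := by
      rw [← nsmul_eq_mul, ← sum_const]
      calc ∑ k ∈ Ioc M X, thp k * thp (k + d) =
          ∑ k ∈ (Ioc M X).filter (fun n => n.Prime ∧ (n + d).Prime), thp k * thp (k + d) := by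
            rw [sum_filter_of_ne]
            intro k _ hne
            by_contra hcon
            exact hne (thp_pair_zero k d hcon)
        _ ≤ _ := by
            apply sum_le_sum
            intro k hk
            rw [mem_filter, mem_Ioc] at hk
            exact thp_pair_le X k d (mem_Icc.2 ⟨by omega, hk.1.2⟩) hd hdX
    have h2 : (((Ioc M X).filter (fun n => n.Prime ∧ (n + d).Prime)).card : ℝ) ≤
        8 * 192 ^ 2 * F (2 * d) ^ 2 * X / Real.log X ^ 2 + √M := by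
      refine hcount.trans (add_le_add ?_ hy12)
      have h3 : ((X - M : ℕ) : ℝ) ≤ X := by exact_mod_cast Nat.sub_le X M
      calc 8 * F (2 * d) ^ 2 * ((X - M : ℕ) : ℝ) / Real.log y ^ 2 ≤
          8 * F (2 * d) ^ 2 * X / (Real.log X / 192) ^ 2 := by
            gcongr
        _ = _ := by
            field_simp
    have h4 : Real.log (2 * X) ^ 2 ≤ 4 * Real.log X ^ 2 := by
      calc Real.log (2 * X) ^ 2 ≤ (2 * Real.log X) ^ 2 := by gcongr
        _ = _ := by ring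
    have h5 : √M * (4 * Real.log X ^ 2) ≤ 64 * X := by
      have h6 := logsq_le X hX1
      have h7 : √M ≤ √X := by
        apply Real.sqrt_le_sqrt
        exact_mod_cast hMX
      calc √M * (4 * Real.log X ^ 2) ≤ √X * (4 * (16 * √X)) := by gcongr
        _ = 64 * (√X * √X) := by ring
        _ = 64 * X := by rw [Real.mul_self_sqrt hX0.le]
    calc _ ≤ _ := h1
      _ ≤ (8 * 192 ^ 2 * F (2 * d) ^ 2 * X / Real.log X ^ 2 + √M) * (4 * Real.log X ^ 2) := by
          apply mul_le_mul h2 h4 (by positivity) (by positivity)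
      _ = 32 * 192 ^ 2 * F (2 * d) ^ 2 * X + √M * (4 * Real.log X ^ 2) := by
          field_simp
          ring
      _ ≤ (32 * 192 ^ 2 * F (2 * d) ^ 2 + 64) * X := by linarith
  rw [hsplit]
  linarith

/-- small `X` -/
theorem small (X d : ℕ) (hX : X < 2 ^ 98) (hd : 1 ≤ d) (hdX : d ≤ X) :
    ∑ k ∈ Icc 1 X, thp k * thp (k + d) ≤ 99 ^ 2 * X := by
  have hX1 : (1 : ℝ) ≤ X := by
    have : 1 ≤ X := by omega
    exact_mod_cast this
  have hX0 : (0 : ℝ) < X := by linarith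
  have hlog : Real.log (2 * X) ≤ 99 := by
    have h1 : (2 * (X : ℝ)) ≤ 2 ^ 99 := by
      have : (X : ℝ) ≤ 2 ^ 98 := by exact_mod_cast hX.le
      linarith [show (2 : ℝ) * 2 ^ 98 = 2 ^ 99 by norm_num]
    calc Real.log (2 * X) ≤ Real.log (2 ^ 99) := Real.log_le_log (by linarith) h1
      _ = 99 * Real.log 2 := by rw [Real.log_pow]; norm_num
      _ ≤ 99 := by
          have := Real.log_two_lt_d9
          linarith
  have hlog0 : 0 ≤ Real.log (2 * X) := Real.log_nonneg (by linarith)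
  calc ∑ k ∈ Icc 1 X, thp k * thp (k + d) ≤ ∑ k ∈ Icc 1 X, Real.log (2 * X) ^ 2 :=
        sum_le_sum fun k hk => thp_pair_le X k d hk hd hdX
    _ = X * Real.log (2 * X) ^ 2 := by
        rw [sum_const, Nat.card_Icc, nsmul_eq_mul, Nat.add_sub_cancel]
    _ ≤ X * 99 ^ 2 := by gcongr
    _ = 99 ^ 2 * X := by ring

end PairUpAux

open PairUpAux

theorem pair_up : ∃ (C : ℝ) (G : ℕ → ℝ), 0 < C ∧ (∀ d, 0 ≤ G d) ∧
    (∀ N : ℕ, ∑ d ∈ Finset.Icc 1 N, G d ^ 2 ≤ C * N) ∧
    (∀ X d : ℕ, 1 ≤ d → d ≤ X → ∑ k ∈ Finset.Icc 1 X, thp k * thp (k + d) ≤ G d * X) := by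
  set K : ℝ := 32 * 192 ^ 2 + 96 + 99 ^ 2 with hK
  refine ⟨2 * K ^ 2 * Pool.Agent.Lib.PrimePairs.W ^ 4 + 1,
    fun d => K * Pool.Agent.Lib.PrimePairs.F (2 * d) ^ 2, ?_, ?_, ?_, ?_⟩
  · have := Pool.Agent.Lib.PrimePairs.W_nonneg
    positivity
  · intro d
    have : 0 ≤ K := by rw [hK]; norm_num
    positivity
  · intro N
    have h1 : ∑ d ∈ Finset.Icc 1 N, (K * Pool.Agent.Lib.PrimePairs.F (2 * d) ^ 2) ^ 2 =
        K ^ 2 * ∑ d ∈ Finset.Icc 1 N, Pool.Agent.Lib.PrimePairs.F (2 * d) ^ 4 := by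
      rw [mul_sum]
      apply sum_congr rfl
      intro d _
      ring
    simp only
    rw [h1]
    have h2 := sum_F2 N
    have h3 : (0 : ℝ) ≤ N := Nat.cast_nonneg N
    calc _ ≤ K ^ 2 * (Pool.Agent.Lib.PrimePairs.W ^ 4 * (2 * N)) := by gcongr
      _ = 2 * K ^ 2 * Pool.Agent.Lib.PrimePairs.W ^ 4 * N := by ring
      _ ≤ _ := by linarith
  · intro X d hd hdX
    have hF := F_ge_one (2 * d) (by omega)
    have hF2 : 1 ≤ Pool.Agent.Lib.PrimePairs.F (2 * d) ^ 2 := one_le_pow₀ hF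
    have hX0 : (0 : ℝ) ≤ X := Nat.cast_nonneg X
    rcases lt_or_ge X (2 ^ 98) with h | h
    · refine (small X d h hd hdX).trans ?_
      apply mul_le_mul_of_nonneg_right _ hX0
      rw [hK]
      nlinarith
    · refine (large X d h hd hdX).trans ?_
      apply mul_le_mul_of_nonneg_right _ hX0
      rw [hK]
      nlinarith

theorem sum_thp (X : ℕ) : ∑ k ∈ Finset.Icc 1 X, thp k = Chebyshev.theta X := by
  rw [Chebyshev.theta, Nat.floor_natCast, sum_filter]
  unfold thp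
  rfl

theorem thp_sums : ∃ C : ℝ, 0 < C ∧ ∀ X : ℕ, 2 ≤ X → ∑ k ∈ Finset.Icc 1 X, thp k ≤ C * X ∧
    ∑ k ∈ Finset.Icc 1 X, thp k ^ 2 ≤ C * X * Real.log X := by
  refine ⟨Real.log 4, Real.log_pos (by norm_num), ?_⟩
  intro X hX
  have h1 : ∑ k ∈ Finset.Icc 1 X, thp k ≤ Real.log 4 * X := by
    rw [sum_thp]
    exact Chebyshev.theta_le_log4_mul_x (Nat.cast_nonneg X)
  refine ⟨h1, ?_⟩
  calc ∑ k ∈ Finset.Icc 1 X, thp k ^ 2 ≤ ∑ k ∈ Finset.Icc 1 X, thp k * Real.log X := by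
        apply sum_le_sum
        intro k hk
        rw [mem_Icc] at hk
        rw [sq]
        apply mul_le_mul_of_nonneg_left _ (thp_nonneg k)
        refine (thp_le k).trans (Real.log_le_log (by exact_mod_cast hk.1) (by exact_mod_cast hk.2))
    _ = (∑ k ∈ Finset.Icc 1 X, thp k) * Real.log X := by rw [sum_mul]
    _ ≤ Real.log 4 * X * Real.log X :=
        mul_le_mul_of_nonneg_right h1 (Real.log_natCast_nonneg X)

/-- `Λ` and `thp` differ little -/
theorem vm_sub_thp : ∃ C : ℝ, 0 < C ∧ ∀ X : ℕ, 2 ≤ X →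
    ∑ k ∈ Finset.Icc 1 X, |ArithmeticFunction.vonMangoldt k - thp k| ≤
      C * Real.sqrt X * Real.log X := by
  refine ⟨2, by norm_num, ?_⟩
  intro X hX
  have h1 : ∑ k ∈ Finset.Icc 1 X, |ArithmeticFunction.vonMangoldt k - thp k| =
      Chebyshev.psi X - Chebyshev.theta X := by
    rw [Chebyshev.psi_sub_theta_eq_sum_not_prime, Nat.floor_natCast, sum_filter]
    apply sum_congr rfl
    intro k _
    unfold thp
    by_cases h : k.Prime
    · rw [if_pos h, ArithmeticFunction.vonMangoldt_apply_prime h, sub_self, abs_zero,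
        if_neg (not_not.2 h)]
    · rw [if_neg h, sub_zero, if_pos h, abs_of_nonneg ArithmeticFunction.vonMangoldt_nonneg]
  rw [h1]
  exact Chebyshev.psi_sub_theta_le (by exact_mod_cast (by omega : 1 ≤ X))

end Pool.MRZ
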