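import Mathlib
import Pool.Agent.MRZ.PairUp
import Pool.Agent.MRZ.Dft

/-!
# MRZ/AMom: the Fourier energies of the primes in short windows

`|a(k)| ≤ thp k`, `a(k) = 0` for `k > X`, `1 ≤ H ≤ X`, `2 ≤ X`, `2H ≤ N`. Put
`A(r) = ∑_{x<X} |∑_{x<k≤x+H} a(k) e(rk/N)|²`, `D = ∑_{x<X} ∑_{x<k≤x+H} |a(k)|²`. Then
* `D ≤ C H X log X` (every `k` is in at most `H` windows, `thp_sums`);
* `A(r) ≤ D + C H² X` for all `r`;
* `∑_{r<N} (A(r) - D)² ≤ C N H³ X²`.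

Proof. Expanding, `A(r) - D = ∑_{0<|d|<H} c_d e(rd/N)`, `c_d = ∑_{k,k'≤X, k-k'=d} a(k) conj a(k') w(k,k')`,
`w(k,k') = #{x < X : x < k, k' ≤ x+H} ≤ H`. By `pair_up` `|c_d| ≤ H G(|d|) X` (`|d| < H ≤ X`). So
`|A(r) - D| ≤ 2HX ∑_{d<H} G(d) ≤ 2HX (H ∑ G²)^{1/2} ≤ C H² X`, and by `dft_l2`
`∑_r |A(r)-D|² = N ∑_{0<|d|<H} |c_d|² ≤ 2 N H² X² ∑_{d<H} G(d)² ≤ C N H³ X²`.
-/

namespace Pool.MRZ

open Finset

/-- every `k` is in at most `H` windows -/
theorem am_win (X H : ℕ) (f : ℕ → ℝ) (hf : ∀ k, 0 ≤ f k) (h0 : ∀ k, X < k → f k = 0) :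
    ∑ x ∈ Finset.range X, ∑ k ∈ Finset.Ioc x (x + H), f k ≤ H * ∑ k ∈ Finset.Icc 1 X, f k := by
  have h1 : ∀ x ∈ Finset.range X, ∑ k ∈ Finset.Ioc x (x + H), f k =
      ∑ j ∈ Finset.Ioc 0 H, f (x + j) := by
    intro x _
    have h := Finset.sum_image (s := Finset.Ioc 0 H) (g := fun j => x + j) (f := f)
      (fun a _ b _ hab => Nat.add_left_cancel hab)
    rw [Finset.image_add_left_Ioc, add_zero] at h
    exact h
  rw [Finset.sum_congr rfl h1, Finset.sum_comm]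
  have h2 : ∀ j ∈ Finset.Ioc 0 H, ∑ x ∈ Finset.range X, f (x + j) ≤ ∑ k ∈ Finset.Icc 1 X, f k := by
    intro j hj
    rw [Finset.mem_Ioc] at hj
    have h := Finset.sum_image (s := Finset.range X) (g := fun x => x + j) (f := f)
      (fun a _ b _ hab => Nat.add_right_cancel hab)
    rw [← h, ← Finset.sum_filter_add_sum_filter_not _ (fun k => k ≤ X)]
    have h3 : ∑ k ∈ ((Finset.range X).image fun x => x + j) with ¬ k ≤ X, f k = 0 := by
      refine Finset.sum_eq_zero fun k hk => h0 k ?_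
      have := (Finset.mem_filter.mp hk).2
      omega
    rw [h3, add_zero]
    refine Finset.sum_le_sum_of_subset_of_nonneg ?_ fun k _ _ => hf k
    intro k hk
    rw [Finset.mem_filter, Finset.mem_image] at hk
    obtain ⟨⟨x, -, rfl⟩, hk2⟩ := hk
    rw [Finset.mem_Icc]
    omega
  refine (Finset.sum_le_sum h2).trans ?_
  rw [Finset.sum_const, Nat.card_Ioc, nsmul_eq_mul, Nat.sub_zero]

/-- correlations of one window -/
noncomputable def amc (a : ℕ → ℂ) (s : Finset ℕ) (d : ℤ) : ℂ :=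
  ∑ k ∈ s, ∑ l ∈ s, if (k : ℤ) - l = d ∧ k ≠ l then a k * (starRingEnd ℂ) (a l) else 0

theorem am_expand (a : ℕ → ℂ) (s : Finset ℕ) (H : ℕ)
    (hs : ∀ k ∈ s, ∀ l ∈ s, (k : ℤ) - l < H) (θ : ℝ) :
    ((‖∑ k ∈ s, a k * ee (θ * k)‖ ^ 2 - ∑ k ∈ s, ‖a k‖ ^ 2 : ℝ) : ℂ) =
      ∑ d ∈ Finset.Ioo (-(H : ℤ)) H, amc a s d * ee (θ * d) := by
  have h1 : ∑ d ∈ Finset.Ioo (-(H : ℤ)) H, amc a s d * ee (θ * d) =
      ∑ k ∈ s, ∑ l ∈ s, if k ≠ l then
        a k * (starRingEnd ℂ) (a l) * ee (θ * ((k : ℝ) - l)) else 0 := by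
    simp only [amc, Finset.sum_mul]
    rw [Finset.sum_comm]
    refine Finset.sum_congr rfl fun k hk => ?_
    rw [Finset.sum_comm]
    refine Finset.sum_congr rfl fun l hl => ?_
    rw [Finset.sum_eq_single ((k : ℤ) - l)]
    · by_cases hkl : k ≠ l
      · rw [if_pos ⟨rfl, hkl⟩, if_pos hkl]
        push_cast
        rfl
      · rw [if_neg fun h => hkl h.2, if_neg hkl, zero_mul]
    · intro d _ hd
      rw [if_neg fun h => hd h.1.symm, zero_mul]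
    · intro h
      exfalso
      apply h
      rw [Finset.mem_Ioo]
      have h2 := hs k hk l hl
      have h3 := hs l hl k hk
      constructor <;> linarith
  have h2 : ((‖∑ k ∈ s, a k * ee (θ * k)‖ ^ 2 : ℝ) : ℂ) =
      ∑ k ∈ s, ∑ l ∈ s, a k * (starRingEnd ℂ) (a l) * ee (θ * ((k : ℝ) - l)) := by
    rw [Complex.ofReal_pow, ← Complex.mul_conj', map_sum, Finset.sum_mul_sum]
    refine Finset.sum_congr rfl fun k _ => Finset.sum_congr rfl fun l _ => ?_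
    rw [map_mul, conj_ee, mul_sub, sub_eq_add_neg, ee_add]
    ring
  have h3 : ((∑ k ∈ s, ‖a k‖ ^ 2 : ℝ) : ℂ) =
      ∑ k ∈ s, ∑ l ∈ s, if k = l then
        a k * (starRingEnd ℂ) (a l) * ee (θ * ((k : ℝ) - l)) else 0 := by
    rw [Complex.ofReal_sum]
    refine Finset.sum_congr rfl fun k hk => ?_
    rw [Finset.sum_ite_eq s k, if_pos hk, sub_self, mul_zero, ee_zero, mul_one,
      Complex.mul_conj', Complex.ofReal_pow]
  rw [Complex.ofReal_sub, h1, h2, h3, ← Finset.sum_sub_distrib]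
  refine Finset.sum_congr rfl fun k _ => ?_
  rw [← Finset.sum_sub_distrib]
  refine Finset.sum_congr rfl fun l _ => ?_
  by_cases h : k = l
  · rw [if_pos h, if_neg (not_not_intro h), sub_self]
  · rw [if_neg h, if_pos h, sub_zero]

theorem amc_zero (a : ℕ → ℂ) (s : Finset ℕ) : amc a s 0 = 0 := by
  refine Finset.sum_eq_zero fun k _ => Finset.sum_eq_zero fun l _ => ?_
  rw [if_neg]
  rintro ⟨h1, h2⟩
  exact h2 (by omega)

theorem amc_le (a : ℕ → ℂ) (s : Finset ℕ) (d : ℤ) :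
    ‖amc a s d‖ ≤ ∑ k ∈ s, ‖a k‖ * ‖a (k + d.natAbs)‖ := by
  have h1 : ‖amc a s d‖ ≤ ∑ k ∈ s, ∑ l ∈ s, if (k : ℤ) - l = d then ‖a k‖ * ‖a l‖ else 0 := by
    refine (norm_sum_le _ _).trans (Finset.sum_le_sum fun k _ => ?_)
    refine (norm_sum_le _ _).trans (Finset.sum_le_sum fun l _ => ?_)
    by_cases h : (k : ℤ) - l = d
    · rw [if_pos h]
      split_ifs
      · rw [norm_mul, RCLike.norm_conj]
      · rw [norm_zero]
        positivity
    · rw [if_neg h, if_neg fun h' => h h'.1, norm_zero]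
  refine h1.trans ?_
  rcases le_or_gt 0 d with hd | hd
  · rw [Finset.sum_comm]
    refine Finset.sum_le_sum fun l _ => ?_
    have h2 : ∀ k ∈ s, (if (k : ℤ) - l = d then ‖a k‖ * ‖a l‖ else 0) =
        if k = l + d.natAbs then ‖a k‖ * ‖a l‖ else 0 := by
      intro k _
      have : (k : ℤ) - l = d ↔ k = l + d.natAbs := by omega
      simp only [this]
    rw [Finset.sum_congr rfl h2, Finset.sum_ite_eq']
    split_ifs
    · rw [mul_comm]
    · positivity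
  · refine Finset.sum_le_sum fun k _ => ?_
    have h2 : ∀ l ∈ s, (if (k : ℤ) - l = d then ‖a k‖ * ‖a l‖ else 0) =
        if l = k + d.natAbs then ‖a k‖ * ‖a l‖ else 0 := by
      intro l _
      have : (k : ℤ) - l = d ↔ l = k + d.natAbs := by omega
      simp only [this]
    rw [Finset.sum_congr rfl h2, Finset.sum_ite_eq']
    split_ifs
    · exact le_rfl
    · positivity

theorem am_fold (H : ℕ) (φ : ℤ → ℝ) (F : ℕ → ℝ) (hF : ∀ m, 0 ≤ F m) (h0 : φ 0 = 0)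
    (h : ∀ d : ℤ, d ≠ 0 → d.natAbs ≤ H → φ d ≤ F d.natAbs) :
    ∑ d ∈ Finset.Ioo (-(H : ℤ)) H, φ d ≤ 2 * ∑ m ∈ Finset.Icc 1 H, F m := by
  have h1 : ∑ d ∈ Finset.Ioo (-(H : ℤ)) H, φ d =
      ∑ d ∈ Finset.Ioo (-(H : ℤ)) H with d ≠ 0, φ d := by
    rw [Finset.sum_filter]
    refine Finset.sum_congr rfl fun d _ => ?_
    by_cases hd : d = 0
    · rw [if_neg (not_not_intro hd), hd, h0]
    · rw [if_pos hd]
  rw [h1]
  have h2 : ∑ d ∈ Finset.Ioo (-(H : ℤ)) H with d ≠ 0, φ d ≤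
      ∑ d ∈ Finset.Ioo (-(H : ℤ)) H with d ≠ 0, F d.natAbs := by
    refine Finset.sum_le_sum fun d hd => ?_
    rw [Finset.mem_filter, Finset.mem_Ioo] at hd
    exact h d hd.2 (by omega)
  refine h2.trans ?_
  rw [← Finset.sum_fiberwise_of_maps_to (t := Finset.Icc 1 H) (g := Int.natAbs), Finset.mul_sum]
  · refine Finset.sum_le_sum fun m _ => ?_
    have h3 : ∑ d ∈ ((Finset.Ioo (-(H : ℤ)) H).filter fun d => d ≠ 0).filter
        (fun d => d.natAbs = m), F d.natAbs ≤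
        ∑ d ∈ ({(m : ℤ), -(m : ℤ)} : Finset ℤ), F d.natAbs := by
      refine Finset.sum_le_sum_of_subset_of_nonneg ?_ fun _ _ _ => hF _
      intro d hd
      rw [Finset.mem_filter] at hd
      rw [Finset.mem_insert, Finset.mem_singleton]
      omega
    refine h3.trans ?_
    refine (Finset.sum_le_card_nsmul _ _ (F m) ?_).trans ?_
    · intro d hd
      rw [Finset.mem_insert, Finset.mem_singleton] at hd
      have : d.natAbs = m := by omega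
      rw [this]
    · rw [nsmul_eq_mul]
      refine mul_le_mul_of_nonneg_right ?_ (hF m)
      exact_mod_cast Finset.card_le_two
  · intro d hd
    rw [Finset.mem_filter, Finset.mem_Ioo] at hd
    rw [Finset.mem_Icc]
    omega

theorem a_mom : ∃ C : ℝ, 0 < C ∧ ∀ (X H N : ℕ) (a : ℕ → ℂ), 2 ≤ X → 1 ≤ H → H ≤ X → 2 * H ≤ N →
    (∀ k, ‖a k‖ ≤ thp k) → (∀ k, X < k → a k = 0) →
    (∑ x ∈ Finset.range X, ∑ k ∈ Finset.Ioc x (x + H), ‖a k‖ ^ 2 ≤ C * H * X * Real.log X) ∧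
    (∀ r : ℕ, ∑ x ∈ Finset.range X, ‖∑ k ∈ Finset.Ioc x (x + H), a k * ee ((r : ℝ) / N * k)‖ ^ 2 ≤
      (∑ x ∈ Finset.range X, ∑ k ∈ Finset.Ioc x (x + H), ‖a k‖ ^ 2) + C * (H : ℝ) ^ 2 * X) ∧
    (∑ r ∈ Finset.range N,
      (∑ x ∈ Finset.range X, ‖∑ k ∈ Finset.Ioc x (x + H), a k * ee ((r : ℝ) / N * k)‖ ^ 2 -
        ∑ x ∈ Finset.range X, ∑ k ∈ Finset.Ioc x (x + H), ‖a k‖ ^ 2) ^ 2 ≤
      C * N * (H : ℝ) ^ 3 * (X : ℝ) ^ 2) := by
  obtain ⟨C0, G, hC0, hG, hG2, hpair⟩ := pair_up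
  obtain ⟨C1, hC1, hsum⟩ := thp_sums
  refine ⟨C1 + (1 + C0) + 2 * C0, by positivity, ?_⟩
  intro X H N a hX hH hHX hN ha ha0
  have hXp : (0 : ℝ) < X := by exact_mod_cast (by omega : 0 < X)
  have hHp : (0 : ℝ) < H := by exact_mod_cast (by omega : 0 < H)
  have hNp : (0 : ℝ) < N := by exact_mod_cast (by omega : 0 < N)
  have hlog : 0 ≤ Real.log X := Real.log_natCast_nonneg X
  set c : ℤ → ℂ := fun d => ∑ x ∈ Finset.range X, amc a (Finset.Ioc x (x + H)) d with hc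
  set D : ℝ := ∑ x ∈ Finset.range X, ∑ k ∈ Finset.Ioc x (x + H), ‖a k‖ ^ 2 with hD
  -- the diagonal
  have hD1 : D ≤ C1 * H * X * Real.log X := by
    refine (am_win X H (fun k => ‖a k‖ ^ 2) (fun k => by positivity) fun k hk => ?_).trans ?_
    · rw [ha0 k hk, norm_zero]
      norm_num
    · have h2 : ∑ k ∈ Finset.Icc 1 X, ‖a k‖ ^ 2 ≤ ∑ k ∈ Finset.Icc 1 X, thp k ^ 2 :=
        Finset.sum_le_sum fun k _ => pow_le_pow_left₀ (norm_nonneg _) (ha k) 2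
      have h3 := (hsum X hX).2
      calc (H : ℝ) * ∑ k ∈ Finset.Icc 1 X, ‖a k‖ ^ 2 ≤ H * (C1 * X * Real.log X) :=
            mul_le_mul_of_nonneg_left (h2.trans h3) hHp.le
        _ = C1 * H * X * Real.log X := by ring
  -- the coefficients
  have hc0 : c 0 = 0 := Finset.sum_eq_zero fun x _ => amc_zero a _
  have hcb : ∀ d : ℤ, d ≠ 0 → d.natAbs ≤ H → ‖c d‖ ≤ H * G d.natAbs * X := by
    intro d hd hdH
    have h1 : ‖c d‖ ≤ ∑ x ∈ Finset.range X, ∑ k ∈ Finset.Ioc x (x + H),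
        ‖a k‖ * ‖a (k + d.natAbs)‖ :=
      (norm_sum_le _ _).trans (Finset.sum_le_sum fun x _ => amc_le a _ d)
    refine h1.trans ((am_win X H (fun k => ‖a k‖ * ‖a (k + d.natAbs)‖) (fun k => by positivity)
      fun k hk => ?_).trans ?_)
    · rw [ha0 k hk, norm_zero, zero_mul]
    · have h2 : ∑ k ∈ Finset.Icc 1 X, ‖a k‖ * ‖a (k + d.natAbs)‖ ≤
          ∑ k ∈ Finset.Icc 1 X, thp k * thp (k + d.natAbs) :=
        Finset.sum_le_sum fun k _ => mul_le_mul (ha k) (ha _) (norm_nonneg _) (thp_nonneg k)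
      have h3 := hpair X d.natAbs (by omega) (by omega)
      calc (H : ℝ) * ∑ k ∈ Finset.Icc 1 X, ‖a k‖ * ‖a (k + d.natAbs)‖ ≤ H * (G d.natAbs * X) :=
            mul_le_mul_of_nonneg_left (h2.trans h3) hHp.le
        _ = H * G d.natAbs * X := by ring
  -- the expansion
  have hexp : ∀ θ : ℝ, ((∑ x ∈ Finset.range X, ‖∑ k ∈ Finset.Ioc x (x + H), a k * ee (θ * k)‖ ^ 2 -
      D : ℝ) : ℂ) = ∑ d ∈ Finset.Ioo (-(H : ℤ)) H, c d * ee (θ * d) := by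
    intro θ
    rw [hD, ← Finset.sum_sub_distrib, Complex.ofReal_sum]
    have h1 : ∀ x ∈ Finset.range X, ((‖∑ k ∈ Finset.Ioc x (x + H), a k * ee (θ * k)‖ ^ 2 -
        ∑ k ∈ Finset.Ioc x (x + H), ‖a k‖ ^ 2 : ℝ) : ℂ) =
        ∑ d ∈ Finset.Ioo (-(H : ℤ)) H, amc a (Finset.Ioc x (x + H)) d * ee (θ * d) := by
      intro x _
      refine am_expand a _ H ?_ θ
      intro k hk l hl
      rw [Finset.mem_Ioc] at hk hl
      omega
    rw [Finset.sum_congr rfl h1, Finset.sum_comm]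
    refine Finset.sum_congr rfl fun d _ => ?_
    rw [hc, Finset.sum_mul]
  have habs : ∀ θ : ℝ, |∑ x ∈ Finset.range X, ‖∑ k ∈ Finset.Ioc x (x + H), a k * ee (θ * k)‖ ^ 2 -
      D| = ‖∑ d ∈ Finset.Ioo (-(H : ℤ)) H, c d * ee (θ * d)‖ := by
    intro θ
    rw [← hexp θ, Complex.norm_real, Real.norm_eq_abs]
  refine ⟨?_, ?_, ?_⟩
  · refine hD1.trans ?_
    have h1 : 0 ≤ (H : ℝ) * X * Real.log X := by positivity
    nlinarith
  · intro r
    have h1 := habs ((r : ℝ) / N)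
    have h2 : ‖∑ d ∈ Finset.Ioo (-(H : ℤ)) H, c d * ee ((r : ℝ) / N * d)‖ ≤
        ∑ d ∈ Finset.Ioo (-(H : ℤ)) H, ‖c d‖ := by
      refine (norm_sum_le _ _).trans (le_of_eq (Finset.sum_congr rfl fun d _ => ?_))
      rw [norm_mul, norm_ee, mul_one]
    have h3 : ∑ d ∈ Finset.Ioo (-(H : ℤ)) H, ‖c d‖ ≤ 2 * ∑ m ∈ Finset.Icc 1 H, (H * G m * X) :=
      am_fold H (fun d => ‖c d‖) (fun m => H * G m * X)
        (fun m => mul_nonneg (mul_nonneg hHp.le (hG m)) hXp.le) (by rw [hc0, norm_zero]) hcb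
    have h4 : 2 * ∑ m ∈ Finset.Icc 1 H, (H * G m * X) ≤ (1 + C0) * (H : ℝ) ^ 2 * X := by
      have h5 : ∀ m ∈ Finset.Icc 1 H, (H * G m * X : ℝ) ≤ H * X / 2 * (1 + G m ^ 2) := by
        intro m _
        have h6 : 0 ≤ (H : ℝ) * X / 2 * (1 - G m) ^ 2 := by positivity
        nlinarith
      have h7 := Finset.sum_le_sum h5
      rw [← Finset.mul_sum, Finset.sum_add_distrib, Finset.sum_const, Nat.card_Icc,
        Nat.add_sub_cancel, nsmul_eq_mul, mul_one] at h7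
      have h8 := hG2 H
      have h9 : (H : ℝ) * X / 2 * (H + ∑ m ∈ Finset.Icc 1 H, G m ^ 2) ≤
          H * X / 2 * (H + C0 * H) :=
        mul_le_mul_of_nonneg_left (by linarith) (by positivity)
      calc 2 * ∑ m ∈ Finset.Icc 1 H, (H * G m * X) ≤ 2 * (H * X / 2 * (H + C0 * H)) := by
            linarith
        _ = (1 + C0) * (H : ℝ) ^ 2 * X := by ring
    have h10 := le_abs_self (∑ x ∈ Finset.range X,
      ‖∑ k ∈ Finset.Ioc x (x + H), a k * ee ((r : ℝ) / N * k)‖ ^ 2 - D)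
    have h11 : (1 + C0) * (H : ℝ) ^ 2 * X ≤ (C1 + (1 + C0) + 2 * C0) * (H : ℝ) ^ 2 * X := by
      have h12 : 0 ≤ (C1 + 2 * C0) * ((H : ℝ) ^ 2 * X) := by positivity
      nlinarith
    linarith
  · have h1 : ∑ r ∈ Finset.range N,
        (∑ x ∈ Finset.range X, ‖∑ k ∈ Finset.Ioc x (x + H), a k * ee ((r : ℝ) / N * k)‖ ^ 2 -
          D) ^ 2 = ∑ r ∈ Finset.range N,
        ‖∑ d ∈ Finset.Ioo (-(H : ℤ)) H, c d * ee ((r : ℝ) / N * d)‖ ^ 2 := by
      refine Finset.sum_congr rfl fun r _ => ?_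
      rw [← habs, sq_abs]
    rw [h1, dft_l2 c H N hN (by omega)]
    have h3 : ∑ d ∈ Finset.Ioo (-(H : ℤ)) H, ‖c d‖ ^ 2 ≤
        2 * ∑ m ∈ Finset.Icc 1 H, (H * G m * X) ^ 2 := by
      refine am_fold H (fun d => ‖c d‖ ^ 2) (fun m => (H * G m * X) ^ 2)
        (fun m => sq_nonneg _) (by rw [hc0, norm_zero]; norm_num) ?_
      intro d hd hdH
      exact pow_le_pow_left₀ (norm_nonneg _) (hcb d hd hdH) 2
    have h4 : ∑ m ∈ Finset.Icc 1 H, ((H : ℝ) * G m * X) ^ 2 =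
        (H : ℝ) ^ 2 * (X : ℝ) ^ 2 * ∑ m ∈ Finset.Icc 1 H, G m ^ 2 := by
      rw [Finset.mul_sum]
      exact Finset.sum_congr rfl fun m _ => by ring
    rw [h4] at h3
    have h5 : (H : ℝ) ^ 2 * (X : ℝ) ^ 2 * ∑ m ∈ Finset.Icc 1 H, G m ^ 2 ≤
        (H : ℝ) ^ 2 * (X : ℝ) ^ 2 * (C0 * H) :=
      mul_le_mul_of_nonneg_left (hG2 H) (by positivity)
    calc (N : ℝ) * ∑ d ∈ Finset.Ioo (-(H : ℤ)) H, ‖c d‖ ^ 2 ≤
          N * (2 * ((H : ℝ) ^ 2 * (X : ℝ) ^ 2 * (C0 * H))) :=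
          mul_le_mul_of_nonneg_left (by linarith) hNp.le
      _ = (2 * C0) * (N * (H : ℝ) ^ 3 * (X : ℝ) ^ 2) := by ring
      _ ≤ (C1 + (1 + C0) + 2 * C0) * (N * (H : ℝ) ^ 3 * (X : ℝ) ^ 2) :=
          mul_le_mul_of_nonneg_right (by linarith) (by positivity)
      _ = (C1 + (1 + C0) + 2 * C0) * N * (H : ℝ) ^ 3 * (X : ℝ) ^ 2 := by ring

end Pool.MRZ
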