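import Mathlib
import Pool.Agent.MRZ.Sup

/-!
# MRZ/WDefs: weights of prime tuples and the abstract hypotheses used for the correlations

`W S k = ∏_{a∈S} thp (k+a)` for a finite set `S ⊆ ℕ` of shifts, `WL S k = ∏_{a∈S} Λ(k+a)`.

`WGood w ℓ`: the four upper bounds (mean, mean square, correlations, correlations at finitely many exceptional
shifts) which are used in the correlation argument; `W S` is `WGood` with `ℓ = S.card` (file `WUp`).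
-/

namespace Pool.MRZ

open Finset

/-- weight of prime tuples -/
noncomputable def W (S : Finset ℕ) (k : ℕ) : ℝ := ∏ a ∈ S, thp (k + a)

/-- weight of prime tuples with `Λ` -/
noncomputable def WL (S : Finset ℕ) (k : ℕ) : ℝ := ∏ a ∈ S, ArithmeticFunction.vonMangoldt (k + a)

lemma W_nonneg (S : Finset ℕ) (k : ℕ) : 0 ≤ W S k :=
  Finset.prod_nonneg fun _ _ => thp_nonneg _

lemma WL_nonneg (S : Finset ℕ) (k : ℕ) : 0 ≤ WL S k :=
  Finset.prod_nonneg fun _ _ => ArithmeticFunction.vonMangoldt_nonneg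

/-- the upper bounds used for a weight of logarithmic order `ℓ` -/
def WGood (w : ℕ → ℝ) (ℓ : ℕ) : Prop :=
  (∀ k, 0 ≤ w k) ∧ ∃ (C : ℝ) (G : ℕ → ℝ) (Ds : Finset ℕ), 0 < C ∧ (∀ d, 0 ≤ G d) ∧
    (∀ N : ℕ, ∑ d ∈ Finset.Icc 1 N, G d ^ 2 ≤ C * N) ∧
    (∀ X : ℕ, 2 ≤ X → ∑ k ∈ Finset.Icc 1 X, w k ≤ C * X) ∧
    (∀ X : ℕ, 2 ≤ X → ∑ k ∈ Finset.Icc 1 X, w k ^ 2 ≤ C * X * Real.log X ^ ℓ) ∧
    (∀ X d : ℕ, 2 ≤ X → 1 ≤ d → d ≤ X → d ∉ Ds →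
      ∑ k ∈ Finset.Icc 1 X, w k * w (k + d) ≤ G d * X) ∧
    (∀ X d : ℕ, 2 ≤ X → d ∈ Ds →
      ∑ k ∈ Finset.Icc 1 X, w k * w (k + d) ≤ C * X * Real.log X ^ ℓ)

end Pool.MRZ
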