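import Mathlib
import Pool.Agent.MRZ.WDefs
import Pool.Agent.MRZ.Dft
import Pool.Agent.MRZ.AMom

/-!
# MRZ/AMomW: Fourier energies in short windows, general weight (generalises `AMom`)

`WGood w ℓ`, `|a(k)| ≤ w k`, `a(k) = 0` for `k > X`, `1 ≤ H ≤ X`, `2 ≤ X`, `2H ≤ N`,
`A(r) = ∑_{x<X} |∑_{x<k≤x+H} a(k) e(rk/N)|²`. There is `E : ℕ → ℝ` with
* `|E(r)| ≤ C H X (log X)^ℓ` for all `r`;
* `|A(r) - E(r)| ≤ C H² X` for all `r`;
* `∑_{r<N} (A(r) - E(r))² ≤ C N H³ X²`.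

Proof. Expanding, `A(r) = ∑_{|d|<H} c_d e(rd/N)`, `c_d = ∑_{k,k'≤X, k-k'=d} a(k) conj a(k') w(k,k')`,
`#{x < X : x < k, k' ≤ x+H} = w(k,k') ≤ H`. Let `E(r)` be the part with `d = 0` or `|d| ∈ Ds` (real, because
`c_{-d} = conj c_d`): `|c_0| ≤ H ∑ w(k)²`, `|c_d| ≤ H ∑_{k≤X} w(k) w(k+|d|)`, so
`|E(r)| ≤ (1 + 2 #Ds) C H X (log X)^ℓ`. For the other `d`: `|c_d| ≤ H G(|d|) X`, so
`|A(r) - E(r)| ≤ 2HX ∑_{d<H} G(d) ≤ 2HX (H ∑ G²)^{1/2} ≤ C H² X`, and by `dft_l2`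
`∑_r |A(r)-E(r)|² = N ∑ |c_d|² ≤ 2 N H² X² ∑_{d<H} G(d)² ≤ C N H³ X²`.
(The finished `AMom.lean` is the case `w = thp`, `ℓ = 1`, `Ds = ∅`; its proof can be copied.)
-/

namespace Pool.MRZ

open Finset

theorem a_momW (w : ℕ → ℝ) (ℓ : ℕ) (hw : WGood w ℓ) : ∃ C : ℝ, 0 < C ∧
    ∀ (X H N : ℕ) (a : ℕ → ℂ), 2 ≤ X → 1 ≤ H → H ≤ X → 2 * H ≤ N →
    (∀ k, ‖a k‖ ≤ w k) → (∀ k, X < k → a k = 0) → a 0 = 0 →
    ∃ E : ℕ → ℝ, (∀ r, |E r| ≤ C * H * X * Real.log X ^ ℓ) ∧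
    (∀ r : ℕ, |∑ x ∈ Finset.range X, ‖∑ k ∈ Finset.Ioc x (x + H), a k * ee ((r : ℝ) / N * k)‖ ^ 2 -
      E r| ≤ C * (H : ℝ) ^ 2 * X) ∧
    (∑ r ∈ Finset.range N,
      (∑ x ∈ Finset.range X, ‖∑ k ∈ Finset.Ioc x (x + H), a k * ee ((r : ℝ) / N * k)‖ ^ 2 -
        E r) ^ 2 ≤ C * N * (H : ℝ) ^ 3 * (X : ℝ) ^ 2) := by
  obtain ⟨hw0, C0, G, Ds, hC0, hG, hG2, -, hsum, hpair, hpairD⟩ := hw
  refine ⟨C0 * (1 + 2 * Ds.card) + (1 + C0) + 2 * C0, by positivity, ?_⟩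
  intro X H N a hX hH hHX hN ha ha0 _
  have hXp : (0 : ℝ) < X := by exact_mod_cast (by omega : 0 < X)
  have hHp : (0 : ℝ) < H := by exact_mod_cast (by omega : 0 < H)
  have hNp : (0 : ℝ) < N := by exact_mod_cast (by omega : 0 < N)
  have hlog : 0 ≤ Real.log X ^ ℓ := pow_nonneg (Real.log_natCast_nonneg X) ℓ
  set c : ℤ → ℂ := fun d => ∑ x ∈ Finset.range X, amc a (Finset.Ioc x (x + H)) d with hc
  set D : ℝ := ∑ x ∈ Finset.range X, ∑ k ∈ Finset.Ioc x (x + H), ‖a k‖ ^ 2 with hD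
  have hD0 : 0 ≤ D := Finset.sum_nonneg fun x _ => Finset.sum_nonneg fun k _ => sq_nonneg _
  -- the diagonal
  have hD1 : D ≤ H * (C0 * X * Real.log X ^ ℓ) := by
    refine (am_win X H (fun k => ‖a k‖ ^ 2) (fun k => by positivity) fun k hk => ?_).trans ?_
    · rw [ha0 k hk, norm_zero]
      norm_num
    · have h2 : ∑ k ∈ Finset.Icc 1 X, ‖a k‖ ^ 2 ≤ ∑ k ∈ Finset.Icc 1 X, w k ^ 2 :=
        Finset.sum_le_sum fun k _ => pow_le_pow_left₀ (norm_nonneg _) (ha k) 2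
      exact mul_le_mul_of_nonneg_left (h2.trans (hsum X hX)) hHp.le
  -- the coefficients
  have hc0 : c 0 = 0 := Finset.sum_eq_zero fun x _ => amc_zero a _
  have hcg : ∀ (d : ℤ) (B : ℝ), ∑ k ∈ Finset.Icc 1 X, w k * w (k + d.natAbs) ≤ B →
      ‖c d‖ ≤ H * B := by
    intro d B hB
    have h1 : ‖c d‖ ≤ ∑ x ∈ Finset.range X, ∑ k ∈ Finset.Ioc x (x + H),
        ‖a k‖ * ‖a (k + d.natAbs)‖ :=
      (norm_sum_le _ _).trans (Finset.sum_le_sum fun x _ => amc_le a _ d)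
    refine h1.trans ((am_win X H (fun k => ‖a k‖ * ‖a (k + d.natAbs)‖) (fun k => by positivity)
      fun k hk => ?_).trans ?_)
    · rw [ha0 k hk, norm_zero, zero_mul]
    · have h2 : ∑ k ∈ Finset.Icc 1 X, ‖a k‖ * ‖a (k + d.natAbs)‖ ≤
          ∑ k ∈ Finset.Icc 1 X, w k * w (k + d.natAbs) :=
        Finset.sum_le_sum fun k _ => mul_le_mul (ha k) (ha _) (norm_nonneg _) (hw0 k)
      exact mul_le_mul_of_nonneg_left (h2.trans hB) hHp.le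
  classical
  set c1 : ℤ → ℂ := fun d => if d.natAbs ∈ Ds then 0 else c d with hc1
  set c2 : ℤ → ℂ := fun d => if d.natAbs ∈ Ds then c d else 0 with hc2
  have hc12 : ∀ d, c d = c1 d + c2 d := by
    intro d
    simp only [hc1, hc2]
    split_ifs <;> simp
  have hc10 : c1 0 = 0 := by
    simp only [hc1]
    split_ifs
    · rfl
    · exact hc0
  have hc20 : c2 0 = 0 := by
    simp only [hc2]
    split_ifs
    · exact hc0
    · rfl
  have hcb : ∀ d : ℤ, d ≠ 0 → d.natAbs ≤ H → ‖c1 d‖ ≤ H * G d.natAbs * X := by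
    intro d hd hdH
    simp only [hc1]
    split_ifs with h
    · rw [norm_zero]
      exact mul_nonneg (mul_nonneg hHp.le (hG _)) hXp.le
    · refine (hcg d _ (hpair X d.natAbs hX (by omega) (by omega) h)).trans (le_of_eq ?_)
      ring
  -- the expansion
  have hexp : ∀ θ : ℝ, ((∑ x ∈ Finset.range X, ‖∑ k ∈ Finset.Ioc x (x + H), a k * ee (θ * k)‖ ^ 2 -
      D : ℝ) : ℂ) = ∑ d ∈ Finset.Ioo (-(H : ℤ)) H, c d * ee (θ * d) := by
    intro θ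
    rw [hD, ← Finset.sum_sub_distrib, Complex.ofReal_sum]
    have h1 : ∀ x ∈ Finset.range X, ((‖∑ k ∈ Finset.Ioc x (x + H), a k * ee (θ * k)‖ ^ 2 -
        ∑ k ∈ Finset.Ioc x (x + H), ‖a k‖ ^ 2 : ℝ) : ℂ) =
        ∑ d ∈ Finset.Ioo (-(H : ℤ)) H, amc a (Finset.Ioc x (x + H)) d * ee (θ * d) := by
      intro x _
      refine am_expand a _ H ?_ θ
      intro k hk l hl
      rw [Finset.mem_Ioc] at hk hl
      omega
    rw [Finset.sum_congr rfl h1, Finset.sum_comm]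
    refine Finset.sum_congr rfl fun d _ => ?_
    rw [hc, Finset.sum_mul]
  set S1 : ℝ → ℂ := fun θ => ∑ d ∈ Finset.Ioo (-(H : ℤ)) H, c1 d * ee (θ * d) with hS1
  set S2 : ℝ → ℂ := fun θ => ∑ d ∈ Finset.Ioo (-(H : ℤ)) H, c2 d * ee (θ * d) with hS2
  have hS12 : ∀ θ : ℝ, ∑ x ∈ Finset.range X, ‖∑ k ∈ Finset.Ioc x (x + H), a k * ee (θ * k)‖ ^ 2 -
      (D + (S2 θ).re) = (S1 θ).re := by
    intro θ
    have h1 : ∑ d ∈ Finset.Ioo (-(H : ℤ)) H, c d * ee (θ * d) = S1 θ + S2 θ := by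
      rw [hS1, hS2, ← Finset.sum_add_distrib]
      refine Finset.sum_congr rfl fun d _ => ?_
      rw [hc12 d]
      ring
    have h2 := congrArg Complex.re (hexp θ)
    rw [h1, Complex.ofReal_re, Complex.add_re] at h2
    linarith
  have hre : ∀ z : ℂ, |z.re| ≤ ‖z‖ := Complex.abs_re_le_norm
  refine ⟨fun r => D + (S2 ((r : ℝ) / N)).re, ?_, ?_, ?_⟩
  · intro r
    have h1 : |D + (S2 ((r : ℝ) / N)).re| ≤ D + ‖S2 ((r : ℝ) / N)‖ := by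
      refine (abs_add_le _ _).trans ?_
      rw [abs_of_nonneg hD0]
      linarith [hre (S2 ((r : ℝ) / N))]
    have h2 : ‖S2 ((r : ℝ) / N)‖ ≤ ∑ d ∈ Finset.Ioo (-(H : ℤ)) H, ‖c2 d‖ := by
      refine (norm_sum_le _ _).trans (le_of_eq (Finset.sum_congr rfl fun d _ => ?_))
      rw [norm_mul, norm_ee, mul_one]
    have h3 : ∑ d ∈ Finset.Ioo (-(H : ℤ)) H, ‖c2 d‖ ≤
        2 * ∑ m ∈ Finset.Icc 1 H, (if m ∈ Ds then (H : ℝ) * (C0 * X * Real.log X ^ ℓ) else 0) := by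
      refine am_fold H (fun d => ‖c2 d‖)
        (fun m => if m ∈ Ds then (H : ℝ) * (C0 * X * Real.log X ^ ℓ) else 0) ?_
        (by rw [hc20, norm_zero]) ?_
      · intro m
        show (0 : ℝ) ≤ if m ∈ Ds then (H : ℝ) * (C0 * X * Real.log X ^ ℓ) else 0
        split_ifs
        · positivity
        · exact le_rfl
      · intro d _ _
        show ‖c2 d‖ ≤ if d.natAbs ∈ Ds then (H : ℝ) * (C0 * X * Real.log X ^ ℓ) else 0
        simp only [hc2]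
        split_ifs with h
        · exact hcg d _ (hpairD X d.natAbs hX h)
        · rw [norm_zero]
    have h4 : ∑ m ∈ Finset.Icc 1 H, (if m ∈ Ds then (H : ℝ) * (C0 * X * Real.log X ^ ℓ) else 0) ≤
        Ds.card * ((H : ℝ) * (C0 * X * Real.log X ^ ℓ)) := by
      rw [← Finset.sum_filter, Finset.sum_const, nsmul_eq_mul]
      refine mul_le_mul_of_nonneg_right ?_ (by positivity)
      have : ((Finset.Icc 1 H).filter fun m => m ∈ Ds) ⊆ Ds := fun m hm => (Finset.mem_filter.mp hm).2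
      exact_mod_cast Finset.card_le_card this
    have h5 : (C0 * (1 + 2 * Ds.card) + (1 + C0) + 2 * C0) * H * X * Real.log X ^ ℓ =
        (H * (C0 * X * Real.log X ^ ℓ) + 2 * (Ds.card * ((H : ℝ) * (C0 * X * Real.log X ^ ℓ)))) +
          ((1 + C0) + 2 * C0) * (H * X * Real.log X ^ ℓ) := by ring
    have h6 : 0 ≤ ((1 + C0) + 2 * C0) * (H * X * Real.log X ^ ℓ) := by positivity
    show |D + (S2 ((r : ℝ) / N)).re| ≤ _
    rw [h5]
    linarith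
  · intro r
    show |_ - (D + (S2 ((r : ℝ) / N)).re)| ≤ _
    rw [hS12]
    refine (hre _).trans ?_
    have h2 : ‖S1 ((r : ℝ) / N)‖ ≤ ∑ d ∈ Finset.Ioo (-(H : ℤ)) H, ‖c1 d‖ := by
      refine (norm_sum_le _ _).trans (le_of_eq (Finset.sum_congr rfl fun d _ => ?_))
      rw [norm_mul, norm_ee, mul_one]
    have h3 : ∑ d ∈ Finset.Ioo (-(H : ℤ)) H, ‖c1 d‖ ≤ 2 * ∑ m ∈ Finset.Icc 1 H, (H * G m * X) :=
      am_fold H (fun d => ‖c1 d‖) (fun m => H * G m * X)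
        (fun m => mul_nonneg (mul_nonneg hHp.le (hG m)) hXp.le) (by rw [hc10, norm_zero]) hcb
    have h4 : 2 * ∑ m ∈ Finset.Icc 1 H, (H * G m * X) ≤ (1 + C0) * (H : ℝ) ^ 2 * X := by
      have h5 : ∀ m ∈ Finset.Icc 1 H, (H * G m * X : ℝ) ≤ H * X / 2 * (1 + G m ^ 2) := by
        intro m _
        have h6 : 0 ≤ (H : ℝ) * X / 2 * (1 - G m) ^ 2 := by positivity
        nlinarith
      have h7 := Finset.sum_le_sum h5
      rw [← Finset.mul_sum, Finset.sum_add_distrib, Finset.sum_const, Nat.card_Icc,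
        Nat.add_sub_cancel, nsmul_eq_mul, mul_one] at h7
      have h8 := hG2 H
      have h9 : (H : ℝ) * X / 2 * (H + ∑ m ∈ Finset.Icc 1 H, G m ^ 2) ≤
          H * X / 2 * (H + C0 * H) :=
        mul_le_mul_of_nonneg_left (by linarith) (by positivity)
      calc 2 * ∑ m ∈ Finset.Icc 1 H, (H * G m * X) ≤ 2 * (H * X / 2 * (H + C0 * H)) := by
            linarith
        _ = (1 + C0) * (H : ℝ) ^ 2 * X := by ring
    have h11 : (C0 * (1 + 2 * Ds.card) + (1 + C0) + 2 * C0) * (H : ℝ) ^ 2 * X =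
        (1 + C0) * (H : ℝ) ^ 2 * X + (C0 * (1 + 2 * Ds.card) + 2 * C0) * ((H : ℝ) ^ 2 * X) := by ring
    have h12 : 0 ≤ (C0 * (1 + 2 * Ds.card) + 2 * C0) * ((H : ℝ) ^ 2 * X) :=
      mul_nonneg (by nlinarith [mul_nonneg hC0.le (Nat.cast_nonneg (α := ℝ) Ds.card)])
        (mul_nonneg (sq_nonneg _) hXp.le)
    rw [h11]
    linarith
  · show ∑ r ∈ Finset.range N,
      (∑ x ∈ Finset.range X, ‖∑ k ∈ Finset.Ioc x (x + H), a k * ee ((r : ℝ) / N * k)‖ ^ 2 -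
        (D + (S2 ((r : ℝ) / N)).re)) ^ 2 ≤ _
    have h1 : ∑ r ∈ Finset.range N,
        (∑ x ∈ Finset.range X, ‖∑ k ∈ Finset.Ioc x (x + H), a k * ee ((r : ℝ) / N * k)‖ ^ 2 -
          (D + (S2 ((r : ℝ) / N)).re)) ^ 2 ≤ ∑ r ∈ Finset.range N, ‖S1 ((r : ℝ) / N)‖ ^ 2 := by
      refine Finset.sum_le_sum fun r _ => ?_
      rw [hS12, ← sq_abs]
      exact pow_le_pow_left₀ (abs_nonneg _) (hre _) 2
    refine h1.trans ?_
    rw [hS1, dft_l2 c1 H N hN (by omega)]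
    have h3 : ∑ d ∈ Finset.Ioo (-(H : ℤ)) H, ‖c1 d‖ ^ 2 ≤
        2 * ∑ m ∈ Finset.Icc 1 H, (H * G m * X) ^ 2 := by
      refine am_fold H (fun d => ‖c1 d‖ ^ 2) (fun m => (H * G m * X) ^ 2)
        (fun m => sq_nonneg _) (by rw [hc10, norm_zero]; norm_num) ?_
      intro d hd hdH
      exact pow_le_pow_left₀ (norm_nonneg _) (hcb d hd hdH) 2
    have h4 : ∑ m ∈ Finset.Icc 1 H, ((H : ℝ) * G m * X) ^ 2 =
        (H : ℝ) ^ 2 * (X : ℝ) ^ 2 * ∑ m ∈ Finset.Icc 1 H, G m ^ 2 := by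
      rw [Finset.mul_sum]
      exact Finset.sum_congr rfl fun m _ => by ring
    rw [h4] at h3
    have h5 : (H : ℝ) ^ 2 * (X : ℝ) ^ 2 * ∑ m ∈ Finset.Icc 1 H, G m ^ 2 ≤
        (H : ℝ) ^ 2 * (X : ℝ) ^ 2 * (C0 * H) :=
      mul_le_mul_of_nonneg_left (hG2 H) (by positivity)
    calc (N : ℝ) * ∑ d ∈ Finset.Ioo (-(H : ℤ)) H, ‖c1 d‖ ^ 2 ≤
          N * (2 * ((H : ℝ) ^ 2 * (X : ℝ) ^ 2 * (C0 * H))) :=
          mul_le_mul_of_nonneg_left (by linarith) hNp.le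
      _ = (2 * C0) * (N * (H : ℝ) ^ 3 * (X : ℝ) ^ 2) := by ring
      _ ≤ (C0 * (1 + 2 * Ds.card) + (1 + C0) + 2 * C0) * (N * (H : ℝ) ^ 3 * (X : ℝ) ^ 2) :=
          mul_le_mul_of_nonneg_right (by
            have : 0 ≤ C0 * (1 + 2 * (Ds.card : ℝ)) := by
              nlinarith [mul_nonneg hC0.le (Nat.cast_nonneg (α := ℝ) Ds.card)]
            linarith) (by positivity)
      _ = _ := by ring

end Pool.MRZ
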