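import Mathlib
import Pool.Agent.MRZ.AMomW

/-!
# MRZ/CoreW: the correlation estimate for short ranges of shifts, general weight

`WGood w ℓ`, `|g| ≤ 1`, `SupA g`, `A ≥ 1`. For every `ε > 0` there are `η > 0`, `K`, `X₀`: for `X ≥ X₀`,
`K (log X)^ℓ ≤ H ≤ ηX`, `K ≤ H`, `h₀ ≤ A X`, `|b_k| ≤ 1`, `|e_h| ≤ 1`:
`|∑_{h₀<h≤h₀+H} e_h ∑_{1≤k≤X} w(k) b(k) g(k+h)| ≤ ε H X`.

Proof. Copy of `CorrCore` with `a(k) = w(k) b(k)` (`1 ≤ k ≤ X`) and `a_momW` in place of `a_mom`: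
`T = ∑_k a(k) ∑_h e_h g(k+h)`, `T' = (1/H) ∑_{x<X} ∑_{x<k≤x+H} a(k) ∑_h e_h g(k+h)`; `|T - T'| ≤ H ∑_{k≤H} w(k) ≤ C H²
≤ C η H X`. For fixed `x`: `k = x+i`, `h = h₀+h'`, `i,h' ∈ [1,H]`; `dft_triple` with `N = 2H`:
`∑ = (1/N) ∑_{r<N} Â_x(r) ê(r) B̂_x(r)`. Cauchy–Schwarz over `x`, then over `r`:
`|T'| ≤ (1/(HN)) ∑_r |ê(r)| (A(r) B(r))^{1/2} ≤ (1/(HN)) (N H)^{1/2} (∑_r A(r) B(r))^{1/2}`
(`dft_parseval` for `ê`), `A(r) = ∑_{x<X} |Â_x(r)|²`, `B(r) = ∑_{x<X} |B̂_x(r)|²`.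
* `B(r) ≤ 2H ∑_{x<X} |B̂_x(r)| ≤ 2H ∑_{y<(A+1)X} |∑_{y<n≤y+2H} g(n)e(-rn/N)| ≤ 4 η'(A+1) H² X` by `SupA g`
  (`2H ≤ (A+1)X`, `2H ≥ K` large).
* `∑_r B(r) = ∑_x N ∑_l |g|² ≤ X N 2H = 4H²X` (`dft_parseval'`).
* `a_momW`: `A(r) ≤ C H X (log X)^ℓ + C H² X ≤ 2C H² X` (`K ≥ 1`); if `A(r) > δH²X` then
  `|A(r) - E(r)| ≥ δH²X - C H X (log X)^ℓ ≥ (δ/2)H²X` (`K ≥ 2C/δ`), so there are at most
  `C N H³X²/((δ/2)²H⁴X²) = 8C/δ²` such `r`.
`∑_r A B ≤ (8C/δ²)(2CH²X)(4η'(A+1)H²X) + δH²X·4H²X = (64C²(A+1)η'/δ² + 4δ) H⁴X²`, so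
`|T'| ≤ (64C²(A+1)η'/δ² + 4δ)^{1/2} H X`. Choose `δ`, then `η'`, then `η = min(1, ε/(2C))`.
-/

namespace Pool.MRZ

open Finset

namespace CoreWAux

theorem shift_sum (F : ℕ → ℂ) (x L : ℕ) :
    ∑ k ∈ Finset.Ioc x (x + L), F k = ∑ i ∈ Finset.Icc 1 L, F (x + i) := by
  have h : Finset.Ioc x (x + L) = (Finset.Icc 1 L).map (addLeftEmbedding x) := by
    rw [Finset.map_add_left_Icc]
    ext n
    rw [Finset.mem_Ioc, Finset.mem_Icc]
    omega
  rw [h, Finset.sum_map]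
  rfl

theorem shift_ee (F : ℕ → ℂ) (x L : ℕ) (θ : ℝ) :
    ‖∑ k ∈ Finset.Ioc x (x + L), F k * ee (θ * k)‖ =
      ‖∑ i ∈ Finset.Icc 1 L, F (x + i) * ee (θ * i)‖ := by
  rw [shift_sum]
  have h : ∑ i ∈ Finset.Icc 1 L, F (x + i) * ee (θ * ((x + i : ℕ) : ℝ)) =
      ee (θ * x) * ∑ i ∈ Finset.Icc 1 L, F (x + i) * ee (θ * i) := by
    rw [Finset.mul_sum]
    refine Finset.sum_congr rfl fun i _ => ?_
    have h1 : ee (θ * ((x + i : ℕ) : ℝ)) = ee (θ * x) * ee (θ * i) := by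
      rw [← ee_add]
      congr 1
      push_cast
      ring
    rw [h1]
    ring
  rw [h, norm_mul, norm_ee, one_mul]

/-- every `k ≤ X` lies in `min k H` of the windows -/
theorem windows (F : ℕ → ℂ) (X H : ℕ) (h0 : F 0 = 0) (hX : ∀ k, X < k → F k = 0) :
    ∑ x ∈ Finset.range X, ∑ k ∈ Finset.Ioc x (x + H), F k =
      ∑ k ∈ Finset.Icc 1 X, ((min k H : ℕ) : ℂ) * F k := by
  have h1 : ∀ x ∈ Finset.range X, ∑ k ∈ Finset.Ioc x (x + H), F k =
      ∑ k ∈ Finset.Icc 1 X, if x < k ∧ k ≤ x + H then F k else 0 := by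
    intro x _
    rw [← Finset.sum_filter]
    symm
    refine Finset.sum_subset ?_ ?_
    · intro k hk
      rw [Finset.mem_filter] at hk
      rw [Finset.mem_Ioc]
      exact hk.2
    · intro k hk hk2
      rw [Finset.mem_filter, Finset.mem_Icc] at hk2
      rw [Finset.mem_Ioc] at hk
      refine hX k ?_
      by_contra hcon
      exact hk2 ⟨⟨by omega, by omega⟩, hk⟩
  rw [Finset.sum_congr rfl h1, Finset.sum_comm]
  refine Finset.sum_congr rfl fun k hk => ?_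
  rw [Finset.mem_Icc] at hk
  rw [← Finset.sum_filter, Finset.sum_const, nsmul_eq_mul]
  congr 2
  have h2 : (Finset.range X).filter (fun x => x < k ∧ k ≤ x + H) = Finset.Ico (k - H) k := by
    ext x
    rw [Finset.mem_filter, Finset.mem_range, Finset.mem_Ico]
    omega
  rw [h2, Nat.card_Ico]
  omega

/-- replacing the sum by the average over the windows -/
theorem near (F : ℕ → ℂ) (X H : ℕ) (hHX : H ≤ X) (h0 : F 0 = 0) (hX : ∀ k, X < k → F k = 0) :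
    (H : ℝ) * ‖∑ k ∈ Finset.Icc 1 X, F k‖ ≤
      ‖∑ x ∈ Finset.range X, ∑ k ∈ Finset.Ioc x (x + H), F k‖ +
        H * ∑ k ∈ Finset.Icc 1 H, ‖F k‖ := by
  rw [windows F X H h0 hX]
  have h1 : (H : ℂ) * ∑ k ∈ Finset.Icc 1 X, F k =
      (∑ k ∈ Finset.Icc 1 X, ((min k H : ℕ) : ℂ) * F k) +
        ∑ k ∈ Finset.Icc 1 X, ((H - min k H : ℕ) : ℂ) * F k := by
    rw [← Finset.sum_add_distrib, Finset.mul_sum]
    refine Finset.sum_congr rfl fun k _ => ?_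
    rw [← add_mul, ← Nat.cast_add, Nat.add_sub_cancel' (min_le_right _ _)]
  have h2 : (H : ℝ) * ‖∑ k ∈ Finset.Icc 1 X, F k‖ = ‖(H : ℂ) * ∑ k ∈ Finset.Icc 1 X, F k‖ := by
    rw [norm_mul, Complex.norm_natCast]
  rw [h2, h1]
  refine (norm_add_le _ _).trans (add_le_add le_rfl ?_)
  have h3 : ∑ k ∈ Finset.Icc 1 X, ((H - min k H : ℕ) : ℂ) * F k =
      ∑ k ∈ Finset.Icc 1 H, ((H - min k H : ℕ) : ℂ) * F k := by
    symm
    refine Finset.sum_subset (Finset.Icc_subset_Icc_right hHX) ?_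
    intro k _ hk
    rw [Finset.mem_Icc] at hk
    by_cases hk0 : k = 0
    · rw [hk0, h0, mul_zero]
    · have : H - min k H = 0 := by omega
      rw [this]
      simp
  rw [h3, Finset.mul_sum]
  refine norm_sum_le_of_le _ fun k _ => ?_
  rw [norm_mul, Complex.norm_natCast]
  refine mul_le_mul_of_nonneg_right ?_ (norm_nonneg _)
  exact_mod_cast Nat.sub_le _ _

/-- Cauchy-Schwarz twice -/
theorem cs_twice (X N : ℕ) (a b : ℕ → ℕ → ℝ) (e : ℕ → ℝ) :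
    (∑ x ∈ Finset.range X, ∑ r ∈ Finset.range N, a x r * e r * b x r) ^ 2 ≤
      (∑ r ∈ Finset.range N, e r ^ 2) *
        ∑ r ∈ Finset.range N, (∑ x ∈ Finset.range X, a x r ^ 2) * ∑ x ∈ Finset.range X, b x r ^ 2 := by
  have h1 : ∑ x ∈ Finset.range X, ∑ r ∈ Finset.range N, a x r * e r * b x r =
      ∑ r ∈ Finset.range N, e r * ∑ x ∈ Finset.range X, a x r * b x r := by
    rw [Finset.sum_comm]
    refine Finset.sum_congr rfl fun r _ => ?_
    rw [Finset.mul_sum]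
    refine Finset.sum_congr rfl fun x _ => ?_
    ring
  rw [h1]
  refine (Finset.sum_mul_sq_le_sq_mul_sq _ _ _).trans ?_
  refine mul_le_mul_of_nonneg_left ?_ (Finset.sum_nonneg fun _ _ => sq_nonneg _)
  exact Finset.sum_le_sum fun r _ => Finset.sum_mul_sq_le_sq_mul_sq _ _ _

/-- the large values argument -/
theorem bad (N : ℕ) (A E B : ℕ → ℝ) (M δ Amax Bmax V SB : ℝ) (hM : 0 < M) (hδ : 0 < δ)
    (hAB : 0 ≤ Amax * Bmax)
    (hE : ∀ r ∈ Finset.range N, |E r| ≤ δ / 2 * M)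
    (hA : ∀ r ∈ Finset.range N, A r ≤ Amax) (hB0 : ∀ r ∈ Finset.range N, 0 ≤ B r)
    (hA0 : ∀ r ∈ Finset.range N, 0 ≤ A r)
    (hB : ∀ r ∈ Finset.range N, B r ≤ Bmax) (hV : ∑ r ∈ Finset.range N, (A r - E r) ^ 2 ≤ V)
    (hSB : ∑ r ∈ Finset.range N, B r ≤ SB) :
    ∑ r ∈ Finset.range N, A r * B r ≤ δ * M * SB + Amax * Bmax * (V / (δ / 2 * M) ^ 2) := by
  have hδM : 0 < δ / 2 * M := by positivity
  have h1 : ∀ r ∈ Finset.range N, A r * B r ≤
      δ * M * B r + Amax * Bmax * ((A r - E r) ^ 2 / (δ / 2 * M) ^ 2) := by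
    intro r hr
    have hn : 0 ≤ Amax * Bmax * ((A r - E r) ^ 2 / (δ / 2 * M) ^ 2) :=
      mul_nonneg hAB (by positivity)
    have hn2 : 0 ≤ δ * M * B r := mul_nonneg (by positivity) (hB0 r hr)
    by_cases h : A r ≤ δ * M
    · have := mul_le_mul_of_nonneg_right h (hB0 r hr)
      linarith
    · rw [not_le] at h
      have h2 : δ / 2 * M ≤ A r - E r := by
        have := (abs_le.1 (hE r hr)).2
        linarith
      have h3 : 1 ≤ (A r - E r) ^ 2 / (δ / 2 * M) ^ 2 := by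
        rw [one_le_div (by positivity)]
        exact pow_le_pow_left₀ hδM.le h2 2
      have h4 : A r * B r ≤ Amax * Bmax :=
        mul_le_mul (hA r hr) (hB r hr) (hB0 r hr) ((hA0 r hr).trans (hA r hr))
      have h5 := mul_le_mul_of_nonneg_left h3 hAB
      linarith
  refine (Finset.sum_le_sum h1).trans ?_
  rw [Finset.sum_add_distrib, ← Finset.mul_sum, ← Finset.mul_sum, ← Finset.sum_div]
  refine add_le_add (mul_le_mul_of_nonneg_left hSB (by positivity)) ?_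
  refine mul_le_mul_of_nonneg_left ?_ hAB
  gcongr

/-- the Fourier expansion of one window -/
theorem window_fourier (a e g : ℕ → ℂ) (x h₀ H N : ℕ) (hH : 1 ≤ H) (hN : N = 2 * H) :
    ‖∑ k ∈ Finset.Ioc x (x + H), a k * ∑ h ∈ Finset.Ioc h₀ (h₀ + H), e h * g (k + h)‖ ≤
      (N : ℝ)⁻¹ * ∑ r ∈ Finset.range N,
        ‖∑ k ∈ Finset.Ioc x (x + H), a k * ee ((r : ℝ) / N * k)‖ *
        ‖∑ h ∈ Finset.Icc 1 H, e (h₀ + h) * ee ((r : ℝ) / N * h)‖ *
        ‖∑ n ∈ Finset.Ioc (x + h₀) (x + h₀ + 2 * H), g n * ee (-((r : ℝ) / N) * n)‖ := by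
  have h1 : ∑ k ∈ Finset.Ioc x (x + H), a k * ∑ h ∈ Finset.Ioc h₀ (h₀ + H), e h * g (k + h) =
      ∑ i ∈ Finset.Icc 1 H, ∑ h ∈ Finset.Icc 1 H,
        a (x + i) * e (h₀ + h) * g (x + h₀ + (i + h)) := by
    rw [shift_sum]
    refine Finset.sum_congr rfl fun i _ => ?_
    rw [shift_sum, Finset.mul_sum]
    refine Finset.sum_congr rfl fun h _ => ?_
    have h2 : x + i + (h₀ + h) = x + h₀ + (i + h) := by ring
    rw [h2]
    ring
  rw [h1, dft_triple (fun i => a (x + i)) (fun h => e (h₀ + h)) (fun l => g (x + h₀ + l)) H N hH hN.ge,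
    norm_mul, norm_inv, Complex.norm_natCast]
  refine mul_le_mul_of_nonneg_left ?_ (by positivity)
  refine norm_sum_le_of_le _ fun r _ => ?_
  rw [norm_mul, norm_mul, shift_ee a x H, shift_ee g (x + h₀) (2 * H)]

/-- the numerical end -/
theorem final_num {S P Q H N M ε : ℝ} (hH : 0 < H) (hN : N = 2 * H) (hM : 0 < M) (hε : 0 < ε)
    (hS : S ≤ N⁻¹ * P) (hP : P ^ 2 ≤ (N * H) * Q) (hQ : Q ≤ ε ^ 2 / 4 * M ^ 2) :
    S ≤ ε / 2 * M := by
  have hN0 : 0 < N := by rw [hN]; linarith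
  have h1 : P ^ 2 ≤ (N * (ε / 2 * M)) ^ 2 := by
    have h2 : (N * H) * Q ≤ (N * H) * (ε ^ 2 / 4 * M ^ 2) :=
      mul_le_mul_of_nonneg_left hQ (by positivity)
    have h3 : (N * (ε / 2 * M)) ^ 2 = (N * N) * (ε ^ 2 / 4 * M ^ 2) := by ring
    have h4 : (N * H) * (ε ^ 2 / 4 * M ^ 2) ≤ (N * N) * (ε ^ 2 / 4 * M ^ 2) := by
      refine mul_le_mul_of_nonneg_right ?_ (by positivity)
      refine mul_le_mul_of_nonneg_left ?_ hN0.le
      linarith
    linarith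
  have h5 : P ≤ N * (ε / 2 * M) := by
    have := abs_le_of_sq_le_sq h1 (by positivity)
    exact (le_abs_self P).trans this
  calc S ≤ N⁻¹ * P := hS
    _ ≤ N⁻¹ * (N * (ε / 2 * M)) := mul_le_mul_of_nonneg_left h5 (by positivity)
    _ = ε / 2 * M := by
        rw [← mul_assoc, inv_mul_cancel₀ hN0.ne', one_mul]

end CoreWAux

open CoreWAux

theorem corr_coreW (w : ℕ → ℝ) (ℓ : ℕ) (hw : WGood w ℓ) (g : ℕ → ℂ) (hg : ∀ n, ‖g n‖ ≤ 1)
    (hs : SupA g) (A : ℕ) (hA : 1 ≤ A) (ε : ℝ) (hε : 0 < ε) :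
    ∃ (η K : ℝ) (X₀ : ℕ), 0 < η ∧ η ≤ 1 ∧ 0 < K ∧ ∀ (X H h₀ : ℕ) (b e : ℕ → ℂ),
    X₀ ≤ X → K ≤ H → K * Real.log X ^ ℓ ≤ H → (H : ℝ) ≤ η * X → h₀ ≤ A * X →
    (∀ k, ‖b k‖ ≤ 1) → (∀ h, ‖e h‖ ≤ 1) →
    ‖∑ h ∈ Finset.Ioc h₀ (h₀ + H), e h * ∑ k ∈ Finset.Icc 1 X,
        (w k : ℂ) * b k * g (k + h)‖ ≤ ε * H * X := by
  obtain ⟨hw0, C₁, G, Ds, hC₁, hG0, hG, hw1, hw2, hw3, hw4⟩ := id hw
  obtain ⟨C, hC, hmom⟩ := a_momW w ℓ hw
  set δ : ℝ := ε ^ 2 / 32 with hδ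
  have hδ0 : 0 < δ := by positivity
  set η' : ℝ := ε ^ 2 * δ ^ 2 / (512 * C ^ 2 * (A + 1)) with hη'
  have hη'0 : 0 < η' := by positivity
  obtain ⟨H₀, X₁, hsup⟩ := hs η' hη'0
  refine ⟨min 1 (ε / (2 * C₁)), max (max 2 (2 * C / δ)) H₀, max X₁ 2, by positivity,
    min_le_left _ _, lt_of_lt_of_le two_pos ((le_max_left _ _).trans (le_max_left _ _)), ?_⟩
  intro X H h₀ b e hX hKH hKH2 hHη hh₀ hb he
  set K : ℝ := max (max 2 (2 * C / δ)) H₀ with hK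
  have hK2 : (2 : ℝ) ≤ K := (le_max_left _ _).trans (le_max_left _ _)
  have hK3 : 2 * C / δ ≤ K := (le_max_right _ _).trans (le_max_left _ _)
  have hK4 : (H₀ : ℝ) ≤ K := le_max_right _ _
  have hX1 : X₁ ≤ X := (le_max_left _ _).trans hX
  have hX2 : 2 ≤ X := (le_max_right _ _).trans hX
  have hH2 : 2 ≤ H := by
    have : (2 : ℝ) ≤ H := hK2.trans hKH
    exact_mod_cast this
  have hHH₀ : H₀ ≤ H := by
    have : (H₀ : ℝ) ≤ H := hK4.trans hKH
    exact_mod_cast this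
  have hHr : (0 : ℝ) < H := by
    have : (2 : ℝ) ≤ H := by exact_mod_cast hH2
    linarith
  have hXr : (0 : ℝ) < X := by
    have : (2 : ℝ) ≤ X := by exact_mod_cast hX2
    linarith
  have hHX' : (H : ℝ) ≤ X := by
    refine hHη.trans ?_
    have := mul_le_mul_of_nonneg_right (min_le_left 1 (ε / (2 * C₁))) hXr.le
    linarith
  have hHX : H ≤ X := by exact_mod_cast hHX'
  have hHη2 : C₁ * H ≤ ε / 2 * X := by
    have h1 := mul_le_mul_of_nonneg_right (min_le_right 1 (ε / (2 * C₁))) hXr.le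
    have h2 : C₁ * (H : ℝ) ≤ C₁ * (ε / (2 * C₁) * X) :=
      mul_le_mul_of_nonneg_left (hHη.trans h1) hC₁.le
    have h3 : C₁ * (ε / (2 * C₁) * X) = ε / 2 * X := by field_simp
    linarith
  have hlog : Real.log X ^ ℓ ≤ H / K := by
    rw [le_div_iff₀ (by linarith)]
    linarith
  have hlog0 : 0 ≤ Real.log X ^ ℓ := pow_nonneg (Real.log_natCast_nonneg X) _
  -- the data
  set a : ℕ → ℂ := fun k => if 1 ≤ k ∧ k ≤ X then (w k : ℂ) * b k else 0 with ha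
  have ha0 : a 0 = 0 := by simp [ha]
  have haX : ∀ k, X < k → a k = 0 := by
    intro k hk
    rw [ha]
    simp only
    rw [if_neg (by omega)]
  have haw : ∀ k, ‖a k‖ ≤ w k := by
    intro k
    rw [ha]
    simp only
    split_ifs
    · rw [norm_mul, Complex.norm_real, Real.norm_of_nonneg (hw0 k)]
      exact mul_le_of_le_one_right (hw0 k) (hb k)
    · rw [norm_zero]
      exact hw0 k
  set D : ℕ → ℂ := fun k => ∑ h ∈ Finset.Ioc h₀ (h₀ + H), e h * g (k + h) with hD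
  have hDH : ∀ k, ‖D k‖ ≤ H := by
    intro k
    refine (norm_sum_le_of_le (n := fun _ => (1 : ℝ)) _ fun h _ => ?_).trans ?_
    · rw [norm_mul]
      exact mul_le_one₀ (he h) (norm_nonneg _) (hg _)
    · rw [Finset.sum_const, Nat.card_Ioc, nsmul_eq_mul, mul_one]
      have : h₀ + H - h₀ = H := by omega
      rw [this]
  have hT : ∑ h ∈ Finset.Ioc h₀ (h₀ + H), e h * ∑ k ∈ Finset.Icc 1 X,
        (w k : ℂ) * b k * g (k + h) = ∑ k ∈ Finset.Icc 1 X, a k * D k := by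
    have h1 : ∀ h ∈ Finset.Ioc h₀ (h₀ + H), e h * ∑ k ∈ Finset.Icc 1 X,
        (w k : ℂ) * b k * g (k + h) = ∑ k ∈ Finset.Icc 1 X, a k * (e h * g (k + h)) := by
      intro h _
      rw [Finset.mul_sum]
      refine Finset.sum_congr rfl fun k hk => ?_
      rw [Finset.mem_Icc] at hk
      rw [ha]
      simp only
      rw [if_pos hk]
      ring
    rw [Finset.sum_congr rfl h1, Finset.sum_comm]
    refine Finset.sum_congr rfl fun k _ => ?_
    rw [← Finset.mul_sum]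
  rw [hT]
  obtain ⟨N, hN⟩ : ∃ N, N = 2 * H := ⟨_, rfl⟩
  have hNr : (N : ℝ) = 2 * H := by rw [hN]; push_cast; ring
  have hN1 : 1 ≤ N := by omega
  obtain ⟨E, hE1, hE2, hE3⟩ := hmom X H N a hX2 (by omega) hHX (by omega) haw haX ha0
  set Ah : ℕ → ℕ → ℝ := fun x r => ‖∑ k ∈ Finset.Ioc x (x + H), a k * ee ((r : ℝ) / N * k)‖ with hAh
  set eh : ℕ → ℝ := fun r => ‖∑ h ∈ Finset.Icc 1 H, e (h₀ + h) * ee ((r : ℝ) / N * h)‖ with heh
  set Bh : ℕ → ℕ → ℝ := fun x r =>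
    ‖∑ n ∈ Finset.Ioc (x + h₀) (x + h₀ + 2 * H), g n * ee (-((r : ℝ) / N) * n)‖ with hBh
  set M : ℝ := (H : ℝ) ^ 2 * X with hM
  have hM0 : 0 < M := by positivity
  -- the energies
  have hBh2 : ∀ x r, Bh x r ≤ 2 * H := by
    intro x r
    refine (norm_sum_le_of_le (n := fun _ => (1 : ℝ)) _ fun n _ => ?_).trans ?_
    · rw [norm_mul, norm_ee, mul_one]
      exact hg _
    · rw [Finset.sum_const, Nat.card_Ioc, nsmul_eq_mul, mul_one]
      have : x + h₀ + 2 * H - (x + h₀) = 2 * H := by omega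
      rw [this]
      push_cast
      exact le_rfl
  have hBh0 : ∀ x r, 0 ≤ Bh x r := fun x r => norm_nonneg _
  have hBsum : ∀ r : ℕ, ∑ x ∈ Finset.range X, Bh x r ^ 2 ≤ 4 * η' * (A + 1) * M := by
    intro r
    have h1 : ∑ x ∈ Finset.range X, Bh x r ^ 2 ≤ ∑ x ∈ Finset.range X, 2 * H * Bh x r := by
      refine Finset.sum_le_sum fun x _ => ?_
      rw [sq]
      exact mul_le_mul_of_nonneg_right (hBh2 x r) (hBh0 x r)
    have h2 : ∑ x ∈ Finset.range X, Bh x r ≤ ∑ y ∈ Finset.range ((A + 1) * X),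
        ‖∑ n ∈ Finset.Ioc y (y + 2 * H), g n * ee (-((r : ℝ) / N) * n)‖ := by
      have h3 : ∑ x ∈ Finset.range X, Bh x r = ∑ y ∈ (Finset.range X).map (addRightEmbedding h₀),
          ‖∑ n ∈ Finset.Ioc y (y + 2 * H), g n * ee (-((r : ℝ) / N) * n)‖ := by
        rw [Finset.sum_map]
        rfl
      rw [h3]
      refine Finset.sum_le_sum_of_subset_of_nonneg ?_ fun _ _ _ => norm_nonneg _
      intro y hy
      rw [Finset.mem_map] at hy
      obtain ⟨x, hx, rfl⟩ := hy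
      rw [Finset.mem_range] at *
      show x + h₀ < (A + 1) * X
      rw [add_mul, one_mul]
      omega
    have hX1' : X₁ ≤ (A + 1) * X := hX1.trans (Nat.le_mul_of_pos_left _ (by omega))
    have hH2X : 2 * H ≤ (A + 1) * X := by
      have h4 : 2 * X ≤ (A + 1) * X := Nat.mul_le_mul_right _ (by omega)
      omega
    have h3 := hsup ((A + 1) * X) (2 * H) hX1' (by omega) hH2X (-((r : ℝ) / N))
    have h4 := h2.trans h3
    push_cast at h4
    rw [← Finset.mul_sum] at h1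
    have h5 : 2 * (H : ℝ) * ∑ x ∈ Finset.range X, Bh x r ≤
        2 * H * (η' * (2 * H) * ((A + 1) * X)) := mul_le_mul_of_nonneg_left h4 (by positivity)
    have h6 : 2 * (H : ℝ) * (η' * (2 * H) * ((A + 1) * X)) = 4 * η' * (A + 1) * M := by
      rw [hM]
      ring
    linarith
  have hBtot : ∑ r ∈ Finset.range N, ∑ x ∈ Finset.range X, Bh x r ^ 2 ≤ 4 * M := by
    rw [Finset.sum_comm]
    have h1 : ∀ x ∈ Finset.range X, ∑ r ∈ Finset.range N, Bh x r ^ 2 ≤ N * (2 * H) := by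
      intro x _
      have h2 : ∑ r ∈ Finset.range N, Bh x r ^ 2 = ∑ r ∈ Finset.range N,
          ‖∑ l ∈ Finset.Icc 1 (2 * H), (fun l => g (x + h₀ + l)) l * ee (-((r : ℝ) / N) * l)‖ ^ 2 := by
        refine Finset.sum_congr rfl fun r _ => ?_
        rw [hBh]
        simp only
        rw [shift_ee]
      rw [h2, dft_parseval' (fun l => g (x + h₀ + l)) (2 * H) N (by omega) hN1]
      refine mul_le_mul_of_nonneg_left ?_ (by positivity)
      have h3 : ∑ l ∈ Finset.Icc 1 (2 * H), ‖g (x + h₀ + l)‖ ^ 2 ≤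
          ∑ _l ∈ Finset.Icc 1 (2 * H), (1 : ℝ) :=
        Finset.sum_le_sum fun l _ => pow_le_one₀ (norm_nonneg _) (hg _)
      refine h3.trans ?_
      rw [Finset.sum_const, Nat.card_Icc, nsmul_eq_mul, mul_one]
      have : 2 * H + 1 - 1 = 2 * H := by omega
      rw [this]
      push_cast
      exact le_rfl
    refine (Finset.sum_le_sum h1).trans ?_
    rw [Finset.sum_const, Finset.card_range, nsmul_eq_mul, hNr, hM]
    exact le_of_eq (by ring)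
  have hAmax : ∀ r, ∑ x ∈ Finset.range X, Ah x r ^ 2 ≤ 2 * C * M := by
    intro r
    have h1 := (abs_le.1 (hE2 r)).2
    have h2 := (abs_le.1 (hE1 r)).2
    have h3 : C * H * X * Real.log X ^ ℓ ≤ C * H * X * H := by
      refine mul_le_mul_of_nonneg_left ?_ (by positivity)
      refine hlog.trans (div_le_self hHr.le (by linarith))
    have h4 : C * H * X * H = C * M := by rw [hM]; ring
    have h5 : C * (H : ℝ) ^ 2 * X = C * M := by rw [hM]; ring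
    have h6 : ∑ x ∈ Finset.range X, Ah x r ^ 2 = ∑ x ∈ Finset.range X,
      ‖∑ k ∈ Finset.Ioc x (x + H), a k * ee ((r : ℝ) / N * k)‖ ^ 2 := rfl
    rw [h6]
    linarith
  have hEsmall : ∀ r, |E r| ≤ δ / 2 * M := by
    intro r
    refine (hE1 r).trans ?_
    have h1 : C * H * X * Real.log X ^ ℓ ≤ C * H * X * (H / K) :=
      mul_le_mul_of_nonneg_left hlog (by positivity)
    have h2 : C * H * X * (H / K) = C / K * M := by rw [hM]; ring
    have h3 : C / K ≤ δ / 2 := by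
      rw [div_le_iff₀ hδ0] at hK3
      rw [div_le_iff₀ (by linarith)]
      linarith
    have h4 : C / K * M ≤ δ / 2 * M := mul_le_mul_of_nonneg_right h3 hM0.le
    linarith
  have hV : ∑ r ∈ Finset.range N, (∑ x ∈ Finset.range X, Ah x r ^ 2 - E r) ^ 2 ≤ 2 * C * M ^ 2 := by
    refine hE3.trans (le_of_eq ?_)
    rw [hNr, hM]
    ring
  have hQ := bad N (fun r => ∑ x ∈ Finset.range X, Ah x r ^ 2) E
    (fun r => ∑ x ∈ Finset.range X, Bh x r ^ 2) M δ (2 * C * M) (4 * η' * (A + 1) * M)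
    (2 * C * M ^ 2) (4 * M) hM0 hδ0 (by positivity) (fun r _ => hEsmall r) (fun r _ => hAmax r)
    (fun r _ => Finset.sum_nonneg fun _ _ => sq_nonneg _)
    (fun r _ => Finset.sum_nonneg fun _ _ => sq_nonneg _) (fun r _ => hBsum r) hV hBtot
  have hQ2 : δ * M * (4 * M) + 2 * C * M * (4 * η' * (A + 1) * M) *
      (2 * C * M ^ 2 / (δ / 2 * M) ^ 2) = ε ^ 2 / 4 * M ^ 2 := by
    have hA1 : (0 : ℝ) < A + 1 := by positivity
    rw [hη']
    have h1 : 2 * C * M * (4 * (ε ^ 2 * δ ^ 2 / (512 * C ^ 2 * (A + 1))) * (A + 1) * M) *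
      (2 * C * M ^ 2 / (δ / 2 * M) ^ 2) = ε ^ 2 / 8 * M ^ 2 := by
      field_simp
      ring
    rw [h1, hδ]
    ring
  rw [hQ2] at hQ
  have hcs := cs_twice X N Ah Bh eh
  have hehs : ∑ r ∈ Finset.range N, eh r ^ 2 ≤ N * H := by
    rw [heh]
    simp only
    rw [dft_parseval (fun h => e (h₀ + h)) H N (by omega) hN1]
    refine mul_le_mul_of_nonneg_left ?_ (by positivity)
    have h3 : ∑ l ∈ Finset.Icc 1 H, ‖e (h₀ + l)‖ ^ 2 ≤ ∑ _l ∈ Finset.Icc 1 H, (1 : ℝ) :=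
      Finset.sum_le_sum fun l _ => pow_le_one₀ (norm_nonneg _) (he _)
    refine h3.trans ?_
    rw [Finset.sum_const, Nat.card_Icc, nsmul_eq_mul, mul_one, Nat.add_sub_cancel]
  have hQ0 : 0 ≤ ∑ r ∈ Finset.range N,
      (∑ x ∈ Finset.range X, Ah x r ^ 2) * ∑ x ∈ Finset.range X, Bh x r ^ 2 :=
    Finset.sum_nonneg fun r _ => mul_nonneg (Finset.sum_nonneg fun _ _ => sq_nonneg _)
      (Finset.sum_nonneg fun _ _ => sq_nonneg _)
  have hcs2 := hcs.trans (mul_le_mul_of_nonneg_right hehs hQ0)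
  have hS : ‖∑ x ∈ Finset.range X, ∑ k ∈ Finset.Ioc x (x + H), a k * D k‖ ≤
      (N : ℝ)⁻¹ * ∑ x ∈ Finset.range X, ∑ r ∈ Finset.range N, Ah x r * eh r * Bh x r := by
    rw [Finset.mul_sum]
    exact norm_sum_le_of_le _ fun x _ => window_fourier a e g x h₀ H N (by omega) hN
  have hS2 := final_num hHr hNr hM0 hε hS hcs2 hQ
  have hnear := near (fun k => a k * D k) X H hHX (by rw [ha0, zero_mul])
    (fun k hk => by rw [haX k hk, zero_mul])
  have hsmall : ∑ k ∈ Finset.Icc 1 H, ‖a k * D k‖ ≤ H * (C₁ * H) := by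
    have h1 : ∀ k ∈ Finset.Icc 1 H, ‖a k * D k‖ ≤ H * w k := by
      intro k _
      rw [norm_mul, mul_comm]
      exact mul_le_mul (hDH k) (haw k) (norm_nonneg _) hHr.le
    refine (Finset.sum_le_sum h1).trans ?_
    rw [← Finset.mul_sum]
    exact mul_le_mul_of_nonneg_left (hw1 H hH2) hHr.le
  have h7 : (H : ℝ) * ‖∑ k ∈ Finset.Icc 1 X, a k * D k‖ ≤ H * (ε * H * X) := by
    refine hnear.trans ?_
    have h8 : (H : ℝ) * ∑ k ∈ Finset.Icc 1 H, ‖a k * D k‖ ≤ H * (H * (ε / 2 * X)) := by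
      refine mul_le_mul_of_nonneg_left (hsmall.trans ?_) hHr.le
      exact mul_le_mul_of_nonneg_left hHη2 hHr.le
    have h9 : H * (ε * H * X) = ε / 2 * M + H * (H * (ε / 2 * X)) := by
      rw [hM]
      ring
    rw [h9]
    exact add_le_add hS2 h8
  exact le_of_mul_le_mul_left h7 hHr

end Pool.MRZ
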