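import Mathlib
import Pool.Agent.MRZ.Defs

/-!
# MRZ/Fejer: the Fejér kernel with integer frequencies

`fej T θ = ∑_{|t|<T} (1 - |t|/T) cos (t θ)`.

* `fej T θ = (1/T) (sin(Tθ/2)/sin(θ/2))²` if `sin(θ/2) ≠ 0`, so `0 ≤ fej`, and since
  `|sin(θ/2)| ≥ |θ|/π` for `|θ| ≤ π` (`Real.mul_abs_le_abs_sin` or Jordan), `fej T θ ≤ π²/(T θ²)`.
  (Easy way: `T * fej T θ = |∑_{j<T} e^{ijθ}|²` by counting differences `t = j - k`;
  then use the geometric sum for the upper bound.)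
* expansion: `∑_{|t|<T} (1-|t|/T) |∑_{n∈S} a_n n^{it}|² = ∑_{m,n} Re(a_m conj a_n) fej T (log m - log n)`:
  expand the square, `tw t m * conj (tw t n) = exp(i t (log m - log n))`, and the part
  `Im(a_m conj a_n) sin(t ·)` cancels because the weights are even in `t`.
-/

namespace Pool.MRZ

open Finset

/-- Fejér kernel -/
noncomputable def fej (T : ℕ) (θ : ℝ) : ℝ :=
  ∑ t ∈ Finset.Ioo (-(T : ℤ)) T, (1 - |(t : ℝ)| / T) * Real.cos (t * θ)

namespace FejA

lemma sum_diff (F : ℤ → ℝ) (T : ℕ) :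
    ∑ p ∈ Finset.range T ×ˢ Finset.range T, F ((p.1 : ℤ) - p.2) =
      ∑ t ∈ Finset.Ioo (-(T : ℤ)) T, ((T : ℝ) - |(t : ℝ)|) * F t := by
  classical
  have hmaps : ∀ p ∈ Finset.range T ×ˢ Finset.range T,
      ((p.1 : ℤ) - p.2) ∈ Finset.Ioo (-(T : ℤ)) T := by
    intro p hp
    rw [Finset.mem_product, Finset.mem_range, Finset.mem_range] at hp
    rw [Finset.mem_Ioo]
    omega
  rw [← Finset.sum_fiberwise_of_maps_to (g := fun p : ℕ × ℕ => (p.1 : ℤ) - p.2) hmaps]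
  refine Finset.sum_congr rfl fun t ht => ?_
  rw [Finset.mem_Ioo] at ht
  have h1 : ∀ p ∈ (Finset.range T ×ˢ Finset.range T).filter
      (fun p : ℕ × ℕ => (p.1 : ℤ) - p.2 = t), F ((p.1 : ℤ) - p.2) = F t := by
    intro p hp
    rw [Finset.mem_filter] at hp
    rw [hp.2]
  rw [Finset.sum_congr rfl h1, Finset.sum_const]
  have h2 : (Finset.range T ×ˢ Finset.range T).filter
      (fun p : ℕ × ℕ => (p.1 : ℤ) - p.2 = t)
      = (Finset.range (T - t.natAbs)).image (fun k => (k + t.toNat, k + (-t).toNat)) := by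
    ext ⟨j, k⟩
    simp only [Finset.mem_filter, Finset.mem_product, Finset.mem_range, Finset.mem_image,
      Prod.mk.injEq]
    constructor
    · rintro ⟨⟨h1, h2⟩, h3⟩
      exact ⟨j - t.toNat, by omega, by omega, by omega⟩
    · rintro ⟨m, h1, h2, h3⟩
      omega
  rw [h2, Finset.card_image_of_injective, Finset.card_range, nsmul_eq_mul]
  · congr 1
    rw [Nat.cast_sub (by omega), Nat.cast_natAbs, Int.cast_abs]
  · intro x y hxy
    simp only [Prod.mk.injEq] at hxy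
    omega

/-- the real and imaginary parts of the geometric sum -/
noncomputable def cs (T : ℕ) (θ : ℝ) : ℝ := ∑ j ∈ Finset.range T, Real.cos (j * θ)

noncomputable def sn (T : ℕ) (θ : ℝ) : ℝ := ∑ j ∈ Finset.range T, Real.sin (j * θ)

lemma sq_sum (T : ℕ) (θ : ℝ) : cs T θ ^ 2 + sn T θ ^ 2 =
    ∑ p ∈ Finset.range T ×ˢ Finset.range T, Real.cos ((((p.1 : ℤ) - p.2 : ℤ) : ℝ) * θ) := by
  rw [pow_two, pow_two, cs, sn, Finset.sum_mul_sum, Finset.sum_mul_sum,
    ← Finset.sum_product', ← Finset.sum_product', ← Finset.sum_add_distrib]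
  refine Finset.sum_congr rfl fun p _ => ?_
  rw [← Real.cos_sub]
  congr 1
  push_cast
  ring

lemma mul_fej (T : ℕ) (θ : ℝ) : (T : ℝ) * fej T θ = cs T θ ^ 2 + sn T θ ^ 2 := by
  rw [sq_sum, sum_diff (fun t => Real.cos ((t : ℝ) * θ)), fej, Finset.mul_sum]
  refine Finset.sum_congr rfl fun t ht => ?_
  have hT : (T : ℝ) ≠ 0 := by
    intro h
    have : T = 0 := by exact_mod_cast h
    subst this
    simp at ht
  field_simp

lemma fej_zero (θ : ℝ) : fej 0 θ = 0 := by simp [fej]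

lemma cs_tel (T : ℕ) (θ : ℝ) : 2 * Real.sin (θ / 2) * cs T θ
    = Real.sin ((T - 1 / 2) * θ) + Real.sin (θ / 2) := by
  induction T with
  | zero =>
    simp only [cs, Finset.range_zero, Finset.sum_empty, mul_zero, Nat.cast_zero]
    have : (0 - 1 / 2 : ℝ) * θ = -(θ / 2) := by ring
    rw [this, Real.sin_neg]
    ring
  | succ n ih =>
    rw [cs, Finset.sum_range_succ, mul_add]
    rw [cs] at ih
    rw [ih]
    have e1 : ((n + 1 : ℕ) - 1 / 2 : ℝ) * θ = n * θ + θ / 2 := by push_cast; ring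
    have e2 : (n - 1 / 2 : ℝ) * θ = n * θ - θ / 2 := by ring
    rw [e1, e2, Real.sin_add, Real.sin_sub]
    ring

lemma sn_tel (T : ℕ) (θ : ℝ) : 2 * Real.sin (θ / 2) * sn T θ
    = Real.cos (θ / 2) - Real.cos ((T - 1 / 2) * θ) := by
  induction T with
  | zero =>
    simp only [sn, Finset.range_zero, Finset.sum_empty, mul_zero, Nat.cast_zero]
    have : (0 - 1 / 2 : ℝ) * θ = -(θ / 2) := by ring
    rw [this, Real.cos_neg]
    ring
  | succ n ih =>
    rw [sn, Finset.sum_range_succ, mul_add]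
    rw [sn] at ih
    rw [ih]
    have e1 : ((n + 1 : ℕ) - 1 / 2 : ℝ) * θ = n * θ + θ / 2 := by push_cast; ring
    have e2 : (n - 1 / 2 : ℝ) * θ = n * θ - θ / 2 := by ring
    rw [e1, e2, Real.cos_add, Real.cos_sub]
    ring

lemma sin_sq_mul (T : ℕ) (θ : ℝ) :
    Real.sin (θ / 2) ^ 2 * (cs T θ ^ 2 + sn T θ ^ 2) ≤ 1 := by
  have h1 := cs_tel T θ
  have h2 := sn_tel T θ
  have h3 : 4 * (Real.sin (θ / 2) ^ 2 * (cs T θ ^ 2 + sn T θ ^ 2))
      = (Real.sin ((T - 1 / 2) * θ) + Real.sin (θ / 2)) ^ 2 +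
        (Real.cos (θ / 2) - Real.cos ((T - 1 / 2) * θ)) ^ 2 := by
    rw [← h1, ← h2]; ring
  have h4 := Real.sin_sq_add_cos_sq ((T - 1 / 2) * θ)
  have h5 := Real.sin_sq_add_cos_sq (θ / 2)
  nlinarith [sq_nonneg (Real.sin ((T - 1 / 2) * θ) - Real.sin (θ / 2)),
    sq_nonneg (Real.cos (θ / 2) + Real.cos ((T - 1 / 2) * θ))]

lemma sum_odd (T : ℕ) (θ : ℝ) :
    ∑ t ∈ Finset.Ioo (-(T : ℤ)) T, (1 - |(t : ℝ)| / T) * Real.sin (t * θ) = 0 := by
  have h : ∑ t ∈ Finset.Ioo (-(T : ℤ)) T, (1 - |(t : ℝ)| / T) * Real.sin (t * θ)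
      = ∑ t ∈ Finset.Ioo (-(T : ℤ)) T, -((1 - |(t : ℝ)| / T) * Real.sin (t * θ)) := by
    refine Finset.sum_nbij' (fun t => -t) (fun t => -t) ?_ ?_ ?_ ?_ ?_
    · intro t ht
      rw [Finset.mem_Ioo] at ht ⊢
      omega
    · intro t ht
      rw [Finset.mem_Ioo] at ht ⊢
      omega
    · intro t _; exact neg_neg t
    · intro t _; exact neg_neg t
    · intro t _
      push_cast
      rw [abs_neg, neg_mul, Real.sin_neg]
      ring
  rw [Finset.sum_neg_distrib] at h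
  linarith

end FejA

open FejA

theorem fej_nonneg (T : ℕ) (θ : ℝ) : 0 ≤ fej T θ := by
  rcases Nat.eq_zero_or_pos T with h | h
  · subst h; rw [fej_zero]
  · have hT : (0 : ℝ) < T := by exact_mod_cast h
    have h1 := mul_fej T θ
    have h2 : 0 ≤ (T : ℝ) * fej T θ := by rw [h1]; positivity
    exact nonneg_of_mul_nonneg_right h2 hT

theorem fej_le (T : ℕ) (θ : ℝ) : fej T θ ≤ T := by
  rcases Nat.eq_zero_or_pos T with h | h
  · subst h; rw [fej_zero]; simp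
  · have hT : (0 : ℝ) < T := by exact_mod_cast h
    have h1 := mul_fej T θ
    rw [sq_sum] at h1
    have h2 : ∑ p ∈ Finset.range T ×ˢ Finset.range T,
        Real.cos ((((p.1 : ℤ) - p.2 : ℤ) : ℝ) * θ) ≤ T * T := by
      refine (Finset.sum_le_sum fun p _ => Real.cos_le_one _).trans ?_
      rw [Finset.sum_const, Finset.card_product, Finset.card_range, nsmul_eq_mul]
      push_cast
      rw [mul_one]
    rw [← h1] at h2
    exact le_of_mul_le_mul_left h2 hT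

theorem fej_le_inv {T : ℕ} (hT : 1 ≤ T) {θ : ℝ} (h0 : θ ≠ 0) (hπ : |θ| ≤ Real.pi) :
    fej T θ ≤ Real.pi ^ 2 / (T * θ ^ 2) := by
  have hT' : (0 : ℝ) < T := by exact_mod_cast hT
  have hp := Real.pi_pos
  have h1 := sin_sq_mul T θ
  rw [← mul_fej] at h1
  have h2 : 2 / Real.pi * |θ / 2| ≤ |Real.sin (θ / 2)| := by
    apply Real.mul_abs_le_abs_sin
    rw [abs_div, abs_two]
    linarith
  have h3 : |θ| / Real.pi ≤ |Real.sin (θ / 2)| := by
    refine le_trans (le_of_eq ?_) h2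
    rw [abs_div, abs_two]
    field_simp
  have h4 : θ ^ 2 / Real.pi ^ 2 ≤ Real.sin (θ / 2) ^ 2 := by
    have := mul_self_le_mul_self (by positivity) h3
    rw [abs_mul_abs_self] at this
    calc θ ^ 2 / Real.pi ^ 2 = |θ| / Real.pi * (|θ| / Real.pi) := by
          rw [div_mul_div_comm, abs_mul_abs_self]; ring
      _ ≤ Real.sin (θ / 2) * Real.sin (θ / 2) := this
      _ = Real.sin (θ / 2) ^ 2 := by ring
  have h5 : θ ^ 2 / Real.pi ^ 2 * ((T : ℝ) * fej T θ) ≤ 1 :=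
    (mul_le_mul_of_nonneg_right h4 (mul_nonneg hT'.le (fej_nonneg T θ))).trans h1
  have h6 : 0 < θ ^ 2 := by positivity
  rw [le_div_iff₀ (by positivity)]
  rw [div_mul_eq_mul_div, div_le_one (by positivity)] at h5
  linarith

theorem fej_add_two_pi (T : ℕ) (θ : ℝ) (k : ℤ) : fej T (θ + 2 * Real.pi * k) = fej T θ := by
  unfold fej
  refine Finset.sum_congr rfl fun t _ => ?_
  have : (t : ℝ) * (θ + 2 * Real.pi * k) = t * θ + ((t * k : ℤ) : ℝ) * (2 * Real.pi) := by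
    push_cast; ring
  rw [this, Real.cos_add_int_mul_two_pi]

theorem fej_neg (T : ℕ) (θ : ℝ) : fej T (-θ) = fej T θ := by
  unfold fej
  refine Finset.sum_congr rfl fun t _ => ?_
  rw [mul_neg, Real.cos_neg]

/-- as a trigonometric polynomial -/
theorem fej_eq_sum_exp (T : ℕ) (θ : ℝ) : ((fej T θ : ℝ) : ℂ) =
    ∑ t ∈ Finset.Ioo (-(T : ℤ)) T, ((1 - |(t : ℝ)| / T : ℝ) : ℂ) *
      Complex.exp (((t * θ : ℝ) : ℂ) * Complex.I) := by
  have h1 : ∀ t ∈ Finset.Ioo (-(T : ℤ)) T, ((1 - |(t : ℝ)| / T : ℝ) : ℂ) *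
      Complex.exp (((t * θ : ℝ) : ℂ) * Complex.I)
      = (((1 - |(t : ℝ)| / T) * Real.cos (t * θ) : ℝ) : ℂ) +
        (((1 - |(t : ℝ)| / T) * Real.sin (t * θ) : ℝ) : ℂ) * Complex.I := by
    intro t _
    rw [Complex.exp_mul_I, ← Complex.ofReal_cos, ← Complex.ofReal_sin, Complex.ofReal_mul,
      Complex.ofReal_mul]
    ring
  rw [Finset.sum_congr rfl h1, Finset.sum_add_distrib, ← Finset.sum_mul, ← Complex.ofReal_sum,
    ← Complex.ofReal_sum, sum_odd, fej]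
  simp

namespace FejA

lemma tw_mul_tw (t : ℝ) (m n : ℕ) : tw t m * tw (-t) n =
    ((Real.cos (t * (Real.log m - Real.log n)) : ℝ) : ℂ) +
      ((Real.sin (t * (Real.log m - Real.log n)) : ℝ) : ℂ) * Complex.I := by
  rw [tw, tw, ← Complex.exp_add, Complex.ofReal_cos, Complex.ofReal_sin, ← Complex.exp_mul_I]
  congr 1
  push_cast
  ring

lemma norm_sq_sum (t : ℝ) (S : Finset ℕ) (a : ℕ → ℂ) :
    ‖∑ n ∈ S, a n * tw t n‖ ^ 2 = ∑ m ∈ S, ∑ n ∈ S,
      ((a m * (starRingEnd ℂ) (a n)).re * Real.cos (t * (Real.log m - Real.log n)) -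
        (a m * (starRingEnd ℂ) (a n)).im * Real.sin (t * (Real.log m - Real.log n))) := by
  have h1 : ‖∑ n ∈ S, a n * tw t n‖ ^ 2
      = ((∑ n ∈ S, a n * tw t n) * (starRingEnd ℂ) (∑ n ∈ S, a n * tw t n)).re := by
    rw [Complex.mul_conj, Complex.ofReal_re, Complex.normSq_eq_norm_sq]
  rw [h1, map_sum, Finset.sum_mul_sum, Complex.re_sum]
  refine Finset.sum_congr rfl fun m _ => ?_
  rw [Complex.re_sum]
  refine Finset.sum_congr rfl fun n _ => ?_
  have h2 : a m * tw t m * (starRingEnd ℂ) (a n * tw t n)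
      = (a m * (starRingEnd ℂ) (a n)) * (tw t m * tw (-t) n) := by
    rw [map_mul, conj_tw]; ring
  rw [h2, tw_mul_tw]
  simp only [Complex.mul_re, Complex.add_re, Complex.ofReal_re, Complex.add_im, Complex.ofReal_im,
    Complex.I_re, Complex.I_im, Complex.mul_im]
  ring

end FejA

theorem sum_fej_expand (T : ℕ) (S : Finset ℕ) (a : ℕ → ℂ) :
    ∑ t ∈ Finset.Ioo (-(T : ℤ)) T, (1 - |(t : ℝ)| / T) * ‖∑ n ∈ S, a n * tw t n‖ ^ 2 =
      ∑ m ∈ S, ∑ n ∈ S, (a m * (starRingEnd ℂ) (a n)).re * fej T (Real.log m - Real.log n) := by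
  simp only [norm_sq_sum, Finset.mul_sum]
  rw [Finset.sum_comm]
  refine Finset.sum_congr rfl fun m _ => ?_
  rw [Finset.sum_comm]
  refine Finset.sum_congr rfl fun n _ => ?_
  have h1 : ∀ t ∈ Finset.Ioo (-(T : ℤ)) T, (1 - |(t : ℝ)| / T) *
      ((a m * (starRingEnd ℂ) (a n)).re * Real.cos (t * (Real.log m - Real.log n)) -
        (a m * (starRingEnd ℂ) (a n)).im * Real.sin (t * (Real.log m - Real.log n)))
      = (a m * (starRingEnd ℂ) (a n)).re *
          ((1 - |(t : ℝ)| / T) * Real.cos (t * (Real.log m - Real.log n))) -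
        (a m * (starRingEnd ℂ) (a n)).im *
          ((1 - |(t : ℝ)| / T) * Real.sin (t * (Real.log m - Real.log n))) := by
    intro t _
    ring
  rw [Finset.sum_congr rfl h1, Finset.sum_sub_distrib, ← Finset.mul_sum, ← Finset.mul_sum,
    sum_odd, fej]
  simp

end Pool.MRZ
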