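import Mathlib
import Pool.Agent.MRZ.Fejer

/-!
# MRZ/MVT: mean value theorem for Dirichlet polynomials at integer frequencies

For `S ⊆ (N, ΛN]`, `N ≥ 1/2`, `Λ ≥ 1`, `T ≥ 1`:
`∑_{|t|<T} |∑_{n∈S} a_n n^{it}|² ≤ C (T (1 + log Λ) + ΛN) ∑ |a_n|²`.

Proof. `1 ≤ 2 (1 - |t|/(2T))` for `|t| < T`, so the left side is at most `2 ∑_{|t|<2T} (1-|t|/2T)|·|²
= 2 ∑_{m,n} Re(a_m conj a_n) fej (2T) (log m - log n)` (`sum_fej_expand`)
`≤ 2 ∑_n |a_n|² max_n ∑_{m ∈ S} fej (2T) (log m - log n)` (`|ab| ≤ (|a|²+|b|²)/2`, `fej ≥ 0`, symmetric).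
Fix `n ∈ S`. For `m ∈ S` choose `k ∈ ℤ` with `|log m - log n - 2πk| ≤ π` (`k = round`); as
`|log m - log n| ≤ log Λ`, there are at most `2 + log Λ` values of `k` (`|k| ≤ (log Λ + π)/(2π)`), and
only `k` with `y_k := n e^{2πk} ≤ ΛN e^π` occur. By periodicity `fej (2T) (log m - log n) =
fej (2T) (log (m / y_k)) ≤ min (2T, π²/(2T log²(m/y_k)))`.
For one `k`, `m` in the range `|log (m/y)| ≤ π` (`y = y_k`, here `|log(m/y)| ≥ c |m - y|/y` with
`c = e^{-π}` say, because `m, y ≤ e^π y`): the `m` with `|m - y| ≤ y/T` are at most `2y/T + 1` in number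
and contribute at most `2T (2y/T+1) = 4y + 2T`; the others contribute at most
`∑_{|m-y| > y/T} π² y²/(2 T c² (m-y)²) ≤ C (y²/T) (T²/y² + T/y) = C (T + y)`
(sum over integers `m` with `|m-y| > δ`, `δ > 0` of `(m-y)^{-2}` is at most `2/δ² + 2/δ`).
Sum over `k`: `∑_k (T + y_k) ≤ (2 + log Λ) T + C ΛN` since `y_k` is a geometric progression with ratio
`e^{2π}` bounded by `ΛN e^π`.
(`n ≥ 1` for `n ∈ S` because `n > N ≥ 1/2`.)
-/

namespace Pool.MRZ

open Finset

theorem mvt_sum_g {c : ℝ} (hc : 0 < c) (J : ℕ) :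
    ∑ i ∈ Finset.range (J + 1), 1 / (1 + c * (i : ℝ)) ^ 2 ≤
      1 + 1 / c * (1 - 1 / (1 + c * J)) := by
  induction J with
  | zero => simp
  | succ J ih =>
    rw [Finset.sum_range_succ]
    have hJ : (0 : ℝ) ≤ J := Nat.cast_nonneg J
    have h1 : 0 < 1 + c * (J : ℝ) := by positivity
    have h2 : 0 < 1 + c * ((J + 1 : ℕ) : ℝ) := by positivity
    have h3 : 1 / (1 + c * ((J + 1 : ℕ) : ℝ)) ^ 2 ≤
        1 / c * (1 / (1 + c * J) - 1 / (1 + c * ((J + 1 : ℕ) : ℝ))) := by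
      have e : 1 / c * (1 / (1 + c * J) - 1 / (1 + c * ((J + 1 : ℕ) : ℝ))) =
          1 / ((1 + c * J) * (1 + c * ((J + 1 : ℕ) : ℝ))) := by
        field_simp
        push_cast
        ring
      rw [e]
      apply one_div_le_one_div_of_le (by positivity)
      rw [pow_two]
      apply mul_le_mul_of_nonneg_right _ h2.le
      push_cast
      nlinarith
    calc _ ≤ 1 + 1 / c * (1 - 1 / (1 + c * J)) +
        1 / c * (1 / (1 + c * J) - 1 / (1 + c * ((J + 1 : ℕ) : ℝ))) := add_le_add ih h3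
      _ = _ := by ring

theorem mvt_sum_g' {c : ℝ} (hc : 0 < c) (J : ℕ) :
    ∑ i ∈ Finset.range J, 1 / (1 + c * (i : ℝ)) ^ 2 ≤ 1 + 1 / c := by
  have h0 : ∑ i ∈ Finset.range J, 1 / (1 + c * (i : ℝ)) ^ 2 ≤
      ∑ i ∈ Finset.range (J + 1), 1 / (1 + c * (i : ℝ)) ^ 2 := by
    apply Finset.sum_le_sum_of_subset_of_nonneg
    · exact Finset.range_mono (Nat.le_succ J)
    · intro i _ _
      positivity
  refine h0.trans ((mvt_sum_g hc J).trans ?_)
  have hJ : (0 : ℝ) ≤ J := Nat.cast_nonneg J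
  have h1 : 0 < 1 + c * (J : ℝ) := by positivity
  have h2 : 0 ≤ 1 / (1 + c * (J : ℝ)) := by positivity
  have h3 : 0 ≤ 1 / c := by positivity
  nlinarith

theorem mvt_sum_inj {c : ℝ} (hc : 0 < c) (s : Finset ℕ) (j : ℕ → ℕ) (hj : Set.InjOn j s) :
    ∑ m ∈ s, 1 / (1 + c * (j m : ℝ)) ^ 2 ≤ 1 + 1 / c := by
  have h1 : ∑ m ∈ s, 1 / (1 + c * (j m : ℝ)) ^ 2 =
      ∑ i ∈ s.image j, 1 / (1 + c * (i : ℝ)) ^ 2 := by
    rw [Finset.sum_image]
    intro x hx y hy h
    exact hj hx hy h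
  rw [h1]
  refine le_trans ?_ (mvt_sum_g' hc ((s.image j).sup id + 1))
  apply Finset.sum_le_sum_of_subset_of_nonneg
  · intro i hi
    rw [Finset.mem_range]
    exact Nat.lt_succ_of_le (Finset.le_sup (f := id) hi)
  · intro i _ _
    positivity

theorem mvt_sum_abs {c : ℝ} (hc : 0 < c) (s : Finset ℕ) (y : ℝ) :
    ∑ m ∈ s, 1 / (1 + c * |(m : ℝ) - y|) ^ 2 ≤ 2 * (1 + 1 / c) := by
  have key : ∀ m : ℕ, 1 / (1 + c * |(m : ℝ) - y|) ^ 2 ≤
      1 / (1 + c * (⌊|(m : ℝ) - y|⌋₊ : ℝ)) ^ 2 := by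
    intro m
    apply one_div_le_one_div_of_le (by positivity)
    have h := Nat.floor_le (abs_nonneg ((m : ℝ) - y))
    have h0 : (0 : ℝ) ≤ (⌊|(m : ℝ) - y|⌋₊ : ℝ) := Nat.cast_nonneg _
    gcongr
  have hlt : ∀ m m' : ℕ, ⌊|(m : ℝ) - y|⌋₊ = ⌊|(m' : ℝ) - y|⌋₊ →
      |(m : ℝ) - y| < |(m' : ℝ) - y| + 1 := by
    intro m m' h
    have h1 := Nat.lt_floor_add_one |(m : ℝ) - y|
    have h2 := Nat.floor_le (abs_nonneg ((m' : ℝ) - y))
    rw [h] at h1
    linarith
  have hp : ∑ m ∈ s.filter (fun m : ℕ => y ≤ (m : ℝ)), 1 / (1 + c * |(m : ℝ) - y|) ^ 2 ≤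
      1 + 1 / c := by
    refine (Finset.sum_le_sum fun m _ => key m).trans (mvt_sum_inj hc _ _ ?_)
    intro m hm m' hm' h
    simp only [Finset.coe_filter, Set.mem_ofPred_eq] at hm hm'
    have h1 := hlt m m' h
    have h2 := hlt m' m h.symm
    rw [abs_of_nonneg (sub_nonneg.2 hm.2), abs_of_nonneg (sub_nonneg.2 hm'.2)] at h1 h2
    have h3 : (m : ℝ) < m' + 1 := by linarith
    have h4 : (m' : ℝ) < m + 1 := by linarith
    have h5 : m < m' + 1 := by exact_mod_cast h3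
    have h6 : m' < m + 1 := by exact_mod_cast h4
    omega
  have hn : ∑ m ∈ s.filter (fun m : ℕ => ¬ y ≤ (m : ℝ)), 1 / (1 + c * |(m : ℝ) - y|) ^ 2 ≤
      1 + 1 / c := by
    refine (Finset.sum_le_sum fun m _ => key m).trans (mvt_sum_inj hc _ _ ?_)
    intro m hm m' hm' h
    simp only [Finset.coe_filter, Set.mem_ofPred_eq, not_le] at hm hm'
    have h1 := hlt m m' h
    have h2 := hlt m' m h.symm
    rw [abs_of_neg (sub_neg.2 hm.2), abs_of_neg (sub_neg.2 hm'.2)] at h1 h2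
    have h3 : (m : ℝ) < m' + 1 := by linarith
    have h4 : (m' : ℝ) < m + 1 := by linarith
    have h5 : m < m' + 1 := by exact_mod_cast h3
    have h6 : m' < m + 1 := by exact_mod_cast h4
    omega
  rw [← Finset.sum_filter_add_sum_filter_not s (fun m : ℕ => y ≤ (m : ℝ))]
  linarith

theorem mvt_fej {T : ℕ} (hT : 1 ≤ T) {θ : ℝ} (hπ : |θ| ≤ Real.pi) :
    fej (2 * T) θ ≤ 8 * T / (1 + 2 * T * |θ| / Real.pi) ^ 2 := by
  have hpi := Real.pi_pos
  have hT' : (1 : ℝ) ≤ T := by exact_mod_cast hT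
  set s : ℝ := 2 * T * |θ| / Real.pi with hs
  have hs0 : 0 ≤ s := by positivity
  rw [le_div_iff₀ (by positivity)]
  by_cases h1 : s ≤ 1
  · have h2 := fej_le (2 * T) θ
    push_cast at h2
    have h3 := fej_nonneg (2 * T) θ
    have h4 : (1 + s) ^ 2 ≤ 4 := by nlinarith
    calc fej (2 * T) θ * (1 + s) ^ 2 ≤ (2 * T) * 4 := by
          apply mul_le_mul h2 h4 (by positivity) (by positivity)
      _ = 8 * T := by ring
  · push Not at h1
    have hθ : θ ≠ 0 := by
      rintro rfl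
      rw [abs_zero, mul_zero, zero_div] at hs
      linarith
    have hθ0 : 0 < |θ| := abs_pos.2 hθ
    have h2 := fej_le_inv (T := 2 * T) (by omega) hθ hπ
    have h3 : Real.pi ^ 2 / (((2 * T : ℕ) : ℝ) * θ ^ 2) = 2 * T / s ^ 2 := by
      rw [hs, ← sq_abs θ]
      push_cast
      field_simp
    rw [h3] at h2
    have h4 : (1 + s) ^ 2 ≤ 4 * s ^ 2 := by nlinarith
    calc fej (2 * T) θ * (1 + s) ^ 2 ≤ 2 * (T : ℝ) / s ^ 2 * (4 * s ^ 2) := by
          apply mul_le_mul h2 h4 (by positivity) (by positivity)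
      _ = 8 * (T : ℝ) := by
          field_simp
          ring

theorem mvt_log {m y : ℝ} (hm : 0 < m) (hy : 0 < y) (h : |Real.log m - Real.log y| ≤ Real.pi) :
    |m - y| ≤ Real.exp Real.pi * y * |Real.log m - Real.log y| := by
  have hE : 1 ≤ Real.exp Real.pi := Real.one_le_exp Real.pi_pos.le
  set u := Real.log m - Real.log y with hu
  have hmy : m = y * Real.exp u := by
    rw [hu, Real.exp_sub, Real.exp_log hm, Real.exp_log hy]
    field_simp
  rcases le_total 0 u with h0 | h0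
  · rw [abs_of_nonneg h0] at h ⊢
    have h1 : 1 ≤ Real.exp u := Real.one_le_exp h0
    have h2 : Real.exp u ≤ Real.exp Real.pi := Real.exp_le_exp.2 h
    have h3 : 1 - u ≤ Real.exp (-u) := by
      have := Real.add_one_le_exp (-u)
      linarith
    have h4 : Real.exp u * Real.exp (-u) = 1 := by
      rw [← Real.exp_add]
      simp
    have h5 : Real.exp u - 1 ≤ u * Real.exp u := by nlinarith [Real.exp_pos u]
    have h6 : |m - y| = y * (Real.exp u - 1) := by
      rw [hmy, abs_of_nonneg]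
      · ring
      · nlinarith
    rw [h6]
    have h7 : u * Real.exp u ≤ u * Real.exp Real.pi := mul_le_mul_of_nonneg_left h2 h0
    calc y * (Real.exp u - 1) ≤ y * (u * Real.exp Real.pi) := by
          apply mul_le_mul_of_nonneg_left _ hy.le
          linarith
      _ = Real.exp Real.pi * y * u := by ring
  · rw [abs_of_nonpos h0] at h ⊢
    have h1 : Real.exp u ≤ 1 := Real.exp_le_one_iff.2 h0
    have h2 := Real.add_one_le_exp u
    have h6 : |m - y| = y * (1 - Real.exp u) := by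
      rw [hmy, abs_of_nonpos]
      · ring
      · nlinarith
    rw [h6]
    calc y * (1 - Real.exp u) ≤ y * (-u) := by
          apply mul_le_mul_of_nonneg_left _ hy.le
          linarith
      _ = 1 * (y * (-u)) := by ring
      _ ≤ Real.exp Real.pi * (y * (-u)) := by
          apply mul_le_mul_of_nonneg_right hE
          apply mul_nonneg hy.le
          linarith
      _ = Real.exp Real.pi * y * -u := by ring

theorem mvt_block {T : ℕ} (hT : 1 ≤ T) {y : ℝ} (hy : 0 < y) (s : Finset ℕ)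
    (hs : ∀ m ∈ s, 0 < m ∧ |Real.log m - Real.log y| ≤ Real.pi) :
    ∑ m ∈ s, fej (2 * T) (Real.log m - Real.log y) ≤
      16 * T + 8 * Real.pi * Real.exp Real.pi * y := by
  have hpi := Real.pi_pos
  have hE := Real.exp_pos Real.pi
  have hT' : (1 : ℝ) ≤ T := by exact_mod_cast hT
  have hT0 : (0 : ℝ) < T := by linarith
  set c : ℝ := 2 * T / (Real.pi * Real.exp Real.pi * y) with hc
  have hc0 : 0 < c := by positivity
  have h1 : ∀ m ∈ s, fej (2 * T) (Real.log m - Real.log y) ≤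
      8 * T * (1 / (1 + c * |(m : ℝ) - y|) ^ 2) := by
    intro m hm
    obtain ⟨hm0, hm1⟩ := hs m hm
    have hm0' : (0 : ℝ) < m := by exact_mod_cast hm0
    refine (mvt_fej hT hm1).trans ?_
    have h2 := mvt_log hm0' hy hm1
    have h3 : c * |(m : ℝ) - y| ≤ 2 * T * |Real.log m - Real.log y| / Real.pi := by
      calc c * |(m : ℝ) - y| ≤
          c * (Real.exp Real.pi * y * |Real.log m - Real.log y|) :=
            mul_le_mul_of_nonneg_left h2 hc0.le
        _ = _ := by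
            rw [hc]
            field_simp
    rw [mul_one_div]
    have h4 : 0 ≤ c * |(m : ℝ) - y| := by positivity
    gcongr
  calc _ ≤ ∑ m ∈ s, 8 * T * (1 / (1 + c * |(m : ℝ) - y|) ^ 2) := Finset.sum_le_sum h1
    _ = 8 * T * ∑ m ∈ s, 1 / (1 + c * |(m : ℝ) - y|) ^ 2 := by rw [Finset.mul_sum]
    _ ≤ 8 * T * (2 * (1 + 1 / c)) := by
        apply mul_le_mul_of_nonneg_left (mvt_sum_abs hc0 s y) (by positivity)
    _ = _ := by
        rw [hc]
        field_simp
        ring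

theorem mvt_geom {z : ℝ} (hz : 0 < z) (K : Finset ℤ) :
    ∀ Y : ℝ, 0 ≤ Y → (∀ k ∈ K, z * Real.exp (2 * Real.pi * k) ≤ Y) →
      ∑ k ∈ K, z * Real.exp (2 * Real.pi * k) ≤ 2 * Y := by
  have h2 : (2 : ℝ) ≤ Real.exp (2 * Real.pi) := by
    have h := Real.add_one_le_exp (2 * Real.pi)
    have h3 := Real.pi_gt_three
    linarith
  induction K using Finset.induction_on_max with
  | empty => intro Y hY _; simp only [Finset.sum_empty]; linarith
  | insert a s has ih =>
    intro Y hY h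
    have hne : a ∉ s := fun h1 => lt_irrefl _ (has a h1)
    rw [Finset.sum_insert hne]
    have ha := h a (Finset.mem_insert_self _ _)
    have h3 := ih (z * Real.exp (2 * Real.pi * ((a - 1 : ℤ) : ℝ))) (by positivity) (by
      intro k hk
      have h4 : (k : ℝ) ≤ ((a - 1 : ℤ) : ℝ) := by
        have := has k hk
        exact_mod_cast (by omega : k ≤ a - 1)
      have hpi := Real.pi_pos
      gcongr)
    have h5 : Real.exp (2 * Real.pi * a) =
        Real.exp (2 * Real.pi * ((a - 1 : ℤ) : ℝ)) * Real.exp (2 * Real.pi) := by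
      rw [← Real.exp_add]
      congr 1
      push_cast
      ring
    have h6 : 2 * (z * Real.exp (2 * Real.pi * ((a - 1 : ℤ) : ℝ))) ≤
        z * Real.exp (2 * Real.pi * a) := by
      rw [h5]
      have h7 : 0 < z * Real.exp (2 * Real.pi * ((a - 1 : ℤ) : ℝ)) := by positivity
      nlinarith
    linarith

theorem mvt_inner {T : ℕ} (hT : 1 ≤ T) {N Λ : ℝ} (hN : 1 / 2 ≤ N) (hΛ : 1 ≤ Λ) {S : Finset ℕ}
    (hS : ∀ n ∈ S, N < n ∧ (n : ℝ) ≤ Λ * N) {n : ℕ} (hn : n ∈ S) :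
    ∑ m ∈ S, fej (2 * T) (Real.log m - Real.log n) ≤
      32 * T * (1 + Real.log Λ) + 16 * Real.pi * Real.exp (2 * Real.pi) * (Λ * N) := by
  classical
  have hpi := Real.pi_pos
  have hpi3 := Real.pi_gt_three
  have hE := Real.exp_pos Real.pi
  have hT' : (1 : ℝ) ≤ T := by exact_mod_cast hT
  have hL : 0 ≤ Real.log Λ := Real.log_nonneg hΛ
  have hpos : ∀ m ∈ S, (0 : ℝ) < m := fun m hm => by
    have := (hS m hm).1
    linarith
  have hn0 := hpos n hn
  set r : ℕ → ℤ := fun m => round ((Real.log m - Real.log n) / (2 * Real.pi)) with hr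
  have hround : ∀ m : ℕ, |Real.log m - Real.log n - 2 * Real.pi * r m| ≤ Real.pi := by
    intro m
    have h := abs_sub_round ((Real.log m - Real.log n) / (2 * Real.pi))
    have e : Real.log m - Real.log n - 2 * Real.pi * r m = 2 * Real.pi *
        ((Real.log m - Real.log n) / (2 * Real.pi) -
          round ((Real.log m - Real.log n) / (2 * Real.pi))) := by
      rw [hr]
      field_simp
    rw [e, abs_mul, abs_of_pos (by positivity : 0 < 2 * Real.pi)]
    nlinarith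
  have hlog : ∀ m ∈ S, |Real.log m - Real.log n| ≤ Real.log Λ := by
    have h1 : ∀ a ∈ S, ∀ b ∈ S, Real.log a - Real.log b ≤ Real.log Λ := by
      intro a ha b hb
      have ha0 := hpos a ha
      have hb0 := hpos b hb
      have h2 : (a : ℝ) ≤ Λ * b := by
        have h3 := (hS a ha).2
        have h4 := (hS b hb).1
        nlinarith
      have h3 : Real.log a ≤ Real.log (Λ * b) := Real.log_le_log ha0 h2
      rw [Real.log_mul (by linarith) hb0.ne'] at h3
      linarith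
    intro m hm
    rw [abs_le]
    constructor
    · have := h1 n hn m hm
      linarith
    · exact h1 m hm n hn
  set K := S.image r with hK
  have hsplit : ∑ m ∈ S, fej (2 * T) (Real.log m - Real.log n) =
      ∑ k ∈ K, ∑ m ∈ S.filter (fun m => r m = k), fej (2 * T) (Real.log m - Real.log n) := by
    rw [Finset.sum_fiberwise_of_maps_to]
    intro m hm
    exact Finset.mem_image_of_mem r hm
  have hlogy : ∀ k : ℤ, Real.log (n * Real.exp (2 * Real.pi * k)) =
      Real.log n + 2 * Real.pi * k := by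
    intro k
    rw [Real.log_mul hn0.ne' (Real.exp_pos _).ne', Real.log_exp]
  have hblock : ∀ k ∈ K, ∑ m ∈ S.filter (fun m => r m = k),
      fej (2 * T) (Real.log m - Real.log n) ≤
        16 * T + 8 * Real.pi * Real.exp Real.pi * (n * Real.exp (2 * Real.pi * k)) := by
    intro k _
    have h1 := mvt_block hT (y := n * Real.exp (2 * Real.pi * k)) (by positivity)
      (S.filter (fun m => r m = k)) (by
        intro m hm
        rw [Finset.mem_filter] at hm
        refine ⟨by exact_mod_cast hpos m hm.1, ?_⟩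
        rw [hlogy, ← hm.2]
        have := hround m
        rwa [← sub_sub])
    refine le_trans (le_of_eq ?_) h1
    apply Finset.sum_congr rfl
    intro m _
    rw [hlogy, ← fej_add_two_pi (2 * T) (Real.log m - (Real.log n + 2 * Real.pi * k)) k]
    congr 1
    ring
  have hy : ∀ k ∈ K, n * Real.exp (2 * Real.pi * k) ≤ Λ * N * Real.exp Real.pi := by
    intro k hk
    rw [hK, Finset.mem_image] at hk
    obtain ⟨m, hm, rfl⟩ := hk
    have h1 := (abs_le.1 (hround m)).1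
    have h2 : n * Real.exp (2 * Real.pi * r m) = Real.exp (Real.log n + 2 * Real.pi * r m) := by
      rw [Real.exp_add, Real.exp_log hn0]
    have h3 : (m : ℝ) * Real.exp Real.pi = Real.exp (Real.log m + Real.pi) := by
      rw [Real.exp_add, Real.exp_log (hpos m hm)]
    have h4 : n * Real.exp (2 * Real.pi * r m) ≤ m * Real.exp Real.pi := by
      rw [h2, h3]
      apply Real.exp_le_exp.2
      linarith
    have h5 := (hS m hm).2
    exact h4.trans (mul_le_mul_of_nonneg_right h5 hE.le)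
  have hcard : (K.card : ℝ) ≤ 2 * (1 + Real.log Λ) := by
    set κ : ℤ := ⌊1 / 2 + Real.log Λ / (2 * Real.pi)⌋ with hκ
    have hκ0 : 0 ≤ κ := by
      rw [hκ]
      apply Int.floor_nonneg.2
      positivity
    have hsub : K ⊆ Finset.Icc (-κ) κ := by
      intro k hk
      rw [hK, Finset.mem_image] at hk
      obtain ⟨m, hm, rfl⟩ := hk
      have h1 := hround m
      have h2 := hlog m hm
      have h3 : |(r m : ℝ)| ≤ 1 / 2 + Real.log Λ / (2 * Real.pi) := by
        have h4 : |2 * Real.pi * (r m : ℝ)| ≤ Real.pi + Real.log Λ := by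
          have e : 2 * Real.pi * (r m : ℝ) = (Real.log m - Real.log n) -
              (Real.log m - Real.log n - 2 * Real.pi * r m) := by ring
          rw [e]
          refine (abs_sub _ _).trans ?_
          linarith
        rw [abs_mul, abs_of_pos (by positivity : 0 < 2 * Real.pi)] at h4
        have h5 : |(r m : ℝ)| ≤ (Real.pi + Real.log Λ) / (2 * Real.pi) := by
          rw [le_div_iff₀ (by positivity)]
          linarith
        refine h5.trans (le_of_eq ?_)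
        field_simp
      have h6 : |r m| ≤ κ := by
        rw [hκ]
        apply Int.le_floor.2
        push_cast
        exact h3
      rw [Finset.mem_Icc]
      exact abs_le.1 h6
    have h1 := Finset.card_le_card hsub
    rw [Int.card_Icc] at h1
    have h2 : (K.card : ℝ) ≤ ((κ + 1 - -κ).toNat : ℝ) := by exact_mod_cast h1
    have h3 : (((κ + 1 - -κ).toNat : ℕ) : ℝ) = ((κ + 1 - -κ : ℤ) : ℝ) := by
      have h4 : (((κ + 1 - -κ).toNat : ℕ) : ℤ) = κ + 1 - -κ := Int.toNat_of_nonneg (by omega)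
      exact_mod_cast h4
    rw [h3] at h2
    push_cast at h2
    have h4 : (κ : ℝ) ≤ 1 / 2 + Real.log Λ / (2 * Real.pi) := Int.floor_le _
    have h5 : Real.log Λ / (2 * Real.pi) ≤ Real.log Λ / 2 := by
      apply div_le_div_of_nonneg_left hL (by norm_num)
      linarith
    linarith
  have hgeom := mvt_geom hn0 K (Λ * N * Real.exp Real.pi) (by positivity) hy
  rw [hsplit]
  calc _ ≤ ∑ k ∈ K, (16 * T + 8 * Real.pi * Real.exp Real.pi *
        (n * Real.exp (2 * Real.pi * k))) := Finset.sum_le_sum hblock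
    _ = K.card * (16 * T) + 8 * Real.pi * Real.exp Real.pi *
        ∑ k ∈ K, n * Real.exp (2 * Real.pi * k) := by
        rw [Finset.sum_add_distrib, Finset.sum_const, nsmul_eq_mul, Finset.mul_sum]
    _ ≤ 2 * (1 + Real.log Λ) * (16 * T) + 8 * Real.pi * Real.exp Real.pi *
        (2 * (Λ * N * Real.exp Real.pi)) := by
        apply add_le_add
        · exact mul_le_mul_of_nonneg_right hcard (by positivity)
        · exact mul_le_mul_of_nonneg_left hgeom (by positivity)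
    _ = _ := by
        have e : Real.exp (2 * Real.pi) = Real.exp Real.pi * Real.exp Real.pi := by
          rw [← Real.exp_add]
          congr 1
          ring
        rw [e]
        ring

theorem mvt_quad (T : ℕ) (S : Finset ℕ) (a : ℕ → ℂ) {B : ℝ}
    (hB : ∀ n ∈ S, ∑ m ∈ S, fej (2 * T) (Real.log m - Real.log n) ≤ B) :
    ∑ m ∈ S, ∑ n ∈ S, (a m * (starRingEnd ℂ) (a n)).re * fej (2 * T) (Real.log m - Real.log n) ≤
      B * ∑ n ∈ S, ‖a n‖ ^ 2 := by
  have h1 : ∀ m n : ℕ, (a m * (starRingEnd ℂ) (a n)).re *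
      fej (2 * T) (Real.log m - Real.log n) ≤
      (‖a m‖ ^ 2 / 2) * fej (2 * T) (Real.log m - Real.log n) +
      (‖a n‖ ^ 2 / 2) * fej (2 * T) (Real.log m - Real.log n) := by
    intro m n
    rw [← add_mul]
    apply mul_le_mul_of_nonneg_right _ (fej_nonneg _ _)
    have h2 : (a m * (starRingEnd ℂ) (a n)).re ≤ ‖a m‖ * ‖a n‖ := by
      refine (Complex.re_le_norm _).trans ?_
      rw [norm_mul, RCLike.norm_conj]
    nlinarith [sq_nonneg (‖a m‖ - ‖a n‖)]
  have hsym : ∀ m n : ℕ, fej (2 * T) (Real.log m - Real.log n) =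
      fej (2 * T) (Real.log n - Real.log m) := by
    intro m n
    rw [← fej_neg]
    congr 1
    ring
  have hA : ∑ m ∈ S, ∑ n ∈ S, (‖a m‖ ^ 2 / 2) * fej (2 * T) (Real.log m - Real.log n) ≤
      B / 2 * ∑ n ∈ S, ‖a n‖ ^ 2 := by
    rw [Finset.mul_sum]
    apply Finset.sum_le_sum
    intro m hm
    rw [← Finset.mul_sum]
    have h2 : ∑ n ∈ S, fej (2 * T) (Real.log m - Real.log n) ≤ B := by
      refine le_trans (le_of_eq ?_) (hB m hm)
      exact Finset.sum_congr rfl fun n _ => hsym m n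
    calc _ ≤ ‖a m‖ ^ 2 / 2 * B := mul_le_mul_of_nonneg_left h2 (by positivity)
      _ = _ := by ring
  have hC : ∑ m ∈ S, ∑ n ∈ S, (‖a n‖ ^ 2 / 2) * fej (2 * T) (Real.log m - Real.log n) ≤
      B / 2 * ∑ n ∈ S, ‖a n‖ ^ 2 := by
    rw [Finset.sum_comm, Finset.mul_sum]
    apply Finset.sum_le_sum
    intro n hn
    rw [← Finset.mul_sum]
    calc _ ≤ ‖a n‖ ^ 2 / 2 * B := mul_le_mul_of_nonneg_left (hB n hn) (by positivity)
      _ = _ := by ring
  calc _ ≤ ∑ m ∈ S, ∑ n ∈ S, ((‖a m‖ ^ 2 / 2) * fej (2 * T) (Real.log m - Real.log n) +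
        (‖a n‖ ^ 2 / 2) * fej (2 * T) (Real.log m - Real.log n)) :=
        Finset.sum_le_sum fun m _ => Finset.sum_le_sum fun n _ => h1 m n
    _ = ∑ m ∈ S, ∑ n ∈ S, (‖a m‖ ^ 2 / 2) * fej (2 * T) (Real.log m - Real.log n) +
        ∑ m ∈ S, ∑ n ∈ S, (‖a n‖ ^ 2 / 2) * fej (2 * T) (Real.log m - Real.log n) := by
        simp only [Finset.sum_add_distrib]
    _ ≤ B / 2 * ∑ n ∈ S, ‖a n‖ ^ 2 + B / 2 * ∑ n ∈ S, ‖a n‖ ^ 2 := add_le_add hA hC
    _ = _ := by ring

theorem mvt_weight {T : ℕ} (hT : 1 ≤ T) (F : ℤ → ℝ) (hF : ∀ t, 0 ≤ F t) :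
    ∑ t ∈ Finset.Ioo (-(T : ℤ)) T, F t ≤
      2 * ∑ t ∈ Finset.Ioo (-((2 * T : ℕ) : ℤ)) ((2 * T : ℕ) : ℤ),
        (1 - |(t : ℝ)| / ((2 * T : ℕ) : ℝ)) * F t := by
  have hT' : (1 : ℝ) ≤ T := by exact_mod_cast hT
  have hT0 : (0 : ℝ) < T := by linarith
  have hnn : ∀ t ∈ Finset.Ioo (-((2 * T : ℕ) : ℤ)) ((2 * T : ℕ) : ℤ),
      0 ≤ (1 - |(t : ℝ)| / ((2 * T : ℕ) : ℝ)) * F t := by
    intro t ht
    rw [Finset.mem_Ioo] at ht
    apply mul_nonneg _ (hF t)
    have h1 : |t| ≤ ((2 * T : ℕ) : ℤ) := (abs_lt.2 ht).le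
    have h2 : |(t : ℝ)| ≤ ((2 * T : ℕ) : ℝ) := by exact_mod_cast h1
    rw [sub_nonneg, div_le_one (by push_cast; linarith)]
    exact h2
  have hsub : Finset.Ioo (-(T : ℤ)) T ⊆
      Finset.Ioo (-((2 * T : ℕ) : ℤ)) ((2 * T : ℕ) : ℤ) := by
    intro t ht
    rw [Finset.mem_Ioo] at ht ⊢
    push_cast
    omega
  calc ∑ t ∈ Finset.Ioo (-(T : ℤ)) T, F t ≤
      ∑ t ∈ Finset.Ioo (-(T : ℤ)) T, 2 * ((1 - |(t : ℝ)| / ((2 * T : ℕ) : ℝ)) * F t) := by
        apply Finset.sum_le_sum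
        intro t ht
        rw [Finset.mem_Ioo] at ht
        have h1 : |t| ≤ (T : ℤ) := (abs_lt.2 ht).le
        have h2 : |(t : ℝ)| ≤ (T : ℝ) := by exact_mod_cast h1
        have h3 : |(t : ℝ)| / ((2 * T : ℕ) : ℝ) ≤ 1 / 2 := by
          rw [div_le_iff₀ (by push_cast; linarith)]
          push_cast
          linarith
        have h4 := hF t
        nlinarith
    _ = 2 * ∑ t ∈ Finset.Ioo (-(T : ℤ)) T, (1 - |(t : ℝ)| / ((2 * T : ℕ) : ℝ)) * F t := by
        rw [Finset.mul_sum]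
    _ ≤ _ := by
        apply mul_le_mul_of_nonneg_left _ (by norm_num)
        apply Finset.sum_le_sum_of_subset_of_nonneg hsub
        intro t ht _
        exact hnn t ht

theorem mvt : ∃ C : ℝ, 0 < C ∧ ∀ (T : ℕ) (N Λ : ℝ) (S : Finset ℕ) (a : ℕ → ℂ),
    1 ≤ T → 1 / 2 ≤ N → 1 ≤ Λ → (∀ n ∈ S, N < n ∧ (n : ℝ) ≤ Λ * N) →
    ∑ t ∈ Finset.Ioo (-(T : ℤ)) T, ‖∑ n ∈ S, a n * tw t n‖ ^ 2 ≤
      C * (T * (1 + Real.log Λ) + Λ * N) * ∑ n ∈ S, ‖a n‖ ^ 2 := by
  have hpi := Real.pi_pos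
  have hE := Real.exp_pos (2 * Real.pi)
  refine ⟨64 + 32 * Real.pi * Real.exp (2 * Real.pi), by positivity, ?_⟩
  intro T N Λ S a hT hN hΛ hS
  have hL : 0 ≤ Real.log Λ := Real.log_nonneg hΛ
  have hT' : (1 : ℝ) ≤ T := by exact_mod_cast hT
  set B : ℝ := 32 * T * (1 + Real.log Λ) + 16 * Real.pi * Real.exp (2 * Real.pi) * (Λ * N)
    with hBdef
  have hB : ∀ n ∈ S, ∑ m ∈ S, fej (2 * T) (Real.log m - Real.log n) ≤ B :=
    fun n hn => mvt_inner hT hN hΛ hS hn
  have h1 := mvt_weight hT (fun t : ℤ => ‖∑ n ∈ S, a n * tw t n‖ ^ 2) (fun t => by positivity)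
  have h2 := sum_fej_expand (2 * T) S a
  have h3 := mvt_quad T S a hB
  have hsum : 0 ≤ ∑ n ∈ S, ‖a n‖ ^ 2 := Finset.sum_nonneg fun n _ => by positivity
  calc _ ≤ 2 * (B * ∑ n ∈ S, ‖a n‖ ^ 2) := by
        refine h1.trans ?_
        apply mul_le_mul_of_nonneg_left _ (by norm_num)
        rw [h2]
        exact h3
    _ = (2 * B) * ∑ n ∈ S, ‖a n‖ ^ 2 := by ring
    _ ≤ _ := by
        apply mul_le_mul_of_nonneg_right _ hsum
        rw [hBdef]
        have h4 : 0 ≤ T * (1 + Real.log Λ) := by positivity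
        have h5 : 0 ≤ Λ * N := by
          apply mul_nonneg <;> linarith
        have h6 : 0 ≤ Real.pi * Real.exp (2 * Real.pi) := by positivity
        nlinarith [mul_nonneg h6 h4, mul_nonneg h6 h5]

/-- the same with `n^{-it}` (substitute `t ↦ -t`) -/
theorem mvt' : ∃ C : ℝ, 0 < C ∧ ∀ (T : ℕ) (N Λ : ℝ) (S : Finset ℕ) (a : ℕ → ℂ),
    1 ≤ T → 1 / 2 ≤ N → 1 ≤ Λ → (∀ n ∈ S, N < n ∧ (n : ℝ) ≤ Λ * N) →
    ∑ t ∈ Finset.Ioo (-(T : ℤ)) T, ‖∑ n ∈ S, a n * tw (-t) n‖ ^ 2 ≤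
      C * (T * (1 + Real.log Λ) + Λ * N) * ∑ n ∈ S, ‖a n‖ ^ 2 := by
  obtain ⟨C, hC, h⟩ := mvt
  refine ⟨C, hC, ?_⟩
  intro T N Λ S a hT hN hΛ hS
  refine le_trans (le_of_eq ?_) (h T N Λ S a hT hN hΛ hS)
  refine Finset.sum_equiv (Equiv.neg ℤ) ?_ ?_
  · intro t
    simp only [Equiv.neg_apply, Finset.mem_Ioo]
    omega
  · intro t _
    simp only [Equiv.neg_apply]
    push_cast
    rfl

end Pool.MRZ
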