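import Mathlib
import Pool.Agent.MRZ.MVT

/-!
# MRZ/Moment: high moments of a prime polynomial against a Dirichlet polynomial

`I` a finite set of primes in `(P1, P2]` with `∑_{p∈I} 1/p ≤ 1`, `S ⊆ (y, 2y]`, `y ≥ 1/2`,
`|f|,|b| ≤ 1`, `ℓ ≥ 0`. Put `N = P1^ℓ y`, `Λ = 2 (P2/P1)^ℓ`. Then
`∑_{|t|<T} |(∑_{p∈I} f(p) p^{-1-it})^ℓ ∑_{m∈S} b(m) m^{-1-it}|² ≤ C (T(1+log Λ) + ΛN) Λ (ℓ+1)^ℓ / N`.

Proof. The product is `∑_n a_n n^{-it}` with `|a_n| ≤ c(n)/n`,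
`c(n) = #{(p_1,…,p_ℓ,m) ∈ I^ℓ × S : p_1 ⋯ p_ℓ m = n}` (expand the power:
`Finset.sum_pow'`, `Finset.prod_univ_sum` over `Fin ℓ → ℕ` / `Fintype.piFinset`), supported on
`N < n ≤ ΛN =: M` (for `ℓ = 0` this is `y < m ≤ 2y`). By `mvt'` it is enough that
`∑_n |a_n|² ≤ N^{-2} ∑_{n ≤ M} c(n)² ≤ N^{-2} M (ℓ+1)^ℓ`.
Now `∑_{n≤M} c(n)² ≤ ∑_{n ≤ M} #{(p⃗, p⃗') ∈ I^ℓ × I^ℓ : ∏p ∣ n, ∏p' ∣ n} ≤ M ∑_{p⃗,p⃗'} 1/lcm(∏p, ∏p')`
(`m` is determined by `n` and `p⃗`), and `1/lcm(A,B) = gcd(A,B)/(AB)`,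
`gcd(A, p'_1 ⋯ p'_ℓ) ≤ ∏_i gcd(A, p'_i)` (`Nat.Coprime`/`Nat.gcd_mul_dvd_mul_gcd`: `gcd(a, bc) ∣ gcd(a,b) gcd(a,c)`), so
for fixed `A = ∏p`: `∑_{p⃗'} gcd(A, ∏p')/∏p' ≤ (∑_{p'∈I} gcd(A,p')/p')^ℓ ≤ (∑ 1/p' + #{p' : p' ∣ A})^ℓ
≤ (1+ℓ)^ℓ` (`A` has at most `ℓ` prime divisors), and `∑_{p⃗} 1/∏p = (∑ 1/p)^ℓ ≤ 1`.
-/

namespace Pool.MRZ

open Finset

theorem mo_gcd (A : ℕ) (hA : 0 < A) {ι : Type} (s : Finset ι) (v : ι → ℕ) :
    Nat.gcd A (∏ i ∈ s, v i) ≤ ∏ i ∈ s, Nat.gcd A (v i) := by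
  have h : Nat.gcd A (∏ i ∈ s, v i) ∣ ∏ i ∈ s, Nat.gcd A (v i) := by
    classical
    induction s using Finset.induction_on with
    | empty => simp
    | insert a s ha ih =>
      rw [Finset.prod_insert ha, Finset.prod_insert ha]
      exact (Nat.gcd_mul_right_dvd_mul_gcd _ _ _).trans (mul_dvd_mul_left _ ih)
  exact Nat.le_of_dvd (Finset.prod_pos fun i _ => Nat.gcd_pos_of_pos_left _ hA) h

theorem mo_mult (L : ℕ) (M : ℝ) (hM : 0 ≤ M) (s : Finset ℕ)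
    (hs : ∀ n ∈ s, 0 < n ∧ (n : ℝ) ≤ M) : ((s.filter fun n => L ∣ n).card : ℝ) ≤ M / L := by
  have h1 : s.filter (fun n => L ∣ n) ⊆ (Ioc 0 ⌊M⌋₊).filter fun n => L ∣ n := by
    intro n hn
    rw [mem_filter] at hn ⊢
    rw [mem_Ioc, Nat.le_floor_iff hM]
    exact ⟨hs n hn.1, hn.2⟩
  have h2 := card_le_card h1
  rw [Nat.Ioc_filter_dvd_card_eq_div] at h2
  calc ((s.filter fun n => L ∣ n).card : ℝ) ≤ ((⌊M⌋₊ / L : ℕ) : ℝ) := by exact_mod_cast h2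
    _ ≤ (⌊M⌋₊ : ℝ) / L := Nat.cast_div_le
    _ ≤ M / L := div_le_div_of_nonneg_right (Nat.floor_le hM) (by positivity)

theorem mo_lcm (I : Finset ℕ) (hI : ∀ p ∈ I, p.Prime) (h1 : ∑ p ∈ I, (1 : ℝ) / p ≤ 1) (ℓ : ℕ) :
    ∑ v ∈ Fintype.piFinset (fun _ : Fin ℓ => I), ∑ v' ∈ Fintype.piFinset (fun _ : Fin ℓ => I),
      (1 : ℝ) / (Nat.lcm (∏ i, v i) (∏ i, v' i) : ℕ) ≤ ((ℓ : ℝ) + 1) ^ ℓ := by
  classical
  have hpos : ∀ v ∈ Fintype.piFinset (fun _ : Fin ℓ => I), 0 < ∏ i, v i := by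
    intro v hv
    rw [Fintype.mem_piFinset] at hv
    exact Finset.prod_pos fun i _ => (hI _ (hv i)).pos
  have hin : ∀ v ∈ Fintype.piFinset (fun _ : Fin ℓ => I),
      ∑ p ∈ I, ((Nat.gcd (∏ i, v i) p : ℕ) : ℝ) / p ≤ (ℓ : ℝ) + 1 := by
    intro v hv
    have hv' := hv
    rw [Fintype.mem_piFinset] at hv'
    have h2 : ∀ p ∈ I, ((Nat.gcd (∏ i, v i) p : ℕ) : ℝ) / p ≤
        1 / p + (if p ∈ (Finset.univ.image v) then (1 : ℝ) else 0) := by
      intro p hp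
      have hpp := hI p hp
      have hp0 : (0 : ℝ) < p := by exact_mod_cast hpp.pos
      by_cases hdvd : p ∣ ∏ i, v i
      · have h3 : p ∈ Finset.univ.image v := by
          obtain ⟨i, _, hi⟩ := (hpp.prime.dvd_finsetProd_iff _).1 hdvd
          rw [Finset.mem_image]
          exact ⟨i, Finset.mem_univ _, ((Nat.prime_dvd_prime_iff_eq hpp (hI _ (hv' i))).1 hi).symm⟩
        rw [if_pos h3, Nat.gcd_eq_right hdvd, div_self hp0.ne']
        have : (0 : ℝ) ≤ 1 / p := by positivity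
        linarith
      · have h3 : Nat.gcd (∏ i, v i) p = 1 :=
          Nat.Coprime.symm ((Nat.Prime.coprime_iff_not_dvd hpp).2 hdvd)
        rw [h3, Nat.cast_one]
        have : (0 : ℝ) ≤ (if p ∈ (Finset.univ.image v) then (1 : ℝ) else 0) := by
          split_ifs <;> norm_num
        linarith
    refine (Finset.sum_le_sum h2).trans ?_
    rw [Finset.sum_add_distrib, Finset.sum_boole]
    have h4 : ((I.filter fun p => p ∈ Finset.univ.image v).card : ℝ) ≤ ℓ := by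
      have h5 : (I.filter fun p => p ∈ Finset.univ.image v).card ≤ (Finset.univ.image v).card :=
        Finset.card_le_card fun p hp => (Finset.mem_filter.1 hp).2
      have h6 : (Finset.univ.image v).card ≤ ℓ := by
        refine Finset.card_image_le.trans ?_
        rw [Finset.card_univ, Fintype.card_fin]
      exact_mod_cast h5.trans h6
    linarith
  have hone : ∀ v ∈ Fintype.piFinset (fun _ : Fin ℓ => I),
      ∑ v' ∈ Fintype.piFinset (fun _ : Fin ℓ => I),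
        (1 : ℝ) / (Nat.lcm (∏ i, v i) (∏ i, v' i) : ℕ) ≤
      (∏ i, (1 : ℝ) / v i) * ((ℓ : ℝ) + 1) ^ ℓ := by
    intro v hv
    have hA := hpos v hv
    have hA' : (0 : ℝ) < ((∏ i, v i : ℕ) : ℝ) := by exact_mod_cast hA
    have h3 : ∀ v' ∈ Fintype.piFinset (fun _ : Fin ℓ => I),
        (1 : ℝ) / (Nat.lcm (∏ i, v i) (∏ i, v' i) : ℕ) ≤
          (∏ i, (1 : ℝ) / v i) * ∏ i, ((Nat.gcd (∏ i, v i) (v' i) : ℕ) : ℝ) / v' i := by
      intro v' hv'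
      have hB := hpos v' hv'
      have hB' : (0 : ℝ) < ((∏ i, v' i : ℕ) : ℝ) := by exact_mod_cast hB
      have hL : 0 < Nat.lcm (∏ i, v i) (∏ i, v' i) := Nat.lcm_pos hA hB
      have hL' : (0 : ℝ) < ((Nat.lcm (∏ i, v i) (∏ i, v' i) : ℕ) : ℝ) := by exact_mod_cast hL
      have h4 : ((Nat.gcd (∏ i, v i) (∏ i, v' i) : ℕ) : ℝ) *
          ((Nat.lcm (∏ i, v i) (∏ i, v' i) : ℕ) : ℝ) =
          ((∏ i, v i : ℕ) : ℝ) * ((∏ i, v' i : ℕ) : ℝ) := by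
        exact_mod_cast Nat.gcd_mul_lcm _ _
      have h5 : (1 : ℝ) / (Nat.lcm (∏ i, v i) (∏ i, v' i) : ℕ) =
          1 / ((∏ i, v i : ℕ) : ℝ) * (((Nat.gcd (∏ i, v i) (∏ i, v' i) : ℕ) : ℝ) /
            ((∏ i, v' i : ℕ) : ℝ)) := by
        field_simp
        linarith
      rw [h5, Finset.prod_div_distrib, Finset.prod_const_one, Finset.prod_div_distrib]
      push_cast
      refine mul_le_mul_of_nonneg_left ?_ (by positivity)
      refine div_le_div_of_nonneg_right ?_ (by positivity)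
      have h6 := mo_gcd (∏ i, v i) hA Finset.univ v'
      exact_mod_cast h6
    refine (Finset.sum_le_sum h3).trans ?_
    rw [← Finset.mul_sum, ← Finset.sum_pow' I (fun p => ((Nat.gcd (∏ i, v i) p : ℕ) : ℝ) / p) ℓ]
    refine mul_le_mul_of_nonneg_left ?_ (Finset.prod_nonneg fun i _ => by positivity)
    exact pow_le_pow_left₀ (Finset.sum_nonneg fun p _ => by positivity) (hin v hv) ℓ
  refine (Finset.sum_le_sum hone).trans ?_
  rw [← Finset.sum_mul, ← Finset.sum_pow' I (fun p => (1 : ℝ) / p) ℓ]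
  have h7 : (∑ p ∈ I, (1 : ℝ) / p) ^ ℓ ≤ 1 :=
    pow_le_one₀ (Finset.sum_nonneg fun p _ => by positivity) h1
  have h8 : (0 : ℝ) ≤ ((ℓ : ℝ) + 1) ^ ℓ := by positivity
  nlinarith

theorem mo_tw_prod (u : ℝ) {ι : Type} (s : Finset ι) (v : ι → ℕ) (hv : ∀ i ∈ s, v i ≠ 0) :
    tw u (∏ i ∈ s, v i) = ∏ i ∈ s, tw u (v i) := by
  classical
  induction s using Finset.induction_on with
  | empty => simp [tw]
  | insert a s ha ih =>
    rw [Finset.prod_insert ha, Finset.prod_insert ha, tw_mul, ih]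
    · exact fun i hi => hv i (Finset.mem_insert_of_mem hi)
    · exact hv a (Finset.mem_insert_self _ _)
    · exact Finset.prod_ne_zero_iff.2 fun i hi => hv i (Finset.mem_insert_of_mem hi)

theorem moment : ∃ C : ℝ, 0 < C ∧ ∀ (I S : Finset ℕ) (f b : ℕ → ℂ) (P1 P2 y : ℝ) (ℓ T : ℕ),
    (∀ n, ‖f n‖ ≤ 1) → (∀ n, ‖b n‖ ≤ 1) → 1 ≤ P1 → P1 ≤ P2 → 1 / 2 ≤ y → 1 ≤ T →
    (∀ p ∈ I, p.Prime ∧ P1 < p ∧ (p : ℝ) ≤ P2) → ∑ p ∈ I, (1 : ℝ) / p ≤ 1 →
    (∀ m ∈ S, y < m ∧ (m : ℝ) ≤ 2 * y) →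
    ∑ t ∈ Finset.Ioo (-(T : ℤ)) T,
      ‖(∑ p ∈ I, f p * tw (-t) p / (p : ℂ)) ^ ℓ * ∑ m ∈ S, b m * tw (-t) m / (m : ℂ)‖ ^ 2 ≤
      C * (T * (1 + Real.log (2 * (P2 / P1) ^ ℓ)) + 2 * (P2 / P1) ^ ℓ * (P1 ^ ℓ * y)) *
        (2 * (P2 / P1) ^ ℓ) * ((ℓ : ℝ) + 1) ^ ℓ / (P1 ^ ℓ * y) := by
  classical
  obtain ⟨C, hC, hmvt⟩ := mvt'
  refine ⟨C, hC, ?_⟩
  intro I S f b P1 P2 y ℓ T hf hb hP1 hP12 hy hT hI hI1 hS
  set N : ℝ := P1 ^ ℓ * y with hN
  set Λ : ℝ := 2 * (P2 / P1) ^ ℓ with hΛ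
  have hP1' : 0 < P1 := by linarith
  have hP1l : 1 ≤ P1 ^ ℓ := one_le_pow₀ hP1
  have hN2 : 1 / 2 ≤ N := by
    rw [hN]
    nlinarith
  have hN0 : 0 < N := by linarith
  have hratio : 1 ≤ P2 / P1 := by
    rw [le_div_iff₀ hP1']
    linarith
  have hΛ1 : 1 ≤ Λ := by
    rw [hΛ]
    have := one_le_pow₀ (n := ℓ) hratio
    linarith
  have hM : Λ * N = 2 * y * P2 ^ ℓ := by
    rw [hΛ, hN, div_pow]
    field_simp
  set V := Fintype.piFinset (fun _ : Fin ℓ => I) with hV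
  have hVmem : ∀ v ∈ V, ∀ i, (v i).Prime ∧ P1 < v i ∧ (v i : ℝ) ≤ P2 := by
    intro v hv i
    rw [hV, Fintype.mem_piFinset] at hv
    exact hI _ (hv i)
  have hVpos : ∀ v ∈ V, 0 < ∏ i, v i := fun v hv =>
    Finset.prod_pos fun i _ => (hVmem v hv i).1.pos
  have hSpos : ∀ m ∈ S, 0 < m := by
    intro m hm
    have h1 := (hS m hm).1
    have h2 : (0 : ℝ) < m := by linarith
    exact_mod_cast h2
  set nn : (Fin ℓ → ℕ) × ℕ → ℕ := fun z => (∏ i, z.1 i) * z.2 with hnn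
  set c : (Fin ℓ → ℕ) × ℕ → ℂ := fun z => (∏ i, f (z.1 i)) * b z.2 with hc
  have hcn : ∀ z, ‖c z‖ ≤ 1 := by
    intro z
    rw [hc]
    simp only
    rw [norm_mul, norm_prod]
    exact mul_le_one₀ (Finset.prod_le_one (fun _ _ => norm_nonneg _) fun _ _ => hf _)
      (norm_nonneg _) (hb _)
  set S' := (V ×ˢ S).image nn with hS'
  set a : ℕ → ℂ := fun n => (∑ z ∈ (V ×ˢ S).filter (fun z => nn z = n), c z) / (n : ℂ) with ha
  have hnnpos : ∀ z ∈ V ×ˢ S, 0 < nn z := by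
    intro z hz
    rw [Finset.mem_product] at hz
    exact Nat.mul_pos (hVpos _ hz.1) (hSpos _ hz.2)
  -- expansion
  have hF : ∀ t : ℤ, (∑ p ∈ I, f p * tw (-t) p / (p : ℂ)) ^ ℓ *
      ∑ m ∈ S, b m * tw (-t) m / (m : ℂ) = ∑ n ∈ S', a n * tw (-t) n := by
    intro t
    rw [Finset.sum_pow', Finset.sum_mul_sum, ← Finset.sum_product']
    rw [← Finset.sum_fiberwise_of_maps_to (t := S') (g := nn)
      (fun z hz => Finset.mem_image_of_mem _ hz)]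
    refine Finset.sum_congr rfl fun n hn => ?_
    rw [ha]
    simp only
    rw [Finset.sum_div, Finset.sum_mul]
    refine Finset.sum_congr rfl fun z hz => ?_
    rw [Finset.mem_filter] at hz
    obtain ⟨hz1, hz2⟩ := hz
    have hz1' := hz1
    rw [Finset.mem_product] at hz1'
    rw [← hz2, hnn, hc]
    simp only
    rw [tw_mul _ (hVpos _ hz1'.1).ne' (hSpos _ hz1'.2).ne',
      mo_tw_prod _ _ _ (fun i _ => (hVmem _ hz1'.1 i).1.ne_zero), Finset.prod_div_distrib,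
      Finset.prod_mul_distrib]
    push_cast
    rw [div_mul_div_comm]
    ring
  have hS'mem : ∀ n ∈ S', N < n ∧ (n : ℝ) ≤ Λ * N := by
    intro n hn
    rw [hS', Finset.mem_image] at hn
    obtain ⟨z, hz, rfl⟩ := hn
    rw [Finset.mem_product] at hz
    have h1 : P1 ^ ℓ ≤ ((∏ i, z.1 i : ℕ) : ℝ) := by
      push_cast
      have h2 : ∏ _i : Fin ℓ, P1 ≤ ∏ i, (z.1 i : ℝ) :=
        Finset.prod_le_prod (fun _ _ => hP1'.le) fun i _ => (hVmem _ hz.1 i).2.1.le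
      rwa [Finset.prod_const, Finset.card_univ, Fintype.card_fin] at h2
    have h1' : ((∏ i, z.1 i : ℕ) : ℝ) ≤ P2 ^ ℓ := by
      push_cast
      have h2 : ∏ i, (z.1 i : ℝ) ≤ ∏ _i : Fin ℓ, P2 :=
        Finset.prod_le_prod (fun _ _ => by positivity) fun i _ => (hVmem _ hz.1 i).2.2
      rwa [Finset.prod_const, Finset.card_univ, Fintype.card_fin] at h2
    have h3 := hS _ hz.2
    rw [hnn, hM, hN]
    simp only
    rw [Nat.cast_mul]
    constructor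
    · calc P1 ^ ℓ * y < P1 ^ ℓ * (z.2 : ℝ) := by
            apply mul_lt_mul_of_pos_left h3.1
            linarith
        _ ≤ _ := mul_le_mul_of_nonneg_right h1 (Nat.cast_nonneg _)
    · calc ((∏ i, z.1 i : ℕ) : ℝ) * z.2 ≤ P2 ^ ℓ * (2 * y) :=
            mul_le_mul h1' h3.2 (Nat.cast_nonneg _) (pow_nonneg (by linarith) _)
        _ = _ := by ring
  simp only [hF]
  refine (hmvt T N Λ S' a hT hN2 hΛ1 hS'mem).trans ?_
  -- coefficients
  have hcard : ∀ n ∈ S', ‖a n‖ ≤ ((V.filter fun v => (∏ i, v i) ∣ n).card : ℝ) / N := by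
    intro n hn
    have hn1 := hS'mem n hn
    have hn0 : (0 : ℝ) < n := by linarith
    rw [ha]
    simp only
    rw [norm_div, Complex.norm_natCast]
    have h1 : ‖∑ z ∈ (V ×ˢ S).filter (fun z => nn z = n), c z‖ ≤
        ((V.filter fun v => (∏ i, v i) ∣ n).card : ℝ) := by
      refine (norm_sum_le _ _).trans ((Finset.sum_le_sum fun z _ => hcn z).trans ?_)
      rw [Finset.sum_const, nsmul_eq_mul, mul_one]
      have h2 : ((V ×ˢ S).filter (fun z => nn z = n)).card ≤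
          (V.filter fun v => (∏ i, v i) ∣ n).card := by
        refine Finset.card_le_card_of_injOn (fun z => z.1) ?_ ?_
        · intro z hz
          rw [Finset.mem_coe, Finset.mem_filter, Finset.mem_product] at hz
          rw [Finset.mem_coe, Finset.mem_filter]
          exact ⟨hz.1.1, Dvd.intro _ hz.2⟩
        · intro z hz z' hz' hzz
          rw [Finset.mem_coe, Finset.mem_filter, Finset.mem_product] at hz hz'
          have h3 : z.1 = z'.1 := hzz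
          have h4 : (∏ i, z.1 i) * z.2 = (∏ i, z.1 i) * z'.2 := by
            have h5 : nn z = nn z' := hz.2.trans hz'.2.symm
            rw [hnn] at h5
            simp only at h5
            rw [← h3] at h5
            exact h5
          exact Prod.ext h3 (Nat.eq_of_mul_eq_mul_left (hVpos _ hz.1.1) h4)
      exact_mod_cast h2
    calc ‖∑ z ∈ (V ×ˢ S).filter (fun z => nn z = n), c z‖ / (n : ℝ)
        ≤ ((V.filter fun v => (∏ i, v i) ∣ n).card : ℝ) / (n : ℝ) :=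
          div_le_div_of_nonneg_right h1 hn0.le
      _ ≤ _ := div_le_div_of_nonneg_left (Nat.cast_nonneg _) hN0 hn1.1.le
  have hsum : ∑ n ∈ S', ‖a n‖ ^ 2 ≤ Λ * ((ℓ : ℝ) + 1) ^ ℓ / N := by
    have h1 : ∀ n ∈ S', ‖a n‖ ^ 2 ≤ (∑ v ∈ V, ∑ v' ∈ V,
        (if Nat.lcm (∏ i, v i) (∏ i, v' i) ∣ n then (1 : ℝ) else 0)) / N ^ 2 := by
      intro n hn
      refine (pow_le_pow_left₀ (norm_nonneg _) (hcard n hn) 2).trans (le_of_eq ?_)
      rw [div_pow]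
      congr 1
      rw [Finset.card_filter]
      push_cast
      rw [pow_two, Finset.sum_mul_sum]
      refine Finset.sum_congr rfl fun v _ => Finset.sum_congr rfl fun v' _ => ?_
      by_cases h2 : (∏ i, v i) ∣ n <;> by_cases h3 : (∏ i, v' i) ∣ n
      · rw [if_pos h2, if_pos h3, if_pos (Nat.lcm_dvd h2 h3), one_mul]
      · rw [if_neg h3, if_neg (fun h => h3 ((Nat.dvd_lcm_right _ _).trans h)), mul_zero]
      · rw [if_neg h2, if_neg (fun h => h2 ((Nat.dvd_lcm_left _ _).trans h)), zero_mul]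
      · rw [if_neg h2, if_neg (fun h => h2 ((Nat.dvd_lcm_left _ _).trans h)), zero_mul]
    refine (Finset.sum_le_sum h1).trans ?_
    rw [← Finset.sum_div, Finset.sum_comm]
    have h4 : ∑ v ∈ V, ∑ n ∈ S', ∑ v' ∈ V,
        (if Nat.lcm (∏ i, v i) (∏ i, v' i) ∣ n then (1 : ℝ) else 0) ≤
        Λ * N * ((ℓ : ℝ) + 1) ^ ℓ := by
      calc ∑ v ∈ V, ∑ n ∈ S', ∑ v' ∈ V,
          (if Nat.lcm (∏ i, v i) (∏ i, v' i) ∣ n then (1 : ℝ) else 0)
          = ∑ v ∈ V, ∑ v' ∈ V, ((S'.filter fun n =>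
              Nat.lcm (∏ i, v i) (∏ i, v' i) ∣ n).card : ℝ) := by
            refine Finset.sum_congr rfl fun v _ => ?_
            rw [Finset.sum_comm]
            refine Finset.sum_congr rfl fun v' _ => ?_
            rw [Finset.sum_boole]
        _ ≤ ∑ v ∈ V, ∑ v' ∈ V, (Λ * N) * ((1 : ℝ) / (Nat.lcm (∏ i, v i) (∏ i, v' i) : ℕ)) := by
            refine Finset.sum_le_sum fun v _ => Finset.sum_le_sum fun v' _ => ?_
            rw [mul_one_div]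
            refine mo_mult _ _ (by positivity) _ fun n hn => ?_
            have h5 := hS'mem n hn
            refine ⟨?_, h5.2⟩
            have : (0 : ℝ) < n := by linarith
            exact_mod_cast this
        _ = (Λ * N) * ∑ v ∈ V, ∑ v' ∈ V, ((1 : ℝ) / (Nat.lcm (∏ i, v i) (∏ i, v' i) : ℕ)) := by
            simp only [Finset.mul_sum]
        _ ≤ _ := mul_le_mul_of_nonneg_left (mo_lcm I (fun p hp => (hI p hp).1) hI1 ℓ)
            (by positivity)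
    calc (∑ v ∈ V, ∑ n ∈ S', ∑ v' ∈ V,
        (if Nat.lcm (∏ i, v i) (∏ i, v' i) ∣ n then (1 : ℝ) else 0)) / N ^ 2
        ≤ Λ * N * ((ℓ : ℝ) + 1) ^ ℓ / N ^ 2 := div_le_div_of_nonneg_right h4 (by positivity)
      _ = _ := by
          field_simp
  have hlog : 0 ≤ Real.log Λ := Real.log_nonneg hΛ1
  have hfac : 0 ≤ C * (T * (1 + Real.log Λ) + Λ * N) := by positivity
  refine (mul_le_mul_of_nonneg_left hsum hfac).trans (le_of_eq ?_)
  ring

end Pool.MRZ
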