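import Mathlib
import Pool.Agent.MRZ.Moment

/-!
# MRZ/CountU: number of integer frequencies where a prime polynomial is large

If every `t ∈ 𝒯 ⊆ (-T,T)` has some `r ∈ [r0,r1)` with `|Q_r(t)| > e^{-α r/V}` then, with `p = r0/V ≥ 1`,
`q = r1/V`: `#𝒯 ≤ C (r1-r0) exp(2α(log T + q) + (log T/p + 1)(4 + log(log T/p + 2)))`.

Proof. For fixed `r` let `a = r/V`, `k = ⌈log T / a⌉` (`T ≥ 2`), so `log T ≤ a k ≤ log T + a ≤ log T + q`,
`k ≤ log T/p + 1`. `moment` with `I = PV V r`, `S = {1}`, `y = 1/2`, `ℓ = k`, `P1 = e^a`,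
`P2 = e^{a+1/V}`: `N = e^{ak}/2 ≥ T/2`, `Λ = 2 e^{k/V} ≤ 2e^k`:
`∑_{|t|<T} |Q_r^k|² ≤ C (2(1+log Λ) + Λ) Λ (k+1)^k ≤ 3 C Λ² (k+1)^k ≤ 12 C e^{2k} (k+1)^k`.
The left side is at least `#𝒯_r e^{-2αak}`.
-/

namespace Pool.MRZ

open Finset

/-- the high moment of one block -/
theorem moment_Q : ∃ C : ℝ, 0 < C ∧ ∀ (f : ℕ → ℂ) (T V r k : ℕ),
    CM f → 1 ≤ V → 1 ≤ T → ∑ p ∈ PV V r, (1 : ℝ) / p ≤ 1 →
    (T : ℝ) ≤ Real.exp ((r : ℝ) / V * k) →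
    ∑ t ∈ Finset.Ioo (-(T : ℤ)) T, ‖Q f V r t‖ ^ (2 * k) ≤
      C * Real.exp (2 * k) * ((k : ℝ) + 1) ^ k := by
  obtain ⟨C, hC, hm⟩ := moment
  refine ⟨C * 12, by positivity, ?_⟩
  intro f T V r k hf hV hT hs hTk
  have hV0 : (0 : ℝ) < V := by exact_mod_cast hV
  have hV1 : (1 : ℝ) ≤ V := by exact_mod_cast hV
  have hr0 : (0 : ℝ) ≤ (r : ℝ) / V := by positivity
  have h1 := hm (PV V r) {1} f (fun _ => 1) (Real.exp ((r : ℝ) / V))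
    (Real.exp (((r : ℝ) + 1) / V)) (1 / 2) k T hf.bdd (fun n => by simp) (Real.one_le_exp hr0)
    (Real.exp_le_exp.2 (by gcongr; linarith)) le_rfl hT
    (fun p hp => mem_PV.1 hp) hs (fun m hm => by
      rw [Finset.mem_singleton] at hm
      subst hm
      constructor <;> norm_num)
  have h2 : ∀ t : ℤ, ‖(∑ p ∈ PV V r, f p * tw (-(t : ℝ)) p / (p : ℂ)) ^ k *
      ∑ m ∈ ({1} : Finset ℕ), (fun _ => (1 : ℂ)) m * tw (-(t : ℝ)) m / (m : ℂ)‖ ^ 2 =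
      ‖Q f V r t‖ ^ (2 * k) := by
    intro t
    rw [Finset.sum_singleton, norm_mul, norm_div, norm_mul, norm_tw]
    simp only [norm_one, Nat.cast_one, mul_one, div_one]
    rw [norm_pow, ← pow_mul, mul_comm k 2]
    rfl
  rw [Finset.sum_congr rfl (fun t _ => h2 t)] at h1
  refine le_trans h1 ?_
  have e1 : Real.exp (((r : ℝ) + 1) / V) / Real.exp ((r : ℝ) / V) = Real.exp (1 / V) := by
    rw [← Real.exp_sub]
    congr 1
    ring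
  have e2 : Real.exp ((r : ℝ) / V) ^ k = Real.exp ((r : ℝ) / V * k) := by
    rw [mul_comm, Real.exp_nat_mul]
  rw [e1, e2]
  obtain ⟨N, hN⟩ : ∃ N : ℝ, N = Real.exp ((r : ℝ) / V * k) * (1 / 2) := ⟨_, rfl⟩
  obtain ⟨Λ, hΛ⟩ : ∃ Λ : ℝ, Λ = 2 * Real.exp (1 / V) ^ k := ⟨_, rfl⟩
  rw [← hN, ← hΛ]
  have hN0 : 0 < N := by
    rw [hN]
    positivity
  have hTN : (T : ℝ) ≤ 2 * N := by
    rw [hN]
    linarith
  have h3 : (1 : ℝ) ≤ Real.exp (1 / V) ^ k := one_le_pow₀ (Real.one_le_exp (by positivity))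
  have h4 : Real.exp (1 / (V : ℝ)) ^ k ≤ Real.exp k := by
    have h5 : Real.exp (1 / (V : ℝ)) ≤ Real.exp 1 := by
      rw [Real.exp_le_exp, div_le_one hV0]
      exact hV1
    have h6 : Real.exp (1 / (V : ℝ)) ^ k ≤ Real.exp 1 ^ k :=
      pow_le_pow_left₀ (Real.exp_pos _).le h5 k
    have h7 : Real.exp 1 ^ k = Real.exp k := by rw [← Real.exp_nat_mul, mul_one]
    rwa [h7] at h6
  have hΛ0 : 0 < Λ := by
    rw [hΛ]
    positivity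
  have hΛ1 : Λ ≤ 2 * Real.exp k := by
    rw [hΛ]
    linarith
  have h5 : Real.log Λ ≤ Λ - 1 := Real.log_le_sub_one_of_pos hΛ0
  have hlog : 0 ≤ Real.log Λ := by
    apply Real.log_nonneg
    rw [hΛ]
    linarith
  have h6 : (T : ℝ) * (1 + Real.log Λ) + Λ * N ≤ 3 * Λ * N := by
    have h7 : (T : ℝ) * (1 + Real.log Λ) ≤ 2 * N * Λ :=
      mul_le_mul hTN (by linarith) (by linarith) (by positivity)
    linarith
  have h7 : C * ((T : ℝ) * (1 + Real.log Λ) + Λ * N) * Λ * ((k : ℝ) + 1) ^ k / N ≤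
      C * (3 * Λ * N) * Λ * ((k : ℝ) + 1) ^ k / N := by
    gcongr
  have h8 : C * (3 * Λ * N) * Λ * ((k : ℝ) + 1) ^ k / N = C * 3 * (Λ * Λ) * ((k : ℝ) + 1) ^ k := by
    field_simp
  have h9 : Λ * Λ ≤ 4 * Real.exp (2 * k) := by
    have h10 : Λ * Λ ≤ (2 * Real.exp k) * (2 * Real.exp k) :=
      mul_le_mul hΛ1 hΛ1 hΛ0.le (by positivity)
    have h11 : Real.exp (2 * (k : ℝ)) = Real.exp k * Real.exp k := by
      rw [← Real.exp_add]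
      congr 1
      ring
    rw [h11]
    linarith
  refine le_trans h7 ?_
  rw [h8]
  have h12 : C * 3 * (Λ * Λ) * ((k : ℝ) + 1) ^ k ≤
      C * 3 * (4 * Real.exp (2 * k)) * ((k : ℝ) + 1) ^ k := by
    gcongr
  refine le_trans h12 (le_of_eq ?_)
  ring

/-- the count for one block -/
theorem countU_one : ∃ C : ℝ, 0 < C ∧ ∀ (f : ℕ → ℂ) (T V r0 r1 r : ℕ) (α : ℝ) (𝒯 : Finset ℤ),
    CM f → 1 ≤ V → V ≤ r0 → r0 ≤ r → r ≤ r1 → 2 ≤ T → 0 ≤ α →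
    ∑ p ∈ PV V r, (1 : ℝ) / p ≤ 1 →
    𝒯 ⊆ Finset.Ioo (-(T : ℤ)) T →
    (∀ t ∈ 𝒯, Real.exp (-α * ((r : ℝ) / V)) < ‖Q f V r t‖) →
    (𝒯.card : ℝ) ≤ C *
      Real.exp (2 * α * (Real.log T + (r1 : ℝ) / V) +
        (Real.log T / ((r0 : ℝ) / V) + 1) * (4 + Real.log (Real.log T / ((r0 : ℝ) / V) + 2))) := by
  obtain ⟨C, hC, hm⟩ := moment_Q
  refine ⟨C, hC, ?_⟩
  intro f T V r0 r1 r α 𝒯 hf hV hVr hr0 hr1 hT hα hs h𝒯 hQ
  have hV0 : (0 : ℝ) < V := by exact_mod_cast hV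
  have hVr' : (V : ℝ) ≤ r0 := by exact_mod_cast hVr
  have hr0' : (r0 : ℝ) ≤ r := by exact_mod_cast hr0
  have hr1' : (r : ℝ) ≤ r1 := by exact_mod_cast hr1
  have hT' : (2 : ℝ) ≤ T := by exact_mod_cast hT
  have hT0 : (0 : ℝ) < T := by linarith
  have hlT : 0 < Real.log T := Real.log_pos (by linarith)
  obtain ⟨a, ha⟩ : ∃ a : ℝ, a = (r : ℝ) / V := ⟨_, rfl⟩
  obtain ⟨p, hp⟩ : ∃ p : ℝ, p = (r0 : ℝ) / V := ⟨_, rfl⟩
  obtain ⟨q, hq⟩ : ∃ q : ℝ, q = (r1 : ℝ) / V := ⟨_, rfl⟩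
  have hp1 : 1 ≤ p := by
    rw [hp, le_div_iff₀ hV0]
    linarith
  have hpa : p ≤ a := by
    rw [hp, ha]
    gcongr
  have haq : a ≤ q := by
    rw [ha, hq]
    gcongr
  have ha0 : 0 < a := by linarith
  obtain ⟨k, hk⟩ : ∃ k : ℕ, k = ⌈Real.log T / a⌉₊ := ⟨_, rfl⟩
  have hk1 : Real.log T / a ≤ k := by
    rw [hk]
    exact Nat.le_ceil _
  have hk2 : (k : ℝ) < Real.log T / a + 1 := by
    rw [hk]
    exact Nat.ceil_lt_add_one (by positivity)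
  have hk3 : Real.log T ≤ a * k := by
    rw [div_le_iff₀ ha0] at hk1
    linarith
  have hk4 : a * k ≤ Real.log T + q := by
    have h1 : a * k ≤ a * (Real.log T / a + 1) := mul_le_mul_of_nonneg_left hk2.le ha0.le
    have h2 : a * (Real.log T / a + 1) = Real.log T + a := by
      field_simp
    linarith
  have hk5 : (k : ℝ) ≤ Real.log T / p + 1 := by
    have h1 : Real.log T / a ≤ Real.log T / p :=
      div_le_div_of_nonneg_left hlT.le (by linarith) hpa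
    linarith
  have hTk : (T : ℝ) ≤ Real.exp ((r : ℝ) / V * k) := by
    rw [← ha]
    calc (T : ℝ) = Real.exp (Real.log T) := (Real.exp_log hT0).symm
      _ ≤ Real.exp (a * k) := Real.exp_le_exp.2 hk3
  have h1 := hm f T V r k hf hV (by omega) hs hTk
  rw [← ha] at hQ
  have h2 : (𝒯.card : ℝ) * Real.exp (-(2 * α * (a * k))) ≤
      ∑ t ∈ Finset.Ioo (-(T : ℤ)) T, ‖Q f V r t‖ ^ (2 * k) := by
    have h3 : ∑ _t ∈ 𝒯, Real.exp (-(2 * α * (a * k))) ≤ ∑ t ∈ 𝒯, ‖Q f V r t‖ ^ (2 * k) := by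
      apply Finset.sum_le_sum
      intro t ht
      have h4 : Real.exp (-α * a) ^ (2 * k) ≤ ‖Q f V r t‖ ^ (2 * k) :=
        pow_le_pow_left₀ (Real.exp_pos _).le (hQ t ht).le _
      refine le_trans (le_of_eq ?_) h4
      rw [← Real.exp_nat_mul]
      congr 1
      push_cast
      ring
    rw [Finset.sum_const, nsmul_eq_mul] at h3
    refine le_trans h3 ?_
    exact Finset.sum_le_sum_of_subset_of_nonneg h𝒯 (fun t _ _ => by positivity)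
  have h3 : (𝒯.card : ℝ) * Real.exp (-(2 * α * (a * k))) ≤
      C * Real.exp (2 * k) * ((k : ℝ) + 1) ^ k := le_trans h2 h1
  have h4 : (𝒯.card : ℝ) ≤ C * Real.exp (2 * k) * ((k : ℝ) + 1) ^ k *
      Real.exp (2 * α * (a * k)) := by
    have h5 := mul_le_mul_of_nonneg_right h3 (Real.exp_pos (2 * α * (a * k))).le
    rwa [mul_assoc, ← Real.exp_add, neg_add_cancel, Real.exp_zero, mul_one] at h5
  have hk0 : (0 : ℝ) ≤ k := Nat.cast_nonneg k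
  have h5 : ((k : ℝ) + 1) ^ k = Real.exp (k * Real.log (k + 1)) := by
    rw [Real.exp_nat_mul, Real.exp_log (by linarith)]
  have hlk : Real.log ((k : ℝ) + 1) ≤ Real.log (Real.log T / p + 2) :=
    Real.log_le_log (by linarith) (by linarith)
  have hlk0 : 0 ≤ Real.log ((k : ℝ) + 1) := Real.log_nonneg (by linarith)
  have h6 : 2 * (k : ℝ) + k * Real.log (k + 1) ≤
      (Real.log T / p + 1) * (4 + Real.log (Real.log T / p + 2)) := by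
    have h7 : 2 * (k : ℝ) + k * Real.log (k + 1) = k * (2 + Real.log (k + 1)) := by ring
    rw [h7]
    exact mul_le_mul hk5 (by linarith) (by linarith) (by linarith)
  have h7 : 2 * α * (a * k) ≤ 2 * α * (Real.log T + q) :=
    mul_le_mul_of_nonneg_left hk4 (by linarith)
  refine le_trans h4 ?_
  rw [h5, mul_assoc C, mul_assoc C, ← Real.exp_add, ← Real.exp_add, ← hp, ← hq]
  apply mul_le_mul_of_nonneg_left _ hC.le
  rw [Real.exp_le_exp]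
  linarith

theorem countU : ∃ C : ℝ, 0 < C ∧ ∀ (f : ℕ → ℂ) (T V r0 r1 : ℕ) (α : ℝ) (𝒯 : Finset ℤ),
    CM f → 1 ≤ V → V ≤ r0 → r0 ≤ r1 → 2 ≤ T → 0 ≤ α →
    (∀ r ∈ Finset.Ico r0 r1, ∑ p ∈ PV V r, (1 : ℝ) / p ≤ 1) →
    𝒯 ⊆ Finset.Ioo (-(T : ℤ)) T →
    (∀ t ∈ 𝒯, ∃ r ∈ Finset.Ico r0 r1, Real.exp (-α * ((r : ℝ) / V)) < ‖Q f V r t‖) →
    (𝒯.card : ℝ) ≤ C * ((r1 : ℝ) - r0) *
      Real.exp (2 * α * (Real.log T + (r1 : ℝ) / V) +
        (Real.log T / ((r0 : ℝ) / V) + 1) * (4 + Real.log (Real.log T / ((r0 : ℝ) / V) + 2))) := by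
  classical
  obtain ⟨C, hC, hm⟩ := countU_one
  refine ⟨C, hC, ?_⟩
  intro f T V r0 r1 α 𝒯 hf hV hVr hr hT hα hs h𝒯 hQ
  obtain ⟨E, hE⟩ : ∃ E : ℝ, E = Real.exp (2 * α * (Real.log T + (r1 : ℝ) / V) +
        (Real.log T / ((r0 : ℝ) / V) + 1) *
          (4 + Real.log (Real.log T / ((r0 : ℝ) / V) + 2))) := ⟨_, rfl⟩
  rw [← hE]
  have h1 : 𝒯 ⊆ (Finset.Ico r0 r1).biUnion (fun r =>
      𝒯.filter (fun t : ℤ => Real.exp (-α * ((r : ℝ) / V)) < ‖Q f V r t‖)) := by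
    intro t ht
    obtain ⟨r, hr, h2⟩ := hQ t ht
    exact Finset.mem_biUnion.2 ⟨r, hr, Finset.mem_filter.2 ⟨ht, h2⟩⟩
  have h2 : 𝒯.card ≤ ∑ r ∈ Finset.Ico r0 r1,
      (𝒯.filter (fun t : ℤ => Real.exp (-α * ((r : ℝ) / V)) < ‖Q f V r t‖)).card :=
    le_trans (Finset.card_le_card h1) Finset.card_biUnion_le
  have h3 : (𝒯.card : ℝ) ≤ ∑ r ∈ Finset.Ico r0 r1,
      ((𝒯.filter (fun t : ℤ => Real.exp (-α * ((r : ℝ) / V)) < ‖Q f V r t‖)).card : ℝ) := by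
    exact_mod_cast h2
  have h4 : ∑ r ∈ Finset.Ico r0 r1,
      ((𝒯.filter (fun t : ℤ => Real.exp (-α * ((r : ℝ) / V)) < ‖Q f V r t‖)).card : ℝ) ≤
      ∑ r ∈ Finset.Ico r0 r1, C * E := by
    apply Finset.sum_le_sum
    intro r hr'
    obtain ⟨h5, h6⟩ := Finset.mem_Ico.1 hr'
    rw [hE]
    exact hm f T V r0 r1 r α _ hf hV hVr h5 h6.le hT hα (hs r hr')
      ((Finset.filter_subset _ _).trans h𝒯) (fun t ht => (Finset.mem_filter.1 ht).2)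
  refine le_trans h3 (le_trans h4 (le_of_eq ?_))
  rw [Finset.sum_const, nsmul_eq_mul, Nat.card_Ico, Nat.cast_sub hr]
  ring

end Pool.MRZ
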