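import Mathlib
import Pool.Agent.MRZ.Defs

/-!
# MRZ/TK: Turán–Kubilius inequality in an interval, elementary form

`P` a finite set of primes `≤ Q0`, `L = ∑_{p∈P} 1/p`, `ω(n) = #{p ∈ P : p ∣ n}`. For the interval
`(A, A+D]`:
* `∑ ω(n)² ≤ D (L² + L) + Q0²`: expand; for `p ≠ p'` the number of `n` divisible by `p p'` is at most
  `D/(p p') + 1`, for `p = p'` it is at most `D/p + 1`; the number of pairs is `|P|² ≤ Q0²`.
* `∑ ω(n) ≥ D L - |P|`.
* hence `∑ (ω(n) - L)² ≤ D(L²+L) + Q0² - 2 L (D L - |P|) + D L² = D L + Q0² + 2 L |P| ≤ D L + 2 Q0²`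
  because `L ≤ |P|/2` (`p ≥ 2`), `|P| ≤ Q0`.
-/

namespace Pool.MRZ

open Finset

namespace TK

theorem card_dvd (A D d : ℕ) :
    (((Finset.Ioc A (A + D)).filter (d ∣ ·)).card : ℕ) = (A + D) / d - A / d := by
  have h1 := Nat.Ioc_filter_dvd_card_eq_div (A + D) d
  have h2 := Nat.Ioc_filter_dvd_card_eq_div A d
  have h3 : Finset.Ioc 0 (A + D) = Finset.Ioc 0 A ∪ Finset.Ioc A (A + D) := by
    rw [Finset.Ioc_union_Ioc_eq_Ioc (Nat.zero_le _) (Nat.le_add_right _ _)]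
  have h4 : Disjoint (Finset.Ioc 0 A) (Finset.Ioc A (A + D)) := by
    rw [Finset.disjoint_left]
    intro x hx hy
    rw [Finset.mem_Ioc] at hx hy
    omega
  rw [h3, Finset.filter_union, Finset.card_union_of_disjoint
    (Finset.disjoint_filter_filter h4)] at h1
  omega

theorem card_le (A D d : ℕ) (hd : 0 < d) :
    (((Finset.Ioc A (A + D)).filter (d ∣ ·)).card : ℝ) ≤ D / d + 1 := by
  rw [card_dvd]
  have hd' : (0 : ℝ) < d := by exact_mod_cast hd
  have h1 : (A + D) / d ≤ A / d + (D / d + 1) := by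
    have a1 := Nat.div_add_mod (A + D) d
    have a2 := Nat.div_add_mod A d
    have a3 := Nat.div_add_mod D d
    have b2 := Nat.mod_lt A hd
    have b3 := Nat.mod_lt D hd
    apply Nat.le_of_lt_succ
    rw [Nat.div_lt_iff_lt_mul hd]
    nlinarith
  have h2 : (A + D) / d - A / d ≤ D / d + 1 := Nat.sub_le_iff_le_add'.mpr h1
  have h3 : (((A + D) / d - A / d : ℕ) : ℝ) ≤ ((D / d : ℕ) : ℝ) + 1 := by exact_mod_cast h2
  have h4 : ((D / d : ℕ) : ℝ) ≤ (D : ℝ) / d := Nat.cast_div_le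
  linarith

theorem le_card (A D d : ℕ) (hd : 0 < d) :
    (D : ℝ) / d - 1 ≤ (((Finset.Ioc A (A + D)).filter (d ∣ ·)).card : ℝ) := by
  rw [card_dvd]
  have hd' : (0 : ℝ) < d := by exact_mod_cast hd
  have h1 : D < ((A + D) / d - A / d + 1) * d := by
    have a1 := Nat.div_add_mod (A + D) d
    have a2 := Nat.div_add_mod A d
    have b1 := Nat.mod_lt (A + D) hd
    have h0 : A / d ≤ (A + D) / d := Nat.div_le_div_right (Nat.le_add_right _ _)
    obtain ⟨e, he⟩ := Nat.exists_eq_add_of_le h0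
    rw [he] at a1 ⊢
    have : A / d + e - A / d = e := by omega
    rw [this]
    have c1 : d * (A / d + e) = d * (A / d) + d * e := by ring
    have c2 : (e + 1) * d = d * e + d := by ring
    have c3 : d * (A / d) ≤ A := Nat.mul_div_le A d
    rw [c1] at a1
    rw [c2]
    linarith
  have h2 : (D : ℝ) < ((((A + D) / d - A / d : ℕ) : ℝ) + 1) * d := by exact_mod_cast h1
  rw [sub_le_iff_le_add, div_le_iff₀ hd']
  exact h2.le

theorem card_P (P : Finset ℕ) (Q0 : ℕ) (hP : ∀ p ∈ P, p.Prime) (hQ : ∀ p ∈ P, p ≤ Q0) :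
    P.card ≤ Q0 := by
  have h1 : P ⊆ Finset.Icc 1 Q0 := by
    intro p hp
    rw [Finset.mem_Icc]
    exact ⟨(hP p hp).one_le, hQ p hp⟩
  have h2 := Finset.card_le_card h1
  rw [Nat.card_Icc] at h2
  omega

theorem om_eq (P : Finset ℕ) (n : ℕ) :
    ((P.filter (· ∣ n)).card : ℝ) = ∑ p ∈ P, if p ∣ n then (1 : ℝ) else 0 := by
  rw [Finset.card_filter]
  push_cast
  rfl

theorem pair_le (A D p q : ℕ) (hp : p.Prime) (hq : q.Prime) :
    ∑ n ∈ Finset.Ioc A (A + D), ((if p ∣ n then (1 : ℝ) else 0) * (if q ∣ n then (1 : ℝ) else 0)) ≤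
      D * ((1 : ℝ) / p * ((1 : ℝ) / q)) + (if p = q then D * ((1 : ℝ) / p) else 0) + 1 := by
  have hpp : (0 : ℝ) < p := by exact_mod_cast hp.pos
  have hqq : (0 : ℝ) < q := by exact_mod_cast hq.pos
  by_cases h : p = q
  · subst h
    rw [if_pos rfl]
    have e : ∑ n ∈ Finset.Ioc A (A + D),
        ((if p ∣ n then (1 : ℝ) else 0) * (if p ∣ n then (1 : ℝ) else 0)) =
        (((Finset.Ioc A (A + D)).filter (p ∣ ·)).card : ℝ) := by
      rw [Finset.card_filter]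
      push_cast
      refine Finset.sum_congr rfl fun n _ => ?_
      by_cases hn : p ∣ n
      · simp [hn]
      · simp [hn]
    rw [e]
    have h1 := card_le A D p hp.pos
    have h2 : (0 : ℝ) ≤ D * ((1 : ℝ) / p * ((1 : ℝ) / p)) := by positivity
    have h3 : (D : ℝ) / p = D * ((1 : ℝ) / p) := by ring
    linarith
  · rw [if_neg h]
    have hc : Nat.Coprime p q := (Nat.coprime_primes hp hq).mpr h
    have e : ∑ n ∈ Finset.Ioc A (A + D),
        ((if p ∣ n then (1 : ℝ) else 0) * (if q ∣ n then (1 : ℝ) else 0)) =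
        (((Finset.Ioc A (A + D)).filter ((p * q) ∣ ·)).card : ℝ) := by
      rw [Finset.card_filter]
      push_cast
      refine Finset.sum_congr rfl fun n _ => ?_
      by_cases hn : p ∣ n
      · by_cases hm : q ∣ n
        · simp [hn, hm, hc.mul_dvd_of_dvd_of_dvd hn hm]
        · have : ¬ p * q ∣ n := fun h' => hm (dvd_trans (dvd_mul_left q p) h')
          simp [hm, this]
      · have : ¬ p * q ∣ n := fun h' => hn (dvd_trans (dvd_mul_right p q) h')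
        simp [hn, this]
    rw [e]
    have h1 := card_le A D (p * q) (Nat.mul_pos hp.pos hq.pos)
    have h3 : (D : ℝ) / ((p * q : ℕ) : ℝ) = D * ((1 : ℝ) / p * ((1 : ℝ) / q)) := by
      push_cast
      field_simp
    linarith

end TK

open TK

theorem tk_sq (P : Finset ℕ) (Q0 A D : ℕ) (hP : ∀ p ∈ P, p.Prime) (hQ : ∀ p ∈ P, p ≤ Q0) :
    ∑ n ∈ Finset.Ioc A (A + D), ((P.filter (· ∣ n)).card : ℝ) ^ 2 ≤
      D * ((∑ p ∈ P, (1 : ℝ) / p) ^ 2 + ∑ p ∈ P, (1 : ℝ) / p) + (Q0 : ℝ) ^ 2 := by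
  have h1 : ∑ n ∈ Finset.Ioc A (A + D), ((P.filter (· ∣ n)).card : ℝ) ^ 2 =
      ∑ p ∈ P, ∑ q ∈ P, ∑ n ∈ Finset.Ioc A (A + D),
        ((if p ∣ n then (1 : ℝ) else 0) * (if q ∣ n then (1 : ℝ) else 0)) := by
    have e : ∀ n ∈ Finset.Ioc A (A + D), ((P.filter (· ∣ n)).card : ℝ) ^ 2 =
        ∑ p ∈ P, ∑ q ∈ P, ((if p ∣ n then (1 : ℝ) else 0) * (if q ∣ n then (1 : ℝ) else 0)) := by
      intro n _
      rw [om_eq, sq, Finset.sum_mul_sum]
    rw [Finset.sum_congr rfl e, Finset.sum_comm]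
    refine Finset.sum_congr rfl fun p _ => ?_
    rw [Finset.sum_comm]
  rw [h1]
  have h2 : ∑ p ∈ P, ∑ q ∈ P, ∑ n ∈ Finset.Ioc A (A + D),
        ((if p ∣ n then (1 : ℝ) else 0) * (if q ∣ n then (1 : ℝ) else 0)) ≤
      ∑ p ∈ P, ∑ q ∈ P, (D * ((1 : ℝ) / p * ((1 : ℝ) / q)) +
        (if p = q then D * ((1 : ℝ) / p) else 0) + 1) :=
    Finset.sum_le_sum fun p hp => Finset.sum_le_sum fun q hq =>
      pair_le A D p q (hP p hp) (hP q hq)
  refine h2.trans ?_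
  have h3 : ∑ p ∈ P, ∑ q ∈ P, (D * ((1 : ℝ) / p * ((1 : ℝ) / q)) +
        (if p = q then D * ((1 : ℝ) / p) else 0) + 1) =
      D * ((∑ p ∈ P, (1 : ℝ) / p) ^ 2 + ∑ p ∈ P, (1 : ℝ) / p) + (P.card : ℝ) ^ 2 := by
    simp only [Finset.sum_add_distrib, Finset.sum_ite_eq, Finset.sum_const, nsmul_eq_mul, mul_one]
    rw [sq, Finset.sum_mul_sum, mul_add, Finset.mul_sum, Finset.mul_sum]
    congr 1
    · congr 1
      · refine Finset.sum_congr rfl fun p _ => ?_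
        rw [Finset.mul_sum]
      · refine Finset.sum_congr rfl fun p hp => ?_
        rw [if_pos hp]
    · ring
  rw [h3]
  have h4 : (P.card : ℝ) ≤ Q0 := by exact_mod_cast card_P P Q0 hP hQ
  have h5 : (P.card : ℝ) ^ 2 ≤ (Q0 : ℝ) ^ 2 := by
    have : (0 : ℝ) ≤ P.card := Nat.cast_nonneg _
    gcongr
  linarith

theorem tk_var (P : Finset ℕ) (Q0 A D : ℕ) (hP : ∀ p ∈ P, p.Prime) (hQ : ∀ p ∈ P, p ≤ Q0) :
    ∑ n ∈ Finset.Ioc A (A + D), ((P.filter (· ∣ n)).card - ∑ p ∈ P, (1 : ℝ) / p) ^ 2 ≤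
      D * (∑ p ∈ P, (1 : ℝ) / p) + 2 * (Q0 : ℝ) ^ 2 := by
  have hsq := tk_sq P Q0 A D hP hQ
  set L : ℝ := ∑ p ∈ P, (1 : ℝ) / p with hL
  have hL0 : 0 ≤ L := Finset.sum_nonneg fun p _ => by positivity
  have hsum : D * L - P.card ≤ ∑ n ∈ Finset.Ioc A (A + D), ((P.filter (· ∣ n)).card : ℝ) := by
    have e : ∑ n ∈ Finset.Ioc A (A + D), ((P.filter (· ∣ n)).card : ℝ) =
        ∑ p ∈ P, (((Finset.Ioc A (A + D)).filter (p ∣ ·)).card : ℝ) := by
      simp only [om_eq]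
      rw [Finset.sum_comm]
      refine Finset.sum_congr rfl fun p _ => ?_
      rw [Finset.card_filter]
      push_cast
      rfl
    rw [e]
    have h1 : ∑ p ∈ P, ((D : ℝ) / p - 1) ≤
        ∑ p ∈ P, (((Finset.Ioc A (A + D)).filter (p ∣ ·)).card : ℝ) :=
      Finset.sum_le_sum fun p hp => le_card A D p (hP p hp).pos
    refine le_trans (le_of_eq ?_) h1
    rw [Finset.sum_sub_distrib, hL, Finset.mul_sum]
    simp only [Finset.sum_const, nsmul_eq_mul, mul_one]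
    congr 1
    refine Finset.sum_congr rfl fun p _ => ?_
    ring
  have hLP : L ≤ P.card / 2 := by
    have h1 : L ≤ ∑ p ∈ P, (1 / 2 : ℝ) := by
      refine Finset.sum_le_sum fun p hp => ?_
      have h2 : (2 : ℝ) ≤ p := by exact_mod_cast (hP p hp).two_le
      gcongr
    rw [Finset.sum_const, nsmul_eq_mul] at h1
    linarith
  have hPQ : (P.card : ℝ) ≤ Q0 := by exact_mod_cast card_P P Q0 hP hQ
  have hP0 : (0 : ℝ) ≤ P.card := Nat.cast_nonneg _
  have hexp : ∑ n ∈ Finset.Ioc A (A + D), (((P.filter (· ∣ n)).card : ℝ) - L) ^ 2 =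
      ∑ n ∈ Finset.Ioc A (A + D), ((P.filter (· ∣ n)).card : ℝ) ^ 2 -
        2 * L * ∑ n ∈ Finset.Ioc A (A + D), ((P.filter (· ∣ n)).card : ℝ) + D * L ^ 2 := by
    have e : ∀ n ∈ Finset.Ioc A (A + D), (((P.filter (· ∣ n)).card : ℝ) - L) ^ 2 =
        ((P.filter (· ∣ n)).card : ℝ) ^ 2 - 2 * L * ((P.filter (· ∣ n)).card : ℝ) + L ^ 2 :=
      fun n _ => by ring
    rw [Finset.sum_congr rfl e, Finset.sum_add_distrib, Finset.sum_sub_distrib, ← Finset.mul_sum]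
    simp
  rw [hexp]
  have h6 : 2 * L * (D * L - P.card) ≤
      2 * L * ∑ n ∈ Finset.Ioc A (A + D), ((P.filter (· ∣ n)).card : ℝ) :=
    mul_le_mul_of_nonneg_left hsum (by linarith)
  have h7 : 2 * L * (P.card : ℝ) ≤ (Q0 : ℝ) ^ 2 := by
    have : 2 * L * (P.card : ℝ) ≤ (P.card : ℝ) * P.card := by
      apply mul_le_mul_of_nonneg_right _ hP0
      linarith
    nlinarith
  nlinarith

end Pool.MRZ
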