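import Mathlib
import Pool.Agent.MRZ.MVT
import Pool.Agent.MRZ.TK

/-!
# MRZ/ErrE: `R f X t` is `(1/L) ∑_v Q_v(t) R_v(t)` up to a small mean square error

Let `f` be completely multiplicative, `X ∈ ℕ`, `1 ≤ T ≤ X`, `L = LL V v0 v1 ≥ 1`, `V e^{2 v1/V} ≤ X`.
Then `∑_{|t|<T} |R f X t - MM f X V v0 v1 t|² ≤ C (1/L + 1/V)`.

Proof. Let `P = ⋃_{v ∈ [v0,v1)} PV V v` (disjoint union), all `p ∈ P` satisfy
`e^{v0/V} < p ≤ e^{v1/V}`. For `p ∈ PV V v`, `m ∈ (X e^{-v/V}, 2X e^{-v/V}]` one has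
`f(p) f(m) p^{-1-it} m^{-1-it} = f(pm) (pm)^{-1-it}` and `n = p m ∈ (X, 2X e^{1/V}] ⊆ (X, 6X]`. So
`R f X t - MM t = ∑_{n ∈ (X,6X]} g(n) n^{-it}`, `g(n) = (f(n)/n) (1_{n ≤ 2X} - ω'(n)/L)`,
`ω'(n) = #{(v,p) : p ∈ PV V v, p ∣ n, n/p ∈ (X e^{-v/V}, 2X e^{-v/V}]}`, `0 ≤ ω'(n) ≤ ω(n) = #{p∈P: p∣n}`.
If `X e^{1/V} < n ≤ 2X` then `ω'(n) = ω(n)` (for `p ∣ n`, `p ∈ PV V v`: `n/p ≥ n e^{-(v+1)/V} > X e^{-v/V}`
and `n/p < n e^{-v/V} ≤ 2X e^{-v/V}`). For `n ∈ B = (X, X e^{1/V}] ∪ (2X, 2X e^{1/V}]`: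
`|g(n)| ≤ (1 + ω(n)/L)/n`; for the other `n > 2X e^{1/V}`, `g(n) = 0`.
With `TK` (`Q0 = ⌊e^{v1/V}⌋`, `Q0² ≤ X/V`, `e^{1/V} - 1 ≤ 2/V`, so `B` is covered by two intervals of at
most `4X/V + 1 ≤ 5X/V` integers, note `V ≤ X`):
`∑ |g(n)|² ≤ X^{-2} [ (X L + 2 Q0²)/L² + ∑_{n∈B} 2 (1 + ω²/L²) ] ≤ (C/X)(1/L + 1/V)`.
Now `mvt'` with `N = X`, `Λ = 6`, `T ≤ X`.
-/

namespace Pool.MRZ

open Finset

/-- all the primes of the blocks -/
noncomputable def errP (V v0 v1 : ℕ) : Finset ℕ := (Finset.Ico v0 v1).biUnion (PV V)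

/-- the condition on `n` and the prime `p` -/
def errK (X : ℝ) (V v p n : ℕ) : Prop :=
  p ∣ n ∧ n / p ∈ Finset.Ioc ⌊X * Real.exp (-((v : ℝ) / V))⌋₊ ⌊2 * (X * Real.exp (-((v : ℝ) / V)))⌋₊

/-- the weight -/
noncomputable def errW (X : ℝ) (V v0 v1 n : ℕ) : ℝ :=
  haveI := Classical.propDecidable
  ∑ v ∈ Finset.Ico v0 v1, ∑ p ∈ PV V v, if errK X V v p n then (1 : ℝ) else 0

theorem err_disj (V v0 v1 : ℕ) :
    ((Finset.Ico v0 v1 : Finset ℕ) : Set ℕ).PairwiseDisjoint (PV V) := by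
  have key : ∀ v v' : ℕ, v < v' → ∀ p, p ∈ PV V v → p ∉ PV V v' := by
    intro v v' h p hp hp'
    rw [mem_PV] at hp hp'
    have h1 : ((v : ℝ) + 1) / V ≤ (v' : ℝ) / V := by
      apply div_le_div_of_nonneg_right _ (Nat.cast_nonneg V)
      exact_mod_cast h
    have h2 := Real.exp_le_exp.2 h1
    linarith [hp.2.2, hp'.2.1]
  intro v _ v' _ hne
  rw [Function.onFun, Finset.disjoint_left]
  intro p hp hp'
  rcases lt_or_gt_of_ne hne with h | h
  · exact key v v' h p hp hp'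
  · exact key v' v h p hp' hp

theorem err_LL (V v0 v1 : ℕ) : LL V v0 v1 = ∑ p ∈ errP V v0 v1, (1 : ℝ) / p := by
  rw [errP, Finset.sum_biUnion (err_disj V v0 v1)]
  rfl

theorem err_sum_sub (X : ℝ) (V v p : ℕ) (S : Finset ℕ) (hp : 0 < p)
    (hS : ∀ m ∈ Finset.Ioc ⌊X * Real.exp (-((v : ℝ) / V))⌋₊
      ⌊2 * (X * Real.exp (-((v : ℝ) / V)))⌋₊, p * m ∈ S) (F : ℕ → ℂ) :
    ∑ m ∈ Finset.Ioc ⌊X * Real.exp (-((v : ℝ) / V))⌋₊ ⌊2 * (X * Real.exp (-((v : ℝ) / V)))⌋₊,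
      F (p * m) = haveI := Classical.propDecidable
        ∑ n ∈ S, if errK X V v p n then F n else 0 := by
  classical
  set I := Finset.Ioc ⌊X * Real.exp (-((v : ℝ) / V))⌋₊ ⌊2 * (X * Real.exp (-((v : ℝ) / V)))⌋₊ with hI
  rw [← Finset.sum_filter]
  have h1 : S.filter (fun n => errK X V v p n) = I.image (fun m => p * m) := by
    ext n
    rw [Finset.mem_filter, Finset.mem_image]
    constructor
    · rintro ⟨_, hd, hm⟩
      exact ⟨n / p, hm, Nat.mul_div_cancel' hd⟩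
    · rintro ⟨m, hm, rfl⟩
      refine ⟨hS m hm, Dvd.intro _ rfl, ?_⟩
      rw [Nat.mul_div_cancel_left _ hp]
      exact hm
  have h2 : (∑ n ∈ S.filter (fun n => errK X V v p n), F n) = ∑ m ∈ I, F (p * m) := by
    rw [h1, Finset.sum_image]
    intro a _ b _ hab
    exact Nat.eq_of_mul_eq_mul_left hp hab
  rw [← h2]

/-- the main identity -/
theorem err_prod (f : ℕ → ℂ) (hf : CM f) (X V v0 v1 : ℕ) (hV : 1 ≤ V) (t : ℝ) :
    ∑ v ∈ Finset.Ico v0 v1, Q f V v t * R f ((X : ℝ) * Real.exp (-((v : ℝ) / V))) t =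
      ∑ n ∈ Finset.Ioc X (6 * X), ((errW X V v0 v1 n : ℝ) : ℂ) * (f n * tw (-t) n / (n : ℂ)) := by
  classical
  have hR : ∑ n ∈ Finset.Ioc X (6 * X), ((errW X V v0 v1 n : ℝ) : ℂ) *
      (f n * tw (-t) n / (n : ℂ)) = ∑ v ∈ Finset.Ico v0 v1, ∑ p ∈ PV V v,
        ∑ n ∈ Finset.Ioc X (6 * X), if errK X V v p n then (f n * tw (-t) n / (n : ℂ)) else 0 := by
    have h1 : ∀ n, ((errW X V v0 v1 n : ℝ) : ℂ) * (f n * tw (-t) n / (n : ℂ)) =
        ∑ v ∈ Finset.Ico v0 v1, ∑ p ∈ PV V v,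
          if errK X V v p n then (f n * tw (-t) n / (n : ℂ)) else 0 := by
      intro n
      rw [errW]
      push_cast
      rw [Finset.sum_mul]
      apply Finset.sum_congr rfl
      intro v _
      rw [Finset.sum_mul]
      apply Finset.sum_congr rfl
      intro p _
      split_ifs
      · simp
      · simp
    rw [Finset.sum_congr rfl fun n _ => h1 n, Finset.sum_comm]
    apply Finset.sum_congr rfl
    intro v _
    rw [Finset.sum_comm]
  rw [hR]
  apply Finset.sum_congr rfl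
  intro v _
  rw [Q, Finset.sum_mul]
  apply Finset.sum_congr rfl
  intro p hp
  rw [mem_PV] at hp
  have hVr : (0 : ℝ) < V := by exact_mod_cast hV
  have hp0 : 0 < p := hp.1.pos
  have hX0 : (0 : ℝ) ≤ X := Nat.cast_nonneg X
  rw [← err_sum_sub (X : ℝ) V v p (Finset.Ioc X (6 * X)) hp0]
  · rw [R, Finset.mul_sum]
    apply Finset.sum_congr rfl
    intro m hm
    rw [Finset.mem_Ioc] at hm
    have hm0 : m ≠ 0 := by omega
    rw [hf.mul, tw_mul _ hp0.ne' hm0]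
    have h1 : (p : ℂ) ≠ 0 := by exact_mod_cast hp0.ne'
    have h2 : (m : ℂ) ≠ 0 := by exact_mod_cast hm0
    push_cast
    field_simp
  · intro m hm
    rw [Finset.mem_Ioc] at hm ⊢
    have hy0 : (0 : ℝ) ≤ (X : ℝ) * Real.exp (-((v : ℝ) / V)) := by positivity
    have h1 : (X : ℝ) * Real.exp (-((v : ℝ) / V)) < m := (Nat.floor_lt hy0).1 hm.1
    have h2 : (m : ℝ) ≤ 2 * ((X : ℝ) * Real.exp (-((v : ℝ) / V))) :=
      (Nat.le_floor_iff (by positivity)).1 hm.2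
    have hm0 : (0 : ℝ) < m := lt_of_le_of_lt hy0 h1
    constructor
    · have h3 : (X : ℝ) < p * m := by
        have h4 : (X : ℝ) = Real.exp ((v : ℝ) / V) * ((X : ℝ) * Real.exp (-((v : ℝ) / V))) := by
          rw [mul_comm (X : ℝ), ← mul_assoc, ← Real.exp_add, add_neg_cancel, Real.exp_zero, one_mul]
        calc (X : ℝ) = Real.exp ((v : ℝ) / V) * ((X : ℝ) * Real.exp (-((v : ℝ) / V))) := h4
          _ ≤ p * ((X : ℝ) * Real.exp (-((v : ℝ) / V))) :=
            mul_le_mul_of_nonneg_right hp.2.1.le hy0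
          _ < p * m := mul_lt_mul_of_pos_left h1 (by exact_mod_cast hp0)
      exact_mod_cast h3
    · have h3 : (p : ℝ) * m ≤ 6 * X := by
        calc (p : ℝ) * m ≤ Real.exp (((v : ℝ) + 1) / V) * (2 * ((X : ℝ) * Real.exp (-((v : ℝ) / V)))) :=
            mul_le_mul hp.2.2 h2 hm0.le (Real.exp_pos _).le
          _ = 2 * X * Real.exp (1 / V) := by
            have h5 : ((v : ℝ) + 1) / V = 1 / V + (v : ℝ) / V := by ring
            rw [h5, Real.exp_add]
            have h6 : Real.exp ((v : ℝ) / V) * Real.exp (-((v : ℝ) / V)) = 1 := by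
              rw [← Real.exp_add, add_neg_cancel, Real.exp_zero]
            linear_combination (2 * (X : ℝ) * Real.exp (1 / V)) * h6
          _ ≤ 2 * X * Real.exp 1 := by
            apply mul_le_mul_of_nonneg_left _ (by positivity)
            apply Real.exp_le_exp.2
            rw [div_le_one hVr]
            exact_mod_cast hV
          _ ≤ 6 * X := by
            have h7 := Real.exp_one_lt_d9
            nlinarith
      exact_mod_cast h3

theorem err_om (V v0 v1 n : ℕ) : (((errP V v0 v1).filter (· ∣ n)).card : ℝ) =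
    ∑ v ∈ Finset.Ico v0 v1, ∑ p ∈ PV V v, if p ∣ n then (1 : ℝ) else 0 := by
  rw [← Finset.sum_boole, errP, Finset.sum_biUnion (err_disj V v0 v1)]

theorem err_w_nonneg (X : ℝ) (V v0 v1 n : ℕ) : 0 ≤ errW X V v0 v1 n := by
  classical
  unfold errW
  apply Finset.sum_nonneg
  intro v _
  apply Finset.sum_nonneg
  intro p _
  split_ifs
  · exact zero_le_one
  · exact le_rfl

theorem err_w_le (X : ℝ) (V v0 v1 n : ℕ) :
    errW X V v0 v1 n ≤ (((errP V v0 v1).filter (· ∣ n)).card : ℝ) := by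
  classical
  rw [err_om]
  unfold errW
  apply Finset.sum_le_sum
  intro v _
  apply Finset.sum_le_sum
  intro p _
  by_cases h : errK X V v p n
  · rw [if_pos h, if_pos h.1]
  · rw [if_neg h]
    split_ifs
    · exact zero_le_one
    · exact le_rfl

theorem err_w_eq (X : ℝ) (V v0 v1 n : ℕ) (hX : 0 ≤ X) (hV : 1 ≤ V)
    (h1 : X * Real.exp (1 / V) < n) (h2 : (n : ℝ) ≤ 2 * X) :
    errW X V v0 v1 n = (((errP V v0 v1).filter (· ∣ n)).card : ℝ) := by
  classical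
  rw [err_om]
  unfold errW
  apply Finset.sum_congr rfl
  intro v _
  apply Finset.sum_congr rfl
  intro p hp
  rw [mem_PV] at hp
  have hp0 : (0 : ℝ) < p := by exact_mod_cast hp.1.pos
  have hVr : (0 : ℝ) < V := by exact_mod_cast hV
  by_cases h : p ∣ n
  · have hK : errK X V v p n := by
      refine ⟨h, ?_⟩
      have hy0 : (0 : ℝ) ≤ X * Real.exp (-((v : ℝ) / V)) := by positivity
      have hc : ((n / p : ℕ) : ℝ) * p = n := by exact_mod_cast Nat.div_mul_cancel h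
      set m : ℝ := ((n / p : ℕ) : ℝ) with hm
      have he : Real.exp ((v : ℝ) / V) * Real.exp (-((v : ℝ) / V)) = 1 := by
        rw [← Real.exp_add, add_neg_cancel, Real.exp_zero]
      have he2 : Real.exp (((v : ℝ) + 1) / V) = Real.exp (1 / V) * Real.exp ((v : ℝ) / V) := by
        rw [← Real.exp_add]
        congr 1
        ring
      have hm0 : 0 ≤ m := Nat.cast_nonneg _
      rw [Finset.mem_Ioc]
      constructor
      · rw [Nat.floor_lt hy0, ← hm]
        by_contra hcon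
        push Not at hcon
        have h3 : (n : ℝ) ≤ X * Real.exp (-((v : ℝ) / V)) * Real.exp (((v : ℝ) + 1) / V) := by
          rw [← hc]
          exact mul_le_mul hcon hp.2.2 hp0.le hy0
        rw [he2] at h3
        have h4 : X * Real.exp (-((v : ℝ) / V)) * (Real.exp (1 / V) * Real.exp ((v : ℝ) / V)) =
            X * Real.exp (1 / V) := by
          linear_combination (X * Real.exp (1 / V)) * he
        linarith
      · rw [Nat.le_floor_iff (by positivity), ← hm]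
        by_contra hcon
        push Not at hcon
        have h3 : 2 * (X * Real.exp (-((v : ℝ) / V))) * Real.exp ((v : ℝ) / V) < n := by
          rw [← hc]
          have h5 : 2 * (X * Real.exp (-((v : ℝ) / V))) * Real.exp ((v : ℝ) / V) ≤
              2 * (X * Real.exp (-((v : ℝ) / V))) * p :=
            mul_le_mul_of_nonneg_left hp.2.1.le (by positivity)
          have h6 : 2 * (X * Real.exp (-((v : ℝ) / V))) * p < m * p :=
            mul_lt_mul_of_pos_right hcon hp0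
          linarith
        have h4 : 2 * (X * Real.exp (-((v : ℝ) / V))) * Real.exp ((v : ℝ) / V) = 2 * X := by
          linear_combination (2 * X) * he
        linarith
    rw [if_pos hK, if_pos h]
  · have hK : ¬ errK X V v p n := fun hk => h hk.1
    rw [if_neg hK, if_neg h]

theorem err_w_zero (X : ℝ) (V v0 v1 n : ℕ) (hX : 0 ≤ X)
    (h1 : 2 * X * Real.exp (1 / V) < n) : errW X V v0 v1 n = 0 := by
  classical
  unfold errW
  apply Finset.sum_eq_zero
  intro v _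
  apply Finset.sum_eq_zero
  intro p hp
  rw [mem_PV] at hp
  apply if_neg
  rintro ⟨hd, hm⟩
  rw [Finset.mem_Ioc] at hm
  have hp0 : (0 : ℝ) < p := by exact_mod_cast hp.1.pos
  have h2 : ((n / p : ℕ) : ℝ) ≤ 2 * (X * Real.exp (-((v : ℝ) / V))) :=
    (Nat.le_floor_iff (by positivity)).1 hm.2
  have hc : ((n / p : ℕ) : ℝ) * p = n := by exact_mod_cast Nat.div_mul_cancel hd
  have he : Real.exp ((v : ℝ) / V) * Real.exp (-((v : ℝ) / V)) = 1 := by
    rw [← Real.exp_add, add_neg_cancel, Real.exp_zero]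
  have he2 : Real.exp (((v : ℝ) + 1) / V) = Real.exp (1 / V) * Real.exp ((v : ℝ) / V) := by
    rw [← Real.exp_add]
    congr 1
    ring
  have h3 : (n : ℝ) ≤ 2 * (X * Real.exp (-((v : ℝ) / V))) * Real.exp (((v : ℝ) + 1) / V) := by
    rw [← hc]
    exact mul_le_mul h2 hp.2.2 hp0.le (by positivity)
  rw [he2] at h3
  have h4 : 2 * (X * Real.exp (-((v : ℝ) / V))) * (Real.exp (1 / V) * Real.exp ((v : ℝ) / V)) =
      2 * X * Real.exp (1 / V) := by
    linear_combination (2 * X * Real.exp (1 / V)) * he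
  linarith

theorem err_exp (V : ℕ) (hV : 1 ≤ V) : Real.exp (1 / (V : ℝ)) ≤ 1 + 2 / V := by
  have hVr : (1 : ℝ) ≤ V := by exact_mod_cast hV
  have h0 : (0 : ℝ) ≤ 1 / (V : ℝ) := by positivity
  have h1 : 1 / (V : ℝ) ≤ 1 := by
    rw [div_le_one (by linarith)]
    exact hVr
  have h2 := Real.abs_exp_sub_one_sub_id_le (x := 1 / (V : ℝ)) (by rw [abs_of_nonneg h0]; exact h1)
  have h3 := (abs_le.1 h2).2
  have h4 : (1 / (V : ℝ)) ^ 2 ≤ 1 / V := by
    rw [sq]
    calc 1 / (V : ℝ) * (1 / V) ≤ 1 / (V : ℝ) * 1 := mul_le_mul_of_nonneg_left h1 h0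
      _ = 1 / V := mul_one _
  have h5 : (2 : ℝ) / V = 1 / V + 1 / V := by ring
  linarith

/-- the sum over a short interval -/
theorem err_short (V v0 v1 A D : ℕ) (K : ℝ) (hL : 1 ≤ LL V v0 v1)
    (hQ : (⌊Real.exp ((v1 : ℝ) / V)⌋₊ : ℝ) ^ 2 ≤ K)
    (hP : ∀ p ∈ errP V v0 v1, p ≤ ⌊Real.exp ((v1 : ℝ) / V)⌋₊) :
    ∑ n ∈ Finset.Ioc A (A + D), (1 + (((errP V v0 v1).filter (· ∣ n)).card : ℝ) ^ 2 /
      LL V v0 v1 ^ 2) ≤ 3 * D + K := by
  have hpr : ∀ p ∈ errP V v0 v1, p.Prime := by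
    intro p hp
    rw [errP, Finset.mem_biUnion] at hp
    obtain ⟨v, _, hv⟩ := hp
    exact (mem_PV.1 hv).1
  have h1 := tk_sq (errP V v0 v1) ⌊Real.exp ((v1 : ℝ) / V)⌋₊ A D hpr hP
  rw [← err_LL] at h1
  set L := LL V v0 v1 with hLdef
  rw [Finset.sum_add_distrib, ← Finset.sum_div, Finset.sum_const, Nat.card_Ioc,
    Nat.add_sub_cancel_left, nsmul_eq_mul, mul_one]
  have hL2 : (1 : ℝ) ≤ L ^ 2 := by nlinarith
  have hD : (0 : ℝ) ≤ D := Nat.cast_nonneg D
  have hK : 0 ≤ K := le_trans (sq_nonneg _) hQ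
  have h2 : (∑ n ∈ Finset.Ioc A (A + D), (((errP V v0 v1).filter (· ∣ n)).card : ℝ) ^ 2) / L ^ 2 ≤
      2 * D + K := by
    rw [div_le_iff₀ (by linarith)]
    have h3 : (D : ℝ) * (L ^ 2 + L) ≤ 2 * D * L ^ 2 := by
      have : L ≤ L ^ 2 := by nlinarith
      nlinarith
    have h4 : K ≤ K * L ^ 2 := by nlinarith
    nlinarith
  linarith

theorem err_ite_le (S A : Finset ℕ) (g : ℕ → ℝ) (hg : ∀ n, 0 ≤ g n) :
    (∑ n ∈ S, if n ∈ A then g n else 0) ≤ ∑ n ∈ A, g n := by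
  rw [Finset.sum_ite_mem]
  exact Finset.sum_le_sum_of_subset_of_nonneg Finset.inter_subset_right fun n _ _ => hg n

theorem err_sum (X V v0 v1 : ℕ) (hV : 1 ≤ V) (hL : 1 ≤ LL V v0 v1)
    (hX : (V : ℝ) * Real.exp (2 * ((v1 : ℝ) / V)) ≤ X) :
    ∑ n ∈ Finset.Ioc X (6 * X),
      ((if n ≤ 2 * X then (1 : ℝ) else 0) - errW X V v0 v1 n / LL V v0 v1) ^ 2 ≤
        22 * X * (1 / LL V v0 v1 + 1 / V) := by
  have hVr : (0 : ℝ) < V := by exact_mod_cast hV
  have hX0 : (0 : ℝ) ≤ X := Nat.cast_nonneg X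
  have hexp := err_exp V hV
  have hPle : ∀ p ∈ errP V v0 v1, p ≤ ⌊Real.exp ((v1 : ℝ) / V)⌋₊ := by
    intro p hp
    rw [errP, Finset.mem_biUnion] at hp
    obtain ⟨v, hv, hpv⟩ := hp
    rw [Finset.mem_Ico] at hv
    have h1 := (mem_PV.1 hpv).2.2
    rw [Nat.le_floor_iff (Real.exp_pos _).le]
    refine le_trans h1 (Real.exp_le_exp.2 ?_)
    apply div_le_div_of_nonneg_right _ hVr.le
    exact_mod_cast hv.2
  have hpr : ∀ p ∈ errP V v0 v1, p.Prime := by
    intro p hp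
    rw [errP, Finset.mem_biUnion] at hp
    obtain ⟨v, _, hv⟩ := hp
    exact (mem_PV.1 hv).1
  have hQ : (⌊Real.exp ((v1 : ℝ) / V)⌋₊ : ℝ) ^ 2 ≤ (X : ℝ) / V := by
    have h1 := Nat.floor_le (Real.exp_pos ((v1 : ℝ) / V)).le
    have h2 : (⌊Real.exp ((v1 : ℝ) / V)⌋₊ : ℝ) ^ 2 ≤ Real.exp ((v1 : ℝ) / V) ^ 2 :=
      pow_le_pow_left₀ (Nat.cast_nonneg _) h1 2
    rw [← Real.exp_nat_mul] at h2
    rw [le_div_iff₀ hVr]
    have h3 : Real.exp (((2 : ℕ) : ℝ) * ((v1 : ℝ) / V)) = Real.exp (2 * ((v1 : ℝ) / V)) := by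
      norm_num
    rw [h3] at h2
    calc (⌊Real.exp ((v1 : ℝ) / V)⌋₊ : ℝ) ^ 2 * V ≤ Real.exp (2 * ((v1 : ℝ) / V)) * V :=
          mul_le_mul_of_nonneg_right h2 hVr.le
      _ ≤ X := by rw [mul_comm]; exact hX
  set L := LL V v0 v1 with hLdef
  set D1 : ℕ := ⌊(2 : ℝ) * X / V⌋₊ with hD1
  set D2 : ℕ := ⌊(4 : ℝ) * X / V⌋₊ with hD2
  have hD1' : (D1 : ℝ) ≤ 2 * X / V := Nat.floor_le (by positivity)
  have hD2' : (D2 : ℝ) ≤ 4 * X / V := Nat.floor_le (by positivity)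
  let om : ℕ → ℝ := fun n => (((errP V v0 v1).filter (· ∣ n)).card : ℝ)
  have hom : ∀ n, 0 ≤ om n := fun n => Nat.cast_nonneg _
  let g1 : ℕ → ℝ := fun n => (om n - L) ^ 2 / L ^ 2
  let g2 : ℕ → ℝ := fun n => 1 + om n ^ 2 / L ^ 2
  have hg1 : ∀ n, 0 ≤ g1 n := fun n => by positivity
  have hg2 : ∀ n, 0 ≤ g2 n := fun n => by positivity
  have hL0 : 0 < L := by linarith
  have hterm : ∀ n ∈ Finset.Ioc X (6 * X),
      ((if n ≤ 2 * X then (1 : ℝ) else 0) - errW X V v0 v1 n / L) ^ 2 ≤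
        (if n ∈ Finset.Ioc X (X + X) then g1 n else 0) +
        (if n ∈ Finset.Ioc X (X + D1) then g2 n else 0) +
        (if n ∈ Finset.Ioc (2 * X) (2 * X + D2) then g2 n else 0) := by
    intro n hn
    rw [Finset.mem_Ioc] at hn
    have hi1 : 0 ≤ (if n ∈ Finset.Ioc X (X + X) then g1 n else 0) := by
      split_ifs
      · exact hg1 n
      · exact le_rfl
    have hi2 : 0 ≤ (if n ∈ Finset.Ioc X (X + D1) then g2 n else 0) := by
      split_ifs
      · exact hg2 n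
      · exact le_rfl
    have hi3 : 0 ≤ (if n ∈ Finset.Ioc (2 * X) (2 * X + D2) then g2 n else 0) := by
      split_ifs
      · exact hg2 n
      · exact le_rfl
    have hw0 := err_w_nonneg (X : ℝ) V v0 v1 n
    have hw1 := err_w_le (X : ℝ) V v0 v1 n
    have hx0 : 0 ≤ errW X V v0 v1 n / L := div_nonneg hw0 hL0.le
    have hx1 : errW X V v0 v1 n / L ≤ om n / L := div_le_div_of_nonneg_right hw1 hL0.le
    have hx2 : (errW X V v0 v1 n / L) ^ 2 ≤ om n ^ 2 / L ^ 2 := by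
      rw [← div_pow]
      exact pow_le_pow_left₀ hx0 hx1 2
    by_cases h2X : n ≤ 2 * X
    · rw [if_pos h2X]
      by_cases hb : (X : ℝ) * Real.exp (1 / V) < n
      · have h3 := err_w_eq (X : ℝ) V v0 v1 n hX0 hV hb (by exact_mod_cast h2X)
        have h4 : n ∈ Finset.Ioc X (X + X) := by
          rw [Finset.mem_Ioc]
          exact ⟨hn.1, by omega⟩
        have h5 : (1 - errW X V v0 v1 n / L) ^ 2 = g1 n := by
          rw [h3]
          change _ = (om n - L) ^ 2 / L ^ 2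
          change (1 - om n / L) ^ 2 = _
          field_simp
          ring
        rw [h5, if_pos h4]
        linarith
      · push Not at hb
        have h4 : n ∈ Finset.Ioc X (X + D1) := by
          rw [Finset.mem_Ioc]
          refine ⟨hn.1, ?_⟩
          have h5 : (n : ℝ) - X ≤ 2 * X / V := by
            have h6 : (X : ℝ) * Real.exp (1 / V) ≤ X * (1 + 2 / V) :=
              mul_le_mul_of_nonneg_left hexp hX0
            have h7 : (X : ℝ) * (1 + 2 / V) = X + 2 * X / V := by ring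
            linarith
          have h6 : n - X ≤ D1 := by
            rw [hD1, Nat.le_floor_iff (by positivity)]
            rw [Nat.cast_sub hn.1.le]
            exact h5
          omega
        have h5 : (1 - errW X V v0 v1 n / L) ^ 2 ≤ g2 n := by
          change _ ≤ 1 + om n ^ 2 / L ^ 2
          nlinarith
        rw [if_pos h4]
        linarith
    · rw [if_neg h2X]
      push Not at h2X
      by_cases hb : 2 * (X : ℝ) * Real.exp (1 / V) < n
      · rw [err_w_zero (X : ℝ) V v0 v1 n hX0 hb]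
        have : ((0 : ℝ) - 0 / L) ^ 2 = 0 := by simp
        rw [this]
        linarith
      · push Not at hb
        have h4 : n ∈ Finset.Ioc (2 * X) (2 * X + D2) := by
          rw [Finset.mem_Ioc]
          refine ⟨h2X, ?_⟩
          have h5 : (n : ℝ) - (2 * X : ℕ) ≤ 4 * X / V := by
            have h6 : 2 * (X : ℝ) * Real.exp (1 / V) ≤ 2 * X * (1 + 2 / V) :=
              mul_le_mul_of_nonneg_left hexp (by positivity)
            have h7 : 2 * (X : ℝ) * (1 + 2 / V) = 2 * X + 4 * X / V := by ring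
            push_cast
            linarith
          have h6 : n - 2 * X ≤ D2 := by
            rw [hD2, Nat.le_floor_iff (by positivity)]
            rw [Nat.cast_sub h2X.le]
            exact h5
          omega
        have h5 : ((0 : ℝ) - errW X V v0 v1 n / L) ^ 2 ≤ g2 n := by
          change _ ≤ 1 + om n ^ 2 / L ^ 2
          nlinarith
        rw [if_pos h4]
        linarith
  refine le_trans (Finset.sum_le_sum hterm) ?_
  rw [Finset.sum_add_distrib, Finset.sum_add_distrib]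
  have e1 := err_ite_le (Finset.Ioc X (6 * X)) (Finset.Ioc X (X + X)) g1 hg1
  have e2 := err_ite_le (Finset.Ioc X (6 * X)) (Finset.Ioc X (X + D1)) g2 hg2
  have e3 := err_ite_le (Finset.Ioc X (6 * X)) (Finset.Ioc (2 * X) (2 * X + D2)) g2 hg2
  have f2 : ∑ n ∈ Finset.Ioc X (X + D1), g2 n ≤ 3 * D1 + X / V :=
    err_short V v0 v1 X D1 (X / V) hL hQ hPle
  have f3 : ∑ n ∈ Finset.Ioc (2 * X) (2 * X + D2), g2 n ≤ 3 * D2 + X / V :=
    err_short V v0 v1 (2 * X) D2 (X / V) hL hQ hPle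
  have f1 : ∑ n ∈ Finset.Ioc X (X + X), g1 n ≤ X / L + 2 * (X / V) := by
    have h1 := tk_var (errP V v0 v1) ⌊Real.exp ((v1 : ℝ) / V)⌋₊ X X hpr hPle
    rw [← err_LL, ← hLdef] at h1
    have h2 : ∑ n ∈ Finset.Ioc X (X + X), g1 n = (∑ n ∈ Finset.Ioc X (X + X), (om n - L) ^ 2) / L ^ 2 := by
      rw [Finset.sum_div]
    rw [h2, div_le_iff₀ (by positivity)]
    have h3 : ∑ n ∈ Finset.Ioc X (X + X), (om n - L) ^ 2 ≤ X * L + 2 * (X / V) := by
      refine le_trans h1 ?_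
      linarith
    refine le_trans h3 ?_
    have h4 : (X / L + 2 * ((X : ℝ) / V)) * L ^ 2 = X * L + 2 * (X / V) * L ^ 2 := by
      field_simp
    rw [h4]
    have h5 : (1 : ℝ) ≤ L ^ 2 := by nlinarith
    have h6 : 0 ≤ 2 * ((X : ℝ) / V) := by positivity
    nlinarith
  have g : 22 * (X : ℝ) * (1 / L + 1 / V) = 22 * (X / L) + 22 * (X / V) := by ring
  have g' : (2 : ℝ) * X / V = 2 * (X / V) := by ring
  have g'' : (4 : ℝ) * X / V = 4 * (X / V) := by ring
  have hXL : 0 ≤ (X : ℝ) / L := by positivity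
  rw [g]
  rw [g'] at hD1'
  rw [g''] at hD2'
  linarith

theorem errE : ∃ C : ℝ, 0 < C ∧ ∀ (f : ℕ → ℂ) (X T V v0 v1 : ℕ), CM f → 1 ≤ V → v0 ≤ v1 →
    1 ≤ T → T ≤ X → 1 ≤ LL V v0 v1 → (V : ℝ) * Real.exp (2 * ((v1 : ℝ) / V)) ≤ X →
    ∑ t ∈ Finset.Ioo (-(T : ℤ)) T, ‖R f X t - MM f X V v0 v1 t‖ ^ 2 ≤
      C * (1 / LL V v0 v1 + 1 / V) := by
  obtain ⟨C1, hC1, hmvt⟩ := mvt'
  refine ⟨198 * C1, by positivity, ?_⟩
  intro f X T V v0 v1 hf hV _ hT hTX hL hX
  have hVr : (0 : ℝ) < V := by exact_mod_cast hV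
  have hX1 : 1 ≤ X := le_trans hT hTX
  have hX1r : (1 : ℝ) ≤ X := by exact_mod_cast hX1
  have hL0 : 0 < LL V v0 v1 := by linarith
  let u : ℕ → ℝ := fun n => (if n ≤ 2 * X then (1 : ℝ) else 0) - errW X V v0 v1 n / LL V v0 v1
  let a : ℕ → ℂ := fun n => ((u n : ℝ) : ℂ) * (f n / (n : ℂ))
  have hid : ∀ t : ℝ, R f X t - MM f X V v0 v1 t =
      ∑ n ∈ Finset.Ioc X (6 * X), a n * tw (-t) n := by
    intro t
    have h1 : R f X t = ∑ n ∈ Finset.Ioc X (6 * X),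
        (if n ≤ 2 * X then (1 : ℂ) else 0) * (f n * tw (-t) n / (n : ℂ)) := by
      rw [R, Nat.floor_natCast]
      have h2 : ⌊2 * (X : ℝ)⌋₊ = 2 * X := by
        have : 2 * (X : ℝ) = ((2 * X : ℕ) : ℝ) := by push_cast; ring
        rw [this, Nat.floor_natCast]
      rw [h2]
      have h3 : Finset.Ioc X (2 * X) = (Finset.Ioc X (6 * X)).filter (fun n => n ≤ 2 * X) := by
        ext n
        rw [Finset.mem_filter, Finset.mem_Ioc, Finset.mem_Ioc]
        omega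
      rw [h3, Finset.sum_filter]
      apply Finset.sum_congr rfl
      intro n _
      split_ifs
      · rw [one_mul]
      · rw [zero_mul]
    rw [h1, MM, err_prod f hf X V v0 v1 hV t, Finset.mul_sum, ← Finset.sum_sub_distrib]
    apply Finset.sum_congr rfl
    intro n _
    have h4 : ((u n : ℝ) : ℂ) = (if n ≤ 2 * X then (1 : ℂ) else 0) -
        ((errW X V v0 v1 n : ℝ) : ℂ) / ((LL V v0 v1 : ℝ) : ℂ) := by
      change (((if n ≤ 2 * X then (1 : ℝ) else 0) - errW X V v0 v1 n / LL V v0 v1 : ℝ) : ℂ) = _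
      push_cast
      split_ifs
      · simp
      · simp
    change _ = ((u n : ℝ) : ℂ) * (f n / (n : ℂ)) * tw (-t) n
    rw [h4]
    ring
  have h2 := hmvt T (X : ℝ) 6 (Finset.Ioc X (6 * X)) a hT (by linarith) (by norm_num) (by
    intro n hn
    rw [Finset.mem_Ioc] at hn
    exact ⟨by exact_mod_cast hn.1, by exact_mod_cast hn.2⟩)
  have h3 : ∑ t ∈ Finset.Ioo (-(T : ℤ)) T, ‖R f X t - MM f X V v0 v1 t‖ ^ 2 =
      ∑ t ∈ Finset.Ioo (-(T : ℤ)) T, ‖∑ n ∈ Finset.Ioc X (6 * X), a n * tw (-t) n‖ ^ 2 := by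
    apply Finset.sum_congr rfl
    intro t _
    rw [hid]
  rw [h3]
  refine le_trans h2 ?_
  have h4 : ∑ n ∈ Finset.Ioc X (6 * X), ‖a n‖ ^ 2 ≤ 22 / X * (1 / LL V v0 v1 + 1 / V) := by
    have h5 : ∀ n ∈ Finset.Ioc X (6 * X), ‖a n‖ ^ 2 ≤ (1 / (X : ℝ) ^ 2) * u n ^ 2 := by
      intro n hn
      rw [Finset.mem_Ioc] at hn
      have hn0 : (X : ℝ) ≤ n := by exact_mod_cast hn.1.le
      have h6 : ‖a n‖ ≤ |u n| * (1 / X) := by
        change ‖((u n : ℝ) : ℂ) * (f n / (n : ℂ))‖ ≤ _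
        rw [norm_mul, Complex.norm_real, norm_div, Complex.norm_natCast, Real.norm_eq_abs]
        apply mul_le_mul_of_nonneg_left _ (abs_nonneg _)
        apply div_le_div₀ zero_le_one (hf.bdd n) (by linarith) hn0
      calc ‖a n‖ ^ 2 ≤ (|u n| * (1 / X)) ^ 2 := pow_le_pow_left₀ (norm_nonneg _) h6 2
        _ = (1 / (X : ℝ) ^ 2) * u n ^ 2 := by
          rw [mul_pow, sq_abs]
          ring
    refine le_trans (Finset.sum_le_sum h5) ?_
    rw [← Finset.mul_sum]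
    have h7 := err_sum X V v0 v1 hV hL hX
    calc 1 / (X : ℝ) ^ 2 * ∑ n ∈ Finset.Ioc X (6 * X), u n ^ 2 ≤
        1 / (X : ℝ) ^ 2 * (22 * X * (1 / LL V v0 v1 + 1 / V)) :=
          mul_le_mul_of_nonneg_left h7 (by positivity)
      _ = 22 / X * (1 / LL V v0 v1 + 1 / V) := by
        field_simp
  have hlog : Real.log 6 ≤ 2 := by
    rw [Real.log_le_iff_le_exp (by norm_num)]
    have h8 := Real.exp_one_gt_d9
    have h9 : Real.exp 2 = Real.exp 1 * Real.exp 1 := by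
      rw [← Real.exp_add]
      norm_num
    rw [h9]
    nlinarith
  have hTr : (T : ℝ) ≤ X := by exact_mod_cast hTX
  have hT0 : (0 : ℝ) ≤ T := Nat.cast_nonneg T
  have h10 : (T : ℝ) * (1 + Real.log 6) + 6 * X ≤ 9 * X := by nlinarith
  have hE : 0 ≤ 1 / LL V v0 v1 + 1 / (V : ℝ) := by positivity
  have hS0 : 0 ≤ ∑ n ∈ Finset.Ioc X (6 * X), ‖a n‖ ^ 2 :=
    Finset.sum_nonneg fun n _ => sq_nonneg _
  calc C1 * (T * (1 + Real.log 6) + 6 * X) * ∑ n ∈ Finset.Ioc X (6 * X), ‖a n‖ ^ 2 ≤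
      C1 * (9 * X) * ∑ n ∈ Finset.Ioc X (6 * X), ‖a n‖ ^ 2 := by
        apply mul_le_mul_of_nonneg_right _ hS0
        exact mul_le_mul_of_nonneg_left h10 hC1.le
    _ ≤ C1 * (9 * X) * (22 / X * (1 / LL V v0 v1 + 1 / V)) :=
        mul_le_mul_of_nonneg_left h4 (by positivity)
    _ = 198 * C1 * (1 / LL V v0 v1 + 1 / V) := by
        have hX0 : (X : ℝ) ≠ 0 := by positivity
        field_simp
        ring

end Pool.MRZ
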