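import Mathlib
import Pool.Agent.MRZ.Defs
import Pool.Agent.EK.Mertens

/-!
# MRZ/PVb: Chebyshev bounds for `∑ 1/p`

* `PV_le`: `∑_{p ∈ PV V v} 1/p ≤ C V/v` for `V, v ≥ 1`: with `y = e^{v/V}`, all `p ∈ PV V v` lie in
  `(y, e y]`, so `∑ 1/p ≤ (1/(y log y)) ∑_{p ≤ ey} log p = θ(ey)/(y log y) ≤ C/log y`, `log y = v/V`
  (`Chebyshev.theta_le_log4_mul_x`).
* `LL_ge`: `LL V (V a) (V b) = ∑_{e^a < p ≤ e^b} 1/p ≥ c log (b/a) - C` for `1 ≤ a ≤ b`.
* `mertens_ge`: the same for natural `W ≥ 2`, `k ≥ 1`: `∑_{W < p ≤ W^k} 1/p ≥ c log k - C`.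

The last two follow (with `c = 1`) from the two-sided Mertens estimate
`PVb.mertens_nat : |∑_{p ≤ x} 1/p - log log x| ≤ C`, which is deduced from `EK.mertens_aux`.
-/

namespace Pool.MRZ

open Finset

theorem PV_le : ∃ C : ℝ, 0 < C ∧ ∀ V v : ℕ, 1 ≤ V → 1 ≤ v →
    ∑ p ∈ PV V v, (1 : ℝ) / p ≤ C * V / v := by
  refine ⟨Real.log 4 * Real.exp 1, by positivity, fun V v hV hv => ?_⟩
  have hV0 : (0 : ℝ) < V := by exact_mod_cast hV
  have hv0 : (0 : ℝ) < v := by exact_mod_cast hv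
  have hV1 : (1 : ℝ) ≤ V := by exact_mod_cast hV
  set y : ℝ := Real.exp ((v : ℝ) / V) with hy
  have hy0 : 0 < y := Real.exp_pos _
  have hsub : PV V v ⊆ (Finset.Ioc 0 ⌊Real.exp 1 * y⌋₊).filter Nat.Prime := by
    intro p hp
    rw [mem_PV] at hp
    rw [Finset.mem_filter, Finset.mem_Ioc]
    refine ⟨⟨hp.1.pos, ?_⟩, hp.1⟩
    rw [Nat.le_floor_iff (by positivity)]
    refine hp.2.2.trans ?_
    rw [hy, ← Real.exp_add]
    refine Real.exp_le_exp.mpr ?_
    have : 1 / (V : ℝ) ≤ 1 := by rw [div_le_one hV0]; exact hV1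
    rw [add_div]
    linarith
  have h1 : ((PV V v).card : ℝ) * ((v : ℝ) / V) ≤ Real.log 4 * (Real.exp 1 * y) := by
    calc ((PV V v).card : ℝ) * ((v : ℝ) / V) = ∑ p ∈ PV V v, ((v : ℝ) / V) := by
          rw [Finset.sum_const, nsmul_eq_mul]
      _ ≤ ∑ p ∈ PV V v, Real.log p := by
          refine Finset.sum_le_sum fun p hp => ?_
          rw [mem_PV] at hp
          have := Real.log_le_log (Real.exp_pos _) hp.2.1.le
          rwa [Real.log_exp] at this
      _ ≤ ∑ p ∈ (Finset.Ioc 0 ⌊Real.exp 1 * y⌋₊).filter Nat.Prime, Real.log p := by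
          refine Finset.sum_le_sum_of_subset_of_nonneg hsub ?_
          intro p hp _
          rw [Finset.mem_filter, Finset.mem_Ioc] at hp
          exact Real.log_nonneg (by exact_mod_cast hp.2.one_le)
      _ = Chebyshev.theta (Real.exp 1 * y) := by
          rw [Chebyshev.theta]
      _ ≤ _ := Chebyshev.theta_le_log4_mul_x (by positivity)
  have h2 : ∑ p ∈ PV V v, (1 : ℝ) / p ≤ (PV V v).card * (1 / y) := by
    rw [← nsmul_eq_mul, ← Finset.sum_const]
    refine Finset.sum_le_sum fun p hp => ?_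
    rw [mem_PV] at hp
    exact one_div_le_one_div_of_le hy0 hp.2.1.le
  refine h2.trans ?_
  rw [mul_one_div, div_le_div_iff₀ hy0 hv0]
  rw [mul_div_assoc', div_le_iff₀ hV0] at h1
  calc ((PV V v).card : ℝ) * v ≤ Real.log 4 * (Real.exp 1 * y) * V := h1
    _ = Real.log 4 * Real.exp 1 * V * y := by ring

/-- `∑_{p ≤ x} 1/p` -/
noncomputable def PVb.S (x : ℕ) : ℝ := ∑ p ∈ (Finset.Ioc 0 x).filter Nat.Prime, (1 : ℝ) / p

lemma PVb.S_mono {x y : ℕ} (h : x ≤ y) : PVb.S x ≤ PVb.S y := by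
  unfold PVb.S
  refine Finset.sum_le_sum_of_subset_of_nonneg ?_ fun _ _ _ => by positivity
  intro p hp
  simp only [Finset.mem_filter, Finset.mem_Ioc] at hp ⊢
  exact ⟨⟨hp.1.1, hp.1.2.trans h⟩, hp.2⟩

lemma PVb.S_eq (m : ℕ) : ∑ p ∈ (Finset.range (2 ^ (m + 1))).filter Nat.Prime, (1 / (p : ℝ))
    = PVb.S (2 ^ (m + 1) - 1) := by
  unfold PVb.S
  refine Finset.sum_congr ?_ fun _ _ => rfl
  ext p
  simp only [Finset.mem_filter, Finset.mem_Ioc, Finset.mem_range]
  have : 0 < 2 ^ (m + 1) := by positivity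
  constructor
  · rintro ⟨h1, h2⟩; exact ⟨⟨h2.pos, by omega⟩, h2⟩
  · rintro ⟨h1, h2⟩; exact ⟨by omega, h2⟩

lemma PVb.S_sub {x y : ℕ} (h : x ≤ y) :
    ∑ p ∈ (Finset.Ioc x y).filter Nat.Prime, (1 : ℝ) / p = PVb.S y - PVb.S x := by
  unfold PVb.S
  rw [Finset.sum_filter, Finset.sum_filter, Finset.sum_filter]
  have := Finset.sum_Ioc_consecutive (fun p : ℕ => if p.Prime then (1 : ℝ) / p else 0)
    (Nat.zero_le x) h
  rw [← this]
  ring

theorem PVb.mertens_nat : ∃ C : ℝ, 0 < C ∧ ∀ x : ℕ, 2 ≤ x →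
    |PVb.S x - Real.log (Real.log x)| ≤ C := by
  obtain ⟨C, hC⟩ := EK.mertens_aux
  have hl2 : 0 < Real.log 2 := Real.log_pos (by norm_num)
  have hl2' : Real.log 2 < 1 := by
    have := Real.log_two_lt_d9; linarith
  have hll : Real.log (Real.log 2) < 0 := Real.log_neg hl2 hl2'
  refine ⟨C + Real.log 3 - Real.log (Real.log 2) + 1, ?_, fun x hx => ?_⟩
  · have := hC 0
    have h3 : 0 < Real.log 3 := Real.log_pos (by norm_num)
    have h4 : 0 ≤ C := (abs_nonneg _).trans this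
    linarith
  · obtain ⟨n, hn⟩ : ∃ n, Nat.log 2 x = n + 1 :=
      ⟨Nat.log 2 x - 1, by have : 0 < Nat.log 2 x := Nat.log_pos (by norm_num) hx; omega⟩
    have h1 : 2 ^ (n + 1) ≤ x := by
      rw [← hn]; exact Nat.pow_log_le_self 2 (by omega)
    have h2 : x < 2 ^ (n + 2) := by
      have := Nat.lt_pow_succ_log_self (b := 2) (by norm_num) x
      rw [hn] at this
      exact this
    have hlo : PVb.S (2 ^ (n + 1) - 1) ≤ PVb.S x := PVb.S_mono (by omega)
    have hhi : PVb.S x ≤ PVb.S (2 ^ (n + 1 + 1) - 1) := PVb.S_mono (by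
      have : n + 1 + 1 = n + 2 := rfl
      rw [this]; omega)
    have e1 := hC n
    have e2 := hC (n + 1)
    rw [PVb.S_eq, abs_le] at e1 e2
    have hx0 : (0 : ℝ) < x := by
      have : 0 < x := by omega
      exact_mod_cast this
    have hlx1 : ((n : ℝ) + 1) * Real.log 2 ≤ Real.log x := by
      have : Real.log ((2 : ℝ) ^ (n + 1)) ≤ Real.log x :=
        Real.log_le_log (by positivity) (by exact_mod_cast h1)
      rw [Real.log_pow] at this
      push_cast at this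
      exact this
    have hlx2 : Real.log x ≤ ((n : ℝ) + 2) * Real.log 2 := by
      have : Real.log x ≤ Real.log ((2 : ℝ) ^ (n + 2)) :=
        Real.log_le_log hx0 (by exact_mod_cast h2.le)
      rw [Real.log_pow] at this
      push_cast at this
      exact this
    have hlx0 : 0 < Real.log x := lt_of_lt_of_le (by positivity) hlx1
    have k1 : Real.log ((n : ℝ) + 1) + Real.log (Real.log 2) ≤ Real.log (Real.log x) := by
      rw [← Real.log_mul (by positivity) hl2.ne']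
      exact Real.log_le_log (by positivity) hlx1
    have k2 : Real.log (Real.log x) ≤ Real.log ((n : ℝ) + 2) + Real.log (Real.log 2) := by
      rw [← Real.log_mul (by positivity) hl2.ne']
      exact Real.log_le_log hlx0 hlx2
    have k3 : Real.log ((n : ℝ) + 2) ≤ Real.log ((n : ℝ) + 1) + Real.log 3 := by
      rw [← Real.log_mul (by positivity) (by norm_num)]
      refine Real.log_le_log (by positivity) ?_
      have : (0 : ℝ) ≤ n := Nat.cast_nonneg n
      linarith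
    have k4 : Real.log ((((n + 1 : ℕ) : ℝ)) + 1) = Real.log ((n : ℝ) + 2) := by
      congr 1; push_cast; ring
    rw [k4] at e2
    rw [abs_le]
    constructor
    · linarith [e1.1]
    · linarith [e2.2]

/-- a block decomposition: `LL` is a sum over an interval of primes. -/
lemma PVb.LL_eq (V a b : ℕ) (hV : 1 ≤ V) (hab : a ≤ b) :
    LL V (V * a) (V * b) = PVb.S ⌊Real.exp b⌋₊ - PVb.S ⌊Real.exp a⌋₊ := by
  have hV0 : (0 : ℝ) < V := by exact_mod_cast hV
  have key : ∀ v0 v1 : ℕ, v0 ≤ v1 → LL V v0 v1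
      = PVb.S ⌊Real.exp ((v1 : ℝ) / V)⌋₊ - PVb.S ⌊Real.exp ((v0 : ℝ) / V)⌋₊ := by
    intro v0 v1 h
    induction v1, h using Nat.le_induction with
    | base => simp [LL]
    | succ v1 h ih =>
      unfold LL at ih ⊢
      rw [Finset.sum_Ico_succ_top h, ih]
      unfold PV
      rw [PVb.S_sub]
      · push_cast
        ring
      · refine Nat.floor_le_floor ?_
        refine Real.exp_le_exp.mpr ?_
        gcongr
        linarith
  rw [key _ _ (Nat.mul_le_mul_left V hab)]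
  have e1 : ((V * b : ℕ) : ℝ) / V = b := by push_cast; field_simp
  have e2 : ((V * a : ℕ) : ℝ) / V = a := by push_cast; field_simp
  rw [e1, e2]

theorem LL_ge : ∃ c C : ℝ, 0 < c ∧ 0 < C ∧ ∀ V a b : ℕ, 1 ≤ V → 1 ≤ a → a ≤ b →
    c * Real.log ((b : ℝ) / a) - C ≤ LL V (V * a) (V * b) := by
  obtain ⟨C, hC0, hC⟩ := PVb.mertens_nat
  have hl4 : 0 < Real.log 4 := Real.log_pos (by norm_num)
  refine ⟨1, 2 * C + Real.log 4, one_pos, by positivity, fun V a b hV ha hab => ?_⟩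
  rw [PVb.LL_eq V a b hV hab, one_mul]
  have ha0 : (1 : ℝ) ≤ a := by exact_mod_cast ha
  have hb0 : (1 : ℝ) ≤ b := by exact_mod_cast ha.trans hab
  have he : (2 : ℝ) ≤ Real.exp 1 := by
    have := Real.exp_one_gt_d9; linarith
  have hea : (2 : ℝ) ≤ Real.exp a := he.trans (Real.exp_le_exp.mpr ha0)
  have heb : (2 : ℝ) ≤ Real.exp b := he.trans (Real.exp_le_exp.mpr hb0)
  have h2a : 2 ≤ ⌊Real.exp a⌋₊ := Nat.le_floor (by exact_mod_cast hea)
  have h2b : 2 ≤ ⌊Real.exp b⌋₊ := Nat.le_floor (by exact_mod_cast heb)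
  have ea := hC _ h2a
  have eb := hC _ h2b
  rw [abs_le] at ea eb
  -- upper bound for log log floor exp a
  have h2a' : (2 : ℝ) ≤ (⌊Real.exp (a : ℝ)⌋₊ : ℝ) := by exact_mod_cast h2a
  have h2b' : (2 : ℝ) ≤ (⌊Real.exp (b : ℝ)⌋₊ : ℝ) := by exact_mod_cast h2b
  have ua : Real.log (Real.log (⌊Real.exp (a : ℝ)⌋₊ : ℝ)) ≤ Real.log a := by
    refine Real.log_le_log (Real.log_pos (by linarith)) ?_
    have := Real.log_le_log (by linarith : (0 : ℝ) < (⌊Real.exp (a : ℝ)⌋₊ : ℝ))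
      (Nat.floor_le (Real.exp_pos (a : ℝ)).le)
    rwa [Real.log_exp] at this
  have ub : Real.log b - Real.log 4 ≤ Real.log (Real.log (⌊Real.exp (b : ℝ)⌋₊ : ℝ)) := by
    rw [← Real.log_div (by positivity) (by norm_num)]
    refine Real.log_le_log (by positivity) ?_
    have h5 : Real.exp b / 2 ≤ (⌊Real.exp (b : ℝ)⌋₊ : ℝ) := by
      have := Nat.lt_floor_add_one (Real.exp (b : ℝ))
      linarith
    have h6 := Real.log_le_log (by positivity) h5
    rw [Real.log_div (Real.exp_pos _).ne' (by norm_num), Real.log_exp] at h6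
    have h7 : Real.log 2 < 0.6931471808 := Real.log_two_lt_d9
    linarith
  rw [Real.log_div (by positivity) (by positivity)]
  linarith [ea.2, eb.1]

theorem mertens_ge : ∃ c C : ℝ, 0 < c ∧ 0 < C ∧ ∀ W k : ℕ, 2 ≤ W → 1 ≤ k →
    c * Real.log k - C ≤ ∑ p ∈ (Finset.Ioc W (W ^ k)).filter Nat.Prime, (1 : ℝ) / p := by
  obtain ⟨C, hC0, hC⟩ := PVb.mertens_nat
  refine ⟨1, 2 * C, one_pos, by positivity, fun W k hW hk => ?_⟩
  have hle : W ≤ W ^ k := by
    calc W = W ^ 1 := (pow_one W).symm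
      _ ≤ W ^ k := Nat.pow_le_pow_right (by omega) hk
  rw [PVb.S_sub hle, one_mul]
  have ea := hC W hW
  have eb := hC (W ^ k) (hW.trans hle)
  rw [abs_le] at ea eb
  have hW0 : (1 : ℝ) < W := by
    have : 1 < W := by omega
    exact_mod_cast this
  have hlW : 0 < Real.log W := Real.log_pos hW0
  have hk0 : (0 : ℝ) < k := by exact_mod_cast hk
  have e : Real.log (Real.log ((W ^ k : ℕ) : ℝ)) = Real.log k + Real.log (Real.log W) := by
    rw [Nat.cast_pow, Real.log_pow, Real.log_mul hk0.ne' hlW.ne']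
  rw [e] at eb
  linarith [ea.2, eb.1]

end Pool.MRZ
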