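import Mathlib
import Pool.Agent.MRZ.Defs

/-!
# MRZ/ScalePar: the scales and the numerical inequalities between them

Scales `j ≥ 0`: `pj s j = s^(4^j)`, `qj s j = (pj s j)²`, `Vj V0 j = 2^j V0`, exponents
`al a j = a (1 - 2^{-(j+1)})` (`0 < a ≤ 1/2`), so `al a j - al a (j-1) = a 2^{-(j+1)}` for `j ≥ 1`.
`pj s (j+1) = (pj s j)^4`.

* `par_zero`: `C (V0 s²)² e^{-as} ≤ ε` for `s ≥ s₀`.
* `par_step`: for `s ≥ s₀(a)`, `j ≥ 0`, `pj s (j+1) ≤ b ≤ qj s (j+1)`, with `p' = pj s j`, `gap = a 2^{-(j+2)}`: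
  `-2 gap b + qj s j + (b/p'+1)(4 + log(b/p'+2)) ≤ -gap pj s (j+1)`. Proof: `b ≥ p'^4`, `b ≤ p'^8`,
  `b/p' + 1 ≤ 2b/p'`, `4 + log (b/p'+2) ≤ 4 + log (3 p'^8) ≤ 6 + 8 log p' ≤ 14 p'^{1/4}·…`; use
  `log p' ≤ 4 p'^{1/4}`: everything is `≤ b (1/p'² + 100 p'^{-3/4}) ≤ 101 b p'^{-3/4}`, and
  `101 p'^{-3/4} ≤ gap` because `2^{j+2} ≤ 4·4^j`, `p' = s^{4^j}`, `4^j ≤ s^{4^j/4}` for `s ≥ e^4`
  (`log z ≤ z`), so `101·2^{j+2} p'^{-3/4} ≤ 404 s^{-4^j/2} ≤ 404 s^{-1/2} ≤ a`. So the left side is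
  `≤ -2 gap b + gap b = - gap b ≤ - gap p_{j+1}`.
* `par_sum`: `C (Vj V0 (j+1) * qj s (j+1))³ exp(-a 2^{-(j+2)} pj s (j+1)) ≤ ε 2^{-(j+1)}` for `s ≥ s₀`: with
  `P = pj s (j+1) ≥ s^4`, `2^{j+1} ≤ P^{1/4}`-type bounds: `(2^{j+1} V0 P²)³·2^{j+1} ≤ V0³ P^{7}`,
  `2^{-(j+2)} P ≥ P^{1/2}/…`, and `P^7 e^{-(a/4)√P} → 0`.
* `par_LL`: `c log (qj/pj) - C ≥ 2^{j+1}/ε` for `s ≥ s₀` (`log (qj/pj) = 4^j log s`, `2^{j+1} ≤ 2·4^j`).
* `par_top`: for `s ≥ 2`, `V0 ≥ 1`, `0 < a`: for large `X` there is `J ≥ 0` (the number of scales minus one) with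
  `Vj V0 j * exp(2 qj s j) ≤ X` for `j ≤ J` and
  `C * (Vj V0 J * qj s J) * exp(2a(log X + qj s J) + (log X/pj s J + 1)(4 + log(log X/pj s J + 2))) ≤ X^{3a}`.
  Take `J` minimal with `pj s J ≥ (log log X)²`. If `J ≥ 1` then `pj s J = (pj s (J-1))^4 < (log log X)^8`; if
  `J = 0` then `pj s J = s`. So `qj s J ≤ max(s², (log log X)^16)`, `2^J ≤ pj s J`, and
  `(log X/p + 1)(4 + log (log X/p + 2)) ≤ (log X/(log log X)² + 1)(4 + log (log X + 2)) = o(log X)`; the whole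
  logarithm of the left side is `2a log X + o(log X)`.
-/

namespace Pool.MRZ

open Finset

def pj (s j : ℕ) : ℕ := s ^ (4 ^ j)

def qj (s j : ℕ) : ℕ := (pj s j) ^ 2

def Vj (V0 j : ℕ) : ℕ := 2 ^ j * V0

noncomputable def al (a : ℝ) (j : ℕ) : ℝ := a * (1 - (1 / 2) ^ (j + 1))

/-- exponentials beat powers -/
theorem expdecay (K a : ℝ) (ha : 0 < a) (n : ℕ) :
    ∃ x₀ : ℝ, ∀ x : ℝ, x₀ ≤ x → K * x ^ n * Real.exp (-(a * x)) ≤ 1 := by
  have h1 := Real.tendsto_pow_mul_exp_neg_atTop_nhds_zero n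
  have h2 : Filter.Tendsto (fun x : ℝ => a * x) Filter.atTop Filter.atTop :=
    Filter.tendsto_id.const_mul_atTop ha
  have h3 := (h1.comp h2).const_mul (K / a ^ n)
  rw [mul_zero] at h3
  have h4 := h3.eventually (ge_mem_nhds (zero_lt_one' ℝ))
  obtain ⟨x₀, hx₀⟩ := Filter.eventually_atTop.1 h4
  refine ⟨x₀, fun x hx => ?_⟩
  have h5 := hx₀ x hx
  simp only [Function.comp_apply] at h5
  have h6 : K / a ^ n * ((a * x) ^ n * Real.exp (-(a * x))) =
      K * x ^ n * Real.exp (-(a * x)) := by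
    rw [mul_pow]
    have : a ^ n ≠ 0 := pow_ne_zero n ha.ne'
    field_simp
  rwa [h6] at h5

theorem par_zero (C a ε : ℝ) (V0 : ℕ) (hC : 0 < C) (ha : 0 < a) (hε : 0 < ε) :
    ∃ s₀ : ℕ, ∀ s : ℕ, s₀ ≤ s → C * ((V0 : ℝ) * (s : ℝ) ^ 2) ^ 2 * Real.exp (-a * s) ≤ ε := by
  obtain ⟨x₀, hx₀⟩ := expdecay (C * (V0 : ℝ) ^ 2 / ε) a ha 4
  refine ⟨⌈x₀⌉₊, fun s hs => ?_⟩
  have h1 := hx₀ s ((Nat.le_ceil x₀).trans (by exact_mod_cast hs))
  have h2 : C * ((V0 : ℝ) * (s : ℝ) ^ 2) ^ 2 * Real.exp (-a * s) =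
      ε * (C * (V0 : ℝ) ^ 2 / ε * (s : ℝ) ^ 4 * Real.exp (-(a * s))) := by
    rw [neg_mul]
    field_simp
  rw [h2]
  nlinarith

theorem two_pow_le (j : ℕ) : j ≤ 4 ^ j - 1 := by
  have : j < 4 ^ j := Nat.lt_pow_self (by norm_num)
  omega

/-- `r 2^j ≤ r^(4^j)` -/
theorem mul_two_pow_le {r : ℝ} (hr : 2 ≤ r) (j : ℕ) : r * 2 ^ j ≤ r ^ (4 ^ j) := by
  have h1 : r ^ (4 ^ j) = r * r ^ (4 ^ j - 1) := by
    rw [← pow_succ']
    congr 1
    have : 0 < 4 ^ j := by positivity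
    omega
  rw [h1]
  have h2 : (2 : ℝ) ^ j ≤ r ^ (4 ^ j - 1) :=
    (pow_le_pow_left₀ (by norm_num) hr j).trans
      (pow_le_pow_right₀ (by linarith) (two_pow_le j))
  exact mul_le_mul_of_nonneg_left h2 (by linarith)

theorem pj_succ (s j : ℕ) : pj s (j + 1) = pj s j ^ 4 := by
  unfold pj
  rw [← pow_mul]
  congr 1

theorem al_sub (a : ℝ) (j : ℕ) : al a (j + 1) - al a j = a * (1 / 2) ^ (j + 2) := by
  unfold al
  rw [show j + 1 + 1 = j + 2 by ring, pow_succ (1 / 2 : ℝ) (j + 1)]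
  ring

theorem log_le_self' {x : ℝ} (hx : 0 < x) : Real.log x ≤ x :=
  (Real.log_le_sub_one_of_pos hx).trans (by linarith)

theorem par_step (a : ℝ) (ha : 0 < a) :
    ∃ s₀ : ℕ, ∀ s j : ℕ, s₀ ≤ s → ∀ b : ℝ, (pj s (j + 1) : ℝ) ≤ b → b ≤ (qj s (j + 1) : ℝ) →
      -2 * (al a (j + 1) - al a j) * b + (qj s j : ℝ) +
        (b / (pj s j : ℝ) + 1) * (4 + Real.log (b / (pj s j : ℝ) + 2)) ≤
      -(a * (1 / 2) ^ (j + 2) * (pj s (j + 1) : ℝ)) := by
  refine ⟨max 4 ⌈(164 / a) ^ 2⌉₊, fun s j hs b hb1 hb2 => ?_⟩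
  have hs4 : (4 : ℝ) ≤ s := by exact_mod_cast (le_max_left _ _).trans hs
  have hsa : (164 / a) ^ 2 ≤ (s : ℝ) :=
    (Nat.le_ceil _).trans (by exact_mod_cast (le_max_right _ _).trans hs)
  set r : ℝ := √s with hr
  have hr2 : 2 ≤ r := by
    rw [hr]
    apply Real.le_sqrt_of_sq_le
    linarith
  have hra : 164 / a ≤ r := Real.le_sqrt_of_sq_le hsa
  have hrr : r ^ 2 = s := Real.sq_sqrt (by linarith)
  set w : ℝ := r ^ (4 ^ j) with hw
  have hwj : r * 2 ^ j ≤ w := mul_two_pow_le hr2 j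
  have h2j : (1 : ℝ) ≤ 2 ^ j := one_le_pow₀ (by norm_num)
  have hw2 : 2 ≤ w := by nlinarith
  have hz : (pj s j : ℝ) = w ^ 2 := by
    rw [pj, hw, Nat.cast_pow, ← hrr, ← pow_mul, ← pow_mul, mul_comm]
  have hP : (pj s (j + 1) : ℝ) = (w ^ 2) ^ 4 := by
    rw [pj_succ, Nat.cast_pow, hz]
  have hq : (qj s j : ℝ) = (w ^ 2) ^ 2 := by
    rw [qj, Nat.cast_pow, hz]
  have hQ : (qj s (j + 1) : ℝ) = (w ^ 2) ^ 8 := by
    rw [qj, Nat.cast_pow, hP]
    ring
  rw [hP] at hb1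
  rw [hQ] at hb2
  rw [hz, hP, hq, al_sub]
  set z : ℝ := w ^ 2 with hzdef
  have hz4 : 4 ≤ z := by nlinarith
  have hz0 : 0 < z := by linarith
  have hw0 : 0 < w := by linarith
  have hb0 : 0 < b := lt_of_lt_of_le (by positivity) hb1
  -- bound on the logarithm
  have hbz : b / z ≤ z ^ 7 := by
    rw [div_le_iff₀ hz0]
    calc b ≤ z ^ 8 := hb2
      _ = z ^ 7 * z := by ring
  have hz7 : 1 ≤ z ^ 7 := one_le_pow₀ (by linarith)
  have hlog : Real.log (b / z + 2) ≤ 16 * w := by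
    have h1 : b / z + 2 ≤ w ^ 16 := by
      have h2 : w ^ 16 = z ^ 7 * z := by rw [hzdef]; ring
      rw [h2]
      nlinarith
    calc Real.log (b / z + 2) ≤ Real.log (w ^ 16) := Real.log_le_log (by positivity) h1
      _ = 16 * Real.log w := by rw [Real.log_pow]; norm_num
      _ ≤ 16 * w := by linarith [log_le_self' hw0]
  have h1 : b / z + 1 ≤ 2 * b / z := by
    have h3 : 1 ≤ b / z := by
      rw [le_div_iff₀ hz0, one_mul]
      calc z = z ^ 1 := (pow_one z).symm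
        _ ≤ z ^ 4 := pow_le_pow_right₀ (by linarith) (by norm_num)
        _ ≤ b := hb1
    rw [mul_div_assoc]
    linarith
  have h2 : (b / z + 1) * (4 + Real.log (b / z + 2)) ≤ 40 * (b / w) := by
    calc (b / z + 1) * (4 + Real.log (b / z + 2)) ≤ (2 * b / z) * (20 * w) := by
          apply mul_le_mul h1 (by linarith) _ (by positivity)
          have : 0 ≤ Real.log (b / z + 2) := by
            apply Real.log_nonneg
            have : 0 < b / z := by positivity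
            linarith
          linarith
      _ = 40 * (b / w) := by
          rw [hzdef]
          field_simp
          ring
  have h3 : z ^ 2 ≤ b / w := by
    rw [le_div_iff₀ hw0]
    have h4 : z ^ 2 * w ≤ z ^ 4 := by
      have h5 : w ≤ z ^ 2 := by nlinarith
      calc z ^ 2 * w ≤ z ^ 2 * z ^ 2 := mul_le_mul_of_nonneg_left h5 (by positivity)
        _ = z ^ 4 := by ring
    linarith
  -- the gap
  have h4 : 41 ≤ (a * (1 / 2) ^ (j + 2)) * w := by
    have h5 : a * (r * 2 ^ j) ≤ a * w := mul_le_mul_of_nonneg_left hwj ha.le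
    have h6 : 164 ≤ a * r := by
      rw [div_le_iff₀ ha] at hra
      linarith
    have h7 : 164 * 2 ^ j ≤ a * w := by nlinarith
    have h8 : ((1 : ℝ) / 2) ^ (j + 2) * (164 * 2 ^ j) = 41 := by
      rw [pow_add, one_div, inv_pow]
      field_simp
      norm_num
    calc (41 : ℝ) = ((1 : ℝ) / 2) ^ (j + 2) * (164 * 2 ^ j) := h8.symm
      _ ≤ ((1 : ℝ) / 2) ^ (j + 2) * (a * w) := mul_le_mul_of_nonneg_left h7 (by positivity)
      _ = _ := by ring
  set gap : ℝ := a * (1 / 2) ^ (j + 2) with hgap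
  have hgap0 : 0 < gap := by positivity
  have h5 : 41 * (b / w) ≤ gap * b := by
    calc 41 * (b / w) ≤ (gap * w) * (b / w) := mul_le_mul_of_nonneg_right h4 (by positivity)
      _ = gap * b := by field_simp
  have h6 : gap * z ^ 4 ≤ gap * b := mul_le_mul_of_nonneg_left hb1 hgap0.le
  nlinarith

theorem par_sum (C a ε : ℝ) (V0 : ℕ) (hC : 0 < C) (ha : 0 < a) (hε : 0 < ε) :
    ∃ s₀ : ℕ, ∀ s j : ℕ, s₀ ≤ s →
      C * ((Vj V0 (j + 1) : ℝ) * (qj s (j + 1) : ℝ)) ^ 3 *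
        Real.exp (-(a * (1 / 2) ^ (j + 2) * (pj s (j + 1) : ℝ))) ≤ ε * (1 / 2) ^ (j + 1) := by
  obtain ⟨x₀, hx₀⟩ := expdecay (C * (V0 : ℝ) ^ 3 / ε) (a / 2) (by positivity) 20
  refine ⟨max 2 ⌈x₀⌉₊, fun s j hs => ?_⟩
  have hs2 : 2 ≤ s := (le_max_left _ _).trans hs
  have hs2' : (2 : ℝ) ≤ s := by exact_mod_cast hs2
  have hsx : x₀ ≤ s := (Nat.le_ceil _).trans (by exact_mod_cast (le_max_right _ _).trans hs)
  set w : ℝ := ((s : ℝ) ^ 2) ^ (4 ^ j) with hw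
  have hP : (pj s (j + 1) : ℝ) = w ^ 2 := by
    rw [pj, hw, Nat.cast_pow, ← pow_mul, ← pow_mul, pow_succ 4 j]
    congr 1
    ring
  have hs22 : (2 : ℝ) ≤ (s : ℝ) ^ 2 := by nlinarith
  have hw1 : (s : ℝ) ^ 2 * 2 ^ j ≤ w := mul_two_pow_le hs22 j
  have h2j : (1 : ℝ) ≤ 2 ^ j := one_le_pow₀ (by norm_num)
  have hsw : (s : ℝ) ≤ w := by nlinarith
  have h2w : (2 : ℝ) ^ (j + 1) ≤ w := by
    rw [pow_succ]
    nlinarith
  have hw0 : 0 < w := by linarith
  have hmain := hx₀ w (hsx.trans hsw)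
  have hV : (Vj V0 (j + 1) : ℝ) = 2 ^ (j + 1) * V0 := by
    rw [Vj]
    push_cast
    ring
  have hq : (qj s (j + 1) : ℝ) = w ^ 4 := by
    rw [qj, Nat.cast_pow, hP]
    ring
  rw [hV, hq, hP]
  have hexp : Real.exp (-(a * (1 / 2) ^ (j + 2) * w ^ 2)) ≤ Real.exp (-(a / 2 * w)) := by
    apply Real.exp_le_exp.2
    apply neg_le_neg
    have h1 : ((1 : ℝ) / 2) ^ (j + 2) * 2 ^ (j + 1) = 1 / 2 := by
      rw [pow_succ (1 / 2 : ℝ) (j + 1), mul_right_comm, ← mul_pow]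
      norm_num
    have h2 : (1 : ℝ) / 2 ≤ ((1 : ℝ) / 2) ^ (j + 2) * w :=
      h1.symm.le.trans (mul_le_mul_of_nonneg_left h2w (by positivity))
    calc a / 2 * w = a * w * (1 / 2) := by ring
      _ ≤ a * w * (((1 : ℝ) / 2) ^ (j + 2) * w) := mul_le_mul_of_nonneg_left h2 (by positivity)
      _ = _ := by ring
  set D : ℝ := (2 : ℝ) ^ (j + 1) with hD
  have hD0 : 0 < D := by positivity
  have hDi : ((1 : ℝ) / 2) ^ (j + 1) = D⁻¹ := by
    rw [hD, one_div, inv_pow]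
  rw [hDi]
  have h3 : C * (D * (V0 : ℝ) * w ^ 4) ^ 3 * Real.exp (-(a * (1 / 2) ^ (j + 2) * w ^ 2)) * D ≤
      ε := by
    have hpos : 0 ≤ C * (D * (V0 : ℝ) * w ^ 4) ^ 3 := by positivity
    calc C * (D * (V0 : ℝ) * w ^ 4) ^ 3 * Real.exp (-(a * (1 / 2) ^ (j + 2) * w ^ 2)) * D
        ≤ C * (D * (V0 : ℝ) * w ^ 4) ^ 3 * Real.exp (-(a / 2 * w)) * D := by
          apply mul_le_mul_of_nonneg_right _ hD0.le
          exact mul_le_mul_of_nonneg_left hexp hpos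
      _ = C * (V0 : ℝ) ^ 3 * w ^ 12 * Real.exp (-(a / 2 * w)) * D ^ 4 := by ring
      _ ≤ C * (V0 : ℝ) ^ 3 * w ^ 12 * Real.exp (-(a / 2 * w)) * w ^ 8 := by
          apply mul_le_mul_of_nonneg_left _ (by positivity)
          calc D ^ 4 ≤ w ^ 4 := pow_le_pow_left₀ hD0.le h2w 4
            _ ≤ w ^ 8 := pow_le_pow_right₀ (by linarith) (by norm_num)
      _ = ε * (C * (V0 : ℝ) ^ 3 / ε * w ^ 20 * Real.exp (-(a / 2 * w))) := by
          field_simp
      _ ≤ ε * 1 := mul_le_mul_of_nonneg_left hmain hε.le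
      _ = ε := mul_one ε
  rw [← div_eq_mul_inv, le_div_iff₀ hD0]
  exact h3

theorem par_LL (c C ε : ℝ) (hc : 0 < c) (hε : 0 < ε) :
    ∃ s₀ : ℕ, 2 ≤ s₀ ∧ ∀ s j : ℕ, s₀ ≤ s →
      2 ^ (j + 1) / ε ≤ c * Real.log ((qj s j : ℝ) / (pj s j : ℝ)) - C := by
  refine ⟨max 2 ⌈Real.exp ((2 / ε + |C|) / c)⌉₊, le_max_left _ _, fun s j hs => ?_⟩
  have hs2 : 2 ≤ s := (le_max_left _ _).trans hs
  have hs2' : (2 : ℝ) ≤ s := by exact_mod_cast hs2
  have hsx : Real.exp ((2 / ε + |C|) / c) ≤ s :=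
    (Nat.le_ceil _).trans (by exact_mod_cast (le_max_right _ _).trans hs)
  have hlog : (2 / ε + |C|) / c ≤ Real.log s := by
    rw [Real.le_log_iff_exp_le (by linarith)]
    exact hsx
  have h1 : (qj s j : ℝ) / (pj s j : ℝ) = (s : ℝ) ^ (4 ^ j) := by
    have h0 : (0 : ℝ) < (s : ℝ) ^ (4 ^ j) := by positivity
    rw [qj, Nat.cast_pow, pj, Nat.cast_pow, sq, mul_div_assoc, div_self h0.ne', mul_one]
  rw [h1, Real.log_pow]
  rw [div_le_iff₀ hc] at hlog
  have h24 : (2 : ℝ) ^ j ≤ (4 : ℝ) ^ j := pow_le_pow_left₀ (by norm_num) (by norm_num) j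
  have h2j : (1 : ℝ) ≤ 2 ^ j := one_le_pow₀ (by norm_num)
  have hl0 : 0 ≤ Real.log s := Real.log_nonneg (by linarith)
  have hC := abs_nonneg C
  have hC' := le_abs_self C
  push_cast
  have h3 : (2 : ℝ) ^ j * (2 / ε + |C|) ≤ (4 : ℝ) ^ j * (Real.log s * c) := by
    apply mul_le_mul h24 hlog (by positivity) (by positivity)
  have h4 : (2 : ℝ) ^ (j + 1) / ε = 2 ^ j * (2 / ε) := by
    rw [pow_succ]
    ring
  rw [h4]
  nlinarith

theorem par_top (C a : ℝ) (V0 s : ℕ) (hC : 0 < C) (ha : 0 < a) (hs : 2 ≤ s) (hV : 1 ≤ V0) :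
    ∃ X₀ : ℕ, ∀ X : ℕ, X₀ ≤ X → ∃ J : ℕ,
      (∀ j ≤ J, (Vj V0 j : ℝ) * Real.exp (2 * (qj s j : ℝ)) ≤ X) ∧
      C * ((Vj V0 J : ℝ) * (qj s J : ℝ)) *
        Real.exp (2 * a * (Real.log X + (qj s J : ℝ)) +
          (Real.log X / (pj s J : ℝ) + 1) * (4 + Real.log (Real.log X / (pj s J : ℝ) + 2))) ≤
        (X : ℝ) ^ (3 * a) := by
  have hs2 : (2 : ℝ) ≤ s := by exact_mod_cast hs
  obtain ⟨x₁, hx₁⟩ := expdecay (V0 : ℝ) 1 one_pos 4
  obtain ⟨x₂, hx₂⟩ := expdecay (C * (V0 : ℝ)) (a / 4) (by positivity) 12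
  have hlo := (Real.isLittleO_log_id_atTop.bound (show (0 : ℝ) < a / 128 by positivity))
  obtain ⟨x₃, hx₃⟩ := Filter.eventually_atTop.1 hlo
  set y₀ : ℝ := max (max x₁ x₂) (max (max x₃ (48 / a)) (s : ℝ)) with hy₀
  have hy₀0 : 0 ≤ y₀ := by
    have : (s : ℝ) ≤ y₀ := (le_max_right _ _).trans (le_max_right _ _)
    linarith
  refine ⟨⌈Real.exp (y₀ ^ 16)⌉₊, fun X hX => ?_⟩
  have hXe : Real.exp (y₀ ^ 16) ≤ X := (Nat.le_ceil _).trans (by exact_mod_cast hX)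
  have hX0 : (0 : ℝ) < X := lt_of_lt_of_le (Real.exp_pos _) hXe
  have hL : y₀ ^ 16 ≤ Real.log X := by
    rw [Real.le_log_iff_exp_le hX0]
    exact hXe
  set L : ℝ := Real.log X with hLdef
  have hL0 : 0 ≤ L := (by positivity : (0 : ℝ) ≤ y₀ ^ 16).trans hL
  set y : ℝ := L ^ ((16 : ℝ)⁻¹) with hy
  have hyL : y ^ 16 = L := by
    rw [hy]
    have := Real.rpow_inv_natCast_pow hL0 (show (16 : ℕ) ≠ 0 by norm_num)
    exact_mod_cast this
  have hy0 : 0 ≤ y := Real.rpow_nonneg hL0 _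
  have hyy : y₀ ≤ y := by
    by_contra h
    push Not at h
    have := pow_lt_pow_left₀ h hy0 (show (16 : ℕ) ≠ 0 by norm_num)
    linarith
  have hy1 : x₁ ≤ y := ((le_max_left _ _).trans (le_max_left _ _)).trans hyy
  have hy2 : x₂ ≤ y := ((le_max_right _ _).trans (le_max_left _ _)).trans hyy
  have hy3 : x₃ ≤ y :=
    (((le_max_left _ _).trans (le_max_left _ _)).trans (le_max_right _ _)).trans hyy
  have hy4 : 48 / a ≤ y :=
    (((le_max_right _ _).trans (le_max_left _ _)).trans (le_max_right _ _)).trans hyy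
  have hy5 : (s : ℝ) ≤ y := ((le_max_right _ _).trans (le_max_right _ _)).trans hyy
  have hy22 : 2 ≤ y := hs2.trans hy5
  have hypos : 0 < y := by linarith
  -- the choice of `J`
  have hex : ∃ j : ℕ, L < (pj s j : ℝ) := by
    obtain ⟨n, hn⟩ := exists_nat_gt L
    refine ⟨n, hn.trans_le ?_⟩
    rw [pj]
    have h1 : n ≤ s ^ (4 ^ n) := by
      calc n ≤ 2 ^ n := Nat.lt_two_pow_self.le
        _ ≤ s ^ n := Nat.pow_le_pow_left hs n
        _ ≤ s ^ (4 ^ n) := Nat.pow_le_pow_right (by omega) (Nat.lt_pow_self (by norm_num)).le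
    exact_mod_cast h1
  classical
  set m := Nat.find hex with hm
  have hm1 : L < (pj s m : ℝ) := Nat.find_spec hex
  have hm2 : ∀ j < m, (pj s j : ℝ) ≤ L := fun j hj => not_lt.1 (Nat.find_min hex hj)
  have hm3 : 2 ≤ m := by
    by_contra h
    have h1 : m ≤ 1 := by omega
    have h2 : (pj s m : ℝ) ≤ (s : ℝ) ^ 4 := by
      rw [pj, Nat.cast_pow]
      apply pow_le_pow_right₀ (by linarith)
      calc 4 ^ m ≤ 4 ^ 1 := Nat.pow_le_pow_right (by norm_num) h1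
        _ = 4 := by norm_num
    have h3 : (s : ℝ) ^ 4 ≤ L := by
      rw [← hyL]
      calc (s : ℝ) ^ 4 ≤ y ^ 4 := pow_le_pow_left₀ (by linarith) hy5 4
        _ ≤ y ^ 16 := pow_le_pow_right₀ (by linarith) (by norm_num)
    linarith
  obtain ⟨J, hJ⟩ : ∃ J, m = J + 2 := ⟨m - 2, by omega⟩
  have hp1 : (pj s (J + 1) : ℝ) ≤ L := hm2 _ (by omega)
  have hp2 : L < (pj s (J + 2) : ℝ) := by rw [← hJ]; exact hm1
  set t : ℝ := (pj s J : ℝ) with ht
  have ht0 : 0 < t := by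
    rw [ht, pj]
    push_cast
    positivity
  have hp1' : t ^ 4 ≤ (y ^ 4) ^ 4 := by
    rw [pj_succ, Nat.cast_pow] at hp1
    calc t ^ 4 ≤ L := hp1
      _ = (y ^ 4) ^ 4 := by rw [← hyL]; ring
  have hp2' : y ^ 16 < t ^ 16 := by
    rw [pj_succ, pj_succ, Nat.cast_pow, Nat.cast_pow] at hp2
    calc y ^ 16 = L := hyL
      _ < (t ^ 4) ^ 4 := hp2
      _ = t ^ 16 := by ring
  have hty : t ≤ y ^ 4 := le_of_pow_le_pow_left₀ (by norm_num) (by positivity) hp1'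
  have hyt : y ≤ t := (lt_of_pow_lt_pow_left₀ 16 ht0.le hp2').le
  have h2J : (2 : ℝ) ^ J ≤ t := by
    rw [ht, pj]
    have h1 : 2 ^ J ≤ s ^ (4 ^ J) := by
      calc 2 ^ J ≤ s ^ J := Nat.pow_le_pow_left hs J
        _ ≤ s ^ (4 ^ J) := Nat.pow_le_pow_right (by omega) (Nat.lt_pow_self (by norm_num)).le
    exact_mod_cast h1
  have hV0 : (1 : ℝ) ≤ V0 := by exact_mod_cast hV
  have hqJ : (qj s J : ℝ) = t ^ 2 := by rw [qj, Nat.cast_pow]
  have hVJ : (Vj V0 J : ℝ) = 2 ^ J * V0 := by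
    rw [Vj]
    push_cast
    ring
  have ht2 : t ^ 2 ≤ y ^ 8 := by
    calc t ^ 2 ≤ (y ^ 4) ^ 2 := pow_le_pow_left₀ ht0.le hty 2
      _ = y ^ 8 := by ring
  have hVJle : (Vj V0 J : ℝ) ≤ V0 * y ^ 4 := by
    rw [hVJ, mul_comm]
    exact mul_le_mul_of_nonneg_left (h2J.trans hty) (by linarith)
  have hy8 : (2 : ℝ) ^ 8 ≤ y ^ 8 := pow_le_pow_left₀ (by norm_num) hy22 8
  have hyy8 : y ≤ y ^ 8 := by
    calc y = y ^ 1 := (pow_one y).symm
      _ ≤ y ^ 8 := pow_le_pow_right₀ (by linarith) (by norm_num)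
  have hy16 : y ^ 16 = y ^ 8 * y ^ 8 := by ring
  refine ⟨J, ?_, ?_⟩
  · intro j hj
    have hpjJ : (pj s j : ℝ) ≤ t := by
      rw [ht, pj, pj]
      have h1 : s ^ (4 ^ j) ≤ s ^ (4 ^ J) :=
        Nat.pow_le_pow_right (by omega) (Nat.pow_le_pow_right (by norm_num) hj)
      exact_mod_cast h1
    have hq : (qj s j : ℝ) ≤ y ^ 8 := by
      rw [qj, Nat.cast_pow]
      exact (pow_le_pow_left₀ (by positivity) hpjJ 2).trans ht2
    have hVj : (Vj V0 j : ℝ) ≤ V0 * y ^ 4 := by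
      refine le_trans ?_ hVJle
      rw [Vj, Vj]
      have h1 : 2 ^ j * V0 ≤ 2 ^ J * V0 :=
        Nat.mul_le_mul_right _ (Nat.pow_le_pow_right (by norm_num) hj)
      exact_mod_cast h1
    have h1 := hx₁ y hy1
    have h2 : (V0 : ℝ) * y ^ 4 ≤ Real.exp y := by
      rw [one_mul, Real.exp_neg, ← div_eq_mul_inv, div_le_one (Real.exp_pos _)] at h1
      exact h1
    calc (Vj V0 j : ℝ) * Real.exp (2 * (qj s j : ℝ)) ≤ Real.exp y * Real.exp (2 * y ^ 8) := by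
          apply mul_le_mul (hVj.trans h2) (Real.exp_le_exp.2 (by linarith)) (Real.exp_pos _).le
            (Real.exp_pos _).le
      _ = Real.exp (y + 2 * y ^ 8) := by rw [← Real.exp_add]
      _ ≤ Real.exp L := by
          apply Real.exp_le_exp.2
          rw [← hyL, hy16]
          nlinarith
      _ = X := Real.exp_log hX0
  · rw [Real.rpow_def_of_pos hX0, ← hLdef]
    have hLt : L / t ≤ y ^ 15 := by
      rw [div_le_iff₀ ht0, ← hyL]
      calc y ^ 16 = y ^ 15 * y := by ring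
        _ ≤ y ^ 15 * t := mul_le_mul_of_nonneg_left hyt (by positivity)
    have hLt0 : 0 ≤ L / t := by positivity
    have hy15 : 1 ≤ y ^ 15 := one_le_pow₀ (by linarith)
    have hlog1 : Real.log (L / t + 2) ≤ 2 + 15 * Real.log y := by
      calc Real.log (L / t + 2) ≤ Real.log (3 * y ^ 15) :=
            Real.log_le_log (by positivity) (by linarith)
        _ = Real.log 3 + 15 * Real.log y := by
            rw [Real.log_mul (by norm_num) (by positivity), Real.log_pow]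
            norm_num
        _ ≤ 2 + 15 * Real.log y := by
            have : Real.log 3 ≤ 3 - 1 := Real.log_le_sub_one_of_pos (by norm_num)
            linarith
    have hlogy : Real.log y ≤ a / 128 * y := by
      have h1 := hx₃ y hy3
      rw [id, Real.norm_eq_abs, Real.norm_eq_abs, abs_of_pos hypos] at h1
      exact (le_abs_self _).trans h1
    have hlogy0 : 0 ≤ Real.log y := Real.log_nonneg (by linarith)
    have hprod : (L / t + 1) * (4 + Real.log (L / t + 2)) ≤ a / 2 * y ^ 16 := by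
      have h48 : 48 ≤ a * y := by
        rw [div_le_iff₀ ha] at hy4
        linarith
      have hlog0 : 0 ≤ Real.log (L / t + 2) := Real.log_nonneg (by linarith)
      calc (L / t + 1) * (4 + Real.log (L / t + 2)) ≤
            (2 * y ^ 15) * (6 + 15 * (a / 128 * y)) := by
            apply mul_le_mul (by linarith) (by linarith) (by linarith) (by positivity)
        _ = 12 * y ^ 15 + 30 / 128 * a * y ^ 16 := by ring
        _ ≤ a / 2 * y ^ 16 := by
            have h5 : 48 * y ^ 15 ≤ a * y * y ^ 15 :=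
              mul_le_mul_of_nonneg_right h48 (by positivity)
            have h6 : a * y * y ^ 15 = a * y ^ 16 := by ring
            rw [h6] at h5
            have h7 : 0 ≤ a * y ^ 16 := by positivity
            linarith
    have hfac : C * ((Vj V0 J : ℝ) * (qj s J : ℝ)) ≤ Real.exp (a / 4 * y ^ 16) := by
      have h1 := hx₂ y hy2
      rw [Real.exp_neg, ← div_eq_mul_inv, div_le_one (Real.exp_pos _)] at h1
      have hyy16 : y ≤ y ^ 16 := by
        calc y = y ^ 1 := (pow_one y).symm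
          _ ≤ y ^ 16 := pow_le_pow_right₀ (by linarith) (by norm_num)
      calc C * ((Vj V0 J : ℝ) * (qj s J : ℝ)) ≤ C * ((V0 * y ^ 4) * y ^ 8) := by
            apply mul_le_mul_of_nonneg_left _ hC.le
            rw [hqJ]
            exact mul_le_mul hVJle ht2 (by positivity) (by positivity)
        _ = C * V0 * y ^ 12 := by ring
        _ ≤ Real.exp (a / 4 * y) := h1
        _ ≤ Real.exp (a / 4 * y ^ 16) := by
            apply Real.exp_le_exp.2
            exact mul_le_mul_of_nonneg_left hyy16 (by positivity)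
    calc C * ((Vj V0 J : ℝ) * (qj s J : ℝ)) *
          Real.exp (2 * a * (L + (qj s J : ℝ)) + (L / t + 1) * (4 + Real.log (L / t + 2)))
        ≤ Real.exp (a / 4 * y ^ 16) *
          Real.exp (2 * a * (L + (qj s J : ℝ)) + (L / t + 1) * (4 + Real.log (L / t + 2))) :=
          mul_le_mul_of_nonneg_right hfac (Real.exp_pos _).le
      _ = Real.exp (a / 4 * y ^ 16 + (2 * a * (L + (qj s J : ℝ)) +
            (L / t + 1) * (4 + Real.log (L / t + 2)))) := by rw [← Real.exp_add]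
      _ ≤ Real.exp (L * (3 * a)) := by
          apply Real.exp_le_exp.2
          have h8 : 2 * a * t ^ 2 ≤ a / 4 * y ^ 16 := by
            have h9 : 2 * a * t ^ 2 ≤ 2 * a * y ^ 8 :=
              mul_le_mul_of_nonneg_left ht2 (by positivity)
            have h10 : (8 : ℝ) * y ^ 8 ≤ y ^ 16 := by
              rw [hy16]
              exact mul_le_mul_of_nonneg_right (by linarith) (by positivity)
            have h11 : a / 4 * (8 * y ^ 8) ≤ a / 4 * y ^ 16 :=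
              mul_le_mul_of_nonneg_left h10 (by positivity)
            calc 2 * a * t ^ 2 ≤ 2 * a * y ^ 8 := h9
              _ = a / 4 * (8 * y ^ 8) := by ring
              _ ≤ a / 4 * y ^ 16 := h11
          have h12 : 2 * a * (L + (qj s J : ℝ)) = 2 * a * y ^ 16 + 2 * a * t ^ 2 := by
            rw [hqJ, hyL]
            ring
          have h13 : L * (3 * a) = 2 * a * y ^ 16 + a / 4 * y ^ 16 + a / 4 * y ^ 16 +
              a / 2 * y ^ 16 := by
            rw [hyL]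
            ring
          rw [h12, h13]
          linarith

end Pool.MRZ
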