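import Mathlib
import Pool.Agent.MRZ.MVT

/-!
# MRZ/T0: frequencies where all prime polynomials of one scale are small

`Rmvt`: for `y ≥ 1`: `∑_{|t|<T} |R f y t|² ≤ C (1 + T/y)`: `mvt'` with `N = y`, `Λ = 2`
(elements of `(⌊y⌋, ⌊2y⌋]` satisfy `y < m ≤ 2y`), `∑ 1/m² ≤ (y+1)/y² ≤ 2/y`.

`T0`: if `|Q_v(t)| ≤ e^{-α v/V}` for all `t ∈ 𝒯`, `v ∈ [v0,v1)`, then by Cauchy–Schwarz
`|MM|² ≤ L^{-2} (v1-v0) ∑_v e^{-2αv/V} |R_v|²`, and `∑_t |R_v|² ≤ C (1 + T e^{v/V}/X)`.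
-/

namespace Pool.MRZ

open Finset

theorem Rmvt : ∃ C : ℝ, 0 < C ∧ ∀ (f : ℕ → ℂ) (T : ℕ) (y : ℝ), (∀ n, ‖f n‖ ≤ 1) → 1 ≤ T → 1 ≤ y →
    ∑ t ∈ Finset.Ioo (-(T : ℤ)) T, ‖R f y t‖ ^ 2 ≤ C * (1 + T / y) := by
  obtain ⟨C, hC, h⟩ := mvt'
  refine ⟨4 * C, by positivity, fun f T y hf hT hy => ?_⟩
  have hy0 : 0 < y := by linarith
  set S := Finset.Ioc ⌊y⌋₊ ⌊2 * y⌋₊ with hS
  have hmem : ∀ n ∈ S, y < n ∧ (n : ℝ) ≤ 2 * y := by
    intro n hn
    rw [hS, Finset.mem_Ioc] at hn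
    exact ⟨Nat.lt_of_floor_lt hn.1, (Nat.le_floor_iff (by positivity)).1 hn.2⟩
  have h1 := h T y 2 S (fun n => f n / (n : ℂ)) hT (by linarith) (by norm_num) hmem
  have hR : ∀ t : ℤ, R f y t = ∑ n ∈ S, f n / (n : ℂ) * tw (-(t : ℝ)) n := by
    intro t
    rw [R]
    refine Finset.sum_congr rfl fun n _ => ?_
    ring
  simp only [hR]
  refine h1.trans ?_
  have hsum : ∑ n ∈ S, ‖f n / (n : ℂ)‖ ^ 2 ≤ 2 / y := by
    have h2 : ∀ n ∈ S, ‖f n / (n : ℂ)‖ ^ 2 ≤ 1 / y ^ 2 := by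
      intro n hn
      have hn0 : 0 < (n : ℝ) := hy0.trans (hmem n hn).1
      rw [norm_div, Complex.norm_natCast, div_pow]
      apply div_le_div₀ (by norm_num) _ (by positivity)
        (pow_le_pow_left₀ hy0.le (hmem n hn).1.le 2)
      exact pow_le_one₀ (norm_nonneg _) (hf n)
    have h3 : (S.card : ℝ) ≤ 2 * y := by
      rw [hS, Nat.card_Ioc]
      have : ((⌊2 * y⌋₊ - ⌊y⌋₊ : ℕ) : ℝ) ≤ (⌊2 * y⌋₊ : ℝ) := by
        exact_mod_cast Nat.sub_le _ _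
      exact this.trans (Nat.floor_le (by positivity))
    calc ∑ n ∈ S, ‖f n / (n : ℂ)‖ ^ 2 ≤ ∑ _n ∈ S, 1 / y ^ 2 := Finset.sum_le_sum h2
      _ = S.card * (1 / y ^ 2) := by rw [Finset.sum_const, nsmul_eq_mul]
      _ ≤ 2 * y * (1 / y ^ 2) := mul_le_mul_of_nonneg_right h3 (by positivity)
      _ = 2 / y := by field_simp
  have hlog : Real.log 2 ≤ 1 := by
    have := Real.log_le_sub_one_of_pos (show (0 : ℝ) < 2 by norm_num)
    linarith
  have hT0 : (0 : ℝ) ≤ T := Nat.cast_nonneg _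
  have hlog0 : 0 ≤ Real.log 2 := Real.log_nonneg (by norm_num)
  calc C * (T * (1 + Real.log 2) + 2 * y) * ∑ n ∈ S, ‖f n / (n : ℂ)‖ ^ 2
      ≤ C * (T * (1 + Real.log 2) + 2 * y) * (2 / y) :=
        mul_le_mul_of_nonneg_left hsum (by positivity)
    _ ≤ C * (T * 2 + 2 * y) * (2 / y) := by
        apply mul_le_mul_of_nonneg_right _ (by positivity)
        apply mul_le_mul_of_nonneg_left _ hC.le
        have := mul_le_mul_of_nonneg_left hlog hT0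
        linarith
    _ = 4 * C * (1 + T / y) := by
        field_simp
        ring

theorem T0 : ∃ C : ℝ, 0 < C ∧ ∀ (f : ℕ → ℂ) (X T V v0 v1 : ℕ) (α : ℝ) (𝒯 : Finset ℤ),
    CM f → 1 ≤ V → v0 ≤ v1 → 1 ≤ T → 1 ≤ LL V v0 v1 → Real.exp ((v1 : ℝ) / V) ≤ X → 0 ≤ α →
    𝒯 ⊆ Finset.Ioo (-(T : ℤ)) T →
    (∀ t ∈ 𝒯, ∀ v ∈ Finset.Ico v0 v1, ‖Q f V v t‖ ≤ Real.exp (-α * ((v : ℝ) / V))) →
    ∑ t ∈ 𝒯, ‖MM f X V v0 v1 t‖ ^ 2 ≤
      C * ((v1 : ℝ) - v0) ^ 2 * Real.exp (-2 * α * ((v0 : ℝ) / V)) *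
        (1 + T * Real.exp ((v1 : ℝ) / V) / X) := by
  obtain ⟨C, hC, h⟩ := Rmvt
  refine ⟨C, hC, fun f X T V v0 v1 α 𝒯 hf hV hv hT hL hX hα hsub hQ => ?_⟩
  have hV0 : (0 : ℝ) < V := by exact_mod_cast hV
  have hX0 : (0 : ℝ) < X := (Real.exp_pos _).trans_le hX
  have hT0 : (0 : ℝ) ≤ T := Nat.cast_nonneg _
  set E := Real.exp (-2 * α * ((v0 : ℝ) / V)) with hE
  have hE0 : 0 < E := Real.exp_pos _
  -- pointwise bound
  have hpt : ∀ t ∈ 𝒯, ‖MM f X V v0 v1 t‖ ^ 2 ≤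
      ((v1 : ℝ) - v0) * ∑ v ∈ Finset.Ico v0 v1,
        E * ‖R f (X * Real.exp (-((v : ℝ) / V))) t‖ ^ 2 := by
    intro t ht
    have h1 : ‖MM f X V v0 v1 t‖ ≤
        ∑ v ∈ Finset.Ico v0 v1, ‖Q f V v t‖ * ‖R f (X * Real.exp (-((v : ℝ) / V))) t‖ := by
      rw [MM, norm_mul, norm_inv, Complex.norm_real, Real.norm_of_nonneg (by linarith)]
      calc (LL V v0 v1)⁻¹ * ‖∑ v ∈ Finset.Ico v0 v1,
            Q f V v t * R f (X * Real.exp (-((v : ℝ) / V))) t‖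
          ≤ 1 * ‖∑ v ∈ Finset.Ico v0 v1,
            Q f V v t * R f (X * Real.exp (-((v : ℝ) / V))) t‖ :=
            mul_le_mul_of_nonneg_right (inv_le_one_of_one_le₀ hL) (norm_nonneg _)
        _ = ‖∑ v ∈ Finset.Ico v0 v1,
            Q f V v t * R f (X * Real.exp (-((v : ℝ) / V))) t‖ := one_mul _
        _ ≤ ∑ v ∈ Finset.Ico v0 v1,
            ‖Q f V v t * R f (X * Real.exp (-((v : ℝ) / V))) t‖ := norm_sum_le _ _
        _ = _ := Finset.sum_congr rfl fun v _ => norm_mul _ _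
    calc ‖MM f X V v0 v1 t‖ ^ 2
        ≤ (∑ v ∈ Finset.Ico v0 v1,
            ‖Q f V v t‖ * ‖R f (X * Real.exp (-((v : ℝ) / V))) t‖) ^ 2 :=
          pow_le_pow_left₀ (norm_nonneg _) h1 2
      _ ≤ ((Finset.Ico v0 v1).card : ℝ) * ∑ v ∈ Finset.Ico v0 v1,
            (‖Q f V v t‖ * ‖R f (X * Real.exp (-((v : ℝ) / V))) t‖) ^ 2 :=
          sq_sum_le_card_mul_sum_sq
      _ = ((v1 : ℝ) - v0) * ∑ v ∈ Finset.Ico v0 v1,
            (‖Q f V v t‖ * ‖R f (X * Real.exp (-((v : ℝ) / V))) t‖) ^ 2 := by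
          rw [Nat.card_Ico, Nat.cast_sub hv]
      _ ≤ _ := by
          apply mul_le_mul_of_nonneg_left _ (by
            have : (v0 : ℝ) ≤ v1 := by exact_mod_cast hv
            linarith)
          refine Finset.sum_le_sum fun v hv' => ?_
          rw [mul_pow]
          apply mul_le_mul_of_nonneg_right _ (sq_nonneg _)
          have h2 := hQ t ht v hv'
          calc ‖Q f V v t‖ ^ 2 ≤ (Real.exp (-α * ((v : ℝ) / V))) ^ 2 :=
                pow_le_pow_left₀ (norm_nonneg _) h2 2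
            _ = Real.exp (-2 * α * ((v : ℝ) / V)) := by
                rw [← Real.exp_nat_mul]
                congr 1
                push_cast
                ring
            _ ≤ E := by
                rw [hE]
                apply Real.exp_le_exp.2
                have h3 : (v0 : ℝ) / V ≤ (v : ℝ) / V := by
                  apply div_le_div_of_nonneg_right _ hV0.le
                  exact_mod_cast (Finset.mem_Ico.1 hv').1
                have h4 := mul_le_mul_of_nonneg_left h3 hα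
                linarith
  -- mean value theorem for every block
  have hblock : ∀ v ∈ Finset.Ico v0 v1,
      ∑ t ∈ 𝒯, ‖R f (X * Real.exp (-((v : ℝ) / V))) t‖ ^ 2 ≤
        C * (1 + T * Real.exp ((v1 : ℝ) / V) / X) := by
    intro v hv'
    have hvv : (v : ℝ) / V ≤ (v1 : ℝ) / V := by
      apply div_le_div_of_nonneg_right _ hV0.le
      exact_mod_cast (Finset.mem_Ico.1 hv').2.le
    have hexp : Real.exp ((v : ℝ) / V) ≤ Real.exp ((v1 : ℝ) / V) := Real.exp_le_exp.2 hvv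
    have hy : 1 ≤ (X : ℝ) * Real.exp (-((v : ℝ) / V)) := by
      rw [Real.exp_neg, ← div_eq_mul_inv, le_div_iff₀ (Real.exp_pos _), one_mul]
      exact hexp.trans hX
    calc ∑ t ∈ 𝒯, ‖R f (X * Real.exp (-((v : ℝ) / V))) t‖ ^ 2
        ≤ ∑ t ∈ Finset.Ioo (-(T : ℤ)) T, ‖R f (X * Real.exp (-((v : ℝ) / V))) t‖ ^ 2 :=
          Finset.sum_le_sum_of_subset_of_nonneg hsub fun _ _ _ => sq_nonneg _
      _ ≤ C * (1 + T / (X * Real.exp (-((v : ℝ) / V)))) := h f T _ hf.bdd hT hy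
      _ = C * (1 + T * Real.exp ((v : ℝ) / V) / X) := by
          rw [Real.exp_neg]
          have := (Real.exp_pos ((v : ℝ) / V)).ne'
          field_simp
      _ ≤ _ := by
          apply mul_le_mul_of_nonneg_left _ hC.le
          have h5 := mul_le_mul_of_nonneg_left hexp hT0
          have h6 := div_le_div_of_nonneg_right h5 hX0.le
          linarith
  have hvr : (0 : ℝ) ≤ (v1 : ℝ) - v0 := by
    have : (v0 : ℝ) ≤ v1 := by exact_mod_cast hv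
    linarith
  calc ∑ t ∈ 𝒯, ‖MM f X V v0 v1 t‖ ^ 2
      ≤ ∑ t ∈ 𝒯, ((v1 : ℝ) - v0) * ∑ v ∈ Finset.Ico v0 v1,
        E * ‖R f (X * Real.exp (-((v : ℝ) / V))) t‖ ^ 2 := Finset.sum_le_sum hpt
    _ = ((v1 : ℝ) - v0) * ∑ v ∈ Finset.Ico v0 v1,
        E * ∑ t ∈ 𝒯, ‖R f (X * Real.exp (-((v : ℝ) / V))) t‖ ^ 2 := by
        rw [← Finset.mul_sum, Finset.sum_comm]
        simp only [Finset.mul_sum]
    _ ≤ ((v1 : ℝ) - v0) * ∑ _v ∈ Finset.Ico v0 v1,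
        E * (C * (1 + T * Real.exp ((v1 : ℝ) / V) / X)) := by
        apply mul_le_mul_of_nonneg_left _ hvr
        exact Finset.sum_le_sum fun v hv' => mul_le_mul_of_nonneg_left (hblock v hv') hE0.le
    _ = _ := by
        rw [Finset.sum_const, Nat.card_Ico, nsmul_eq_mul, Nat.cast_sub hv]
        ring

end Pool.MRZ
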