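import Mathlib
import Pool.Agent.MRZ.Moment

/-!
# MRZ/Tj: frequencies where the previous scale is large and the present scale is small

Data: previous scale `(V', r0, r1, α')`, present scale `(V, v0, v1, α)`, `0 ≤ α' ≤ α ≤ 1/2`, and every
`t ∈ 𝒯` satisfies `|Q_v(t)| ≤ e^{-α v/V}` for all `v ∈ [v0,v1)` and `|Q'_r(t)| > e^{-α' r/V'}` for some
`r ∈ [r0,r1)`. Then `∑_{t∈𝒯} |MM|² ≤ C (r1-r0) (v1-v0)² e^{-E}` if for all `v ∈ [v0,v1)`, with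
`b = v/V`, `p' = r0/V'`, `q' = r1/V'`:
`-2(α-α') b + q' + (b/p'+1)(4 + log(b/p'+2)) ≤ -E`.

Proof. Split `𝒯` according to `r` (choose one for every `t`). For fixed `r, v` put `a = r/V'`,
`b = v/V`, `ℓ = ⌈b/a⌉`, `y = X e^{-b} ≥ 1`. On `𝒯_r`: `1 ≤ (|Q'_r(t)| e^{α' a})^{2ℓ}`. So
`∑_{t∈𝒯_r} |Q_v|² |R_v|² ≤ e^{-2αb + 2α'aℓ} ∑_{|t|<T} |Q'_r^ℓ R_v|²`, and `moment` with `I = PV V' r`,
`P1 = e^a`, `P2 = e^{a+1/V'}`, `S = (⌊y⌋, ⌊2y⌋]` gives, with `N = e^{aℓ} X e^{-b} ≥ X ≥ T`,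
`Λ = 2 e^{ℓ/V'} ≤ 2 e^ℓ`, the bound `C ((1+log Λ) + Λ) Λ (ℓ+1)^ℓ ≤ 2 C Λ² (ℓ+1)^ℓ ≤ 8 C e^{2ℓ}(ℓ+1)^ℓ`
(`1 + log Λ ≤ Λ`). Here `ℓ ≤ b/a + 1 ≤ b/p' + 1`, `aℓ ≤ b + a ≤ b + q'`, so `2α'aℓ ≤ 2α'b + q'`,
`2ℓ + ℓ log(ℓ+1) ≤ (b/p'+1)(2 + log(b/p'+2))`. Finally
`|MM|² ≤ L^{-2} (v1-v0) ∑_v |Q_v|²|R_v|²`, sum over `v` and `r`.
-/

namespace Pool.MRZ

open Finset


namespace TjAux

/-- the bound of `moment` after division by `N ≥ T` -/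
theorem mom_bound {Cm ρ N T ℓ : ℝ} {k : ℕ} (hCm : 0 < Cm) (hρ : 1 ≤ ρ) (hρ2 : ρ ≤ Real.exp ℓ)
    (hTN : T ≤ N) (hN : 0 < N) (hk : (k : ℝ) = ℓ) :
    Cm * (T * (1 + Real.log (2 * ρ)) + 2 * ρ * N) * (2 * ρ) * ((k : ℝ) + 1) ^ k / N ≤
      8 * Cm * Real.exp (2 * ℓ + ℓ * Real.log (ℓ + 1)) := by
  have hℓ : 0 ≤ ℓ := by rw [← hk]; positivity
  have h1 : Real.log (2 * ρ) ≤ 2 * ρ - 1 := Real.log_le_sub_one_of_pos (by linarith)
  have h2 : 0 ≤ Real.log (2 * ρ) := Real.log_nonneg (by linarith)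
  have h3 : T * (1 + Real.log (2 * ρ)) + 2 * ρ * N ≤ (4 * ρ) * N := by
    have e1 : T * (1 + Real.log (2 * ρ)) ≤ N * (2 * ρ) :=
      mul_le_mul hTN (by linarith) (by linarith) hN.le
    linarith
  have h4 : ((k : ℝ) + 1) ^ k = Real.exp (ℓ * Real.log (ℓ + 1)) := by
    rw [hk, ← Real.rpow_natCast, hk, Real.rpow_def_of_pos (by linarith), mul_comm]
  have h5 : ρ * ρ ≤ Real.exp (2 * ℓ) := by
    have : Real.exp (2 * ℓ) = Real.exp ℓ * Real.exp ℓ := by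
      rw [← Real.exp_add]
      congr 1
      ring
    rw [this]
    exact mul_le_mul hρ2 hρ2 (by linarith) (Real.exp_pos _).le
  rw [div_le_iff₀ hN, h4, Real.exp_add]
  have hex := Real.exp_pos (ℓ * Real.log (ℓ + 1))
  calc Cm * (T * (1 + Real.log (2 * ρ)) + 2 * ρ * N) * (2 * ρ) * Real.exp (ℓ * Real.log (ℓ + 1))
      ≤ Cm * ((4 * ρ) * N) * (2 * ρ) * Real.exp (ℓ * Real.log (ℓ + 1)) := by
        apply mul_le_mul_of_nonneg_right _ hex.le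
        apply mul_le_mul_of_nonneg_right _ (by linarith)
        exact mul_le_mul_of_nonneg_left h3 hCm.le
    _ = (8 * Cm * N * Real.exp (ℓ * Real.log (ℓ + 1))) * (ρ * ρ) := by ring
    _ ≤ (8 * Cm * N * Real.exp (ℓ * Real.log (ℓ + 1))) * Real.exp (2 * ℓ) := by
        apply mul_le_mul_of_nonneg_left h5
        positivity
    _ = 8 * Cm * (Real.exp (2 * ℓ) * Real.exp (ℓ * Real.log (ℓ + 1))) * N := by ring

/-- the exponents -/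
theorem expo {a b p' q' α' α E ℓ : ℝ} (hb : 0 ≤ b) (hp : 0 < p') (hpa : p' ≤ a) (haq : a ≤ q')
    (hα0 : 0 ≤ α') (hα1 : α' ≤ 1 / 2) (hℓ0 : 0 ≤ ℓ) (hℓ2 : ℓ ≤ b / a + 1)
    (hE : -2 * (α - α') * b + q' + (b / p' + 1) * (4 + Real.log (b / p' + 2)) ≤ -E) :
    -(2 * α * b) + 2 * α' * a * ℓ + (2 * ℓ + ℓ * Real.log (ℓ + 1)) ≤ -E := by
  have ha : 0 < a := by linarith
  have h1 : b / a ≤ b / p' := div_le_div_of_nonneg_left hb hp hpa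
  have hbp : 0 ≤ b / p' := by positivity
  have h2 : a * ℓ ≤ b + a := by
    have := mul_le_mul_of_nonneg_left hℓ2 ha.le
    have e : a * (b / a + 1) = b + a := by field_simp
    linarith
  have h3 : 2 * α' * a * ℓ ≤ 2 * α' * b + q' := by
    have e1 : 2 * α' * (a * ℓ) ≤ 2 * α' * (b + a) :=
      mul_le_mul_of_nonneg_left h2 (by linarith)
    have e2 : 2 * α' * a ≤ 1 * a := mul_le_mul_of_nonneg_right (by linarith) ha.le
    linarith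
  have h4 : ℓ ≤ b / p' + 1 := by linarith
  have h5 : Real.log (ℓ + 1) ≤ Real.log (b / p' + 2) :=
    Real.log_le_log (by linarith) (by linarith)
  have h6 : 0 ≤ Real.log (ℓ + 1) := Real.log_nonneg (by linarith)
  have h7 : ℓ * (2 + Real.log (ℓ + 1)) ≤ (b / p' + 1) * (4 + Real.log (b / p' + 2)) :=
    mul_le_mul h4 (by linarith) (by linarith) (by linarith)
  linarith

theorem one_block {Cm : ℝ} (hCm : 0 < Cm)
    (hmom : ∀ (I S : Finset ℕ) (f b : ℕ → ℂ) (P1 P2 y : ℝ) (ℓ T : ℕ),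
    (∀ n, ‖f n‖ ≤ 1) → (∀ n, ‖b n‖ ≤ 1) → 1 ≤ P1 → P1 ≤ P2 → 1 / 2 ≤ y → 1 ≤ T →
    (∀ p ∈ I, p.Prime ∧ P1 < p ∧ (p : ℝ) ≤ P2) → ∑ p ∈ I, (1 : ℝ) / p ≤ 1 →
    (∀ m ∈ S, y < m ∧ (m : ℝ) ≤ 2 * y) →
    ∑ t ∈ Finset.Ioo (-(T : ℤ)) T,
      ‖(∑ p ∈ I, f p * tw (-t) p / (p : ℂ)) ^ ℓ * ∑ m ∈ S, b m * tw (-t) m / (m : ℂ)‖ ^ 2 ≤
      Cm * (T * (1 + Real.log (2 * (P2 / P1) ^ ℓ)) + 2 * (P2 / P1) ^ ℓ * (P1 ^ ℓ * y)) *
        (2 * (P2 / P1) ^ ℓ) * ((ℓ : ℝ) + 1) ^ ℓ / (P1 ^ ℓ * y))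
    {f : ℕ → ℂ} {X T V' r V v : ℕ} {α' α E p' q' : ℝ} {𝒯 : Finset ℤ} (hf : CM f)
    (hV' : 1 ≤ V') (hr : V' ≤ r) (hT : 1 ≤ T) (hTX : T ≤ X)
    (hX : Real.exp ((v : ℝ) / V) ≤ X) (hα0 : 0 ≤ α') (hα1 : α' ≤ 1 / 2)
    (hp' : 0 < p') (hpa : p' ≤ (r : ℝ) / V') (haq : (r : ℝ) / V' ≤ q')
    (hsum : ∑ p ∈ PV V' r, (1 : ℝ) / p ≤ 1) (hsub : 𝒯 ⊆ Finset.Ioo (-(T : ℤ)) T)
    (hQ : ∀ t ∈ 𝒯, ‖Q f V v t‖ ≤ Real.exp (-α * ((v : ℝ) / V)))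
    (hQ' : ∀ t ∈ 𝒯, Real.exp (-α' * ((r : ℝ) / V')) < ‖Q f V' r t‖)
    (hE : -2 * (α - α') * ((v : ℝ) / V) + q' +
        (((v : ℝ) / V) / p' + 1) * (4 + Real.log (((v : ℝ) / V) / p' + 2)) ≤ -E) :
    ∑ t ∈ 𝒯, ‖Q f V v t‖ ^ 2 * ‖R f (X * Real.exp (-((v : ℝ) / V))) t‖ ^ 2 ≤
      8 * Cm * Real.exp (-E) := by
  set a : ℝ := (r : ℝ) / V' with ha
  set b : ℝ := (v : ℝ) / V with hb
  set y : ℝ := X * Real.exp (-b) with hy
  set ℓ : ℕ := ⌈b / a⌉₊ with hℓ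
  have hV'r : (0 : ℝ) < V' := by exact_mod_cast hV'
  have ha1 : 1 ≤ a := by
    rw [ha, le_div_iff₀ hV'r, one_mul]
    exact_mod_cast hr
  have ha0 : 0 < a := by linarith
  have hb0 : 0 ≤ b := by positivity
  have hba : 0 ≤ b / a := by positivity
  have hℓ1 : b / a ≤ ℓ := Nat.le_ceil _
  have hℓ2 : (ℓ : ℝ) ≤ b / a + 1 := (Nat.ceil_lt_add_one hba).le
  have hbaℓ : b ≤ a * ℓ := by
    rw [div_le_iff₀ ha0] at hℓ1
    linarith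
  have hy1 : 1 ≤ y := by
    have h := mul_le_mul_of_nonneg_right hX (Real.exp_pos (-b)).le
    rw [← Real.exp_add, add_neg_cancel, Real.exp_zero] at h
    exact h
  have hpt : ∀ t ∈ 𝒯, ‖Q f V v t‖ ^ 2 * ‖R f y t‖ ^ 2 ≤
      Real.exp (-(2 * α * b) + 2 * α' * a * ℓ) * ‖Q f V' r t ^ ℓ * R f y t‖ ^ 2 := by
    intro t ht
    have h1 : ‖Q f V v t‖ ^ 2 ≤ Real.exp (-(2 * α * b)) := by
      have h := pow_le_pow_left₀ (norm_nonneg _) (hQ t ht) 2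
      rw [← Real.exp_nat_mul] at h
      have e : ((2 : ℕ) : ℝ) * (-α * b) = -(2 * α * b) := by push_cast; ring
      rw [e] at h
      exact h
    have h2 : 1 ≤ ‖Q f V' r t‖ * Real.exp (α' * a) := by
      have h := mul_le_mul_of_nonneg_right (hQ' t ht).le (Real.exp_pos (α' * a)).le
      rw [← Real.exp_add] at h
      have e : -α' * a + α' * a = 0 := by ring
      rw [e, Real.exp_zero] at h
      exact h
    have h3 : 1 ≤ (‖Q f V' r t‖ * Real.exp (α' * a)) ^ (2 * ℓ) := one_le_pow₀ h2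
    have h4 : (‖Q f V' r t‖ * Real.exp (α' * a)) ^ (2 * ℓ) =
        Real.exp (2 * α' * a * ℓ) * (‖Q f V' r t‖ ^ ℓ) ^ 2 := by
      rw [mul_pow, ← Real.exp_nat_mul, ← pow_mul, mul_comm ℓ 2, mul_comm]
      congr 2
      push_cast
      ring
    rw [norm_mul, norm_pow, mul_pow, Real.exp_add]
    calc ‖Q f V v t‖ ^ 2 * ‖R f y t‖ ^ 2 ≤ Real.exp (-(2 * α * b)) * ‖R f y t‖ ^ 2 :=
          mul_le_mul_of_nonneg_right h1 (by positivity)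
      _ ≤ Real.exp (-(2 * α * b)) * (((‖Q f V' r t‖ * Real.exp (α' * a)) ^ (2 * ℓ)) *
          ‖R f y t‖ ^ 2) := by
          apply mul_le_mul_of_nonneg_left _ (Real.exp_pos _).le
          exact le_mul_of_one_le_left (by positivity) h3
      _ = Real.exp (-(2 * α * b)) * Real.exp (2 * α' * a * ℓ) *
          ((‖Q f V' r t‖ ^ ℓ) ^ 2 * ‖R f y t‖ ^ 2) := by
          rw [h4]
          ring
  have hsum1 : ∑ t ∈ 𝒯, ‖Q f V v t‖ ^ 2 * ‖R f y t‖ ^ 2 ≤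
      Real.exp (-(2 * α * b) + 2 * α' * a * ℓ) *
        ∑ t ∈ Finset.Ioo (-(T : ℤ)) T, ‖Q f V' r t ^ ℓ * R f y t‖ ^ 2 := by
    refine (Finset.sum_le_sum hpt).trans ?_
    rw [← Finset.mul_sum]
    apply mul_le_mul_of_nonneg_left _ (Real.exp_pos _).le
    exact Finset.sum_le_sum_of_subset_of_nonneg hsub (fun t _ _ => by positivity)
  have hm := hmom (PV V' r) (Finset.Ioc ⌊y⌋₊ ⌊2 * y⌋₊) f f (Real.exp a)
    (Real.exp (((r : ℝ) + 1) / V')) y ℓ T hf.bdd hf.bdd (Real.one_le_exp ha0.le)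
    (Real.exp_le_exp.2 (by
      rw [ha]
      apply div_le_div_of_nonneg_right _ hV'r.le
      linarith)) (by linarith) hT
    (fun p hp => mem_PV.1 hp) hsum (fun m hm => by
      rw [Finset.mem_Ioc] at hm
      constructor
      · exact (Nat.floor_lt (by linarith)).1 hm.1
      · exact (Nat.le_floor_iff (by linarith)).1 hm.2)
  have hρ1 : Real.exp (((r : ℝ) + 1) / V') / Real.exp a = Real.exp (1 / V') := by
    rw [← Real.exp_sub]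
    congr 1
    rw [ha]
    ring
  have hV'1 : (1 : ℝ) ≤ V' := by exact_mod_cast hV'
  have hinv : (1 : ℝ) / V' ≤ 1 := by
    rw [div_le_one hV'r]
    exact hV'1
  have hinv0 : (0 : ℝ) ≤ 1 / V' := by positivity
  have hρ : 1 ≤ (Real.exp (((r : ℝ) + 1) / V') / Real.exp a) ^ ℓ := by
    rw [hρ1]
    exact one_le_pow₀ (Real.one_le_exp hinv0)
  have hρ2 : (Real.exp (((r : ℝ) + 1) / V') / Real.exp a) ^ ℓ ≤ Real.exp (ℓ : ℝ) := by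
    rw [hρ1, ← Real.exp_nat_mul]
    apply Real.exp_le_exp.2
    have : (ℓ : ℝ) * (1 / V') ≤ ℓ * 1 :=
      mul_le_mul_of_nonneg_left hinv (Nat.cast_nonneg ℓ)
    linarith
  have hXr : (0 : ℝ) < X := by
    have : 0 < X := by omega
    exact_mod_cast this
  have hN : 0 < Real.exp a ^ ℓ * y := by positivity
  have hTN : (T : ℝ) ≤ Real.exp a ^ ℓ * y := by
    have h1 : (T : ℝ) ≤ X := by exact_mod_cast hTX
    refine h1.trans ?_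
    rw [hy, ← Real.exp_nat_mul]
    have e : Real.exp (ℓ * a) * (X * Real.exp (-b)) = X * Real.exp (ℓ * a - b) := by
      rw [sub_eq_add_neg, Real.exp_add]
      ring
    rw [e]
    apply le_mul_of_one_le_right hXr.le
    apply Real.one_le_exp
    linarith
  have hb1 := mom_bound (k := ℓ) (ℓ := (ℓ : ℝ)) hCm hρ hρ2 hTN hN rfl
  have hm2 : ∑ t ∈ Finset.Ioo (-(T : ℤ)) T, ‖Q f V' r t ^ ℓ * R f y t‖ ^ 2 ≤
      8 * Cm * Real.exp (2 * ℓ + ℓ * Real.log (ℓ + 1)) := hm.trans hb1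
  refine hsum1.trans ((mul_le_mul_of_nonneg_left hm2 (Real.exp_pos _).le).trans ?_)
  have hx := expo hb0 hp' hpa haq hα0 hα1 (Nat.cast_nonneg ℓ) hℓ2 hE
  have e : Real.exp (-(2 * α * b) + 2 * α' * a * ℓ) *
      (8 * Cm * Real.exp (2 * ℓ + ℓ * Real.log (ℓ + 1))) =
      8 * Cm * Real.exp (-(2 * α * b) + 2 * α' * a * ℓ +
        (2 * ℓ + ℓ * Real.log (ℓ + 1))) := by
    rw [Real.exp_add (-(2 * α * b) + 2 * α' * a * ℓ)]
    ring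
  rw [e]
  apply mul_le_mul_of_nonneg_left _ (by linarith)
  exact Real.exp_le_exp.2 hx

/-- Cauchy-Schwarz for `MM` -/
theorem MM_sq {f : ℕ → ℂ} {X : ℝ} {V v0 v1 : ℕ} {t : ℝ} (hL : 1 ≤ LL V v0 v1) :
    ‖MM f X V v0 v1 t‖ ^ 2 ≤ ((Finset.Ico v0 v1).card : ℝ) * ∑ v ∈ Finset.Ico v0 v1,
      ‖Q f V v t‖ ^ 2 * ‖R f (X * Real.exp (-((v : ℝ) / V))) t‖ ^ 2 := by
  have h1 : ‖MM f X V v0 v1 t‖ ≤ ∑ v ∈ Finset.Ico v0 v1,
      ‖Q f V v t‖ * ‖R f (X * Real.exp (-((v : ℝ) / V))) t‖ := by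
    unfold MM
    rw [norm_mul, norm_inv, Complex.norm_real, Real.norm_eq_abs,
      abs_of_nonneg (by linarith : (0 : ℝ) ≤ LL V v0 v1)]
    have h2 : (LL V v0 v1)⁻¹ ≤ 1 := inv_le_one_of_one_le₀ hL
    calc (LL V v0 v1)⁻¹ * ‖∑ v ∈ Finset.Ico v0 v1, Q f V v t *
          R f (X * Real.exp (-((v : ℝ) / V))) t‖
        ≤ 1 * ‖∑ v ∈ Finset.Ico v0 v1, Q f V v t *
          R f (X * Real.exp (-((v : ℝ) / V))) t‖ :=
          mul_le_mul_of_nonneg_right h2 (norm_nonneg _)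
      _ ≤ ∑ v ∈ Finset.Ico v0 v1, ‖Q f V v t‖ *
          ‖R f (X * Real.exp (-((v : ℝ) / V))) t‖ := by
          rw [one_mul]
          refine (norm_sum_le _ _).trans (le_of_eq ?_)
          apply Finset.sum_congr rfl
          intro v _
          exact norm_mul _ _
  have h3 := pow_le_pow_left₀ (norm_nonneg _) h1 2
  refine h3.trans ?_
  have h4 := sq_sum_le_card_mul_sum_sq (s := Finset.Ico v0 v1)
    (f := fun v => ‖Q f V v t‖ * ‖R f (X * Real.exp (-((v : ℝ) / V))) t‖)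
  refine h4.trans (le_of_eq ?_)
  congr 1
  apply Finset.sum_congr rfl
  intro v _
  ring

end TjAux

theorem Tj : ∃ C : ℝ, 0 < C ∧ ∀ (f : ℕ → ℂ) (X T V' r0 r1 V v0 v1 : ℕ) (α' α E : ℝ) (𝒯 : Finset ℤ),
    CM f → 1 ≤ V' → 1 ≤ V → V' ≤ r0 → r0 ≤ r1 → v0 ≤ v1 → 1 ≤ T → T ≤ X → 1 ≤ LL V v0 v1 →
    Real.exp ((v1 : ℝ) / V) ≤ X → 0 ≤ α' → α' ≤ α → α ≤ 1 / 2 →
    (∀ r ∈ Finset.Ico r0 r1, ∑ p ∈ PV V' r, (1 : ℝ) / p ≤ 1) →
    𝒯 ⊆ Finset.Ioo (-(T : ℤ)) T →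
    (∀ t ∈ 𝒯, ∀ v ∈ Finset.Ico v0 v1, ‖Q f V v t‖ ≤ Real.exp (-α * ((v : ℝ) / V))) →
    (∀ t ∈ 𝒯, ∃ r ∈ Finset.Ico r0 r1, Real.exp (-α' * ((r : ℝ) / V')) < ‖Q f V' r t‖) →
    (∀ v ∈ Finset.Ico v0 v1,
      -2 * (α - α') * ((v : ℝ) / V) + (r1 : ℝ) / V' +
        (((v : ℝ) / V) / ((r0 : ℝ) / V') + 1) *
          (4 + Real.log (((v : ℝ) / V) / ((r0 : ℝ) / V') + 2)) ≤ -E) →
    ∑ t ∈ 𝒯, ‖MM f X V v0 v1 t‖ ^ 2 ≤
      C * ((r1 : ℝ) - r0) * ((v1 : ℝ) - v0) ^ 2 * Real.exp (-E) := by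
  classical
  obtain ⟨Cm, hCm, hmom⟩ := moment
  refine ⟨8 * Cm, by positivity, ?_⟩
  intro f X T V' r0 r1 V v0 v1 α' α E 𝒯 hf hV' hV hVr hr01 hv01 hT hTX hL hX hα0 hαα hα1 hsum
    hsub hQ hQ' hE
  have hV'r : (0 : ℝ) < V' := by exact_mod_cast hV'
  have hVr' : (0 : ℝ) < V := by exact_mod_cast hV
  have hp0 : (0 : ℝ) < (r0 : ℝ) / V' := by
    have : 0 < r0 := by omega
    have : (0 : ℝ) < r0 := by exact_mod_cast this
    positivity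
  -- one block
  have hblock : ∀ v ∈ Finset.Ico v0 v1,
      ∑ t ∈ 𝒯, ‖Q f V v t‖ ^ 2 * ‖R f (X * Real.exp (-((v : ℝ) / V))) t‖ ^ 2 ≤
        ((Finset.Ico r0 r1).card : ℝ) * (8 * Cm * Real.exp (-E)) := by
    intro v hv
    have hv2 := Finset.mem_Ico.1 hv
    have hXv : Real.exp ((v : ℝ) / V) ≤ X := by
      refine (Real.exp_le_exp.2 ?_).trans hX
      apply div_le_div_of_nonneg_right _ hVr'.le
      exact_mod_cast hv2.2.le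
    have h1 : ∑ t ∈ 𝒯, ‖Q f V v t‖ ^ 2 * ‖R f (X * Real.exp (-((v : ℝ) / V))) t‖ ^ 2 ≤
        ∑ r ∈ Finset.Ico r0 r1,
          ∑ t ∈ 𝒯.filter (fun t : ℤ => Real.exp (-α' * ((r : ℝ) / V')) < ‖Q f V' r t‖),
            ‖Q f V v t‖ ^ 2 * ‖R f (X * Real.exp (-((v : ℝ) / V))) t‖ ^ 2 := by
      simp only [Finset.sum_filter]
      rw [Finset.sum_comm]
      apply Finset.sum_le_sum
      intro t ht
      obtain ⟨r, hr, h⟩ := hQ' t ht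
      refine le_trans (le_of_eq ?_) (Finset.single_le_sum (fun r' _ => ?_) hr)
      · rw [if_pos h]
      · split_ifs
        · positivity
        · exact le_refl _
    refine h1.trans ((Finset.sum_le_card_nsmul _ _ (8 * Cm * Real.exp (-E)) ?_).trans
      (le_of_eq (nsmul_eq_mul _ _)))
    intro r hr
    have hr2 := Finset.mem_Ico.1 hr
    exact TjAux.one_block hCm hmom hf hV' (hVr.trans hr2.1) hT hTX hXv hα0
      (hαα.trans hα1) hp0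
      (div_le_div_of_nonneg_right (by exact_mod_cast hr2.1) hV'r.le)
      (div_le_div_of_nonneg_right (by exact_mod_cast hr2.2.le) hV'r.le)
      (hsum r hr) ((Finset.filter_subset _ _).trans hsub)
      (fun t ht => hQ t (Finset.mem_filter.1 ht).1 v hv)
      (fun t ht => (Finset.mem_filter.1 ht).2) (hE v hv)
  have h1 : ∑ t ∈ 𝒯, ‖MM f X V v0 v1 t‖ ^ 2 ≤
      ((Finset.Ico v0 v1).card : ℝ) * (((Finset.Ico v0 v1).card : ℝ) *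
        (((Finset.Ico r0 r1).card : ℝ) * (8 * Cm * Real.exp (-E)))) := by
    refine (Finset.sum_le_sum (fun t _ => TjAux.MM_sq hL)).trans ?_
    rw [← Finset.mul_sum, Finset.sum_comm]
    apply mul_le_mul_of_nonneg_left _ (Nat.cast_nonneg _)
    refine (Finset.sum_le_sum hblock).trans ?_
    rw [Finset.sum_const, nsmul_eq_mul]
  refine h1.trans (le_of_eq ?_)
  rw [Nat.card_Ico, Nat.card_Ico, Nat.cast_sub hv01, Nat.cast_sub hr01]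
  ring

end Pool.MRZ
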