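import Mathlib
import Pool.Agent.MRZ.Defs

/-!
# MRZ/KL: Kusmin–Landau inequality

`g : ℕ → ℝ`, `δ n = g(n+1) - g(n)` monotone (or antitone) for `n + 1 < N` with `θ ≤ δ n ≤ 1 - θ`,
`0 < θ ≤ 1/2`. Then `|∑_{n<N} e(g n)| ≤ 1/θ`.

Proof (classical). `N ≤ 1` trivial (`1 ≤ 2 ≤ 1/θ`). Put `C_n = 1/(1 - e(δ_n)) = (1 + i cot(π δ_n))/2`. Then
`e(g n) = C_n (e(g n) - e(g(n+1)))`, so with `K = N-1`:
`∑_{n<N} e(g n) = ∑_{n<K} C_n (e(g n) - e(g(n+1))) + e(g K)
 = C_0 e(g 0) + ∑_{1≤n<K} (C_n - C_{n-1}) e(g n) + (1 - C_{K-1}) e(g K)`,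
and `|C_n - C_{n-1}| = |cot(πδ_n) - cot(πδ_{n-1})|/2` telescopes by monotonicity, `|C_0|, |1-C_{K-1}| =
1/(2 sin πδ) ≤ 1/(2 sin πθ)`. Total `≤ (cot πθ + 1/ sin πθ) = cot(πθ/2) ≤ 2/(πθ) ≤ 1/θ`
(or cruder: `1/sin(πθ) + cot(πθ) ≤ 2/ sin(πθ) ≤ 2/(2θ) = 1/θ` with `sin(πθ) ≥ 2θ`, Jordan).
-/

set_option linter.all false

namespace Pool.MRZ

open Finset

namespace KL

/-- the cotangent -/
noncomputable def ct (δ : ℝ) : ℝ := Real.cos (Real.pi * δ) / Real.sin (Real.pi * δ)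

/-- `1 / (1 - e(δ))` -/
noncomputable def CC (δ : ℝ) : ℂ := (1 + (ct δ : ℂ) * Complex.I) / 2

theorem sin_ge {θ δ : ℝ} (h1 : θ ≤ δ) (h2 : δ ≤ 1 - θ) (hθ : 0 < θ) :
    2 * θ ≤ Real.sin (Real.pi * δ) := by
  have hpi := Real.pi_pos
  have key : ∀ x : ℝ, 0 ≤ x → x ≤ 1 / 2 → 2 * x ≤ Real.sin (Real.pi * x) := by
    intro x hx0 hx1
    have h := Real.mul_le_sin (x := Real.pi * x) (by positivity) (by nlinarith)
    have e : 2 / Real.pi * (Real.pi * x) = 2 * x := by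
      field_simp
    rw [e] at h
    exact h
  rcases le_total δ (1 / 2) with h | h
  · have := key δ (by linarith) h
    linarith
  · have h3 := key (1 - δ) (by linarith) (by linarith)
    have e : Real.pi * (1 - δ) = Real.pi - Real.pi * δ := by ring
    rw [e, Real.sin_pi_sub] at h3
    linarith

theorem CC_mul {δ : ℝ} (h : Real.sin (Real.pi * δ) ≠ 0) : CC δ * (1 - ee δ) = 1 := by
  have h1 := Real.sin_sq_add_cos_sq (Real.pi * δ)
  have e1 : Real.cos (2 * Real.pi * δ) = 1 - 2 * Real.sin (Real.pi * δ) ^ 2 := by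
    have := Real.cos_two_mul (Real.pi * δ)
    rw [← mul_assoc] at this
    rw [this]
    linarith
  have e2 : Real.sin (2 * Real.pi * δ) = 2 * Real.sin (Real.pi * δ) * Real.cos (Real.pi * δ) := by
    have := Real.sin_two_mul (Real.pi * δ)
    rw [← mul_assoc] at this
    exact this
  have e3 : ee δ = ((Real.cos (2 * Real.pi * δ) : ℝ) : ℂ) +
      ((Real.sin (2 * Real.pi * δ) : ℝ) : ℂ) * Complex.I := by
    rw [ee, Complex.exp_mul_I, Complex.ofReal_cos, Complex.ofReal_sin]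
  rw [e3, e1, e2, CC, ct]
  generalize Real.sin (Real.pi * δ) = s at *
  generalize Real.cos (Real.pi * δ) = c at *
  have hs : (s : ℂ) ≠ 0 := by exact_mod_cast h
  have h2 : (s : ℂ) ^ 2 + (c : ℂ) ^ 2 = 1 := by exact_mod_cast h1
  push_cast
  field_simp
  linear_combination (2 * (s : ℂ)) * h2 - (2 * (s : ℂ) * (c : ℂ) ^ 2) * Complex.I_sq

theorem ct_sq {δ : ℝ} (h : Real.sin (Real.pi * δ) ≠ 0) :
    1 + ct δ ^ 2 = (1 / Real.sin (Real.pi * δ)) ^ 2 := by
  have h1 := Real.sin_sq_add_cos_sq (Real.pi * δ)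
  rw [ct]
  generalize Real.sin (Real.pi * δ) = s at *
  generalize Real.cos (Real.pi * δ) = c at *
  field_simp
  linarith

theorem norm_aux (x : ℝ) : ‖(1 + (x : ℂ) * Complex.I) / 2‖ = Real.sqrt (1 + x ^ 2) / 2 := by
  rw [norm_div]
  have h1 : (1 + (x : ℂ) * Complex.I) = ((1 : ℝ) : ℂ) + (x : ℂ) * Complex.I := by simp
  rw [h1, Complex.norm_add_mul_I, one_pow]
  simp

theorem norm_CC {θ δ : ℝ} (h1 : θ ≤ δ) (h2 : δ ≤ 1 - θ) (hθ : 0 < θ) :
    ‖CC δ‖ ≤ 1 / (4 * θ) ∧ ‖1 - CC δ‖ ≤ 1 / (4 * θ) ∧ |ct δ| ≤ 1 / (2 * θ) := by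
  have hs := sin_ge h1 h2 hθ
  have hs0 : 0 < Real.sin (Real.pi * δ) := by linarith
  have hinv : 1 / Real.sin (Real.pi * δ) ≤ 1 / (2 * θ) :=
    one_div_le_one_div_of_le (by linarith) hs
  have hsq := ct_sq hs0.ne'
  have h3 : Real.sqrt (1 + ct δ ^ 2) = 1 / Real.sin (Real.pi * δ) := by
    rw [hsq, Real.sqrt_sq (by positivity)]
  have h4 : Real.sqrt (1 + ct δ ^ 2) / 2 ≤ 1 / (4 * θ) := by
    rw [h3]
    have e : 1 / (4 * θ) = 1 / (2 * θ) / 2 := by
      field_simp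
      norm_num
    rw [e]
    linarith
  refine ⟨?_, ?_, ?_⟩
  · rw [CC, norm_aux]
    exact h4
  · have e : 1 - CC δ = (1 + ((-(ct δ) : ℝ) : ℂ) * Complex.I) / 2 := by
      rw [CC]
      push_cast
      ring
    rw [e, norm_aux, neg_sq]
    exact h4
  · refine le_trans ?_ hinv
    rw [← h3]
    apply Real.abs_le_sqrt
    linarith

theorem norm_CC_sub (a b : ℝ) : ‖CC a - CC b‖ = |ct a - ct b| / 2 := by
  have e : CC a - CC b = (((ct a - ct b) / 2 : ℝ) : ℂ) * Complex.I := by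
    rw [CC, CC]
    push_cast
    ring
  rw [e, norm_mul, Complex.norm_I, mul_one, Complex.norm_real, Real.norm_eq_abs, abs_div]
  simp

theorem ct_anti {a b : ℝ} (ha : 0 < a) (hab : a ≤ b) (hb : b < 1) : ct b ≤ ct a := by
  have hpi := Real.pi_pos
  have s1 : 0 < Real.sin (Real.pi * a) :=
    Real.sin_pos_of_pos_of_lt_pi (by positivity) (by nlinarith)
  have s2 : 0 < Real.sin (Real.pi * b) :=
    Real.sin_pos_of_pos_of_lt_pi (mul_pos hpi (by linarith)) (by nlinarith)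
  have s3 : 0 ≤ Real.sin (Real.pi * b - Real.pi * a) :=
    Real.sin_nonneg_of_nonneg_of_le_pi (by nlinarith) (by nlinarith)
  rw [Real.sin_sub] at s3
  rw [ct, ct, div_le_div_iff₀ s2 s1]
  linarith

/-- the common part of both theorems -/
theorem main (N : ℕ) (g : ℕ → ℝ) (θ σ : ℝ) (hσ : σ = 1 ∨ σ = -1) (hθ : 0 < θ) (hθ2 : θ ≤ 1 / 2)
    (hd : ∀ n, n + 1 < N → θ ≤ g (n + 1) - g n ∧ g (n + 1) - g n ≤ 1 - θ)
    (hm : ∀ n, n + 2 < N → 0 ≤ σ * (ct (g (n + 1) - g n) - ct (g (n + 2) - g (n + 1)))) :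
    ‖∑ n ∈ Finset.range N, ee (g n)‖ ≤ 1 / θ := by
  rcases Nat.lt_or_ge N 2 with hN | hN
  · calc ‖∑ n ∈ Finset.range N, ee (g n)‖ ≤ ∑ n ∈ Finset.range N, ‖ee (g n)‖ :=
          norm_sum_le _ _
      _ = N := by simp
      _ ≤ 1 := by
          have : N ≤ 1 := by omega
          exact_mod_cast this
      _ ≤ 1 / θ := by
          rw [le_div_iff₀ hθ]
          linarith
  · have hC : ∀ n, n + 1 < N → ee (g n) = CC (g (n + 1) - g n) * (ee (g n) - ee (g (n + 1))) := by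
      intro n hn
      obtain ⟨h1, h2⟩ := hd n hn
      have h3 := sin_ge h1 h2 hθ
      have h4 := CC_mul (δ := g (n + 1) - g n) (by linarith)
      have h5 : ee (g (n + 1)) = ee (g n) * ee (g (n + 1) - g n) := by
        rw [← ee_add]
        congr 1
        ring
      rw [h5]
      linear_combination (-ee (g n)) * h4
    have key : ∀ k, k + 2 ≤ N →
        ‖∑ n ∈ Finset.range (k + 2), ee (g n) - (1 - CC (g (k + 1) - g k)) * ee (g (k + 1))‖ ≤
          1 / (4 * θ) + σ * (ct (g 1 - g 0) - ct (g (k + 1) - g k)) / 2 := by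
      intro k
      induction k with
      | zero =>
        intro hk
        have h1 := hC 0 (by omega)
        have e : ∑ n ∈ Finset.range (0 + 2), ee (g n) -
            (1 - CC (g (0 + 1) - g 0)) * ee (g (0 + 1)) = CC (g (0 + 1) - g 0) * ee (g 0) := by
          rw [Finset.sum_range_succ, Finset.sum_range_one]
          linear_combination h1
        rw [e, norm_mul, norm_ee, mul_one]
        obtain ⟨h2, h3⟩ := hd 0 (by omega)
        have h4 := (norm_CC h2 h3 hθ).1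
        simp only [zero_add] at h4 ⊢
        rw [sub_self, mul_zero, zero_div, add_zero]
        exact h4
      | succ k ih =>
        intro hk
        have ih' := ih (by omega)
        have h1 := hC (k + 1) (by omega)
        have e : ∑ n ∈ Finset.range (k + 1 + 2), ee (g n) -
            (1 - CC (g (k + 1 + 1) - g (k + 1))) * ee (g (k + 1 + 1)) =
            (∑ n ∈ Finset.range (k + 2), ee (g n) -
              (1 - CC (g (k + 1) - g k)) * ee (g (k + 1))) +
            (CC (g (k + 1 + 1) - g (k + 1)) - CC (g (k + 1) - g k)) * ee (g (k + 1)) := by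
          rw [show k + 1 + 2 = (k + 2) + 1 from rfl, Finset.sum_range_succ]
          linear_combination h1
        rw [e]
        refine (norm_add_le _ _).trans ?_
        rw [norm_mul, norm_ee, mul_one, norm_CC_sub]
        have h2 := hm k (by omega)
        have h3 : |ct (g (k + 1 + 1) - g (k + 1)) - ct (g (k + 1) - g k)| =
            σ * (ct (g (k + 1) - g k) - ct (g (k + 1 + 1) - g (k + 1))) := by
          have h2' : 0 ≤ σ * (ct (g (k + 1) - g k) - ct (g (k + 1 + 1) - g (k + 1))) := h2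
          rcases hσ with h | h
          · rw [h, one_mul] at h2' ⊢
            rw [abs_sub_comm, abs_of_nonneg h2']
          · rw [h] at h2' ⊢
            rw [abs_of_nonneg (by linarith)]
            ring
        rw [h3]
        linarith
    obtain ⟨k, rfl⟩ : ∃ k, N = k + 2 := ⟨N - 2, by omega⟩
    have h1 := key k le_rfl
    obtain ⟨d1, d2⟩ := hd k (by omega)
    obtain ⟨d3, d4⟩ := hd 0 (by omega)
    have h2 := norm_CC d1 d2 hθ
    have h3 := norm_CC d3 d4 hθ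
    have h4 : ‖(1 - CC (g (k + 1) - g k)) * ee (g (k + 1))‖ ≤ 1 / (4 * θ) := by
      rw [norm_mul, norm_ee, mul_one]
      exact h2.2.1
    have h5 := norm_add_le (∑ n ∈ Finset.range (k + 2), ee (g n) -
      (1 - CC (g (k + 1) - g k)) * ee (g (k + 1)))
      ((1 - CC (g (k + 1) - g k)) * ee (g (k + 1)))
    rw [sub_add_cancel] at h5
    have h6 : σ * (ct (g 1 - g 0) - ct (g (k + 1) - g k)) ≤ 1 / (2 * θ) + 1 / (2 * θ) := by
      have h7 := abs_le.mp h2.2.2
      have h8 := abs_le.mp h3.2.2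
      simp only [zero_add] at h8
      rcases hσ with h | h
      · rw [h]
        linarith [h7.1, h8.2]
      · rw [h]
        linarith [h7.2, h8.1]
    have h9 : 1 / (4 * θ) = 1 / θ / 4 := by
      field_simp
    have h10 : 1 / (2 * θ) = 1 / θ / 2 := by
      field_simp
    rw [h9] at h1 h4
    rw [h10] at h6
    linarith

end KL

theorem kusmin_landau (N : ℕ) (g : ℕ → ℝ) (θ : ℝ) (hθ : 0 < θ) (hθ2 : θ ≤ 1 / 2)
    (hd : ∀ n, n + 1 < N → θ ≤ g (n + 1) - g n ∧ g (n + 1) - g n ≤ 1 - θ)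
    (hm : ∀ n, n + 2 < N → g (n + 1) - g n ≤ g (n + 2) - g (n + 1)) :
    ‖∑ n ∈ Finset.range N, ee (g n)‖ ≤ 1 / θ := by
  apply KL.main N g θ 1 (Or.inl rfl) hθ hθ2 hd
  intro n hn
  have h1 := hd n (by omega)
  have h2 := hd (n + 1) hn
  have h3 := KL.ct_anti (by linarith [h1.1]) (hm n hn)
    (by have := h2.2; have e : g (n + 2) - g (n + 1) = g (n + 1 + 1) - g (n + 1) := rfl
        rw [e]; linarith)
  linarith

/-- antitone version (reverse the order of summation and conjugate) -/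
theorem kusmin_landau' (N : ℕ) (g : ℕ → ℝ) (θ : ℝ) (hθ : 0 < θ) (hθ2 : θ ≤ 1 / 2)
    (hd : ∀ n, n + 1 < N → θ ≤ g (n + 1) - g n ∧ g (n + 1) - g n ≤ 1 - θ)
    (hm : ∀ n, n + 2 < N → g (n + 2) - g (n + 1) ≤ g (n + 1) - g n) :
    ‖∑ n ∈ Finset.range N, ee (g n)‖ ≤ 1 / θ := by
  apply KL.main N g θ (-1) (Or.inr rfl) hθ hθ2 hd
  intro n hn
  have h1 := hd n (by omega)
  have h2 := hd (n + 1) hn
  have h4 : θ ≤ g (n + 2) - g (n + 1) := h2.1
  have h3 := KL.ct_anti (by linarith) (hm n hn) (by linarith [h1.2])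
  linarith

end Pool.MRZ
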