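import Mathlib
import Pool.Agent.MRZ.Defs

/-!
# MRZ/VdC: van der Corput's inequality

For `|z_n| ≤ 1`, `1 ≤ H ≤ N`:
`|∑_{n<N} z_n|² ≤ 2N²/H + (4N/H) ∑_{1≤h<H} |∑_{n<N-h} z_{n+h} conj z_n|`.

Proof. Extend `z` by `0` outside `[0,N)`. `H ∑ z_n = ∑_{m} ∑_{h<H} z_{m-h}` (`m` runs over `N+H-1` values),
Cauchy–Schwarz: `H² |∑ z|² ≤ (N+H) ∑_m |∑_{h<H} z_{m-h}|² = (N+H) ∑_{|h|<H} (H-|h|) S_h`,
`S_h = ∑ z_{n+h} conj z_n`, `S_{-h} = conj S_h`, `|S_0| ≤ N`; `N + H ≤ 2N`.
(See also `Pool/Agent/PolyMax/Vdc.lean`, `Pool/Agent/Lib/Weyl.lean` on main for similar statements.)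
-/

namespace Pool.MRZ

open Finset

namespace VdCAux

/-- the shifted, cut off sequence -/
noncomputable def w (N : ℕ) (z : ℕ → ℂ) (m h : ℕ) : ℂ := if h ≤ m ∧ m - h < N then z (m - h) else 0

/-- the correlations -/
noncomputable def co (N : ℕ) (z : ℕ → ℂ) (d : ℕ) : ℂ :=
  ∑ n ∈ Finset.range (N - d), z (n + d) * (starRingEnd ℂ) (z n)

theorem sum_w (N H : ℕ) (z : ℕ → ℂ) (h : ℕ) (hh : h < H) :
    ∑ m ∈ range (N + H), w N z m h = ∑ n ∈ range N, z n := by
  have h1 : ∑ m ∈ (range N).map (addRightEmbedding h), w N z m h =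
      ∑ m ∈ range (N + H), w N z m h := by
    apply sum_subset
    · intro m hm
      rw [mem_map] at hm
      obtain ⟨n, hn, rfl⟩ := hm
      rw [mem_range] at hn ⊢
      simp only [addRightEmbedding_apply]
      omega
    · intro m _ hm
      unfold w
      rw [if_neg]
      rintro ⟨h2, h3⟩
      apply hm
      rw [mem_map]
      exact ⟨m - h, mem_range.2 h3, by simp only [addRightEmbedding_apply]; omega⟩
  rw [← h1, sum_map]
  apply sum_congr rfl
  intro n hn
  rw [mem_range] at hn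
  simp only [addRightEmbedding_apply]
  unfold w
  rw [if_pos ⟨by omega, by omega⟩]
  congr 1
  omega

theorem sum_ww (N H : ℕ) (z : ℕ → ℂ) (h k : ℕ) (hk : k < H) (hhk : h ≤ k) :
    ∑ m ∈ range (N + H), w N z m h * (starRingEnd ℂ) (w N z m k) = co N z (k - h) := by
  have h1 : ∑ m ∈ (range (N - (k - h))).map (addRightEmbedding k),
      w N z m h * (starRingEnd ℂ) (w N z m k) =
      ∑ m ∈ range (N + H), w N z m h * (starRingEnd ℂ) (w N z m k) := by
    apply sum_subset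
    · intro m hm
      rw [mem_map] at hm
      obtain ⟨n, hn, rfl⟩ := hm
      rw [mem_range] at hn ⊢
      simp only [addRightEmbedding_apply]
      omega
    · intro m _ hm
      unfold w
      by_cases h2 : h ≤ m ∧ m - h < N
      · rw [if_neg (c := k ≤ m ∧ m - k < N), map_zero, mul_zero]
        rintro ⟨h3, h4⟩
        apply hm
        rw [mem_map]
        exact ⟨m - k, mem_range.2 (by omega), by simp only [addRightEmbedding_apply]; omega⟩
      · rw [if_neg h2, zero_mul]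
  rw [← h1, sum_map]
  unfold co
  apply sum_congr rfl
  intro n hn
  rw [mem_range] at hn
  simp only [addRightEmbedding_apply]
  unfold w
  rw [if_pos ⟨by omega, by omega⟩, if_pos ⟨by omega, by omega⟩]
  congr 2
  · omega
  · congr 1
    omega

theorem norm_sum_ww (N H : ℕ) (z : ℕ → ℂ) (h k : ℕ) (hh : h < H) (hk : k < H) :
    ‖∑ m ∈ range (N + H), w N z m h * (starRingEnd ℂ) (w N z m k)‖ =
      ‖co N z ((h - k) + (k - h))‖ := by
  rcases le_total h k with h1 | h1
  · rw [sum_ww N H z h k hk h1]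
    congr 2
    omega
  · have h2 : ∑ m ∈ range (N + H), w N z m h * (starRingEnd ℂ) (w N z m k) =
        (starRingEnd ℂ) (∑ m ∈ range (N + H), w N z m k * (starRingEnd ℂ) (w N z m h)) := by
      rw [map_sum]
      apply sum_congr rfl
      intro m _
      rw [map_mul, Complex.conj_conj, mul_comm]
    rw [h2, RCLike.norm_conj, sum_ww N H z k h hh h1]
    congr 2
    omega

theorem sum_dist (H : ℕ) (g : ℕ → ℝ) (hg : ∀ d, 0 ≤ g d) (h : ℕ) (hh : h < H) :
    ∑ k ∈ range H, g ((h - k) + (k - h)) ≤ g 0 + 2 * ∑ d ∈ Ico 1 H, g d := by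
  have h1 : range H = (Ico 0 h ∪ {h}) ∪ Ico (h + 1) H := by
    ext k
    simp only [mem_range, mem_union, mem_Ico, mem_singleton]
    omega
  have hd1 : Disjoint (Ico 0 h ∪ {h}) (Ico (h + 1) H) := by
    rw [disjoint_left]
    intro k hk hk'
    simp only [mem_union, mem_Ico, mem_singleton] at hk hk'
    omega
  have hd2 : Disjoint (Ico 0 h) {h} := by
    rw [disjoint_left]
    intro k hk hk'
    simp only [mem_Ico, mem_singleton] at hk hk'
    omega
  rw [h1, sum_union hd1, sum_union hd2, sum_singleton]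
  have e0 : h - h + (h - h) = 0 := by omega
  rw [e0]
  have e1 : ∑ k ∈ Ico 0 h, g ((h - k) + (k - h)) ≤ ∑ d ∈ Ico 1 H, g d := by
    have : ∑ k ∈ Ico 0 h, g ((h - k) + (k - h)) = ∑ d ∈ (Ico 0 h).image (fun k => h - k), g d := by
      rw [sum_image]
      · apply sum_congr rfl
        intro k hk
        rw [mem_Ico] at hk
        congr 1
        omega
      · intro a ha b hb hab
        simp only [coe_Ico, Set.mem_Ico] at ha hb hab
        omega
    rw [this]
    apply sum_le_sum_of_subset_of_nonneg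
    · intro d hd
      rw [mem_image] at hd
      obtain ⟨k, hk, rfl⟩ := hd
      rw [mem_Ico] at hk ⊢
      omega
    · intro d _ _
      exact hg d
  have e2 : ∑ k ∈ Ico (h + 1) H, g ((h - k) + (k - h)) ≤ ∑ d ∈ Ico 1 H, g d := by
    have : ∑ k ∈ Ico (h + 1) H, g ((h - k) + (k - h)) =
        ∑ d ∈ (Ico (h + 1) H).image (fun k => k - h), g d := by
      rw [sum_image]
      · apply sum_congr rfl
        intro k hk
        rw [mem_Ico] at hk
        congr 1
        omega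
      · intro a ha b hb hab
        simp only [coe_Ico, Set.mem_Ico] at ha hb hab
        omega
    rw [this]
    apply sum_le_sum_of_subset_of_nonneg
    · intro d hd
      rw [mem_image] at hd
      obtain ⟨k, hk, rfl⟩ := hd
      rw [mem_Ico] at hk ⊢
      omega
    · intro d _ _
      exact hg d
  linarith

theorem normsq_sum (s : Finset ℕ) (f : ℕ → ℂ) :
    ((‖∑ h ∈ s, f h‖ ^ 2 : ℝ) : ℂ) = ∑ h ∈ s, ∑ k ∈ s, f h * (starRingEnd ℂ) (f k) := by
  rw [← sum_mul_sum, ← map_sum, Complex.mul_conj, Complex.normSq_eq_norm_sq]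

end VdCAux

open VdCAux
theorem vdc (N H : ℕ) (z : ℕ → ℂ) (hH : 1 ≤ H) (hHN : H ≤ N) (hz : ∀ n, ‖z n‖ ≤ 1) :
    ‖∑ n ∈ Finset.range N, z n‖ ^ 2 ≤ 2 * (N : ℝ) ^ 2 / H +
      4 * N / H * ∑ h ∈ Finset.Ico 1 H,
        ‖∑ n ∈ Finset.range (N - h), z (n + h) * (starRingEnd ℂ) (z n)‖ := by
  have hHR : (0 : ℝ) < H := by exact_mod_cast (by omega : 0 < H)
  have hHN' : (H : ℝ) ≤ N := by exact_mod_cast hHN
  set S := ∑ n ∈ Finset.range N, z n with hS
  set T := ∑ h ∈ Finset.Ico 1 H, ‖co N z h‖ with hT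
  have hT0 : 0 ≤ T := sum_nonneg fun _ _ => norm_nonneg _
  change ‖S‖ ^ 2 ≤ 2 * (N : ℝ) ^ 2 / H + 4 * N / H * T
  -- the double sum
  have h1 : (H : ℂ) * S = ∑ m ∈ range (N + H), ∑ h ∈ range H, w N z m h := by
    rw [sum_comm, sum_congr rfl (fun h hh => sum_w N H z h (mem_range.1 hh)), sum_const, card_range,
      nsmul_eq_mul]
  have h2 : (H : ℝ) * ‖S‖ ≤ ∑ m ∈ range (N + H), ‖∑ h ∈ range H, w N z m h‖ := by
    calc (H : ℝ) * ‖S‖ = ‖(H : ℂ) * S‖ := by rw [norm_mul, Complex.norm_natCast]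
      _ ≤ _ := by rw [h1]; exact norm_sum_le _ _
  have h3 : (∑ m ∈ range (N + H), ‖∑ h ∈ range H, w N z m h‖) ^ 2 ≤
      ((N + H : ℕ) : ℝ) * ∑ m ∈ range (N + H), ‖∑ h ∈ range H, w N z m h‖ ^ 2 := by
    have := sq_sum_le_card_mul_sum_sq (s := range (N + H)) (f := fun m => ‖∑ h ∈ range H, w N z m h‖)
    rwa [card_range] at this
  have h4 : ∑ m ∈ range (N + H), ‖∑ h ∈ range H, w N z m h‖ ^ 2 ≤
      ∑ h ∈ range H, ∑ k ∈ range H, ‖co N z ((h - k) + (k - h))‖ := by
    have h5 : ((∑ m ∈ range (N + H), ‖∑ h ∈ range H, w N z m h‖ ^ 2 : ℝ) : ℂ) =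
        ∑ h ∈ range H, ∑ k ∈ range H, ∑ m ∈ range (N + H),
          w N z m h * (starRingEnd ℂ) (w N z m k) := by
      rw [Complex.ofReal_sum, sum_congr rfl (fun m _ => normsq_sum (range H) (fun h => w N z m h)),
        sum_comm]
      apply sum_congr rfl
      intro h _
      rw [sum_comm]
    have h6 : ∑ m ∈ range (N + H), ‖∑ h ∈ range H, w N z m h‖ ^ 2 =
        ‖((∑ m ∈ range (N + H), ‖∑ h ∈ range H, w N z m h‖ ^ 2 : ℝ) : ℂ)‖ := by
      rw [Complex.norm_real, Real.norm_of_nonneg]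
      exact sum_nonneg fun _ _ => sq_nonneg _
    rw [h6, h5]
    refine (norm_sum_le _ _).trans (sum_le_sum fun h hh => ?_)
    refine (norm_sum_le _ _).trans (sum_le_sum fun k hk => ?_)
    rw [norm_sum_ww N H z h k (mem_range.1 hh) (mem_range.1 hk)]
  have h7 : ‖co N z 0‖ ≤ N := by
    unfold co
    refine (norm_sum_le _ _).trans ?_
    refine (sum_le_sum (g := fun _ => (1 : ℝ)) fun n _ => ?_).trans ?_
    · rw [norm_mul, RCLike.norm_conj]
      exact mul_le_one₀ (hz _) (norm_nonneg _) (hz _)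
    · simp
  have h8 : ∑ h ∈ range H, ∑ k ∈ range H, ‖co N z ((h - k) + (k - h))‖ ≤
      H * (N + 2 * T) := by
    calc ∑ h ∈ range H, ∑ k ∈ range H, ‖co N z ((h - k) + (k - h))‖
        ≤ ∑ h ∈ range H, ((N : ℝ) + 2 * T) := by
          refine sum_le_sum fun h hh => ?_
          refine (sum_dist H (fun d => ‖co N z d‖) (fun _ => norm_nonneg _) h
            (mem_range.1 hh)).trans ?_
          rw [← hT]
          linarith
      _ = H * (N + 2 * T) := by rw [sum_const, card_range, nsmul_eq_mul]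
  have h9 : ((H : ℝ) * ‖S‖) ^ 2 ≤ (2 * N) * (H * (N + 2 * T)) := by
    calc ((H : ℝ) * ‖S‖) ^ 2 ≤ (∑ m ∈ range (N + H), ‖∑ h ∈ range H, w N z m h‖) ^ 2 :=
          pow_le_pow_left₀ (by positivity) h2 2
      _ ≤ _ := h3
      _ ≤ ((N + H : ℕ) : ℝ) * (H * (N + 2 * T)) :=
          mul_le_mul_of_nonneg_left (h4.trans h8) (Nat.cast_nonneg _)
      _ ≤ (2 * N) * (H * (N + 2 * T)) := by
          apply mul_le_mul_of_nonneg_right
          · push_cast; linarith
          · positivity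
  have h10 : ‖S‖ ^ 2 * H ≤ 2 * N ^ 2 + 4 * N * T := by
    have : (‖S‖ ^ 2 * H) * H ≤ (2 * N ^ 2 + 4 * N * T) * H := by nlinarith
    exact le_of_mul_le_mul_right this hHR
  calc ‖S‖ ^ 2 = ‖S‖ ^ 2 * H / H := by field_simp
    _ ≤ (2 * N ^ 2 + 4 * N * T) / H := by
        apply div_le_div_of_nonneg_right h10 hHR.le
    _ = 2 * (N : ℝ) ^ 2 / H + 4 * N / H * T := by ring

end Pool.MRZ
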