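import Mathlib
import Pool.Agent.MRZ.KL
import Pool.Agent.MRZ.VdC

/-!
# MRZ/DiffLog: differenced logarithms and Kusmin–Landau

For a list of shifts `hs = [h_1,…,h_R]` (positive reals) let
`D [] F x = F x`, `D (h :: hs) F x = D hs F (x + h) - D hs F x` (finite differences).
For `F = log` and `x > 0`: `D hs log x = (-1)^{R-1}·(positive)` for `R ≥ 1`; what is needed:

`dlog_step`: with `R = hs.length`, `G x = D hs log (x+1) - D hs log x` (one more unit difference):
(i) the sign of `G` is `(-1)^R` (constant), `G` is monotone or antitone: `(-1)^R G` is antitone,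
(ii) `R! (∏h) (x + 1 + ∑h)^{-(R+1)} ≤ (-1)^R G x ≤ R! (∏h) x^{-(R+1)}` for `x > 0`.

Proof. By induction on the list: for a smooth `F`, `D (h::hs) F x = ∫_0^h (D hs F') (x+s) ds`
(`D` commutes with derivatives); so if `m ≤ (-1)^R F^{(R+1)} ≤ M` on `[x, x+1+∑h]` then
`m ∏h ≤ (-1)^R D (1::hs) F x ≤ M ∏h` (mean value theorem `R+1` times; note the extra difference is the
shift `1`). `log^{(R+1)}(x) = (-1)^R R! x^{-(R+1)}`. Monotonicity: the derivative of `G` is
`D (1::hs) (1/x)`, whose sign is `(-1)^{R+1}` by the same estimate for `R+2` derivatives.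

`kl_dlog`: Let `u > 0`, `x ≥ 1`, `M ≤ x`, shifts `h_i ≥ 1` with `∑ h_i ≤ x`, and
`(u/2π) R! (∏h) x^{-(R+1)} ≤ 1/2`. Then
`|∑_{m<M} exp(i u D hs log (x+m))| ≤ C_R x^{R+1}/(u ∏h)`.
Proof: Kusmin–Landau for `g(m) = ±(u/2π) D hs log (x+m)` (sign `(-1)^R`, conjugate if odd); the differences
lie in `[θ, 1/2]`, `θ = (u/2π) R! ∏h (4x)^{-(R+1)}` (`x + m + 1 + ∑h ≤ 4x`), antitone; if `θ > 1/2` impossible.
-/

namespace Pool.MRZ

open Finset

/-- iterated finite differences -/
noncomputable def dd : List ℝ → (ℝ → ℝ) → ℝ → ℝ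
  | [], F, x => F x
  | h :: hs, F, x => dd hs F (x + h) - dd hs F x

/-- iterated finite differences commute with derivatives -/
theorem dd_hasDerivAt {F F' : ℝ → ℝ} (hF : ∀ y, 0 < y → HasDerivAt F (F' y) y) (hs : List ℝ) :
    (∀ h ∈ hs, 0 < h) → ∀ y, 0 < y → HasDerivAt (dd hs F) (dd hs F' y) y := by
  induction hs with
  | nil => exact fun _ y hy => hF y hy
  | cons h hs ih =>
    intro hpos y hy
    have hh : 0 < h := hpos h (by simp)
    have ih' := ih (fun a ha => hpos a (by simp [ha]))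
    have h1 := ih' (y + h) (by linarith)
    have h2 := ih' y hy
    have h3 : HasDerivAt (fun z => dd hs F (z + h)) (dd hs F' (y + h)) y := by
      have h4 := HasDerivAt.comp_add_const y h h1
      exact h4
    exact h3.sub h2

/-- the mean value theorem for iterated differences -/
theorem dd_mvt {f : ℕ → ℝ → ℝ} (hf : ∀ k, ∀ y, 0 < y → HasDerivAt (f k) (f (k + 1) y) y)
    (hs : List ℝ) : (∀ h ∈ hs, 0 < h) → ∀ (k : ℕ) (x : ℝ), 0 < x →
      ∃ ξ, x ≤ ξ ∧ ξ ≤ x + hs.sum ∧ dd hs (f k) x = hs.prod * f (k + hs.length) ξ := by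
  induction hs with
  | nil =>
    intro _ k x hx
    exact ⟨x, le_rfl, by simp, by simp [dd]⟩
  | cons h hs ih =>
    intro hpos k x hx
    have hh : 0 < h := hpos h (by simp)
    have hpos' : ∀ a ∈ hs, 0 < a := fun a ha => hpos a (by simp [ha])
    obtain ⟨c, ⟨hc1, hc2⟩, hc3⟩ := exists_hasDerivAt_eq_slope (dd hs (f k))
      (dd hs (f (k + 1))) (show x < x + h by linarith)
      (fun y hy => (dd_hasDerivAt (hf k) hs hpos' y (lt_of_lt_of_le hx hy.1)).continuousAt.continuousWithinAt)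
      (fun y hy => dd_hasDerivAt (hf k) hs hpos' y (lt_trans hx hy.1))
    obtain ⟨ξ, h1, h2, h3⟩ := ih hpos' (k + 1) c (lt_trans hx hc1)
    refine ⟨ξ, by linarith, by rw [List.sum_cons]; linarith, ?_⟩
    have e : dd (h :: hs) (f k) x = dd hs (f k) (x + h) - dd hs (f k) x := rfl
    rw [e, List.prod_cons, List.length_cons]
    have h4 : x + h - x = h := by ring
    rw [h4, eq_div_iff hh.ne', h3] at hc3
    rw [← hc3, show k + (hs.length + 1) = k + 1 + hs.length by ring]
    ring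

/-- the derivatives of the logarithm -/
noncomputable def lg : ℕ → ℝ → ℝ
  | 0, x => Real.log x
  | k + 1, x => (-1) ^ k * (k.factorial : ℝ) * x⁻¹ ^ (k + 1)

theorem lg_deriv : ∀ k, ∀ y : ℝ, 0 < y → HasDerivAt (lg k) (lg (k + 1) y) y := by
  intro k y hy
  cases k with
  | zero =>
    have h := Real.hasDerivAt_log hy.ne'
    have e : lg (0 + 1) y = y⁻¹ := by simp [lg]
    rw [e]
    exact h
  | succ k =>
    have h1 := hasDerivAt_inv hy.ne'
    have h2 := (h1.pow (k + 1)).const_mul ((-1) ^ k * (k.factorial : ℝ))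
    have e : lg (k + 1 + 1) y =
        (-1) ^ k * (k.factorial : ℝ) * (((k + 1 : ℕ) : ℝ) * y⁻¹ ^ (k + 1 - 1) * -(y ^ 2)⁻¹) := by
      have e1 : lg (k + 1 + 1) y =
        (-1) ^ (k + 1) * ((k + 1).factorial : ℝ) * y⁻¹ ^ (k + 1 + 1) := rfl
      rw [e1, Nat.factorial_succ, Nat.cast_mul, Nat.add_sub_cancel, pow_succ (-1 : ℝ),
        pow_succ y⁻¹ (k + 1), pow_succ y⁻¹ k, ← inv_pow]
      ring
    rw [e]
    exact h2

theorem prod_pos' (hs : List ℝ) (hpos : ∀ h ∈ hs, 0 < h) : 0 < hs.prod :=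
  List.prod_pos hpos

theorem neg_one_pow_mul_self (R : ℕ) : (-1 : ℝ) ^ R * (-1) ^ R = 1 := by
  rw [← mul_pow]
  norm_num

/-- the exact form of the differenced logarithm -/
theorem dlog_exact (hs : List ℝ) (hpos : ∀ h ∈ hs, 0 < h) (x : ℝ) (hx : 0 < x) :
    ∃ ξ, x ≤ ξ ∧ ξ ≤ x + 1 + hs.sum ∧
      (-1) ^ hs.length * (dd hs Real.log (x + 1) - dd hs Real.log x) =
        (hs.length.factorial : ℝ) * hs.prod * ξ⁻¹ ^ (hs.length + 1) := by
  have hpos' : ∀ h ∈ (1 :: hs), 0 < h := by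
    intro a ha
    rcases List.mem_cons.mp ha with rfl | ha
    · exact one_pos
    · exact hpos a ha
  obtain ⟨ξ, h1, h2, h3⟩ := dd_mvt lg_deriv (1 :: hs) hpos' 0 x hx
  refine ⟨ξ, h1, ?_, ?_⟩
  · rw [List.sum_cons] at h2
    linarith
  · have e : dd (1 :: hs) (lg 0) x = dd hs Real.log (x + 1) - dd hs Real.log x := rfl
    rw [e, List.prod_cons, List.length_cons, Nat.zero_add] at h3
    have e2 : lg (hs.length + 1) ξ =
      (-1) ^ hs.length * (hs.length.factorial : ℝ) * ξ⁻¹ ^ (hs.length + 1) := rfl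
    rw [h3, e2]
    calc _ = ((-1 : ℝ) ^ hs.length * (-1) ^ hs.length) *
          ((hs.length.factorial : ℝ) * hs.prod * ξ⁻¹ ^ (hs.length + 1)) := by ring
      _ = _ := by rw [neg_one_pow_mul_self, one_mul]

theorem dlog_step (hs : List ℝ) (hpos : ∀ h ∈ hs, 0 < h) (x : ℝ) (hx : 0 < x) :
    (hs.length.factorial : ℝ) * hs.prod * (x + 1 + hs.sum)⁻¹ ^ (hs.length + 1) ≤
        (-1) ^ hs.length * (dd hs Real.log (x + 1) - dd hs Real.log x) ∧
      (-1) ^ hs.length * (dd hs Real.log (x + 1) - dd hs Real.log x) ≤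
        (hs.length.factorial : ℝ) * hs.prod * x⁻¹ ^ (hs.length + 1) := by
  obtain ⟨ξ, h1, h2, h3⟩ := dlog_exact hs hpos x hx
  have hξ : 0 < ξ := lt_of_lt_of_le hx h1
  have hP : 0 ≤ (hs.length.factorial : ℝ) * hs.prod :=
    mul_nonneg (Nat.cast_nonneg _) (prod_pos' hs hpos).le
  rw [h3]
  constructor
  · apply mul_le_mul_of_nonneg_left _ hP
    apply pow_le_pow_left₀ (inv_nonneg.mpr (by linarith))
    exact inv_anti₀ hξ h2
  · apply mul_le_mul_of_nonneg_left _ hP
    apply pow_le_pow_left₀ (inv_nonneg.mpr hξ.le)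
    exact inv_anti₀ hx h1

theorem dlog_anti (hs : List ℝ) (hpos : ∀ h ∈ hs, 0 < h) (x x' : ℝ) (hx : 0 < x) (hxx : x ≤ x') :
    (-1) ^ hs.length * (dd hs Real.log (x' + 1) - dd hs Real.log x') ≤
      (-1) ^ hs.length * (dd hs Real.log (x + 1) - dd hs Real.log x) := by
  rcases hxx.eq_or_lt with rfl | hlt
  · exact le_rfl
  have hh : 0 < x' - x := by linarith
  have hpos' : ∀ h ∈ ((x' - x) :: 1 :: hs), 0 < h := by
    intro a ha
    rcases List.mem_cons.mp ha with rfl | ha
    · exact hh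
    rcases List.mem_cons.mp ha with rfl | ha
    · exact one_pos
    · exact hpos a ha
  obtain ⟨ξ, h1, h2, h3⟩ := dd_mvt lg_deriv ((x' - x) :: 1 :: hs) hpos' 0 x hx
  have hξ : 0 < ξ := lt_of_lt_of_le hx h1
  have e : dd ((x' - x) :: 1 :: hs) (lg 0) x =
      (dd hs Real.log (x + (x' - x) + 1) - dd hs Real.log (x + (x' - x))) -
        (dd hs Real.log (x + 1) - dd hs Real.log x) := rfl
  rw [e, List.prod_cons, List.prod_cons, List.length_cons, List.length_cons, Nat.zero_add,
    show x + (x' - x) = x' by ring] at h3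
  have e2 : lg (hs.length + 1 + 1) ξ =
    (-1) ^ (hs.length + 1) * ((hs.length + 1).factorial : ℝ) * ξ⁻¹ ^ (hs.length + 1 + 1) := rfl
  rw [e2] at h3
  have h4 : (-1 : ℝ) ^ hs.length * ((dd hs Real.log (x' + 1) - dd hs Real.log x') -
        (dd hs Real.log (x + 1) - dd hs Real.log x)) =
      -((x' - x) * hs.prod * ((hs.length + 1).factorial : ℝ) * ξ⁻¹ ^ (hs.length + 1 + 1)) := by
    rw [h3, pow_succ (-1 : ℝ) hs.length]
    calc _ = -(((-1 : ℝ) ^ hs.length * (-1) ^ hs.length) *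
          ((x' - x) * hs.prod * ((hs.length + 1).factorial : ℝ) *
            ξ⁻¹ ^ (hs.length + 1 + 1))) := by ring
      _ = _ := by rw [neg_one_pow_mul_self, one_mul]
  have h5 : 0 ≤ (x' - x) * hs.prod * ((hs.length + 1).factorial : ℝ) *
      ξ⁻¹ ^ (hs.length + 1 + 1) := by
    have := prod_pos' hs hpos
    positivity
  linarith

/-- the norm is not changed by a sign in the phase -/
theorem norm_sum_ee_sign (r M : ℕ) (D : ℕ → ℝ) (u : ℝ) :
    ‖∑ m ∈ Finset.range M, ee ((-1) ^ r * (u / (2 * Real.pi) * D m))‖ =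
      ‖∑ m ∈ Finset.range M, Complex.exp (((u * D m : ℝ) : ℂ) * Complex.I)‖ := by
  have hpi : (2 * Real.pi) ≠ 0 := by positivity
  rcases neg_one_pow_eq_or ℝ r with h | h
  · rw [h]
    congr 1
    apply Finset.sum_congr rfl
    intro m _
    unfold ee
    congr 2
    congr 1
    field_simp
  · rw [h, ← RCLike.norm_conj (∑ m ∈ Finset.range M, Complex.exp (((u * D m : ℝ) : ℂ) * Complex.I)),
      map_sum]
    congr 1
    apply Finset.sum_congr rfl
    intro m _
    unfold ee
    rw [← Complex.exp_conj, map_mul, Complex.conj_I, Complex.conj_ofReal]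
    congr 1
    have : 2 * Real.pi * (-1 * (u / (2 * Real.pi) * D m)) = -(u * D m) := by
      field_simp
    rw [this]
    push_cast
    ring

theorem kl_dlog (r : ℕ) : ∃ C : ℝ, 0 < C ∧ ∀ (hs : List ℝ) (x u : ℝ) (M : ℕ), hs.length = r →
    (∀ h ∈ hs, 1 ≤ h) → 1 ≤ x → hs.sum ≤ x → (M : ℝ) ≤ x → 0 < u →
    u / (2 * Real.pi) * (r.factorial * hs.prod * x⁻¹ ^ (r + 1)) ≤ 1 / 2 →
    ‖∑ m ∈ Finset.range M, Complex.exp (((u * dd hs Real.log (x + m) : ℝ) : ℂ) * Complex.I)‖ ≤
      C * x ^ (r + 1) / (u * hs.prod) := by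
  have hpi := Real.pi_pos
  have hfac : 0 < (r.factorial : ℝ) := Nat.cast_pos.mpr r.factorial_pos
  refine ⟨2 * Real.pi * 4 ^ (r + 1) / r.factorial, by positivity, ?_⟩
  intro hs x u M hlen h1 hx hsum hM hu hcond
  have hpos : ∀ h ∈ hs, 0 < h := fun h hh => lt_of_lt_of_le one_pos (h1 h hh)
  have hP : 0 < hs.prod := prod_pos' hs hpos
  have hx0 : 0 < x := by linarith
  have hA : 0 < u / (2 * Real.pi) := by positivity
  set A := u / (2 * Real.pi) with hAd
  set θ := A * (r.factorial * hs.prod * (4 * x)⁻¹ ^ (r + 1)) with hθd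
  have hθ0 : 0 < θ := by positivity
  have hθx : θ ≤ A * (r.factorial * hs.prod * x⁻¹ ^ (r + 1)) := by
    apply mul_le_mul_of_nonneg_left _ hA.le
    apply mul_le_mul_of_nonneg_left _ (by positivity)
    apply pow_le_pow_left₀ (by positivity)
    exact inv_anti₀ hx0 (by linarith)
  have hθ2 : θ ≤ 1 / 2 := hθx.trans hcond
  have key := kusmin_landau' M (fun m => (-1) ^ r * (A * dd hs Real.log (x + m))) θ hθ0 hθ2
    (by
      intro n hn
      have hn' : (n : ℝ) + 1 ≤ x := by
        have : ((n + 1 : ℕ) : ℝ) ≤ M := by exact_mod_cast hn.le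
        push_cast at this
        linarith
      have hn0 : (0 : ℝ) ≤ n := Nat.cast_nonneg n
      have hxn : 0 < x + n := by positivity
      obtain ⟨s1, s2⟩ := dlog_step hs hpos (x + n) hxn
      rw [hlen] at s1 s2
      have e : (-1) ^ r * (A * dd hs Real.log (x + ((n + 1 : ℕ) : ℝ))) -
          (-1) ^ r * (A * dd hs Real.log (x + (n : ℝ))) =
          A * ((-1) ^ r * (dd hs Real.log (x + n + 1) - dd hs Real.log (x + n))) := by
        rw [show x + ((n + 1 : ℕ) : ℝ) = x + n + 1 by push_cast; ring]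
        ring
      constructor
      · show θ ≤ (-1) ^ r * (A * dd hs Real.log (x + ((n + 1 : ℕ) : ℝ))) -
          (-1) ^ r * (A * dd hs Real.log (x + (n : ℝ)))
        rw [e]
        apply mul_le_mul_of_nonneg_left _ hA.le
        refine le_trans ?_ s1
        apply mul_le_mul_of_nonneg_left _ (by positivity)
        have hsum0 : 0 ≤ hs.sum := List.sum_nonneg (fun h hh => (hpos h hh).le)
        apply pow_le_pow_left₀ (by positivity)
        exact inv_anti₀ (by positivity) (by linarith)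
      · show (-1) ^ r * (A * dd hs Real.log (x + ((n + 1 : ℕ) : ℝ))) -
          (-1) ^ r * (A * dd hs Real.log (x + (n : ℝ))) ≤ 1 - θ
        rw [e]
        have h2 : A * ((-1) ^ r * (dd hs Real.log (x + n + 1) - dd hs Real.log (x + n))) ≤
            A * (r.factorial * hs.prod * x⁻¹ ^ (r + 1)) := by
          apply mul_le_mul_of_nonneg_left _ hA.le
          refine s2.trans ?_
          apply mul_le_mul_of_nonneg_left _ (by positivity)
          apply pow_le_pow_left₀ (by positivity)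
          exact inv_anti₀ hx0 (by linarith)
        linarith)
    (by
      intro n hn
      have hn0 : (0 : ℝ) ≤ n := Nat.cast_nonneg n
      have hxn : 0 < x + n := by positivity
      have s := dlog_anti hs hpos (x + n) (x + n + 1) hxn (by linarith)
      rw [hlen] at s
      have e1 : (-1) ^ r * (A * dd hs Real.log (x + ((n + 1 : ℕ) : ℝ))) -
          (-1) ^ r * (A * dd hs Real.log (x + (n : ℝ))) =
          A * ((-1) ^ r * (dd hs Real.log (x + n + 1) - dd hs Real.log (x + n))) := by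
        rw [show x + ((n + 1 : ℕ) : ℝ) = x + n + 1 by push_cast; ring]
        ring
      have e2 : (-1) ^ r * (A * dd hs Real.log (x + ((n + 2 : ℕ) : ℝ))) -
          (-1) ^ r * (A * dd hs Real.log (x + ((n + 1 : ℕ) : ℝ))) =
          A * ((-1) ^ r * (dd hs Real.log (x + n + 1 + 1) - dd hs Real.log (x + n + 1))) := by
        rw [show x + ((n + 2 : ℕ) : ℝ) = x + n + 1 + 1 by push_cast; ring,
          show x + ((n + 1 : ℕ) : ℝ) = x + n + 1 by push_cast; ring]
        ring
      show (-1) ^ r * (A * dd hs Real.log (x + ((n + 2 : ℕ) : ℝ))) -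
          (-1) ^ r * (A * dd hs Real.log (x + ((n + 1 : ℕ) : ℝ))) ≤
        (-1) ^ r * (A * dd hs Real.log (x + ((n + 1 : ℕ) : ℝ))) -
          (-1) ^ r * (A * dd hs Real.log (x + (n : ℝ)))
      rw [e1, e2]
      exact mul_le_mul_of_nonneg_left s hA.le)
  rw [← norm_sum_ee_sign r M (fun m => dd hs Real.log (x + m)) u]
  refine key.trans (le_of_eq ?_)
  rw [hθd, hAd, inv_pow, mul_pow]
  field_simp

end Pool.MRZ
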