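import Mathlib
import Pool.Agent.MRZ.DiffLog

/-!
# MRZ/ZetaSum: power saving in zeta sums, `|u| ≤ x^A`

`∑_{m<M} (x+m)^{iu} ≪ x/|u| + x^{1-c}` for `1 ≤ |u| ≤ x^A`, `M ≤ x`, `c = c(A) > 0`.

Proof. By conjugation `u > 0`. Write `E_r(hs) = max_{M' ≤ M} |∑_{m<M'} exp(i u dd hs log (x+m))|`
(`hs` of length `r`). `VdC` with `z_m = exp(i u dd hs log (x+m))` (then
`z_{m+h} conj z_m = exp(i u dd (h::hs) log (x+m))`) gives for `1 ≤ H ≤ M'`
`E_r(hs)² ≤ 2x²/H + (4x/H) ∑_{1≤h<H} E_{r+1}(h::hs)` (for `M' < H` trivial bound `M'² ≤ x H`... `≤ x²/…`).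
Iterating: for every `r` there is `C_r` with
`E_0([])^{2^r} ≤ C_r x^{2^r} (1/H + H^{-r} x^{-1} ∑_{h_1..h_r < H} E_r(h_1..h_r))` (power means, `E ≤ x`).
If `u r! H^r x^{-(r+1)} ≤ π` then `kl_dlog` gives `E_r ≤ C x^{r+1}/(u ∏h)`, so the last average is at most
`C x^r/u · (2 log(eH)/H)^r`.
Choose `ε = 1/(4A+8)`, `H = ⌊x^ε⌋`. For `u ≤ x` (and `≤ πx`) use `kl_dlog` with `r = 0`: bound `C x/u`.
For `x^{r - rε + ε/2} ≤ u ≤ x^{r+1-rε}/(r!)` (`r ≥ 1`) both conditions hold and the saving is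
`x^{-min(ε, ε/2)/…}`; the windows for `r` and `r+1` overlap (`(r+1) - (r+1)ε + ε/2 = r+1-rε-ε/2 <
r+1-rε`), up to the constants `r!`, which only matters for bounded `x`; the first window `r = 1` starts at
`1 - ε/2 < 1`; `u ≤ x^A` is covered by `r ≤ A+1`. For `x ≤ x_0(A)` the bound is trivial with large `C`.
-/

namespace Pool.MRZ

open Finset

namespace ZSAux

/-- the exponential sums with differenced phases -/
noncomputable def EE (x u : ℝ) (hs : List ℝ) (N : ℕ) : ℝ :=
  ‖∑ m ∈ Finset.range N, Complex.exp (((u * dd hs Real.log (x + m) : ℝ) : ℂ) * Complex.I)‖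

theorem EE_nonneg (x u : ℝ) (hs : List ℝ) (N : ℕ) : 0 ≤ EE x u hs N := norm_nonneg _

theorem EE_le (x u : ℝ) (hs : List ℝ) (N : ℕ) : EE x u hs N ≤ N := by
  unfold EE
  refine (norm_sum_le _ _).trans ?_
  have h : ∀ m ∈ Finset.range N,
      ‖Complex.exp (((u * dd hs Real.log (x + m) : ℝ) : ℂ) * Complex.I)‖ ≤ 1 := by
    intro m _
    rw [Complex.norm_exp_ofReal_mul_I]
  refine (Finset.sum_le_sum h).trans ?_
  simp

theorem vdc_step (x u : ℝ) (hs : List ℝ) (N H : ℕ) (hH : 1 ≤ H) (hHN : H ≤ N) :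
    EE x u hs N ^ 2 ≤ 2 * (N : ℝ) ^ 2 / H +
      4 * N / H * ∑ h ∈ Finset.Ico 1 H, EE x u ((h : ℝ) :: hs) (N - h) := by
  have h := vdc N H (fun n => Complex.exp (((u * dd hs Real.log (x + n) : ℝ) : ℂ) * Complex.I))
    hH hHN (fun n => by rw [Complex.norm_exp_ofReal_mul_I])
  refine h.trans (le_of_eq ?_)
  congr 2
  refine Finset.sum_congr rfl fun h _ => ?_
  unfold EE
  congr 1
  refine Finset.sum_congr rfl fun n _ => ?_
  rw [← Complex.exp_conj, ← Complex.exp_add]
  congr 1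
  have e1 : dd ((h : ℝ) :: hs) Real.log (x + n) =
      dd hs Real.log (x + ((n + h : ℕ) : ℝ)) - dd hs Real.log (x + n) := by
    rw [dd]
    congr 2
    push_cast
    ring
  rw [e1, map_mul, Complex.conj_ofReal, Complex.conj_I]
  push_cast
  ring

/-- the iteration -/
theorem core {x u ρ : ℝ} {r H L : ℕ} (hx : 1 ≤ x) (hH : 1 ≤ H) (hH3 : (H : ℝ) ^ 3 ≤ x ^ 2)
    (hL : (2 + 4 * (L : ℝ)) / H ≤ 6 * ρ) (hρ0 : 0 < ρ) (hρ1 : ρ ≤ 1)
    (hb : ∀ hs : List ℝ, hs.length = r → (∀ h ∈ hs, (L : ℝ) ≤ h ∧ h ≤ H) →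
      ∀ N : ℕ, (N : ℝ) ≤ x → EE x u hs N ≤ ρ * x) :
    ∀ j ≤ r, ∀ hs : List ℝ, hs.length + j = r → (∀ h ∈ hs, (L : ℝ) ≤ h ∧ h ≤ H) →
      ∀ N : ℕ, (N : ℝ) ≤ x → EE x u hs N ≤ 10 * x * ρ ^ ((1 / 2 : ℝ) ^ j) := by
  have hx0 : 0 < x := by linarith
  have hHpos : (0 : ℝ) < H := by exact_mod_cast hH
  intro j
  induction j with
  | zero =>
    intro _ hs hlen hgood N hN
    rw [pow_zero, Real.rpow_one]
    have h1 := hb hs (by omega) hgood N hN
    have h2 : 0 < x * ρ := mul_pos hx0 hρ0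
    linarith
  | succ j ih =>
    intro hj hs hlen hgood N hN
    have hN0 : (0 : ℝ) ≤ N := Nat.cast_nonneg N
    obtain ⟨q, hq⟩ : ∃ q, q = ρ ^ ((1 / 2 : ℝ) ^ j) := ⟨_, rfl⟩
    have hq0 : 0 < q := by rw [hq]; exact Real.rpow_pos_of_pos hρ0 _
    have hρq : ρ ≤ q := by
      rw [hq]
      conv_lhs => rw [← Real.rpow_one ρ]
      apply Real.rpow_le_rpow_of_exponent_ge hρ0 hρ1
      exact pow_le_one₀ (by norm_num) (by norm_num)
    have hsq : (10 * x * ρ ^ ((1 / 2 : ℝ) ^ (j + 1))) ^ 2 = 100 * x ^ 2 * q := by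
      have h1 : (ρ ^ ((1 / 2 : ℝ) ^ (j + 1))) ^ 2 = q := by
        rw [hq, ← Real.rpow_natCast, ← Real.rpow_mul hρ0.le]
        congr 1
        rw [pow_succ]
        push_cast
        ring
      rw [mul_pow, mul_pow, h1]
      ring
    have hmain : EE x u hs N ^ 2 ≤ 46 * x ^ 2 * q := by
      have hx2q : 0 ≤ x ^ 2 * (q - ρ) := mul_nonneg (sq_nonneg x) (by linarith)
      rcases lt_or_ge N H with hlt | hge
      · have h1 : EE x u hs N ≤ H := (EE_le x u hs N).trans (by exact_mod_cast hlt.le)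
        have h2 : EE x u hs N ^ 2 ≤ (H : ℝ) ^ 2 := pow_le_pow_left₀ (EE_nonneg _ _ _ _) h1 2
        have h3 : (H : ℝ) ^ 2 ≤ x ^ 2 * (1 / H) := by
          rw [mul_one_div, le_div_iff₀ hHpos]
          calc (H : ℝ) ^ 2 * H = (H : ℝ) ^ 3 := by ring
            _ ≤ x ^ 2 := hH3
        have h4 : 1 / (H : ℝ) ≤ 6 * ρ := by
          refine le_trans ?_ hL
          apply div_le_div_of_nonneg_right _ hHpos.le
          have : (0 : ℝ) ≤ L := Nat.cast_nonneg L
          linarith
        have h5 : x ^ 2 * (1 / H) ≤ x ^ 2 * (6 * ρ) := mul_le_mul_of_nonneg_left h4 (sq_nonneg x)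
        have h6 : 0 ≤ x ^ 2 * q := mul_nonneg (sq_nonneg x) hq0.le
        nlinarith
      · have h1 := vdc_step x u hs N H hH hge
        have h2 : ∑ h ∈ Finset.Ico 1 H, EE x u ((h : ℝ) :: hs) (N - h) ≤
            ∑ h ∈ Finset.Ico 1 H, ((if h < L then x else 0) + 10 * x * q) := by
          refine Finset.sum_le_sum fun h hh => ?_
          rw [Finset.mem_Ico] at hh
          have hNh : ((N - h : ℕ) : ℝ) ≤ x := by
            refine le_trans ?_ hN
            exact_mod_cast Nat.sub_le N h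
          by_cases hhL : h < L
          · rw [if_pos hhL]
            have h3 := EE_le x u ((h : ℝ) :: hs) (N - h)
            have h4 : 0 ≤ 10 * x * q := by positivity
            linarith
          · rw [if_neg hhL, zero_add, hq]
            apply ih (by omega) _ (by simp only [List.length_cons]; omega) _ _ hNh
            intro k hk
            rcases List.mem_cons.1 hk with rfl | hk
            · refine ⟨?_, ?_⟩
              · exact_mod_cast not_lt.1 hhL
              · exact_mod_cast hh.2.le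
            · exact hgood k hk
        have h3 : ∑ h ∈ Finset.Ico 1 H, ((if h < L then x else 0) + 10 * x * q) ≤
            L * x + H * (10 * x * q) := by
          rw [Finset.sum_add_distrib]
          apply add_le_add
          · rw [← Finset.sum_filter, Finset.sum_const, nsmul_eq_mul]
            apply mul_le_mul_of_nonneg_right _ hx0.le
            have h4 : ((Finset.Ico 1 H).filter fun h => h < L) ⊆ Finset.range L := by
              intro a ha
              rw [Finset.mem_filter] at ha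
              exact Finset.mem_range.2 ha.2
            have h5 := Finset.card_le_card h4
            rw [Finset.card_range] at h5
            exact_mod_cast h5
          · rw [Finset.sum_const, nsmul_eq_mul, Nat.card_Ico]
            apply mul_le_mul_of_nonneg_right _ (by positivity)
            exact_mod_cast Nat.sub_le H 1
        have h4 : 4 * (N : ℝ) / H * ∑ h ∈ Finset.Ico 1 H, EE x u ((h : ℝ) :: hs) (N - h) ≤
            4 * x / H * (L * x + H * (10 * x * q)) := by
          apply mul_le_mul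
          · apply div_le_div_of_nonneg_right _ hHpos.le
            linarith
          · exact h2.trans h3
          · exact Finset.sum_nonneg fun h _ => EE_nonneg _ _ _ _
          · positivity
        have h5 : 2 * (N : ℝ) ^ 2 / H ≤ 2 * x ^ 2 / H := by
          apply div_le_div_of_nonneg_right _ hHpos.le
          have := pow_le_pow_left₀ hN0 hN 2
          linarith
        have h6 : 2 * x ^ 2 / H + 4 * x / H * (L * x + H * (10 * x * q)) =
            x ^ 2 * ((2 + 4 * (L : ℝ)) / H) + 40 * (x ^ 2 * q) := by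
          field_simp
          ring
        have h7 : x ^ 2 * ((2 + 4 * (L : ℝ)) / H) ≤ x ^ 2 * (6 * ρ) :=
          mul_le_mul_of_nonneg_left hL (sq_nonneg x)
        nlinarith
    have h1 : EE x u hs N ^ 2 ≤ (10 * x * ρ ^ ((1 / 2 : ℝ) ^ (j + 1))) ^ 2 := by
      rw [hsq]
      have : 0 ≤ x ^ 2 * q := mul_nonneg (sq_nonneg x) hq0.le
      linarith
    exact le_of_sq_le_sq h1 (by positivity)

theorem list_bounds {a b : ℝ} (ha : 0 < a) : ∀ hs : List ℝ, (∀ h ∈ hs, a ≤ h ∧ h ≤ b) →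
    a ^ hs.length ≤ hs.prod ∧ hs.prod ≤ b ^ hs.length ∧ hs.sum ≤ hs.length * b := by
  intro hs
  induction hs with
  | nil => intro _; simp
  | cons h hs ih =>
    intro hg
    obtain ⟨i1, i2, i3⟩ := ih fun k hk => hg k (List.mem_cons_of_mem _ hk)
    obtain ⟨g1, g2⟩ := hg h List.mem_cons_self
    have hh : 0 < h := lt_of_lt_of_le ha g1
    have hb : 0 < b := lt_of_lt_of_le hh g2
    have hp : 0 < hs.prod := lt_of_lt_of_le (pow_pos ha _) i1
    rw [List.length_cons, List.prod_cons, List.sum_cons, pow_succ', pow_succ']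
    refine ⟨?_, ?_, ?_⟩
    · exact mul_le_mul g1 i1 (pow_pos ha _).le hh.le
    · exact mul_le_mul g2 i2 hp.le hb.le
    · push_cast
      linarith

/-- one window -/
theorem window {r : ℕ} (hr : 1 ≤ r) {Cr : ℝ} (hCr : 0 < Cr)
    (hkl : ∀ (hs : List ℝ) (x u : ℝ) (M : ℕ), hs.length = r →
      (∀ h ∈ hs, 1 ≤ h) → 1 ≤ x → hs.sum ≤ x → (M : ℝ) ≤ x → 0 < u →
      u / (2 * Real.pi) * (r.factorial * hs.prod * x⁻¹ ^ (r + 1)) ≤ 1 / 2 →
      ‖∑ m ∈ Finset.range M, Complex.exp (((u * dd hs Real.log (x + m) : ℝ) : ℂ) * Complex.I)‖ ≤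
        Cr * x ^ (r + 1) / (u * hs.prod))
    {x u δ κ K : ℝ} (hx : 1 ≤ x) (hκ : 0 < κ) (hκδ : 2 * κ ≤ δ / r) (hδ : δ / r ≤ 1 / 2)
    (hK4 : 4 ≤ K) (hK : Cr ≤ K) (hfac : (r.factorial : ℝ) ≤ x ^ κ) (hrx : (r : ℝ) ≤ x ^ (1 / 2 : ℝ))
    (hlow : x ^ (r - δ / 2 + κ) ≤ u) (hup : u ≤ x ^ (r + 1 - δ - κ))
    (hρ1 : K * x ^ (-κ) ≤ 1) (M : ℕ) (hM : (M : ℝ) ≤ x) :
    EE x u [] M ≤ 10 * x * (K * x ^ (-κ)) ^ ((1 / 2 : ℝ) ^ r) := by
  have hx0 : 0 < x := by linarith
  have hr0 : (0 : ℝ) < r := by exact_mod_cast hr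
  obtain ⟨e, he⟩ : ∃ e, e = δ / r := ⟨_, rfl⟩
  rw [← he] at hκδ hδ
  have hδe : δ = r * e := by rw [he]; field_simp
  have he0 : 0 < e := by linarith
  obtain ⟨y, hy⟩ : ∃ y, y = x ^ (e / 2) := ⟨_, rfl⟩
  have hy1 : 1 ≤ y := by rw [hy]; exact Real.one_le_rpow hx (by linarith)
  have hy0 : 0 < y := by linarith
  have hyy : x ^ e = y * y := by
    rw [hy, ← Real.rpow_add hx0]
    congr 1
    ring
  have hyy1 : 1 ≤ y * y := by nlinarith
  obtain ⟨H, hH⟩ : ∃ H : ℕ, H = ⌊y * y⌋₊ := ⟨_, rfl⟩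
  obtain ⟨L, hL⟩ : ∃ L : ℕ, L = ⌈y⌉₊ := ⟨_, rfl⟩
  have hH1 : 1 ≤ H := by rw [hH]; exact (Nat.one_le_floor_iff _).2 hyy1
  have hHle : (H : ℝ) ≤ y * y := by rw [hH]; exact Nat.floor_le (by positivity)
  have hHge : y * y ≤ 2 * H := by
    have h1 : y * y < H + 1 := by rw [hH]; exact Nat.lt_floor_add_one _
    have h2 : (1 : ℝ) ≤ H := by exact_mod_cast hH1
    linarith
  have hLge : y ≤ L := by rw [hL]; exact Nat.le_ceil y
  have hLle : (L : ℝ) ≤ 2 * y := by
    have h1 : (L : ℝ) < y + 1 := by rw [hL]; exact Nat.ceil_lt_add_one hy0.le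
    linarith
  have hHpos : (0 : ℝ) < H := by exact_mod_cast hH1
  have hLpos : (0 : ℝ) < L := by linarith
  have hxhalf : y * y ≤ x ^ (1 / 2 : ℝ) := by
    rw [← hyy]
    exact Real.rpow_le_rpow_of_exponent_le hx hδ
  have hsqrt : x ^ (1 / 2 : ℝ) * x ^ (1 / 2 : ℝ) = x := by
    rw [← Real.rpow_add hx0]
    norm_num
  have hsq1 : 1 ≤ x ^ (1 / 2 : ℝ) := Real.one_le_rpow hx (by norm_num)
  have hH3 : (H : ℝ) ^ 3 ≤ x ^ 2 := by
    have h1 : (H : ℝ) ≤ x ^ (1 / 2 : ℝ) := hHle.trans hxhalf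
    calc (H : ℝ) ^ 3 ≤ (x ^ (1 / 2 : ℝ)) ^ 3 := pow_le_pow_left₀ hHpos.le h1 3
      _ ≤ (x ^ (1 / 2 : ℝ)) ^ 4 := pow_le_pow_right₀ hsq1 (by norm_num)
      _ = (x ^ (1 / 2 : ℝ) * x ^ (1 / 2 : ℝ)) ^ 2 := by ring
      _ = x ^ 2 := by rw [hsqrt]
  have hκpos : 0 < x ^ (-κ) := Real.rpow_pos_of_pos hx0 _
  have hρ0 : 0 < K * x ^ (-κ) := by positivity
  have hyκ : 1 / y ≤ x ^ (-κ) := by
    rw [hy, one_div, ← Real.rpow_neg hx0.le]
    apply Real.rpow_le_rpow_of_exponent_le hx
    linarith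
  have hLH : (2 + 4 * (L : ℝ)) / H ≤ 6 * (K * x ^ (-κ)) := by
    rw [div_le_iff₀ hHpos]
    have h1 : 4 * x ^ (-κ) ≤ K * x ^ (-κ) := mul_le_mul_of_nonneg_right hK4 hκpos.le
    have h2 : 6 * (4 * (1 / y)) * H ≤ 6 * (K * x ^ (-κ)) * H := by
      apply mul_le_mul_of_nonneg_right _ hHpos.le
      linarith
    refine le_trans ?_ h2
    have h3 : 12 * y ≤ 6 * (4 * (1 / y)) * H := by
      have h4 : 6 * (4 * (1 / y)) * H = 12 / y * (2 * H) := by ring
      rw [h4]
      have h5 : 12 * y = 12 / y * (y * y) := by field_simp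
      rw [h5]
      exact mul_le_mul_of_nonneg_left hHge (by positivity)
    linarith
  have hbase : ∀ hs : List ℝ, hs.length = r → (∀ h ∈ hs, (L : ℝ) ≤ h ∧ h ≤ H) →
      ∀ N : ℕ, (N : ℝ) ≤ x → EE x u hs N ≤ (K * x ^ (-κ)) * x := by
    intro hs hlen hg N hN
    obtain ⟨b1, b2, b3⟩ := list_bounds hLpos hs hg
    rw [hlen] at b1 b2 b3
    have hu0 : 0 < u := lt_of_lt_of_le (Real.rpow_pos_of_pos hx0 _) hlow
    have hL1 : (1 : ℝ) ≤ L := by linarith
    have hprod0 : 0 < hs.prod := lt_of_lt_of_le (pow_pos hLpos _) b1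
    have hsum : hs.sum ≤ x := by
      refine b3.trans ?_
      calc (r : ℝ) * H ≤ x ^ (1 / 2 : ℝ) * x ^ (1 / 2 : ℝ) :=
            mul_le_mul hrx (hHle.trans hxhalf) hHpos.le (by positivity)
        _ = x := hsqrt
    have hprodH : hs.prod ≤ x ^ δ := by
      refine b2.trans ?_
      calc (H : ℝ) ^ r ≤ (x ^ e) ^ r := by
            apply pow_le_pow_left₀ hHpos.le
            rw [hyy]
            exact hHle
        _ = x ^ δ := by
            rw [← Real.rpow_natCast, ← Real.rpow_mul hx0.le, hδe]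
            congr 1
            ring
    have hcond : u / (2 * Real.pi) * (r.factorial * hs.prod * x⁻¹ ^ (r + 1)) ≤ 1 / 2 := by
      have h1 : u * (r.factorial * hs.prod) ≤ x ^ (r + 1) := by
        calc u * (r.factorial * hs.prod) ≤ x ^ (r + 1 - δ - κ) * (x ^ κ * x ^ δ) := by
              apply mul_le_mul hup _ (by positivity) (by positivity)
              exact mul_le_mul hfac hprodH hprod0.le (by positivity)
          _ = x ^ ((r + 1 : ℕ) : ℝ) := by
              rw [← Real.rpow_add hx0, ← Real.rpow_add hx0]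
              congr 1
              push_cast
              ring
          _ = x ^ (r + 1) := Real.rpow_natCast _ _
      have h2 : u / (2 * Real.pi) * (r.factorial * hs.prod * x⁻¹ ^ (r + 1)) =
          (u * (r.factorial * hs.prod)) / x ^ (r + 1) / (2 * Real.pi) := by
        rw [inv_pow]
        field_simp
      rw [h2]
      have h3 : (u * (r.factorial * hs.prod)) / x ^ (r + 1) ≤ 1 := by
        rw [div_le_one (by positivity)]
        exact h1
      have h4 := Real.pi_gt_three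
      rw [div_le_iff₀ (by positivity)]
      linarith
    have hk := hkl hs x u N hlen (fun h hh => hL1.trans (hg h hh).1) hx hsum hN hu0 hcond
    refine hk.trans ?_
    rw [div_le_iff₀ (mul_pos hu0 hprod0)]
    have hLr : x ^ (δ / 2) ≤ hs.prod := by
      refine le_trans ?_ b1
      calc x ^ (δ / 2) = y ^ r := by
            rw [hy, ← Real.rpow_natCast, ← Real.rpow_mul hx0.le, hδe]
            congr 1
            ring
        _ ≤ (L : ℝ) ^ r := pow_le_pow_left₀ hy0.le hLge r
    have h5 : x ^ (r + κ) ≤ u * hs.prod := by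
      calc x ^ (r + κ) = x ^ (r - δ / 2 + κ) * x ^ (δ / 2) := by
            rw [← Real.rpow_add hx0]
            congr 1
            ring
        _ ≤ u * hs.prod := mul_le_mul hlow hLr (by positivity) hu0.le
    have h6 : Cr * x ^ (r + 1) = Cr * x ^ (-κ) * x * x ^ (r + κ) := by
      have : x ^ (r + 1) = x ^ (-κ) * x * x ^ (r + κ) := by
        rw [mul_right_comm, ← Real.rpow_add hx0]
        have e1 : -κ + (r + κ) = (r : ℝ) := by ring
        rw [e1, Real.rpow_natCast]
        ring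
      rw [this]
      ring
    rw [h6]
    apply mul_le_mul _ h5 (by positivity) (by positivity)
    apply mul_le_mul_of_nonneg_right _ hx0.le
    exact mul_le_mul_of_nonneg_right hK hκpos.le
  exact core hx hH1 hH3 hLH hρ0 hρ1 hbase r le_rfl [] (by simp) (by simp) M hM

end ZSAux

open ZSAux in
theorem zeta_sum (A : ℕ) : ∃ c C : ℝ, 0 < c ∧ 0 < C ∧ ∀ (x : ℝ) (M : ℕ) (u : ℝ), 1 ≤ x →
    (M : ℝ) ≤ x → 1 ≤ |u| → |u| ≤ x ^ A →
    ‖∑ m ∈ Finset.range M, Complex.exp (((u * Real.log (x + m) : ℝ) : ℂ) * Complex.I)‖ ≤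
      C * (x / |u| + x ^ (1 - c)) := by
  choose Cr hCr hkl using kl_dlog
  obtain ⟨K, hKdef⟩ : ∃ K, K = 4 + ∑ r ∈ Finset.range (A + 1), Cr r := ⟨_, rfl⟩
  obtain ⟨ε, hε⟩ : ∃ ε : ℝ, ε = (1 / 4) ^ (A + 2) := ⟨_, rfl⟩
  obtain ⟨κ, hκ⟩ : ∃ κ : ℝ, κ = ε / 2 := ⟨_, rfl⟩
  obtain ⟨F, hF⟩ : ∃ F : ℝ, F = ((A + 1).factorial : ℝ) := ⟨_, rfl⟩
  have hε0 : 0 < ε := by rw [hε]; positivity
  have hκ0 : 0 < κ := by linarith
  have hsum0 : 0 ≤ ∑ r ∈ Finset.range (A + 1), Cr r := Finset.sum_nonneg fun r _ => (hCr r).le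
  have hK4 : 4 ≤ K := by linarith
  have hKr : ∀ r ≤ A, Cr r ≤ K := by
    intro r hr
    have h1 := Finset.single_le_sum (f := Cr) (fun i _ => (hCr i).le)
      (Finset.mem_range.2 (Nat.lt_succ_of_le hr))
    linarith
  have hF1 : 1 ≤ F := by
    rw [hF]
    exact_mod_cast Nat.one_le_iff_ne_zero.2 (Nat.factorial_ne_zero _)
  obtain ⟨c, hc⟩ : ∃ c : ℝ, c = κ * (1 / 2) ^ A := ⟨_, rfl⟩
  have hc0 : 0 < c := by rw [hc]; positivity
  have hcκ : c ≤ κ := by
    rw [hc]
    exact mul_le_of_le_one_right hκ0.le (pow_le_one₀ (by norm_num) (by norm_num))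
  refine ⟨c, 10 * K + F, hc0, by linarith, ?_⟩
  -- positive `u`
  have key : ∀ (x : ℝ) (M : ℕ) (u : ℝ), 1 ≤ x → (M : ℝ) ≤ x → 1 ≤ u → u ≤ x ^ A →
      EE x u [] M ≤ (10 * K + F) * (x / u + x ^ (1 - c)) := by
    intro x M u hx hM hu1 hu2
    have hx0 : 0 < x := by linarith
    have hu0 : 0 < u := by linarith
    have hxc : 0 < x ^ (1 - c) := Real.rpow_pos_of_pos hx0 _
    have hxu : 0 < x / u := div_pos hx0 hu0
    have hxκc : x ^ (1 - κ) ≤ x ^ (1 - c) :=
      Real.rpow_le_rpow_of_exponent_le hx (by linarith)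
    have htriv : EE x u [] M ≤ x := (EE_le x u [] M).trans hM
    have hfin1 : ∀ B : ℝ, 0 ≤ B → B ≤ 10 * K + F → EE x u [] M ≤ B * x ^ (1 - c) →
        EE x u [] M ≤ (10 * K + F) * (x / u + x ^ (1 - c)) := by
      intro B hB hB1 h
      refine h.trans ?_
      calc B * x ^ (1 - c) ≤ (10 * K + F) * x ^ (1 - c) :=
            mul_le_mul_of_nonneg_right hB1 hxc.le
        _ ≤ (10 * K + F) * (x / u + x ^ (1 - c)) := by
            apply mul_le_mul_of_nonneg_left _ (by linarith)
            linarith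
    have hxdec : ∀ B : ℝ, x ^ κ ≤ B → x ≤ B * x ^ (1 - κ) := by
      intro B hB
      have h1 : x = x ^ κ * x ^ (1 - κ) := by
        rw [← Real.rpow_add hx0]
        simp
      calc x = x ^ κ * x ^ (1 - κ) := h1
        _ ≤ B * x ^ (1 - κ) := mul_le_mul_of_nonneg_right hB (by positivity)
    rcases le_or_gt u x with hux | hux
    · have h := hkl 0 [] x u M rfl (by simp) hx (by simpa using hx0.le) hM hu0 (by
        have h4 := Real.pi_gt_three
        have h5 : u / x ≤ 1 := (div_le_one hx0).2 hux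
        have h6 : u / (2 * Real.pi) * ((Nat.factorial 0 : ℕ) * ([] : List ℝ).prod *
            x⁻¹ ^ (0 + 1)) = u / x / (2 * Real.pi) := by
          simp
          field_simp
        rw [h6, div_le_iff₀ (by positivity)]
        linarith)
      have h7 : Cr 0 * x ^ (0 + 1) / (u * ([] : List ℝ).prod) = Cr 0 * (x / u) := by
        simp
        ring
      rw [h7] at h
      refine le_trans h ?_
      calc Cr 0 * (x / u) ≤ (10 * K + F) * (x / u) := by
            apply mul_le_mul_of_nonneg_right _ hxu.le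
            have := hKr 0 (Nat.zero_le A)
            linarith
        _ ≤ _ := by
            apply mul_le_mul_of_nonneg_left _ (by linarith)
            linarith
    · by_cases hFx : F ≤ x ^ κ
      swap
      · push Not at hFx
        apply hfin1 F (by linarith) (by linarith)
        refine htriv.trans ((hxdec F hFx.le).trans ?_)
        exact mul_le_mul_of_nonneg_left hxκc (by linarith)
      by_cases hρ : K * x ^ (-κ) ≤ 1
      swap
      · push Not at hρ
        apply hfin1 K (by linarith) (by linarith)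
        refine htriv.trans ((hxdec K ?_).trans ?_)
        · have h1 : x ^ κ * x ^ (-κ) = 1 := by
            rw [← Real.rpow_add hx0]
            simp
          have h2 : 0 < x ^ (-κ) := Real.rpow_pos_of_pos hx0 _
          have h3 : x ^ κ * x ^ (-κ) ≤ K * x ^ (-κ) := by rw [h1]; exact hρ.le
          exact le_of_mul_le_mul_right h3 h2
        · exact mul_le_mul_of_nonneg_left hxκc (by linarith)
      -- the window
      have hA : 1 ≤ A := by
        rcases Nat.eq_zero_or_pos A with h0 | h0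
        · rw [h0, pow_zero] at hu2
          linarith
        · exact h0
      have hδA : (4 : ℝ) ^ A * ε = 1 / 16 := by
        rw [hε, pow_add, ← mul_assoc, ← mul_pow]
        norm_num
      have hex : ∃ r : ℕ, 1 ≤ r ∧ u ≤ x ^ ((r : ℝ) + 1 - 4 ^ r * ε - κ) := by
        refine ⟨A, hA, ?_⟩
        rw [hδA]
        rw [← Real.rpow_natCast] at hu2
        refine hu2.trans (Real.rpow_le_rpow_of_exponent_le hx ?_)
        have h1 : ε ≤ 1 / 16 := by
          rw [← hδA]
          exact le_mul_of_one_le_left hε0.le (one_le_pow₀ (by norm_num))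
        linarith
      classical
      obtain ⟨r, ⟨hr1, hr2⟩, hmin⟩ : ∃ r : ℕ, (1 ≤ r ∧ u ≤ x ^ ((r : ℝ) + 1 - 4 ^ r * ε - κ)) ∧
          ∀ k < r, ¬ (1 ≤ k ∧ u ≤ x ^ ((k : ℝ) + 1 - 4 ^ k * ε - κ)) :=
        ⟨Nat.find hex, Nat.find_spec hex, fun k hk => Nat.find_min hex hk⟩
      have hrA : r ≤ A := by
        by_contra hcon
        push Not at hcon
        have h1 := hmin A hcon
        apply h1
        refine ⟨hA, ?_⟩
        rw [hδA]
        rw [← Real.rpow_natCast] at hu2
        refine hu2.trans (Real.rpow_le_rpow_of_exponent_le hx ?_)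
        have h1 : ε ≤ 1 / 16 := by
          rw [← hδA]
          exact le_mul_of_one_le_left hε0.le (one_le_pow₀ (by norm_num))
        linarith
      have hr0 : (0 : ℝ) < r := by exact_mod_cast hr1
      have hlow : x ^ ((r : ℝ) - (4 ^ r * ε) / 2 + κ) ≤ u := by
        rcases Nat.lt_or_ge r 2 with h2 | h2
        · have h3 : r = 1 := by omega
          rw [h3]
          refine le_trans ?_ hux.le
          conv_rhs => rw [← Real.rpow_one x]
          apply Real.rpow_le_rpow_of_exponent_le hx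
          push_cast
          linarith
        · have h3 := hmin (r - 1) (by omega)
          push Not at h3
          have h4 := (h3 (by omega)).le
          refine le_trans ?_ h4
          apply Real.rpow_le_rpow_of_exponent_le hx
          have h5 : ((r - 1 : ℕ) : ℝ) = r - 1 := by
            rw [Nat.cast_sub hr1]
            simp
          have h6 : (4 : ℝ) ^ r = 4 * 4 ^ (r - 1) := by
            rw [← pow_succ']
            congr 1
            omega
          have h7 : (1 : ℝ) ≤ 4 ^ (r - 1) := one_le_pow₀ (by norm_num)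
          have h8 : ε ≤ 4 ^ (r - 1) * ε := le_mul_of_one_le_left hε0.le h7
          rw [h5, h6]
          linarith
      have hκδ : 2 * κ ≤ 4 ^ r * ε / r := by
        rw [le_div_iff₀ hr0]
        have h1 : (r : ℝ) ≤ 4 ^ r := by
          have : r < 4 ^ r := Nat.lt_pow_self (by norm_num)
          exact_mod_cast this.le
        rw [hκ]
        nlinarith
      have hδ : 4 ^ r * ε / r ≤ 1 / 2 := by
        have h1 : (4 : ℝ) ^ r * ε ≤ 1 / 16 := by
          rw [← hδA]
          apply mul_le_mul_of_nonneg_right _ hε0.le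
          exact pow_le_pow_right₀ (by norm_num) hrA
        have h2 : (1 : ℝ) ≤ r := by exact_mod_cast hr1
        have h3 : 4 ^ r * ε / r ≤ 4 ^ r * ε := div_le_self (by positivity) h2
        linarith
      have hfac : (r.factorial : ℝ) ≤ x ^ κ := by
        refine le_trans ?_ hFx
        rw [hF]
        exact_mod_cast Nat.factorial_le (by omega)
      have hrx : (r : ℝ) ≤ x ^ (1 / 2 : ℝ) := by
        have h1 : (r : ℝ) ≤ F := by
          rw [hF]
          have h2 : r ≤ (A + 1).factorial := (by omega : r ≤ A + 1).trans (Nat.self_le_factorial _)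
          exact_mod_cast h2
        refine h1.trans (hFx.trans ?_)
        apply Real.rpow_le_rpow_of_exponent_le hx
        have h1 : ε ≤ 1 / 16 := by
          rw [← hδA]
          exact le_mul_of_one_le_left hε0.le (one_le_pow₀ (by norm_num))
        linarith
      have hw := window hr1 (hCr r) (hkl r) hx hκ0 hκδ hδ hK4 (hKr r hrA) hfac hrx hlow hr2 hρ M hM
      apply hfin1 (10 * K) (by linarith) (by linarith)
      refine hw.trans ?_
      have hρ0 : 0 < K * x ^ (-κ) := by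
        have := Real.rpow_pos_of_pos hx0 (-κ)
        positivity
      have h1 : (K * x ^ (-κ)) ^ ((1 / 2 : ℝ) ^ r) ≤ (K * x ^ (-κ)) ^ ((1 / 2 : ℝ) ^ A) := by
        apply Real.rpow_le_rpow_of_exponent_ge hρ0 hρ
        exact pow_le_pow_of_le_one (by norm_num) (by norm_num) hrA
      have h2 : (K * x ^ (-κ)) ^ ((1 / 2 : ℝ) ^ A) ≤ K * x ^ (-c) := by
        rw [Real.mul_rpow (by linarith) (by positivity), ← Real.rpow_mul hx0.le]
        have e1 : -κ * (1 / 2) ^ A = -c := by rw [hc]; ring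
        rw [e1]
        apply mul_le_mul_of_nonneg_right _ (by positivity)
        conv_rhs => rw [← Real.rpow_one K]
        apply Real.rpow_le_rpow_of_exponent_le (by linarith)
        exact pow_le_one₀ (by norm_num) (by norm_num)
      have h3 : x * x ^ (-c) = x ^ (1 - c) := by
        rw [sub_eq_add_neg, Real.rpow_add hx0, Real.rpow_one]
      calc 10 * x * (K * x ^ (-κ)) ^ ((1 / 2 : ℝ) ^ r) ≤ 10 * x * (K * x ^ (-c)) := by
            apply mul_le_mul_of_nonneg_left (h1.trans h2) (by positivity)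
        _ = 10 * K * (x * x ^ (-c)) := by ring
        _ = 10 * K * x ^ (1 - c) := by rw [h3]
  intro x M u hx hM hu1 hu2
  rcases le_total 0 u with hu | hu
  · rw [abs_of_nonneg hu] at hu1 hu2 ⊢
    exact key x M u hx hM hu1 hu2
  · rw [abs_of_nonpos hu] at hu1 hu2 ⊢
    have h := key x M (-u) hx hM hu1 hu2
    refine le_trans (le_of_eq ?_) h
    unfold EE
    rw [← Complex.norm_conj, map_sum]
    congr 1
    refine Finset.sum_congr rfl fun m _ => ?_
    rw [← Complex.exp_conj, map_mul, Complex.conj_ofReal, Complex.conj_I]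
    congr 1
    rw [dd]
    push_cast
    ring

end Pool.MRZ
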