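import Mathlib
import Pool.Agent.MRZ.ZetaSum

/-!
# MRZ/ZetaChi: zeta sums twisted by a periodic function

`ψ : ℕ → ℂ` with `ψ(n+q) = ψ(n)`, `|ψ| ≤ 1`, `q ≥ 1`: for `1 ≤ a ≤ b ≤ 2a` and `1 ≤ |u| ≤ a^A`:
`|∑_{a<n≤b} ψ(n) n^{iu}| ≤ C_q (a/|u| + a^{1-c})`.
Split into the `q` residue classes: `n = n_0 + q m`, `m < M`, `n_0 ∈ (a, a+q]`,
`log n = log q + log (n_0/q + m)`; `zeta_sum` with `x = n_0/q` (if `x ≥ 1` and `M ≤ x`; split the range of `m`
into two if `M > x`, as `M ≤ a/q + 1`; for `a ≤ C q` trivial), `|u| ≤ a^A ≤ (n_0/q)^{A'}`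
with e.g. `A' = 2A` once `a` is large in terms of `q`.
-/

namespace Pool.MRZ

open Finset

namespace ZetaChiAux

theorem per_mul {ψ : ℕ → ℂ} {q : ℕ} (hψ : ∀ n, ψ (n + q) = ψ n) (n m : ℕ) :
    ψ (n + q * m) = ψ n := by
  induction m with
  | zero => rw [mul_zero, add_zero]
  | succ k ih => rw [mul_add, mul_one, ← add_assoc, hψ, ih]

theorem tw_progression {n0 q m : ℕ} (hn : 1 ≤ n0) (hq : 1 ≤ q) (u : ℝ) :
    tw u (n0 + q * m) = tw u q *
      Complex.exp (((u * Real.log ((n0 : ℝ) / q + m) : ℝ) : ℂ) * Complex.I) := by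
  have hq0 : (0 : ℝ) < q := by exact_mod_cast hq
  have hn0 : (0 : ℝ) < n0 := by exact_mod_cast hn
  have h1 : (0 : ℝ) < (n0 : ℝ) / q + m := by positivity
  have h2 : ((n0 + q * m : ℕ) : ℝ) = (q : ℝ) * ((n0 : ℝ) / q + m) := by
    push_cast
    field_simp
  unfold tw
  rw [← Complex.exp_add, h2, Real.log_mul hq0.ne' h1.ne']
  congr 1
  push_cast
  ring

theorem norm_progression {n0 q : ℕ} (hn : 1 ≤ n0) (hq : 1 ≤ q) (u : ℝ) (M : ℕ) :
    ‖∑ m ∈ Finset.range M, tw u (n0 + q * m)‖ =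
      ‖∑ m ∈ Finset.range M,
        Complex.exp (((u * Real.log ((n0 : ℝ) / q + m) : ℝ) : ℂ) * Complex.I)‖ := by
  have h1 : ∑ m ∈ Finset.range M, tw u (n0 + q * m) = tw u q * ∑ m ∈ Finset.range M,
        Complex.exp (((u * Real.log ((n0 : ℝ) / q + m) : ℝ) : ℂ) * Complex.I) := by
    rw [Finset.mul_sum]
    exact Finset.sum_congr rfl fun m _ => tw_progression hn hq u
  rw [h1, norm_mul, norm_tw, one_mul]

/-- splitting a sum over an interval into residue classes -/
theorem split_classes (F : ℕ → ℂ) (N q : ℕ) (hq : 1 ≤ q) :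
    ∑ i ∈ Finset.range N, F i =
      ∑ j ∈ Finset.range q, ∑ m ∈ Finset.range ((N + q - 1 - j) / q), F (j + q * m) := by
  have h1 : ∑ i ∈ Finset.range N, F i =
      ∑ j ∈ Finset.range q, ∑ i ∈ (Finset.range N).filter (fun i => i % q = j), F i := by
    refine (Finset.sum_fiberwise_of_maps_to ?_ F).symm
    intro i _
    exact Finset.mem_range.2 (Nat.mod_lt _ hq)
  rw [h1]
  refine Finset.sum_congr rfl fun j hj => ?_
  rw [Finset.mem_range] at hj
  symm
  refine Finset.sum_bij (fun m _ => j + q * m) ?_ ?_ ?_ ?_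
  · intro m hm
    rw [Finset.mem_range, Nat.lt_div_iff_mul_lt (by omega)] at hm
    rw [Finset.mem_filter, Finset.mem_range, Nat.add_mul_mod_self_left, Nat.mod_eq_of_lt hj]
    refine ⟨?_, rfl⟩
    rw [mul_comm] at hm
    omega
  · intro m _ m' _ h
    have h2 : q * m = q * m' := Nat.add_left_cancel h
    exact Nat.eq_of_mul_eq_mul_left (by omega) h2
  · intro i hi
    rw [Finset.mem_filter, Finset.mem_range] at hi
    refine ⟨i / q, ?_, ?_⟩
    · rw [Finset.mem_range, Nat.lt_div_iff_mul_lt (by omega)]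
      have h3 := Nat.mod_add_div i q
      rw [hi.2] at h3
      rw [mul_comm]
      omega
    · have h3 := Nat.mod_add_div i q
      rw [hi.2] at h3
      exact h3
  · intro m _
    rfl

theorem range_bound {N q j a : ℕ} (hq : 1 ≤ q) (hN : N ≤ a) {M : ℕ}
    (hM : (N + q - 1 - j) / q = M + 1) : q * M ≤ a := by
  have h1 := Nat.div_mul_le_self (N + q - 1 - j) q
  rw [hM, add_mul, one_mul] at h1
  rw [mul_comm]
  omega

end ZetaChiAux

open ZetaChiAux

theorem zeta_per (A q : ℕ) (hq : 1 ≤ q) : ∃ c C : ℝ, 0 < c ∧ 0 < C ∧ ∀ (ψ : ℕ → ℂ) (a b : ℕ) (u : ℝ),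
    (∀ n, ψ (n + q) = ψ n) → (∀ n, ‖ψ n‖ ≤ 1) → 1 ≤ a → a ≤ b → b ≤ 2 * a →
    1 ≤ |u| → |u| ≤ (a : ℝ) ^ A →
    ‖∑ n ∈ Finset.Ioc a b, ψ n * tw u n‖ ≤ C * (a / |u| + (a : ℝ) ^ (1 - c)) := by
  obtain ⟨c0, C0, hc0, hC0, hz⟩ := zeta_sum (2 * A)
  have hq0 : (0 : ℝ) < q := by exact_mod_cast hq
  have hq1 : (1 : ℝ) ≤ q := by exact_mod_cast hq
  refine ⟨min c0 1, q * (2 * C0 + 1) + q ^ 2, lt_min hc0 one_pos, by positivity, ?_⟩
  intro ψ a b u hψ hψ1 ha hab hb hu huA
  obtain ⟨c, hc⟩ : ∃ c, c = min c0 1 := ⟨_, rfl⟩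
  rw [← hc]
  have hc1 : c ≤ 1 := by rw [hc]; exact min_le_right _ _
  have hcc : c ≤ c0 := by rw [hc]; exact min_le_left _ _
  have ha1 : (1 : ℝ) ≤ a := by exact_mod_cast ha
  have ha0 : (0 : ℝ) < a := by linarith
  have hu0 : 0 < |u| := by linarith
  have hpow1 : (1 : ℝ) ≤ (a : ℝ) ^ (1 - c) := Real.one_le_rpow ha1 (by linarith)
  have hau : 0 ≤ (a : ℝ) / |u| := by positivity
  by_cases hbig : a < q ^ 2
  · -- trivial bound
    have h1 : ‖∑ n ∈ Finset.Ioc a b, ψ n * tw u n‖ ≤ ∑ n ∈ Finset.Ioc a b, (1 : ℝ) := by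
      refine norm_sum_le_of_le _ fun n _ => ?_
      rw [norm_mul, norm_tw, mul_one]
      exact hψ1 n
    rw [Finset.sum_const, Nat.card_Ioc, nsmul_eq_mul, mul_one] at h1
    have h2 : ((b - a : ℕ) : ℝ) ≤ (q : ℝ) ^ 2 := by
      have h3 : b - a ≤ q ^ 2 := by omega
      exact_mod_cast h3
    have h4 : (q : ℝ) ^ 2 * 1 ≤ (q * (2 * C0 + 1) + q ^ 2) * (a / |u| + (a : ℝ) ^ (1 - c)) := by
      apply mul_le_mul _ _ zero_le_one (by positivity)
      · have : (0 : ℝ) ≤ q * (2 * C0 + 1) := by positivity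
        linarith
      · linarith
    linarith
  · rw [not_lt] at hbig
    have hbig' : (q : ℝ) ^ 2 ≤ a := by exact_mod_cast hbig
    have hqa : (q : ℝ) ≤ a := by nlinarith
    -- rewrite the sum
    have hsum : ∑ n ∈ Finset.Ioc a b, ψ n * tw u n =
        ∑ i ∈ Finset.range (b - a), ψ (a + 1 + i) * tw u (a + 1 + i) := by
      have h1 : Finset.Ioc a b = Finset.Ico (a + 1) (b + 1) := by
        ext n
        rw [Finset.mem_Ioc, Finset.mem_Ico]
        omega
      rw [h1, Finset.sum_Ico_eq_sum_range]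
      congr 2
      omega
    rw [hsum, split_classes _ _ q hq]
    -- one class
    have hclass : ∀ j ∈ Finset.range q,
        ‖∑ m ∈ Finset.range ((b - a + q - 1 - j) / q),
          ψ (a + 1 + (j + q * m)) * tw u (a + 1 + (j + q * m))‖ ≤
          (2 * C0 + 1) * (a / |u| + (a : ℝ) ^ (1 - c)) := by
      intro j hj
      rw [Finset.mem_range] at hj
      obtain ⟨n0, hn0⟩ : ∃ n0, n0 = a + 1 + j := ⟨_, rfl⟩
      have e1 : ∀ m, a + 1 + (j + q * m) = n0 + q * m := by
        intro m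
        rw [hn0]
        ring
      have e2 : ∑ m ∈ Finset.range ((b - a + q - 1 - j) / q),
          ψ (a + 1 + (j + q * m)) * tw u (a + 1 + (j + q * m)) =
          ψ n0 * ∑ m ∈ Finset.range ((b - a + q - 1 - j) / q), tw u (n0 + q * m) := by
        rw [Finset.mul_sum]
        refine Finset.sum_congr rfl fun m _ => ?_
        rw [e1, per_mul hψ]
      rw [e2, norm_mul]
      have e3 : ‖ψ n0‖ * ‖∑ m ∈ Finset.range ((b - a + q - 1 - j) / q), tw u (n0 + q * m)‖ ≤
          1 * ‖∑ m ∈ Finset.range ((b - a + q - 1 - j) / q), tw u (n0 + q * m)‖ :=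
        mul_le_mul_of_nonneg_right (hψ1 n0) (norm_nonneg _)
      refine e3.trans ?_
      rw [one_mul]
      have hRHS : 1 ≤ (2 * C0 + 1) * (a / |u| + (a : ℝ) ^ (1 - c)) := by
        have : (1 : ℝ) * 1 ≤ (2 * C0 + 1) * (a / |u| + (a : ℝ) ^ (1 - c)) := by
          apply mul_le_mul _ _ zero_le_one (by positivity)
          · linarith
          · linarith
        linarith
      rcases hM : (b - a + q - 1 - j) / q with _ | M
      · rw [Finset.range_zero, Finset.sum_empty, norm_zero]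
        linarith
      · rw [Finset.sum_range_succ]
        have hqM := range_bound (N := b - a) (a := a) hq (by omega) hM
        have hqM' : (q : ℝ) * M ≤ a := by exact_mod_cast hqM
        have h1 : ‖tw u (n0 + q * M)‖ = 1 := norm_tw _ _
        have h2 := norm_add_le (∑ m ∈ Finset.range M, tw u (n0 + q * m)) (tw u (n0 + q * M))
        rw [h1] at h2
        rw [norm_progression (by omega) hq] at h2
        have hn1 : (a : ℝ) ≤ n0 := by
          have : a ≤ n0 := by omega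
          exact_mod_cast this
        have hn2 : (n0 : ℝ) ≤ 2 * a := by
          have h3 : a + 1 + j ≤ a + q := by omega
          have h4 : (n0 : ℝ) ≤ a + q := by rw [hn0]; exact_mod_cast h3
          linarith
        have hx1 : 1 ≤ (n0 : ℝ) / q := by
          rw [le_div_iff₀ hq0]
          linarith
        have hMx : (M : ℝ) ≤ (n0 : ℝ) / q := by
          rw [le_div_iff₀ hq0]
          linarith
        have hux : |u| ≤ ((n0 : ℝ) / q) ^ (2 * A) := by
          refine huA.trans ?_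
          rw [pow_mul]
          apply pow_le_pow_left₀ ha0.le
          have h5 : (a : ℝ) / q ≤ (n0 : ℝ) / q := by gcongr
          have h6 : (a : ℝ) ≤ ((a : ℝ) / q) ^ 2 := by
            rw [div_pow, le_div_iff₀ (by positivity), sq (a : ℝ)]
            exact mul_le_mul_of_nonneg_left hbig' ha0.le
          refine h6.trans ?_
          gcongr
        have h3 := hz ((n0 : ℝ) / q) M u hx1 hMx hu hux
        have hx2 : (n0 : ℝ) / q ≤ 2 * a := by
          rw [div_le_iff₀ hq0]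
          nlinarith
        have h4 : (n0 : ℝ) / q / |u| ≤ 2 * (a / |u|) := by
          rw [← mul_div_assoc]
          gcongr
        have h5 : ((n0 : ℝ) / q) ^ (1 - c0) ≤ 2 * (a : ℝ) ^ (1 - c) := by
          have h6 : ((n0 : ℝ) / q) ^ (1 - c0) ≤ ((n0 : ℝ) / q) ^ (1 - c) :=
            Real.rpow_le_rpow_of_exponent_le hx1 (by linarith)
          have h7 : ((n0 : ℝ) / q) ^ (1 - c) ≤ (2 * a) ^ (1 - c) :=
            Real.rpow_le_rpow (by positivity) hx2 (by linarith)
          have h8 : ((2 : ℝ) * a) ^ (1 - c) = 2 ^ (1 - c) * (a : ℝ) ^ (1 - c) :=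
            Real.mul_rpow (by norm_num) ha0.le
          have h9 : (2 : ℝ) ^ (1 - c) ≤ 2 := by
            have h10 : (2 : ℝ) ^ (1 - c) ≤ (2 : ℝ) ^ (1 : ℝ) :=
              Real.rpow_le_rpow_of_exponent_le (by norm_num) (by
                have : 0 < c := by rw [hc]; exact lt_min hc0 one_pos
                linarith)
            rwa [Real.rpow_one] at h10
          rw [h8] at h7
          have h11 : (2 : ℝ) ^ (1 - c) * (a : ℝ) ^ (1 - c) ≤ 2 * (a : ℝ) ^ (1 - c) :=
            mul_le_mul_of_nonneg_right h9 (by positivity)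
          linarith
        have h12 : C0 * ((n0 : ℝ) / q / |u| + ((n0 : ℝ) / q) ^ (1 - c0)) ≤
            C0 * (2 * (a / |u|) + 2 * (a : ℝ) ^ (1 - c)) :=
          mul_le_mul_of_nonneg_left (add_le_add h4 h5) hC0.le
        have h13 : 1 ≤ a / |u| + (a : ℝ) ^ (1 - c) := by linarith
        linarith
    refine (norm_sum_le_of_le _ hclass).trans ?_
    rw [Finset.sum_const, Finset.card_range, nsmul_eq_mul]
    have hfin : 0 ≤ (q : ℝ) ^ 2 * (a / |u| + (a : ℝ) ^ (1 - c)) := by positivity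
    linarith

end Pool.MRZ
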