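import Mathlib
import Pool.Agent.MRZ.ZetaChi

/-!
# MRZ/Kernel: the kernel `K_M(u) = ∑_m w_M(m) m^{-1-iu}` with a tent weight

`ww M m = max 0 (2 - |log m - log M|)`, supported in `[M e^{-2}, M e^2]`, `≥ 1` if `|log (m/M)| ≤ 1`.
`KK M u = ∑_{1 ≤ m ≤ M e²} ww M m · m^{-1-iu}`, `Φ(u) = ∫_{-2}^{2} (2-|v|) e^{-iuv} dv = (2 sin u/u)²`
(`Φ(0) = 4`), `0 ≤ Φ(u) ≤ 8/(1+u²)`.

* `kernel_main`: `|KK M u - M^{-iu} Φ(u)| ≤ C (1+|u|)/M` for `M ≥ 1`. Sum versus integral for the Lipschitz
  function `g(x) = ww(M,x) x^{-1-iu}` on `(0,∞)`: `|∑_{m≥1} g(m) - ∫_0^∞ g| ≤ ∫ |g'| + …`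
  (for each `m ≥ 1`: `|g(m) - ∫_{m-1}^{m} g| ≤ sup` of the variation on `[m-1,m]`), `|g'(x)| ≤ (3+|u|)·2/x²` on
  the support `x ≥ M e^{-2}`, so the error is `≤ C (1+|u|)/M`; substitution `x = M e^v` in the integral.
  (Alternative without calculus of `ww`: write the tent as an average of indicators
  `ww = ∫_0^2 1_{|log(m/M)| ≤ s} ds` and use the sharp sums `∑_{x<m≤x'} m^{-1-iu}`.)
* `kernel`: for `|u| ≤ M^A`: `|KK M u| ≤ C (1/(1+u²) + M^{-c})`. For `|u| ≤ M^{1/2}` this is `kernel_main`.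
  For `M^{1/2} ≤ |u| ≤ M^A`: cover `[M e^{-2}, M e^2]` by at most `7` dyadic blocks `(a,2a]`, partial summation
  (the weight `ww(M,m)/m` has bounded variation `≤ C/M` on a block) from `zeta_per` with `ψ = 1`, `q = 1`:
  `C M^{-1} (M/|u| + M^{1-c}) ≤ C M^{-c'}`. (For small `M` trivial: `|KK M u| ≤ C`.)
-/

namespace Pool.MRZ

open Finset

/-- tent weight -/
noncomputable def ww (M : ℝ) (m : ℕ) : ℝ := max 0 (2 - |Real.log m - Real.log M|)

noncomputable def KK (M u : ℝ) : ℂ :=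
  ∑ m ∈ Finset.Icc 1 ⌊M * Real.exp 2⌋₊, ((ww M m : ℝ) : ℂ) * tw (-u) m / (m : ℂ)

noncomputable def Phi (u : ℝ) : ℝ := if u = 0 then 4 else (2 * Real.sin u / u) ^ 2

theorem Phi_nonneg (u : ℝ) : 0 ≤ Phi u := by
  unfold Phi
  split_ifs
  · norm_num
  · positivity

theorem Phi_le (u : ℝ) : Phi u ≤ 8 / (1 + u ^ 2) := by
  unfold Phi
  split_ifs with h
  · rw [h]; norm_num
  · have h1 : Real.sin u ^ 2 ≤ 1 := Real.sin_sq_le_one u
    have h2 : Real.sin u ^ 2 ≤ u ^ 2 := Real.sin_sq_le_sq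
    have h3 : 0 < u ^ 2 := by positivity
    rw [le_div_iff₀ (by positivity), div_pow, div_mul_eq_mul_div, div_le_iff₀ h3]
    nlinarith [mul_le_mul_of_nonneg_right h1 h3.le]

/-! ### the function `F u v = max 0 (2 - |v|) e^{-iuv}` -/

private noncomputable def tent (v : ℝ) : ℝ := max 0 (2 - |v|)

private noncomputable def FF (u v : ℝ) : ℂ :=
  (tent v : ℂ) * Complex.exp (((-u * v : ℝ) : ℂ) * Complex.I)

private lemma tent_nonneg (v : ℝ) : 0 ≤ tent v := le_max_left _ _

private lemma tent_le (v : ℝ) : tent v ≤ 2 := by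
  unfold tent
  exact max_le (by norm_num) (by linarith [abs_nonneg v])

private lemma tent_zero {v : ℝ} (h : 2 ≤ |v|) : tent v = 0 := by
  unfold tent
  exact max_eq_left (by linarith)

private lemma tent_lip (v w : ℝ) : |tent v - tent w| ≤ |v - w| := by
  unfold tent
  rw [max_comm 0, max_comm 0]
  refine (abs_max_sub_max_le_abs _ _ _).trans ?_
  have : 2 - |v| - (2 - |w|) = |w| - |v| := by ring
  rw [this, abs_sub_comm v w]
  exact abs_abs_sub_abs_le_abs_sub w v

private lemma exp_lip (a b : ℝ) :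
    ‖Complex.exp ((a : ℂ) * Complex.I) - Complex.exp ((b : ℂ) * Complex.I)‖ ≤ |a - b| := by
  have h : Complex.exp ((a : ℂ) * Complex.I) - Complex.exp ((b : ℂ) * Complex.I) =
      Complex.exp ((b : ℂ) * Complex.I) * (Complex.exp (Complex.I * ((a - b : ℝ) : ℂ)) - 1) := by
    rw [mul_sub, ← Complex.exp_add, mul_one]
    congr 2
    push_cast
    ring
  rw [h, norm_mul, Complex.norm_exp_ofReal_mul_I, one_mul]
  exact Real.norm_exp_I_mul_ofReal_sub_one_le

private lemma FF_lip (u v w : ℝ) : ‖FF u v - FF u w‖ ≤ (1 + 2 * |u|) * |v - w| := by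
  have h : FF u v - FF u w = ((tent v - tent w : ℝ) : ℂ) * Complex.exp (((-u * v : ℝ) : ℂ) * Complex.I)
      + (tent w : ℂ) * (Complex.exp (((-u * v : ℝ) : ℂ) * Complex.I) -
        Complex.exp (((-u * w : ℝ) : ℂ) * Complex.I)) := by
    unfold FF
    push_cast
    ring
  rw [h]
  refine (norm_add_le _ _).trans ?_
  rw [norm_mul, norm_mul, Complex.norm_exp_ofReal_mul_I, mul_one, Complex.norm_real,
    Complex.norm_real, Real.norm_eq_abs, Real.norm_eq_abs, abs_of_nonneg (tent_nonneg w)]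
  have h1 := tent_lip v w
  have h2 := exp_lip (-u * v) (-u * w)
  have h3 : |-u * v - -u * w| = |u| * |v - w| := by
    rw [← mul_sub, abs_mul, abs_neg]
  rw [h3] at h2
  have h4 := mul_le_mul (tent_le w) h2 (norm_nonneg _) (by norm_num)
  nlinarith

private lemma FF_norm (u v : ℝ) : ‖FF u v‖ ≤ 2 := by
  unfold FF
  rw [norm_mul, Complex.norm_exp_ofReal_mul_I, mul_one, Complex.norm_real, Real.norm_eq_abs,
    abs_of_nonneg (tent_nonneg v)]
  exact tent_le v

private lemma FF_zero (u : ℝ) {v : ℝ} (h : 2 ≤ |v|) : FF u v = 0 := by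
  unfold FF
  rw [tent_zero h]
  simp

private lemma FF_cont (u : ℝ) : Continuous (FF u) := by
  unfold FF tent
  fun_prop

private lemma int_half (z : ℂ) (hz : z ≠ 0) :
    ∫ v in (0 : ℝ)..2, ((2 : ℂ) - v) * Complex.exp (z * v) = (Complex.exp (2 * z) - 1) / z ^ 2 - 2 / z := by
  have hd : ∀ v ∈ Set.uIcc (0 : ℝ) 2, HasDerivAt
      (fun v : ℝ => ((2 : ℂ) - v) * Complex.exp (z * v) / z + Complex.exp (z * v) / z ^ 2)
      (((2 : ℂ) - v) * Complex.exp (z * v)) v := by
    intro v _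
    have h1 : HasDerivAt (fun v : ℝ => (v : ℂ)) 1 v := Complex.ofRealCLM.hasDerivAt
    have h2 : HasDerivAt (fun v : ℝ => z * (v : ℂ)) (z * 1) v := h1.const_mul z
    have h3 := h2.cexp
    have h4 : HasDerivAt (fun v : ℝ => (2 : ℂ) - v) (-1) v := by
      simpa using h1.const_sub 2
    have h5 := ((h4.mul h3).div_const z).add (h3.div_const (z ^ 2))
    have h6 : HasDerivAt
      (fun v : ℝ => ((2 : ℂ) - v) * Complex.exp (z * v) / z + Complex.exp (z * v) / z ^ 2) _ v := h5
    refine h6.congr_deriv ?_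
    field_simp
    ring
  rw [intervalIntegral.integral_eq_sub_of_hasDerivAt hd]
  · push_cast
    rw [mul_comm z 2]
    field_simp
    simp
    ring
  · apply Continuous.intervalIntegrable
    fun_prop

private lemma int_FF (u : ℝ) : ∫ v in (-2 : ℝ)..2, FF u v = Phi u := by
  have hi : ∀ a b, IntervalIntegrable (FF u) MeasureTheory.volume a b := fun a b =>
    (FF_cont u).intervalIntegrable a b
  have h1 : ∫ v in (-2 : ℝ)..0, FF u v = ∫ v in (0 : ℝ)..2, FF (-u) v := by
    have := intervalIntegral.integral_comp_neg (a := 0) (b := 2) (fun v => FF u v)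
    rw [neg_zero] at this
    rw [← this]
    refine intervalIntegral.integral_congr fun v _ => ?_
    simp only [FF, tent, abs_neg]
    congr 4
    ring
  have h2 : ∀ w : ℝ, ∫ v in (0 : ℝ)..2, FF w v =
      ∫ v in (0 : ℝ)..2, ((2 : ℂ) - v) * Complex.exp ((-w * Complex.I) * v) := by
    intro w
    refine intervalIntegral.integral_congr fun v hv => ?_
    rw [Set.uIcc_of_le (by norm_num)] at hv
    have h3 : tent v = 2 - v := by
      unfold tent
      rw [abs_of_nonneg hv.1]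
      exact max_eq_right (by linarith [hv.2])
    simp only [FF, h3]
    push_cast
    congr 2
    ring
  rw [← intervalIntegral.integral_add_adjacent_intervals (hi (-2) 0) (hi 0 2), h1, h2, h2]
  unfold Phi
  split_ifs with hu
  · subst hu
    simp only [neg_zero, Complex.ofReal_zero, zero_mul, Complex.exp_zero, mul_one]
    have : ∫ v in (0 : ℝ)..2, ((2 : ℂ) - v) = 2 := by
      have h5 : ∫ v in (0 : ℝ)..2, ((2 : ℂ) - v) = ((∫ v in (0 : ℝ)..2, (2 - v) : ℝ) : ℂ) := by
        rw [← intervalIntegral.integral_ofReal]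
        push_cast
        rfl
      rw [h5, intervalIntegral.integral_sub (by simp) (by simp)]
      simp
      norm_num
    rw [this]
    push_cast
    norm_num
  · have hu' : (u : ℂ) ≠ 0 := by exact_mod_cast hu
    rw [int_half _ (by simp [hu]), int_half _ (by simp [hu])]
    have hs : (Real.sin u : ℂ) = (Complex.exp (-u * Complex.I) - Complex.exp (u * Complex.I)) * Complex.I / 2 := by
      rw [Complex.ofReal_sin]
      rfl
    push_cast
    rw [← Complex.ofReal_sin, hs]
    have e1 : Complex.exp (2 * (-(-(u : ℂ)) * Complex.I)) = Complex.exp (u * Complex.I) ^ 2 := by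
      rw [← Complex.exp_nat_mul]
      congr 1
      push_cast
      ring
    have e2 : Complex.exp (2 * (-(u : ℂ) * Complex.I)) = Complex.exp (-u * Complex.I) ^ 2 := by
      rw [← Complex.exp_nat_mul]
      congr 1
    have e3 : Complex.exp (u * Complex.I) * Complex.exp (-u * Complex.I) = 1 := by
      rw [← Complex.exp_add]
      simp
    rw [e1, e2]
    have hI : Complex.I ^ 2 = -1 := Complex.I_sq
    set E := Complex.exp (u * Complex.I)
    set E' := Complex.exp (-u * Complex.I)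
    have h6 : (-(-(u : ℂ)) * Complex.I) ^ 2 = -(u : ℂ) ^ 2 := by
      rw [neg_neg, mul_pow, hI]; ring
    have h7 : (-(u : ℂ) * Complex.I) ^ 2 = -(u : ℂ) ^ 2 := by
      rw [mul_pow, hI]; ring
    rw [h6, h7]
    have h8 : (2 * ((E' - E) * Complex.I / 2) / (u : ℂ)) ^ 2 = - (E' - E) ^ 2 / u ^ 2 := by
      rw [div_pow]
      congr 1
      rw [show 2 * ((E' - E) * Complex.I / 2) = (E' - E) * Complex.I by ring, mul_pow, hI]
      ring
    rw [h8]
    have hI0 : Complex.I ≠ 0 := Complex.I_ne_zero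
    field_simp
    linear_combination (-2 * Complex.I) * e3

private lemma step_bound (u a b : ℝ) (hab : a ≤ b) :
    ‖((b - a : ℝ) : ℂ) * FF u a - ∫ v in a..b, FF u v‖ ≤ (1 + 2 * |u|) * (b - a) ^ 2 := by
  have h1 : ((b - a : ℝ) : ℂ) * FF u a = ∫ _v in a..b, FF u a := by
    rw [intervalIntegral.integral_const, Complex.real_smul]
  rw [h1, ← intervalIntegral.integral_sub (by simp) ((FF_cont u).intervalIntegrable a b)]
  have h2 := intervalIntegral.norm_integral_le_of_norm_le_const (a := a) (b := b)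
    (C := (1 + 2 * |u|) * (b - a)) (f := fun v => FF u a - FF u v) (by
      intro v hv
      rw [Set.uIoc_of_le hab] at hv
      refine (FF_lip u a v).trans ?_
      have h3 : |a - v| = v - a := by
        rw [abs_sub_comm]
        exact abs_of_nonneg (by linarith [hv.1])
      rw [h3]
      exact mul_le_mul_of_nonneg_left (by linarith [hv.2]) (by positivity))
  have h4 : |b - a| = b - a := abs_of_nonneg (by linarith)
  rw [h4] at h2
  refine h2.trans (le_of_eq ?_)
  ring

private lemma log_step (m : ℕ) (hm : 1 ≤ m) :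
    1 / ((m : ℝ) + 1) ≤ Real.log ((m : ℝ) + 1) - Real.log m ∧
      Real.log ((m : ℝ) + 1) - Real.log m ≤ 1 / m := by
  have hm' : (0 : ℝ) < m := by exact_mod_cast hm
  rw [← Real.log_div (by positivity) hm'.ne']
  constructor
  · refine le_trans (le_of_eq ?_) (Real.one_sub_inv_le_log_of_pos (by positivity))
    field_simp
    ring
  · refine (Real.log_le_sub_one_of_pos (by positivity)).trans (le_of_eq ?_)
    field_simp
    ring

private lemma inv_step (m : ℕ) (hm : 1 ≤ m) :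
    1 / (m : ℝ) - 1 / ((m : ℝ) + 1) ≤ 1 / (m : ℝ) ^ 2 := by
  have hm' : (0 : ℝ) < m := by exact_mod_cast hm
  rw [div_sub_div _ _ hm'.ne' (by positivity), div_le_div_iff₀ (by positivity) (by positivity)]
  nlinarith

private lemma term_bound (L u : ℝ) (m : ℕ) (hm : 1 ≤ m) :
    ‖(1 / (m : ℂ)) * FF u (Real.log m - L) -
      ∫ v in (Real.log m - L)..(Real.log ((m : ℝ) + 1) - L), FF u v‖ ≤ (3 + 2 * |u|) / (m : ℝ) ^ 2 := by
  have hm' : (0 : ℝ) < m := by exact_mod_cast hm
  obtain ⟨h1, h2⟩ := log_step m hm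
  have h3 := inv_step m hm
  set δ := Real.log ((m : ℝ) + 1) - Real.log m with hδ
  have hδ' : (Real.log ((m : ℝ) + 1) - L) - (Real.log m - L) = δ := by rw [hδ]; ring
  have hδ0 : 0 ≤ δ := le_trans (by positivity) h1
  have h4 := step_bound u (Real.log m - L) (Real.log ((m : ℝ) + 1) - L) (by linarith)
  rw [hδ'] at h4
  have h5 : (1 / (m : ℂ)) * FF u (Real.log m - L) -
      ∫ v in (Real.log m - L)..(Real.log ((m : ℝ) + 1) - L), FF u v =
      ((1 / (m : ℝ) - δ : ℝ) : ℂ) * FF u (Real.log m - L) + (((δ : ℝ) : ℂ) * FF u (Real.log m - L) -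
      ∫ v in (Real.log m - L)..(Real.log ((m : ℝ) + 1) - L), FF u v) := by
    push_cast
    ring
  rw [h5]
  refine (norm_add_le _ _).trans ?_
  rw [norm_mul, Complex.norm_real, Real.norm_eq_abs, abs_of_nonneg (by linarith)]
  have h6 : (1 / (m : ℝ) - δ) * ‖FF u (Real.log m - L)‖ ≤ (1 / (m : ℝ) ^ 2) * 2 :=
    mul_le_mul (by linarith) (FF_norm _ _) (norm_nonneg _) (by positivity)
  have h7 : δ ^ 2 ≤ 1 / (m : ℝ) ^ 2 := by
    have := pow_le_pow_left₀ hδ0 h2 2
    rwa [div_pow, one_pow] at this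
  have h8 : (1 + 2 * |u|) * δ ^ 2 ≤ (1 + 2 * |u|) * (1 / (m : ℝ) ^ 2) :=
    mul_le_mul_of_nonneg_left h7 (by positivity)
  calc _ ≤ (1 / (m : ℝ) ^ 2) * 2 + (1 + 2 * |u|) * (1 / (m : ℝ) ^ 2) := add_le_add h6 (h4.trans h8)
    _ = _ := by ring

private lemma int_FF_zero (u a b : ℝ) (hab : a ≤ b) (h : b ≤ -2 ∨ 2 ≤ a) :
    ∫ v in a..b, FF u v = 0 := by
  have : ∫ v in a..b, FF u v = ∫ _v in a..b, (0 : ℂ) := by
    refine intervalIntegral.integral_congr fun v hv => ?_
    rw [Set.uIcc_of_le hab] at hv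
    apply FF_zero
    rcases h with h | h
    · rw [abs_of_nonpos (by linarith [hv.2])]; linarith [hv.2]
    · rw [abs_of_nonneg (by linarith [hv.1])]; linarith [hv.1]
  rw [this]
  simp

private lemma KK_eq (M u : ℝ) : KK M u =
    Complex.exp (((-u * Real.log M : ℝ) : ℂ) * Complex.I) *
      ∑ m ∈ Finset.Icc 1 ⌊M * Real.exp 2⌋₊, (1 / (m : ℂ)) * FF u (Real.log m - Real.log M) := by
  unfold KK
  rw [Finset.mul_sum]
  refine Finset.sum_congr rfl fun m _ => ?_
  unfold ww FF tent tw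
  have : Complex.exp (((-u * Real.log m : ℝ) : ℂ) * Complex.I) =
      Complex.exp (((-u * Real.log M : ℝ) : ℂ) * Complex.I) *
      Complex.exp (((-u * (Real.log m - Real.log M) : ℝ) : ℂ) * Complex.I) := by
    rw [← Complex.exp_add]
    congr 1
    push_cast
    ring
  rw [this]
  ring

private lemma KK_triv (M u : ℝ) (hM : 0 ≤ M) : ‖KK M u‖ ≤ 2 * (M * Real.exp 2) := by
  rw [KK_eq, norm_mul, Complex.norm_exp_ofReal_mul_I, one_mul]
  refine (norm_sum_le _ _).trans ?_
  have h1 : ∀ m ∈ Finset.Icc 1 ⌊M * Real.exp 2⌋₊,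
      ‖(1 / (m : ℂ)) * FF u (Real.log m - Real.log M)‖ ≤ 2 := by
    intro m hm
    have hm1 : (1 : ℝ) ≤ m := by exact_mod_cast (Finset.mem_Icc.mp hm).1
    rw [norm_mul, norm_div, norm_one, Complex.norm_natCast]
    have h2 : 1 / (m : ℝ) ≤ 1 := by
      rw [div_le_one (by linarith)]
      exact hm1
    calc _ ≤ 1 * 2 := mul_le_mul h2 (FF_norm _ _) (norm_nonneg _) (by norm_num)
      _ = 2 := by norm_num
  refine (Finset.sum_le_sum h1).trans ?_
  rw [Finset.sum_const, Nat.card_Icc, nsmul_eq_mul, Nat.add_sub_cancel, mul_comm]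
  exact mul_le_mul_of_nonneg_left (Nat.floor_le (by positivity)) (by norm_num)

theorem kernel_main : ∃ C : ℝ, 0 < C ∧ ∀ M u : ℝ, 1 ≤ M →
    ‖KK M u - Complex.exp (((-u * Real.log M : ℝ) : ℂ) * Complex.I) * Phi u‖ ≤
      C * (1 + |u|) / M := by
  refine ⟨12 * Real.exp 2 ^ 3 + (2 * Real.exp 2 ^ 2 + 8) * Real.exp 2, by positivity, ?_⟩
  intro M u hM
  have hM0 : 0 < M := by linarith
  have hE : 0 < Real.exp 2 := Real.exp_pos 2
  set E := Real.exp 2 with hEdef
  have hu : 0 ≤ |u| := abs_nonneg u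
  rcases lt_or_ge M E with hME | hME
  · -- small `M`
    have h1 : ‖KK M u - Complex.exp (((-u * Real.log M : ℝ) : ℂ) * Complex.I) * Phi u‖ ≤
        2 * E ^ 2 + 8 := by
      refine (norm_sub_le _ _).trans ?_
      rw [norm_mul, Complex.norm_exp_ofReal_mul_I, one_mul, Complex.norm_real, Real.norm_eq_abs,
        abs_of_nonneg (Phi_nonneg u)]
      have h2 := KK_triv M u hM0.le
      rw [← hEdef] at h2
      have h3 : Phi u ≤ 8 := (Phi_le u).trans (div_le_self (by norm_num) (by nlinarith [sq_nonneg u]))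
      have h4 : M * E ≤ E ^ 2 := by nlinarith
      linarith
    refine h1.trans ?_
    rw [le_div_iff₀ hM0]
    have h5 : (2 * E ^ 2 + 8) * M ≤ (2 * E ^ 2 + 8) * E := mul_le_mul_of_nonneg_left hME.le (by positivity)
    have h6 : (2 * E ^ 2 + 8) * E ≤ 12 * E ^ 3 + (2 * E ^ 2 + 8) * E := by
      have : 0 < E ^ 3 := by positivity
      linarith
    have h7 : 12 * E ^ 3 + (2 * E ^ 2 + 8) * E ≤ (12 * E ^ 3 + (2 * E ^ 2 + 8) * E) * (1 + |u|) :=
      le_mul_of_one_le_right (by positivity) (by linarith)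
    linarith
  · -- large `M`
    set L := Real.log M with hL
    set N := ⌊M * E⌋₊ with hN
    have hL2 : 2 ≤ L := by
      rw [hL, ← Real.log_exp 2]
      exact Real.log_le_log hE hME
    have hN1 : (N : ℝ) ≤ M * E := Nat.floor_le (by positivity)
    have hN2 : M * E < (N : ℝ) + 1 := Nat.lt_floor_add_one _
    have hmono : ∀ m : ℕ, 1 ≤ m → Real.log m ≤ Real.log ((m : ℝ) + 1) := fun m hm =>
      Real.log_le_log (by exact_mod_cast hm) (by linarith)
    have hadj : ∑ m ∈ Finset.Ico 1 (N + 1),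
        ∫ v in (Real.log m - L)..(Real.log ((m : ℝ) + 1) - L), FF u v = Phi u := by
      have h1 := intervalIntegral.sum_integral_adjacent_intervals_Ico (f := FF u)
        (μ := MeasureTheory.volume) (a := fun m : ℕ => Real.log m - L) (m := 1) (n := N + 1)
        (by omega) (fun k _ => (FF_cont u).intervalIntegrable _ _)
      simp only [Nat.cast_add, Nat.cast_one, Real.log_one, zero_sub] at h1
      rw [h1]
      have h2 : (2 : ℝ) ≤ Real.log ((N : ℝ) + 1) - L := by
        have h3 : Real.log (M * E) ≤ Real.log ((N : ℝ) + 1) :=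
          Real.log_le_log (by positivity) hN2.le
        rw [Real.log_mul hM0.ne' hE.ne', hEdef, Real.log_exp] at h3
        linarith
      have hi : ∀ a b, IntervalIntegrable (FF u) MeasureTheory.volume a b := fun a b =>
        (FF_cont u).intervalIntegrable a b
      rw [← intervalIntegral.integral_add_adjacent_intervals (hi (-L) (-2)) (hi (-2) _),
        ← intervalIntegral.integral_add_adjacent_intervals (hi (-2) 2) (hi 2 _), int_FF,
        int_FF_zero u (-L) (-2) (by linarith) (Or.inl le_rfl),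
        int_FF_zero u 2 _ h2 (Or.inr le_rfl)]
      simp
    have hIcc : Finset.Icc 1 N = Finset.Ico 1 (N + 1) := by
      ext m
      simp only [Finset.mem_Icc, Finset.mem_Ico]
      omega
    rw [KK_eq, ← mul_sub, norm_mul, Complex.norm_exp_ofReal_mul_I, one_mul, ← hadj, ← hEdef, ← hN,
      hIcc, ← Finset.sum_sub_distrib]
    refine (norm_sum_le _ _).trans ?_
    have hterm : ∀ m ∈ Finset.Ico 1 (N + 1), ‖1 / (m : ℂ) * FF u (Real.log m - L) -
        ∫ v in (Real.log m - L)..(Real.log ((m : ℝ) + 1) - L), FF u v‖ ≤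
        (3 + 2 * |u|) * (2 * E / M) ^ 2 := by
      intro m hm
      have hm1 : 1 ≤ m := (Finset.mem_Ico.mp hm).1
      have hm1' : (1 : ℝ) ≤ m := by exact_mod_cast hm1
      rcases le_or_gt (Real.log ((m : ℝ) + 1) - L) (-2) with h | h
      · rw [int_FF_zero u _ _ (by linarith [hmono m hm1]) (Or.inl h),
          FF_zero u (by rw [abs_of_nonpos] <;> linarith [hmono m hm1])]
        simp
        positivity
      · refine (term_bound L u m hm1).trans ?_
        rw [div_eq_mul_inv]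
        refine mul_le_mul_of_nonneg_left ?_ (by positivity)
        rw [← inv_pow]
        refine pow_le_pow_left₀ (by positivity) ?_ 2
        rw [inv_le_comm₀ (by positivity) (by positivity), inv_div, div_le_iff₀ (by positivity)]
        have h1 : Real.log (M / E) < Real.log ((m : ℝ) + 1) := by
          rw [Real.log_div hM0.ne' hE.ne', hEdef, Real.log_exp]
          linarith
        have h2 : M / E < (m : ℝ) + 1 := (Real.log_lt_log_iff (by positivity) (by positivity)).mp h1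
        rw [div_lt_iff₀ hE] at h2
        nlinarith
    refine (Finset.sum_le_sum hterm).trans ?_
    rw [Finset.sum_const, Nat.card_Ico, nsmul_eq_mul, Nat.add_sub_cancel]
    have h1 : (N : ℝ) * ((3 + 2 * |u|) * (2 * E / M) ^ 2) ≤ (M * E) * ((3 + 2 * |u|) * (2 * E / M) ^ 2) :=
      mul_le_mul_of_nonneg_right hN1 (by positivity)
    refine h1.trans ?_
    have h2 : (M * E) * ((3 + 2 * |u|) * (2 * E / M) ^ 2) = 4 * E ^ 3 * (3 + 2 * |u|) / M := by
      field_simp
      ring
    rw [h2]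
    refine div_le_div_of_nonneg_right ?_ hM0.le
    have h3 : 0 < E ^ 3 := by positivity
    have h4 : 0 ≤ E ^ 3 * |u| := by positivity
    have h5 : 0 ≤ ((2 * E ^ 2 + 8) * E) * (1 + |u|) := by positivity
    nlinarith

/-! ### large frequencies -/

private lemma block (c C : ℝ) (hC : 0 < C) (hc : 0 < c) (A : ℕ)
    (h : ∀ (ψ : ℕ → ℂ) (a b : ℕ) (u : ℝ),
      (∀ n, ψ (n + 1) = ψ n) → (∀ n, ‖ψ n‖ ≤ 1) → 1 ≤ a → a ≤ b → b ≤ 2 * a →
      1 ≤ |u| → |u| ≤ (a : ℝ) ^ A →
      ‖∑ n ∈ Finset.Ioc a b, ψ n * tw u n‖ ≤ C * (a / |u| + (a : ℝ) ^ (1 - c)))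
    (u : ℝ) (hu : 1 ≤ |u|) (k : ℕ) : ∀ a b : ℕ, 1 ≤ a → a ≤ b → b ≤ 2 ^ k * a →
      |u| ≤ (a : ℝ) ^ A →
      ‖∑ n ∈ Finset.Ioc a b, tw u n‖ ≤ k * 2 ^ k * (C * (a / |u| + (a : ℝ) ^ (1 - c))) := by
  induction k with
  | zero =>
    intro a b ha hab hb _
    have : b = a := by omega
    subst this
    simp
  | succ k ih =>
    intro a b ha hab hb hua
    have ha' : (0 : ℝ) < a := by exact_mod_cast ha
    have hu0 : 0 < |u| := by linarith
    have hD : 0 ≤ (a : ℝ) / |u| + (a : ℝ) ^ (1 - c) := by positivity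
    set D := (a : ℝ) / |u| + (a : ℝ) ^ (1 - c) with hDdef
    have hk : (1 : ℝ) ≤ 2 ^ k := one_le_pow₀ (by norm_num)
    have hk0 : (0 : ℝ) ≤ k := Nat.cast_nonneg k
    have h0 : ∀ b, a ≤ b → b ≤ 2 * a → ‖∑ n ∈ Finset.Ioc a b, tw u n‖ ≤ C * D := by
      intro b h1 h2
      have := h (fun _ => 1) a b u (by simp) (by simp) ha h1 h2 hu hua
      simpa using this
    rcases le_or_gt b (2 * a) with h1 | h1
    · refine (h0 b hab h1).trans ?_
      have h2 : 0 ≤ C * D := by positivity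
      have h3 : (1 : ℝ) ≤ ((k + 1 : ℕ) : ℝ) * 2 ^ (k + 1) := by
        have : (1 : ℝ) ≤ ((k + 1 : ℕ) : ℝ) := by push_cast; linarith
        exact one_le_mul_of_one_le_of_one_le this (one_le_pow₀ (by norm_num))
      exact le_mul_of_one_le_left h2 h3
    · have h2 : ∑ n ∈ Finset.Ioc a b, tw u n =
          ∑ n ∈ Finset.Ioc a (2 * a), tw u n + ∑ n ∈ Finset.Ioc (2 * a) b, tw u n :=
        (Finset.sum_Ioc_consecutive _ (by omega) h1.le).symm
      rw [h2]
      refine (norm_add_le _ _).trans ?_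
      have h3 := h0 (2 * a) (by omega) le_rfl
      have h4 := ih (2 * a) b (by omega) h1.le (by rw [pow_succ] at hb; linarith [hb]) (by
        refine hua.trans (pow_le_pow_left₀ ha'.le ?_ A)
        push_cast
        linarith)
      have h5 : ((2 * a : ℕ) : ℝ) / |u| + ((2 * a : ℕ) : ℝ) ^ (1 - c) ≤ 2 * D := by
        have h6 : ((2 * a : ℕ) : ℝ) ^ (1 - c) ≤ 2 * (a : ℝ) ^ (1 - c) := by
          push_cast
          rw [Real.mul_rpow (by norm_num) ha'.le]
          refine mul_le_mul_of_nonneg_right ?_ (by positivity)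
          calc (2 : ℝ) ^ (1 - c) ≤ 2 ^ (1 : ℝ) :=
                Real.rpow_le_rpow_of_exponent_le (by norm_num) (by linarith)
            _ = 2 := Real.rpow_one 2
        have h7 : ((2 * a : ℕ) : ℝ) / |u| = 2 * (a / |u|) := by
          push_cast
          ring
        rw [h7, hDdef]
        linarith
      have h8 : (k : ℝ) * 2 ^ k * (C * (((2 * a : ℕ) : ℝ) / |u| + ((2 * a : ℕ) : ℝ) ^ (1 - c))) ≤
          k * 2 ^ k * (C * (2 * D)) := by
        refine mul_le_mul_of_nonneg_left (mul_le_mul_of_nonneg_left h5 hC.le) (by positivity)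
      have h9 : C * D ≤ 2 ^ (k + 1) * (C * D) :=
        le_mul_of_one_le_left (by positivity) (one_le_pow₀ (by norm_num))
      calc _ ≤ C * D + k * 2 ^ k * (C * (2 * D)) := add_le_add h3 (h4.trans h8)
        _ ≤ 2 ^ (k + 1) * (C * D) + k * 2 ^ k * (C * (2 * D)) := by linarith
        _ = _ := by
          push_cast
          ring

private lemma abel (w : ℕ → ℂ) (z : ℕ → ℂ) (a N : ℕ) (h : a ≤ N) :
    ∑ m ∈ Finset.Ioc a N, w m * z m = w (N + 1) * ∑ n ∈ Finset.Ioc a N, z n +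
      ∑ m ∈ Finset.Ioc a N, (w m - w (m + 1)) * ∑ n ∈ Finset.Ioc a m, z n := by
  induction N, h using Nat.le_induction with
  | base => simp
  | succ N hN ih =>
    rw [Finset.sum_Ioc_succ_top hN, Finset.sum_Ioc_succ_top hN (f := fun m =>
      (w m - w (m + 1)) * ∑ n ∈ Finset.Ioc a m, z n), ih, Finset.sum_Ioc_succ_top hN (f := z)]
    ring

private lemma ww_nonneg (M : ℝ) (m : ℕ) : 0 ≤ ww M m := le_max_left _ _

private lemma ww_le (M : ℝ) (m : ℕ) : ww M m ≤ 2 :=
  max_le (by norm_num) (by linarith [abs_nonneg (Real.log m - Real.log M)])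

private lemma ww_step (M : ℝ) (m : ℕ) (hm : 1 ≤ m) : |ww M m - ww M (m + 1)| ≤ 1 / m := by
  have h := tent_lip (Real.log m - Real.log M) (Real.log ((m + 1 : ℕ) : ℝ) - Real.log M)
  have h2 := (log_step m hm).2
  have h3 : 0 ≤ Real.log ((m : ℝ) + 1) - Real.log m := le_trans (by positivity) (log_step m hm).1
  refine (show |ww M m - ww M (m + 1)| ≤ _ from h).trans ?_
  rw [show Real.log m - Real.log M - (Real.log ((m + 1 : ℕ) : ℝ) - Real.log M) =
    -(Real.log ((m : ℝ) + 1) - Real.log m) by push_cast; ring, abs_neg, abs_of_nonneg h3]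
  exact h2

private lemma w_step (M : ℝ) (m : ℕ) (hm : 1 ≤ m) :
    ‖((ww M m : ℝ) : ℂ) / (m : ℂ) - ((ww M (m + 1) : ℝ) : ℂ) / ((m + 1 : ℕ) : ℂ)‖ ≤ 3 / (m : ℝ) ^ 2 := by
  have hm' : (0 : ℝ) < m := by exact_mod_cast hm
  have h0 : ((ww M m : ℝ) : ℂ) / (m : ℂ) - ((ww M (m + 1) : ℝ) : ℂ) / ((m + 1 : ℕ) : ℂ) =
      (((ww M m - ww M (m + 1)) / m + ww M (m + 1) * (1 / m - 1 / ((m : ℝ) + 1)) : ℝ) : ℂ) := by
    push_cast
    ring
  rw [h0, Complex.norm_real, Real.norm_eq_abs]
  refine (abs_add_le _ _).trans ?_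
  have h1 : |(ww M m - ww M (m + 1)) / m| ≤ 1 / (m : ℝ) ^ 2 := by
    rw [abs_div, abs_of_pos hm', div_le_div_iff₀ hm' (by positivity)]
    have := ww_step M m hm
    rw [le_div_iff₀ hm'] at this
    nlinarith
  have h2 : |ww M (m + 1) * (1 / m - 1 / ((m : ℝ) + 1))| ≤ 2 * (1 / (m : ℝ) ^ 2) := by
    have h3 : 0 ≤ 1 / (m : ℝ) - 1 / ((m : ℝ) + 1) := by
      have : 1 / ((m : ℝ) + 1) ≤ 1 / (m : ℝ) := one_div_le_one_div_of_le hm' (by linarith)
      linarith
    rw [abs_mul, abs_of_nonneg (ww_nonneg _ _), abs_of_nonneg h3]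
    exact mul_le_mul (ww_le _ _) (inv_step m hm) h3 (by norm_num)
  calc _ ≤ 1 / (m : ℝ) ^ 2 + 2 * (1 / (m : ℝ) ^ 2) := add_le_add h1 h2
    _ = _ := by ring

private lemma exp_two_bounds : (7 : ℝ) < Real.exp 2 ∧ Real.exp 2 < 7.5 := by
  have h1 := Real.exp_one_gt_d9
  have h2 := Real.exp_one_lt_d9
  have h3 : Real.exp 2 = Real.exp 1 * Real.exp 1 := by
    rw [← Real.exp_add]
    norm_num
  rw [h3]
  constructor <;> nlinarith

theorem kernel (A : ℕ) : ∃ c C : ℝ, 0 < c ∧ 0 < C ∧ ∀ M u : ℝ, 1 ≤ M → |u| ≤ M ^ A →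
    ‖KK M u‖ ≤ C * (1 / (1 + u ^ 2) + M ^ (-c)) := by
  obtain ⟨c₁, C₁, hc₁, hC₁, hz⟩ := zeta_per (2 * A) 1 le_rfl
  obtain ⟨C₀, hC₀, hk⟩ := kernel_main
  obtain ⟨hE7, hE8⟩ := exp_two_bounds
  set c := min (1 / 2) c₁ with hc
  have hc0 : 0 < c := lt_min (by norm_num) hc₁
  have hc12 : c ≤ 1 / 2 := min_le_left _ _
  have hcc1 : c ≤ c₁ := min_le_right _ _
  set K := (344064 : ℝ) * C₁ with hK
  have hK0 : 0 < K := by positivity
  refine ⟨c, 8 + 2 * C₀ + K * (1 + 15 ^ c₁) + 120 * 1800, hc0, by positivity, ?_⟩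
  intro M u hM hu
  have hM0 : 0 < M := by linarith
  have hMc : 0 < M ^ (-c) := Real.rpow_pos_of_pos hM0 _
  have hP : 0 ≤ 1 / (1 + u ^ 2) := by positivity
  have h15 : 0 < (15 : ℝ) ^ c₁ := by positivity
  have hhalf : M ^ (-(1 / 2 : ℝ)) ≤ M ^ (-c) := Real.rpow_le_rpow_of_exponent_le hM (by linarith)
  have hsq : M ^ (-(1 / 2 : ℝ)) = (Real.sqrt M)⁻¹ := by
    rw [Real.rpow_neg hM0.le, Real.sqrt_eq_rpow]
  have hs1 : 1 ≤ Real.sqrt M := Real.one_le_sqrt.mpr hM
  have hss : Real.sqrt M * Real.sqrt M = M := Real.mul_self_sqrt hM0.le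
  rcases le_or_gt |u| (Real.sqrt M) with hus | hus
  · -- small frequencies
    have h1 : ‖KK M u‖ ≤ Phi u + C₀ * (1 + |u|) / M := by
      have h2 := hk M u hM
      have h3 : KK M u = (KK M u - Complex.exp (((-u * Real.log M : ℝ) : ℂ) * Complex.I) * Phi u) +
        Complex.exp (((-u * Real.log M : ℝ) : ℂ) * Complex.I) * Phi u := by ring
      rw [h3]
      refine (norm_add_le _ _).trans ?_
      rw [norm_mul, Complex.norm_exp_ofReal_mul_I, one_mul, Complex.norm_real, Real.norm_eq_abs,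
        abs_of_nonneg (Phi_nonneg u)]
      linarith
    have h2 : C₀ * (1 + |u|) / M ≤ 2 * C₀ * M ^ (-c) := by
      refine le_trans ?_ (mul_le_mul_of_nonneg_left hhalf (by positivity))
      rw [hsq, div_le_iff₀ hM0, mul_assoc (2 * C₀)]
      have h4 : (Real.sqrt M)⁻¹ * M = Real.sqrt M := by
        nth_rewrite 2 [← hss]
        rw [← mul_assoc, inv_mul_cancel₀ (by positivity), one_mul]
      rw [h4]
      nlinarith
    have h3 := Phi_le u
    have h4 : 8 / (1 + u ^ 2) = 8 * (1 / (1 + u ^ 2)) := by ring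
    have h5 : 0 ≤ (2 * C₀ + K * (1 + 15 ^ c₁) + 120 * 1800) * (1 / (1 + u ^ 2)) := by positivity
    have h6 : 0 ≤ (8 + K * (1 + 15 ^ c₁) + 120 * 1800) * M ^ (-c) := by positivity
    calc ‖KK M u‖ ≤ 8 * (1 / (1 + u ^ 2)) + 2 * C₀ * M ^ (-c) := by linarith
      _ ≤ _ := by linarith
  · have hu1 : 1 ≤ |u| := hs1.trans hus.le
    have hu0 : 0 < |u| := by linarith
    rcases lt_or_ge M 120 with hM1 | hM1
    · -- small `M`
      have h1 := KK_triv M u hM0.le
      have h2 : M * Real.exp 2 ≤ 120 * 7.5 := mul_le_mul hM1.le hE8.le (by positivity) (by norm_num)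
      have h3 : (1 : ℝ) ≤ 120 * M ^ (-c) := by
        rw [Real.rpow_neg hM0.le, ← div_eq_mul_inv, le_div_iff₀ (by positivity), one_mul]
        calc M ^ c ≤ M ^ (1 : ℝ) := Real.rpow_le_rpow_of_exponent_le hM (by linarith)
          _ = M := Real.rpow_one M
          _ ≤ 120 := hM1.le
      have h4 : 0 ≤ (8 + 2 * C₀ + K * (1 + 15 ^ c₁)) * (1 / (1 + u ^ 2) + M ^ (-c)) := by positivity
      have h5 : 0 ≤ 120 * 1800 * (1 / (1 + u ^ 2)) := by positivity
      calc ‖KK M u‖ ≤ 1800 := by linarith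
        _ ≤ 1800 * (120 * M ^ (-c)) := by linarith
        _ ≤ _ := by linarith
    · set a := ⌊M / Real.exp 2⌋₊ with ha
      set N := ⌊M * Real.exp 2⌋₊ with hN
      have hE0 : 0 < Real.exp 2 := Real.exp_pos 2
      have haM : (a : ℝ) ≤ M / Real.exp 2 := Nat.floor_le (by positivity)
      have haM2 : M / Real.exp 2 < (a : ℝ) + 1 := Nat.lt_floor_add_one _
      have ha15 : (16 : ℝ) ≤ a := by
        have h1 : (16 : ℝ) ≤ M / Real.exp 2 := by
          rw [le_div_iff₀ hE0]
          nlinarith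
        exact_mod_cast Nat.le_floor (by exact_mod_cast h1)
      have ha1 : 1 ≤ a := by
        have : (1 : ℝ) ≤ a := by linarith
        exact_mod_cast this
      have ha0 : (0 : ℝ) < a := by linarith
      rw [div_lt_iff₀ hE0] at haM2
      have hMa : M ≤ 15 * a := by nlinarith
      have hN1 : (N : ℝ) ≤ M * Real.exp 2 := Nat.floor_le (by positivity)
      have hN2 : M * Real.exp 2 < (N : ℝ) + 1 := Nat.lt_floor_add_one _
      have hNa : (N : ℝ) ≤ 128 * a := by nlinarith
      have hNa' : N ≤ 2 ^ 7 * a := by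
        have : (N : ℝ) ≤ ((2 ^ 7 * a : ℕ) : ℝ) := by push_cast; linarith
        exact_mod_cast this
      have haN : a ≤ N := by
        have h1 : (a : ℝ) ≤ M := by
          refine haM.trans (div_le_self hM0.le (by linarith))
        exact Nat.le_floor (h1.trans (le_mul_of_one_le_right hM0.le (by linarith)))
      have huA : |(-u)| ≤ (a : ℝ) ^ (2 * A) := by
        rw [abs_neg]
        refine hu.trans ?_
        rw [pow_mul]
        refine pow_le_pow_left₀ hM0.le ?_ A
        nlinarith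
      have hS : ∀ m, a ≤ m → m ≤ N → ‖∑ n ∈ Finset.Ioc a m, tw (-u) n‖ ≤
          (7 : ℕ) * 2 ^ 7 * (C₁ * (a / |(-u)| + (a : ℝ) ^ (1 - c₁))) := fun m h1 h2 =>
        block c₁ C₁ hC₁ hc₁ (2 * A) hz (-u) (by rwa [abs_neg]) 7 a m ha1 h1 (h2.trans hNa') huA
      rw [abs_neg] at hS
      set B := ((7 : ℕ) : ℝ) * 2 ^ 7 * (C₁ * (a / |u| + (a : ℝ) ^ (1 - c₁))) with hB
      have hB0 : 0 ≤ B := by positivity
      -- the kernel as a sum over `(a, N]`
      have hKK : KK M u = ∑ m ∈ Finset.Ioc a N, ((ww M m : ℝ) : ℂ) / (m : ℂ) * tw (-u) m := by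
        unfold KK
        have h1 : Finset.Ioc a N ⊆ Finset.Icc 1 N := by
          intro m hm
          rw [Finset.mem_Ioc] at hm
          rw [Finset.mem_Icc]
          omega
        rw [← Finset.sum_subset h1]
        · exact Finset.sum_congr rfl fun m _ => by ring
        · intro m hm hm'
          rw [Finset.mem_Icc] at hm
          rw [Finset.mem_Ioc] at hm'
          have h2 : m ≤ a := by omega
          have h3 : ww M m = 0 := by
            have h4 : Real.log m ≤ Real.log M - 2 := by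
              have h5 : (m : ℝ) ≤ M / Real.exp 2 := le_trans (by exact_mod_cast h2) haM
              have h6 := Real.log_le_log (by exact_mod_cast hm.1) h5
              rwa [Real.log_div hM0.ne' hE0.ne', Real.log_exp] at h6
            unfold ww
            apply max_eq_left
            rw [abs_of_nonpos (by linarith)]
            linarith
          rw [h3]
          simp
      have hwN : ww M (N + 1) = 0 := by
        have h5 := Real.log_le_log (by positivity) hN2.le
        rw [Real.log_mul hM0.ne' hE0.ne', Real.log_exp] at h5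
        unfold ww
        apply max_eq_left
        push_cast
        rw [abs_of_nonneg (by linarith)]
        linarith
      rw [hKK, abel _ _ a N haN, hwN, Complex.ofReal_zero, zero_div, zero_mul, zero_add]
      have hsum : ‖∑ m ∈ Finset.Ioc a N, (((ww M m : ℝ) : ℂ) / (m : ℂ) -
          ((ww M (m + 1) : ℝ) : ℂ) / ((m + 1 : ℕ) : ℂ)) * ∑ n ∈ Finset.Ioc a m, tw (-u) n‖ ≤
          N * (3 / (a : ℝ) ^ 2 * B) := by
        refine (norm_sum_le _ _).trans ?_
        have h1 : ∀ m ∈ Finset.Ioc a N, ‖(((ww M m : ℝ) : ℂ) / (m : ℂ) -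
          ((ww M (m + 1) : ℝ) : ℂ) / ((m + 1 : ℕ) : ℂ)) * ∑ n ∈ Finset.Ioc a m, tw (-u) n‖ ≤
            3 / (a : ℝ) ^ 2 * B := by
          intro m hm
          rw [Finset.mem_Ioc] at hm
          rw [norm_mul]
          refine mul_le_mul ((w_step M m (by omega)).trans ?_) (hS m hm.1.le hm.2)
            (norm_nonneg _) (by positivity)
          have : (a : ℝ) ≤ m := by exact_mod_cast hm.1.le
          exact div_le_div_of_nonneg_left (by norm_num) (by positivity) (pow_le_pow_left₀ ha0.le this 2)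
        refine (Finset.sum_le_sum h1).trans ?_
        rw [Finset.sum_const, Nat.card_Ioc, nsmul_eq_mul]
        refine mul_le_mul_of_nonneg_right ?_ (by positivity)
        exact_mod_cast Nat.sub_le N a
      refine hsum.trans ?_
      have h1 : (N : ℝ) * (3 / (a : ℝ) ^ 2 * B) ≤ (128 * a) * (3 / (a : ℝ) ^ 2 * B) :=
        mul_le_mul_of_nonneg_right hNa (by positivity)
      have h2 : (128 * (a : ℝ)) * (3 / (a : ℝ) ^ 2 * B) = K * (1 / |u| + (a : ℝ) ^ (-c₁)) := by
        have h3 : (a : ℝ) ^ (1 - c₁) = a * (a : ℝ) ^ (-c₁) := by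
          rw [show 1 - c₁ = 1 + (-c₁) by ring, Real.rpow_add ha0, Real.rpow_one]
        rw [hB, h3, hK]
        push_cast
        field_simp
        ring
      have h3 : 1 / |u| ≤ M ^ (-c) := by
        refine le_trans ?_ hhalf
        rw [hsq, one_div]
        exact inv_anti₀ (by positivity) hus.le
      have h4 : (a : ℝ) ^ (-c₁) ≤ 15 ^ c₁ * M ^ (-c) := by
        have h5 : (a : ℝ) ^ (-c₁) ≤ (M / 15) ^ (-c₁) :=
          Real.rpow_le_rpow_of_nonpos (by positivity) (by linarith) (by linarith)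
        have h6 : (M / 15) ^ (-c₁) = 15 ^ c₁ * M ^ (-c₁) := by
          rw [Real.div_rpow hM0.le (by norm_num), Real.rpow_neg (by norm_num : (0 : ℝ) ≤ 15)]
          field_simp
        rw [h6] at h5
        refine h5.trans (mul_le_mul_of_nonneg_left ?_ h15.le)
        exact Real.rpow_le_rpow_of_exponent_le hM (by linarith)
      have h5 : K * (1 / |u| + (a : ℝ) ^ (-c₁)) ≤ K * (M ^ (-c) + 15 ^ c₁ * M ^ (-c)) :=
        mul_le_mul_of_nonneg_left (add_le_add h3 h4) hK0.le
      have h6 : 0 ≤ (8 + 2 * C₀ + 120 * 1800) * M ^ (-c) := by positivity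
      have h7 : 0 ≤ (8 + 2 * C₀ + K * (1 + 15 ^ c₁) + 120 * 1800) * (1 / (1 + u ^ 2)) := by positivity
      calc _ ≤ K * (M ^ (-c) + 15 ^ c₁ * M ^ (-c)) := h1.trans (h2.le.trans h5)
        _ = (K * (1 + 15 ^ c₁)) * M ^ (-c) := by ring
        _ ≤ _ := by linarith

end Pool.MRZ
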