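import Mathlib
import Pool.Agent.MRZ.Kernel

/-!
# MRZ/HMi: large values, integers (Halász–Montgomery without logarithm)

For `|f| ≤ 1`, `y ≥ 1`, a finite set `𝒲 ⊆ ℤ` with `|t| ≤ y²`: `∑_{t∈𝒲} |R f y t|² ≤ C (1 + #𝒲 y^{-c})`.

Proof (duality). `Z = ∑_t |R(t)|² = ∑_m (f(m)/m) ∑_t conj(R(t)) m^{-it}
≤ (∑_{y<m≤2y} 1/m)^{1/2} (∑_m ww(y,m)/m |∑_t conj(R(t)) m^{-it}|²)^{1/2}` (`ww y m ≥ 1` on `(y,2y]` as
`log 2 ≤ 1`), and `∑_m (ww/m) |∑_t η_t m^{-it}|² = ∑_{t,t'} η_t conj(η_t') KK y (t-t')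
≤ ∑_t |η_t|² max_t ∑_{t'} |KK y (t-t')|`; `kernel` with `A = 3` (`|t-t'| ≤ 2y² ≤ y³` if `y ≥ 2`; for
`y < 2` trivial: then `R` has at most 2 terms, `#𝒲 ≤ 9`): `≤ C (∑_k 1/(1+k²) + #𝒲 y^{-c})`.
So `Z ≤ C^{1/2} Z^{1/2} (…)^{1/2}`.
-/

namespace Pool.MRZ

open Finset

private lemma hmi_sum_inv {y : ℝ} (hy : 1 ≤ y) :
    ∑ m ∈ Finset.Ioc ⌊y⌋₊ ⌊2 * y⌋₊, (1 : ℝ) / m ≤ 2 := by
  have hy0 : 0 < y := by linarith
  have h1 : ∀ m ∈ Finset.Ioc ⌊y⌋₊ ⌊2 * y⌋₊, (1 : ℝ) / m ≤ 1 / y := by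
    intro m hm
    rw [Finset.mem_Ioc] at hm
    have : y < m := by
      have := hm.1
      rwa [Nat.floor_lt hy0.le] at this
    exact one_div_le_one_div_of_le hy0 this.le
  have h2 := Finset.sum_le_card_nsmul _ _ _ h1
  rw [Nat.card_Ioc, nsmul_eq_mul] at h2
  have h3 : ((⌊2 * y⌋₊ - ⌊y⌋₊ : ℕ) : ℝ) ≤ y + 1 := by
    have hle : ⌊y⌋₊ ≤ ⌊2 * y⌋₊ := Nat.floor_le_floor (by linarith)
    rw [Nat.cast_sub hle]
    have a := Nat.floor_le (show 0 ≤ 2 * y by linarith)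
    have b := Nat.lt_floor_add_one y
    linarith
  calc _ ≤ _ := h2
    _ ≤ (y + 1) * (1 / y) := by
        apply mul_le_mul_of_nonneg_right h3 (by positivity)
    _ ≤ 2 := by
        rw [mul_one_div, div_le_iff₀ hy0]
        linarith

private lemma hmi_R_le {f : ℕ → ℂ} {y : ℝ} (hf : ∀ n, ‖f n‖ ≤ 1) (hy : 1 ≤ y) (t : ℝ) :
    ‖R f y t‖ ≤ 2 := by
  unfold R
  refine (norm_sum_le _ _).trans ?_
  refine le_trans (Finset.sum_le_sum ?_) (hmi_sum_inv hy)
  intro m _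
  rw [norm_div, norm_mul, norm_tw, mul_one, Complex.norm_natCast]
  exact div_le_div_of_nonneg_right (hf m) (Nat.cast_nonneg m)

private lemma hmi_one_le_ww {y : ℝ} (hy : 1 ≤ y) {m : ℕ} (hm : m ∈ Finset.Ioc ⌊y⌋₊ ⌊2 * y⌋₊) :
    1 ≤ ww y m := by
  have hy0 : 0 < y := by linarith
  rw [Finset.mem_Ioc] at hm
  have h1 : y < m := by
    have := hm.1
    rwa [Nat.floor_lt hy0.le] at this
  have h2 : (m : ℝ) ≤ 2 * y := by
    have := hm.2
    rwa [Nat.le_floor_iff (by linarith)] at this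
  have h3 : Real.log y ≤ Real.log m := Real.log_le_log hy0 h1.le
  have h4 : Real.log m ≤ Real.log 2 + Real.log y := by
    rw [← Real.log_mul (by norm_num) hy0.ne']
    exact Real.log_le_log (by linarith) h2
  have h5 : Real.log 2 < 1 := by linarith [Real.log_two_lt_d9]
  unfold ww
  refine le_max_of_le_right ?_
  rw [abs_of_nonneg (by linarith)]
  linarith

private lemma hmi_ww_nonneg (y : ℝ) (m : ℕ) : 0 ≤ ww y m := le_max_left _ _

private lemma hmi_summable : Summable (fun k : ℤ => 1 / (1 + (k : ℝ) ^ 2)) := by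
  have h1 : Summable (fun k : ℤ => 1 / (k : ℝ) ^ 2) :=
    Real.summable_one_div_int_pow.mpr (by norm_num)
  have h2 : Summable (fun k : ℤ => if k = 0 then (1 : ℝ) else 0) := by
    apply summable_of_ne_finset_zero (s := {0})
    intro b hb
    simp only [Finset.mem_singleton] at hb
    simp [hb]
  refine Summable.of_nonneg_of_le (fun k => by positivity) (fun k => ?_) (h1.add h2)
  rcases eq_or_ne k 0 with h | h
  · simp [h]
  · simp only [h, if_false, add_zero]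
    have : (0 : ℝ) < (k : ℝ) ^ 2 := by
      have : (k : ℝ) ≠ 0 := by exact_mod_cast h
      positivity
    exact one_div_le_one_div_of_le this (by linarith)

private lemma hmi_sum_W (W : Finset ℤ) (t : ℤ) :
    ∑ s ∈ W, 1 / (1 + (((t - s : ℤ)) : ℝ) ^ 2) ≤ ∑' k : ℤ, 1 / (1 + (k : ℝ) ^ 2) := by
  have hinj : Set.InjOn (fun s : ℤ => t - s) W := by
    intro a _ b _ hab
    simpa using hab
  have h := Finset.sum_image (f := fun k : ℤ => 1 / (1 + (k : ℝ) ^ 2)) hinj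
  rw [← h]
  exact hmi_summable.sum_le_tsum _ (fun k _ => by positivity)

/-- the quadratic form identity -/
private lemma hmi_quad (y : ℝ) (W : Finset ℤ) (η : ℤ → ℂ) :
    (((∑ m ∈ Finset.Icc 1 ⌊y * Real.exp 2⌋₊, ww y m / m *
      ‖∑ t ∈ W, η t * tw (-(t : ℝ)) m‖ ^ 2 : ℝ)) : ℂ) =
    ∑ t ∈ W, ∑ s ∈ W, η t * (starRingEnd ℂ) (η s) * KK y ((t : ℝ) - s) := by
  have h1 : ∀ m ∈ Finset.Icc 1 ⌊y * Real.exp 2⌋₊,
      (((ww y m / m * ‖∑ t ∈ W, η t * tw (-(t : ℝ)) m‖ ^ 2 : ℝ)) : ℂ) =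
      ∑ t ∈ W, ∑ s ∈ W, η t * (starRingEnd ℂ) (η s) *
        (((ww y m : ℝ) : ℂ) * tw (-((t : ℝ) - s)) m / (m : ℂ)) := by
    intro m _
    have h2 : (((‖∑ t ∈ W, η t * tw (-(t : ℝ)) m‖ ^ 2 : ℝ)) : ℂ) =
        ∑ t ∈ W, ∑ s ∈ W, (η t * tw (-(t : ℝ)) m) * ((starRingEnd ℂ) (η s) * tw (s : ℝ) m) := by
      rw [Complex.ofReal_pow, ← Complex.mul_conj', map_sum, Finset.sum_mul_sum]
      refine Finset.sum_congr rfl fun t _ => Finset.sum_congr rfl fun s _ => ?_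
      rw [map_mul, conj_tw, neg_neg]
    rw [Complex.ofReal_mul, h2, Complex.ofReal_div, Complex.ofReal_natCast, Finset.mul_sum]
    refine Finset.sum_congr rfl fun t _ => ?_
    rw [Finset.mul_sum]
    refine Finset.sum_congr rfl fun s _ => ?_
    have h3 : tw (-((t : ℝ) - s)) m = tw (-(t : ℝ)) m * tw (s : ℝ) m := by
      rw [← tw_add]
      congr 1
      ring
    rw [h3]
    ring
  rw [Complex.ofReal_sum, Finset.sum_congr rfl h1, Finset.sum_comm]
  refine Finset.sum_congr rfl fun t _ => ?_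
  rw [Finset.sum_comm]
  refine Finset.sum_congr rfl fun s _ => ?_
  rw [← Finset.mul_sum]
  rfl

theorem hmi : ∃ c C : ℝ, 0 < c ∧ 0 < C ∧ ∀ (f : ℕ → ℂ) (y : ℝ) (W : Finset ℤ),
    (∀ n, ‖f n‖ ≤ 1) → 1 ≤ y → (∀ t ∈ W, |(t : ℝ)| ≤ y ^ 2) →
    ∑ t ∈ W, ‖R f y t‖ ^ 2 ≤ C * (1 + W.card * y ^ (-c)) := by
  obtain ⟨c, C, hc, hC, hK⟩ := kernel 3
  set S : ℝ := ∑' k : ℤ, 1 / (1 + (k : ℝ) ^ 2) with hS
  have hS0 : 0 ≤ S := tsum_nonneg fun k => by positivity
  refine ⟨c, 28 + 2 * C * (S + 1), hc, by positivity, ?_⟩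
  intro f y W hf hy hW
  have hy0 : 0 < y := by linarith
  have hyc : 0 < y ^ (-c) := Real.rpow_pos_of_pos hy0 _
  have hcard : (0 : ℝ) ≤ W.card := Nat.cast_nonneg _
  rcases lt_or_ge y 2 with hy2 | hy2
  · -- small `y`
    have hsub : W ⊆ Finset.Icc (-3) 3 := by
      intro t ht
      have h1 := hW t ht
      have h2 : |(t : ℝ)| < 4 := lt_of_le_of_lt h1 (by nlinarith)
      rw [abs_lt] at h2
      have h3 : -4 < t := by exact_mod_cast h2.1
      have h4 : t < 4 := by exact_mod_cast h2.2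
      rw [Finset.mem_Icc]
      omega
    have h5 : W.card ≤ 7 := by
      have := Finset.card_le_card hsub
      simpa using this
    have h6 : ∑ t ∈ W, ‖R f y t‖ ^ 2 ≤ W.card • (4 : ℝ) := by
      apply Finset.sum_le_card_nsmul
      intro t _
      have := hmi_R_le hf hy (t : ℝ)
      nlinarith [norm_nonneg (R f y t)]
    rw [nsmul_eq_mul] at h6
    have h7 : (W.card : ℝ) ≤ 7 := by exact_mod_cast h5
    have h8 : (0 : ℝ) ≤ 2 * C * (S + 1) := by positivity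
    have h9 : (0 : ℝ) ≤ W.card * y ^ (-c) := by positivity
    nlinarith [mul_nonneg h8 h9]
  · set Z : ℝ := ∑ t ∈ W, ‖R f y t‖ ^ 2 with hZ
    have hZ0 : 0 ≤ Z := Finset.sum_nonneg fun _ _ => by positivity
    set η : ℤ → ℂ := fun t => (starRingEnd ℂ) (R f y t) with hη
    set I := Finset.Ioc ⌊y⌋₊ ⌊2 * y⌋₊ with hI
    -- first step : duality
    have hZ1 : (Z : ℂ) = ∑ m ∈ I, f m / (m : ℂ) * ∑ t ∈ W, η t * tw (-(t : ℝ)) m := by
      rw [hZ, Complex.ofReal_sum]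
      have : ∀ t ∈ W, (((‖R f y t‖ ^ 2 : ℝ)) : ℂ) =
          ∑ m ∈ I, f m / (m : ℂ) * (η t * tw (-(t : ℝ)) m) := by
        intro t _
        rw [Complex.ofReal_pow, ← Complex.mul_conj']
        conv_lhs => rw [show (starRingEnd ℂ) (R f y t) = η t from rfl]
        unfold R
        rw [Finset.sum_mul]
        refine Finset.sum_congr rfl fun m _ => ?_
        ring
      rw [Finset.sum_congr rfl this, Finset.sum_comm]
      refine Finset.sum_congr rfl fun m _ => ?_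
      rw [Finset.mul_sum]
    set T : ℕ → ℝ := fun m => ‖∑ t ∈ W, η t * tw (-(t : ℝ)) m‖ with hT
    have hZ2 : Z ≤ ∑ m ∈ I, 1 / (m : ℝ) * T m := by
      have h1 : Z = ‖(Z : ℂ)‖ := by
        rw [Complex.norm_real, Real.norm_of_nonneg hZ0]
      rw [h1, hZ1]
      refine (norm_sum_le _ _).trans (Finset.sum_le_sum fun m _ => ?_)
      rw [norm_mul, norm_div, Complex.norm_natCast]
      exact mul_le_mul_of_nonneg_right
        (div_le_div_of_nonneg_right (hf m) (Nat.cast_nonneg m)) (norm_nonneg _)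
    have hZ3 : Z ^ 2 ≤ (∑ m ∈ I, 1 / (m : ℝ)) * ∑ m ∈ I, 1 / (m : ℝ) * T m ^ 2 := by
      have h1 : (∑ m ∈ I, 1 / (m : ℝ) * T m) ^ 2 ≤
          (∑ m ∈ I, 1 / (m : ℝ)) * ∑ m ∈ I, 1 / (m : ℝ) * T m ^ 2 := by
        apply Finset.sum_sq_le_sum_mul_sum_of_sq_le_mul
        · intro m _; positivity
        · intro m _; positivity
        · intro m _; exact le_of_eq (by ring)
      exact (pow_le_pow_left₀ hZ0 hZ2 2).trans h1
    have hQ0 : ∑ m ∈ I, 1 / (m : ℝ) * T m ^ 2 ≤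
        ∑ m ∈ Finset.Icc 1 ⌊y * Real.exp 2⌋₊, ww y m / m * T m ^ 2 := by
      have hsub : I ⊆ Finset.Icc 1 ⌊y * Real.exp 2⌋₊ := by
        intro m hm
        rw [hI, Finset.mem_Ioc] at hm
        rw [Finset.mem_Icc]
        refine ⟨by omega, hm.2.trans ?_⟩
        apply Nat.floor_le_floor
        have : (2 : ℝ) ≤ Real.exp 2 := by linarith [Real.add_one_le_exp (2 : ℝ)]
        nlinarith
      refine le_trans (Finset.sum_le_sum fun m hm => ?_)
        (Finset.sum_le_sum_of_subset_of_nonneg hsub ?_)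
      · have := hmi_one_le_ww hy hm
        exact mul_le_mul_of_nonneg_right
          (div_le_div_of_nonneg_right this (Nat.cast_nonneg m)) (by positivity)
      · intro m _ _
        have := hmi_ww_nonneg y m
        positivity
    -- the quadratic form
    have hQ1 : ∑ m ∈ Finset.Icc 1 ⌊y * Real.exp 2⌋₊, ww y m / m * T m ^ 2 ≤
        Z * (C * (S + W.card * y ^ (-c))) := by
      have hq := hmi_quad y W η
      have h1 : ∑ m ∈ Finset.Icc 1 ⌊y * Real.exp 2⌋₊, ww y m / m * T m ^ 2 ≤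
          ‖∑ t ∈ W, ∑ s ∈ W, η t * (starRingEnd ℂ) (η s) * KK y ((t : ℝ) - s)‖ := by
        rw [← hq, Complex.norm_real]
        exact le_abs_self _
      set B : ℤ → ℤ → ℝ := fun t s => C * (1 / (1 + (((t - s : ℤ)) : ℝ) ^ 2) + y ^ (-c)) with hB
      have hB0 : ∀ t s, 0 ≤ B t s := fun t s => by positivity
      have hBs : ∀ t s, B t s = B s t := by
        intro t s
        simp only [hB]
        congr 4
        push_cast
        ring
      have hKB : ∀ t ∈ W, ∀ s ∈ W, ‖KK y ((t : ℝ) - s)‖ ≤ B t s := by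
        intro t ht s hs
        have h2 : |(t : ℝ) - s| ≤ y ^ 3 := by
          have a1 := hW t ht
          have a2 := hW s hs
          have a3 : |(t : ℝ) - s| ≤ |(t : ℝ)| + |(s : ℝ)| := abs_sub _ _
          have a4 : 2 * y ^ 2 ≤ y ^ 3 := by nlinarith [sq_nonneg y]
          linarith
        have := hK y ((t : ℝ) - s) hy h2
        simpa [hB] using this
      have h2 : ‖∑ t ∈ W, ∑ s ∈ W, η t * (starRingEnd ℂ) (η s) * KK y ((t : ℝ) - s)‖ ≤
          ∑ t ∈ W, ∑ s ∈ W, (‖η t‖ ^ 2 / 2 * B t s + ‖η s‖ ^ 2 / 2 * B s t) := by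
        refine (norm_sum_le _ _).trans (Finset.sum_le_sum fun t ht => ?_)
        refine (norm_sum_le _ _).trans (Finset.sum_le_sum fun s hs => ?_)
        have e0 : ‖(starRingEnd ℂ) (η s)‖ = ‖η s‖ := RCLike.norm_conj _
        rw [norm_mul, norm_mul, e0, ← hBs t s]
        have h3 := hKB t ht s hs
        have h4 : ‖η t‖ * ‖η s‖ ≤ ‖η t‖ ^ 2 / 2 + ‖η s‖ ^ 2 / 2 := by
          nlinarith [sq_nonneg (‖η t‖ - ‖η s‖)]
        calc ‖η t‖ * ‖η s‖ * ‖KK y ((t : ℝ) - s)‖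
            ≤ (‖η t‖ ^ 2 / 2 + ‖η s‖ ^ 2 / 2) * B t s := by
              apply mul_le_mul h4 h3 (norm_nonneg _) (by positivity)
          _ = _ := by ring
      have h3 : ∑ t ∈ W, ∑ s ∈ W, (‖η t‖ ^ 2 / 2 * B t s + ‖η s‖ ^ 2 / 2 * B s t) =
          ∑ t ∈ W, ‖η t‖ ^ 2 * ∑ s ∈ W, B t s := by
        simp only [Finset.sum_add_distrib]
        rw [Finset.sum_comm (f := fun t s => ‖η s‖ ^ 2 / 2 * B s t), ← Finset.sum_add_distrib]
        refine Finset.sum_congr rfl fun t _ => ?_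
        rw [← Finset.mul_sum]
        ring
      have h4 : ∀ t ∈ W, ‖η t‖ ^ 2 * ∑ s ∈ W, B t s ≤
          ‖R f y t‖ ^ 2 * (C * (S + W.card * y ^ (-c))) := by
        intro t _
        have h5 : ‖η t‖ = ‖R f y t‖ := by simp [hη]
        rw [h5]
        apply mul_le_mul_of_nonneg_left _ (by positivity)
        simp only [hB]
        rw [← Finset.mul_sum, Finset.sum_add_distrib, Finset.sum_const, nsmul_eq_mul]
        apply mul_le_mul_of_nonneg_left _ hC.le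
        have := hmi_sum_W W t
        linarith
      have h5 := Finset.sum_le_sum h4
      rw [← Finset.sum_mul] at h5
      linarith [h1, h2, h3.le, h5]
    have hQ : ∑ m ∈ I, 1 / (m : ℝ) * T m ^ 2 ≤ Z * (C * (S + W.card * y ^ (-c))) :=
      hQ0.trans hQ1
    have hfin : Z ^ 2 ≤ 2 * (Z * (C * (S + W.card * y ^ (-c)))) := by
      refine hZ3.trans ?_
      have h1 := hmi_sum_inv hy
      have h2 : 0 ≤ ∑ m ∈ I, 1 / (m : ℝ) * T m ^ 2 := Finset.sum_nonneg fun _ _ => by positivity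
      exact mul_le_mul h1 hQ h2 (by norm_num)
    have hfin2 : Z ≤ 2 * C * (S + W.card * y ^ (-c)) := by
      rcases hZ0.eq_or_lt with h | h
      · rw [← h]; positivity
      · have : Z * Z ≤ Z * (2 * C * (S + W.card * y ^ (-c))) := by nlinarith
        exact le_of_mul_le_mul_left this h
    have h9 : (0 : ℝ) ≤ W.card * y ^ (-c) := by positivity
    have h10 : 0 ≤ C * S * (W.card * y ^ (-c)) := by positivity
    nlinarith [hC.le, hS0]

end Pool.MRZ
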