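import Mathlib
import Pool.Agent.MRZ.Defs
import Pool.Agent.Lib.SelbergUpper
import Pool.Agent.Lib.PrimePairs

/-!
# MRZ/SelMaj: Selberg's majorant of the primes

For every `D ≥ 2` there are real `λ_d` (`1 ≤ d ≤ D²`) with `|λ_d| ≤ d²` (crude),
`∑_{d∣m} λ_d ≥ 0` for all `m ≥ 1`, `∑_{d∣p} λ_d ≥ 1` for primes `p > D`, and `|∑_d λ_d/d| ≤ C/log D`.

Proof. Selberg weights `ρ_d` (`ρ_1 = 1`, `|ρ_d| ≤ 1`, supported on squarefree `d ≤ D`),
`λ_d = ∑_{[d1,d2]=d} ρ_{d1} ρ_{d2}`, so `∑_{d∣m} λ_d = (∑_{d∣m} ρ_d)² ≥ 0`, `= 1` for a prime `p > D`, and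
`∑ λ_d/d = 1/G(D)`, `G(D) = ∑_{r≤D} μ²(r)/φ(r) ≥ log D`. All of this is in
`Pool/Agent/Lib/SelbergUpper.lean` (`wt`, `wt_one`, `mainSum_wt`, `abs_wt_le`, `wt_eq_zero`) for a
`SelbergSieve`/`BoundingSieve` structure with `prodPrimes = ∏_{p ≤ D} p`, `ν(d) = 1/d`; see its use in
`Pool/Agent/Lib/PrimePairs.lean` (there with `ν(p) = 2/p`), which also has the lower bounds for `G`.
A direct proof is also short: `y_r = μ(r)/(φ(r) G)`, `ρ_d = d μ(d) ∑_{d ∣ r} μ(r) ... `.
-/

namespace Pool.MRZ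

open Finset

namespace SelMaj

open BoundingSieve ArithmeticFunction Pool.Agent.Lib.SelbergUpper Pool.Agent.Lib.PrimePairs
open scoped ArithmeticFunction.Moebius

section general

variable (s : BoundingSieve) (z : ℕ)

/-- Selberg's weights vanish off the divisors of `P` -/
lemma wt_eq_zero_of_not_dvd {d : ℕ} (hd : ¬ d ∣ s.prodPrimes) : wt s z d = 0 := by
  unfold wt
  have : (s.prodPrimes.divisors.filter (fun l => l ≤ z ∧ d ∣ l)) = ∅ := by
    ext l
    simp only [Finset.mem_filter, Nat.mem_divisors, Finset.notMem_empty, iff_false]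
    rintro ⟨⟨h1, h2⟩, h3, h4⟩
    exact hd (h4.trans h1)
  rw [this, Finset.sum_empty, mul_zero]

/-- Selberg's weights are bounded by one. -/
lemma abs_wt_le_one (hz : 1 ≤ z) (d : ℕ) : |wt s z d| ≤ 1 := by
  classical
  by_cases hd : d ∣ s.prodPrimes
  swap
  · rw [wt_eq_zero_of_not_dvd s z hd]; simp
  have hP : s.prodPrimes ≠ 0 := prodPrimes_ne_zero
  have hd0 : d ≠ 0 := ne_zero_of_dvd_ne_zero hP hd
  have hG := G_pos s z hz
  have hnu := nu_pos_of_dvd_prodPrimes hd
  have hgd := selbergTerms_pos hd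
  unfold wt
  rw [abs_mul, abs_mul, abs_mul, abs_of_pos (inv_pos.mpr hnu), abs_of_pos (inv_pos.mpr hG)]
  have hmu : |((μ d : ℤ) : ℝ)| ≤ 1 := by
    have := ArithmeticFunction.abs_moebius_le_one (n := d)
    exact_mod_cast this
  set S : ℝ := ∑ l ∈ s.prodPrimes.divisors with (l ≤ z ∧ d ∣ l), s.selbergTerms l with hS
  have hS0 : 0 ≤ S := by
    apply Finset.sum_nonneg
    intro l hl
    simp only [Finset.mem_filter, Nat.mem_divisors] at hl
    exact (selbergTerms_pos hl.1.1).le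
  rw [abs_of_nonneg hS0]
  -- the key inequality
  have key : (s.nu d)⁻¹ * S ≤ G s z := by
    have h1 := sum_divisors_selbergTerms_eq_selbergTerms_mul_nu_inv hd
    rw [← Finset.sum_filter, Nat.divisors_filter_dvd_of_dvd hP hd] at h1
    have h2 : (s.nu d)⁻¹ = (s.selbergTerms d)⁻¹ * ∑ k ∈ d.divisors, s.selbergTerms k := by
      rw [h1]; field_simp
    rw [h2, mul_assoc, Finset.sum_mul_sum, Finset.mul_sum]
    simp_rw [Finset.mul_sum]
    rw [← Finset.sum_product']
    unfold G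
    set φ : ℕ × ℕ → ℕ := fun x => (x.2 / d) * x.1 with hφ
    have hcop : ∀ l, l ∣ s.prodPrimes → d ∣ l → (l / d).Coprime d := by
      intro l hl hdl
      have hsq : Squarefree l := squarefree_of_dvd_prodPrimes hl
      obtain ⟨m, rfl⟩ := hdl
      rw [Nat.mul_div_cancel_left m (Nat.pos_of_ne_zero hd0)]
      exact ((Nat.squarefree_mul_iff.mp hsq).1).symm
    have hinj : Set.InjOn φ
        ((d.divisors ×ˢ (s.prodPrimes.divisors.filter (fun l => l ≤ z ∧ d ∣ l)) :
          Finset (ℕ × ℕ)) : Set (ℕ × ℕ)) := by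
      rintro ⟨k, l⟩ hx ⟨k', l'⟩ hx' h
      simp only [Finset.coe_product, Set.mem_prod, Finset.mem_coe, Finset.mem_filter,
        Nat.mem_divisors] at hx hx'
      simp only [hφ] at h
      obtain ⟨⟨hk, _⟩, ⟨hl, _⟩, _, hdl⟩ := hx
      obtain ⟨⟨hk', _⟩, ⟨hl', _⟩, _, hdl'⟩ := hx'
      have e1 : Nat.gcd ((l / d) * k) d = k := by
        rw [Nat.Coprime.gcd_mul_left_cancel k (hcop l hl hdl)]
        exact Nat.gcd_eq_left hk
      have e2 : Nat.gcd ((l' / d) * k') d = k' := by
        rw [Nat.Coprime.gcd_mul_left_cancel k' (hcop l' hl' hdl')]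
        exact Nat.gcd_eq_left hk'
      have e3 : k = k' := by rw [← e1, ← e2, h]
      subst e3
      have hk0 : 0 < k := Nat.pos_of_dvd_of_pos hk (Nat.pos_of_ne_zero hd0)
      have e4 : l / d = l' / d := Nat.eq_of_mul_eq_mul_right hk0 h
      have e5 : l = l' := by
        rw [← Nat.div_mul_cancel hdl, ← Nat.div_mul_cancel hdl', e4]
      rw [e5]
    have hval : ∀ x ∈ (d.divisors ×ˢ (s.prodPrimes.divisors.filter (fun l => l ≤ z ∧ d ∣ l)) :
          Finset (ℕ × ℕ)),
        (s.selbergTerms d)⁻¹ * (s.selbergTerms x.1 * s.selbergTerms x.2) =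
          s.selbergTerms (φ x) := by
      rintro ⟨k, l⟩ hx
      simp only [Finset.mem_product, Finset.mem_filter, Nat.mem_divisors] at hx
      obtain ⟨⟨hk, _⟩, ⟨hl, _⟩, _, hdl⟩ := hx
      simp only [hφ]
      have hc := hcop l hl hdl
      have hck : (l / d).Coprime k := Nat.Coprime.coprime_dvd_right hk hc
      rw [selbergTerms_isMultiplicative.map_mul_of_coprime hck]
      have e1 : s.selbergTerms l = s.selbergTerms (l / d) * s.selbergTerms d := by
        rw [← selbergTerms_isMultiplicative.map_mul_of_coprime hc, Nat.div_mul_cancel hdl]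
      rw [e1]
      field_simp
    rw [Finset.sum_congr rfl hval, ← Finset.sum_image hinj]
    apply Finset.sum_le_sum_of_subset_of_nonneg
    · intro m hm
      rw [Finset.mem_image] at hm
      obtain ⟨⟨k, l⟩, hx, rfl⟩ := hm
      simp only [Finset.mem_product, Finset.mem_filter, Nat.mem_divisors] at hx
      obtain ⟨⟨hk, _⟩, ⟨hl, _⟩, hlz, hdl⟩ := hx
      simp only [hφ, Finset.mem_filter, Nat.mem_divisors]
      have h3 : (l / d) * k ∣ l := by
        calc (l / d) * k ∣ (l / d) * d := Nat.mul_dvd_mul_left _ hk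
          _ = l := Nat.div_mul_cancel hdl
      have hl0 : 0 < l := Nat.pos_of_ne_zero (ne_zero_of_dvd_ne_zero hP hl)
      exact ⟨⟨h3.trans hl, hP⟩, (Nat.le_of_dvd hl0 h3).trans hlz⟩
    · intro l hl _
      simp only [Finset.mem_filter, Nat.mem_divisors] at hl
      exact (selbergTerms_pos hl.1.1).le
  calc (s.nu d)⁻¹ * |((μ d : ℤ) : ℝ)| * (G s z)⁻¹ * S
      ≤ (s.nu d)⁻¹ * 1 * (G s z)⁻¹ * S := by gcongr
    _ = ((s.nu d)⁻¹ * S) * (G s z)⁻¹ := by ring
    _ ≤ G s z * (G s z)⁻¹ := by gcongr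
    _ = 1 := mul_inv_cancel₀ hG.ne'

/-- the coefficients are supported on `d ≤ z²` -/
lemma lam_eq_zero_of_lt {d : ℕ} (hd : z ^ 2 < d) : lambdaSquared (wt s z) d = 0 := by
  unfold lambdaSquared
  apply Finset.sum_eq_zero
  intro d1 h1
  apply Finset.sum_eq_zero
  intro d2 h2
  split_ifs with h
  · by_cases h3 : d1 ≤ z
    · by_cases h4 : d2 ≤ z
      · exfalso
        have hd1 : 0 < d1 := Nat.pos_of_mem_divisors h1
        have hd2 : 0 < d2 := Nat.pos_of_mem_divisors h2
        have h5 : Nat.lcm d1 d2 ≤ d1 * d2 := Nat.le_of_dvd (by positivity)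
          (Nat.lcm_dvd_mul d1 d2)
        have h6 : d1 * d2 ≤ z ^ 2 := by
          rw [sq]; exact Nat.mul_le_mul h3 h4
        omega
      · rw [wt_eq_zero s z (not_le.mp h4), mul_zero]
    · rw [wt_eq_zero s z (not_le.mp h3), zero_mul]
  · rfl

/-- the coefficients are supported on divisors of `P` -/
lemma lam_eq_zero_of_not_dvd {d : ℕ} (hd : ¬ d ∣ s.prodPrimes) :
    lambdaSquared (wt s z) d = 0 := by
  unfold lambdaSquared
  apply Finset.sum_eq_zero
  intro d1 h1
  apply Finset.sum_eq_zero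
  intro d2 h2
  split_ifs with h
  · by_cases h3 : d1 ∣ s.prodPrimes
    · by_cases h4 : d2 ∣ s.prodPrimes
      · exfalso
        apply hd
        rw [h]
        exact Nat.lcm_dvd h3 h4
      · rw [wt_eq_zero_of_not_dvd s z h4, mul_zero]
    · rw [wt_eq_zero_of_not_dvd s z h3, zero_mul]
  · rfl

lemma abs_lam_le (hz : 1 ≤ z) (d : ℕ) : |lambdaSquared (wt s z) d| ≤ (d : ℝ) ^ 2 := by
  unfold lambdaSquared
  calc |∑ d1 ∈ d.divisors, ∑ d2 ∈ d.divisors,
        if d = Nat.lcm d1 d2 then wt s z d1 * wt s z d2 else 0|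
      ≤ ∑ d1 ∈ d.divisors, ∑ d2 ∈ d.divisors,
        |if d = Nat.lcm d1 d2 then wt s z d1 * wt s z d2 else 0| :=
        (Finset.abs_sum_le_sum_abs _ _).trans
          (Finset.sum_le_sum fun d1 _ => Finset.abs_sum_le_sum_abs _ _)
    _ ≤ ∑ d1 ∈ d.divisors, ∑ d2 ∈ d.divisors, (1 : ℝ) := by
        apply Finset.sum_le_sum
        intro d1 _
        apply Finset.sum_le_sum
        intro d2 _
        split_ifs
        · rw [abs_mul]
          have h1 := abs_wt_le_one s z hz d1
          have h2 := abs_wt_le_one s z hz d2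
          calc |wt s z d1| * |wt s z d2| ≤ 1 * 1 := by gcongr
            _ = 1 := by ring
        · simp
    _ = ((d.divisors.card : ℕ) : ℝ) ^ 2 := by
        simp only [Finset.sum_const, nsmul_eq_mul, mul_one]
        ring
    _ ≤ (d : ℝ) ^ 2 := by
        have : ((d.divisors.card : ℕ) : ℝ) ≤ d := by exact_mod_cast Nat.card_divisors_le_self d
        gcongr

/-- the sum over the divisors `≤ z²` is the sum over all divisors -/
lemma sum_filter_eq (m : ℕ) (hm : 1 ≤ m) :
    ∑ d ∈ (Finset.Icc 1 (z ^ 2)).filter (· ∣ m), lambdaSquared (wt s z) d =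
      ∑ d ∈ m.divisors, lambdaSquared (wt s z) d := by
  apply Finset.sum_subset_zero_on_sdiff
  · intro d hd
    rw [Finset.mem_filter] at hd
    exact Nat.mem_divisors.mpr ⟨hd.2, by omega⟩
  · intro d hd
    rw [Finset.mem_sdiff, Nat.mem_divisors, Finset.mem_filter, Finset.mem_Icc] at hd
    apply lam_eq_zero_of_lt
    have hd0 : 0 < d := Nat.pos_of_dvd_of_pos hd.1.1 (by omega)
    by_contra hcon
    exact hd.2 ⟨⟨hd0, not_lt.mp hcon⟩, hd.1.1⟩
  · intro d _
    rfl

end general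

/-- the density `1/n` -/
noncomputable def nuOne : ArithmeticFunction ℝ :=
  ⟨fun n => (1 : ℝ) / n, by simp⟩

lemma nuOne_apply (n : ℕ) : nuOne n = (1 : ℝ) / n := rfl

lemma nuOne_mult : nuOne.IsMultiplicative := by
  constructor
  · simp [nuOne_apply]
  · intro m n _
    rw [nuOne_apply, nuOne_apply, nuOne_apply]
    push_cast
    rw [one_div_mul_one_div]

/-- the sieve by the primes `≤ z` (with an empty support) -/
noncomputable def sv (z : ℕ) : BoundingSieve where
  support := ∅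
  prodPrimes := primProd 1 z
  prodPrimes_squarefree := primProd_squarefree _ _
  weights := fun _ => 1
  weights_nonneg := fun _ => zero_le_one
  totalMass := 1
  nu := nuOne
  nu_mult := nuOne_mult
  nu_pos_of_prime := by
    intro p hp _
    rw [nuOne_apply]
    have := hp.pos
    positivity
  nu_lt_one_of_prime := by
    intro p hp _
    rw [nuOne_apply, div_lt_one (by exact_mod_cast hp.pos)]
    exact_mod_cast hp.one_lt

lemma G_sv_ge (z : ℕ) : ∑ l ∈ SQ 1 z, (1 : ℝ) / l ≤ G (sv z) z := by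
  unfold G
  have hP : primProd 1 z ≠ 0 := (primProd_squarefree _ _).ne_zero
  have hsub : SQ 1 z ⊆ ((sv z).prodPrimes.divisors.filter (fun l => l ≤ z)) := by
    intro l hl
    rw [mem_SQ] at hl
    rw [Finset.mem_filter, Nat.mem_divisors]
    exact ⟨⟨dvd_primProd_of_squarefree hl.2.1 hl.1.2 hl.2.2, hP⟩, hl.1.2⟩
  refine le_trans ?_ (Finset.sum_le_sum_of_subset_of_nonneg hsub ?_)
  · apply Finset.sum_le_sum
    intro l hl
    rw [mem_SQ] at hl
    have hlP : l ∣ (sv z).prodPrimes :=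
      dvd_primProd_of_squarefree hl.2.1 hl.1.2 hl.2.2
    rw [selbergTerms_apply]
    change _ ≤ nuOne l * _
    rw [nuOne_apply]
    have h1 : (1 : ℝ) ≤ ∏ p ∈ l.primeFactors, (1 - (sv z).nu p)⁻¹ := by
      have : ∀ p ∈ l.primeFactors, (1 : ℝ) ≤ (1 - (sv z).nu p)⁻¹ := by
        intro p hp
        have hp' := Nat.prime_of_mem_primeFactors hp
        have hpP := (Nat.dvd_of_mem_primeFactors hp).trans hlP
        have h2 := (sv z).nu_lt_one_of_prime p hp' hpP
        have h3 := (sv z).nu_pos_of_prime p hp' hpP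
        rw [one_le_inv₀ (by linarith)]
        linarith
      calc (1 : ℝ) = ∏ p ∈ l.primeFactors, (1 : ℝ) := by simp
        _ ≤ _ := Finset.prod_le_prod (fun _ _ => zero_le_one) this
    have h4 : (0 : ℝ) ≤ (1 : ℝ) / l := by positivity
    nlinarith
  · intro l hl _
    rw [Finset.mem_filter, Nat.mem_divisors] at hl
    exact (selbergTerms_pos hl.1.1).le

lemma F_one : F 1 = 1 := by
  unfold F
  simp

end SelMaj

open SelMaj BoundingSieve Pool.Agent.Lib.SelbergUpper Pool.Agent.Lib.PrimePairs in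
theorem sel_maj : ∃ C : ℝ, 0 < C ∧ ∀ D : ℕ, 2 ≤ D → ∃ l : ℕ → ℝ,
    (∀ d, |l d| ≤ (d : ℝ) ^ 2) ∧
    (∀ m, 1 ≤ m → 0 ≤ ∑ d ∈ (Finset.Icc 1 (D ^ 2)).filter (· ∣ m), l d) ∧
    (∀ p, p.Prime → D < p → 1 ≤ ∑ d ∈ (Finset.Icc 1 (D ^ 2)).filter (· ∣ p), l d) ∧
    |∑ d ∈ Finset.Icc 1 (D ^ 2), l d / d| ≤ C / Real.log D := by
  refine ⟨2, by norm_num, ?_⟩
  intro D hD
  have hD1 : 1 ≤ D := by omega
  refine ⟨lambdaSquared (wt (sv D) D), abs_lam_le (sv D) D hD1, ?_, ?_, ?_⟩
  · intro m hm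
    rw [sum_filter_eq (sv D) D m hm]
    have h := upperMoebius_lambdaSquared _ (wt_one (sv D) D hD1) m
    refine le_trans ?_ h
    split_ifs <;> norm_num
  · intro p hp hDp
    rw [sum_filter_eq (sv D) D p hp.one_lt.le, Nat.Prime.divisors hp,
      Finset.sum_pair hp.one_lt.ne]
    have h1 : lambdaSquared (wt (sv D) D) 1 = 1 := by
      unfold lambdaSquared
      simp [wt_one (sv D) D hD1]
    have h2 : lambdaSquared (wt (sv D) D) p = 0 := by
      have hw : wt (sv D) D p = 0 := wt_eq_zero (sv D) D hDp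
      unfold lambdaSquared
      rw [Nat.Prime.divisors hp]
      simp only [Finset.sum_pair hp.one_lt.ne, hw, mul_zero, zero_mul, ite_self, add_zero]
      rw [if_neg]
      simp only [Nat.lcm_self]
      exact hp.one_lt.ne'
    rw [h1, h2, add_zero]
  · have hlog : 0 < Real.log D := Real.log_pos (by exact_mod_cast (by omega : 1 < D))
    have hG := G_pos (sv D) D hD1
    have hGl : Real.log D ≤ 2 * G (sv D) D := by
      have h1 := log_le_SQ 1 D one_pos hD1
      rw [F_one] at h1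
      have h2 := G_sv_ge D
      linarith
    have hP : (sv D).prodPrimes ≠ 0 := prodPrimes_ne_zero
    have hsum : ∑ d ∈ Finset.Icc 1 (D ^ 2), lambdaSquared (wt (sv D) D) d / d =
        (G (sv D) D)⁻¹ := by
      rw [← mainSum_wt (sv D) D hD1]
      unfold mainSum
      have e1 : ∑ d ∈ Finset.Icc 1 (D ^ 2), lambdaSquared (wt (sv D) D) d / d =
          ∑ d ∈ (Finset.Icc 1 (D ^ 2)).filter (· ∣ (sv D).prodPrimes),
            lambdaSquared (wt (sv D) D) d / d := by
        rw [Finset.sum_filter]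
        apply Finset.sum_congr rfl
        intro d _
        split_ifs with h
        · rfl
        · rw [lam_eq_zero_of_not_dvd (sv D) D h, zero_div]
      rw [e1]
      apply Finset.sum_subset_zero_on_sdiff
      · intro d hd
        rw [Finset.mem_filter] at hd
        exact Nat.mem_divisors.mpr ⟨hd.2, hP⟩
      · intro d hd
        rw [Finset.mem_sdiff, Nat.mem_divisors, Finset.mem_filter, Finset.mem_Icc] at hd
        have hd0 : 0 < d := Nat.pos_of_dvd_of_pos hd.1.1 (Nat.pos_of_ne_zero hP)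
        rw [lam_eq_zero_of_lt, zero_mul]
        by_contra hcon
        exact hd.2 ⟨⟨hd0, not_lt.mp hcon⟩, hd.1.1⟩
      · intro d _
        change _ = _ * nuOne d
        rw [nuOne_apply, mul_one_div]
    rw [hsum, abs_of_pos (inv_pos.mpr hG), le_div_iff₀ hlog, inv_mul_le_iff₀ hG]
    linarith

end Pool.MRZ
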