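import Mathlib
import Pool.Agent.MRZ.HMi
import Pool.Agent.MRZ.SelMaj
import Pool.Agent.MRZ.PVb

/-!
# MRZ/HMp: large values of prime polynomials

For `A ≥ 1` there are `κ > 0`, `C` with: `V, v ≥ 1`, `N = e^{v/V}`, `|f| ≤ 1`, `𝒲 ⊆ ℤ` finite with
`|t| ≤ N^A` for `t ∈ 𝒲`: `∑_{t∈𝒲} |Q f V v t|² ≤ C (V/v) (V/v + #𝒲 e^{-κ v/V})`. (`V/v = 1/log N`.)

Proof. Let `c` be the exponent of `kernel (A+1)` or so, `D = ⌊N^{c/40}⌋` (`κ' = c/40`, wlog `c ≤ 1`); if
`N < N_0` or `D < 2` the claim is trivial (choose `C` large: `|Q| ≤ C V/v`, and `e^{-κ v/V}` is bounded below).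
Let `l_d` be as in `sel_maj`. As in `HMi`:
`Z = ∑_t |Q(t)|² ≤ (∑_{p∈PV} 1/p)^{1/2} (∑_m ν(m) ww(N,m)/m |∑_t conj(Q(t)) m^{-it}|²)^{1/2}`,
`ν(m) = ∑_{d∣m, d ≤ D²} l_d ≥ 0`, `≥ 1` for `p ∈ PV V v` (`p > N > D`), `ww N p ≥ 1` as
`0 < log p - log N ≤ 1/V ≤ 1`. The kernel is `∑_m ν(m) ww(N,m) m^{-1-iu} = ∑_{d≤D²} l_d d^{-1} d^{-iu} KK (N/d) u`
(`m = d m'`, `ww N (d m') = ww (N/d) m'`, range `m' ≤ (N/d) e²`).
* `|u| ≤ N^{1/8}`: by `kernel_main` it is `N^{-iu} Φ(u) ∑ l_d/d + O(∑_{d ≤ D²} d² d^{-1} (1+|u|) d/N)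
  = N^{-iu} Φ(u) ∑ l_d/d + O(D^6 N^{-7/8})`, absolute value `≤ C (1+u²)^{-1}/log D + N^{-1/2}`.
* `N^{1/8} < |u| ≤ 2N^A`: by `kernel` (for `M = N/d ≥ N^{1/2}`, `|u| ≤ M^{2A+2}`; use `kernel (2A+2)` from the
  start): `≤ ∑_{d≤D²} d · C (N^{-1/4} + (N/d)^{-c}) ≤ C D^4 N^{-c/2} ≤ C N^{-c/4}`.
So `max_t ∑_{t'} |kernel(t-t')| ≤ C V/v + #𝒲 N^{-κ}` and `Z ≤ (C V/v)(C V/v + #𝒲 N^{-κ})`.
-/

namespace Pool.MRZ

open Finset

namespace HMpAux

/-- the sieve weight -/
noncomputable def nu (l : ℕ → ℝ) (D m : ℕ) : ℝ :=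
  ∑ d ∈ (Finset.Icc 1 (D ^ 2)).filter (· ∣ m), l d

/-- the kernel with the sieve weight -/
noncomputable def KN (l : ℕ → ℝ) (D : ℕ) (N u : ℝ) : ℂ :=
  ∑ m ∈ Finset.Icc 1 ⌊N * Real.exp 2⌋₊, ((nu l D m * ww N m / m : ℝ) : ℂ) * tw (-u) m

theorem ww_nonneg (M : ℝ) (m : ℕ) : 0 ≤ ww M m := le_max_left _ _

theorem ww_ge {M : ℝ} {m : ℕ} (h : |Real.log m - Real.log M| ≤ 1) : 1 ≤ ww M m := by
  unfold ww
  refine le_trans ?_ (le_max_right _ _)
  linarith

theorem KN_eq (l : ℕ → ℝ) (D : ℕ) {N : ℝ} (hN : 0 < N) (u : ℝ) :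
    KN l D N u = ∑ d ∈ Finset.Icc 1 (D ^ 2), ((l d / d : ℝ) : ℂ) * tw (-u) d * KK (N / d) u := by
  unfold KN nu
  have h1 : ∀ m ∈ Finset.Icc 1 ⌊N * Real.exp 2⌋₊,
      (((∑ d ∈ (Finset.Icc 1 (D ^ 2)).filter (· ∣ m), l d) * ww N m / m : ℝ) : ℂ) * tw (-u) m =
      ∑ d ∈ Finset.Icc 1 (D ^ 2), if d ∣ m then ((l d * ww N m / m : ℝ) : ℂ) * tw (-u) m else 0 := by
    intro m _
    rw [← Finset.sum_filter, Finset.sum_mul, Finset.sum_div]
    push_cast
    rw [Finset.sum_mul]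
  rw [Finset.sum_congr rfl h1, Finset.sum_comm]
  refine Finset.sum_congr rfl fun d hd => ?_
  rw [Finset.mem_Icc] at hd
  have hd0 : d ≠ 0 := by omega
  have hdR : (0 : ℝ) < d := by exact_mod_cast Nat.pos_of_ne_zero hd0
  rw [← Finset.sum_filter]
  unfold KK
  rw [Finset.mul_sum]
  have hNe : 0 ≤ N * Real.exp 2 := by positivity
  have hNe' : 0 ≤ N / d * Real.exp 2 := by positivity
  refine Finset.sum_nbij' (fun m => m / d) (fun m => d * m) ?_ ?_ ?_ ?_ ?_
  · intro m hm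
    rw [Finset.mem_filter, Finset.mem_Icc, Nat.le_floor_iff hNe] at hm
    obtain ⟨⟨hm1, hm2⟩, k, rfl⟩ := hm
    rw [Finset.mem_Icc, Nat.le_floor_iff hNe', Nat.mul_div_cancel_left _ (Nat.pos_of_ne_zero hd0)]
    refine ⟨?_, ?_⟩
    · rcases Nat.eq_zero_or_pos k with h | h
      · simp [h] at hm1
      · exact h
    · push_cast at hm2
      rw [div_mul_eq_mul_div, le_div_iff₀ hdR]
      linarith
  · intro m hm
    rw [Finset.mem_Icc, Nat.le_floor_iff hNe'] at hm
    rw [Finset.mem_filter, Finset.mem_Icc, Nat.le_floor_iff hNe]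
    refine ⟨⟨Nat.mul_pos (Nat.pos_of_ne_zero hd0) hm.1, ?_⟩, dvd_mul_right _ _⟩
    have h2 := hm.2
    rw [div_mul_eq_mul_div, le_div_iff₀ hdR] at h2
    push_cast
    linarith
  · intro m hm
    rw [Finset.mem_filter] at hm
    exact Nat.mul_div_cancel' hm.2
  · intro m _
    exact Nat.mul_div_cancel_left _ (Nat.pos_of_ne_zero hd0)
  · intro m hm
    rw [Finset.mem_filter, Finset.mem_Icc] at hm
    obtain ⟨⟨hm1, -⟩, k, rfl⟩ := hm
    rw [Nat.mul_div_cancel_left _ (Nat.pos_of_ne_zero hd0)]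
    have hk0 : k ≠ 0 := by
      rintro rfl
      simp at hm1
    have hkR : (0 : ℝ) < k := by exact_mod_cast Nat.pos_of_ne_zero hk0
    have hw : ww N (d * k) = ww (N / d) k := by
      have e : Real.log ((d * k : ℕ) : ℝ) - Real.log N = Real.log k - Real.log (N / d) := by
        push_cast
        rw [Real.log_mul hdR.ne' hkR.ne', Real.log_div hN.ne' hdR.ne']
        ring
      unfold ww
      rw [e]
    rw [hw, tw_mul (-u) hd0 hk0]
    have hdC : (d : ℂ) ≠ 0 := by exact_mod_cast hd0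
    have hkC : (k : ℂ) ≠ 0 := by exact_mod_cast hk0
    push_cast
    field_simp

theorem sum_inv_bound : ∃ S : ℝ, 0 < S ∧ ∀ (W : Finset ℤ) (t : ℤ),
    ∑ t' ∈ W, 1 / (1 + ((t : ℝ) - t') ^ 2) ≤ S := by
  have hs : Summable fun k : ℤ => 1 / (1 + (k : ℝ) ^ 2) := by
    have h1 : Summable fun k : ℤ => 1 / (k : ℝ) ^ 2 := Real.summable_one_div_int_pow.mpr one_lt_two
    have h2 : Summable fun k : ℤ => (Pi.single (0 : ℤ) (1 : ℝ) : ℤ → ℝ) k :=
      (hasSum_pi_single (0 : ℤ) (1 : ℝ)).summable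
    refine Summable.of_nonneg_of_le (fun k => by positivity) (fun k => ?_) (h1.add h2)
    rcases eq_or_ne k 0 with h | h
    · subst h
      simp
    · have hk : (0 : ℝ) < (k : ℝ) ^ 2 := by positivity
      rw [Pi.single_eq_of_ne h, add_zero]
      exact one_div_le_one_div_of_le hk (by linarith)
  refine ⟨∑' k : ℤ, 1 / (1 + (k : ℝ) ^ 2), ?_, fun W t => ?_⟩
  · exact hs.tsum_pos (fun k => by positivity) 0 (by norm_num)
  · have hinj : Function.Injective fun t' : ℤ => t - t' := fun a b h => by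
      simpa using h
    have h1 : ∑ t' ∈ W, 1 / (1 + ((t : ℝ) - t') ^ 2) =
        ∑ k ∈ W.map ⟨fun t' : ℤ => t - t', hinj⟩, 1 / (1 + (k : ℝ) ^ 2) := by
      rw [Finset.sum_map]
      refine Finset.sum_congr rfl fun t' _ => ?_
      simp
    rw [h1]
    exact hs.sum_le_tsum _ (fun k _ => by positivity)

/-- duality -/
theorem dual {f : ℕ → ℂ} (hf : ∀ n, ‖f n‖ ≤ 1) {V v : ℕ} (hV : 1 ≤ V) {W : Finset ℤ}
    {l : ℕ → ℝ} {D : ℕ} (hD : (D : ℝ) ≤ Real.exp ((v : ℝ) / V))
    (h0 : ∀ m, 1 ≤ m → 0 ≤ nu l D m) (hp : ∀ p, p.Prime → D < p → 1 ≤ nu l D p)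
    {a b S P : ℝ} (ha : 0 ≤ a) (hb : 0 ≤ b)
    (hS : ∀ t : ℤ, ∑ t' ∈ W, 1 / (1 + ((t : ℝ) - t') ^ 2) ≤ S)
    (hP : ∑ p ∈ PV V v, (1 : ℝ) / p ≤ P)
    (hK : ∀ t ∈ W, ∀ t' ∈ W, ‖KN l D (Real.exp ((v : ℝ) / V)) ((t : ℝ) - t')‖ ≤
      a / (1 + ((t : ℝ) - t') ^ 2) + b) :
    ∑ t ∈ W, ‖Q f V v t‖ ^ 2 ≤ P * (a * S + b * W.card) := by
  set N : ℝ := Real.exp ((v : ℝ) / V) with hN
  set Z : ℝ := ∑ t ∈ W, ‖Q f V v t‖ ^ 2 with hZ
  have hZ0 : 0 ≤ Z := Finset.sum_nonneg fun t _ => by positivity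
  set q : ℤ → ℂ := fun t => Q f V v t with hq
  set g : ℕ → ℂ := fun m => ∑ t ∈ W, (starRingEnd ℂ) (q t) * tw (-(t : ℝ)) m with hg
  have hP0 : 0 ≤ P := le_trans (Finset.sum_nonneg fun p _ => by positivity) hP
  -- first step
  have hZ1 : (Z : ℂ) = ∑ p ∈ PV V v, (f p / p) * g p := by
    have h1 : (Z : ℂ) = ∑ t ∈ W, (starRingEnd ℂ) (q t) * q t := by
      rw [hZ]
      push_cast
      refine Finset.sum_congr rfl fun t _ => ?_
      rw [mul_comm, Complex.mul_conj, Complex.normSq_eq_norm_sq]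
      push_cast
      rfl
    rw [h1]
    have h2 : ∀ t ∈ W, (starRingEnd ℂ) (q t) * q t =
        ∑ p ∈ PV V v, (f p / p) * ((starRingEnd ℂ) (q t) * tw (-(t : ℝ)) p) := by
      intro t _
      have h3 : q t = ∑ p ∈ PV V v, f p * tw (-(t : ℝ)) p / (p : ℂ) := rfl
      calc (starRingEnd ℂ) (q t) * q t
          = (starRingEnd ℂ) (q t) * ∑ p ∈ PV V v, f p * tw (-(t : ℝ)) p / (p : ℂ) :=
            congrArg (fun z => (starRingEnd ℂ) (q t) * z) h3
        _ = ∑ p ∈ PV V v, (f p / p) * ((starRingEnd ℂ) (q t) * tw (-(t : ℝ)) p) := by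
            rw [Finset.mul_sum]
            refine Finset.sum_congr rfl fun p _ => ?_
            ring
    rw [Finset.sum_congr rfl h2, Finset.sum_comm]
    refine Finset.sum_congr rfl fun p _ => ?_
    rw [hg, Finset.mul_sum]
  have hZ2 : Z ≤ ∑ p ∈ PV V v, (1 : ℝ) / p * ‖g p‖ := by
    have h1 : Z = ‖(Z : ℂ)‖ := by
      rw [Complex.norm_real, Real.norm_of_nonneg hZ0]
    rw [h1, hZ1]
    refine (norm_sum_le _ _).trans (Finset.sum_le_sum fun p _ => ?_)
    rw [norm_mul, norm_div, Complex.norm_natCast]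
    refine mul_le_mul_of_nonneg_right ?_ (norm_nonneg _)
    exact div_le_div_of_nonneg_right (hf p) (Nat.cast_nonneg _)
  have hcs : (∑ p ∈ PV V v, (1 : ℝ) / p * ‖g p‖) ^ 2 ≤
      (∑ p ∈ PV V v, (1 : ℝ) / p) * ∑ p ∈ PV V v, (1 : ℝ) / p * ‖g p‖ ^ 2 := by
    refine Finset.sum_sq_le_sum_mul_sum_of_sq_le_mul _ (fun p _ => by positivity)
      (fun p _ => by positivity) fun p _ => le_of_eq (by ring)
  -- majorant
  have hmaj : ∑ p ∈ PV V v, (1 : ℝ) / p * ‖g p‖ ^ 2 ≤
      ∑ m ∈ Finset.Icc 1 ⌊N * Real.exp 2⌋₊, (nu l D m * ww N m / m) * ‖g m‖ ^ 2 := by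
    have hVR : (0 : ℝ) < V := by exact_mod_cast hV
    have hlog : Real.log N = (v : ℝ) / V := by rw [hN, Real.log_exp]
    have hsub : PV V v ⊆ Finset.Icc 1 ⌊N * Real.exp 2⌋₊ := by
      intro p hp'
      rw [mem_PV] at hp'
      rw [Finset.mem_Icc, Nat.le_floor_iff (by positivity)]
      refine ⟨hp'.1.one_lt.le, hp'.2.2.trans ?_⟩
      rw [hN, ← Real.exp_add]
      apply Real.exp_le_exp.mpr
      rw [add_div]
      have : (1 : ℝ) / V ≤ 1 := by
        rw [div_le_one hVR]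
        exact_mod_cast hV
      linarith
    refine le_trans (Finset.sum_le_sum fun p hp' => ?_)
      (Finset.sum_le_sum_of_subset_of_nonneg hsub fun m hm _ => ?_)
    · rw [mem_PV] at hp'
      obtain ⟨hpp, hp1, hp2⟩ := hp'
      have hppos : (0 : ℝ) < p := by exact_mod_cast hpp.pos
      refine mul_le_mul_of_nonneg_right ?_ (by positivity)
      refine div_le_div_of_nonneg_right ?_ hppos.le
      have h1 : 1 ≤ nu l D p := by
        apply hp p hpp
        have : (D : ℝ) < p := lt_of_le_of_lt hD hp1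
        exact_mod_cast this
      have h2 : 1 ≤ ww N p := by
        apply ww_ge
        have h3 : Real.log N < Real.log p := by
          rw [hlog]
          have := Real.log_lt_log (Real.exp_pos _) hp1
          rwa [Real.log_exp] at this
        have h4 : Real.log p ≤ Real.log N + 1 := by
          have := Real.log_le_log hppos hp2
          rw [Real.log_exp, add_div] at this
          rw [hlog]
          have h5 : (1 : ℝ) / V ≤ 1 := by
            rw [div_le_one hVR]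
            exact_mod_cast hV
          linarith
        rw [abs_le]
        constructor <;> linarith
      nlinarith
    · rw [Finset.mem_Icc] at hm
      have := h0 m hm.1
      have := ww_nonneg N m
      positivity
  -- expansion of the square
  have hexp : ((∑ m ∈ Finset.Icc 1 ⌊N * Real.exp 2⌋₊, (nu l D m * ww N m / m) * ‖g m‖ ^ 2 : ℝ) : ℂ)
      = ∑ t ∈ W, ∑ t' ∈ W, (starRingEnd ℂ) (q t) * q t' * KN l D N ((t : ℝ) - t') := by
    have h1 : ∀ m, ((‖g m‖ ^ 2 : ℝ) : ℂ) =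
        ∑ t ∈ W, ∑ t' ∈ W, (starRingEnd ℂ) (q t) * q t' * tw (-((t : ℝ) - t')) m := by
      intro m
      rw [← Complex.normSq_eq_norm_sq, ← Complex.mul_conj, hg, map_sum, Finset.sum_mul_sum]
      refine Finset.sum_congr rfl fun t _ => Finset.sum_congr rfl fun t' _ => ?_
      rw [map_mul, Complex.conj_conj, conj_tw, neg_neg]
      have : -((t : ℝ) - t') = -(t : ℝ) + t' := by ring
      rw [this, tw_add]
      ring
    rw [Complex.ofReal_sum]
    have h2 : ∀ m ∈ Finset.Icc 1 ⌊N * Real.exp 2⌋₊,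
        (((nu l D m * ww N m / m) * ‖g m‖ ^ 2 : ℝ) : ℂ) =
        ∑ t ∈ W, ∑ t' ∈ W, (starRingEnd ℂ) (q t) * q t' *
          (((nu l D m * ww N m / m : ℝ) : ℂ) * tw (-((t : ℝ) - t')) m) := by
      intro m _
      rw [Complex.ofReal_mul, h1, Finset.mul_sum]
      refine Finset.sum_congr rfl fun t _ => ?_
      rw [Finset.mul_sum]
      refine Finset.sum_congr rfl fun t' _ => ?_
      ring
    rw [Finset.sum_congr rfl h2, Finset.sum_comm]
    refine Finset.sum_congr rfl fun t _ => ?_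
    rw [Finset.sum_comm]
    refine Finset.sum_congr rfl fun t' _ => ?_
    rw [← Finset.mul_sum]
    rfl
  have hquad : ∑ m ∈ Finset.Icc 1 ⌊N * Real.exp 2⌋₊, (nu l D m * ww N m / m) * ‖g m‖ ^ 2 ≤
      Z * (a * S + b * W.card) := by
    set F : ℤ → ℤ → ℝ := fun t t' => a / (1 + ((t : ℝ) - t') ^ 2) + b with hF
    have hsymm : ∀ t t', F t t' = F t' t := by
      intro t t'
      simp only [hF]
      congr 2
      ring
    have hF0 : ∀ t t', 0 ≤ F t t' := by
      intro t t'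
      simp only [hF]
      positivity
    have hrow : ∀ t, ∑ t' ∈ W, F t t' ≤ a * S + b * W.card := by
      intro t
      simp only [hF]
      rw [Finset.sum_add_distrib, Finset.sum_const, nsmul_eq_mul, mul_comm b]
      gcongr
      have : ∑ t' ∈ W, a / (1 + ((t : ℝ) - t') ^ 2) =
          a * ∑ t' ∈ W, 1 / (1 + ((t : ℝ) - t') ^ 2) := by
        rw [Finset.mul_sum]
        refine Finset.sum_congr rfl fun t' _ => ?_
        ring
      rw [this]
      exact mul_le_mul_of_nonneg_left (hS t) ha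
    calc ∑ m ∈ Finset.Icc 1 ⌊N * Real.exp 2⌋₊, (nu l D m * ww N m / m) * ‖g m‖ ^ 2
        ≤ ‖((∑ m ∈ Finset.Icc 1 ⌊N * Real.exp 2⌋₊,
            (nu l D m * ww N m / m) * ‖g m‖ ^ 2 : ℝ) : ℂ)‖ := by
          rw [Complex.norm_real]
          exact Real.le_norm_self _
      _ ≤ ∑ t ∈ W, ∑ t' ∈ W, ‖q t‖ * ‖q t'‖ * F t t' := by
          rw [hexp]
          refine (norm_sum_le _ _).trans (Finset.sum_le_sum fun t ht => ?_)
          refine (norm_sum_le _ _).trans (Finset.sum_le_sum fun t' ht' => ?_)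
          rw [norm_mul, norm_mul, RCLike.norm_conj]
          exact mul_le_mul_of_nonneg_left (hK t ht t' ht') (by positivity)
      _ ≤ ∑ t ∈ W, ∑ t' ∈ W, (‖q t‖ ^ 2 * F t t' / 2 + ‖q t'‖ ^ 2 * F t t' / 2) := by
          refine Finset.sum_le_sum fun t _ => Finset.sum_le_sum fun t' _ => ?_
          have h1 := sq_nonneg (‖q t‖ - ‖q t'‖)
          have h2 := hF0 t t'
          nlinarith
      _ = ∑ t ∈ W, ∑ t' ∈ W, ‖q t‖ ^ 2 * F t t' := by
          have h1 : ∑ t ∈ W, ∑ t' ∈ W, ‖q t'‖ ^ 2 * F t t' / 2 =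
              ∑ t ∈ W, ∑ t' ∈ W, ‖q t‖ ^ 2 * F t t' / 2 := by
            rw [Finset.sum_comm]
            refine Finset.sum_congr rfl fun t _ => Finset.sum_congr rfl fun t' _ => ?_
            rw [hsymm]
          simp only [Finset.sum_add_distrib]
          rw [h1, ← Finset.sum_add_distrib]
          refine Finset.sum_congr rfl fun t _ => ?_
          rw [← Finset.sum_add_distrib]
          refine Finset.sum_congr rfl fun t' _ => ?_
          ring
      _ ≤ ∑ t ∈ W, ‖q t‖ ^ 2 * (a * S + b * W.card) := by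
          refine Finset.sum_le_sum fun t _ => ?_
          rw [← Finset.mul_sum]
          exact mul_le_mul_of_nonneg_left (hrow t) (by positivity)
      _ = Z * (a * S + b * W.card) := by
          rw [← Finset.sum_mul]
  -- conclusion
  have hB0 : 0 ≤ a * S + b * W.card := by
    rcases W.eq_empty_or_nonempty with h | ⟨t, ht⟩
    · have hS0 : 0 ≤ S := by
        have := hS 0
        rw [h] at this
        simpa using this
      positivity
    · have hS0 : 0 ≤ S := le_trans (Finset.sum_nonneg fun t' _ => by positivity) (hS t)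
      positivity
  have hfin : Z ^ 2 ≤ (P * (a * S + b * W.card)) * Z := by
    calc Z ^ 2 ≤ (∑ p ∈ PV V v, (1 : ℝ) / p * ‖g p‖) ^ 2 := pow_le_pow_left₀ hZ0 hZ2 2
      _ ≤ (∑ p ∈ PV V v, (1 : ℝ) / p) * ∑ p ∈ PV V v, (1 : ℝ) / p * ‖g p‖ ^ 2 := hcs
      _ ≤ P * (Z * (a * S + b * W.card)) := by
          refine mul_le_mul hP (hmaj.trans hquad) (Finset.sum_nonneg fun p _ => by positivity) hP0
      _ = (P * (a * S + b * W.card)) * Z := by ring
  rcases hZ0.eq_or_lt with h | h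
  · rw [← h]
    positivity
  · rw [sq] at hfin
    exact le_of_mul_le_mul_right hfin h

theorem exp_mul_le {D : ℕ} {δ L : ℝ} (hD : (D : ℝ) ≤ Real.exp (δ * L)) (k : ℕ) :
    (D : ℝ) ^ k ≤ Real.exp (k * (δ * L)) := by
  rw [Real.exp_nat_mul]
  exact pow_le_pow_left₀ (Nat.cast_nonneg _) hD k

/-- the kernel with the sieve weight is small -/
theorem KN_bound {A : ℕ} {c Ck Cq Cs κ L : ℝ} {D : ℕ} {l : ℕ → ℝ}
    (hCk : 0 < Ck) (hCq : 0 < Cq) (hCs : 0 < Cs)
    (hk1 : ∀ M u : ℝ, 1 ≤ M →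
      ‖KK M u - Complex.exp (((-u * Real.log M : ℝ) : ℂ) * Complex.I) * Phi u‖ ≤
      Ck * (1 + |u|) / M)
    (hk2 : ∀ M u : ℝ, 1 ≤ M → |u| ≤ M ^ (2 * A + 2) →
      ‖KK M u‖ ≤ Cq * (1 / (1 + u ^ 2) + M ^ (-c)))
    (hκ0 : 0 < κ) (hκ1 : κ ≤ 1 / 8) (hκ2 : κ ≤ c / 4)
    (hL : 2 ≤ κ / 4 * L) (hD1 : (D : ℝ) ≤ Real.exp (κ / 4 * L))
    (hD2 : κ / 8 * L ≤ Real.log D)
    (hl1 : ∀ d, |l d| ≤ (d : ℝ) ^ 2)
    (hl2 : |∑ d ∈ Finset.Icc 1 (D ^ 2), l d / d| ≤ Cs / Real.log D)
    {u : ℝ} (hu : |u| ≤ 2 * Real.exp (A * L)) :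
    ‖KN l D (Real.exp L) u‖ ≤
      64 * Cs / κ / L / (1 + u ^ 2) + (2 * Ck + 2 * Cq) * Real.exp (-κ * L) := by
  have hL0 : 0 < L := by
    by_contra h
    push Not at h
    have : κ / 4 * L ≤ 0 := mul_nonpos_of_nonneg_of_nonpos (by linarith) h
    linarith
  have hL1 : 64 ≤ L := by
    by_contra h
    push Not at h
    have : κ / 4 * L ≤ 1 / 32 * L := mul_le_mul_of_nonneg_right (by linarith) hL0.le
    linarith
  set N : ℝ := Real.exp L with hN
  have hNpos : 0 < N := Real.exp_pos _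
  -- facts on the divisors
  have hd : ∀ d ∈ Finset.Icc 1 (D ^ 2), (1 : ℝ) ≤ d ∧ (d : ℝ) ≤ Real.exp (2 * (κ / 4 * L)) ∧
      (d : ℝ) ≤ (D : ℝ) ^ 2 := by
    intro d hd
    rw [Finset.mem_Icc] at hd
    have h1 : (d : ℝ) ≤ (D : ℝ) ^ 2 := by exact_mod_cast hd.2
    refine ⟨by exact_mod_cast hd.1, h1.trans ?_, h1⟩
    have := exp_mul_le hD1 2
    simpa using this
  have hM : ∀ d ∈ Finset.Icc 1 (D ^ 2), Real.exp (L / 2) ≤ N / d := by
    intro d hd'
    obtain ⟨h1, h2, -⟩ := hd d hd'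
    rw [le_div_iff₀ (by linarith)]
    calc Real.exp (L / 2) * d ≤ Real.exp (L / 2) * Real.exp (2 * (κ / 4 * L)) :=
          mul_le_mul_of_nonneg_left h2 (Real.exp_pos _).le
      _ = Real.exp (L / 2 + 2 * (κ / 4 * L)) := (Real.exp_add _ _).symm
      _ ≤ N := by
          apply Real.exp_le_exp.mpr
          nlinarith
  have hM1 : ∀ d ∈ Finset.Icc 1 (D ^ 2), 1 ≤ N / d := by
    intro d hd'
    exact le_trans (Real.one_le_exp (by linarith)) (hM d hd')
  have hld : ∀ d ∈ Finset.Icc 1 (D ^ 2), |l d / d| ≤ d := by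
    intro d hd'
    obtain ⟨h1, -, -⟩ := hd d hd'
    rw [abs_div, abs_of_pos (by linarith : (0 : ℝ) < d), div_le_iff₀ (by linarith)]
    calc |l d| ≤ (d : ℝ) ^ 2 := hl1 d
      _ = d * d := by ring
  have hsumd : ∑ d ∈ Finset.Icc 1 (D ^ 2), (d : ℝ) ≤ (D : ℝ) ^ 4 := by
    calc ∑ d ∈ Finset.Icc 1 (D ^ 2), (d : ℝ) ≤ ∑ d ∈ Finset.Icc 1 (D ^ 2), (D : ℝ) ^ 2 :=
          Finset.sum_le_sum fun d hd' => (hd d hd').2.2
      _ = (D : ℝ) ^ 4 := by
          rw [Finset.sum_const, Nat.card_Icc, nsmul_eq_mul, Nat.add_sub_cancel]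
          push_cast
          ring
  have hsumd2 : ∑ d ∈ Finset.Icc 1 (D ^ 2), (d : ℝ) * d ≤ (D : ℝ) ^ 6 := by
    calc ∑ d ∈ Finset.Icc 1 (D ^ 2), (d : ℝ) * d ≤
        ∑ d ∈ Finset.Icc 1 (D ^ 2), (D : ℝ) ^ 2 * (D : ℝ) ^ 2 := by
          refine Finset.sum_le_sum fun d hd' => ?_
          obtain ⟨h1, -, h3⟩ := hd d hd'
          exact mul_le_mul h3 h3 (by linarith) (by positivity)
      _ = (D : ℝ) ^ 6 := by
          rw [Finset.sum_const, Nat.card_Icc, nsmul_eq_mul, Nat.add_sub_cancel]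
          push_cast
          ring
  have hmain0 : 0 ≤ 64 * Cs / κ / L / (1 + u ^ 2) := by positivity
  rw [KN_eq l D hNpos u]
  rcases le_or_gt |u| (Real.exp (L / 8)) with hcase | hcase
  · -- small `u`
    have hsplit : ∑ d ∈ Finset.Icc 1 (D ^ 2), ((l d / d : ℝ) : ℂ) * tw (-u) d * KK (N / d) u =
        Complex.exp (((-u * L : ℝ) : ℂ) * Complex.I) * Phi u *
          ((∑ d ∈ Finset.Icc 1 (D ^ 2), l d / d : ℝ) : ℂ) +
        ∑ d ∈ Finset.Icc 1 (D ^ 2), ((l d / d : ℝ) : ℂ) * tw (-u) d *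
          (KK (N / d) u -
            Complex.exp (((-u * Real.log (N / d) : ℝ) : ℂ) * Complex.I) * Phi u) := by
      rw [Complex.ofReal_sum, Finset.mul_sum, ← Finset.sum_add_distrib]
      refine Finset.sum_congr rfl fun d hd' => ?_
      obtain ⟨h1, -, -⟩ := hd d hd'
      have h2 : tw (-u) d * Complex.exp (((-u * Real.log (N / d) : ℝ) : ℂ) * Complex.I) =
          Complex.exp (((-u * L : ℝ) : ℂ) * Complex.I) := by
        unfold tw
        rw [← Complex.exp_add, Real.log_div hNpos.ne' (by linarith), hN, Real.log_exp]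
        congr 1
        push_cast
        ring
      rw [← h2]
      ring
    rw [hsplit]
    refine (norm_add_le _ _).trans (add_le_add ?_ ?_)
    · rw [norm_mul, norm_mul, Complex.norm_exp_ofReal_mul_I, one_mul, Complex.norm_real,
        Complex.norm_real, Real.norm_of_nonneg (Phi_nonneg u)]
      have h1 : Cs / Real.log D ≤ Cs / (κ / 8 * L) :=
        div_le_div_of_nonneg_left hCs.le (by positivity) hD2
      have h2 : ‖∑ d ∈ Finset.Icc 1 (D ^ 2), l d / d‖ ≤ Cs / (κ / 8 * L) := hl2.trans h1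
      calc Phi u * ‖∑ d ∈ Finset.Icc 1 (D ^ 2), l d / d‖
          ≤ 8 / (1 + u ^ 2) * (Cs / (κ / 8 * L)) :=
            mul_le_mul (Phi_le u) h2 (norm_nonneg _) (by positivity)
        _ = 64 * Cs / κ / L / (1 + u ^ 2) := by
            field_simp
            ring
    · calc ‖∑ d ∈ Finset.Icc 1 (D ^ 2), ((l d / d : ℝ) : ℂ) * tw (-u) d *
            (KK (N / d) u -
              Complex.exp (((-u * Real.log (N / d) : ℝ) : ℂ) * Complex.I) * Phi u)‖
          ≤ ∑ d ∈ Finset.Icc 1 (D ^ 2), (d : ℝ) * (Ck * (1 + |u|) / (N / d)) := by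
            refine (norm_sum_le _ _).trans (Finset.sum_le_sum fun d hd' => ?_)
            rw [norm_mul, norm_mul, norm_tw, mul_one, Complex.norm_real]
            exact mul_le_mul (hld d hd') (hk1 _ _ (hM1 d hd')) (norm_nonneg _)
              (by have := (hd d hd').1; linarith)
        _ = Ck * (1 + |u|) / N * ∑ d ∈ Finset.Icc 1 (D ^ 2), (d : ℝ) * d := by
            rw [Finset.mul_sum]
            refine Finset.sum_congr rfl fun d hd' => ?_
            have h1 := (hd d hd').1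
            have h2 : (d : ℝ) ≠ 0 := by linarith
            field_simp
        _ ≤ Ck * (2 * Real.exp (L / 8)) / N * Real.exp (6 * (κ / 4 * L)) := by
            have h1 : (1 : ℝ) ≤ Real.exp (L / 8) := Real.one_le_exp (by linarith)
            have h2 := exp_mul_le hD1 6
            push_cast at h2
            have h3 := hsumd2.trans h2
            have h4 : 1 + |u| ≤ 2 * Real.exp (L / 8) := by linarith
            gcongr
        _ = 2 * Ck * Real.exp (L / 8 - L + 6 * (κ / 4 * L)) := by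
            rw [Real.exp_add, Real.exp_sub, hN]
            ring
        _ ≤ 2 * Ck * Real.exp (-κ * L) := by
            gcongr
            nlinarith
        _ ≤ (2 * Ck + 2 * Cq) * Real.exp (-κ * L) := by
            gcongr
            linarith
  · -- large `u`
    have hKK : ∀ d ∈ Finset.Icc 1 (D ^ 2),
        ‖KK (N / d) u‖ ≤ Cq * (Real.exp (-(L / 4)) + Real.exp (-(c * L / 2))) := by
      intro d hd'
      have h1 := hM d hd'
      have hu2 : |u| ≤ (N / d) ^ (2 * A + 2) := by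
        refine hu.trans ?_
        calc 2 * Real.exp (A * L) ≤ Real.exp L * Real.exp (A * L) := by
              gcongr
              have := Real.add_one_le_exp L
              linarith
          _ = Real.exp (L / 2) ^ (2 * A + 2) := by
              rw [← Real.exp_add, ← Real.exp_nat_mul]
              congr 1
              push_cast
              ring
          _ ≤ (N / d) ^ (2 * A + 2) := pow_le_pow_left₀ (Real.exp_pos _).le h1 _
      refine (hk2 _ _ (hM1 d hd') hu2).trans ?_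
      gcongr
      · have h2 : Real.exp (L / 4) ≤ u ^ 2 := by
          rw [← sq_abs]
          calc Real.exp (L / 4) = Real.exp (L / 8) ^ 2 := by
                rw [← Real.exp_nat_mul]
                congr 1
                push_cast
                ring
            _ ≤ |u| ^ 2 := pow_le_pow_left₀ (Real.exp_pos _).le hcase.le 2
        rw [Real.exp_neg, ← one_div]
        exact one_div_le_one_div_of_le (Real.exp_pos _) (by linarith)
      · calc (N / d) ^ (-c) ≤ (Real.exp (L / 2)) ^ (-c) :=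
              Real.rpow_le_rpow_of_nonpos (Real.exp_pos _) h1 (by linarith)
          _ = Real.exp (-(c * L / 2)) := by
              rw [← Real.exp_mul]
              congr 1
              ring
    have hB : 0 ≤ Cq * (Real.exp (-(L / 4)) + Real.exp (-(c * L / 2))) := by positivity
    calc ‖∑ d ∈ Finset.Icc 1 (D ^ 2), ((l d / d : ℝ) : ℂ) * tw (-u) d * KK (N / d) u‖
        ≤ ∑ d ∈ Finset.Icc 1 (D ^ 2), (d : ℝ) *
            (Cq * (Real.exp (-(L / 4)) + Real.exp (-(c * L / 2)))) := by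
          refine (norm_sum_le _ _).trans (Finset.sum_le_sum fun d hd' => ?_)
          rw [norm_mul, norm_mul, norm_tw, mul_one, Complex.norm_real]
          exact mul_le_mul (hld d hd') (hKK d hd') (norm_nonneg _)
            (by have := (hd d hd').1; linarith)
      _ ≤ Real.exp (κ * L) * (Cq * (Real.exp (-(L / 4)) + Real.exp (-(c * L / 2)))) := by
          rw [← Finset.sum_mul]
          have h2 := exp_mul_le hD1 4
          have h3 : ((4 : ℕ) : ℝ) * (κ / 4 * L) = κ * L := by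
            push_cast
            ring
          rw [h3] at h2
          exact mul_le_mul_of_nonneg_right (hsumd.trans h2) hB
      _ = Cq * Real.exp (κ * L + -(L / 4)) + Cq * Real.exp (κ * L + -(c * L / 2)) := by
          rw [Real.exp_add, Real.exp_add]
          ring
      _ ≤ Cq * Real.exp (-κ * L) + Cq * Real.exp (-κ * L) := by
          gcongr
          · nlinarith
          · nlinarith
      _ ≤ (2 * Ck + 2 * Cq) * Real.exp (-κ * L) := by
          have h1 : 0 < Real.exp (-κ * L) := Real.exp_pos _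
          nlinarith
      _ ≤ 64 * Cs / κ / L / (1 + u ^ 2) + (2 * Ck + 2 * Cq) * Real.exp (-κ * L) := by
          linarith

end HMpAux

theorem hmp (A : ℕ) : ∃ κ C : ℝ, 0 < κ ∧ 0 < C ∧ ∀ (f : ℕ → ℂ) (V v : ℕ) (W : Finset ℤ),
    (∀ n, ‖f n‖ ≤ 1) → 1 ≤ V → 1 ≤ v → (∀ t ∈ W, |(t : ℝ)| ≤ Real.exp (A * ((v : ℝ) / V))) →
    ∑ t ∈ W, ‖Q f V v t‖ ^ 2 ≤
      C * ((V : ℝ) / v) * ((V : ℝ) / v + W.card * Real.exp (-κ * ((v : ℝ) / V))) := by
  obtain ⟨Ck, hCk, hk1⟩ := kernel_main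
  obtain ⟨c, Cq, hc, hCq, hk2⟩ := kernel (2 * A + 2)
  obtain ⟨Cs, hCs, hsel⟩ := sel_maj
  obtain ⟨CP, hCP, hPV⟩ := PV_le
  obtain ⟨S, hS0, hS⟩ := HMpAux.sum_inv_bound
  set κ : ℝ := min (1 / 8) (c / 4) with hκ
  have hκ0 : 0 < κ := lt_min (by norm_num) (by linarith)
  have hκ1 : κ ≤ 1 / 8 := min_le_left _ _
  have hκ2 : κ ≤ c / 4 := min_le_right _ _
  set L₀ : ℝ := 8 / κ with hL₀
  have hL₀0 : 0 < L₀ := by positivity
  set B : ℝ := 2 * Real.exp (A * L₀) + 1 with hB
  have hB0 : 0 < B := by positivity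
  set C : ℝ := CP * (64 * Cs / κ * S + (2 * Ck + 2 * Cq)) + B * CP ^ 2 with hC
  have hC0 : 0 < C := by positivity
  refine ⟨κ, C, hκ0, hC0, fun f V v W hf hV hv hW => ?_⟩
  have hVR : (0 : ℝ) < V := by exact_mod_cast hV
  have hvR : (0 : ℝ) < v := by exact_mod_cast hv
  set L : ℝ := (v : ℝ) / V with hL
  have hL0 : 0 < L := by positivity
  have hVL : (V : ℝ) / v = 1 / L := by
    rw [hL, one_div_div]
  have hP : ∑ p ∈ PV V v, (1 : ℝ) / p ≤ CP * (1 / L) := by
    rw [← hVL, ← mul_div_assoc]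
    exact hPV V v hV hv
  rw [hVL]
  rcases le_or_gt L₀ L with hbig | hsmall
  · -- the main case
    have h8 : 8 ≤ κ * L := by
      rw [hL₀, div_le_iff₀ hκ0] at hbig
      linarith
    set D : ℕ := ⌊Real.exp (κ / 4 * L)⌋₊ with hD
    have hexp : (4 : ℝ) ≤ Real.exp (κ / 4 * L) := by
      have h1 := Real.quadratic_le_exp_of_nonneg (x := κ / 4 * L) (by positivity)
      nlinarith
    have hD1 : (D : ℝ) ≤ Real.exp (κ / 4 * L) := Nat.floor_le (Real.exp_pos _).le
    have hDge : Real.exp (κ / 4 * L) / 2 ≤ D := by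
      have := Nat.lt_floor_add_one (Real.exp (κ / 4 * L))
      rw [← hD] at this
      linarith
    have hD2 : 2 ≤ D := by
      have : (2 : ℝ) ≤ D := by linarith
      exact_mod_cast this
    have hlogD : κ / 8 * L ≤ Real.log D := by
      have h1 := Real.log_le_log (by positivity) hDge
      rw [Real.log_div (Real.exp_pos _).ne' (by norm_num), Real.log_exp] at h1
      have h2 : Real.log 2 ≤ 1 := by
        have := Real.log_two_lt_d9
        linarith
      linarith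
    obtain ⟨l, hl1, hl2, hl3, hl4⟩ := hsel D hD2
    have hDN : (D : ℝ) ≤ Real.exp ((v : ℝ) / V) := by
      refine hD1.trans (Real.exp_le_exp.mpr ?_)
      rw [← hL]
      nlinarith
    have hmain := HMpAux.dual (f := f) hf (V := V) (v := v) hV (W := W) (l := l) (D := D) hDN hl2 hl3
      (a := 64 * Cs / κ / L) (b := (2 * Ck + 2 * Cq) * Real.exp (-κ * L)) (S := S)
      (P := CP * (1 / L)) (by positivity) (by positivity) (hS W) hP (by
        intro t ht t' ht'
        rw [← hL]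
        apply HMpAux.KN_bound hCk hCq hCs hk1 hk2 hκ0 hκ1 hκ2 (by linarith) hD1 hlogD hl1 hl4
        have h1 := hW t ht
        have h2 := hW t' ht'
        calc |(t : ℝ) - t'| ≤ |(t : ℝ)| + |(t' : ℝ)| := abs_sub _ _
          _ ≤ 2 * Real.exp (A * L) := by linarith)
    refine hmain.trans ?_
    have e1 : CP * (1 / L) * (64 * Cs / κ / L * S + (2 * Ck + 2 * Cq) * Real.exp (-κ * L) * W.card) =
        CP * (64 * Cs / κ * S) * (1 / L) * (1 / L) +
        CP * (2 * Ck + 2 * Cq) * (1 / L) * (W.card * Real.exp (-κ * L)) := by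
      field_simp
    rw [e1]
    have h3 : 0 ≤ (1 / L) * (1 / L) := by positivity
    have h4 : 0 ≤ (1 / L) * (W.card * Real.exp (-κ * L)) := by positivity
    have h5 : CP * (64 * Cs / κ * S) ≤ C := by
      rw [hC]
      have : 0 ≤ CP * (2 * Ck + 2 * Cq) := by positivity
      have : 0 ≤ B * CP ^ 2 := by positivity
      nlinarith
    have h6 : CP * (2 * Ck + 2 * Cq) ≤ C := by
      rw [hC]
      have : 0 ≤ CP * (64 * Cs / κ * S) := by positivity
      have : 0 ≤ B * CP ^ 2 := by positivity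
      nlinarith
    calc CP * (64 * Cs / κ * S) * (1 / L) * (1 / L) +
        CP * (2 * Ck + 2 * Cq) * (1 / L) * (W.card * Real.exp (-κ * L))
        = CP * (64 * Cs / κ * S) * ((1 / L) * (1 / L)) +
        CP * (2 * Ck + 2 * Cq) * ((1 / L) * (W.card * Real.exp (-κ * L))) := by ring
      _ ≤ C * ((1 / L) * (1 / L)) + C * ((1 / L) * (W.card * Real.exp (-κ * L))) :=
          add_le_add (mul_le_mul_of_nonneg_right h5 h3) (mul_le_mul_of_nonneg_right h6 h4)
      _ = C * (1 / L) * (1 / L + W.card * Real.exp (-κ * L)) := by ring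
  · -- small blocks
    have hcard : (W.card : ℝ) ≤ B := by
      have hsub : W ⊆ Finset.Icc (-⌊Real.exp (A * L₀)⌋) ⌊Real.exp (A * L₀)⌋ := by
        intro t ht
        have h1 := hW t ht
        have h2 : |(t : ℝ)| ≤ Real.exp (A * L₀) := by
          refine h1.trans (Real.exp_le_exp.mpr ?_)
          exact mul_le_mul_of_nonneg_left hsmall.le (Nat.cast_nonneg _)
        rw [abs_le] at h2
        rw [Finset.mem_Icc]
        constructor
        · rw [neg_le]
          apply Int.le_floor.mpr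
          push_cast
          linarith
        · exact Int.le_floor.mpr h2.2
      have h1 := Finset.card_le_card hsub
      rw [Int.card_Icc] at h1
      have h2 : (0 : ℤ) ≤ ⌊Real.exp (A * L₀)⌋ := Int.floor_nonneg.mpr (Real.exp_pos _).le
      have h3 : ((W.card : ℕ) : ℤ) ≤ 2 * ⌊Real.exp (A * L₀)⌋ + 1 := by
        have : (((⌊Real.exp (A * L₀)⌋ + 1 - -⌊Real.exp (A * L₀)⌋).toNat : ℕ) : ℤ) =
            ⌊Real.exp (A * L₀)⌋ + 1 - -⌊Real.exp (A * L₀)⌋ := Int.toNat_of_nonneg (by linarith)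
        have h5 : ((W.card : ℕ) : ℤ) ≤
            (((⌊Real.exp (A * L₀)⌋ + 1 - -⌊Real.exp (A * L₀)⌋).toNat : ℕ) : ℤ) := by
          exact_mod_cast h1
        rw [this] at h5
        linarith
      have h4 : ((W.card : ℕ) : ℝ) ≤ 2 * (⌊Real.exp (A * L₀)⌋ : ℝ) + 1 := by exact_mod_cast h3
      have h5 := Int.floor_le (Real.exp (A * L₀))
      rw [hB]
      linarith
    have hQ : ∀ t ∈ W, ‖Q f V v t‖ ^ 2 ≤ (CP * (1 / L)) ^ 2 := by
      intro t _
      refine pow_le_pow_left₀ (norm_nonneg _) ?_ 2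
      refine le_trans ?_ hP
      unfold Q
      refine (norm_sum_le _ _).trans (Finset.sum_le_sum fun p _ => ?_)
      rw [norm_div, norm_mul, norm_tw, mul_one, Complex.norm_natCast]
      exact div_le_div_of_nonneg_right (hf p) (Nat.cast_nonneg _)
    have h1 : 0 ≤ (1 / L) * (W.card * Real.exp (-κ * L)) := by positivity
    have h2 : 0 ≤ (1 / L) * (1 / L) := by positivity
    calc ∑ t ∈ W, ‖Q f V v t‖ ^ 2 ≤ ∑ t ∈ W, (CP * (1 / L)) ^ 2 := Finset.sum_le_sum hQ
      _ = W.card * (CP * (1 / L)) ^ 2 := by rw [Finset.sum_const, nsmul_eq_mul]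
      _ ≤ B * (CP * (1 / L)) ^ 2 := mul_le_mul_of_nonneg_right hcard (by positivity)
      _ = (B * CP ^ 2) * ((1 / L) * (1 / L)) := by ring
      _ ≤ C * ((1 / L) * (1 / L)) := by
          refine mul_le_mul_of_nonneg_right ?_ h2
          rw [hC]
          have : 0 ≤ CP * (64 * Cs / κ * S + (2 * Ck + 2 * Cq)) := by positivity
          linarith
      _ ≤ C * ((1 / L) * (1 / L)) + C * ((1 / L) * (W.card * Real.exp (-κ * L))) := by
          have := mul_nonneg hC0.le h1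
          linarith
      _ = C * (1 / L) * (1 / L + W.card * Real.exp (-κ * L)) := by ring

end Pool.MRZ
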