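import Mathlib
import Pool.Agent.MRZ.HMi
import Pool.Agent.MRZ.HMp

/-!
# MRZ/UBound: the exceptional frequencies, via the primes in `[X^{δ²}, X^δ]`

There is an absolute `c₀ > 0` such that for `f` completely multiplicative with `NP f`, every `V ≥ 1`,
`0 < δ ≤ 1/4`, `ε > 0`: for `X ≥ X₀`, `T ≤ X`, `𝒲 ⊆ (-T,T)` with `#𝒲 ≤ X^{c₀}`, and `v0 ≤ v1` with
`δ² V log X ≤ v0`, `v1 ≤ δ V log X`, `LL V v0 v1 ≥ 1`: `∑_{t∈𝒲} |MM f X V v0 v1 t|² ≤ ε`.

Proof. `c₀ = c/4` with `c` from `hmi` (wlog `c ≤ 1`). Let `c_v = C₁ V/v ≥ |Q_v|` (`PV_le`). Cauchy–Schwarz: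
`|MM|² ≤ (∑_v c_v) ∑_v c_v^{-1} |Q_v|² |R_v|²`, `∑_v c_v ≤ C₁ V (v1/v0) ≤ C₁ V/δ`, so
`∑_t |MM|² ≤ (C₁ V/δ)² max_v ∑_t (|Q_v|/c_v)² |R_v|²`. Fix `v`, `N = e^{v/V} ∈ [X^{δ²}, X^δ]`,
`y = X/N ≥ X^{3/4}`, so `|t| ≤ X ≤ y²`. Let `η > 0` be small.
* `t` with `|Q_v| ≤ η c_v`: contribution `≤ η² ∑ |R_v|² ≤ η² C (1 + #𝒲 y^{-c}) ≤ 2Cη²` by `hmi`.
* `𝒲' = {|Q_v| > η c_v}`: by `hmp` with `A = ⌈1/δ²⌉` (`|t| ≤ X ≤ N^A`):
  `#𝒲' η² c_v² ≤ C (V/v)(V/v + #𝒲' e^{-κ v/V})`, i.e. `#𝒲' (η² C₁² - C (v/V) e^{-κ v/V}) ≤ C`; as `v/V ≥ δ² log X`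
  is large, `#𝒲' ≤ 2C/(η² C₁²)`: bounded. And `|R_v|² ≤ ε'` on it by `NP f` (`y ≥ X^{3/4} → ∞`).
-/

namespace Pool.MRZ

open Finset

/-- splitting according to the size of `q` -/
lemma split_bound (W : Finset ℤ) (q r : ℤ → ℝ) {cv η2 e2 B N : ℝ}
    (hη : 0 ≤ η2)
    (hq0 : ∀ t ∈ W, 0 ≤ q t) (hq : ∀ t ∈ W, q t ≤ cv)
    (h1 : ∑ t ∈ W, r t ^ 2 ≤ B)
    (h2 : ((W.filter (fun t => η2 * cv ^ 2 < q t ^ 2)).card : ℝ) ≤ N)
    (he : 0 ≤ e2) (h3 : ∀ t ∈ W, r t ^ 2 ≤ e2) :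
    ∑ t ∈ W, q t ^ 2 * r t ^ 2 ≤ cv ^ 2 * (B * η2 + N * e2) := by
  rw [← Finset.sum_filter_add_sum_filter_not W (fun t => η2 * cv ^ 2 < q t ^ 2)]
  have ha : ∑ t ∈ W.filter (fun t => η2 * cv ^ 2 < q t ^ 2), q t ^ 2 * r t ^ 2 ≤
      cv ^ 2 * (N * e2) := by
    calc ∑ t ∈ W.filter (fun t => η2 * cv ^ 2 < q t ^ 2), q t ^ 2 * r t ^ 2
        ≤ ∑ t ∈ W.filter (fun t => η2 * cv ^ 2 < q t ^ 2), cv ^ 2 * e2 := by
          apply Finset.sum_le_sum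
          intro t ht
          have htW := (Finset.mem_filter.1 ht).1
          exact mul_le_mul (pow_le_pow_left₀ (hq0 t htW) (hq t htW) 2) (h3 t htW)
            (sq_nonneg _) (sq_nonneg _)
      _ = ((W.filter (fun t => η2 * cv ^ 2 < q t ^ 2)).card : ℝ) * (cv ^ 2 * e2) := by
          rw [Finset.sum_const, nsmul_eq_mul]
      _ ≤ N * (cv ^ 2 * e2) := mul_le_mul_of_nonneg_right h2 (mul_nonneg (sq_nonneg _) he)
      _ = cv ^ 2 * (N * e2) := by ring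
  have hb : ∑ t ∈ W.filter (fun t => ¬ η2 * cv ^ 2 < q t ^ 2), q t ^ 2 * r t ^ 2 ≤
      cv ^ 2 * (B * η2) := by
    calc ∑ t ∈ W.filter (fun t => ¬ η2 * cv ^ 2 < q t ^ 2), q t ^ 2 * r t ^ 2
        ≤ ∑ t ∈ W.filter (fun t => ¬ η2 * cv ^ 2 < q t ^ 2), η2 * cv ^ 2 * r t ^ 2 := by
          apply Finset.sum_le_sum
          intro t ht
          exact mul_le_mul_of_nonneg_right (not_lt.1 (Finset.mem_filter.1 ht).2) (sq_nonneg _)
      _ ≤ ∑ t ∈ W, η2 * cv ^ 2 * r t ^ 2 := by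
          apply Finset.sum_le_sum_of_subset_of_nonneg (Finset.filter_subset _ _)
          intro t _ _
          exact mul_nonneg (mul_nonneg hη (sq_nonneg _)) (sq_nonneg _)
      _ = η2 * cv ^ 2 * ∑ t ∈ W, r t ^ 2 := by rw [Finset.mul_sum]
      _ ≤ η2 * cv ^ 2 * B := mul_le_mul_of_nonneg_left h1 (mul_nonneg hη (sq_nonneg _))
      _ = cv ^ 2 * (B * η2) := by ring
  linarith

/-- the summation over `v` -/
lemma sum_MM_le (f : ℕ → ℂ) (X : ℝ) (V v0 v1 : ℕ) (W : Finset ℤ) (cf : ℕ → ℝ) {B S : ℝ}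
    (hL : 1 ≤ LL V v0 v1) (hc : ∀ v ∈ Finset.Ico v0 v1, 0 < cf v)
    (hS : ∑ v ∈ Finset.Ico v0 v1, cf v ≤ S) (hB : 0 ≤ B)
    (h : ∀ v ∈ Finset.Ico v0 v1,
      ∑ t ∈ W, ‖Q f V v t‖ ^ 2 * ‖R f (X * Real.exp (-((v : ℝ) / V))) t‖ ^ 2 ≤ cf v ^ 2 * B) :
    ∑ t ∈ W, ‖MM f X V v0 v1 t‖ ^ 2 ≤ S ^ 2 * B := by
  have hS0 : 0 ≤ ∑ v ∈ Finset.Ico v0 v1, cf v := Finset.sum_nonneg fun v hv => (hc v hv).le
  have h1 : ∀ t : ℤ, ‖MM f X V v0 v1 t‖ ^ 2 ≤ (∑ v ∈ Finset.Ico v0 v1, cf v) *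
      ∑ v ∈ Finset.Ico v0 v1,
        (‖Q f V v t‖ ^ 2 * ‖R f (X * Real.exp (-((v : ℝ) / V))) t‖ ^ 2) / cf v := by
    intro t
    have h2 : ‖MM f X V v0 v1 t‖ ≤ ∑ v ∈ Finset.Ico v0 v1,
        ‖Q f V v t‖ * ‖R f (X * Real.exp (-((v : ℝ) / V))) t‖ := by
      unfold MM
      rw [norm_mul, norm_inv, Complex.norm_real, Real.norm_eq_abs,
        abs_of_nonneg (by linarith : (0 : ℝ) ≤ LL V v0 v1)]
      have h3 : ‖∑ v ∈ Finset.Ico v0 v1, Q f V v t *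
          R f (X * Real.exp (-((v : ℝ) / V))) t‖ ≤ ∑ v ∈ Finset.Ico v0 v1,
          ‖Q f V v t‖ * ‖R f (X * Real.exp (-((v : ℝ) / V))) t‖ := by
        refine (norm_sum_le _ _).trans (le_of_eq ?_)
        exact Finset.sum_congr rfl fun v _ => norm_mul _ _
      calc (LL V v0 v1)⁻¹ * ‖∑ v ∈ Finset.Ico v0 v1, Q f V v t *
          R f (X * Real.exp (-((v : ℝ) / V))) t‖
          ≤ 1 * ‖∑ v ∈ Finset.Ico v0 v1, Q f V v t *
          R f (X * Real.exp (-((v : ℝ) / V))) t‖ := by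
            apply mul_le_mul_of_nonneg_right _ (norm_nonneg _)
            exact inv_le_one_of_one_le₀ hL
        _ ≤ _ := by rw [one_mul]; exact h3
    refine (pow_le_pow_left₀ (norm_nonneg _) h2 2).trans ?_
    apply Finset.sum_sq_le_sum_mul_sum_of_sq_le_mul
    · intro v hv
      exact (hc v hv).le
    · intro v hv
      exact div_nonneg (mul_nonneg (sq_nonneg _) (sq_nonneg _)) (hc v hv).le
    · intro v hv
      have := (hc v hv).ne'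
      refine le_of_eq ?_
      field_simp
  calc ∑ t ∈ W, ‖MM f X V v0 v1 t‖ ^ 2
      ≤ ∑ t ∈ W, (∑ v ∈ Finset.Ico v0 v1, cf v) * ∑ v ∈ Finset.Ico v0 v1,
        (‖Q f V v t‖ ^ 2 * ‖R f (X * Real.exp (-((v : ℝ) / V))) t‖ ^ 2) / cf v :=
        Finset.sum_le_sum fun t _ => h1 t
    _ = (∑ v ∈ Finset.Ico v0 v1, cf v) * ∑ v ∈ Finset.Ico v0 v1,
        (∑ t ∈ W, ‖Q f V v t‖ ^ 2 * ‖R f (X * Real.exp (-((v : ℝ) / V))) t‖ ^ 2) / cf v := by
        rw [← Finset.mul_sum, Finset.sum_comm]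
        congr 1
        refine Finset.sum_congr rfl fun v _ => ?_
        rw [Finset.sum_div]
    _ ≤ (∑ v ∈ Finset.Ico v0 v1, cf v) * ∑ v ∈ Finset.Ico v0 v1, cf v * B := by
        apply mul_le_mul_of_nonneg_left _ hS0
        apply Finset.sum_le_sum
        intro v hv
        rw [div_le_iff₀ (hc v hv)]
        refine (h v hv).trans (le_of_eq ?_)
        ring
    _ = (∑ v ∈ Finset.Ico v0 v1, cf v) ^ 2 * B := by
        rw [← Finset.sum_mul]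
        ring
    _ ≤ S ^ 2 * B := mul_le_mul_of_nonneg_right (pow_le_pow_left₀ hS0 hS 2) hB

lemma norm_Q_le {f : ℕ → ℂ} (hf : ∀ n, ‖f n‖ ≤ 1) (V v : ℕ) (t : ℝ) :
    ‖Q f V v t‖ ≤ ∑ p ∈ PV V v, (1 : ℝ) / p := by
  unfold Q
  refine (norm_sum_le _ _).trans (Finset.sum_le_sum fun p _ => ?_)
  rw [norm_div, norm_mul, norm_tw, mul_one, Complex.norm_natCast]
  exact div_le_div_of_nonneg_right (hf p) (Nat.cast_nonneg _)

/-- `x e^{-κ x} ≤ 2 / (κ² x)` -/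
lemma x_exp_le {κ x : ℝ} (hκ : 0 < κ) (hx : 0 < x) :
    x * Real.exp (-κ * x) ≤ 2 / (κ ^ 2 * x) := by
  have h1 : (κ * x) ^ 2 / 2 ≤ Real.exp (κ * x) := by
    have := Real.quadratic_le_exp_of_nonneg (mul_pos hκ hx).le
    have h2 := mul_pos hκ hx
    linarith
  have h3 : -κ * x = -(κ * x) := by ring
  rw [h3, Real.exp_neg, le_div_iff₀ (by positivity)]
  have h4 : 0 < Real.exp (κ * x) := Real.exp_pos _
  rw [mul_right_comm, ← div_eq_mul_inv, div_le_iff₀ h4]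
  nlinarith

theorem u_bound : ∃ c₀ : ℝ, 0 < c₀ ∧ ∀ f : ℕ → ℂ, CM f → NP f → ∀ (V : ℕ) (δ ε : ℝ),
    1 ≤ V → 0 < δ → δ ≤ 1 / 4 → 0 < ε → ∃ X₀ : ℕ, ∀ (X T : ℕ) (W : Finset ℤ) (v0 v1 : ℕ),
    X₀ ≤ X → T ≤ X → W ⊆ Finset.Ioo (-(T : ℤ)) T → (W.card : ℝ) ≤ (X : ℝ) ^ c₀ →
    v0 ≤ v1 → δ ^ 2 * V * Real.log X ≤ v0 → (v1 : ℝ) ≤ δ * V * Real.log X → 1 ≤ LL V v0 v1 →
    ∑ t ∈ W, ‖MM f X V v0 v1 t‖ ^ 2 ≤ ε := by
  obtain ⟨c, C, hc, hC, hmi⟩ := hmi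
  obtain ⟨C₁, hC₁, hPV⟩ := PV_le
  refine ⟨c / 4, by positivity, ?_⟩
  intro f hf hNP V δ ε hV hδ hδ4 hε
  obtain ⟨κ, C', hκ, hC', hmp⟩ := hmp ⌈1 / δ ^ 2⌉₊
  have hVr : (1 : ℝ) ≤ V := by exact_mod_cast hV
  have hV0 : (0 : ℝ) < V := by linarith
  obtain ⟨K, hKdef⟩ : ∃ K : ℝ, K = (C₁ * V / δ) ^ 2 := ⟨_, rfl⟩
  have hK : 0 < K := by rw [hKdef]; positivity
  obtain ⟨η2, hηdef⟩ : ∃ η2 : ℝ, η2 = ε / (4 * C * K) := ⟨_, rfl⟩
  have hη : 0 < η2 := by rw [hηdef]; positivity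
  obtain ⟨e2, hedef⟩ : ∃ e2 : ℝ, e2 = ε * (η2 * C₁ ^ 2) / (4 * C' * K) := ⟨_, rfl⟩
  have he : 0 < e2 := by rw [hedef]; positivity
  obtain ⟨y₀, hy₀⟩ := hNP (Real.sqrt e2) (Real.sqrt_pos.2 he)
  obtain ⟨x₀, hx₀def⟩ : ∃ x₀ : ℝ, x₀ = 4 * C' / (κ ^ 2 * (η2 * C₁ ^ 2)) := ⟨_, rfl⟩
  have hx₀ : 0 < x₀ := by rw [hx₀def]; positivity
  refine ⟨max ⌈y₀ ^ 2⌉₊ (max ⌈Real.exp (x₀ / δ ^ 2)⌉₊ 3), ?_⟩
  intro X T W v0 v1 hX hT hW hcard hv01 hv0 hv1 hL
  have hX3 : (3 : ℝ) ≤ X := by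
    have : 3 ≤ X := (le_max_right _ _).trans ((le_max_right _ _).trans hX)
    exact_mod_cast this
  have hX0 : (0 : ℝ) < X := by linarith
  have hXy : y₀ ^ 2 ≤ X := by
    have h1 : ⌈y₀ ^ 2⌉₊ ≤ X := (le_max_left _ _).trans hX
    exact (Nat.le_ceil _).trans (by exact_mod_cast h1)
  have hXe : Real.exp (x₀ / δ ^ 2) ≤ X := by
    have h1 : ⌈Real.exp (x₀ / δ ^ 2)⌉₊ ≤ X :=
      (le_max_left _ _).trans ((le_max_right _ _).trans hX)
    exact (Nat.le_ceil _).trans (by exact_mod_cast h1)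
  have hlog : x₀ / δ ^ 2 ≤ Real.log X := by
    rw [Real.le_log_iff_exp_le hX0]
    exact hXe
  have hlog0 : 0 < Real.log X := lt_of_lt_of_le (by positivity) hlog
  have hsq : (0 : ℝ) < Real.sqrt X := Real.sqrt_pos.2 hX0
  -- the constants
  have hcf : ∀ v ∈ Finset.Ico v0 v1, 0 < (v : ℝ) ∧ δ ^ 2 * Real.log X ≤ (v : ℝ) / V ∧
      (v : ℝ) / V ≤ δ * Real.log X := by
    intro v hv
    rw [Finset.mem_Ico] at hv
    have h1 : (v0 : ℝ) ≤ v := by exact_mod_cast hv.1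
    have h2 : (v : ℝ) ≤ v1 := by exact_mod_cast hv.2.le
    refine ⟨?_, ?_, ?_⟩
    · have : 0 < δ ^ 2 * V * Real.log X := by positivity
      linarith
    · rw [le_div_iff₀ hV0]
      nlinarith
    · rw [div_le_iff₀ hV0]
      nlinarith
  have hS : ∑ v ∈ Finset.Ico v0 v1, C₁ * V / (v : ℝ) ≤ C₁ * V / δ := by
    have h1 : ∀ v ∈ Finset.Ico v0 v1, C₁ * V / (v : ℝ) ≤ C₁ / (δ ^ 2 * Real.log X) := by
      intro v hv
      obtain ⟨h2, h3, -⟩ := hcf v hv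
      rw [div_le_div_iff₀ h2 (by positivity)]
      rw [le_div_iff₀ hV0] at h3
      have := mul_le_mul_of_nonneg_left h3 hC₁.le
      nlinarith
    calc ∑ v ∈ Finset.Ico v0 v1, C₁ * V / (v : ℝ)
        ≤ ∑ v ∈ Finset.Ico v0 v1, C₁ / (δ ^ 2 * Real.log X) := Finset.sum_le_sum h1
      _ = ((v1 - v0 : ℕ) : ℝ) * (C₁ / (δ ^ 2 * Real.log X)) := by
          rw [Finset.sum_const, nsmul_eq_mul, Nat.card_Ico]
      _ ≤ (δ * V * Real.log X) * (C₁ / (δ ^ 2 * Real.log X)) := by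
          apply mul_le_mul_of_nonneg_right _ (by positivity)
          have : ((v1 - v0 : ℕ) : ℝ) ≤ v1 := by exact_mod_cast Nat.sub_le _ _
          linarith
      _ = C₁ * V / δ := by
          field_simp
  have hWt : ∀ t ∈ W, |(t : ℝ)| ≤ X := by
    intro t ht
    have h1 := Finset.mem_Ioo.1 (hW ht)
    have h2 : (T : ℝ) ≤ X := by exact_mod_cast hT
    rw [abs_le]
    constructor
    · have : (-(T : ℤ) : ℤ) ≤ t := h1.1.le
      have h3 : (-(T : ℝ)) ≤ t := by exact_mod_cast this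
      linarith
    · have : t ≤ (T : ℤ) := h1.2.le
      have h3 : (t : ℝ) ≤ T := by exact_mod_cast this
      linarith
  -- the bound for one `v`
  have hone : ∀ v ∈ Finset.Ico v0 v1,
      ∑ t ∈ W, ‖Q f V v t‖ ^ 2 * ‖R f (X * Real.exp (-((v : ℝ) / V))) t‖ ^ 2 ≤
        (C₁ * V / v) ^ 2 * (2 * C * η2 + 2 * C' / (η2 * C₁ ^ 2) * e2) := by
    intro v hv
    obtain ⟨hv_pos, hvlo, hvhi⟩ := hcf v hv
    have hv1' : 1 ≤ v := by
      have : 0 < v := by exact_mod_cast hv_pos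
      omega
    obtain ⟨y, hy⟩ : ∃ y : ℝ, y = X * Real.exp (-((v : ℝ) / V)) := ⟨_, rfl⟩
    rw [← hy]
    have hysq : Real.sqrt X ≤ y := by
      have h1 : Real.sqrt X = X * Real.exp (-(1 / 2 * Real.log X)) := by
        rw [Real.sqrt_eq_rpow, Real.rpow_def_of_pos hX0]
        nth_rewrite 2 [← Real.exp_log hX0]
        rw [← Real.exp_add]
        congr 1
        ring
      rw [h1, hy]
      apply mul_le_mul_of_nonneg_left _ hX0.le
      apply Real.exp_le_exp.2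
      have : δ * Real.log X ≤ 1 / 4 * Real.log X := mul_le_mul_of_nonneg_right hδ4 hlog0.le
      linarith
    have hy1 : 1 ≤ y := by
      have h1 : (1 : ℝ) ≤ Real.sqrt X := by
        rw [Real.one_le_sqrt]
        linarith
      linarith
    have hyy : (X : ℝ) ≤ y ^ 2 := by
      have h1 := Real.sq_sqrt hX0.le
      nlinarith
    have hy0' : y₀ ≤ y := by
      have h1 : y₀ ≤ Real.sqrt X := Real.le_sqrt_of_sq_le hXy
      linarith
    have hty : ∀ t ∈ W, |(t : ℝ)| ≤ y ^ 2 := fun t ht => (hWt t ht).trans hyy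
    apply split_bound W (fun t => ‖Q f V v t‖) (fun t => ‖R f y t‖) hη.le
      (fun t _ => norm_nonneg _)
    · intro t _
      exact (norm_Q_le hf.bdd V v t).trans (hPV V v hV hv1')
    · refine (hmi f y W hf.bdd hy1 hty).trans ?_
      have h1 : (W.card : ℝ) * y ^ (-c) ≤ 1 := by
        calc (W.card : ℝ) * y ^ (-c) ≤ (X : ℝ) ^ (c / 4) * (X : ℝ) ^ (-(c / 2)) := by
              apply mul_le_mul hcard _ (by positivity) (by positivity)
              have h2 : (X : ℝ) ^ (-(c / 2)) = (Real.sqrt X) ^ (-c) := by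
                rw [Real.sqrt_eq_rpow, ← Real.rpow_mul hX0.le]
                congr 1
                ring
              rw [h2]
              exact Real.rpow_le_rpow_of_nonpos hsq hysq (by linarith)
          _ = (X : ℝ) ^ (-(c / 4)) := by
              rw [← Real.rpow_add hX0]
              congr 1
              ring
          _ ≤ 1 := Real.rpow_le_one_of_one_le_of_nonpos (by linarith) (by linarith)
      nlinarith
    · obtain ⟨W', hW'⟩ : ∃ W' : Finset ℤ, W' = W.filter (fun t : ℤ => η2 * (C₁ * V / v) ^ 2 <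
        ‖Q f V v t‖ ^ 2) := ⟨_, rfl⟩
      rw [← hW']
      have hsub : W' ⊆ W := by rw [hW']; exact Finset.filter_subset _ _
      have hA : ∀ t ∈ W', |(t : ℝ)| ≤ Real.exp ((⌈1 / δ ^ 2⌉₊ : ℕ) * ((v : ℝ) / V)) := by
        intro t ht
        refine (hWt t (hsub ht)).trans ?_
        rw [← Real.log_le_iff_le_exp hX0]
        have h1 : 1 / δ ^ 2 ≤ (⌈1 / δ ^ 2⌉₊ : ℕ) := Nat.le_ceil _
        calc Real.log X = 1 / δ ^ 2 * (δ ^ 2 * Real.log X) := by field_simp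
          _ ≤ (⌈1 / δ ^ 2⌉₊ : ℕ) * ((v : ℝ) / V) :=
            mul_le_mul h1 hvlo (by positivity) (by positivity)
      have h1 := hmp f V v W' hf.bdd hV hv1' hA
      have h2 : (W'.card : ℝ) * (η2 * (C₁ * V / v) ^ 2) ≤ ∑ t ∈ W', ‖Q f V v t‖ ^ 2 := by
        rw [← nsmul_eq_mul]
        apply Finset.card_nsmul_le_sum
        intro t ht
        rw [hW'] at ht
        exact (Finset.mem_filter.1 ht).2.le
      have h3 := h2.trans h1
      obtain ⟨x, hx⟩ : ∃ x : ℝ, x = (v : ℝ) / V := ⟨_, rfl⟩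
      have hxpos : 0 < x := by rw [hx]; positivity
      have hVv : (V : ℝ) / v = 1 / x := by rw [hx]; field_simp
      have hxx : x₀ ≤ x := by
        rw [hx]
        refine le_trans ?_ hvlo
        rw [div_le_iff₀ (by positivity)] at hlog
        linarith
      have h4 : C' * (x * Real.exp (-κ * x)) ≤ η2 * C₁ ^ 2 / 2 := by
        have h5 := x_exp_le hκ hxpos
        have h6 : 2 / (κ ^ 2 * x) ≤ 2 / (κ ^ 2 * x₀) := by
          apply div_le_div_of_nonneg_left (by norm_num) (by positivity)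
          exact mul_le_mul_of_nonneg_left hxx (by positivity)
        calc C' * (x * Real.exp (-κ * x)) ≤ C' * (2 / (κ ^ 2 * x₀)) :=
              mul_le_mul_of_nonneg_left (h5.trans h6) hC'.le
          _ = η2 * C₁ ^ 2 / 2 := by
              rw [hx₀def]
              field_simp
              ring
      have h7 : (W'.card : ℝ) * (η2 * (C₁ * V / v) ^ 2) =
          (W'.card : ℝ) * (η2 * C₁ ^ 2) * (1 / x) ^ 2 := by
        rw [mul_div_assoc, hVv]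
        ring
      rw [h7, hVv, ← hx] at h3
      have h8 : (W'.card : ℝ) * (η2 * C₁ ^ 2) ≤
          C' + (W'.card : ℝ) * (C' * (x * Real.exp (-κ * x))) := by
        have h9 := mul_le_mul_of_nonneg_right h3 (sq_nonneg x)
        have h10 : (W'.card : ℝ) * (η2 * C₁ ^ 2) * (1 / x) ^ 2 * x ^ 2 =
            (W'.card : ℝ) * (η2 * C₁ ^ 2) := by field_simp
        have h11 : C' * (1 / x) * (1 / x + (W'.card : ℝ) * Real.exp (-κ * x)) * x ^ 2 =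
            C' + (W'.card : ℝ) * (C' * (x * Real.exp (-κ * x))) := by field_simp
        rw [h10, h11] at h9
        exact h9
      rw [le_div_iff₀ (by positivity)]
      have h12 := mul_le_mul_of_nonneg_left h4 (Nat.cast_nonneg (α := ℝ) W'.card)
      linarith
    · exact he.le
    · intro t ht
      have h1 := hy₀ y hy0' t (hty t ht)
      calc ‖R f y t‖ ^ 2 ≤ (Real.sqrt e2) ^ 2 := pow_le_pow_left₀ (norm_nonneg _) h1 2
        _ = e2 := Real.sq_sqrt he.le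
  have hfin := sum_MM_le f X V v0 v1 W (fun v => C₁ * V / (v : ℝ)) hL
    (fun v hv => by have := (hcf v hv).1; positivity) hS (by positivity) hone
  refine hfin.trans (le_of_eq ?_)
  rw [← hKdef, mul_add]
  have h1 : K * (2 * C * η2) = ε / 2 := by
    rw [hηdef]
    field_simp
    ring
  have h2 : K * (2 * C' / (η2 * C₁ ^ 2) * e2) = ε / 2 := by
    rw [hedef]
    field_simp
    ring
  rw [h1, h2]
  ring

end Pool.MRZ
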