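import Mathlib
import Pool.Agent.MRZ.ScalePar
import Pool.Agent.MRZ.ErrE
import Pool.Agent.MRZ.T0
import Pool.Agent.MRZ.Tj
import Pool.Agent.MRZ.CountU
import Pool.Agent.MRZ.PVb
import Pool.Agent.MRZ.UBound

/-!
# MRZ/Freq: the mean square over the integer frequencies is small

`CM f`, `NP f`: for every `ε > 0` there are `H₁ ≥ 1`, `X₀` with `∑_{|t| < X/H₁} |R f X t|² ≤ ε` for `X ≥ X₀`.

Proof. Constants: `c₀` of `u_bound` (replace it by `min(c₀,1)`), `a = c₀/8 ≤ 1/8`; `C` of `errE, T0, Tj, countU`,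
`C₁` of `PV_le`, `c, C'` of `LL_ge`. Choose in this order: `V0 ≥ 1` (large in terms of `ε`, and `V0 ≥ C₁`), then
`s` (large), `H₁ = ⌈e^{s²}⌉`, then `δ, V_*` (depending on `ε`), then `X₀`. Let `T = X/H₁` (natural division),
`1 ≤ T ≤ X` for large `X` and `T e^{qj s 0}/X ≤ 1`.

Scale `j`: `V = Vj V0 j`, `v0 = V pj`, `v1 = V qj` (so `v0/V = pj`, `v1/V = qj`), `α_j = al a j ≤ a ≤ 1/2`.
`LL V v0 v1 ≥ c log (qj/pj) - C' ≥ 2^{j+1}/ε₁ ≥ 1` (`LL_ge`, `par_LL`). For `r ∈ [v0,v1)`: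
`∑_{p∈PV V r} 1/p ≤ C₁ V/r ≤ C₁/pj ≤ C₁/s ≤ 1`.
`J` from `par_top` (with the constant `C`): scales `0..J`.
`small_j(t)`: `|Q f V_j v t| ≤ e^{-α_j v/V_j}` for all `v ∈ [v0_j, v1_j)`.
* `𝒯_0 = {t : small_0(t)}`; `𝒯_{j+1} = {t : small_{j+1}(t), ¬ small_j(t)}` restricted to those `t` whose first small
  scale is `j+1`; `𝒰` = the `t` with no small scale `≤ J` (in particular `¬ small_J(t)`). This is a partition of
  `(-T,T)`; `|R|² ≤ 2|MM_j|² + 2|R - MM_j|²` on `𝒯_j`.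
* errors: `∑_j 2 C (1/LL_j + 1/V_j) ≤ ∑_j 2C (ε₁ 2^{-(j+1)} + 2^{-j}/V0) ≤ 2C (ε₁ + 2/V0)` (`errE`, condition
  `V_j e^{2 q_j} ≤ X` from `par_top`).
* `𝒯_0`: `T0` with `α = α_0 = a/2`: `≤ C (V0 s²)² e^{-a s} · 2` (`par_zero`).
* `𝒯_{j+1}`: `Tj` with `E = a 2^{-(j+2)} pj s (j+1)` (`par_step`, `b = v/V_{j+1} ∈ [p_{j+1}, q_{j+1}]`):
  `≤ C (V_j q_j)(V_{j+1} q_{j+1})² e^{-E} ≤ C (V_{j+1}q_{j+1})³ e^{-E} ≤ ε₁ 2^{-(j+1)}` (`par_sum`).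
* `𝒰`: `countU` at scale `J`, `α = al a J ≤ a` (so `≤ 2a(…)` by monotonicity in `α`), `log T ≤ log X` (monotone):
  `#𝒰 ≤ X^{3a} ≤ X^{c₀}` (`par_top`; `V_J ≤ v0_J` as `pj ≥ 1`, `T ≥ 2`). Last scale: `V = V_*`,
  `a_* = ⌈δ² log X⌉`, `b_* = ⌊δ log X⌋`, `v0 = V_* a_*`, `v1 = V_* b_*`: `LL ≥ c log(b_*/a_*) - C' ≥
  c log (1/(2δ)) - C'` for large `X`, which is `≥ 1/ε₁` for small `δ`; `V_* e^{2 b_*} ≤ V_* X^{2δ} ≤ X`.
  `∑_{𝒰} |R|² ≤ 2 ∑_𝒰 |MM_*|² + 2C(1/LL_* + 1/V_*)` and `u_bound` gives `∑_𝒰 |MM_*|² ≤ ε₁`.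
-/

namespace Pool.MRZ

open Finset

theorem freq_R2 (f : ℕ → ℂ) (X T V v0 v1 : ℕ) (W : Finset ℤ)
    (hW : W ⊆ Finset.Ioo (-(T : ℤ)) T) {B E : ℝ}
    (hB : ∑ t ∈ W, ‖MM f X V v0 v1 t‖ ^ 2 ≤ B)
    (hE : ∑ t ∈ Finset.Ioo (-(T : ℤ)) T, ‖R f X t - MM f X V v0 v1 t‖ ^ 2 ≤ E) :
    ∑ t ∈ W, ‖R f X t‖ ^ 2 ≤ 2 * B + 2 * E := by
  have h1 : ∑ t ∈ W, ‖R f X t - MM f X V v0 v1 t‖ ^ 2 ≤ E := by
    refine le_trans ?_ hE
    apply Finset.sum_le_sum_of_subset_of_nonneg hW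
    intro t _ _
    positivity
  have h2 : ∀ t ∈ W, ‖R f X t‖ ^ 2 ≤
      2 * ‖MM f X V v0 v1 t‖ ^ 2 + 2 * ‖R f X t - MM f X V v0 v1 t‖ ^ 2 := by
    intro t _
    have h3 : ‖R f X t‖ ≤ ‖MM f X V v0 v1 t‖ + ‖R f X t - MM f X V v0 v1 t‖ := by
      have e : R f X t = MM f X V v0 v1 t + (R f X t - MM f X V v0 v1 t) := by ring
      calc ‖R f X t‖ = ‖MM f X V v0 v1 t + (R f X t - MM f X V v0 v1 t)‖ := by rw [← e]
        _ ≤ _ := norm_add_le _ _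
    have h4 := norm_nonneg (R f X t)
    have h5 := norm_nonneg (MM f X V v0 v1 t)
    have h6 := norm_nonneg (R f X t - MM f X V v0 v1 t)
    nlinarith [sq_nonneg (‖MM f X V v0 v1 t‖ - ‖R f X t - MM f X V v0 v1 t‖)]
  calc ∑ t ∈ W, ‖R f X t‖ ^ 2 ≤ ∑ t ∈ W, (2 * ‖MM f X V v0 v1 t‖ ^ 2 +
        2 * ‖R f X t - MM f X V v0 v1 t‖ ^ 2) := Finset.sum_le_sum h2
    _ = 2 * ∑ t ∈ W, ‖MM f X V v0 v1 t‖ ^ 2 +
        2 * ∑ t ∈ W, ‖R f X t - MM f X V v0 v1 t‖ ^ 2 := by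
        rw [Finset.sum_add_distrib, Finset.mul_sum, Finset.mul_sum]
    _ ≤ _ := by linarith

theorem freq_cover (A : ℕ → Finset ℤ) (F : ℤ → ℝ) (hF : ∀ t, 0 ≤ F t) (J : ℕ) :
    ∑ t ∈ A J, F t ≤ ∑ t ∈ A 0, F t +
      ∑ j ∈ Finset.range J, ∑ t ∈ A (j + 1) \ A j, F t := by
  induction J with
  | zero => simp
  | succ J ih =>
    rw [Finset.sum_range_succ, ← Finset.sum_inter_add_sum_sdiff (A (J + 1)) (A J) F]
    have h1 : ∑ t ∈ A (J + 1) ∩ A J, F t ≤ ∑ t ∈ A J, F t := by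
      apply Finset.sum_le_sum_of_subset_of_nonneg Finset.inter_subset_right
      intro t _ _
      exact hF t
    linarith

theorem freq_al {a : ℝ} (ha : 0 < a) (j : ℕ) :
    0 ≤ al a j ∧ al a j ≤ al a (j + 1) ∧ al a j ≤ a := by
  unfold al
  have h1 : (0 : ℝ) ≤ (1 / 2) ^ (j + 1) := by positivity
  have h2 : ((1 : ℝ) / 2) ^ (j + 1) ≤ 1 := pow_le_one₀ (by norm_num) (by norm_num)
  have h3 : ((1 : ℝ) / 2) ^ (j + 1 + 1) ≤ (1 / 2) ^ (j + 1) :=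
    pow_le_pow_of_le_one (by norm_num) (by norm_num) (Nat.le_succ _)
  refine ⟨mul_nonneg ha.le (by linarith), mul_le_mul_of_nonneg_left (by linarith) ha.le, ?_⟩
  calc a * (1 - (1 / 2) ^ (j + 1)) ≤ a * 1 := mul_le_mul_of_nonneg_left (by linarith) ha.le
    _ = a := mul_one a

theorem freq_pj {s : ℕ} (hs : 1 ≤ s) (j : ℕ) : 1 ≤ pj s j ∧ s ≤ pj s j ∧ pj s j ≤ qj s j ∧
    qj s j ≤ qj s (j + 1) := by
  have h0 : s ≤ pj s j := Nat.le_self_pow (by positivity) s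
  have h1 : pj s j ≤ pj s (j + 1) :=
    Nat.pow_le_pow_right hs (Nat.pow_le_pow_right (by norm_num) (Nat.le_succ j))
  refine ⟨hs.trans h0, h0, ?_, ?_⟩
  · unfold qj
    exact Nat.le_self_pow (by norm_num) _
  · unfold qj
    exact Nat.pow_le_pow_left h1 2

theorem freq_Vj {V0 : ℕ} (h : 1 ≤ V0) (j : ℕ) : 1 ≤ Vj V0 j ∧ Vj V0 j ≤ Vj V0 (j + 1) := by
  unfold Vj
  constructor
  · have : 0 < 2 ^ j * V0 := by positivity
    omega
  · exact Nat.mul_le_mul_right V0 (Nat.pow_le_pow_right (by norm_num) (Nat.le_succ j))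

/-- the exponent of `countU` is monotone -/
theorem freq_mono {α a T X p q : ℝ} (hα : α ≤ a) (hT : 0 ≤ T) (hTX : T ≤ X)
    (hp : 0 < p) (hq : 0 ≤ q) (ha : 0 ≤ a) :
    2 * α * (T + q) + (T / p + 1) * (4 + Real.log (T / p + 2)) ≤
      2 * a * (X + q) + (X / p + 1) * (4 + Real.log (X / p + 2)) := by
  have h1 : T / p ≤ X / p := div_le_div_of_nonneg_right hTX hp.le
  have h2 : 0 ≤ T / p := div_nonneg hT hp.le
  have h3 : Real.log (T / p + 2) ≤ Real.log (X / p + 2) :=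
    Real.log_le_log (by linarith) (by linarith)
  have h4 : 0 ≤ Real.log (T / p + 2) := Real.log_nonneg (by linarith)
  have h5 : (T / p + 1) * (4 + Real.log (T / p + 2)) ≤
      (X / p + 1) * (4 + Real.log (X / p + 2)) :=
    mul_le_mul (by linarith) (by linarith) (by linarith) (by linarith)
  have h6 : 2 * α * (T + q) ≤ 2 * a * (X + q) := by
    have h7 : 2 * α * (T + q) ≤ 2 * a * (T + q) :=
      mul_le_mul_of_nonneg_right (by linarith) (by linarith)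
    have h8 : 2 * a * (T + q) ≤ 2 * a * (X + q) :=
      mul_le_mul_of_nonneg_left (by linarith) (by linarith)
    linarith
  linarith

/-- the geometric sums over the scales -/
theorem freq_geom (J : ℕ) : ∑ j ∈ Finset.range J, ((1 : ℝ) / 2) ^ (j + 1) ≤ 1 := by
  have h : ∀ J : ℕ, ∑ j ∈ Finset.range J, ((1 : ℝ) / 2) ^ (j + 1) = 1 - (1 / 2) ^ J := by
    intro J
    induction J with
    | zero => simp
    | succ J ih =>
      rw [Finset.sum_range_succ, ih]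
      ring
  rw [h]
  have : (0 : ℝ) ≤ (1 / 2) ^ J := by positivity
  linarith

/-- the last scale -/
theorem freq_last (c C' ε₁ : ℝ) (hc : 0 < c) (hC' : 0 < C') (hε₁ : 0 < ε₁)
    (hLL : ∀ V a b : ℕ, 1 ≤ V → 1 ≤ a → a ≤ b →
      c * Real.log ((b : ℝ) / a) - C' ≤ LL V (V * a) (V * b)) :
    ∃ δ : ℝ, 0 < δ ∧ δ ≤ 1 / 4 ∧ ∀ V : ℕ, 1 ≤ V → ∃ X₀ : ℕ, ∀ X : ℕ, X₀ ≤ X → ∃ v0 v1 : ℕ,
      v0 ≤ v1 ∧ δ ^ 2 * V * Real.log X ≤ v0 ∧ (v1 : ℝ) ≤ δ * V * Real.log X ∧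
      1 / ε₁ ≤ LL V v0 v1 ∧ (V : ℝ) * Real.exp (2 * ((v1 : ℝ) / V)) ≤ X := by
  set δ : ℝ := 1 / 4 * Real.exp (-((1 / ε₁ + C') / c)) with hδ
  have hδ0 : 0 < δ := by positivity
  have hδ4 : δ ≤ 1 / 4 := by
    rw [hδ]
    have h1 : Real.exp (-((1 / ε₁ + C') / c)) ≤ 1 := by
      rw [Real.exp_le_one_iff, neg_nonpos]
      positivity
    linarith
  refine ⟨δ, hδ0, hδ4, fun V hV => ?_⟩
  have hVr : (1 : ℝ) ≤ V := by exact_mod_cast hV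
  refine ⟨max (V ^ 2) (max 1 ⌈Real.exp (1 / δ ^ 2 + 2 / δ)⌉₊), fun X hX => ?_⟩
  have hXV : V ^ 2 ≤ X := (le_max_left _ _).trans hX
  have hX1 : 1 ≤ X := (le_max_left _ _).trans ((le_max_right _ _).trans hX)
  have hXe : Real.exp (1 / δ ^ 2 + 2 / δ) ≤ X := by
    have h1 : ⌈Real.exp (1 / δ ^ 2 + 2 / δ)⌉₊ ≤ X :=
      (le_max_right _ _).trans ((le_max_right _ _).trans hX)
    exact (Nat.le_ceil _).trans (by exact_mod_cast h1)
  have hX0 : (0 : ℝ) < X := by exact_mod_cast hX1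
  have hXVr : (V : ℝ) ^ 2 ≤ X := by exact_mod_cast hXV
  set L := Real.log X with hL
  have hlog : 1 / δ ^ 2 + 2 / δ ≤ L := by
    rw [hL, Real.le_log_iff_exp_le hX0]
    exact hXe
  have hL0 : 0 < L := lt_of_lt_of_le (by positivity) hlog
  have h1 : 1 ≤ δ ^ 2 * L := by
    have h2 : 1 / δ ^ 2 ≤ L := by
      have : 0 < 2 / δ := by positivity
      linarith
    calc 1 = δ ^ 2 * (1 / δ ^ 2) := by field_simp
      _ ≤ δ ^ 2 * L := mul_le_mul_of_nonneg_left h2 (by positivity)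
  have h2 : 2 ≤ δ * L := by
    have h3 : 2 / δ ≤ L := by
      have : 0 < 1 / δ ^ 2 := by positivity
      linarith
    calc 2 = δ * (2 / δ) := by field_simp
      _ ≤ δ * L := mul_le_mul_of_nonneg_left h3 hδ0.le
  set aa : ℕ := ⌈δ ^ 2 * L⌉₊ with haa
  set bb : ℕ := ⌊δ * L⌋₊ with hbb
  have ha1 : δ ^ 2 * L ≤ aa := Nat.le_ceil _
  have ha2 : (aa : ℝ) ≤ 2 * (δ ^ 2 * L) := by
    have := Nat.ceil_lt_add_one (a := δ ^ 2 * L) (by positivity)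
    linarith
  have hb1 : (bb : ℝ) ≤ δ * L := Nat.floor_le (by positivity)
  have hb2 : δ * L / 2 ≤ bb := by
    have := Nat.lt_floor_add_one (δ * L)
    linarith
  have haa1 : 1 ≤ aa := by
    have : (1 : ℝ) ≤ aa := by linarith
    exact_mod_cast this
  have haar : (0 : ℝ) < aa := by exact_mod_cast haa1
  have hratio : 1 / (4 * δ) ≤ (bb : ℝ) / aa := by
    rw [div_le_div_iff₀ (by positivity) haar]
    calc 1 * (aa : ℝ) ≤ 2 * (δ ^ 2 * L) := by linarith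
      _ = (δ * L / 2) * (4 * δ) := by ring
      _ ≤ bb * (4 * δ) := mul_le_mul_of_nonneg_right hb2 (by positivity)
  have hab : aa ≤ bb := by
    have h3 : (1 : ℝ) ≤ 1 / (4 * δ) := by
      rw [le_div_iff₀ (by positivity)]
      linarith
    have h4 : (1 : ℝ) ≤ (bb : ℝ) / aa := h3.trans hratio
    rw [le_div_iff₀ haar] at h4
    have h5 : (aa : ℝ) ≤ bb := by linarith
    exact_mod_cast h5
  refine ⟨V * aa, V * bb, Nat.mul_le_mul_left V hab, ?_, ?_, ?_, ?_⟩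
  · push_cast
    calc δ ^ 2 * (V : ℝ) * L = (V : ℝ) * (δ ^ 2 * L) := by ring
      _ ≤ (V : ℝ) * aa := mul_le_mul_of_nonneg_left ha1 (by positivity)
  · push_cast
    calc (V : ℝ) * bb ≤ V * (δ * L) := mul_le_mul_of_nonneg_left hb1 (by positivity)
      _ = δ * V * L := by ring
  · refine le_trans ?_ (hLL V aa bb hV haa1 hab)
    have h3 : (1 / ε₁ + C') / c ≤ Real.log ((bb : ℝ) / aa) := by
      have h4 : Real.log (1 / (4 * δ)) ≤ Real.log ((bb : ℝ) / aa) :=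
        Real.log_le_log (by positivity) hratio
      have h5 : Real.log (1 / (4 * δ)) = (1 / ε₁ + C') / c := by
        have h6 : 1 / (4 * δ) = Real.exp ((1 / ε₁ + C') / c) := by
          rw [hδ, Real.exp_neg]
          field_simp
        rw [h6, Real.log_exp]
      linarith
    have h7 : c * ((1 / ε₁ + C') / c) ≤ c * Real.log ((bb : ℝ) / aa) :=
      mul_le_mul_of_nonneg_left h3 hc.le
    have h8 : c * ((1 / ε₁ + C') / c) = 1 / ε₁ + C' := by field_simp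
    linarith
  · have h3 : ((V * bb : ℕ) : ℝ) / V = bb := by
      push_cast
      field_simp
    rw [h3]
    have h4 : 2 * (bb : ℝ) ≤ 1 / 2 * L := by
      have h5 : δ * L ≤ 1 / 4 * L := mul_le_mul_of_nonneg_right hδ4 hL0.le
      linarith
    have h5 : Real.exp (2 * (bb : ℝ)) ≤ Real.sqrt X := by
      have h6 : Real.sqrt X = Real.exp (1 / 2 * L) := by
        rw [Real.sqrt_eq_rpow, Real.rpow_def_of_pos hX0, hL]
        congr 1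
        ring
      rw [h6]
      exact Real.exp_le_exp.2 h4
    have h7 : (V : ℝ) ≤ Real.sqrt X := Real.le_sqrt_of_sq_le hXVr
    calc (V : ℝ) * Real.exp (2 * (bb : ℝ)) ≤ Real.sqrt X * Real.sqrt X :=
          mul_le_mul h7 h5 (Real.exp_pos _).le (Real.sqrt_nonneg _)
      _ = X := Real.mul_self_sqrt hX0.le

theorem freq (f : ℕ → ℂ) (hf : CM f) (hnp : NP f) (ε : ℝ) (hε : 0 < ε) :
    ∃ H₁ X₀ : ℕ, 1 ≤ H₁ ∧ ∀ X : ℕ, X₀ ≤ X →
      ∑ t ∈ Finset.Ioo (-((X / H₁ : ℕ) : ℤ)) ((X / H₁ : ℕ) : ℤ), ‖R f X t‖ ^ 2 ≤ ε := by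
  classical
  obtain ⟨c₀, hc₀, hu⟩ := u_bound
  obtain ⟨CE, hCE, hE⟩ := errE
  obtain ⟨CT, hCT, hT0⟩ := T0
  obtain ⟨CJ, hCJ, hTj⟩ := Tj
  obtain ⟨CU, hCU, hcU⟩ := countU
  obtain ⟨C₁, hC₁, hPV⟩ := PV_le
  obtain ⟨c, C', hc, hC', hLL⟩ := LL_ge
  -- the constants
  obtain ⟨a, ha, hac, ha8⟩ : ∃ a : ℝ, 0 < a ∧ 3 * a ≤ c₀ ∧ a ≤ 1 / 8 :=
    ⟨min (c₀ / 8) (1 / 8), lt_min (by positivity) (by norm_num), by
      have := min_le_left (c₀ / 8) ((1 : ℝ) / 8)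
      linarith, min_le_right _ _⟩
  obtain ⟨ε₁, hε₁, hε₁1, hε₁ε⟩ : ∃ ε₁ : ℝ, 0 < ε₁ ∧ ε₁ ≤ 1 ∧ (6 + 10 * CE) * ε₁ ≤ ε := by
    refine ⟨min 1 (ε / (6 + 10 * CE)), lt_min one_pos (by positivity), min_le_left _ _, ?_⟩
    have h1 := min_le_right 1 (ε / (6 + 10 * CE))
    calc (6 + 10 * CE) * min 1 (ε / (6 + 10 * CE)) ≤ (6 + 10 * CE) * (ε / (6 + 10 * CE)) :=
          mul_le_mul_of_nonneg_left h1 (by positivity)
      _ = ε := by field_simp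
  obtain ⟨V0, hV0, hV0ε⟩ : ∃ V0 : ℕ, 1 ≤ V0 ∧ 1 / (V0 : ℝ) ≤ ε₁ := by
    refine ⟨⌈1 / ε₁⌉₊, Nat.one_le_ceil_iff.2 (by positivity), ?_⟩
    have h1 : 1 / ε₁ ≤ (⌈1 / ε₁⌉₊ : ℝ) := Nat.le_ceil _
    calc 1 / (⌈1 / ε₁⌉₊ : ℝ) ≤ 1 / (1 / ε₁) := one_div_le_one_div_of_le (by positivity) h1
      _ = ε₁ := one_div_one_div ε₁
  have hV0r : (1 : ℝ) ≤ V0 := by exact_mod_cast hV0
  obtain ⟨s1, hs1⟩ := par_zero (2 * CT) a ε₁ V0 (by positivity) ha hε₁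
  obtain ⟨s2, hs2⟩ := par_step a ha
  obtain ⟨s3, hs3⟩ := par_sum CJ a ε₁ V0 hCJ ha hε₁
  obtain ⟨s4, hs4, hs4'⟩ := par_LL c C' ε₁ hc hε₁
  obtain ⟨s, hss1, hss2, hss3, hss4, hsC, hs2le⟩ : ∃ s : ℕ, s1 ≤ s ∧ s2 ≤ s ∧ s3 ≤ s ∧ s4 ≤ s ∧
      C₁ ≤ s ∧ 2 ≤ s := by
    refine ⟨s1 + s2 + s3 + s4 + ⌈C₁⌉₊, by omega, by omega, by omega, by omega, ?_, by omega⟩
    have h1 : C₁ ≤ (⌈C₁⌉₊ : ℝ) := Nat.le_ceil _
    push_cast
    have h2 : (0 : ℝ) ≤ s1 := Nat.cast_nonneg _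
    have h3 : (0 : ℝ) ≤ s2 := Nat.cast_nonneg _
    have h4 : (0 : ℝ) ≤ s3 := Nat.cast_nonneg _
    have h5 : (0 : ℝ) ≤ s4 := Nat.cast_nonneg _
    linarith
  have hs1' : 1 ≤ s := by omega
  have hsr : (2 : ℝ) ≤ s := by exact_mod_cast hs2le
  obtain ⟨H₁, hH₁, hH₁e⟩ : ∃ H₁ : ℕ, 1 ≤ H₁ ∧ Real.exp ((s : ℝ) ^ 2) ≤ H₁ :=
    ⟨⌈Real.exp ((s : ℝ) ^ 2)⌉₊, Nat.one_le_ceil_iff.2 (Real.exp_pos _), Nat.le_ceil _⟩
  have hH₁r : (1 : ℝ) ≤ H₁ := by exact_mod_cast hH₁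
  obtain ⟨δ, hδ0, hδ4, hlast⟩ := freq_last c C' ε₁ hc hC' hε₁ hLL
  obtain ⟨X1, hX1⟩ := hlast V0 hV0
  obtain ⟨X2, hX2⟩ := hu f hf hnp V0 δ ε₁ hV0 hδ0 hδ4 hε₁
  obtain ⟨X3, hX3⟩ := par_top CU a V0 s hCU ha hs2le hV0
  refine ⟨H₁, X1 + X2 + X3 + 2 * H₁, hH₁, fun X hX => ?_⟩
  have hXH : 2 * H₁ ≤ X := by omega
  have hX0 : 0 < X := by omega
  have hX0r : (0 : ℝ) < X := by exact_mod_cast hX0
  have hX1r : (1 : ℝ) ≤ X := by exact_mod_cast hX0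
  obtain ⟨T, hT⟩ : ∃ T : ℕ, T = X / H₁ := ⟨_, rfl⟩
  rw [← hT]
  have hT2 : 2 ≤ T := by
    rw [hT, Nat.le_div_iff_mul_le (by omega)]
    exact hXH
  have hT1 : 1 ≤ T := by omega
  have hTX : T ≤ X := by
    rw [hT]
    exact Nat.div_le_self _ _
  have hTXr : (T : ℝ) ≤ X := by exact_mod_cast hTX
  have hTr : (2 : ℝ) ≤ T := by exact_mod_cast hT2
  have hTH : (T : ℝ) * H₁ ≤ X := by
    have h1 : T * H₁ ≤ X := by
      rw [hT]
      exact Nat.div_mul_le_self _ _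
    exact_mod_cast h1
  obtain ⟨J, hJ1, hJ2⟩ := hX3 X (by omega)
  obtain ⟨w0, w1, hw01, hw0, hw1, hwL, hwX⟩ := hX1 X (by omega)
  -- facts on the scales
  have hpq := freq_pj hs1'
  have hVV := freq_Vj hV0
  have hVpos : ∀ j, (0 : ℝ) < Vj V0 j := fun j => by exact_mod_cast (hVV j).1
  have hdivp : ∀ j, ((Vj V0 j * pj s j : ℕ) : ℝ) / (Vj V0 j) = pj s j := fun j => by
    have := hVpos j
    push_cast
    field_simp
  have hdivq : ∀ j, ((Vj V0 j * qj s j : ℕ) : ℝ) / (Vj V0 j) = qj s j := fun j => by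
    have := hVpos j
    push_cast
    field_simp
  have hle01 : ∀ j, Vj V0 j * pj s j ≤ Vj V0 j * qj s j := fun j =>
    Nat.mul_le_mul_left _ (hpq j).2.2.1
  have hLLj : ∀ j, 2 ^ (j + 1) / ε₁ ≤ LL (Vj V0 j) (Vj V0 j * pj s j) (Vj V0 j * qj s j) :=
    fun j => (hs4' s j hss4).trans (hLL _ _ _ (hVV j).1 (hpq j).1 (hpq j).2.2.1)
  have hLL1 : ∀ j, 1 ≤ LL (Vj V0 j) (Vj V0 j * pj s j) (Vj V0 j * qj s j) := fun j => by
    refine le_trans ?_ (hLLj j)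
    rw [le_div_iff₀ hε₁]
    have : (1 : ℝ) ≤ 2 ^ (j + 1) := one_le_pow₀ (by norm_num)
    linarith
  have hLLinv : ∀ j, 1 / LL (Vj V0 j) (Vj V0 j * pj s j) (Vj V0 j * qj s j) ≤
      ε₁ * (1 / 2) ^ (j + 1) := fun j => by
    calc 1 / LL (Vj V0 j) (Vj V0 j * pj s j) (Vj V0 j * qj s j) ≤ 1 / (2 ^ (j + 1) / ε₁) :=
          one_div_le_one_div_of_le (by positivity) (hLLj j)
      _ = ε₁ * (1 / 2) ^ (j + 1) := by
          rw [one_div_div, div_pow, one_pow]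
          ring
  have hVinv : ∀ j, 1 / (Vj V0 j : ℝ) ≤ 2 * ε₁ * (1 / 2) ^ (j + 1) := fun j => by
    have e : 1 / (Vj V0 j : ℝ) = 1 / V0 * (2 * (1 / 2) ^ (j + 1)) := by
      unfold Vj
      push_cast
      rw [div_pow, one_pow, pow_succ]
      field_simp
    rw [e]
    calc 1 / (V0 : ℝ) * (2 * (1 / 2) ^ (j + 1)) ≤ ε₁ * (2 * (1 / 2) ^ (j + 1)) :=
          mul_le_mul_of_nonneg_right hV0ε (by positivity)
      _ = _ := by ring
  have hXj : ∀ j ≤ J, (Vj V0 j : ℝ) * Real.exp (2 * ((((Vj V0 j * qj s j : ℕ) : ℝ)) /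
      (Vj V0 j))) ≤ X := fun j hj => by
    rw [hdivq]
    exact hJ1 j hj
  have hXj' : ∀ j ≤ J, Real.exp ((((Vj V0 j * qj s j : ℕ) : ℝ)) / (Vj V0 j)) ≤ X :=
    fun j hj => by
    refine le_trans ?_ (hXj j hj)
    rw [hdivq]
    have h1 : (1 : ℝ) ≤ Vj V0 j := by exact_mod_cast (hVV j).1
    have h2 : Real.exp (qj s j : ℝ) ≤ Real.exp (2 * (qj s j : ℝ)) := by
      apply Real.exp_le_exp.2
      have : (0 : ℝ) ≤ qj s j := Nat.cast_nonneg _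
      linarith
    calc Real.exp (qj s j : ℝ) ≤ 1 * Real.exp (2 * (qj s j : ℝ)) := by rw [one_mul]; exact h2
      _ ≤ Vj V0 j * Real.exp (2 * (qj s j : ℝ)) :=
          mul_le_mul_of_nonneg_right h1 (Real.exp_pos _).le
  -- mean square errors
  have herr : ∀ j ≤ J, ∑ t ∈ Finset.Ioo (-(T : ℤ)) T,
      ‖R f X t - MM f X (Vj V0 j) (Vj V0 j * pj s j) (Vj V0 j * qj s j) t‖ ^ 2 ≤
        3 * CE * ε₁ * (1 / 2) ^ (j + 1) := fun j hj => by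
    refine (hE f X T (Vj V0 j) _ _ hf (hVV j).1 (hle01 j) hT1 hTX (hLL1 j) (hXj j hj)).trans ?_
    calc CE * (1 / LL (Vj V0 j) (Vj V0 j * pj s j) (Vj V0 j * qj s j) + 1 / (Vj V0 j : ℝ)) ≤
        CE * (ε₁ * (1 / 2) ^ (j + 1) + 2 * ε₁ * (1 / 2) ^ (j + 1)) :=
          mul_le_mul_of_nonneg_left (add_le_add (hLLinv j) (hVinv j)) hCE.le
      _ = _ := by ring
  -- prime sums
  have hps : ∀ j, ∀ r ∈ Finset.Ico (Vj V0 j * pj s j) (Vj V0 j * qj s j),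
      ∑ p ∈ PV (Vj V0 j) r, (1 : ℝ) / p ≤ 1 := fun j r hr => by
    rw [Finset.mem_Ico] at hr
    have h1 : (1 : ℝ) ≤ Vj V0 j := by exact_mod_cast (hVV j).1
    have h2 : (Vj V0 j : ℝ) * pj s j ≤ r := by exact_mod_cast hr.1
    have h3 : (s : ℝ) ≤ pj s j := by exact_mod_cast (hpq j).2.1
    have hr1 : 1 ≤ r := by
      have := Nat.mul_pos (hVV j).1 (hpq j).1
      omega
    have hr0 : (0 : ℝ) < r := by exact_mod_cast hr1
    refine (hPV _ r (hVV j).1 hr1).trans ?_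
    rw [div_le_one hr0]
    calc C₁ * (Vj V0 j : ℝ) ≤ pj s j * Vj V0 j :=
          mul_le_mul_of_nonneg_right (hsC.trans h3) (by linarith)
      _ = Vj V0 j * pj s j := mul_comm _ _
      _ ≤ r := h2
  -- small sets
  obtain ⟨A, hA⟩ : ∃ A : ℕ → Finset ℤ, ∀ j, A j = (Finset.Ioo (-(T : ℤ)) T).filter (fun t : ℤ =>
      ∀ v ∈ Finset.Ico (Vj V0 j * pj s j) (Vj V0 j * qj s j),
        ‖Q f (Vj V0 j) v t‖ ≤ Real.exp (-al a j * ((v : ℝ) / (Vj V0 j)))) :=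
    ⟨fun j => _, fun j => rfl⟩
  have hAsub : ∀ j, A j ⊆ Finset.Ioo (-(T : ℤ)) T := fun j => by
    rw [hA]
    exact Finset.filter_subset _ _
  have hAsmall : ∀ j, ∀ t ∈ A j, ∀ v ∈ Finset.Ico (Vj V0 j * pj s j) (Vj V0 j * qj s j),
        ‖Q f (Vj V0 j) v t‖ ≤ Real.exp (-al a j * ((v : ℝ) / (Vj V0 j))) := fun j t ht => by
    rw [hA] at ht
    exact (Finset.mem_filter.1 ht).2
  have hAlarge : ∀ j, ∀ t ∈ Finset.Ioo (-(T : ℤ)) T, t ∉ A j →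
      ∃ r ∈ Finset.Ico (Vj V0 j * pj s j) (Vj V0 j * qj s j),
        Real.exp (-al a j * ((r : ℝ) / (Vj V0 j))) < ‖Q f (Vj V0 j) r t‖ := fun j t ht hn => by
    rw [hA, Finset.mem_filter] at hn
    push Not at hn
    exact hn ht
  -- scale 0
  have hS0 : ∑ t ∈ A 0, ‖R f X t‖ ^ 2 ≤ 2 * ε₁ + 2 * (3 * CE * ε₁ * (1 / 2) ^ (0 + 1)) := by
    apply freq_R2 f X T _ _ _ (A 0) (hAsub 0) _ (herr 0 (Nat.zero_le J))
    refine (hT0 f X T (Vj V0 0) _ _ (al a 0) (A 0) hf (hVV 0).1 (hle01 0) hT1 (hLL1 0)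
      (hXj' 0 (Nat.zero_le J)) (freq_al ha 0).1 (hAsub 0) (hAsmall 0)).trans ?_
    rw [hdivp, hdivq]
    have e1 : pj s 0 = s := by simp [pj]
    have e2 : qj s 0 = s ^ 2 := by simp [qj, pj]
    have e3 : Vj V0 0 = V0 := by simp [Vj]
    have e4 : al a 0 = a / 2 := by
      unfold al
      ring
    rw [e1, e2, e3, e4]
    have h1 : (1 : ℝ) + T * Real.exp ((s ^ 2 : ℕ) : ℝ) / X ≤ 2 := by
      have h2 : (T : ℝ) * Real.exp ((s ^ 2 : ℕ) : ℝ) / X ≤ 1 := by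
        rw [div_le_one hX0r]
        push_cast
        calc (T : ℝ) * Real.exp ((s : ℝ) ^ 2) ≤ T * H₁ :=
              mul_le_mul_of_nonneg_left hH₁e (by linarith)
          _ ≤ X := hTH
      linarith
    have h3 : (((V0 * s ^ 2 : ℕ) : ℝ) - ((V0 * s : ℕ) : ℝ)) ^ 2 ≤ ((V0 : ℝ) * (s : ℝ) ^ 2) ^ 2 := by
      push_cast
      have h4 : (V0 : ℝ) * s ≤ V0 * (s : ℝ) ^ 2 := by
        apply mul_le_mul_of_nonneg_left _ (by linarith)
        nlinarith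
      have h5 : 0 ≤ (V0 : ℝ) * s := by positivity
      apply pow_le_pow_left₀ (by linarith)
      linarith
    have h6 : -2 * (a / 2) * (s : ℝ) = -a * s := by ring
    rw [h6]
    calc CT * (((V0 * s ^ 2 : ℕ) : ℝ) - ((V0 * s : ℕ) : ℝ)) ^ 2 * Real.exp (-a * s) *
          (1 + T * Real.exp ((s ^ 2 : ℕ) : ℝ) / X) ≤
        CT * ((V0 : ℝ) * (s : ℝ) ^ 2) ^ 2 * Real.exp (-a * s) * 2 := by
          apply mul_le_mul _ h1 (by positivity) (by positivity)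
          apply mul_le_mul_of_nonneg_right _ (Real.exp_pos _).le
          exact mul_le_mul_of_nonneg_left h3 hCT.le
      _ = 2 * CT * ((V0 : ℝ) * (s : ℝ) ^ 2) ^ 2 * Real.exp (-a * s) := by ring
      _ ≤ ε₁ := hs1 s hss1
  -- scale j + 1
  have hSj : ∀ j ∈ Finset.range J, ∑ t ∈ A (j + 1) \ A j, ‖R f X t‖ ^ 2 ≤
      (2 * ε₁ + 3 * CE * ε₁) * (1 / 2) ^ (j + 1) := by
    intro j hj
    rw [Finset.mem_range] at hj
    have hj1 : j + 1 ≤ J := hj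
    have h1 := freq_R2 f X T (Vj V0 (j + 1)) (Vj V0 (j + 1) * pj s (j + 1))
      (Vj V0 (j + 1) * qj s (j + 1)) (A (j + 1) \ A j)
      (Finset.sdiff_subset.trans (hAsub (j + 1))) (B := ε₁ * (1 / 2) ^ (j + 1)) ?_
      (herr (j + 1) hj1)
    · refine h1.trans (le_of_eq ?_)
      rw [pow_succ ((1 : ℝ) / 2) (j + 1)]
      ring
    · refine (hTj f X T (Vj V0 j) (Vj V0 j * pj s j) (Vj V0 j * qj s j) (Vj V0 (j + 1))
        (Vj V0 (j + 1) * pj s (j + 1)) (Vj V0 (j + 1) * qj s (j + 1)) (al a j) (al a (j + 1))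
        (a * (1 / 2) ^ (j + 2) * (pj s (j + 1) : ℝ)) (A (j + 1) \ A j) hf (hVV j).1
        (hVV (j + 1)).1 (Nat.le_mul_of_pos_right _ (hpq j).1) (hle01 j) (hle01 (j + 1)) hT1 hTX
        (hLL1 (j + 1)) (hXj' (j + 1) hj1) (freq_al ha j).1 (freq_al ha j).2.1
        ((freq_al ha (j + 1)).2.2.trans (ha8.trans (by norm_num))) (hps j)
        (Finset.sdiff_subset.trans (hAsub (j + 1))) ?_ ?_ ?_).trans ?_
      · intro t ht
        exact hAsmall (j + 1) t (Finset.mem_sdiff.1 ht).1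
      · intro t ht
        rw [Finset.mem_sdiff] at ht
        exact hAlarge j t (hAsub (j + 1) ht.1) ht.2
      · intro v hv
        rw [Finset.mem_Ico] at hv
        rw [hdivp, hdivq]
        apply hs2 s j hss2
        · rw [le_div_iff₀ (hVpos (j + 1))]
          have : ((Vj V0 (j + 1) * pj s (j + 1) : ℕ) : ℝ) ≤ v := by exact_mod_cast hv.1
          push_cast at this
          linarith
        · rw [div_le_iff₀ (hVpos (j + 1))]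
          have : (v : ℝ) ≤ ((Vj V0 (j + 1) * qj s (j + 1) : ℕ) : ℝ) := by exact_mod_cast hv.2.le
          push_cast at this
          linarith
      · refine le_trans ?_ (hs3 s j hss3)
        apply mul_le_mul_of_nonneg_right _ (Real.exp_pos _).le
        rw [mul_assoc]
        apply mul_le_mul_of_nonneg_left _ hCJ.le
        have h2 : (0 : ℝ) ≤ ((Vj V0 j * pj s j : ℕ) : ℝ) := Nat.cast_nonneg _
        have h3 : (0 : ℝ) ≤ ((Vj V0 (j + 1) * pj s (j + 1) : ℕ) : ℝ) := Nat.cast_nonneg _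
        have h4 : ((Vj V0 j * pj s j : ℕ) : ℝ) ≤ ((Vj V0 j * qj s j : ℕ) : ℝ) := by
          exact_mod_cast hle01 j
        have h5 : ((Vj V0 (j + 1) * pj s (j + 1) : ℕ) : ℝ) ≤
            ((Vj V0 (j + 1) * qj s (j + 1) : ℕ) : ℝ) := by
          exact_mod_cast hle01 (j + 1)
        have h6 : ((Vj V0 j * qj s j : ℕ) : ℝ) ≤ ((Vj V0 (j + 1) * qj s (j + 1) : ℕ) : ℝ) := by
          exact_mod_cast Nat.mul_le_mul (hVV j).2 (hpq j).2.2.2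
        have h7 : ((Vj V0 (j + 1) * qj s (j + 1) : ℕ) : ℝ) =
            (Vj V0 (j + 1) : ℝ) * (qj s (j + 1) : ℝ) := by push_cast; ring
        rw [← h7]
        have h8 : (0 : ℝ) ≤ ((Vj V0 (j + 1) * qj s (j + 1) : ℕ) : ℝ) := Nat.cast_nonneg _
        calc _ ≤ ((Vj V0 (j + 1) * qj s (j + 1) : ℕ) : ℝ) *
              ((Vj V0 (j + 1) * qj s (j + 1) : ℕ) : ℝ) ^ 2 := by
              apply mul_le_mul (by linarith) _ (by positivity) h8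
              apply pow_le_pow_left₀ (by linarith)
              linarith
          _ = _ := by ring
  -- the exceptional set
  have hUc : (((Finset.Ioo (-(T : ℤ)) T \ A J).card : ℕ) : ℝ) ≤ (X : ℝ) ^ c₀ := by
    refine (hcU f T (Vj V0 J) (Vj V0 J * pj s J) (Vj V0 J * qj s J) (al a J)
      (Finset.Ioo (-(T : ℤ)) T \ A J) hf (hVV J).1 (Nat.le_mul_of_pos_right _ (hpq J).1)
      (hle01 J) hT2 (freq_al ha J).1 (hps J) Finset.sdiff_subset ?_).trans ?_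
    · intro t ht
      rw [Finset.mem_sdiff] at ht
      exact hAlarge J t ht.1 ht.2
    · rw [hdivp, hdivq]
      have hpJ : (0 : ℝ) < pj s J := by exact_mod_cast (hpq J).1
      have hqJ : (0 : ℝ) ≤ qj s J := Nat.cast_nonneg _
      have h1 := freq_mono (freq_al ha J).2.2 (Real.log_nonneg (by linarith : (1 : ℝ) ≤ T))
        (Real.log_le_log (by linarith) hTXr) hpJ hqJ ha.le
      have h2 : (((Vj V0 J * qj s J : ℕ) : ℝ) - ((Vj V0 J * pj s J : ℕ) : ℝ)) ≤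
          (Vj V0 J : ℝ) * (qj s J : ℝ) := by
        have : (0 : ℝ) ≤ ((Vj V0 J * pj s J : ℕ) : ℝ) := Nat.cast_nonneg _
        push_cast at this ⊢
        linarith
      calc _ ≤ CU * ((Vj V0 J : ℝ) * (qj s J : ℝ)) *
            Real.exp (2 * a * (Real.log X + (qj s J : ℝ)) +
              (Real.log X / (pj s J : ℝ) + 1) *
                (4 + Real.log (Real.log X / (pj s J : ℝ) + 2))) := by
            apply mul_le_mul _ (Real.exp_le_exp.2 h1) (Real.exp_pos _).le (by positivity)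
            exact mul_le_mul_of_nonneg_left h2 hCU.le
        _ ≤ (X : ℝ) ^ (3 * a) := hJ2
        _ ≤ (X : ℝ) ^ c₀ := Real.rpow_le_rpow_of_exponent_le hX1r hac
  have hw1L : 1 ≤ LL V0 w0 w1 := by
    refine le_trans ?_ hwL
    rw [le_div_iff₀ hε₁]
    linarith
  have hU : ∑ t ∈ Finset.Ioo (-(T : ℤ)) T \ A J, ‖R f X t‖ ^ 2 ≤ 2 * ε₁ + 2 * (2 * CE * ε₁) := by
    apply freq_R2 f X T V0 w0 w1 _ Finset.sdiff_subset
    · exact hX2 X T _ w0 w1 (by omega) hTX Finset.sdiff_subset hUc hw01 hw0 hw1 hw1L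
    · refine (hE f X T V0 w0 w1 hf hV0 hw01 hT1 hTX hw1L hwX).trans ?_
      have h1 : 1 / LL V0 w0 w1 ≤ ε₁ := by
        calc 1 / LL V0 w0 w1 ≤ 1 / (1 / ε₁) := one_div_le_one_div_of_le (by positivity) hwL
          _ = ε₁ := one_div_one_div ε₁
      calc CE * (1 / LL V0 w0 w1 + 1 / V0) ≤ CE * (ε₁ + ε₁) :=
            mul_le_mul_of_nonneg_left (add_le_add h1 hV0ε) hCE.le
        _ = _ := by ring
  -- conclusion
  have hcov := freq_cover A (fun t : ℤ => ‖R f X t‖ ^ 2) (fun t => by positivity) J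
  have hsplit : ∑ t ∈ Finset.Ioo (-(T : ℤ)) T, ‖R f X t‖ ^ 2 =
      ∑ t ∈ A J, ‖R f X t‖ ^ 2 + ∑ t ∈ Finset.Ioo (-(T : ℤ)) T \ A J, ‖R f X t‖ ^ 2 := by
    rw [add_comm, Finset.sum_sdiff (hAsub J)]
  have hsumj : ∑ j ∈ Finset.range J, ∑ t ∈ A (j + 1) \ A j, ‖R f X t‖ ^ 2 ≤
      2 * ε₁ + 3 * CE * ε₁ := by
    refine (Finset.sum_le_sum hSj).trans ?_
    rw [← Finset.mul_sum]
    calc (2 * ε₁ + 3 * CE * ε₁) * ∑ j ∈ Finset.range J, ((1 : ℝ) / 2) ^ (j + 1) ≤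
        (2 * ε₁ + 3 * CE * ε₁) * 1 :=
          mul_le_mul_of_nonneg_left (freq_geom J) (by positivity)
      _ = _ := mul_one _
  have hS0' : 2 * ε₁ + 2 * (3 * CE * ε₁ * (1 / 2) ^ (0 + 1)) = 2 * ε₁ + 3 * CE * ε₁ := by
    norm_num
    ring
  rw [hS0'] at hS0
  rw [hsplit]
  refine le_trans ?_ hε₁ε
  linarith

end Pool.MRZ
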