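import Mathlib
import Pool.Agent.MRZ.ZetaChi

/-!
# MRZ/LPer: `L(ψ, 1 + 1/y + iu) = o(y)` for `U₀ ≤ |u| ≤ e^{4y}`

`ψ` periodic mod `q ≥ 1`, `|ψ| ≤ 1`. For every `ε > 0` there are `U₀ ≥ 1`, `Y` with
`‖LSeries ψ (1 + 1/y + iu)‖ ≤ ε y` for `y ≥ Y`, `U₀ ≤ |u| ≤ e^{4y}`.

Proof. Wlog `ε ≤ 1`. `N₀ = ⌈e^{εy/4}⌉`: `∑_{n ≤ N₀} 1/n ≤ 1 + log N₀ ≤ εy/4 + 2`. For `n > N₀` use the dyadic blocks
`(a, 2a]`, `a = 2^i N₀`: with `A = ⌈16/ε⌉`, `|u| ≤ e^{4y} ≤ a^A`, `zeta_per A q` gives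
`|∑_{a<n≤b} ψ(n) n^{-iu}| ≤ C (a/|u| + a^{1-c})` for `b ≤ 2a`; partial summation with the decreasing weight
`n^{-1-1/y}`: the block is at most `2 a^{-1-1/y} C (a/|u| + a^{1-c}) ≤ 2C (a^{-1/y}/|u| + a^{-c})`. Sum over
`i ≥ 0`: `∑ a^{-1/y} ≤ ∑ 2^{-i/y} = 1/(1 - 2^{-1/y}) ≤ 2y` (`y ≥ 1`), `∑ a^{-c} ≤ C' N₀^{-c} ≤ C'`. Total
`≤ εy/4 + 2 + 4Cy/|u| + C''`, so `U₀ = 16 C/ε`, `Y` large. (`tw` and `n^{-iu}`: `(n:ℂ)^(-s) = n^{-1-1/y} tw (-u) n`.)
-/

namespace Pool.MRZ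

open Finset

namespace LPerAux

/-- Abel's inequality -/
theorem abel_ineq (w : ℕ → ℝ) (hw : ∀ i, w (i + 1) ≤ w i) (hw0 : ∀ i, 0 ≤ w i) (g : ℕ → ℂ) (B : ℝ)
    (n : ℕ) (hB : ∀ i ≤ n, ‖∑ j ∈ Finset.range i, g j‖ ≤ B) :
    ‖∑ i ∈ Finset.range n, w i • g i‖ ≤ w 0 * B := by
  have hB0 : 0 ≤ B := (norm_nonneg _).trans (hB 0 (Nat.zero_le _))
  rcases n with _ | m
  · simpa using mul_nonneg (hw0 0) hB0
  rw [Finset.sum_range_by_parts, Nat.add_sub_cancel]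
  have h1 : ‖w m • ∑ i ∈ Finset.range (m + 1), g i‖ ≤ w m * B := by
    rw [norm_smul, Real.norm_of_nonneg (hw0 m)]
    exact mul_le_mul_of_nonneg_left (hB _ le_rfl) (hw0 m)
  have h2 : ‖∑ i ∈ Finset.range m, (w (i + 1) - w i) • ∑ i ∈ Finset.range (i + 1), g i‖ ≤
      (w 0 - w m) * B := by
    calc ‖∑ i ∈ Finset.range m, (w (i + 1) - w i) • ∑ i ∈ Finset.range (i + 1), g i‖
        ≤ ∑ i ∈ Finset.range m, (w i - w (i + 1)) * B := by
          refine norm_sum_le_of_le _ fun i hi => ?_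
          rw [norm_smul, ← norm_neg, neg_sub, Real.norm_of_nonneg (by linarith [hw i])]
          refine mul_le_mul_of_nonneg_left (hB _ ?_) (by linarith [hw i])
          have := Finset.mem_range.1 hi
          omega
      _ = (w 0 - w m) * B := by
          rw [← Finset.sum_mul]
          congr 1
          have h3 := Finset.sum_range_sub' w m
          exact h3
  calc _ ≤ w m * B + (w 0 - w m) * B := (norm_sub_le _ _).trans (add_le_add h1 h2)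
    _ = w 0 * B := by ring

theorem sum_Ioc_range {M : Type*} [AddCommMonoid M] (F : ℕ → M) (a L : ℕ) :
    ∑ n ∈ Finset.Ioc a (a + L), F n = ∑ i ∈ Finset.range L, F (a + 1 + i) := by
  have h : Finset.Ioc a (a + L) = Finset.Ico (a + 1) (a + 1 + L) := by
    ext n
    simp only [Finset.mem_Ioc, Finset.mem_Ico]
    omega
  rw [h, Finset.sum_Ico_eq_sum_range]
  simp

/-- the weight `n^{-1-1/y}` -/
noncomputable def wt (y : ℝ) (n : ℕ) : ℝ := (n : ℝ) ^ (-(1 + 1 / y))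

theorem wt_nonneg (y : ℝ) (n : ℕ) : 0 ≤ wt y n := Real.rpow_nonneg (Nat.cast_nonneg _) _

theorem wt_anti {y : ℝ} (hy : 0 < y) {m n : ℕ} (hm : 1 ≤ m) (h : m ≤ n) : wt y n ≤ wt y m := by
  have hm' : (0 : ℝ) < m := by exact_mod_cast hm
  have h' : (m : ℝ) ≤ n := by exact_mod_cast h
  refine Real.rpow_le_rpow_of_nonpos hm' h' ?_
  have : 0 < 1 / y := by positivity
  linarith

theorem term_eq (ψ : ℕ → ℂ) {y : ℝ} (hy : 0 < y) (u : ℝ) {n : ℕ} (hn : 1 ≤ n) :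
    LSeries.term ψ (1 + 1 / (y : ℂ) + u * Complex.I) n = wt y n • (ψ n * tw (-u) n) := by
  have hn0 : n ≠ 0 := by omega
  have hn1 : (0 : ℝ) < n := by exact_mod_cast hn
  have hnc : (n : ℂ) ≠ 0 := by exact_mod_cast hn0
  rw [LSeries.term_of_ne_zero hn0]
  have h1 : (n : ℂ) ^ (1 + 1 / (y : ℂ) + u * Complex.I) =
      (((n : ℝ) ^ (1 + 1 / y) : ℝ) : ℂ) * tw u n := by
    rw [Complex.cpow_def_of_ne_zero hnc, Real.rpow_def_of_pos hn1]
    unfold tw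
    rw [Complex.ofReal_exp, ← Complex.exp_add]
    congr 1
    rw [← Complex.natCast_log]
    push_cast
    ring
  have h2 : tw u n * tw (-u) n = 1 := by
    rw [← tw_add, add_neg_cancel, tw_zero]
  have h3 : wt y n * (n : ℝ) ^ (1 + 1 / y) = 1 := by
    unfold wt
    rw [← Real.rpow_add hn1, neg_add_cancel, Real.rpow_zero]
  have h4 : ((wt y n : ℝ) : ℂ) * (((n : ℝ) ^ (1 + 1 / y) : ℝ) : ℂ) = 1 := by
    rw [← Complex.ofReal_mul, h3, Complex.ofReal_one]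
  have h5 : (n : ℂ) ^ (1 + 1 / (y : ℂ) + u * Complex.I) ≠ 0 := by
    rw [h1]
    intro h6
    have h7 : ((wt y n : ℝ) : ℂ) * (((n : ℝ) ^ (1 + 1 / y) : ℝ) : ℂ) * (tw u n * tw (-u) n) = 0 := by
      calc _ = ((wt y n : ℝ) : ℂ) * ((((n : ℝ) ^ (1 + 1 / y) : ℝ) : ℂ) * tw u n) * tw (-u) n := by ring
        _ = 0 := by rw [h6]; ring
    rw [h4, h2] at h7
    norm_num at h7
  rw [div_eq_iff h5, h1, Complex.real_smul]
  calc ψ n = ψ n * (((wt y n : ℝ) : ℂ) * (((n : ℝ) ^ (1 + 1 / y) : ℝ) : ℂ)) * (tw u n * tw (-u) n) := by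
        rw [h4, h2]; ring
    _ = _ := by ring

theorem block (ψ : ℕ → ℂ) {y : ℝ} (hy : 0 < y) (u : ℝ) {a : ℕ} (ha : 1 ≤ a) (B : ℝ)
    (hB : ∀ b, a ≤ b → b ≤ 2 * a → ‖∑ n ∈ Finset.Ioc a b, ψ n * tw (-u) n‖ ≤ B) :
    ‖∑ n ∈ Finset.Ioc a (2 * a), wt y n • (ψ n * tw (-u) n)‖ ≤ wt y a * B := by
  have hB0 : 0 ≤ B := (norm_nonneg _).trans (hB a le_rfl (by omega))
  rw [two_mul, sum_Ioc_range]
  refine (abel_ineq (fun i => wt y (a + 1 + i)) ?_ ?_ (fun i => ψ (a + 1 + i) * tw (-u) (a + 1 + i))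
    B a ?_).trans ?_
  · intro i
    exact wt_anti hy (by omega) (by omega)
  · intro i
    exact wt_nonneg _ _
  · intro i hi
    have h1 := hB (a + i) (by omega) (by omega)
    rw [sum_Ioc_range] at h1
    exact h1
  · exact mul_le_mul_of_nonneg_right (wt_anti hy ha (by omega)) hB0

/-- `∑_{i<k} (2^i)^{-1/y} ≤ 4 y` -/
theorem geom1 {y : ℝ} (hy : 1 ≤ y) (k : ℕ) :
    ∑ i ∈ Finset.range k, ((2 : ℝ) ^ (-(1 / y))) ^ i ≤ 4 * y := by
  have hy0 : 0 < y := by linarith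
  have hx : (2 : ℝ) ^ (-(1 / y)) = Real.exp (-(Real.log 2 / y)) := by
    rw [Real.rpow_def_of_pos (by norm_num)]
    congr 1
    ring
  have hl := Real.log_two_gt_d9
  have hl2 := Real.log_two_lt_d9
  have hx0 : 0 < Real.log 2 / y := by
    have : 0 < Real.log 2 := by linarith
    positivity
  have hx1 : Real.log 2 / y ≤ Real.log 2 := div_le_self (by linarith) hy
  have he : (1 : ℝ) / 2 ≤ Real.exp (-(Real.log 2 / y)) := by
    have h1 : Real.exp (-Real.log 2) ≤ Real.exp (-(Real.log 2 / y)) :=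
      Real.exp_le_exp.2 (by linarith)
    rw [Real.exp_neg, Real.exp_log (by norm_num)] at h1
    linarith
  have h2 : Real.log 2 / y * Real.exp (-(Real.log 2 / y)) ≤ 1 - Real.exp (-(Real.log 2 / y)) := by
    have h3 := Real.add_one_le_exp (Real.log 2 / y)
    have h4 : Real.exp (Real.log 2 / y) * Real.exp (-(Real.log 2 / y)) = 1 := by
      rw [← Real.exp_add, add_neg_cancel, Real.exp_zero]
    have h5 := mul_le_mul_of_nonneg_right h3 (Real.exp_pos (-(Real.log 2 / y))).le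
    rw [h4] at h5
    linarith
  have h6 : 1 / (4 * y) ≤ 1 - Real.exp (-(Real.log 2 / y)) := by
    refine le_trans ?_ h2
    calc 1 / (4 * y) = (1 / 2) / y * (1 / 2) := by ring
      _ ≤ Real.log 2 / y * Real.exp (-(Real.log 2 / y)) := by
          apply mul_le_mul _ he (by norm_num) hx0.le
          gcongr
          linarith
  rw [hx]
  have h7 : Real.exp (-(Real.log 2 / y)) < 1 := by
    have : 0 < 1 / (4 * y) := by positivity
    linarith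
  have h8 := (summable_geometric_of_lt_one (Real.exp_pos _).le h7).sum_le_tsum (Finset.range k)
    (fun i _ => pow_nonneg (Real.exp_pos _).le i)
  rw [tsum_geometric_of_lt_one (Real.exp_pos _).le h7] at h8
  refine h8.trans ?_
  rw [inv_le_comm₀ (by linarith) (by positivity)]
  rw [← one_div]
  exact h6

/-- `∑_{i<k} (2^i)^{-c} ≤ (1 - 2^{-c})⁻¹` -/
theorem geom2 {c : ℝ} (hc : 0 < c) (k : ℕ) :
    ∑ i ∈ Finset.range k, ((2 : ℝ) ^ (-c)) ^ i ≤ (1 - (2 : ℝ) ^ (-c))⁻¹ := by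
  have h7 : (2 : ℝ) ^ (-c) < 1 := Real.rpow_lt_one_of_one_lt_of_neg (by norm_num) (by linarith)
  have h0 : 0 ≤ (2 : ℝ) ^ (-c) := Real.rpow_nonneg (by norm_num) _
  have h8 := (summable_geometric_of_lt_one h0 h7).sum_le_tsum (Finset.range k)
    (fun i _ => pow_nonneg h0 i)
  rwa [tsum_geometric_of_lt_one h0 h7] at h8

/-- for `d ≥ 0`, `N ≥ 1`: `(2^i N)^{-d} ≤ (2^{-d})^i` -/
theorem pow_block {d : ℝ} (hd : 0 ≤ d) {N : ℕ} (hN : 1 ≤ N) (i : ℕ) :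
    ((2 ^ i * N : ℕ) : ℝ) ^ (-d) ≤ ((2 : ℝ) ^ (-d)) ^ i := by
  have hN' : (1 : ℝ) ≤ N := by exact_mod_cast hN
  have h2 : (0 : ℝ) < (2 : ℝ) ^ i := by positivity
  have h1 : ((2 : ℝ) ^ i) ≤ ((2 ^ i * N : ℕ) : ℝ) := by
    push_cast
    nlinarith
  calc ((2 ^ i * N : ℕ) : ℝ) ^ (-d) ≤ ((2 : ℝ) ^ i) ^ (-d) :=
        Real.rpow_le_rpow_of_nonpos h2 h1 (by linarith)
    _ = ((2 : ℝ) ^ (-d)) ^ i := by
        rw [← Real.rpow_natCast ((2 : ℝ) ^ (-d)) i, ← Real.rpow_natCast 2 i,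
          ← Real.rpow_mul (by norm_num), ← Real.rpow_mul (by norm_num)]
        congr 1
        ring

/-- the initial segment -/
theorem initial (ψ : ℕ → ℂ) (hψ : ∀ n, ‖ψ n‖ ≤ 1) {y : ℝ} (hy : 0 < y) (u : ℝ) (N : ℕ) :
    ‖∑ n ∈ Finset.Ioc 0 N, wt y n • (ψ n * tw (-u) n)‖ ≤ 1 + Real.log N := by
  have h1 : ∀ n ∈ Finset.Ioc 0 N, ‖wt y n • (ψ n * tw (-u) n)‖ ≤ ((n : ℝ))⁻¹ := by
    intro n hn
    rw [Finset.mem_Ioc] at hn
    have hn1 : (1 : ℝ) ≤ n := by exact_mod_cast hn.1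
    rw [norm_smul, norm_mul, norm_tw, mul_one, Real.norm_of_nonneg (wt_nonneg _ _)]
    have h2 : wt y n ≤ ((n : ℝ))⁻¹ := by
      unfold wt
      rw [← Real.rpow_neg_one]
      apply Real.rpow_le_rpow_of_exponent_le hn1
      have : 0 < 1 / y := by positivity
      linarith
    calc wt y n * ‖ψ n‖ ≤ wt y n * 1 := mul_le_mul_of_nonneg_left (hψ n) (wt_nonneg _ _)
      _ ≤ ((n : ℝ))⁻¹ := by rw [mul_one]; exact h2
  refine (norm_sum_le_of_le _ h1).trans ?_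
  have h3 := harmonic_le_one_add_log N
  have h4 : ((harmonic N : ℚ) : ℝ) = ∑ n ∈ Finset.Ioc 0 N, ((n : ℝ))⁻¹ := by
    have h5 := sum_Ioc_range (fun n : ℕ => ((n : ℝ))⁻¹) 0 N
    rw [zero_add] at h5
    rw [h5]
    unfold harmonic
    push_cast
    refine Finset.sum_congr rfl fun i _ => ?_
    congr 1
    ring
  rw [h4] at h3
  exact h3

/-- one block -/
theorem block_bound {y c C u : ℝ} (hy : 0 < y) (hC : 0 < C) (hu : 0 < |u|) {a : ℕ} (ha : 1 ≤ a) :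
    wt y a * (C * (a / |u| + (a : ℝ) ^ (1 - c))) ≤
      C * ((a : ℝ) ^ (-(1 / y)) / |u| + (a : ℝ) ^ (-c)) := by
  have ha' : (0 : ℝ) < a := by exact_mod_cast ha
  have ha1 : (1 : ℝ) ≤ a := by exact_mod_cast ha
  have h1 : wt y a * a = (a : ℝ) ^ (-(1 / y)) := by
    unfold wt
    nth_rewrite 2 [← Real.rpow_one (a : ℝ)]
    rw [← Real.rpow_add ha']
    congr 1
    ring
  have h2 : wt y a * (a : ℝ) ^ (1 - c) ≤ (a : ℝ) ^ (-c) := by
    unfold wt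
    rw [← Real.rpow_add ha']
    apply Real.rpow_le_rpow_of_exponent_le ha1
    have : 0 < 1 / y := by positivity
    linarith
  calc wt y a * (C * (a / |u| + (a : ℝ) ^ (1 - c)))
      = C * ((wt y a * a) / |u| + wt y a * (a : ℝ) ^ (1 - c)) := by ring
    _ ≤ _ := by
        rw [h1]
        gcongr

end LPerAux

open LPerAux

theorem lper (q : ℕ) (hq : 1 ≤ q) (ψ : ℕ → ℂ) (hper : ∀ n, ψ (n + q) = ψ n) (hψ : ∀ n, ‖ψ n‖ ≤ 1)
    (ε : ℝ) (hε : 0 < ε) : ∃ U₀ Y : ℝ, 1 ≤ U₀ ∧ 1 ≤ Y ∧ ∀ y u : ℝ, Y ≤ y → U₀ ≤ |u| →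
      |u| ≤ Real.exp (4 * y) → ‖LSeries ψ (1 + 1 / (y : ℂ) + u * Complex.I)‖ ≤ ε * y := by
  obtain ⟨c, C, hc, hC, hz⟩ := zeta_per ⌈16 / ε⌉₊ q hq
  set C' : ℝ := (1 - (2 : ℝ) ^ (-c))⁻¹ with hC'
  have hC'0 : 0 ≤ C' := by
    have h7 : (2 : ℝ) ^ (-c) < 1 := Real.rpow_lt_one_of_one_lt_of_neg (by norm_num) (by linarith)
    rw [hC']
    exact inv_nonneg.2 (by linarith)
  refine ⟨max 1 (16 * C / ε), max 1 (4 * (2 + C * C') / ε), le_max_left _ _, le_max_left _ _, ?_⟩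
  intro y u hy hu hu2
  have hy1 : 1 ≤ y := (le_max_left _ _).trans hy
  have hy2 : 4 * (2 + C * C') / ε ≤ y := (le_max_right _ _).trans hy
  have hy0 : 0 < y := by linarith
  have hu1 : 1 ≤ |u| := (le_max_left _ _).trans hu
  have hu3 : 16 * C / ε ≤ |u| := (le_max_right _ _).trans hu
  have hu0 : 0 < |u| := by linarith
  set N₀ : ℕ := ⌈Real.exp (ε * y / 4)⌉₊ with hN₀
  have hN1 : Real.exp (ε * y / 4) ≤ N₀ := Nat.le_ceil _
  have hE1 : 1 ≤ Real.exp (ε * y / 4) := Real.one_le_exp (by positivity)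
  have hN2 : 1 ≤ N₀ := by
    have h1 : (1 : ℝ) ≤ N₀ := hE1.trans hN1
    exact_mod_cast h1
  have hN3 : 1 + Real.log N₀ ≤ ε * y / 4 + 2 := by
    have h1 : (N₀ : ℝ) < Real.exp (ε * y / 4) + 1 := Nat.ceil_lt_add_one (Real.exp_pos _).le
    have h2 : (N₀ : ℝ) ≤ Real.exp (ε * y / 4 + 1) := by
      rw [Real.exp_add]
      have h3 := Real.add_one_le_exp (1 : ℝ)
      nlinarith
    have h3 : (0 : ℝ) < N₀ := by exact_mod_cast hN2
    have h4 := Real.log_le_log h3 h2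
    rw [Real.log_exp] at h4
    linarith
  have hpart : ∀ k : ℕ, ‖∑ n ∈ Finset.Ioc 0 (2 ^ k * N₀), wt y n • (ψ n * tw (-u) n)‖ ≤
      (ε * y / 4 + 2) + ∑ i ∈ Finset.range k,
        C * (((2 : ℝ) ^ (-(1 / y))) ^ i / |u| + ((2 : ℝ) ^ (-c)) ^ i) := by
    intro k
    induction k with
    | zero =>
      rw [pow_zero, one_mul, Finset.range_zero, Finset.sum_empty, add_zero]
      exact (initial ψ hψ hy0 u N₀).trans hN3
    | succ k ih =>
      have ha : 1 ≤ 2 ^ k * N₀ := Nat.one_le_iff_ne_zero.2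
        (Nat.mul_ne_zero (by positivity) (by omega))
      have e1 : 2 ^ (k + 1) * N₀ = 2 * (2 ^ k * N₀) := by ring
      rw [e1, ← Finset.sum_Ioc_consecutive _ (Nat.zero_le (2 ^ k * N₀)) (by omega),
        Finset.sum_range_succ, ← add_assoc]
      refine (norm_add_le _ _).trans (add_le_add ih ?_)
      have hA : |(-u)| ≤ ((2 ^ k * N₀ : ℕ) : ℝ) ^ ⌈16 / ε⌉₊ := by
        rw [abs_neg]
        have h1 : (N₀ : ℝ) ≤ ((2 ^ k * N₀ : ℕ) : ℝ) := by
          have : N₀ ≤ 2 ^ k * N₀ := Nat.le_mul_of_pos_left _ (by positivity)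
          exact_mod_cast this
        have h2 : Real.exp (ε * y / 4) ≤ ((2 ^ k * N₀ : ℕ) : ℝ) := hN1.trans h1
        have h3 : Real.exp (4 * y) ≤ Real.exp (ε * y / 4) ^ ⌈16 / ε⌉₊ := by
          rw [← Real.exp_nat_mul]
          apply Real.exp_le_exp.2
          have h4 : 16 / ε ≤ (⌈16 / ε⌉₊ : ℝ) := Nat.le_ceil _
          have h5 : 16 / ε * (ε * y / 4) ≤ (⌈16 / ε⌉₊ : ℝ) * (ε * y / 4) :=
            mul_le_mul_of_nonneg_right h4 (by positivity)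
          have h6 : 16 / ε * (ε * y / 4) = 4 * y := by
            field_simp
            ring
          linarith
        exact (hu2.trans h3).trans (pow_le_pow_left₀ (Real.exp_pos _).le h2 _)
      have hblk := block ψ hy0 u ha (C * (((2 ^ k * N₀ : ℕ) : ℝ) / |u| +
        ((2 ^ k * N₀ : ℕ) : ℝ) ^ (1 - c))) (by
        intro b hb1 hb2
        have h1 := hz ψ (2 ^ k * N₀) b (-u) hper hψ ha hb1 hb2 (by rw [abs_neg]; exact hu1) hA
        rw [abs_neg] at h1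
        exact h1)
      refine (hblk.trans (block_bound hy0 hC hu0 ha)).trans ?_
      have h1 := pow_block (d := 1 / y) (by positivity) hN2 k
      have h2 := pow_block (d := c) hc.le hN2 k
      gcongr
  have hpart2 : ∀ k : ℕ, ‖∑ n ∈ Finset.Ioc 0 (2 ^ k * N₀), wt y n • (ψ n * tw (-u) n)‖ ≤ ε * y := by
    intro k
    refine (hpart k).trans ?_
    rw [← Finset.mul_sum, Finset.sum_add_distrib, ← Finset.sum_div]
    have h1 := geom1 hy1 k
    have h2 := geom2 hc k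
    have h3 : C * ((∑ i ∈ Finset.range k, ((2 : ℝ) ^ (-(1 / y))) ^ i) / |u| +
        ∑ i ∈ Finset.range k, ((2 : ℝ) ^ (-c)) ^ i) ≤ C * (4 * y / |u| + C') := by
      gcongr
    have h4 : C * (4 * y / |u|) ≤ ε * y / 4 := by
      rw [← mul_div_assoc, div_le_iff₀ hu0]
      rw [div_le_iff₀ hε] at hu3
      nlinarith
    have h5 : 2 + C * C' ≤ ε * y / 4 := by
      rw [div_le_iff₀ hε] at hy2
      linarith
    have h6 : C * (4 * y / |u| + C') = C * (4 * y / |u|) + C * C' := by ring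
    have h7 : 0 < ε * y := by positivity
    linarith
  -- the limit
  have hre : (1 : ℝ) < (1 + 1 / (y : ℂ) + u * Complex.I).re := by
    have h1 : (1 + 1 / (y : ℂ) + u * Complex.I).re = 1 + 1 / y := by
      have h2 : (1 : ℂ) / (y : ℂ) = ((1 / y : ℝ) : ℂ) := by push_cast; rfl
      rw [h2]
      simp
    rw [h1]
    have : 0 < 1 / y := by positivity
    linarith
  have hsum : LSeriesSummable ψ (1 + 1 / (y : ℂ) + u * Complex.I) :=
    LSeriesSummable_of_bounded_of_one_lt_re (m := 1) (fun n _ => hψ n) hre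
  have htend := hsum.hasSum.tendsto_sum_nat
  have hsub : Filter.Tendsto (fun k : ℕ => 2 ^ k * N₀ + 1) Filter.atTop Filter.atTop := by
    refine Filter.tendsto_atTop_mono (fun k => ?_) Filter.tendsto_id
    have h1 : k < 2 ^ k := Nat.lt_two_pow_self
    have h2 : 2 ^ k * 1 ≤ 2 ^ k * N₀ := Nat.mul_le_mul_left _ hN2
    show k ≤ 2 ^ k * N₀ + 1
    omega
  have htend2 := (htend.comp hsub).norm
  refine le_of_tendsto htend2 (Filter.Eventually.of_forall fun k => ?_)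
  have e1 : ∑ n ∈ Finset.range (2 ^ k * N₀ + 1),
      LSeries.term ψ (1 + 1 / (y : ℂ) + u * Complex.I) n =
      ∑ n ∈ Finset.Ioc 0 (2 ^ k * N₀), wt y n • (ψ n * tw (-u) n) := by
    have h1 := sum_Ioc_range (fun n => wt y n • (ψ n * tw (-u) n)) 0 (2 ^ k * N₀)
    rw [zero_add] at h1
    rw [h1, Finset.sum_range_succ', LSeries.term_zero, add_zero]
    refine Finset.sum_congr rfl fun i _ => ?_
    rw [term_eq ψ hy0 u (by omega : 1 ≤ i + 1)]
    have : 0 + 1 + i = i + 1 := by ring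
    rw [this]
  show ‖∑ n ∈ Finset.range (2 ^ k * N₀ + 1), LSeries.term ψ (1 + 1 / (y : ℂ) + u * Complex.I) n‖ ≤ _
  rw [e1]
  exact hpart2 k

end Pool.MRZ
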