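import Mathlib
import Pool.Agent.MRZ.LPer

/-!
# MRZ/LChi: lower bounds for `L(χ, 1 + 1/y + it)`

`χ` a Dirichlet character mod `q ≥ 1`.
* `lchi_compact`: for every `U₀` there is `C` with `1 ≤ C ‖LSeries χ (1 + 1/y + it)‖` for `y ≥ 1`, `|t| ≤ U₀`.
  Compactness of `{1 ≤ Re s ≤ 2, |Im s| ≤ U₀}`: for `χ ≠ 1` the continuous function `LFunction χ` has no zero there
  (`DirichletCharacter.LFunction_ne_zero_of_one_le_re`); for `χ = 1` use `LFunctionTrivChar₁ q`
  (continuous, `= (s-1) L(s)`, non-zero, `LFunctionTrivChar₁_apply_one_ne_zero`) and `|s-1| ≤ 1 + U₀`.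
* `lchi_low`: for every `ε > 0` there is `Y`: `1 ≤ ε y ‖LSeries χ (1 + 1/y + it)‖` for `y ≥ Y`, `|t| ≤ e^{3y}`.
  Let `ε₁ > 0` be small. `lper` for `ψ = χ²` gives `U₀, Y₁` with `‖L(χ²,1+1/y+iu)‖ ≤ ε₁ y` for
  `U₀ ≤ |u| ≤ e^{4y}`. For `|t| ≤ U₀`: `lchi_compact` (`C ≤ ε y` for large `y`). For `U₀ ≤ |t| ≤ e^{3y}`:
  `|2t| ∈ [U₀, e^{4y}]` (`2 ≤ e^y`), `DirichletCharacter.norm_LSeries_product_ge_one` with `x = 1/y`:
  `1 ≤ (1+y)³ ‖L(χ,1+1/y+it)‖⁴ ε₁ y ≤ 8 ε₁ y⁴ ‖L‖⁴` (`‖L(1, 1+1/y)‖ ≤ ∑ n^{-1-1/y} ≤ 1+y ≤ 2y`), so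
  `1 ≤ (8ε₁)^{1/4} y ‖L‖`; take `8 ε₁ = ε⁴`.
-/

namespace Pool.MRZ

open Finset

theorem lchi_re {y : ℝ} (t : ℝ) : (1 + 1 / (y : ℂ) + t * Complex.I).re = 1 + 1 / y := by
  have h1 : (1 + 1 / (y : ℂ) + t * Complex.I) = (((1 + 1 / y : ℝ)) : ℂ) + t * Complex.I := by
    push_cast
    ring
  rw [h1]
  simp

theorem lchi_im {y : ℝ} (t : ℝ) : (1 + 1 / (y : ℂ) + t * Complex.I).im = t := by
  have h1 : (1 + 1 / (y : ℂ) + t * Complex.I) = (((1 + 1 / y : ℝ)) : ℂ) + t * Complex.I := by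
    push_cast
    ring
  rw [h1]
  simp

theorem lchi_compact (q : ℕ) [NeZero q] (χ : DirichletCharacter ℂ q) (U₀ : ℝ) :
    ∃ C : ℝ, 0 < C ∧ ∀ y t : ℝ, 1 ≤ y → |t| ≤ U₀ →
      1 ≤ C * ‖LSeries (fun n => χ n) (1 + 1 / (y : ℂ) + t * Complex.I)‖ := by
  have hK : IsCompact ((Set.Icc (1 : ℝ) 2) ×ℂ (Set.Icc (-U₀) U₀)) :=
    isCompact_Icc.reProdIm isCompact_Icc
  have hmem : ∀ y t : ℝ, 1 ≤ y → |t| ≤ U₀ →
      (1 + 1 / (y : ℂ) + t * Complex.I) ∈ ((Set.Icc (1 : ℝ) 2) ×ℂ (Set.Icc (-U₀) U₀)) := by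
    intro y t hy ht
    have hy0 : 0 < y := by linarith
    have h1 : 0 < 1 / y := by positivity
    have h2 : 1 / y ≤ 1 := by
      rw [div_le_one hy0]
      exact hy
    rw [Complex.mem_reProdIm, lchi_re, lchi_im]
    exact ⟨⟨by linarith, by linarith⟩, abs_le.1 ht⟩
  have hre : ∀ y t : ℝ, 1 ≤ y → 1 < (1 + 1 / (y : ℂ) + t * Complex.I).re := by
    intro y t hy
    have hy0 : 0 < y := by linarith
    have h1 : 0 < 1 / y := by positivity
    rw [lchi_re]
    linarith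
  by_cases hχ : χ = 1
  · subst hχ
    have hcont : ContinuousOn (fun s => ‖DirichletCharacter.LFunctionTrivChar₁ q s‖)
        ((Set.Icc (1 : ℝ) 2) ×ℂ (Set.Icc (-U₀) U₀)) :=
      (DirichletCharacter.differentiable_LFunctionTrivChar₁ q).continuous.norm.continuousOn
    obtain ⟨δ, hδ, hδK⟩ := hK.exists_forall_le' hcont (a := 0) (by
      intro s hs
      rw [Complex.mem_reProdIm] at hs
      refine norm_pos_iff.2 ?_
      by_cases h1 : s = 1
      · rw [h1]
        exact DirichletCharacter.LFunctionTrivChar₁_apply_one_ne_zero q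
      · rw [DirichletCharacter.LFunctionTrivChar₁, Function.update_of_ne h1]
        exact mul_ne_zero (sub_ne_zero.2 h1)
          (DirichletCharacter.LFunction_ne_zero_of_one_le_re 1 (Or.inr h1) hs.1.1))
    refine ⟨(1 + |U₀|) / δ, by positivity, fun y t hy ht => ?_⟩
    set s : ℂ := 1 + 1 / (y : ℂ) + t * Complex.I with hs
    have h1 := hδK s (hmem y t hy ht)
    have h2 : s ≠ 1 := by
      intro h0
      have h3 := hre y t hy
      rw [← hs, h0, Complex.one_re] at h3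
      exact lt_irrefl _ h3
    rw [DirichletCharacter.LFunctionTrivChar₁, Function.update_of_ne h2, norm_mul] at h1
    have h3 : DirichletCharacter.LFunctionTrivChar q s =
        LSeries (fun n => (1 : DirichletCharacter ℂ q) n) s :=
      DirichletCharacter.LFunction_eq_LSeries 1 (hre y t hy)
    rw [h3] at h1
    have h4 : ‖s - 1‖ ≤ 1 + |U₀| := by
      have hy0 : 0 < y := by linarith
      have h5 : s - 1 = ((1 / y : ℝ) : ℂ) + t * Complex.I := by
        rw [hs]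
        push_cast
        ring
      have h6 : 1 / y ≤ 1 := by
        rw [div_le_one hy0]
        exact hy
      rw [h5]
      refine (norm_add_le _ _).trans ?_
      rw [Complex.norm_real, norm_mul, Complex.norm_real, Complex.norm_I, mul_one,
        Real.norm_of_nonneg (by positivity), Real.norm_eq_abs]
      have h7 := ht.trans (le_abs_self U₀)
      linarith
    rw [div_mul_eq_mul_div, le_div_iff₀ hδ, one_mul]
    exact h1.trans (mul_le_mul_of_nonneg_right h4 (norm_nonneg _))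
  · have hcont : ContinuousOn (fun s => ‖DirichletCharacter.LFunction χ s‖)
        ((Set.Icc (1 : ℝ) 2) ×ℂ (Set.Icc (-U₀) U₀)) :=
      (DirichletCharacter.differentiable_LFunction hχ).continuous.norm.continuousOn
    obtain ⟨δ, hδ, hδK⟩ := hK.exists_forall_le' hcont (a := 0) (by
      intro s hs
      rw [Complex.mem_reProdIm] at hs
      exact norm_pos_iff.2
        (DirichletCharacter.LFunction_ne_zero_of_one_le_re χ (Or.inl hχ) hs.1.1))
    refine ⟨δ⁻¹, by positivity, fun y t hy ht => ?_⟩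
    have h1 := hδK _ (hmem y t hy ht)
    have h3 : DirichletCharacter.LFunction χ (1 + 1 / (y : ℂ) + t * Complex.I) =
        LSeries (fun n => χ n) (1 + 1 / (y : ℂ) + t * Complex.I) :=
      DirichletCharacter.LFunction_eq_LSeries χ (hre y t hy)
    rw [h3] at h1
    rw [inv_mul_eq_div, le_div_iff₀ hδ, one_mul]
    exact h1

/-- the trivial character near `1` -/
theorem ltriv_upper (q : ℕ) [NeZero q] : ∃ C Y : ℝ, 0 < C ∧ 1 ≤ Y ∧ ∀ y : ℝ, Y ≤ y →
    ‖LSeries (fun n => (1 : DirichletCharacter ℂ q) n) (1 + ((1 / y : ℝ) : ℂ))‖ ≤ C * y := by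
  obtain ⟨C, hC, hCb⟩ := (DirichletCharacter.LFunctionTrivChar_isBigO_near_one_horizontal
    (N := q)).exists_pos
  rw [Asymptotics.isBigOWith_iff] at hCb
  obtain ⟨δ, hδ, hsub⟩ := mem_nhdsGT_iff_exists_Ioo_subset.1 hCb
  have hδ0 : (0 : ℝ) < δ := hδ
  refine ⟨C, max 1 (2 / δ), hC, le_max_left _ _, fun y hy => ?_⟩
  have hy1 : 1 ≤ y := (le_max_left _ _).trans hy
  have hy2 : 2 / δ ≤ y := (le_max_right _ _).trans hy
  have hy0 : 0 < y := by linarith
  have hx0 : 0 < 1 / y := by positivity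
  have hx1 : 1 / y < δ := by
    rw [div_lt_iff₀ hy0]
    rw [div_le_iff₀ hδ0] at hy2
    linarith
  have h1 := hsub ⟨hx0, hx1⟩
  simp only [Set.mem_ofPred_eq] at h1
  have h2 : DirichletCharacter.LFunctionTrivChar q (1 + ((1 / y : ℝ) : ℂ)) =
      LSeries (fun n => (1 : DirichletCharacter ℂ q) n) (1 + ((1 / y : ℝ) : ℂ)) := by
    refine DirichletCharacter.LFunction_eq_LSeries 1 ?_
    rw [Complex.add_re, Complex.one_re, Complex.ofReal_re]
    linarith
  rw [h2] at h1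
  refine h1.trans (le_of_eq ?_)
  rw [norm_div, norm_one, Complex.norm_real, Real.norm_of_nonneg hx0.le, one_div_one_div]

theorem lchi_low (q : ℕ) [NeZero q] (χ : DirichletCharacter ℂ q) (ε : ℝ) (hε : 0 < ε) :
    ∃ Y : ℝ, 1 ≤ Y ∧ ∀ y t : ℝ, Y ≤ y → |t| ≤ Real.exp (3 * y) →
      1 ≤ ε * y * ‖LSeries (fun n => χ n) (1 + 1 / (y : ℂ) + t * Complex.I)‖ := by
  obtain ⟨C₃, Y₃, hC₃, hY₃, h3⟩ := ltriv_upper q
  obtain ⟨U₀, Y₁, hU₀, hY₁, hper⟩ := lper q (Nat.one_le_iff_ne_zero.2 (NeZero.ne q))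
    (fun n => (χ ^ 2) n) (fun n => by simp) (fun n => (χ ^ 2).norm_le_one _)
    (ε ^ 4 / C₃ ^ 3) (by positivity)
  obtain ⟨C, hC, hcomp⟩ := lchi_compact q χ U₀
  refine ⟨max (max Y₁ Y₃) (C / ε), (hY₁.trans (le_max_left _ _)).trans (le_max_left _ _),
    fun y t hy ht => ?_⟩
  have hyY₁ : Y₁ ≤ y := ((le_max_left _ _).trans (le_max_left _ _)).trans hy
  have hyY₃ : Y₃ ≤ y := ((le_max_right _ _).trans (le_max_left _ _)).trans hy
  have hyC : C / ε ≤ y := (le_max_right _ _).trans hy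
  have hy1 : 1 ≤ y := hY₁.trans hyY₁
  have hy0 : 0 < y := by linarith
  by_cases htU : |t| ≤ U₀
  · refine (hcomp y t hy1 htU).trans (mul_le_mul_of_nonneg_right ?_ (norm_nonneg _))
    rw [div_le_iff₀ hε] at hyC
    linarith
  · push Not at htU
    have hx0 : 0 < 1 / y := by positivity
    have hprod := DirichletCharacter.norm_LSeries_product_ge_one χ hx0 t
    have h4 : ‖LSeries (fun n => (χ ^ 2) n) (1 + ((1 / y : ℝ) : ℂ) + 2 * Complex.I * t)‖ ≤
        ε ^ 4 / C₃ ^ 3 * y := by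
      have h5 := hper y (2 * t) hyY₁ (by
        rw [abs_mul, abs_of_pos (by norm_num : (0 : ℝ) < 2)]
        linarith [abs_nonneg t]) (by
        rw [abs_mul, abs_of_pos (by norm_num : (0 : ℝ) < 2)]
        have h6 : Real.exp (4 * y) = Real.exp y * Real.exp (3 * y) := by
          rw [← Real.exp_add]
          congr 1
          ring
        have h7 : 2 ≤ Real.exp y := by
          have h8 := Real.add_one_le_exp y
          linarith
        rw [h6]
        exact mul_le_mul h7 ht (abs_nonneg _) (Real.exp_pos _).le)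
      convert h5 using 3
      push_cast
      ring
    have h5 := h3 y hyY₃
    have h6 : (1 + ((1 / y : ℝ) : ℂ) + Complex.I * t) = 1 + 1 / (y : ℂ) + t * Complex.I := by
      push_cast
      ring
    rw [h6] at hprod
    rw [norm_mul, norm_mul, norm_pow, norm_pow] at hprod
    set A := ‖LSeries (fun n => (1 : DirichletCharacter ℂ q) n) (1 + ((1 / y : ℝ) : ℂ))‖ with hA
    set B := ‖LSeries (fun n => χ n) (1 + 1 / (y : ℂ) + t * Complex.I)‖ with hB
    set D := ‖LSeries (fun n => (χ ^ 2) n) (1 + ((1 / y : ℝ) : ℂ) + 2 * Complex.I * t)‖ with hD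
    have hprod' : 1 ≤ A ^ 3 * B ^ 4 * D := hprod
    have hB0 : 0 ≤ B := norm_nonneg _
    have hA0 : 0 ≤ A := norm_nonneg _
    have hD0 : 0 ≤ D := norm_nonneg _
    have h7 : A ^ 3 * B ^ 4 * D ≤ (C₃ * y) ^ 3 * B ^ 4 * (ε ^ 4 / C₃ ^ 3 * y) := by
      gcongr
    have h8 : (C₃ * y) ^ 3 * B ^ 4 * (ε ^ 4 / C₃ ^ 3 * y) = (ε * y * B) ^ 4 := by
      field_simp
    have h9 : 1 ≤ (ε * y * B) ^ 4 := by
      rw [← h8]
      exact hprod'.trans h7
    by_contra hcon
    push Not at hcon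
    have h10 : (ε * y * B) ^ 4 < 1 := pow_lt_one₀ (by positivity) hcon (by norm_num)
    linarith

end Pool.MRZ
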