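import Mathlib
import Pool.Agent.MRZ.Defs

/-!
# MRZ/GBase: Gaussian weights on the logarithmic scale, trivial bounds

`gw κ v = exp (-(v/κ)²)`, `0 < κ ≤ 1`, `gt κ c w = ∑_n c(n) gw κ (log n - w)`,
`sk κ g = gt κ (n ↦ g(n)/n)`.

`BB d B`: `d ≥ 0`, `d 0 = 0` and `∑_{x ≤ n ≤ e x} d(n) ≤ B` for all real `x ≥ 1`. Examples:
* `bb_one`: `d(n) = 1/n` (at most `(e-1)x + 1 ≤ e x` integers, each `1/n ≤ 1/x`: `B = 3`);
* `bb_vm`: `d(n) = Λ(n)/n` (`ψ(e x)/x ≤ C`, `Chebyshev.psi_le_const_mul_self` in Mathlib).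

For `BB d B`, `0 < κ ≤ 1`, `w ∈ ℝ`: cover `n ≥ 1` by the blocks `k ≤ log n < k+1`, `k ∈ ℕ`; on such a block
`gw κ (log n - w) ≤ exp (-(|k - w| - 1)_+²)` (`κ ≤ 1`), and `∑_{k∈ℤ} exp (-(|k-w|-1)_+²) ≤ C`.
* `gauss_sum`: summable and `∑ d(n) gw κ (log n - w) ≤ C B`.
* `gauss_neg`: for `w ≤ 0`: `(log n - w)² ≥ (log n)² + w²`, so the sum is `≤ C B exp (-w²)`.
* `gauss_abs`: `∑ d(n) |log n - w| gw κ (log n - w) ≤ C B` (`|v| e^{-v²/κ²} ≤ |v| e^{-v²} ≤ e^{-v²/2}`).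
* `gauss_lip`: for `|w - w'| ≤ κ`: `∑ d(n) |gw κ (log n - w) - gw κ (log n - w')| ≤ C B |w-w'|/κ`
  (`|e^{-a²} - e^{-b²}| ≤ C |a-b| e^{-a²/4}` for `|a - b| ≤ 1`, with `a = (log n - w)/κ`, and then
  `e^{-v²/(4κ²)} ≤ e^{-v²/4}`).
* `gauss_kappa`: for `d(n) = 1/n`, `w ≥ 0`: `∑ (1/n) gw κ (log n - w) ≤ C (κ + e^{-w})`: blocks
  `w + jκ ≤ log n < w + (j+1)κ`, `j ∈ ℤ`: the block `[x, e^κ x)`, `x = e^{w+jκ}`, has at most `2κx + 1` integers
  (`e^κ - 1 ≤ 2κ`), so `∑ 1/n ≤ 2κ + 1/x`, and the weight is `≤ exp (-(|j|-1)_+²)`; finally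
  `∑_j exp (-(|j|-1)_+²) (2κ + e^{-w} e^{|j|κ}) ≤ C (κ + e^{-w})`.
* `mass_le`: `∑_{1 ≤ n ≤ e^y} d(n) ≤ B (y + 1)` for `y ≥ 0`.
-/

namespace Pool.MRZ

open Finset

/-- Gaussian weight -/
noncomputable def gw (κ v : ℝ) : ℝ := Real.exp (-(v / κ) ^ 2)

/-- Gaussian transform of a sequence of coefficients -/
noncomputable def gt (κ : ℝ) (c : ℕ → ℂ) (w : ℝ) : ℂ :=
  ∑' n : ℕ, c n * ((gw κ (Real.log n - w) : ℝ) : ℂ)

/-- `∑_n (g(n)/n) exp (-((log n - w)/κ)²)` -/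
noncomputable def sk (κ : ℝ) (g : ℕ → ℂ) (w : ℝ) : ℂ := gt κ (fun n => g n / (n : ℂ)) w

/-- sequences with bounded mass on every block `[x, e x]` -/
def BB (d : ℕ → ℝ) (B : ℝ) : Prop :=
  (∀ n, 0 ≤ d n) ∧ d 0 = 0 ∧
    ∀ x : ℝ, 1 ≤ x → ∑ n ∈ Finset.Icc ⌈x⌉₊ ⌊Real.exp 1 * x⌋₊, d n ≤ B


/-! ### auxiliary: exponential inequalities -/

lemma gb_exp_two {t : ℝ} (ht : 0 ≤ t) : Real.exp (-t) * (1 + t + t ^ 2 / 2) ≤ 1 := by
  have h := Real.quadratic_le_exp_of_nonneg ht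
  rw [Real.exp_neg, inv_mul_le_iff₀ (Real.exp_pos t), mul_one]
  exact h

lemma gb_exp_sq (v : ℝ) : Real.exp (-v ^ 2) ≤ 1 / (1 + v ^ 2) := by
  have h := gb_exp_two (sq_nonneg v)
  rw [le_div_iff₀ (by positivity)]
  refine le_trans ?_ h
  have h0 := Real.exp_pos (-v ^ 2)
  nlinarith [mul_nonneg h0.le (sq_nonneg (v ^ 2))]

lemma gb_abs_exp_sq (v : ℝ) : |v| * Real.exp (-v ^ 2) ≤ 1 / (1 + v ^ 2) := by
  have h := gb_exp_two (sq_nonneg v)
  rw [le_div_iff₀ (by positivity)]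
  refine le_trans ?_ h
  have h0 := Real.exp_pos (-v ^ 2)
  have h1 : |v| * (1 + v ^ 2) ≤ 1 + v ^ 2 + (v ^ 2) ^ 2 / 2 := by
    rw [← sq_abs v]
    set u := |v|
    have hu : 0 ≤ u := abs_nonneg v
    nlinarith [sq_nonneg (u - 1), sq_nonneg (u ^ 2 - 1), sq_nonneg (u ^ 2 - u), sq_nonneg (u^2)]
  calc |v| * Real.exp (-v ^ 2) * (1 + v ^ 2) = Real.exp (-v ^ 2) * (|v| * (1 + v ^ 2)) := by ring
    _ ≤ _ := mul_le_mul_of_nonneg_left h1 h0.le

lemma gb_lor {u v : ℝ} (h : |u - v| ≤ 1) : 1 / (1 + v ^ 2) ≤ 3 / (1 + u ^ 2) := by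
  rw [div_le_div_iff₀ (by positivity) (by positivity)]
  rw [abs_le] at h
  nlinarith [sq_nonneg (u - v), sq_nonneg (v - (u - v)), sq_nonneg (v + (u - v)), h.1, h.2,
    mul_nonneg (by linarith : (0 : ℝ) ≤ 1 - (u - v)) (by linarith : (0 : ℝ) ≤ 1 + (u - v))]

lemma gb_exp_sub {x y m : ℝ} (hx : m ≤ x) (hy : m ≤ y) :
    |Real.exp (-x) - Real.exp (-y)| ≤ |x - y| * Real.exp (-m) := by
  wlog hxy : x ≤ y generalizing x y
  · rw [abs_sub_comm, abs_sub_comm x y]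
    exact this hy hx (by linarith)
  · have h1 : 0 ≤ Real.exp (-x) - Real.exp (-y) := by
      have := Real.exp_le_exp.mpr (neg_le_neg hxy)
      linarith
    rw [abs_of_nonneg h1, abs_sub_comm, abs_of_nonneg (by linarith : (0 : ℝ) ≤ y - x)]
    have h2 : Real.exp (-y) = Real.exp (-x) * Real.exp (-(y - x)) := by
      rw [← Real.exp_add]; congr 1; ring
    have h3 : 1 - (y - x) ≤ Real.exp (-(y - x)) := by
      have := Real.add_one_le_exp (-(y - x))
      linarith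
    have h4 := Real.exp_pos (-x)
    have h5 : Real.exp (-x) ≤ Real.exp (-m) := Real.exp_le_exp.mpr (by linarith)
    rw [h2]
    calc Real.exp (-x) - Real.exp (-x) * Real.exp (-(y - x))
        = Real.exp (-x) * (1 - Real.exp (-(y - x))) := by ring
      _ ≤ Real.exp (-x) * (y - x) := mul_le_mul_of_nonneg_left (by linarith) h4.le
      _ ≤ Real.exp (-m) * (y - x) := mul_le_mul_of_nonneg_right h5 (by linarith)
      _ = _ := by ring

lemma gb_diff {a b : ℝ} (h : |a - b| ≤ 1) :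
    |Real.exp (-a ^ 2) - Real.exp (-b ^ 2)| ≤ 13 * |a - b| * (1 / (1 + a ^ 2)) := by
  set u : ℝ := max (|a| - 1) 0 with hu
  have hu0 : 0 ≤ u := le_max_right _ _
  have hau : |a| ≤ u + 1 := by have := le_max_left (|a| - 1) 0; linarith
  have hb : |a| - 1 ≤ |b| := by
    have := abs_sub_abs_le_abs_sub a b
    linarith
  have hm1 : u ^ 2 ≤ a ^ 2 := by
    rw [← sq_abs a]
    have : u ≤ |a| := max_le (by linarith) (abs_nonneg a)
    exact pow_le_pow_left₀ hu0 this 2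
  have hm2 : u ^ 2 ≤ b ^ 2 := by
    rw [← sq_abs b]
    have : u ≤ |b| := max_le hb (abs_nonneg b)
    exact pow_le_pow_left₀ hu0 this 2
  have h1 := gb_exp_sub hm1 hm2
  have h2 : |a ^ 2 - b ^ 2| ≤ |a - b| * (2 * u + 3) := by
    have : a ^ 2 - b ^ 2 = (a - b) * (a + b) := by ring
    rw [this, abs_mul]
    refine mul_le_mul_of_nonneg_left ?_ (abs_nonneg _)
    have h3 : a + b = 2 * a - (a - b) := by ring
    rw [h3]
    have h4 := abs_sub (2 * a) (a - b)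
    rw [abs_mul, abs_two] at h4
    linarith
  have h3 := gb_exp_two (sq_nonneg u)
  have h0 := Real.exp_pos (-u ^ 2)
  have h5 : (2 * u + 3) * (1 + a ^ 2) ≤ 13 * (1 + u ^ 2 + (u ^ 2) ^ 2 / 2) := by
    have h6 : a ^ 2 ≤ (u + 1) ^ 2 := by
      rw [← sq_abs a]; exact pow_le_pow_left₀ (abs_nonneg a) hau 2
    have h7 : (2 * u + 3) * (1 + a ^ 2) ≤ (2 * u + 3) * (1 + (u + 1) ^ 2) :=
      mul_le_mul_of_nonneg_left (by linarith) (by linarith)
    refine h7.trans ?_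
    nlinarith [sq_nonneg (u - 1), sq_nonneg (u ^ 2 - u), sq_nonneg u, sq_nonneg (u ^ 2),
      mul_nonneg hu0 (sq_nonneg (u - 1))]
  rw [mul_one_div, le_div_iff₀ (by positivity)]
  calc |Real.exp (-a ^ 2) - Real.exp (-b ^ 2)| * (1 + a ^ 2)
      ≤ (|a - b| * (2 * u + 3) * Real.exp (-u ^ 2)) * (1 + a ^ 2) := by
        refine mul_le_mul_of_nonneg_right (h1.trans ?_) (by positivity)
        exact mul_le_mul_of_nonneg_right h2 h0.le
    _ = |a - b| * Real.exp (-u ^ 2) * ((2 * u + 3) * (1 + a ^ 2)) := by ring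
    _ ≤ |a - b| * Real.exp (-u ^ 2) * (13 * (1 + u ^ 2 + (u ^ 2) ^ 2 / 2)) :=
        mul_le_mul_of_nonneg_left h5 (by positivity)
    _ = 13 * |a - b| * (Real.exp (-u ^ 2) * (1 + u ^ 2 + (u ^ 2) ^ 2 / 2)) := by ring
    _ ≤ 13 * |a - b| * 1 := mul_le_mul_of_nonneg_left h3 (by positivity)
    _ = 13 * |a - b| := mul_one _

/-! ### auxiliary: sums over blocks -/


lemma gb_int_summable : Summable (fun j : ℤ => 1 / (1 + (j : ℝ) ^ 2)) := by
  have h : Summable (fun n : ℕ => 1 / (1 + (n : ℝ) ^ 2)) := by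
    have h1 : Summable (fun n : ℕ => 2 * (1 / ((n + 1 : ℕ) : ℝ) ^ 2)) :=
      ((summable_nat_add_iff 1).mpr (Real.summable_one_div_nat_pow.mpr one_lt_two)).mul_left 2
    refine Summable.of_nonneg_of_le (fun n => by positivity) (fun n => ?_) h1
    push_cast
    rw [mul_one_div, div_le_div_iff₀ (by positivity) (by positivity)]
    nlinarith [sq_nonneg ((n : ℝ) - 1)]
  refine Summable.of_nat_of_neg ?_ ?_
  · simpa using h
  · simpa using h

/-- the constant `∑_j 1/(1+j²)` -/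
noncomputable def gbK : ℝ := ∑' j : ℤ, 1 / (1 + (j : ℝ) ^ 2)

lemma gbK_pos : 0 < gbK := by
  unfold gbK
  refine gb_int_summable.tsum_pos (fun j => by positivity) 0 (by norm_num)

lemma gb_lorentz (w : ℝ) : Summable (fun k : ℕ => 1 / (1 + ((k : ℝ) - w) ^ 2)) ∧
    ∑' k : ℕ, 1 / (1 + ((k : ℝ) - w) ^ 2) ≤ 3 * gbK := by
  set m : ℤ := ⌊w⌋ with hm
  have hinj : Function.Injective (fun k : ℕ => (k : ℤ) - m) := by
    intro a b hab
    simp only at hab
    omega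
  have hs : Summable (fun k : ℕ => 1 / (1 + (((k : ℤ) - m : ℤ) : ℝ) ^ 2)) :=
    gb_int_summable.comp_injective hinj
  have hle : ∀ k : ℕ, 1 / (1 + ((k : ℝ) - w) ^ 2) ≤ 3 * (1 / (1 + (((k : ℤ) - m : ℤ) : ℝ) ^ 2)) := by
    intro k
    rw [mul_one_div]
    refine gb_lor ?_
    push_cast
    have h1 := Int.floor_le w
    have h2 := Int.lt_floor_add_one w
    rw [abs_le]
    constructor <;> linarith
  have hsum : Summable (fun k : ℕ => 1 / (1 + ((k : ℝ) - w) ^ 2)) :=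
    Summable.of_nonneg_of_le (fun k => by positivity) hle (hs.mul_left 3)
  refine ⟨hsum, ?_⟩
  calc ∑' k : ℕ, 1 / (1 + ((k : ℝ) - w) ^ 2)
      ≤ ∑' k : ℕ, 3 * (1 / (1 + (((k : ℤ) - m : ℤ) : ℝ) ^ 2)) :=
        hsum.tsum_le_tsum hle (hs.mul_left 3)
    _ = 3 * ∑' k : ℕ, (1 / (1 + (((k : ℤ) - m : ℤ) : ℝ) ^ 2)) := tsum_mul_left
    _ ≤ 3 * gbK := by
        refine mul_le_mul_of_nonneg_left ?_ (by norm_num)
        exact tsum_comp_le_tsum_of_inj gb_int_summable (fun j => by positivity) hinj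

/-- summation over the fibres of a map -/
lemma gb_fiber {ι : Type*} [DecidableEq ι] (f : ℕ → ℝ) (hf : ∀ n, 0 ≤ f n) (g : ℕ → ι)
    (b : ι → ℝ) (hb : Summable b) (hb0 : ∀ i, 0 ≤ b i)
    (h : ∀ (N : ℕ) (i : ι), ∑ n ∈ (Finset.range N).filter (fun n => g n = i), f n ≤ b i) :
    Summable f ∧ ∑' n, f n ≤ ∑' i, b i := by
  have key : ∀ N : ℕ, ∑ n ∈ Finset.range N, f n ≤ ∑' i, b i := by
    intro N
    rw [← Finset.sum_fiberwise_of_maps_to (s := Finset.range N) (t := (Finset.range N).image g)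
      (g := g) (fun n hn => Finset.mem_image_of_mem g hn)]
    calc ∑ i ∈ (Finset.range N).image g, ∑ n ∈ (Finset.range N).filter (fun n => g n = i), f n
        ≤ ∑ i ∈ (Finset.range N).image g, b i := Finset.sum_le_sum fun i _ => h N i
      _ ≤ ∑' i, b i := hb.sum_le_tsum _ (fun i _ => hb0 i)
  exact ⟨summable_of_sum_range_le hf key, Real.tsum_le_of_sum_range_le hf key⟩

lemma BB.nonneg {d : ℕ → ℝ} {B : ℝ} (hd : BB d B) : 0 ≤ B :=
  (Finset.sum_nonneg fun n _ => hd.1 n).trans (hd.2.2 1 le_rfl)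

/-- the block `k ≤ log n < k+1` -/
lemma gb_block {d : ℕ → ℝ} {B : ℝ} (hd : BB d B) (s : Finset ℕ) (k : ℕ) :
    ∑ n ∈ s.filter (fun n : ℕ => ⌊Real.log n⌋₊ = k), d n ≤ B := by
  have h1 : ∑ n ∈ s.filter (fun n : ℕ => ⌊Real.log n⌋₊ = k), d n
      = ∑ n ∈ (s.filter (fun n : ℕ => ⌊Real.log n⌋₊ = k)).filter (fun n => n ≠ 0), d n := by
    symm
    refine Finset.sum_filter_of_ne ?_
    intro n _ hn h0
    exact hn (by rw [h0]; exact hd.2.1)
  rw [h1]
  refine le_trans (Finset.sum_le_sum_of_subset_of_nonneg ?_ fun n _ _ => hd.1 n)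
    (hd.2.2 (Real.exp k) (Real.one_le_exp (Nat.cast_nonneg k)))
  intro n hn
  simp only [Finset.mem_filter] at hn
  obtain ⟨⟨_, hk⟩, hn0⟩ := hn
  have hn1 : (1 : ℝ) ≤ n := by exact_mod_cast Nat.one_le_iff_ne_zero.mpr hn0
  have hlog : 0 ≤ Real.log n := Real.log_nonneg hn1
  have h2 : (k : ℝ) ≤ Real.log n := by rw [← hk]; exact Nat.floor_le hlog
  have h3 : Real.log n < k + 1 := by rw [← hk]; exact Nat.lt_floor_add_one _
  rw [Finset.mem_Icc, Nat.ceil_le, Nat.le_floor_iff (by positivity)]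
  constructor
  · rw [← Real.le_log_iff_exp_le (by linarith)]; exact h2
  · rw [← Real.exp_add, ← Real.log_le_iff_le_exp (by linarith)]; linarith

/-- master lemma: an envelope on the blocks `k ≤ log n < k+1` -/
lemma gb_envelope {d : ℕ → ℝ} {B : ℝ} (hd : BB d B) (φ : ℕ → ℝ) (hφ : ∀ n, 0 ≤ φ n)
    (a : ℕ → ℝ) (ha : Summable a) (ha0 : ∀ k, 0 ≤ a k)
    (h : ∀ n : ℕ, 1 ≤ n → ∀ k : ℕ, (k : ℝ) ≤ Real.log n → Real.log n < k + 1 → φ n ≤ a k) :
    Summable (fun n : ℕ => d n * φ n) ∧ ∑' n : ℕ, d n * φ n ≤ B * ∑' k, a k := by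
  rw [← tsum_mul_left]
  refine gb_fiber (fun n => d n * φ n) (fun n => mul_nonneg (hd.1 n) (hφ n))
    (fun n => ⌊Real.log n⌋₊) (fun k => B * a k) (ha.mul_left B)
    (fun k => mul_nonneg hd.nonneg (ha0 k)) ?_
  intro N k
  calc ∑ n ∈ (Finset.range N).filter (fun n : ℕ => ⌊Real.log n⌋₊ = k), d n * φ n
      ≤ ∑ n ∈ (Finset.range N).filter (fun n : ℕ => ⌊Real.log n⌋₊ = k), d n * a k := by
        refine Finset.sum_le_sum fun n hn => ?_
        rw [Finset.mem_filter] at hn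
        rcases Nat.eq_zero_or_pos n with h0 | h0
        · rw [h0, hd.2.1]; simp
        · refine mul_le_mul_of_nonneg_left ?_ (hd.1 n)
          have hn1 : (1 : ℝ) ≤ n := by exact_mod_cast h0
          have hlog : 0 ≤ Real.log n := Real.log_nonneg hn1
          refine h n h0 k ?_ ?_
          · rw [← hn.2]; exact Nat.floor_le hlog
          · rw [← hn.2]; exact Nat.lt_floor_add_one _
    _ = (∑ n ∈ (Finset.range N).filter (fun n : ℕ => ⌊Real.log n⌋₊ = k), d n) * a k := by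
        rw [Finset.sum_mul]
    _ ≤ B * a k := mul_le_mul_of_nonneg_right (gb_block hd _ k) (ha0 k)

lemma gb_gw_nonneg (κ v : ℝ) : 0 ≤ gw κ v := (Real.exp_pos _).le

lemma gb_sq_le {κ : ℝ} (h0 : 0 < κ) (h1 : κ ≤ 1) (v : ℝ) : v ^ 2 ≤ (v / κ) ^ 2 := by
  rw [div_pow, le_div_iff₀ (by positivity)]
  have : κ ^ 2 ≤ 1 := by nlinarith
  nlinarith [sq_nonneg v]

lemma gb_gw_le {κ : ℝ} (h0 : 0 < κ) (h1 : κ ≤ 1) (v : ℝ) : gw κ v ≤ Real.exp (-v ^ 2) :=
  Real.exp_le_exp.mpr (neg_le_neg (gb_sq_le h0 h1 v))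

theorem bb_one : BB (fun n => 1 / (n : ℝ)) 3 := by
  refine ⟨fun n => by positivity, by simp, fun x hx => ?_⟩
  have hx0 : 0 < x := by linarith
  have he : Real.exp 1 < 3 := by
    have := Real.exp_one_lt_d9; linarith
  have he1 : 1 ≤ Real.exp 1 := Real.one_le_exp (by norm_num)
  calc ∑ n ∈ Finset.Icc ⌈x⌉₊ ⌊Real.exp 1 * x⌋₊, 1 / (n : ℝ)
      ≤ ∑ n ∈ Finset.Icc ⌈x⌉₊ ⌊Real.exp 1 * x⌋₊, 1 / x := by
        refine Finset.sum_le_sum fun n hn => ?_
        rw [Finset.mem_Icc, Nat.ceil_le] at hn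
        exact one_div_le_one_div_of_le hx0 hn.1
    _ = ((Finset.Icc ⌈x⌉₊ ⌊Real.exp 1 * x⌋₊).card : ℝ) * (1 / x) := by
        rw [Finset.sum_const, nsmul_eq_mul]
    _ ≤ (Real.exp 1 * x - x + 1) * (1 / x) := by
        refine mul_le_mul_of_nonneg_right ?_ (by positivity)
        rw [Nat.card_Icc]
        rcases Nat.lt_or_ge (⌊Real.exp 1 * x⌋₊ + 1) ⌈x⌉₊ with h | h
        · rw [Nat.sub_eq_zero_of_le h.le]
          push_cast
          nlinarith
        · rw [Nat.cast_sub h]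
          push_cast
          have h1 := Nat.floor_le (by positivity : 0 ≤ Real.exp 1 * x)
          have h2 := Nat.le_ceil x
          linarith
    _ ≤ 3 := by
        rw [mul_one_div, div_le_iff₀ hx0]
        nlinarith

theorem bb_vm : ∃ B : ℝ, 0 < B ∧ BB (fun n => ArithmeticFunction.vonMangoldt n / (n : ℝ)) B := by
  have h4 : 0 < Real.log 4 := Real.log_pos (by norm_num)
  refine ⟨(Real.log 4 + 4) * Real.exp 1, by positivity,
    fun n => div_nonneg ArithmeticFunction.vonMangoldt_nonneg (Nat.cast_nonneg n), by simp,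
    fun x hx => ?_⟩
  have hx0 : 0 < x := by linarith
  calc ∑ n ∈ Finset.Icc ⌈x⌉₊ ⌊Real.exp 1 * x⌋₊, ArithmeticFunction.vonMangoldt n / (n : ℝ)
      ≤ ∑ n ∈ Finset.Icc ⌈x⌉₊ ⌊Real.exp 1 * x⌋₊, ArithmeticFunction.vonMangoldt n / x := by
        refine Finset.sum_le_sum fun n hn => ?_
        rw [Finset.mem_Icc, Nat.ceil_le] at hn
        exact div_le_div_of_nonneg_left ArithmeticFunction.vonMangoldt_nonneg hx0 hn.1
    _ = (∑ n ∈ Finset.Icc ⌈x⌉₊ ⌊Real.exp 1 * x⌋₊, ArithmeticFunction.vonMangoldt n) / x := by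
        rw [Finset.sum_div]
    _ ≤ (Chebyshev.psi (Real.exp 1 * x)) / x := by
        refine div_le_div_of_nonneg_right ?_ hx0.le
        unfold Chebyshev.psi
        refine Finset.sum_le_sum_of_subset_of_nonneg ?_
          fun n _ _ => ArithmeticFunction.vonMangoldt_nonneg
        intro n hn
        rw [Finset.mem_Icc] at hn
        rw [Finset.mem_Ioc]
        refine ⟨?_, hn.2⟩
        have : 0 < ⌈x⌉₊ := Nat.ceil_pos.mpr hx0
        omega
    _ ≤ ((Real.log 4 + 4) * (Real.exp 1 * x)) / x :=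
        div_le_div_of_nonneg_right (Chebyshev.psi_le_const_mul_self (by positivity)) hx0.le
    _ = (Real.log 4 + 4) * Real.exp 1 := by
        field_simp

theorem mass_le (d : ℕ → ℝ) (B y : ℝ) (hd : BB d B) (hy : 0 ≤ y) :
    ∑ n ∈ Finset.Icc 1 ⌊Real.exp y⌋₊, d n ≤ B * (y + 1) := by
  have hmaps : ∀ n ∈ Finset.Icc 1 ⌊Real.exp y⌋₊, ⌊Real.log n⌋₊ ∈ Finset.range (⌊y⌋₊ + 1) := by
    intro n hn
    rw [Finset.mem_Icc, Nat.le_floor_iff (Real.exp_pos y).le] at hn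
    rw [Finset.mem_range, Nat.lt_succ_iff]
    refine Nat.floor_le_floor ?_
    have hn1 : (0 : ℝ) < n := by exact_mod_cast hn.1
    rw [Real.log_le_iff_le_exp hn1]
    exact hn.2
  rw [← Finset.sum_fiberwise_of_maps_to hmaps]
  calc ∑ k ∈ Finset.range (⌊y⌋₊ + 1), ∑ n ∈ (Finset.Icc 1 ⌊Real.exp y⌋₊).filter
        (fun n : ℕ => ⌊Real.log n⌋₊ = k), d n
      ≤ ∑ k ∈ Finset.range (⌊y⌋₊ + 1), B := Finset.sum_le_sum fun k _ => gb_block hd _ k
    _ = B * ((⌊y⌋₊ : ℝ) + 1) := by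
        rw [Finset.sum_const, Finset.card_range, nsmul_eq_mul]; push_cast; ring
    _ ≤ B * (y + 1) := by
        refine mul_le_mul_of_nonneg_left ?_ hd.nonneg
        have := Nat.floor_le hy
        linarith

lemma gb_kw {n k : ℕ} (w : ℝ) (h1 : (k : ℝ) ≤ Real.log n) (h2 : Real.log n < k + 1) :
    |((k : ℝ) - w) - (Real.log n - w)| ≤ 1 := by
  rw [abs_le]
  constructor <;> linarith

theorem gauss_sum : ∃ C : ℝ, 0 < C ∧ ∀ (d : ℕ → ℝ) (B κ w : ℝ), BB d B → 0 < κ → κ ≤ 1 →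
    Summable (fun n : ℕ => d n * gw κ (Real.log n - w)) ∧
      ∑' n : ℕ, d n * gw κ (Real.log n - w) ≤ C * B := by
  have hK := gbK_pos
  refine ⟨3 * (3 * gbK), by positivity, fun d B κ w hd h0 h1 => ?_⟩
  obtain ⟨hs, hle⟩ := gb_lorentz w
  have h := gb_envelope hd (fun n => gw κ (Real.log n - w)) (fun n => gb_gw_nonneg _ _)
    (fun k : ℕ => 3 * (1 / (1 + ((k : ℝ) - w) ^ 2))) (hs.mul_left 3) (fun k => by positivity) ?_
  · refine ⟨h.1, h.2.trans ?_⟩
    rw [tsum_mul_left, mul_comm]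
    exact mul_le_mul_of_nonneg_right (mul_le_mul_of_nonneg_left hle (by norm_num)) hd.nonneg
  · intro n _ k hk1 hk2
    refine (gb_gw_le h0 h1 _).trans ((gb_exp_sq _).trans ?_)
    rw [mul_one_div]
    exact gb_lor (gb_kw w hk1 hk2)

theorem gauss_neg : ∃ C : ℝ, 0 < C ∧ ∀ (d : ℕ → ℝ) (B κ w : ℝ), BB d B → 0 < κ → κ ≤ 1 → w ≤ 0 →
    ∑' n : ℕ, d n * gw κ (Real.log n - w) ≤ C * B * Real.exp (-w ^ 2) := by
  have hK := gbK_pos
  refine ⟨3 * (3 * gbK), by positivity, fun d B κ w hd h0 h1 hw => ?_⟩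
  obtain ⟨hs, hle⟩ := gb_lorentz 0
  have h := gb_envelope hd (fun n => gw κ (Real.log n - w)) (fun n => gb_gw_nonneg _ _)
    (fun k : ℕ => (3 * Real.exp (-w ^ 2)) * (1 / (1 + ((k : ℝ) - 0) ^ 2)))
    (hs.mul_left _) (fun k => by positivity) ?_
  · refine h.2.trans ?_
    rw [tsum_mul_left]
    calc B * (3 * Real.exp (-w ^ 2) * ∑' k : ℕ, 1 / (1 + ((k : ℝ) - 0) ^ 2))
        ≤ B * (3 * Real.exp (-w ^ 2) * (3 * gbK)) :=
          mul_le_mul_of_nonneg_left (mul_le_mul_of_nonneg_left hle (by positivity)) hd.nonneg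
      _ = _ := by ring
  · intro n hn k hk1 hk2
    have hn1 : (1 : ℝ) ≤ n := by exact_mod_cast hn
    have hlog : 0 ≤ Real.log n := Real.log_nonneg hn1
    have h3 : Real.exp (-(Real.log n - w) ^ 2)
        ≤ Real.exp (-w ^ 2) * Real.exp (-(Real.log n - 0) ^ 2) := by
      rw [← Real.exp_add]
      refine Real.exp_le_exp.mpr ?_
      nlinarith [mul_nonneg hlog (neg_nonneg.mpr hw)]
    refine (gb_gw_le h0 h1 _).trans (h3.trans ?_)
    calc Real.exp (-w ^ 2) * Real.exp (-(Real.log n - 0) ^ 2)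
        ≤ Real.exp (-w ^ 2) * (3 / (1 + ((k : ℝ) - 0) ^ 2)) := by
          refine mul_le_mul_of_nonneg_left ((gb_exp_sq _).trans ?_) (Real.exp_pos _).le
          exact gb_lor (gb_kw 0 hk1 hk2)
      _ = _ := by ring

theorem gauss_abs : ∃ C : ℝ, 0 < C ∧ ∀ (d : ℕ → ℝ) (B κ w : ℝ), BB d B → 0 < κ → κ ≤ 1 →
    Summable (fun n : ℕ => d n * (|Real.log n - w| * gw κ (Real.log n - w))) ∧
      ∑' n : ℕ, d n * (|Real.log n - w| * gw κ (Real.log n - w)) ≤ C * B := by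
  have hK := gbK_pos
  refine ⟨3 * (3 * gbK), by positivity, fun d B κ w hd h0 h1 => ?_⟩
  obtain ⟨hs, hle⟩ := gb_lorentz w
  have h := gb_envelope hd (fun n => |Real.log n - w| * gw κ (Real.log n - w))
    (fun n => mul_nonneg (abs_nonneg _) (gb_gw_nonneg _ _))
    (fun k : ℕ => 3 * (1 / (1 + ((k : ℝ) - w) ^ 2))) (hs.mul_left 3) (fun k => by positivity) ?_
  · refine ⟨h.1, h.2.trans ?_⟩
    rw [tsum_mul_left, mul_comm]
    exact mul_le_mul_of_nonneg_right (mul_le_mul_of_nonneg_left hle (by norm_num)) hd.nonneg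
  · intro n _ k hk1 hk2
    refine (mul_le_mul_of_nonneg_left (gb_gw_le h0 h1 _) (abs_nonneg _)).trans
      ((gb_abs_exp_sq _).trans ?_)
    rw [mul_one_div]
    exact gb_lor (gb_kw w hk1 hk2)

theorem gauss_lip : ∃ C : ℝ, 0 < C ∧ ∀ (d : ℕ → ℝ) (B κ w w' : ℝ), BB d B → 0 < κ → κ ≤ 1 →
    |w - w'| ≤ κ →
    ∑' n : ℕ, d n * |gw κ (Real.log n - w) - gw κ (Real.log n - w')| ≤ C * B * |w - w'| / κ := by
  have hK := gbK_pos
  refine ⟨39 * (3 * gbK), by positivity, fun d B κ w w' hd h0 h1 hww => ?_⟩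
  obtain ⟨hs, hle⟩ := gb_lorentz w
  have h := gb_envelope hd (fun n => |gw κ (Real.log n - w) - gw κ (Real.log n - w')|)
    (fun n => abs_nonneg _)
    (fun k : ℕ => (39 * (|w - w'| / κ)) * (1 / (1 + ((k : ℝ) - w) ^ 2)))
    (hs.mul_left _) (fun k => by positivity) ?_
  · refine h.2.trans ?_
    rw [tsum_mul_left]
    calc B * (39 * (|w - w'| / κ) * ∑' k : ℕ, 1 / (1 + ((k : ℝ) - w) ^ 2))
        ≤ B * (39 * (|w - w'| / κ) * (3 * gbK)) :=
          mul_le_mul_of_nonneg_left (mul_le_mul_of_nonneg_left hle (by positivity)) hd.nonneg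
      _ = _ := by ring
  · intro n _ k hk1 hk2
    have hab : |(Real.log n - w) / κ - (Real.log n - w') / κ| = |w - w'| / κ := by
      rw [← sub_div, abs_div, abs_of_pos h0]
      congr 1
      rw [← abs_neg]
      congr 1
      ring
    have h3 := gb_diff (a := (Real.log n - w) / κ) (b := (Real.log n - w') / κ)
      (by rw [hab, div_le_one h0]; exact hww)
    rw [hab] at h3
    unfold gw
    refine h3.trans ?_
    calc 13 * (|w - w'| / κ) * (1 / (1 + ((Real.log n - w) / κ) ^ 2))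
        ≤ 13 * (|w - w'| / κ) * (3 / (1 + ((k : ℝ) - w) ^ 2)) := by
          refine mul_le_mul_of_nonneg_left ?_ (by positivity)
          refine le_trans ?_ (gb_lor (gb_kw w hk1 hk2))
          refine one_div_le_one_div_of_le (by positivity) ?_
          have := gb_sq_le h0 h1 (Real.log n - w)
          linarith
      _ = _ := by ring

lemma gb_exp_j {u : ℝ} {j : ℤ} (h1 : (j : ℝ) ≤ u) (h2 : u < j + 1) :
    Real.exp (-u ^ 2) ≤ 6 * Real.exp (3 / 2) * Real.exp (-|(j : ℝ)|) * (1 / (1 + (j : ℝ) ^ 2)) := by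
  have hj : |(j : ℝ)| ≤ |u| + 1 := by
    have h3 : |(j : ℝ) - u| ≤ 1 := by rw [abs_le]; constructor <;> linarith
    have h4 := abs_sub_abs_le_abs_sub (j : ℝ) u
    linarith
  have hu : |u| ≤ u ^ 2 / 2 + 1 / 2 := by
    rw [← sq_abs u]; nlinarith [sq_nonneg (|u| - 1)]
  have h5 : Real.exp (-u ^ 2) ≤ Real.exp (3 / 2) * Real.exp (-|(j : ℝ)|) * Real.exp (-(u ^ 2 / 2)) := by
    rw [← Real.exp_add, ← Real.exp_add]
    refine Real.exp_le_exp.mpr ?_
    linarith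
  have h6 : Real.exp (-(u ^ 2 / 2)) ≤ 2 * (1 / (1 + u ^ 2)) := by
    have h7 := gb_exp_two (t := u ^ 2 / 2) (by positivity)
    rw [mul_one_div, le_div_iff₀ (by positivity)]
    have h8 := Real.exp_pos (-(u ^ 2 / 2))
    nlinarith [mul_nonneg h8.le (sq_nonneg (u ^ 2 / 2)), mul_nonneg h8.le (sq_nonneg u)]
  have h9 : 1 / (1 + u ^ 2) ≤ 3 / (1 + (j : ℝ) ^ 2) :=
    gb_lor (by rw [abs_le]; constructor <;> linarith)
  calc Real.exp (-u ^ 2) ≤ Real.exp (3 / 2) * Real.exp (-|(j : ℝ)|) * Real.exp (-(u ^ 2 / 2)) := h5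
    _ ≤ Real.exp (3 / 2) * Real.exp (-|(j : ℝ)|) * (2 * (3 / (1 + (j : ℝ) ^ 2))) := by
        refine mul_le_mul_of_nonneg_left ?_ (by positivity)
        linarith
    _ = _ := by ring

theorem gauss_kappa : ∃ C : ℝ, 0 < C ∧ ∀ (κ w : ℝ), 0 < κ → κ ≤ 1 → 0 ≤ w →
    ∑' n : ℕ, 1 / (n : ℝ) * gw κ (Real.log n - w) ≤ C * (κ + Real.exp (-w)) := by
  have hK := gbK_pos
  refine ⟨2 * (6 * Real.exp (3 / 2)) * gbK, by positivity, fun κ w h0 h1 hw => ?_⟩
  set A : ℝ := 6 * Real.exp (3 / 2) with hA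
  have hA0 : 0 < A := by positivity
  have h := (gb_fiber (fun n : ℕ => 1 / (n : ℝ) * gw κ (Real.log n - w))
    (fun n => mul_nonneg (by positivity) (gb_gw_nonneg _ _))
    (fun n : ℕ => ⌊(Real.log n - w) / κ⌋)
    (fun j : ℤ => (A * (2 * κ + Real.exp (-w))) * (1 / (1 + (j : ℝ) ^ 2)))
    (gb_int_summable.mul_left _) (fun j => by positivity) ?_).2
  · refine h.trans ?_
    rw [tsum_mul_left]
    have h2 : A * (2 * κ + Real.exp (-w)) ≤ 2 * A * (κ + Real.exp (-w)) := by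
      have := Real.exp_pos (-w)
      nlinarith [mul_pos hA0 this]
    calc A * (2 * κ + Real.exp (-w)) * gbK ≤ 2 * A * (κ + Real.exp (-w)) * gbK :=
          mul_le_mul_of_nonneg_right h2 hK.le
      _ = _ := by ring
  · intro N j
    set x : ℝ := Real.exp (w + j * κ) with hx
    have hx0 : 0 < x := Real.exp_pos _
    -- the weight on the block
    set E : ℝ := A * Real.exp (-|(j : ℝ)|) * (1 / (1 + (j : ℝ) ^ 2)) with hE
    have hE0 : 0 ≤ E := by positivity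
    have hmem : ∀ n : ℕ, n ≠ 0 → ⌊(Real.log n - w) / κ⌋ = j →
        x ≤ n ∧ (n : ℝ) ≤ Real.exp κ * x ∧ gw κ (Real.log n - w) ≤ E := by
      intro n hn hj
      have hn0 : (0 : ℝ) < n := by exact_mod_cast Nat.pos_of_ne_zero hn
      have e1 : (j : ℝ) ≤ (Real.log n - w) / κ := by rw [← hj]; exact Int.floor_le _
      have e2 : (Real.log n - w) / κ < j + 1 := by rw [← hj]; exact Int.lt_floor_add_one _
      refine ⟨?_, ?_, ?_⟩
      · rw [hx, ← Real.le_log_iff_exp_le hn0]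
        rw [le_div_iff₀ h0] at e1
        linarith
      · rw [hx, ← Real.exp_add, ← Real.log_le_iff_le_exp hn0]
        rw [div_lt_iff₀ h0] at e2
        nlinarith
      · exact gb_exp_j e1 e2
    have hcard : (((Finset.range N).filter (fun n : ℕ => ⌊(Real.log n - w) / κ⌋ = j)).filter
        (fun n => n ≠ 0)).card ≤ (2 * κ * x + 1 : ℝ) := by
      have hsub : ((Finset.range N).filter (fun n : ℕ => ⌊(Real.log n - w) / κ⌋ = j)).filter
          (fun n => n ≠ 0) ⊆ Finset.Icc ⌈x⌉₊ ⌊Real.exp κ * x⌋₊ := by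
        intro n hn
        simp only [Finset.mem_filter] at hn
        have := hmem n hn.2 hn.1.2
        rw [Finset.mem_Icc, Nat.ceil_le, Nat.le_floor_iff (by positivity)]
        exact ⟨this.1, this.2.1⟩
      have h3 : ((((Finset.range N).filter (fun n : ℕ => ⌊(Real.log n - w) / κ⌋ = j)).filter
          (fun n => n ≠ 0)).card : ℝ) ≤ ((Finset.Icc ⌈x⌉₊ ⌊Real.exp κ * x⌋₊).card : ℝ) := by
        exact_mod_cast Finset.card_le_card hsub
      refine h3.trans ?_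
      have hek : Real.exp κ - 1 ≤ 2 * κ := by
        have h4 := Real.abs_exp_sub_one_le (x := κ) (by rw [abs_of_pos h0]; exact h1)
        rw [abs_of_pos h0] at h4
        exact (le_abs_self _).trans h4
      have hek1 : 1 ≤ Real.exp κ := Real.one_le_exp h0.le
      rw [Nat.card_Icc]
      rcases Nat.lt_or_ge (⌊Real.exp κ * x⌋₊ + 1) ⌈x⌉₊ with h | h
      · rw [Nat.sub_eq_zero_of_le h.le]
        push_cast
        positivity
      · rw [Nat.cast_sub h]
        push_cast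
        have h5 := Nat.floor_le (by positivity : 0 ≤ Real.exp κ * x)
        have h6 := Nat.le_ceil x
        nlinarith [mul_le_mul_of_nonneg_right hek hx0.le]
    calc ∑ n ∈ (Finset.range N).filter (fun n : ℕ => ⌊(Real.log n - w) / κ⌋ = j),
          1 / (n : ℝ) * gw κ (Real.log n - w)
        = ∑ n ∈ ((Finset.range N).filter (fun n : ℕ => ⌊(Real.log n - w) / κ⌋ = j)).filter
            (fun n => n ≠ 0), 1 / (n : ℝ) * gw κ (Real.log n - w) := by
          symm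
          refine Finset.sum_filter_of_ne ?_
          intro n _ hn h0
          exact hn (by rw [h0]; simp)
      _ ≤ ∑ n ∈ ((Finset.range N).filter (fun n : ℕ => ⌊(Real.log n - w) / κ⌋ = j)).filter
            (fun n => n ≠ 0), 1 / x * E := by
          refine Finset.sum_le_sum fun n hn => ?_
          simp only [Finset.mem_filter] at hn
          have := hmem n hn.2 hn.1.2
          exact mul_le_mul (one_div_le_one_div_of_le hx0 this.1) this.2.2 (gb_gw_nonneg _ _)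
            (by positivity)
      _ = ((((Finset.range N).filter (fun n : ℕ => ⌊(Real.log n - w) / κ⌋ = j)).filter
            (fun n => n ≠ 0)).card : ℝ) * (1 / x * E) := by
          rw [Finset.sum_const, nsmul_eq_mul]
      _ ≤ (2 * κ * x + 1) * (1 / x * E) := mul_le_mul_of_nonneg_right hcard (by positivity)
      _ = (2 * κ + 1 / x) * E := by field_simp
      _ ≤ (A * (2 * κ + Real.exp (-w))) * (1 / (1 + (j : ℝ) ^ 2)) := by
          have hjx : 1 / x * Real.exp (-|(j : ℝ)|) ≤ Real.exp (-w) := by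
            rw [hx, one_div, ← Real.exp_neg, ← Real.exp_add]
            refine Real.exp_le_exp.mpr ?_
            have h7 : -(j * κ) ≤ |(j : ℝ)| := by
              calc -(j * κ) ≤ |(j : ℝ) * κ| := neg_le_abs _
                _ = |(j : ℝ)| * κ := by rw [abs_mul, abs_of_pos h0]
                _ ≤ |(j : ℝ)| * 1 := mul_le_mul_of_nonneg_left h1 (abs_nonneg _)
                _ = _ := mul_one _
            linarith
          have hj1 : Real.exp (-|(j : ℝ)|) ≤ 1 := Real.exp_le_one_iff.mpr (by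
            have := abs_nonneg (j : ℝ); linarith)
          rw [hE]
          have h8 : (2 * κ + 1 / x) * Real.exp (-|(j : ℝ)|) ≤ 2 * κ + Real.exp (-w) := by
            nlinarith
          calc (2 * κ + 1 / x) * (A * Real.exp (-|(j : ℝ)|) * (1 / (1 + (j : ℝ) ^ 2)))
              = A * ((2 * κ + 1 / x) * Real.exp (-|(j : ℝ)|)) * (1 / (1 + (j : ℝ) ^ 2)) := by ring
            _ ≤ A * (2 * κ + Real.exp (-w)) * (1 / (1 + (j : ℝ) ^ 2)) := by
                refine mul_le_mul_of_nonneg_right ?_ (by positivity)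
                exact mul_le_mul_of_nonneg_left h8 hA0.le

end Pool.MRZ
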