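import Mathlib
import Pool.Agent.MRZ.GBase

/-!
# MRZ/HalA: the averaged inequality for `S(y) = sk κ g y`

For `0 < κ ≤ 1` there is `C = C_κ` with: `g` completely multiplicative bounded by one, `0 < τ ≤ κ`, `y ≥ 1`:
`‖S(y)‖ ≤ C ( (1/(τ y)) ∫_0^y ‖S‖ + τ + 1/(τ y) )`.

Proof. All constants may depend on `κ`. `g(n) log n = ∑_{ab=n} Λ(a) g(a) g(b)` (`n ≥ 1`), so by absolute
convergence (`∑_{a,b} Λ(a)/(ab) gw κ (log (ab) - y) = ∑_n (log n/n) gw κ (log n - y) < ∞`)
`D(y) := ∑_n (g(n) log n/n) gw κ (log n - y) = ∑_{a≥1} (Λ(a) g(a)/a) S(y - log a)`.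
* `‖y S(y) - D(y)‖ ≤ ∑ (1/n) |log n - y| gw κ (log n - y) ≤ C` (`gauss_abs`).
* `log a > y`: `‖S(y - log a)‖ ≤ C exp (-(log a - y)²)` (`gauss_neg`), and
  `∑_a (Λ(a)/a) exp (-(log a - y)²) ≤ C` (`gauss_sum` with `κ = 1`, `bb_vm`).
* `log a ≤ y`: blocks `B_k = {a : kτ ≤ y - log a < (k+1)τ}`, `0 ≤ k ≤ y/τ`. For `a ∈ B_k`,
  `w ∈ [kτ,(k+1)τ]`: `‖S(y - log a)‖ ≤ ‖S(w)‖ + C τ` (`gauss_lip`, `C` depends on `κ`); average over `w`:
  `‖S(y - log a)‖ ≤ (1/τ) ∫_{kτ}^{(k+1)τ} ‖S‖ + Cτ`. The mass `∑_{a∈B_k} Λ(a)/a ≤ B` (`bb_vm`, log-length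
  `τ ≤ 1`), the total mass `∑_{log a ≤ y} Λ(a)/a ≤ B (y+1)` (`mass_le`). So this part is at most
  `(B/τ) ∫_0^{y+τ} ‖S‖ + C τ B (y+1)`, and `∫_y^{y+τ} ‖S‖ ≤ C τ` (`‖S‖ ≤ C` by `gauss_sum`).
Altogether `y ‖S(y)‖ ≤ (C/τ) ∫_0^y ‖S‖ + C τ y + C`; divide by `y`.
(`S` is continuous by `gauss_lip`, so all integrals make sense.)
-/

namespace Pool.MRZ

open Finset

private lemma ha_gw_nonneg (κ v : ℝ) : 0 ≤ gw κ v := (Real.exp_pos _).le

private lemma ha_norm_term (κ w : ℝ) (g : ℕ → ℂ) (hg : ∀ n, ‖g n‖ ≤ 1) (n : ℕ) :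
    ‖g n / (n : ℂ) * ((gw κ (Real.log n - w) : ℝ) : ℂ)‖ ≤
      1 / (n : ℝ) * gw κ (Real.log n - w) := by
  rw [norm_mul, norm_div, Complex.norm_natCast, Complex.norm_real,
    Real.norm_of_nonneg (ha_gw_nonneg _ _)]
  exact mul_le_mul_of_nonneg_right (div_le_div_of_nonneg_right (hg n) (Nat.cast_nonneg n))
    (Real.exp_pos _).le

private lemma ha_summable (κ w : ℝ) (hκ : 0 < κ) (hκ1 : κ ≤ 1) (g : ℕ → ℂ)
    (hg : ∀ n, ‖g n‖ ≤ 1) :
    Summable (fun n : ℕ => g n / (n : ℂ) * ((gw κ (Real.log n - w) : ℝ) : ℂ)) := by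
  obtain ⟨C, -, hC⟩ := gauss_sum
  exact Summable.of_norm_bounded (hC _ 3 κ w bb_one hκ hκ1).1 (ha_norm_term κ w g hg)

theorem sk_bdd : ∃ C : ℝ, 0 < C ∧ ∀ (κ w : ℝ) (g : ℕ → ℂ), 0 < κ → κ ≤ 1 → (∀ n, ‖g n‖ ≤ 1) →
    ‖sk κ g w‖ ≤ C := by
  obtain ⟨C, hC0, hC⟩ := gauss_sum
  refine ⟨C * 3, by positivity, fun κ w g hκ hκ1 hg => ?_⟩
  obtain ⟨h1, h2⟩ := hC _ 3 κ w bb_one hκ hκ1
  exact (tsum_of_norm_bounded h1.hasSum (ha_norm_term κ w g hg)).trans h2

private lemma ha_neg : ∃ C : ℝ, 0 < C ∧ ∀ (κ w : ℝ) (g : ℕ → ℂ), 0 < κ → κ ≤ 1 →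
    (∀ n, ‖g n‖ ≤ 1) → w ≤ 0 → ‖sk κ g w‖ ≤ C * Real.exp (-w ^ 2) := by
  obtain ⟨C, hC0, hC⟩ := gauss_neg
  obtain ⟨C', -, hC'⟩ := gauss_sum
  refine ⟨C * 3, by positivity, fun κ w g hκ hκ1 hg hw => ?_⟩
  obtain ⟨h1, -⟩ := hC' _ 3 κ w bb_one hκ hκ1
  exact (tsum_of_norm_bounded h1.hasSum (ha_norm_term κ w g hg)).trans
    (hC _ 3 κ w bb_one hκ hκ1 hw)

private lemma ha_lip : ∃ C : ℝ, 0 < C ∧ ∀ (κ w w' : ℝ) (g : ℕ → ℂ), 0 < κ → κ ≤ 1 →
    (∀ n, ‖g n‖ ≤ 1) → |w - w'| ≤ κ → ‖sk κ g w - sk κ g w'‖ ≤ C * |w - w'| / κ := by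
  obtain ⟨C, hC0, hC⟩ := gauss_lip
  obtain ⟨C', -, hC'⟩ := gauss_sum
  refine ⟨C * 3, by positivity, fun κ w w' g hκ hκ1 hg hw => ?_⟩
  obtain ⟨h1, -⟩ := hC' _ 3 κ w bb_one hκ hκ1
  obtain ⟨h1', -⟩ := hC' _ 3 κ w' bb_one hκ hκ1
  have hsum : Summable (fun n : ℕ => 1 / (n : ℝ) *
      |gw κ (Real.log n - w) - gw κ (Real.log n - w')|) := by
    refine Summable.of_nonneg_of_le (fun n => by positivity) (fun n => ?_) (h1.add h1')
    rw [← mul_add]
    apply mul_le_mul_of_nonneg_left _ (by positivity)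
    have a1 : 0 < gw κ (Real.log n - w) := Real.exp_pos _
    have a2 : 0 < gw κ (Real.log n - w') := Real.exp_pos _
    rw [abs_le]
    constructor <;> linarith
  have hsub : sk κ g w - sk κ g w' = ∑' n : ℕ, (g n / (n : ℂ) *
      ((gw κ (Real.log n - w) : ℝ) : ℂ) - g n / (n : ℂ) * ((gw κ (Real.log n - w') : ℝ) : ℂ)) :=
    ((ha_summable κ w hκ hκ1 g hg).tsum_sub (ha_summable κ w' hκ hκ1 g hg)).symm
  rw [hsub]
  refine (tsum_of_norm_bounded hsum.hasSum fun n => ?_).trans (hC _ 3 κ w w' bb_one hκ hκ1 hw)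
  rw [← mul_sub, ← Complex.ofReal_sub, norm_mul, norm_div, Complex.norm_natCast,
    Complex.norm_real, Real.norm_eq_abs]
  exact mul_le_mul_of_nonneg_right (div_le_div_of_nonneg_right (hg n) (Nat.cast_nonneg n))
    (abs_nonneg _)

theorem sk_continuous (κ : ℝ) (hκ : 0 < κ) (hκ1 : κ ≤ 1) (g : ℕ → ℂ) (hg : ∀ n, ‖g n‖ ≤ 1) :
    Continuous (sk κ g) := by
  obtain ⟨C, hC0, hC⟩ := ha_lip
  rw [Metric.continuous_iff]
  intro w ε hε
  refine ⟨min κ (ε * κ / C), by positivity, fun w' hw => ?_⟩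
  rw [Real.dist_eq, lt_min_iff] at hw
  rw [dist_eq_norm]
  refine (hC κ w' w g hκ hκ1 hg hw.1.le).trans_lt ?_
  have h2 := hw.2
  rw [lt_div_iff₀ hC0] at h2
  rw [div_lt_iff₀ hκ]
  linarith

/-- `w S(w)` and the transform of `g(n) log n / n` differ by a bounded amount -/
theorem sk_log : ∃ C : ℝ, 0 < C ∧ ∀ (κ w : ℝ) (g : ℕ → ℂ), 0 < κ → κ ≤ 1 → (∀ n, ‖g n‖ ≤ 1) →
    ‖(w : ℂ) * sk κ g w - gt κ (fun n => g n * (Real.log n : ℂ) / (n : ℂ)) w‖ ≤ C := by
  obtain ⟨C, hC0, hC⟩ := gauss_abs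
  refine ⟨C * 3, by positivity, fun κ w g hκ hκ1 hg => ?_⟩
  obtain ⟨h1, h2⟩ := hC _ 3 κ w bb_one hκ hκ1
  have hb : ∀ n : ℕ, ‖g n / (n : ℂ) * (((w - Real.log n : ℝ) : ℂ) *
      ((gw κ (Real.log n - w) : ℝ) : ℂ))‖ ≤
      1 / (n : ℝ) * (|Real.log n - w| * gw κ (Real.log n - w)) := by
    intro n
    rw [norm_mul, norm_mul, norm_div, Complex.norm_natCast, Complex.norm_real, Complex.norm_real,
      Real.norm_of_nonneg (ha_gw_nonneg _ _), Real.norm_eq_abs, abs_sub_comm]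
    exact mul_le_mul_of_nonneg_right (div_le_div_of_nonneg_right (hg n) (Nat.cast_nonneg n))
      (mul_nonneg (abs_nonneg _) (Real.exp_pos _).le)
  have hsd : Summable (fun n : ℕ => g n / (n : ℂ) * (((w - Real.log n : ℝ) : ℂ) *
      ((gw κ (Real.log n - w) : ℝ) : ℂ))) := Summable.of_norm_bounded h1 hb
  have hs1 := (ha_summable κ w hκ hκ1 g hg).mul_left (w : ℂ)
  have hs2 : Summable (fun n : ℕ => g n * (Real.log n : ℂ) / (n : ℂ) *
      ((gw κ (Real.log n - w) : ℝ) : ℂ)) := by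
    refine (hs1.sub hsd).congr fun n => ?_
    push_cast
    ring
  have e : (w : ℂ) * sk κ g w - gt κ (fun n => g n * (Real.log n : ℂ) / (n : ℂ)) w =
      ∑' n : ℕ, g n / (n : ℂ) * (((w - Real.log n : ℝ) : ℂ) *
        ((gw κ (Real.log n - w) : ℝ) : ℂ)) := by
    unfold sk gt
    rw [← tsum_mul_left, ← hs1.tsum_sub hs2]
    apply tsum_congr
    intro n
    push_cast
    ring
  rw [e]
  exact (tsum_of_norm_bounded h1.hasSum hb).trans h2

/-- Dirichlet convolution -/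
private lemma ha_conv (κ y : ℝ) (hκ : 0 < κ) (hκ1 : κ ≤ 1) (g : ℕ → ℂ) (hg : CM g) :
    gt κ (fun n => g n * (Real.log n : ℂ) / (n : ℂ)) y =
      ∑' a : ℕ, ((ArithmeticFunction.vonMangoldt a : ℝ) : ℂ) * g a / (a : ℂ) *
        sk κ g (y - Real.log a) := by
  obtain ⟨C, hC0, hC⟩ := gauss_sum
  obtain ⟨C', hC0', hC'⟩ := gauss_neg
  obtain ⟨BL, hBL0, hBL⟩ := bb_vm
  have hΛ : ∀ a : ℕ, 0 ≤ ArithmeticFunction.vonMangoldt a / (a : ℝ) := fun a =>
    div_nonneg ArithmeticFunction.vonMangoldt_nonneg (Nat.cast_nonneg a)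
  obtain ⟨F, hF⟩ : ∃ F : ℕ × ℕ → ℂ, F = fun p =>
      ((ArithmeticFunction.vonMangoldt p.1 : ℝ) : ℂ) * g p.1 / (p.1 : ℂ) *
        (g p.2 / (p.2 : ℂ) * ((gw κ (Real.log p.2 - (y - Real.log p.1)) : ℝ) : ℂ)) := ⟨_, rfl⟩
  obtain ⟨G, hG⟩ : ∃ G : ℕ × ℕ → ℝ, G = fun p =>
      ArithmeticFunction.vonMangoldt p.1 / (p.1 : ℝ) *
        (1 / (p.2 : ℝ) * gw κ (Real.log p.2 - (y - Real.log p.1))) := ⟨_, rfl⟩
  have hG0 : 0 ≤ G := by
    intro p
    rw [hG]
    exact mul_nonneg (hΛ _) (mul_nonneg (by positivity) (Real.exp_pos _).le)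
  have hFG : ∀ p, ‖F p‖ ≤ G p := by
    intro p
    rw [hF, hG]
    simp only
    rw [norm_mul]
    apply mul_le_mul _ (ha_norm_term κ _ g hg.bdd p.2) (norm_nonneg _) (hΛ _)
    rw [norm_div, norm_mul, Complex.norm_natCast, Complex.norm_real,
      Real.norm_of_nonneg ArithmeticFunction.vonMangoldt_nonneg]
    apply div_le_div_of_nonneg_right _ (Nat.cast_nonneg _)
    calc ArithmeticFunction.vonMangoldt p.1 * ‖g p.1‖
        ≤ ArithmeticFunction.vonMangoldt p.1 * 1 :=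
          mul_le_mul_of_nonneg_left (hg.bdd _) ArithmeticFunction.vonMangoldt_nonneg
      _ = _ := mul_one _
  have hGs : Summable G := by
    rw [summable_prod_of_nonneg hG0]
    constructor
    · intro a
      rw [hG]
      have := ((hC _ 3 κ (y - Real.log a) bb_one hκ hκ1).1).mul_left
        (ArithmeticFunction.vonMangoldt a / (a : ℝ))
      exact this
    · have hin : ∀ a : ℕ, ∑' b : ℕ, G (a, b) ≤ (3 * (C + C') * Real.exp (y ^ 2)) *
          (ArithmeticFunction.vonMangoldt a / (a : ℝ) * gw 1 (Real.log a - y)) := by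
        intro a
        rw [hG]
        simp only
        rw [tsum_mul_left]
        have hbd : ∑' b : ℕ, 1 / (b : ℝ) * gw κ (Real.log b - (y - Real.log a)) ≤
            (3 * (C + C') * Real.exp (y ^ 2)) * gw 1 (Real.log a - y) := by
          have hexp : 0 < Real.exp (y ^ 2) := Real.exp_pos _
          have hgw : gw 1 (Real.log a - y) = Real.exp (-(y - Real.log a) ^ 2) := by
            unfold gw
            congr 1
            ring
          rcases le_or_gt (y - Real.log a) 0 with h0 | h0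
          · refine (hC' _ 3 κ (y - Real.log a) bb_one hκ hκ1 h0).trans ?_
            rw [hgw]
            apply mul_le_mul_of_nonneg_right _ (Real.exp_pos _).le
            have h1 : (1 : ℝ) ≤ Real.exp (y ^ 2) := Real.one_le_exp (sq_nonneg y)
            nlinarith
          · refine (hC _ 3 κ (y - Real.log a) bb_one hκ hκ1).2.trans ?_
            have h2 : 1 ≤ Real.exp (y ^ 2) * gw 1 (Real.log a - y) := by
              rw [hgw, ← Real.exp_add]
              apply Real.one_le_exp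
              have h3 : 0 ≤ Real.log a := Real.log_natCast_nonneg a
              nlinarith
            calc C * 3 ≤ 3 * (C + C') * 1 := by nlinarith
              _ ≤ 3 * (C + C') * (Real.exp (y ^ 2) * gw 1 (Real.log a - y)) :=
                mul_le_mul_of_nonneg_left h2 (by positivity)
              _ = _ := by ring
        calc ArithmeticFunction.vonMangoldt a / (a : ℝ) *
              ∑' b : ℕ, 1 / (b : ℝ) * gw κ (Real.log b - (y - Real.log a))
            ≤ ArithmeticFunction.vonMangoldt a / (a : ℝ) *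
              ((3 * (C + C') * Real.exp (y ^ 2)) * gw 1 (Real.log a - y)) :=
              mul_le_mul_of_nonneg_left hbd (hΛ a)
          _ = _ := by ring
      refine Summable.of_nonneg_of_le (fun a => tsum_nonneg fun b => hG0 (a, b)) hin ?_
      exact ((hC _ BL 1 y hBL one_pos le_rfl).1).mul_left _
  have hFs : Summable F := Summable.of_norm_bounded hGs hFG
  -- the sum over the rows
  have h1 : ∑' p, F p = ∑' a : ℕ, ((ArithmeticFunction.vonMangoldt a : ℝ) : ℂ) * g a / (a : ℂ) *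
      sk κ g (y - Real.log a) := by
    rw [hFs.tsum_prod]
    apply tsum_congr
    intro a
    rw [hF]
    simp only
    rw [tsum_mul_left]
    rfl
  -- the sum over the fibres
  have h2 := (hFs.hasSum.tsum_fiberwise (fun p : ℕ × ℕ => p.1 * p.2)).tsum_eq
  rw [← h1, ← h2]
  unfold gt
  apply tsum_congr
  intro n
  rcases Nat.eq_zero_or_pos n with hn | hn
  · have hz : ∀ b : (fun p : ℕ × ℕ => p.1 * p.2) ⁻¹' {n}, F b = 0 := by
      rintro ⟨⟨a, b⟩, hab⟩
      have hab' : a * b = 0 := by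
        have : a * b = n := hab
        rw [this, hn]
      rw [hF]
      rcases mul_eq_zero.1 hab' with h | h
      · simp [h]
      · simp [h]
    simp only [hz, tsum_zero]
    rw [hn]
    simp
  · rw [show (fun p : ℕ × ℕ => p.1 * p.2) ⁻¹' {n} = n.divisorsAntidiagonal by
      ext; simp [hn.ne'], Finset.tsum_subtype' n.divisorsAntidiagonal F]
    have hterm : ∀ p ∈ n.divisorsAntidiagonal, F p =
        ((ArithmeticFunction.vonMangoldt p.1 : ℝ) : ℂ) *
          (g n / (n : ℂ) * ((gw κ (Real.log n - y) : ℝ) : ℂ)) := by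
      rintro ⟨a, b⟩ hp
      rw [Nat.mem_divisorsAntidiagonal] at hp
      obtain ⟨hab, -⟩ := hp
      simp only at hab
      have ha : a ≠ 0 := by
        rintro rfl
        rw [zero_mul] at hab
        omega
      have hb : b ≠ 0 := by
        rintro rfl
        rw [mul_zero] at hab
        omega
      have ha' : (a : ℝ) ≠ 0 := by exact_mod_cast ha
      have hb' : (b : ℝ) ≠ 0 := by exact_mod_cast hb
      have hac : (a : ℂ) ≠ 0 := by exact_mod_cast ha
      have hbc : (b : ℂ) ≠ 0 := by exact_mod_cast hb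
      have hlog : Real.log n - y = Real.log b - (y - Real.log a) := by
        rw [← hab, Nat.cast_mul, Real.log_mul ha' hb']
        ring
      rw [hF]
      simp only
      rw [hlog, ← hab, hg.mul, Nat.cast_mul]
      field_simp
    rw [Finset.sum_congr rfl hterm, ← Finset.sum_mul,
      Nat.sum_divisorsAntidiagonal (f := fun i _ => ((ArithmeticFunction.vonMangoldt i : ℝ) : ℂ)),
      ← Complex.ofReal_sum, ArithmeticFunction.vonMangoldt_sum]
    push_cast
    ring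

theorem halA (κ : ℝ) (hκ : 0 < κ) (hκ1 : κ ≤ 1) : ∃ C : ℝ, 0 < C ∧ ∀ (g : ℕ → ℂ) (τ y : ℝ), CM g →
    0 < τ → τ ≤ κ → 1 ≤ y →
    ‖sk κ g y‖ ≤ C * (1 / (τ * y) * (∫ w in (0 : ℝ)..y, ‖sk κ g w‖) + τ + 1 / (τ * y)) := by
  obtain ⟨C₁, hC₁, hlog⟩ := sk_log
  obtain ⟨C₂, hC₂, hbdd⟩ := sk_bdd
  obtain ⟨C₃, hC₃, hlip⟩ := ha_lip
  obtain ⟨C₄, hC₄, hneg⟩ := ha_neg
  obtain ⟨C₅, hC₅, hgs⟩ := gauss_sum
  obtain ⟨L, hL, hBL⟩ := bb_vm
  refine ⟨L + 2 * (C₃ / κ) * L + (C₁ + C₄ * C₅ * L + L * C₂), by positivity, ?_⟩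
  intro g τ y hg hτ hτκ hy
  have hτ1 : τ ≤ 1 := hτκ.trans hκ1
  have hy0 : 0 < y := by linarith
  have hcont := sk_continuous κ hκ hκ1 g hg.bdd
  have hcn : Continuous fun w => ‖sk κ g w‖ := hcont.norm
  have hΛ : ∀ a : ℕ, 0 ≤ ArithmeticFunction.vonMangoldt a / (a : ℝ) := fun a =>
    div_nonneg ArithmeticFunction.vonMangoldt_nonneg (Nat.cast_nonneg a)
  obtain ⟨D, hD⟩ : ∃ D, D = gt κ (fun n => g n * (Real.log n : ℂ) / (n : ℂ)) y := ⟨_, rfl⟩
  obtain ⟨A, hA⟩ : ∃ A, A = Finset.Icc 1 ⌊Real.exp y⌋₊ := ⟨_, rfl⟩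
  obtain ⟨T, hT⟩ : ∃ T : ℕ → ℝ, T = fun a => ArithmeticFunction.vonMangoldt a / (a : ℝ) *
    ‖sk κ g (y - Real.log a)‖ := ⟨_, rfl⟩
  obtain ⟨I, hI⟩ : ∃ I, I = ∫ w in (0 : ℝ)..y, ‖sk κ g w‖ := ⟨_, rfl⟩
  have hI0 : 0 ≤ I := by
    rw [hI]
    exact intervalIntegral.integral_nonneg hy0.le fun w _ => norm_nonneg _
  -- the large part
  have hDbound : ‖D‖ ≤ ∑ a ∈ A, T a + C₄ * (C₅ * L) := by
    obtain ⟨h1, h2⟩ := hgs _ L 1 y hBL one_pos le_rfl
    have hs1 : HasSum (fun a : ℕ => if a ∈ A then T a else 0) (∑ a ∈ A, T a) := by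
      have h0 : HasSum (fun a : ℕ => if a ∈ A then T a else 0)
          (∑ a ∈ A, if a ∈ A then T a else 0) :=
        hasSum_sum_of_ne_finset_zero (fun a ha => if_neg ha)
      rwa [Finset.sum_congr rfl (fun a ha => if_pos ha)] at h0
    have hs2 := (h1.hasSum.mul_left C₄)
    rw [hD, ha_conv κ y hκ hκ1 g hg]
    refine (tsum_of_norm_bounded (hs1.add hs2) fun a => ?_).trans ?_
    · have hn : ‖((ArithmeticFunction.vonMangoldt a : ℝ) : ℂ) * g a / (a : ℂ) *
          sk κ g (y - Real.log a)‖ ≤ T a := by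
        rw [hT, norm_mul, norm_div, norm_mul, Complex.norm_natCast, Complex.norm_real,
          Real.norm_of_nonneg ArithmeticFunction.vonMangoldt_nonneg]
        apply mul_le_mul_of_nonneg_right _ (norm_nonneg _)
        apply div_le_div_of_nonneg_right _ (Nat.cast_nonneg _)
        calc ArithmeticFunction.vonMangoldt a * ‖g a‖
            ≤ ArithmeticFunction.vonMangoldt a * 1 :=
              mul_le_mul_of_nonneg_left (hg.bdd _) ArithmeticFunction.vonMangoldt_nonneg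
          _ = _ := mul_one _
      refine hn.trans ?_
      by_cases ha : a ∈ A
      · rw [if_pos ha]
        have : 0 ≤ C₄ * (ArithmeticFunction.vonMangoldt a / (a : ℝ) * gw 1 (Real.log a - y)) :=
          mul_nonneg hC₄.le (mul_nonneg (hΛ a) (Real.exp_pos _).le)
        linarith
      · rw [if_neg ha, zero_add]
        rcases Nat.eq_zero_or_pos a with ha0 | ha0
        · rw [hT, ha0]
          simp
        · have h3 : ⌊Real.exp y⌋₊ < a := by
            by_contra hcon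
            apply ha
            rw [hA, Finset.mem_Icc]
            exact ⟨ha0, not_lt.1 hcon⟩
          have h4 : Real.exp y < a := (Nat.floor_lt (Real.exp_pos y).le).1 h3
          have h5 : y < Real.log a := by
            rw [Real.lt_log_iff_exp_lt (by exact_mod_cast ha0)]
            exact h4
          have h6 := hneg κ (y - Real.log a) g hκ hκ1 hg.bdd (by linarith)
          have h7 : gw 1 (Real.log a - y) = Real.exp (-(y - Real.log a) ^ 2) := by
            unfold gw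
            congr 1
            ring
          rw [hT, h7]
          calc ArithmeticFunction.vonMangoldt a / (a : ℝ) * ‖sk κ g (y - Real.log a)‖
              ≤ ArithmeticFunction.vonMangoldt a / (a : ℝ) *
                (C₄ * Real.exp (-(y - Real.log a) ^ 2)) := mul_le_mul_of_nonneg_left h6 (hΛ a)
            _ = _ := by ring
    · have := mul_le_mul_of_nonneg_left h2 hC₄.le
      linarith
  -- the blocks
  obtain ⟨K, hK⟩ : ∃ K : ℕ, K = ⌊y / τ⌋₊ := ⟨_, rfl⟩
  obtain ⟨J, hJ⟩ : ∃ J : ℕ → ℝ, J = fun k : ℕ => ∫ w in ((k : ℝ) * τ)..(((k + 1 : ℕ) : ℝ) * τ),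
    ‖sk κ g w‖ := ⟨_, rfl⟩
  obtain ⟨kk, hkk⟩ : ∃ kk : ℕ → ℕ, kk = fun a : ℕ => ⌊(y - Real.log (a : ℝ)) / τ⌋₊ := ⟨_, rfl⟩
  have hJ0 : ∀ k, 0 ≤ J k := by
    intro k
    rw [hJ]
    apply intervalIntegral.integral_nonneg _ fun w _ => norm_nonneg _
    push_cast
    nlinarith
  have hAlog : ∀ a ∈ A, 1 ≤ a ∧ 0 ≤ y - Real.log a := by
    intro a ha
    rw [hA, Finset.mem_Icc] at ha
    refine ⟨ha.1, ?_⟩
    have h1 : (a : ℝ) ≤ Real.exp y := (Nat.le_floor_iff (Real.exp_pos y).le).1 ha.2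
    have h2 : (0 : ℝ) < a := by exact_mod_cast ha.1
    have := (Real.log_le_iff_le_exp h2).2 h1
    linarith
  have hkspec : ∀ a ∈ A, (kk a : ℝ) * τ ≤ y - Real.log a ∧
      y - Real.log a < ((kk a + 1 : ℕ) : ℝ) * τ := by
    intro a ha
    have h0 := (hAlog a ha).2
    rw [hkk]
    constructor
    · have := Nat.floor_le (div_nonneg h0 hτ.le)
      rwa [le_div_iff₀ hτ] at this
    · have := Nat.lt_floor_add_one ((y - Real.log a) / τ)
      rw [div_lt_iff₀ hτ] at this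
      push_cast
      exact this
  have hkmem : ∀ a ∈ A, kk a ∈ Finset.range (K + 1) := by
    intro a ha
    rw [Finset.mem_range, Nat.lt_succ_iff, hK, hkk]
    apply Nat.floor_le_floor
    apply div_le_div_of_nonneg_right _ hτ.le
    have := Real.log_natCast_nonneg a
    linarith
  have hTa : ∀ a ∈ A, T a ≤ ArithmeticFunction.vonMangoldt a / (a : ℝ) *
      (1 / τ * J (kk a) + C₃ / κ * τ) := by
    intro a ha
    obtain ⟨h1, h2⟩ := hkspec a ha
    rw [hT]
    apply mul_le_mul_of_nonneg_left _ (hΛ a)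
    have hlt : (kk a : ℝ) * τ ≤ ((kk a + 1 : ℕ) : ℝ) * τ := by
      push_cast
      nlinarith
    have h3 : ∫ w in ((kk a : ℝ) * τ)..(((kk a + 1 : ℕ) : ℝ) * τ),
        ‖sk κ g (y - Real.log a)‖ ≤
        ∫ w in ((kk a : ℝ) * τ)..(((kk a + 1 : ℕ) : ℝ) * τ), (‖sk κ g w‖ + C₃ / κ * τ) := by
      apply intervalIntegral.integral_mono_on hlt
      · exact continuous_const.intervalIntegrable _ _
      · exact (hcn.add continuous_const).intervalIntegrable _ _
      · intro w hw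
        obtain ⟨hw1, hw2⟩ := hw
        push_cast at hw2 h2
        have h4 : |y - Real.log a - w| ≤ τ := by
          rw [abs_le]
          constructor <;> nlinarith
        have h5 := hlip κ (y - Real.log a) w g hκ hκ1 hg.bdd (h4.trans hτκ)
        have h6 : C₃ * |y - Real.log a - w| / κ ≤ C₃ / κ * τ := by
          rw [div_mul_eq_mul_div]
          exact div_le_div_of_nonneg_right (mul_le_mul_of_nonneg_left h4 hC₃.le) hκ.le
        have h7 := norm_sub_norm_le (sk κ g (y - Real.log a)) (sk κ g w)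
        linarith
    rw [intervalIntegral.integral_const, intervalIntegral.integral_add
      (hcn.intervalIntegrable _ _) (continuous_const.intervalIntegrable _ _),
      intervalIntegral.integral_const, smul_eq_mul, smul_eq_mul] at h3
    have h8 : ((kk a + 1 : ℕ) : ℝ) * τ - (kk a : ℝ) * τ = τ := by
      push_cast
      ring
    rw [h8] at h3
    have h9 : J (kk a) = ∫ w in ((kk a : ℝ) * τ)..(((kk a + 1 : ℕ) : ℝ) * τ), ‖sk κ g w‖ := by
      rw [hJ]
    rw [← h9] at h3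
    have h10 : ‖sk κ g (y - Real.log a)‖ ≤ (J (kk a) + τ * (C₃ / κ * τ)) / τ := by
      rw [le_div_iff₀ hτ]
      linarith
    refine h10.trans (le_of_eq ?_)
    field_simp
  -- the mass of a block
  have hmass : ∀ k : ℕ, ∑ a ∈ A.filter (fun a => kk a = k),
      ArithmeticFunction.vonMangoldt a / (a : ℝ) ≤ L := by
    intro k
    obtain ⟨x, hx⟩ : ∃ x, x = max 1 (Real.exp (y - (k + 1) * τ)) := ⟨_, rfl⟩
    have hx1 : 1 ≤ x := by
      rw [hx]
      exact le_max_left _ _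
    refine le_trans (Finset.sum_le_sum_of_subset_of_nonneg ?_ fun a _ _ => hΛ a)
      (hBL.2.2 x hx1)
    intro a ha
    rw [Finset.mem_filter] at ha
    obtain ⟨ha1, ha2⟩ := ha
    obtain ⟨h1, h2⟩ := hkspec a ha1
    have h3 := (hAlog a ha1).1
    have h4 : (0 : ℝ) < a := by exact_mod_cast h3
    rw [ha2] at h1 h2
    push_cast at h2
    rw [Finset.mem_Icc]
    constructor
    · apply Nat.ceil_le.2
      rw [hx]
      apply max_le
      · exact_mod_cast h3
      · rw [← Real.le_log_iff_exp_le h4]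
        linarith
    · apply Nat.le_floor
      have h5 : (a : ℝ) ≤ Real.exp (y - k * τ) := by
        rw [← Real.log_le_iff_le_exp h4]
        linarith
      refine h5.trans ?_
      have h6 : Real.exp (y - k * τ) = Real.exp τ * Real.exp (y - (k + 1) * τ) := by
        rw [← Real.exp_add]
        congr 1
        ring
      rw [h6]
      apply mul_le_mul (Real.exp_le_exp.2 hτ1) _ (Real.exp_pos _).le (Real.exp_pos _).le
      rw [hx]
      exact le_max_right _ _
  have hsum1 : ∑ a ∈ A, ArithmeticFunction.vonMangoldt a / (a : ℝ) * J (kk a) ≤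
      L * (I + C₂ * τ) := by
    have h1 : ∑ a ∈ A, ArithmeticFunction.vonMangoldt a / (a : ℝ) * J (kk a) =
        ∑ k ∈ Finset.range (K + 1), ∑ a ∈ A.filter (fun a => kk a = k),
          ArithmeticFunction.vonMangoldt a / (a : ℝ) * J (kk a) :=
      (Finset.sum_fiberwise_of_maps_to hkmem _).symm
    have h2 : ∀ k ∈ Finset.range (K + 1), ∑ a ∈ A.filter (fun a => kk a = k),
        ArithmeticFunction.vonMangoldt a / (a : ℝ) * J (kk a) ≤ L * J k := by
      intro k _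
      have h3 : ∑ a ∈ A.filter (fun a => kk a = k),
          ArithmeticFunction.vonMangoldt a / (a : ℝ) * J (kk a) =
          (∑ a ∈ A.filter (fun a => kk a = k),
            ArithmeticFunction.vonMangoldt a / (a : ℝ)) * J k := by
        rw [Finset.sum_mul]
        apply Finset.sum_congr rfl
        intro a ha
        rw [(Finset.mem_filter.1 ha).2]
      rw [h3]
      exact mul_le_mul_of_nonneg_right (hmass k) (hJ0 k)
    rw [h1]
    refine (Finset.sum_le_sum h2).trans ?_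
    rw [← Finset.mul_sum]
    apply mul_le_mul_of_nonneg_left _ hL.le
    have h4 : ∑ k ∈ Finset.range (K + 1), J k = ∫ w in (0 : ℝ)..(((K + 1 : ℕ) : ℝ) * τ),
        ‖sk κ g w‖ := by
      rw [hJ]
      have := intervalIntegral.sum_integral_adjacent_intervals (f := fun w => ‖sk κ g w‖)
        (μ := MeasureTheory.volume) (a := fun k : ℕ => (k : ℝ) * τ) (n := K + 1)
        (fun k _ => hcn.intervalIntegrable _ _)
      rw [this]
      simp
    rw [h4]
    have h5 : y ≤ ((K + 1 : ℕ) : ℝ) * τ := by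
      have := Nat.lt_floor_add_one (y / τ)
      rw [← hK, div_lt_iff₀ hτ] at this
      push_cast
      exact this.le
    have h6 : ((K + 1 : ℕ) : ℝ) * τ ≤ y + τ := by
      have := Nat.floor_le (div_nonneg hy0.le hτ.le)
      rw [← hK, le_div_iff₀ hτ] at this
      push_cast
      linarith
    have h7 : ∫ w in (0 : ℝ)..(((K + 1 : ℕ) : ℝ) * τ), ‖sk κ g w‖ =
        I + ∫ w in y..(((K + 1 : ℕ) : ℝ) * τ), ‖sk κ g w‖ := by
      rw [hI]
      exact (intervalIntegral.integral_add_adjacent_intervals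
        (hcn.intervalIntegrable _ _) (hcn.intervalIntegrable _ _)).symm
    rw [h7]
    have h8 : ∫ w in y..(((K + 1 : ℕ) : ℝ) * τ), ‖sk κ g w‖ ≤
        ∫ w in y..(((K + 1 : ℕ) : ℝ) * τ), C₂ := by
      apply intervalIntegral.integral_mono_on h5
      · exact hcn.intervalIntegrable _ _
      · exact continuous_const.intervalIntegrable _ _
      · intro w _
        exact hbdd κ w g hκ hκ1 hg.bdd
    rw [intervalIntegral.integral_const, smul_eq_mul] at h8
    have h9 : (((K + 1 : ℕ) : ℝ) * τ - y) * C₂ ≤ C₂ * τ := by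
      rw [mul_comm]
      exact mul_le_mul_of_nonneg_left (by linarith) hC₂.le
    linarith
  have hsum2 : ∑ a ∈ A, ArithmeticFunction.vonMangoldt a / (a : ℝ) ≤ L * (y + 1) := by
    rw [hA]
    exact mass_le _ L y hBL hy0.le
  have hsumT : ∑ a ∈ A, T a ≤ 1 / τ * (L * (I + C₂ * τ)) + C₃ / κ * τ * (L * (y + 1)) := by
    calc ∑ a ∈ A, T a ≤ ∑ a ∈ A, ArithmeticFunction.vonMangoldt a / (a : ℝ) *
          (1 / τ * J (kk a) + C₃ / κ * τ) := Finset.sum_le_sum hTa
      _ = 1 / τ * ∑ a ∈ A, ArithmeticFunction.vonMangoldt a / (a : ℝ) * J (kk a) +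
          C₃ / κ * τ * ∑ a ∈ A, ArithmeticFunction.vonMangoldt a / (a : ℝ) := by
          rw [Finset.mul_sum, Finset.mul_sum, ← Finset.sum_add_distrib]
          apply Finset.sum_congr rfl
          intro a _
          ring
      _ ≤ _ := add_le_add (mul_le_mul_of_nonneg_left hsum1 (by positivity))
          (mul_le_mul_of_nonneg_left hsum2 (by positivity))
  -- conclusion
  have hfin : y * ‖sk κ g y‖ ≤ ‖D‖ + C₁ := by
    have h1 := hlog κ y g hκ hκ1 hg.bdd
    rw [← hD] at h1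
    have h2 : ‖(y : ℂ) * sk κ g y‖ = y * ‖sk κ g y‖ := by
      rw [norm_mul, Complex.norm_real, Real.norm_of_nonneg hy0.le]
    have h3 := norm_sub_norm_le ((y : ℂ) * sk κ g y) D
    rw [h2] at h3
    linarith
  rw [← hI]
  have htot : y * ‖sk κ g y‖ ≤ L / τ * I + 2 * (C₃ / κ) * L * (τ * y) +
      (C₁ + C₄ * C₅ * L + L * C₂) := by
    have e1 : 1 / τ * (L * (I + C₂ * τ)) = L / τ * I + L * C₂ := by
      field_simp
    have e2 : C₃ / κ * τ * (L * (y + 1)) ≤ 2 * (C₃ / κ) * L * (τ * y) := by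
      have h1 : 0 ≤ C₃ / κ * τ * L := by positivity
      nlinarith
    nlinarith
  have hτy : 0 < τ * y := mul_pos hτ hy0
  have h1 : ‖sk κ g y‖ ≤ (L / τ * I + 2 * (C₃ / κ) * L * (τ * y) +
      (C₁ + C₄ * C₅ * L + L * C₂)) / y := by
    rw [le_div_iff₀ hy0]
    linarith
  refine h1.trans ?_
  obtain ⟨P, hP⟩ : ∃ P, P = 2 * (C₃ / κ) * L := ⟨_, rfl⟩
  obtain ⟨R', hR⟩ : ∃ R', R' = C₁ + C₄ * C₅ * L + L * C₂ := ⟨_, rfl⟩
  have hP0 : 0 ≤ P := by
    rw [hP]
    positivity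
  have hR0 : 0 ≤ R' := by
    rw [hR]
    positivity
  rw [← hP, ← hR]
  have h2 : (L / τ * I + P * (τ * y) + R') / y = L * (1 / (τ * y) * I) + P * τ + R' * (1 / y) := by
    field_simp
  rw [h2]
  have h3 : 1 / y ≤ 1 / (τ * y) := by
    apply one_div_le_one_div_of_le hτy
    nlinarith
  have h4 : 0 ≤ 1 / (τ * y) * I := by positivity
  have h5 : 0 ≤ 1 / (τ * y) := by positivity
  have h6 := mul_le_mul_of_nonneg_left h3 hR0
  nlinarith [mul_nonneg hL.le hτ.le, mul_nonneg hL.le h5, mul_nonneg hP0 h4, mul_nonneg hP0 h5,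
    mul_nonneg hR0 h4, mul_nonneg hR0 hτ.le]

end Pool.MRZ
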