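import Mathlib
import Pool.Agent.MRZ.GBase

/-!
# MRZ/HalB: Plancherel identity for Gaussian transforms

For `κ, α > 0` and a sequence `a` with `∑ |a_n| n^{-1-α} < ∞`, `b(w) = gt κ (n ↦ a_n/n) w`:
`∫ ‖b(w)‖² e^{-2αw} dw = (κ²/2) e^{α²κ²/2} ∫ ‖LSeries a (1 + α + it)‖² e^{-κ²t²/2} dt`, both integrable.

Proof. Expand both squares into absolutely convergent double sums over `m, n ≥ 1` (`integral_tsum` /
`hasSum_integral_of_summable_integral_norm`). With `A = log m`, `B = log n`, `c_n = a_n / n`: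
* `(A-w)² + (B-w)² = 2 (w - (A+B)/2)² + (A-B)²/2`, so by the Gaussian integral
  `∫ exp(-((A-w)² + (B-w)²)/κ² - 2αw) dw = κ √(π/2) e^{α²κ²/2} (mn)^{-α} e^{-(A-B)²/(2κ²)}`;
* `∫ m^{-it} n^{it} e^{-κ²t²/2} dt = (√(2π)/κ) e^{-(A-B)²/(2κ²)}` (Fourier transform of a Gaussian,
  `fourierIntegral_gaussian` or `integral_cexp_quadratic`).
Both sides are `κ √(π/2) e^{α²κ²/2} ∑_{m,n} c_m conj(c_n) (mn)^{-α} e^{-(A-B)²/(2κ²)}`.
Absolute convergence: `∑_{m,n} |c_m| |c_n| (mn)^{-α} < ∞`. The pointwise convergence of the series for `b(w)`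
follows from `gw κ (log n - w) ≤ C(w) n^{-α}`.
-/

namespace Pool.MRZ

open Finset MeasureTheory

namespace HalBAux

open Complex (I)

theorem plan_point (y : ℕ → ℝ → ℂ) (W : ℝ → ℝ) (hs : ∀ w, Summable (fun n => ‖y n w‖)) (w : ℝ) :
    ∑' p : ℕ × ℕ, y p.1 w * (starRingEnd ℂ) (y p.2 w) * (W w : ℂ) =
      ((‖∑' n, y n w‖ ^ 2 * W w : ℝ) : ℂ) := by
  rw [tsum_mul_right]
  have h1 : Summable (fun n => ‖(starRingEnd ℂ) (y n w)‖) := by
    simpa only [RCLike.norm_conj] using hs w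
  rw [← tsum_mul_tsum_of_summable_norm (hs w) h1, ← Complex.conj_tsum, Complex.mul_conj,
    Complex.normSq_eq_norm_sq]
  push_cast
  rfl

theorem plan (y : ℕ → ℝ → ℂ) (W : ℝ → ℝ) (hy : ∀ n, Continuous (y n)) (hW : Continuous W)
    (hs : ∀ w, Summable (fun n => ‖y n w‖))
    (hint : ∀ p : ℕ × ℕ, Integrable (fun w => y p.1 w * (starRingEnd ℂ) (y p.2 w) * (W w : ℂ)))
    (hsum : Summable (fun p : ℕ × ℕ =>
      ∫ w, ‖y p.1 w * (starRingEnd ℂ) (y p.2 w) * (W w : ℂ)‖)) :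
    Integrable (fun w => ‖∑' n, y n w‖ ^ 2 * W w) ∧
      ((∫ w, ‖∑' n, y n w‖ ^ 2 * W w : ℝ) : ℂ) =
        ∑' p : ℕ × ℕ, ∫ w, y p.1 w * (starRingEnd ℂ) (y p.2 w) * (W w : ℂ) := by
  have hmeas : Measurable (fun w => ∑' n, y n w) := by
    refine measurable_of_tendsto_metrizable (f := fun (N : ℕ) w => ∑ n ∈ Finset.range N, y n w)
      ?_ ?_
    · intro N
      exact Finset.measurable_sum _ (fun n _ => (hy n).measurable)
    · rw [tendsto_pi_nhds]
      intro w
      exact (hs w).of_norm.hasSum.tendsto_sum_nat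
  constructor
  · have hm : AEStronglyMeasurable (fun w => ‖∑' n, y n w‖ ^ 2 * W w) volume := by
      refine Measurable.aestronglyMeasurable ?_
      exact (hmeas.norm.pow_const 2).mul hW.measurable
    refine ⟨hm, ?_⟩
    rw [hasFiniteIntegral_iff_enorm]
    have h1 : ∀ p : ℕ × ℕ, ∫⁻ w, ‖y p.1 w * (starRingEnd ℂ) (y p.2 w) * (W w : ℂ)‖ₑ =
        ‖∫ w, ‖y p.1 w * (starRingEnd ℂ) (y p.2 w) * (W w : ℂ)‖‖ₑ := by
      intro p
      have e1 := ofReal_integral_norm_eq_lintegral_enorm (hint p)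
      rw [← e1, Real.enorm_eq_ofReal (integral_nonneg fun _ => norm_nonneg _)]
    have h2 : ∑' p : ℕ × ℕ, ∫⁻ w, ‖y p.1 w * (starRingEnd ℂ) (y p.2 w) * (W w : ℂ)‖ₑ < ⊤ := by
      rw [funext h1]
      exact lt_top_iff_ne_top.2
        (ENNReal.tsum_coe_ne_top_iff_summable.2 <| NNReal.summable_coe.1 hsum.abs)
    refine lt_of_le_of_lt ?_ h2
    rw [← lintegral_tsum (fun p => (hint p).1.enorm)]
    apply lintegral_mono
    intro w
    have h3 := plan_point y W hs w
    have h4 : ‖‖∑' n, y n w‖ ^ 2 * W w‖ₑ = ‖((‖∑' n, y n w‖ ^ 2 * W w : ℝ) : ℂ)‖ₑ := by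
      rw [← ofReal_norm, ← ofReal_norm, Complex.norm_real]
    simp only
    rw [h4, ← h3]
    exact enorm_tsum_le_tsum_enorm
  · rw [integral_tsum_of_summable_integral_norm hint hsum, ← integral_complex_ofReal]
    congr 1
    ext w
    rw [plan_point y W hs w]

theorem gw_mul (κ α A B w : ℝ) (hκ : 0 < κ) :
    gw κ (A - w) * gw κ (B - w) * Real.exp (-2 * α * w) =
      Real.exp (-(2 / κ ^ 2) * (w - ((A + B) / 2 - α * κ ^ 2 / 2)) ^ 2) *
        Real.exp (α ^ 2 * κ ^ 2 / 2 - α * (A + B) - (A - B) ^ 2 / (2 * κ ^ 2)) := by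
  unfold gw
  rw [← Real.exp_add, ← Real.exp_add, ← Real.exp_add]
  congr 1
  field_simp
  ring

theorem gint_int (κ α A B : ℝ) (hκ : 0 < κ) :
    Integrable (fun w => gw κ (A - w) * gw κ (B - w) * Real.exp (-2 * α * w)) := by
  have h := ((integrable_exp_neg_mul_sq (b := 2 / κ ^ 2) (by positivity)).comp_sub_right
    ((A + B) / 2 - α * κ ^ 2 / 2)).mul_const
    (Real.exp (α ^ 2 * κ ^ 2 / 2 - α * (A + B) - (A - B) ^ 2 / (2 * κ ^ 2)))
  refine h.congr (Filter.Eventually.of_forall fun w => ?_)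
  simp only
  rw [gw_mul κ α A B w hκ]

theorem gint (κ α A B : ℝ) (hκ : 0 < κ) :
    ∫ w, gw κ (A - w) * gw κ (B - w) * Real.exp (-2 * α * w) = √(Real.pi / (2 / κ ^ 2)) *
        Real.exp (α ^ 2 * κ ^ 2 / 2 - α * (A + B) - (A - B) ^ 2 / (2 * κ ^ 2)) := by
  simp_rw [fun w => gw_mul κ α A B w hκ]
  rw [integral_mul_const, integral_sub_right_eq_self
    (fun w => Real.exp (-(2 / κ ^ 2) * w ^ 2)) ((A + B) / 2 - α * κ ^ 2 / 2), integral_gaussian]

theorem fint_form (κ D t : ℝ) :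
    Complex.exp (-(t * D : ℝ) * I) * ((Real.exp (-(κ ^ 2 * t ^ 2 / 2)) : ℝ) : ℂ) =
      Complex.exp ((-(κ ^ 2 / 2 : ℝ) : ℂ) * t ^ 2 + (-(D : ℂ) * I) * t + 0) := by
  rw [Complex.ofReal_exp, ← Complex.exp_add]
  congr 1
  push_cast
  ring

theorem fint_int (κ D : ℝ) (hκ : 0 < κ) :
    Integrable (fun t : ℝ => Complex.exp (-(t * D : ℝ) * I) *
      ((Real.exp (-(κ ^ 2 * t ^ 2 / 2)) : ℝ) : ℂ)) := by
  simp_rw [fun t => fint_form κ D t]
  apply integrable_cexp_quadratic'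
  rw [Complex.neg_re, Complex.ofReal_re]
  have : 0 < κ ^ 2 / 2 := by positivity
  linarith

theorem fint (κ D : ℝ) (hκ : 0 < κ) :
    ∫ t : ℝ, Complex.exp (-(t * D : ℝ) * I) *
      ((Real.exp (-(κ ^ 2 * t ^ 2 / 2)) : ℝ) : ℂ) =
      ((√(Real.pi / (κ ^ 2 / 2)) * Real.exp (-D ^ 2 / (2 * κ ^ 2)) : ℝ) : ℂ) := by
  simp_rw [fun t => fint_form κ D t]
  have hk : 0 < κ ^ 2 / 2 := by positivity
  rw [integral_cexp_quadratic (by rw [Complex.neg_re, Complex.ofReal_re]; linarith), neg_neg]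
  push_cast
  congr 1
  · rw [Real.sqrt_eq_rpow, Complex.ofReal_cpow (by positivity)]
    push_cast
    rfl
  · congr 1
    have hκ' : (κ : ℂ) ≠ 0 := by exact_mod_cast hκ.ne'
    have hI : I ^ 2 = -1 := Complex.I_sq
    field_simp
    linear_combination (4 * (D : ℂ) ^ 2) * hI

theorem gw_le (κ α A w : ℝ) (hκ : 0 < κ) :
    gw κ (A - w) ≤ Real.exp (α ^ 2 * κ ^ 2 / 4 + α * w) * Real.exp (-α * A) := by
  unfold gw
  rw [← Real.exp_add]
  apply Real.exp_le_exp.2
  have h : 0 ≤ ((A - w) / κ - α * κ / 2) ^ 2 := sq_nonneg _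
  have h2 : ((A - w) / κ - α * κ / 2) ^ 2 =
      ((A - w) / κ) ^ 2 - α * (A - w) + α ^ 2 * κ ^ 2 / 4 := by
    field_simp
    ring
  rw [h2] at h
  linarith

end HalBAux

open HalBAux

theorem halB (κ α : ℝ) (hκ : 0 < κ) (hα : 0 < α) (a : ℕ → ℂ) (ha : LSeriesSummable a (1 + α)) :
    Integrable (fun w : ℝ => ‖gt κ (fun n => a n / (n : ℂ)) w‖ ^ 2 * Real.exp (-2 * α * w)) ∧
    Integrable (fun t : ℝ => ‖LSeries a (1 + α + t * Complex.I)‖ ^ 2 *
      Real.exp (-(κ ^ 2 * t ^ 2 / 2))) ∧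
    ∫ w : ℝ, ‖gt κ (fun n => a n / (n : ℂ)) w‖ ^ 2 * Real.exp (-2 * α * w) =
      κ ^ 2 / 2 * Real.exp (α ^ 2 * κ ^ 2 / 2) *
        ∫ t : ℝ, ‖LSeries a (1 + α + t * Complex.I)‖ ^ 2 * Real.exp (-(κ ^ 2 * t ^ 2 / 2)) := by
  set c : ℕ → ℂ := fun n => a n / (n : ℂ) with hc
  have hc0 : c 0 = 0 := by simp [hc]
  -- the summable sequence
  have hx : Summable (fun n => ‖c n‖ * Real.exp (-α * Real.log n)) := by
    have h1 := ha.norm
    refine h1.congr fun n => ?_
    rw [LSeries.norm_term_eq]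
    rcases eq_or_ne n 0 with rfl | hn
    · simp [hc0]
    · rw [if_neg hn]
      have hnpos : (0 : ℝ) < n := by exact_mod_cast Nat.pos_of_ne_zero hn
      have h2 : (1 + (α : ℂ)).re = 1 + α := by simp
      rw [h2, Real.rpow_add hnpos, Real.rpow_one, hc]
      simp only
      rw [norm_div, Complex.norm_natCast, Real.rpow_def_of_pos hnpos, mul_comm (Real.log n) α,
        neg_mul, Real.exp_neg]
      field_simp
  have hxx : Summable (fun p : ℕ × ℕ => (‖c p.1‖ * Real.exp (-α * Real.log p.1)) *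
      (‖c p.2‖ * Real.exp (-α * Real.log p.2))) :=
    hx.mul_of_nonneg hx (fun n => by positivity) (fun n => by positivity)
  -- physical side
  set y : ℕ → ℝ → ℂ := fun n w => c n * ((gw κ (Real.log n - w) : ℝ) : ℂ) with hy
  have hgwc : ∀ A : ℝ, Continuous (fun w => gw κ (A - w)) := by
    intro A
    unfold gw
    fun_prop
  have hgw0 : ∀ v, 0 < gw κ v := fun v => Real.exp_pos _
  have hyform : ∀ p : ℕ × ℕ, (fun w : ℝ => y p.1 w * (starRingEnd ℂ) (y p.2 w) *
      ((Real.exp (-2 * α * w) : ℝ) : ℂ)) = fun w : ℝ => (c p.1 * (starRingEnd ℂ) (c p.2)) *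
        ((gw κ (Real.log p.1 - w) * gw κ (Real.log p.2 - w) * Real.exp (-2 * α * w) : ℝ) : ℂ) := by
    intro p
    ext w
    simp only [hy, map_mul, Complex.conj_ofReal]
    push_cast
    ring
  have P := plan y (fun w => Real.exp (-2 * α * w)) (fun n => by
      simp only [hy]
      exact continuous_const.mul (Complex.continuous_ofReal.comp (hgwc _)))
    (by fun_prop)
    (fun w => by
      refine Summable.of_nonneg_of_le (fun n => norm_nonneg _) (fun n => ?_)
        (hx.mul_left (Real.exp (α ^ 2 * κ ^ 2 / 4 + α * w)))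
      simp only [hy]
      rw [norm_mul, Complex.norm_real, Real.norm_of_nonneg (hgw0 _).le]
      have := mul_le_mul_of_nonneg_left (gw_le κ α (Real.log n) w hκ) (norm_nonneg (c n))
      calc _ ≤ _ := this
        _ = _ := by ring)
    (fun p => by
      rw [hyform p]
      exact (gint_int κ α _ _ hκ).ofReal.const_mul _)
    (by
      have hnorm : ∀ p : ℕ × ℕ, ∫ w : ℝ, ‖y p.1 w * (starRingEnd ℂ) (y p.2 w) *
          ((Real.exp (-2 * α * w) : ℝ) : ℂ)‖ = ‖c p.1‖ * ‖c p.2‖ *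
          (√(Real.pi / (2 / κ ^ 2)) * Real.exp (α ^ 2 * κ ^ 2 / 2 -
            α * (Real.log p.1 + Real.log p.2) - (Real.log p.1 - Real.log p.2) ^ 2 / (2 * κ ^ 2))) := by
        intro p
        rw [← gint κ α _ _ hκ, ← integral_const_mul]
        congr 1
        ext w
        have := congrFun (hyform p) w
        rw [this, norm_mul, norm_mul, RCLike.norm_conj, Complex.norm_real, Real.norm_of_nonneg]
        exact mul_nonneg (mul_nonneg (hgw0 _).le (hgw0 _).le) (Real.exp_pos _).le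
      refine Summable.of_nonneg_of_le (fun p => integral_nonneg fun _ => norm_nonneg _)
        (fun p => ?_) (hxx.mul_left (√(Real.pi / (2 / κ ^ 2)) * Real.exp (α ^ 2 * κ ^ 2 / 2)))
      rw [hnorm p]
      have h1 : Real.exp (α ^ 2 * κ ^ 2 / 2 - α * (Real.log p.1 + Real.log p.2) -
          (Real.log p.1 - Real.log p.2) ^ 2 / (2 * κ ^ 2)) ≤
          Real.exp (α ^ 2 * κ ^ 2 / 2) * (Real.exp (-α * Real.log p.1) *
            Real.exp (-α * Real.log p.2)) := by
        rw [← Real.exp_add, ← Real.exp_add]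
        apply Real.exp_le_exp.2
        have : 0 ≤ (Real.log p.1 - Real.log p.2) ^ 2 / (2 * κ ^ 2) := by positivity
        linarith
      calc _ ≤ ‖c p.1‖ * ‖c p.2‖ * (√(Real.pi / (2 / κ ^ 2)) *
            (Real.exp (α ^ 2 * κ ^ 2 / 2) * (Real.exp (-α * Real.log p.1) *
            Real.exp (-α * Real.log p.2)))) := by gcongr
        _ = _ := by ring)
  -- frequency side
  set z : ℕ → ℝ → ℂ := fun n t => c n * ((Real.exp (-α * Real.log n) : ℝ) : ℂ) *
    Complex.exp (-(t * Real.log n : ℝ) * Complex.I) with hz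
  have hzn : ∀ n t, ‖z n t‖ = ‖c n‖ * Real.exp (-α * Real.log n) := by
    intro n t
    simp only [hz]
    rw [norm_mul, norm_mul, Complex.norm_real, Real.norm_of_nonneg (Real.exp_pos _).le]
    have : ‖Complex.exp (-(t * Real.log n : ℝ) * Complex.I)‖ = 1 := by
      rw [← Complex.ofReal_neg]
      exact Complex.norm_exp_ofReal_mul_I _
    rw [this, mul_one]
  have hzL : ∀ t : ℝ, LSeries a (1 + α + t * Complex.I) = ∑' n, z n t := by
    intro t
    unfold LSeries
    apply tsum_congr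
    intro n
    rcases eq_or_ne n 0 with rfl | hn
    · simp [hz, hc0]
    · rw [LSeries.term_of_ne_zero hn]
      have hnC : (n : ℂ) ≠ 0 := by exact_mod_cast hn
      simp only [hz, hc]
      rw [Complex.cpow_def_of_ne_zero hnC]
      have e1 : Complex.log (n : ℂ) * (1 + α + t * Complex.I) =
          Complex.log (n : ℂ) + ((α * Real.log n : ℝ) : ℂ) + (t * Real.log n : ℝ) * Complex.I := by
        rw [← Complex.natCast_log]
        push_cast
        ring
      rw [e1, Complex.exp_add, Complex.exp_add, Complex.exp_log hnC, ← Complex.ofReal_exp]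
      have e2 : Complex.exp (-(t * Real.log n : ℝ) * Complex.I) =
          (Complex.exp ((t * Real.log n : ℝ) * Complex.I))⁻¹ := by
        rw [neg_mul, Complex.exp_neg]
      have e3 : ((Real.exp (-α * Real.log n) : ℝ) : ℂ) =
          ((Real.exp (α * Real.log n) : ℝ) : ℂ)⁻¹ := by
        rw [neg_mul, Real.exp_neg, Complex.ofReal_inv]
      rw [e2, e3]
      have h1 : ((Real.exp (α * Real.log n) : ℝ) : ℂ) ≠ 0 := by
        exact_mod_cast (Real.exp_pos _).ne'
      have h2 := Complex.exp_ne_zero ((t * Real.log n : ℝ) * Complex.I)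
      field_simp
  have hzform : ∀ p : ℕ × ℕ, (fun t : ℝ => z p.1 t * (starRingEnd ℂ) (z p.2 t) *
      ((Real.exp (-(κ ^ 2 * t ^ 2 / 2)) : ℝ) : ℂ)) = fun t : ℝ =>
        (c p.1 * (starRingEnd ℂ) (c p.2) * ((Real.exp (-α * Real.log p.1) : ℝ) : ℂ) *
          ((Real.exp (-α * Real.log p.2) : ℝ) : ℂ)) *
        (Complex.exp (-(t * (Real.log p.1 - Real.log p.2) : ℝ) * Complex.I) *
          ((Real.exp (-(κ ^ 2 * t ^ 2 / 2)) : ℝ) : ℂ)) := by
    intro p
    ext t
    have e1 : (starRingEnd ℂ) (Complex.exp (-(t * Real.log p.2 : ℝ) * Complex.I)) =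
        Complex.exp ((t * Real.log p.2 : ℝ) * Complex.I) := by
      rw [← Complex.exp_conj, map_mul, map_neg, Complex.conj_ofReal, Complex.conj_I]
      congr 1
      ring
    have e2 : Complex.exp (-(t * (Real.log p.1 - Real.log p.2) : ℝ) * Complex.I) =
        Complex.exp (-(t * Real.log p.1 : ℝ) * Complex.I) *
          Complex.exp ((t * Real.log p.2 : ℝ) * Complex.I) := by
      rw [← Complex.exp_add]
      congr 1
      push_cast
      ring
    simp only [hz, map_mul, Complex.conj_ofReal]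
    rw [e1, e2]
    ring
  have Q := plan z (fun t => Real.exp (-(κ ^ 2 * t ^ 2 / 2))) (fun n => by
      simp only [hz]
      fun_prop)
    (by fun_prop)
    (fun t => by
      simp_rw [hzn]
      exact hx)
    (fun p => by
      rw [hzform p]
      exact (fint_int κ _ hκ).const_mul _)
    (by
      have hnorm : ∀ p : ℕ × ℕ, ∫ t : ℝ, ‖z p.1 t * (starRingEnd ℂ) (z p.2 t) *
          ((Real.exp (-(κ ^ 2 * t ^ 2 / 2)) : ℝ) : ℂ)‖ =
          (‖c p.1‖ * Real.exp (-α * Real.log p.1)) * (‖c p.2‖ * Real.exp (-α * Real.log p.2)) *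
            ∫ t : ℝ, Real.exp (-(κ ^ 2 * t ^ 2 / 2)) := by
        intro p
        rw [← integral_const_mul]
        congr 1
        ext t
        rw [norm_mul, norm_mul, RCLike.norm_conj, hzn, hzn, Complex.norm_real,
          Real.norm_of_nonneg (Real.exp_pos _).le]
      refine (hxx.mul_right (∫ t : ℝ, Real.exp (-(κ ^ 2 * t ^ 2 / 2)))).congr fun p => ?_
      rw [hnorm p])
  refine ⟨P.1, ?_, ?_⟩
  · simp_rw [hzL]
    exact Q.1
  · have hP := P.2
    have hQ := Q.2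
    have h1 : ∀ p : ℕ × ℕ, ∫ w : ℝ, y p.1 w * (starRingEnd ℂ) (y p.2 w) *
        ((Real.exp (-2 * α * w) : ℝ) : ℂ) =
        ((κ ^ 2 / 2 * Real.exp (α ^ 2 * κ ^ 2 / 2) : ℝ) : ℂ) *
        ∫ t : ℝ, z p.1 t * (starRingEnd ℂ) (z p.2 t) *
          ((Real.exp (-(κ ^ 2 * t ^ 2 / 2)) : ℝ) : ℂ) := by
      intro p
      rw [hyform p, hzform p, integral_const_mul, integral_const_mul, fint κ _ hκ,
        integral_complex_ofReal, gint κ α _ _ hκ]
      have hs : √(Real.pi / (2 / κ ^ 2)) = κ ^ 2 / 2 * √(Real.pi / (κ ^ 2 / 2)) := by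
        have e1 : Real.pi / (2 / κ ^ 2) = (κ ^ 2 / 2) ^ 2 * (Real.pi / (κ ^ 2 / 2)) := by
          field_simp
        rw [e1, Real.sqrt_mul (by positivity), Real.sqrt_sq (by positivity)]
      have he : Real.exp (α ^ 2 * κ ^ 2 / 2 - α * (Real.log p.1 + Real.log p.2) -
          (Real.log p.1 - Real.log p.2) ^ 2 / (2 * κ ^ 2)) =
          Real.exp (α ^ 2 * κ ^ 2 / 2) * Real.exp (-α * Real.log p.1) *
            Real.exp (-α * Real.log p.2) *
            Real.exp (-(Real.log p.1 - Real.log p.2) ^ 2 / (2 * κ ^ 2)) := by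
        rw [← Real.exp_add, ← Real.exp_add, ← Real.exp_add]
        congr 1
        ring
      rw [hs, he]
      push_cast
      ring
    rw [tsum_congr h1, tsum_mul_left, ← hQ] at hP
    simp_rw [hzL]
    have h2 : (fun w : ℝ => ‖gt κ c w‖ ^ 2 * Real.exp (-2 * α * w)) =
        fun w : ℝ => ‖∑' n, y n w‖ ^ 2 * Real.exp (-2 * α * w) := by
      ext w
      rfl
    rw [h2]
    exact_mod_cast hP

end Pool.MRZ
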