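import Mathlib
import Pool.Agent.MRZ.HalB

/-!
# MRZ/HalC: mean square of `b(w) = ∑_n (g(n) log n/n) gw κ (log n - w)`

For `0 < κ ≤ 1` there is `C`: if `g` is completely multiplicative bounded by one, `y ≥ 1` and
`‖LSeries g (1 + 1/y + it)‖ ≤ M` for `|t| ≤ T` then `∫_0^y ‖b‖² ≤ C y (M² + e^{-κ²T²/4} y²)`.

Proof. `α = 1/y ≤ 1`, `s = 1 + α + it`. `g log = (gΛ) * g` gives
`LSeries (g log) s = LSeries (gΛ) s · LSeries g s` (`LSeries_convolution'`/`LSeries_mul`; or use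
`ArithmeticFunction.vonMangoldt_mul_zeta` termwise). By `halB` for `a = g log` and `e^{-2w/y} ≥ e^{-2}` on `[0,y]`:
`∫_0^y ‖b‖² ≤ e² κ² ∫ ‖LSeries (gΛ) s‖² ‖LSeries g s‖² e^{-κ²t²/2} dt` (`(κ²/2) e^{1/2} ≤ κ²`).
For `|t| ≤ T` use `‖LSeries g s‖ ≤ M`; for `|t| > T`, `‖LSeries g s‖ ≤ ∑ n^{-1-1/y} ≤ 1 + y ≤ 2y` and
`e^{-κ²t²/2} ≤ e^{-κ²T²/4} e^{-κ²t²/4}`. So it is at most
`e² κ² (M² + 4 y² e^{-κ²T²/4}) ∫ ‖LSeries (gΛ) s‖² e^{-κ²t²/4} dt`. By `halB` with `κ' = κ/√2` and `a = gΛ` the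
integral is `≤ (4/κ²) ∫ ‖gt κ' (gΛ/n) w‖² e^{-2w/y} dw`, and `‖gt κ' (gΛ/n) w‖ ≤ C` for all `w`, `≤ C e^{-w²}` for
`w ≤ 0` (`gauss_sum`, `gauss_neg`, `bb_vm`), so it is `≤ (4/κ²) C (y/2 + ∫_{-∞}^0 e^{-2w²-2w} dw) ≤ C_κ y`.
-/

namespace Pool.MRZ

open Finset MeasureTheory


namespace HalCAux

theorem rpow_tel {α : ℝ} (hα : 0 < α) {n : ℕ} (hn : 1 ≤ n) :
    1 / (((n + 1 : ℕ) : ℝ)) ^ (1 + α) ≤
      1 / α * ((n : ℝ) ^ (-α) - ((n + 1 : ℕ) : ℝ) ^ (-α)) := by
  have hn0 : (0 : ℝ) < n := by exact_mod_cast hn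
  have hx0 : (0 : ℝ) < ((n + 1 : ℕ) : ℝ) := by positivity
  set x : ℝ := ((n + 1 : ℕ) : ℝ) with hx
  have hnx : (n : ℝ) = x - 1 := by rw [hx]; push_cast; ring
  have h1 : (n : ℝ) ^ (-α) = x ^ (-α) * ((n : ℝ) / x) ^ (-α) := by
    rw [← Real.mul_rpow hx0.le (by positivity)]
    congr 1
    field_simp
  have h2 : 1 + α / x ≤ ((n : ℝ) / x) ^ (-α) := by
    rw [Real.rpow_def_of_pos (by positivity)]
    have h3 : Real.log ((n : ℝ) / x) ≤ (n : ℝ) / x - 1 :=
      Real.log_le_sub_one_of_pos (by positivity)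
    have h4 : (n : ℝ) / x - 1 = -(1 / x) := by
      rw [hnx]
      field_simp
      ring
    rw [h4] at h3
    have h5 : α / x ≤ Real.log ((n : ℝ) / x) * -α := by
      have := mul_le_mul_of_nonneg_left h3 hα.le
      have e : α * -(1 / x) = -(α / x) := by ring
      rw [e] at this
      linarith
    have h6 := Real.add_one_le_exp (Real.log ((n : ℝ) / x) * -α)
    linarith
  have hxα : 0 < x ^ (-α) := Real.rpow_pos_of_pos hx0 _
  have h7 : x ^ (-α) * (α / x) ≤ (n : ℝ) ^ (-α) - x ^ (-α) := by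
    rw [h1]
    have := mul_le_mul_of_nonneg_left h2 hxα.le
    linarith
  have h8 : 1 / x ^ (1 + α) = 1 / α * (x ^ (-α) * (α / x)) := by
    rw [Real.rpow_add hx0, Real.rpow_one, Real.rpow_neg hx0.le]
    field_simp
  rw [h8]
  exact mul_le_mul_of_nonneg_left h7 (by positivity)

theorem sum_le {α : ℝ} (hα : 0 < α) (N : ℕ) :
    ∑ n ∈ Finset.range N, (if n = 0 then (0 : ℝ) else 1 / (n : ℝ) ^ (1 + α)) ≤ 1 + 1 / α := by
  have key : ∀ N : ℕ, 1 ≤ N →
      ∑ n ∈ Finset.range (N + 1), (if n = 0 then (0 : ℝ) else 1 / (n : ℝ) ^ (1 + α)) ≤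
        1 + 1 / α * (1 - (N : ℝ) ^ (-α)) := by
    intro N hN
    induction N, hN using Nat.le_induction with
    | base => simp [Finset.sum_range_succ]
    | succ N hN ih =>
      rw [Finset.sum_range_succ]
      have h1 := rpow_tel hα hN
      rw [if_neg (Nat.succ_ne_zero N)]
      have e : 1 + 1 / α * (1 - ((N + 1 : ℕ) : ℝ) ^ (-α)) =
          (1 + 1 / α * (1 - (N : ℝ) ^ (-α))) +
            1 / α * ((N : ℝ) ^ (-α) - ((N + 1 : ℕ) : ℝ) ^ (-α)) := by ring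
      rw [e]
      exact add_le_add ih h1
  have hα' : 0 ≤ 1 / α := by positivity
  rcases N with _ | _ | N
  · simp
    positivity
  · simp
    positivity
  · refine (key (N + 1) (by omega)).trans ?_
    have h1 : 0 ≤ ((N + 1 : ℕ) : ℝ) ^ (-α) := by positivity
    have := mul_le_mul_of_nonneg_left (a := 1 / α) (b := 1 - ((N + 1 : ℕ) : ℝ) ^ (-α)) (c := 1)
      (by linarith) hα'
    linarith

theorem summ_g {g : ℕ → ℂ} (hg : CM g) {α : ℝ} (hα : 0 < α) {s : ℂ} (hs : s.re = 1 + α) :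
    LSeriesSummable g s := by
  apply LSeriesSummable_of_le_const_mul_rpow (x := 1)
  · rw [hs]
    linarith
  · refine ⟨1, ?_⟩
    intro n _
    rw [sub_self, Real.rpow_zero, mul_one]
    exact hg.bdd n

theorem norm_L {g : ℕ → ℂ} (hg : CM g) {α : ℝ} (hα : 0 < α) {s : ℂ} (hs : s.re = 1 + α) :
    ‖LSeries g s‖ ≤ 1 + 1 / α := by
  have hsum : Summable (LSeries.term g s) := summ_g hg hα hs
  have h1 : ‖LSeries g s‖ ≤ ∑' n, ‖LSeries.term g s n‖ := norm_tsum_le_tsum_norm hsum.norm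
  refine h1.trans ?_
  refine Real.tsum_le_of_sum_range_le (fun n => norm_nonneg _) ?_
  intro N
  have h2 : ∀ n ∈ Finset.range N, ‖LSeries.term g s n‖ ≤
      (if n = 0 then (0 : ℝ) else 1 / (n : ℝ) ^ (1 + α)) := by
    intro n _
    rw [LSeries.norm_term_eq, hs]
    by_cases h0 : n = 0
    · rw [if_pos h0, if_pos h0]
    · rw [if_neg h0, if_neg h0]
      have hn : (0 : ℝ) < (n : ℝ) ^ (1 + α) :=
        Real.rpow_pos_of_pos (by exact_mod_cast Nat.pos_of_ne_zero h0) _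
      exact div_le_div_of_nonneg_right (hg.bdd n) hn.le
  exact (Finset.sum_le_sum h2).trans (sum_le hα N)

/-- summability of sequences bounded by `log n` -/
theorem summ_log {a : ℕ → ℂ} (ha : ∀ n, ‖a n‖ ≤ Real.log n) {α : ℝ} (hα : 0 < α) {s : ℂ}
    (hs : s.re = 1 + α) : LSeriesSummable a s := by
  apply LSeriesSummable_of_le_const_mul_rpow (x := 1 + α / 2)
  · rw [hs]
    linarith
  · refine ⟨1 / (α / 2), ?_⟩
    intro n _
    have h := Real.log_le_rpow_div (x := (n : ℝ)) (ε := α / 2) (Nat.cast_nonneg n) (by linarith)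
    refine (ha n).trans (h.trans (le_of_eq ?_))
    have e : 1 + α / 2 - 1 = α / 2 := by ring
    rw [e]
    ring

theorem norm_log {g : ℕ → ℂ} (hg : CM g) (n : ℕ) :
    ‖g n * (Real.log n : ℂ)‖ ≤ Real.log n := by
  rw [norm_mul, Complex.norm_real, Real.norm_eq_abs,
    abs_of_nonneg (Real.log_natCast_nonneg n)]
  exact mul_le_of_le_one_left (Real.log_natCast_nonneg n) (hg.bdd n)

theorem norm_vm {g : ℕ → ℂ} (hg : CM g) (n : ℕ) :
    ‖g n * ((ArithmeticFunction.vonMangoldt n : ℝ) : ℂ)‖ ≤ ArithmeticFunction.vonMangoldt n := by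
  rw [norm_mul, Complex.norm_real, Real.norm_eq_abs,
    abs_of_nonneg ArithmeticFunction.vonMangoldt_nonneg]
  exact mul_le_of_le_one_left ArithmeticFunction.vonMangoldt_nonneg (hg.bdd n)

/-- `g log = (g Λ) * g` -/
theorem L_log {g : ℕ → ℂ} (hg : CM g) {α : ℝ} (hα : 0 < α) {s : ℂ} (hs : s.re = 1 + α) :
    LSeries (fun n => g n * (Real.log n : ℂ)) s =
      LSeries (fun n => g n * ((ArithmeticFunction.vonMangoldt n : ℝ) : ℂ)) s *
        LSeries g s := by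
  rw [← LSeries_convolution'
    (summ_log (fun n => (norm_vm hg n).trans ArithmeticFunction.vonMangoldt_le_log) hα hs)
    (summ_g hg hα hs)]
  apply LSeries_congr
  intro n hn
  rw [LSeries.convolution_def]
  have h1 : ∀ p ∈ n.divisorsAntidiagonal,
      g p.1 * ((ArithmeticFunction.vonMangoldt p.1 : ℝ) : ℂ) * g p.2 =
        g n * ((ArithmeticFunction.vonMangoldt p.1 : ℝ) : ℂ) := by
    intro p hp
    have h2 : p.1 * p.2 = n := (Nat.mem_divisorsAntidiagonal.1 hp).1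
    rw [← h2, hg.mul]
    ring
  show g n * (Real.log n : ℂ) = ∑ p ∈ n.divisorsAntidiagonal,
    g p.1 * ((ArithmeticFunction.vonMangoldt p.1 : ℝ) : ℂ) * g p.2
  rw [Finset.sum_congr rfl h1, ← Finset.mul_sum]
  congr 1
  have h3 := Nat.sum_divisorsAntidiagonal
    (fun a _ => ((ArithmeticFunction.vonMangoldt a : ℝ) : ℂ)) (n := n)
  rw [h3, ← Complex.ofReal_sum, ArithmeticFunction.vonMangoldt_sum]

theorem gt_vm {g : ℕ → ℂ} (hg : CM g) {κ w : ℝ}
    (hs : Summable (fun n : ℕ => ArithmeticFunction.vonMangoldt n / (n : ℝ) *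
      gw κ (Real.log n - w))) :
    ‖gt κ (fun n => g n * ((ArithmeticFunction.vonMangoldt n : ℝ) : ℂ) / (n : ℂ)) w‖ ≤
      ∑' n : ℕ, ArithmeticFunction.vonMangoldt n / (n : ℝ) * gw κ (Real.log n - w) := by
  unfold gt
  apply tsum_of_norm_bounded hs.hasSum
  intro n
  rw [norm_mul, norm_div, Complex.norm_real, Real.norm_eq_abs, Complex.norm_natCast]
  have h1 : 0 ≤ gw κ (Real.log n - w) := (Real.exp_pos _).le
  rw [abs_of_nonneg h1]
  apply mul_le_mul_of_nonneg_right _ h1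
  exact div_le_div_of_nonneg_right (norm_vm hg n) (Nat.cast_nonneg n)

/-- the mean square of the transform of `g Λ` -/
theorem vm_sq : ∃ K : ℝ, 0 < K ∧ ∀ (g : ℕ → ℂ) (κ y : ℝ), CM g → 0 < κ → κ ≤ 1 → 1 ≤ y →
    ∫ w : ℝ, ‖gt κ (fun n => g n * ((ArithmeticFunction.vonMangoldt n : ℝ) : ℂ) / (n : ℂ)) w‖ ^ 2
      * Real.exp (-2 * (1 / y) * w) ≤ K * y := by
  obtain ⟨B, hB, hBB⟩ := bb_vm
  obtain ⟨C1, hC1, h1⟩ := gauss_sum
  obtain ⟨C2, hC2, h2⟩ := gauss_neg
  refine ⟨(C1 * B) ^ 2 + (C2 * B) ^ 2 * (Real.exp 1 * √Real.pi), by positivity, ?_⟩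
  intro g κ y hg hκ hκ1 hy
  have hy0 : 0 < y := by linarith
  have hy1 : 1 / y ≤ 1 := by rw [div_le_one hy0]; exact hy
  have hyp : 0 < 1 / y := by positivity
  have hneg : -2 * (1 / y) < 0 := by linarith
  have hi1 : Integrable (Set.indicator (Set.Ioi (0 : ℝ))
      (fun w => Real.exp (-2 * (1 / y) * w))) :=
    (integrableOn_exp_mul_Ioi hneg 0).integrable_indicator measurableSet_Ioi
  have hi2 : Integrable (fun w : ℝ => Real.exp (-1 * w ^ 2)) :=
    integrable_exp_neg_mul_sq one_pos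
  have hG : Integrable (fun w : ℝ => (C1 * B) ^ 2 * Set.indicator (Set.Ioi (0 : ℝ))
      (fun w => Real.exp (-2 * (1 / y) * w)) w +
      (C2 * B) ^ 2 * Real.exp 1 * Real.exp (-1 * w ^ 2)) :=
    (hi1.const_mul _).add (hi2.const_mul _)
  have hle : ∀ w : ℝ, ‖gt κ (fun n => g n *
      ((ArithmeticFunction.vonMangoldt n : ℝ) : ℂ) / (n : ℂ)) w‖ ^ 2
      * Real.exp (-2 * (1 / y) * w) ≤ (C1 * B) ^ 2 * Set.indicator (Set.Ioi (0 : ℝ))
      (fun w => Real.exp (-2 * (1 / y) * w)) w +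
      (C2 * B) ^ 2 * Real.exp 1 * Real.exp (-1 * w ^ 2) := by
    intro w
    obtain ⟨hs, hle1⟩ := h1 _ B κ w hBB hκ hκ1
    have hgt := gt_vm hg hs
    rcases lt_or_ge 0 w with hw | hw
    · rw [Set.indicator_of_mem (Set.mem_Ioi.2 hw)]
      have h3 : ‖gt κ (fun n => g n *
          ((ArithmeticFunction.vonMangoldt n : ℝ) : ℂ) / (n : ℂ)) w‖ ^ 2 ≤ (C1 * B) ^ 2 :=
        pow_le_pow_left₀ (norm_nonneg _) (hgt.trans hle1) 2
      have h4 : 0 ≤ (C2 * B) ^ 2 * Real.exp 1 * Real.exp (-1 * w ^ 2) := by positivity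
      have h5 := mul_le_mul_of_nonneg_right h3 (Real.exp_pos (-2 * (1 / y) * w)).le
      linarith
    · rw [Set.indicator_of_notMem (fun h => absurd (Set.mem_Ioi.1 h) (not_lt.2 hw)), mul_zero,
        zero_add]
      have hle2 := h2 _ B κ w hBB hκ hκ1 hw
      have h3 : ‖gt κ (fun n => g n *
          ((ArithmeticFunction.vonMangoldt n : ℝ) : ℂ) / (n : ℂ)) w‖ ^ 2 ≤
          (C2 * B * Real.exp (-w ^ 2)) ^ 2 :=
        pow_le_pow_left₀ (norm_nonneg _) (hgt.trans hle2) 2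
      have h5 := mul_le_mul_of_nonneg_right h3 (Real.exp_pos (-2 * (1 / y) * w)).le
      refine h5.trans ?_
      have e1 : (C2 * B * Real.exp (-w ^ 2)) ^ 2 * Real.exp (-2 * (1 / y) * w) =
          (C2 * B) ^ 2 * Real.exp (-2 * w ^ 2 + -2 * (1 / y) * w) := by
        rw [Real.exp_add, mul_pow, ← Real.exp_nat_mul, mul_assoc]
        congr 3
        push_cast
        ring
      have e2 : (C2 * B) ^ 2 * Real.exp 1 * Real.exp (-1 * w ^ 2) =
          (C2 * B) ^ 2 * Real.exp (1 + -1 * w ^ 2) := by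
        rw [Real.exp_add, mul_assoc]
      rw [e1, e2]
      apply mul_le_mul_of_nonneg_left _ (by positivity)
      apply Real.exp_le_exp.2
      have h6 : -2 * (1 / y) * w ≤ -2 * w := by
        have := mul_le_mul_of_nonneg_right hy1 (by linarith : (0 : ℝ) ≤ -w)
        linarith
      nlinarith [sq_nonneg (w + 1)]
  refine (integral_mono_of_nonneg (Filter.Eventually.of_forall fun w => by positivity) hG
    (Filter.Eventually.of_forall hle)).trans ?_
  rw [integral_add (hi1.const_mul _) (hi2.const_mul _), integral_const_mul, integral_const_mul,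
    integral_indicator measurableSet_Ioi, integral_exp_mul_Ioi hneg, integral_gaussian]
  have e3 : -Real.exp (-2 * (1 / y) * 0) / (-2 * (1 / y)) = y / 2 := by
    rw [mul_zero, Real.exp_zero]
    field_simp
  rw [e3, div_one]
  have hp : 0 ≤ (C2 * B) ^ 2 * (Real.exp 1 * √Real.pi) := by positivity
  have hq : 0 ≤ (C1 * B) ^ 2 := by positivity
  nlinarith

end HalCAux

theorem halC (κ : ℝ) (hκ : 0 < κ) (hκ1 : κ ≤ 1) : ∃ C : ℝ, 0 < C ∧ ∀ (g : ℕ → ℂ) (y M T : ℝ),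
    CM g → 1 ≤ y → 0 ≤ M → 0 ≤ T →
    (∀ t : ℝ, |t| ≤ T → ‖LSeries g (1 + 1 / (y : ℂ) + t * Complex.I)‖ ≤ M) →
    ∫ w in (0 : ℝ)..y, ‖gt κ (fun n => g n * (Real.log n : ℂ) / (n : ℂ)) w‖ ^ 2 ≤
      C * y * (M ^ 2 + Real.exp (-(κ ^ 2 * T ^ 2 / 4)) * y ^ 2) := by
  obtain ⟨K, hK, hvm⟩ := HalCAux.vm_sq
  refine ⟨16 * Real.exp 2 * K, by positivity, ?_⟩
  intro g y M T hg hy hM hT hL
  have hy0 : 0 < y := by linarith
  have hα : 0 < 1 / y := by positivity
  have hα1 : 1 / y ≤ 1 := by rw [div_le_one hy0]; exact hy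
  have hre : ∀ t : ℝ, (1 + ((1 / y : ℝ) : ℂ) + t * Complex.I).re = 1 + 1 / y := by
    intro t
    simp
  have hre1 : (1 + ((1 / y : ℝ) : ℂ)).re = 1 + 1 / y := by simp
  -- the two Plancherel identities
  obtain ⟨a1, a2, a3⟩ := halB κ (1 / y) hκ hα (fun n => g n * (Real.log n : ℂ))
    (HalCAux.summ_log (HalCAux.norm_log hg) hα hre1)
  have hκ' : 0 < κ / √2 := by positivity
  have hκ'1 : κ / √2 ≤ 1 := by
    rw [div_le_one (by positivity)]
    have : (1 : ℝ) ≤ √2 := Real.one_le_sqrt.2 (by norm_num)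
    linarith
  have hκ2 : (κ / √2) ^ 2 = κ ^ 2 / 2 := by
    rw [div_pow, Real.sq_sqrt (by norm_num)]
  obtain ⟨b1, b2, b3⟩ := halB (κ / √2) (1 / y) hκ' hα
    (fun n => g n * ((ArithmeticFunction.vonMangoldt n : ℝ) : ℂ))
    (HalCAux.summ_log (fun n => (HalCAux.norm_vm hg n).trans
      ArithmeticFunction.vonMangoldt_le_log) hα hre1)
  have hvm' := hvm g (κ / √2) y hg hκ' hκ'1 hy
  rw [hκ2] at b2 b3
  -- step A: from the interval to the line
  have hA : ∫ w in (0 : ℝ)..y,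
      ‖gt κ (fun n => g n * (Real.log n : ℂ) / (n : ℂ)) w‖ ^ 2 ≤
      Real.exp 2 * ∫ w : ℝ, ‖gt κ (fun n => g n * (Real.log n : ℂ) / (n : ℂ)) w‖ ^ 2 *
        Real.exp (-2 * (1 / y) * w) := by
    rw [intervalIntegral.integral_of_le hy0.le, ← integral_const_mul]
    have hi := a1.const_mul (Real.exp 2)
    refine (integral_mono_of_nonneg (Filter.Eventually.of_forall fun w => by positivity)
      hi.integrableOn ?_).trans (setIntegral_le_integral hi
        (Filter.Eventually.of_forall fun w => by positivity))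
    rw [Filter.EventuallyLE, ae_restrict_iff' measurableSet_Ioc]
    apply Filter.Eventually.of_forall
    intro w hw
    have h1 : 1 ≤ Real.exp 2 * Real.exp (-2 * (1 / y) * w) := by
      rw [← Real.exp_add]
      apply Real.one_le_exp
      have h2 : (1 / y) * w ≤ 1 := by
        rw [one_div, inv_mul_le_one₀ hy0]
        exact hw.2
      linarith
    have h3 := mul_le_mul_of_nonneg_left h1
      (sq_nonneg ‖gt κ (fun n => g n * (Real.log n : ℂ) / (n : ℂ)) w‖)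
    calc ‖gt κ (fun n => g n * (Real.log n : ℂ) / (n : ℂ)) w‖ ^ 2
        = ‖gt κ (fun n => g n * (Real.log n : ℂ) / (n : ℂ)) w‖ ^ 2 * 1 := (mul_one _).symm
      _ ≤ ‖gt κ (fun n => g n * (Real.log n : ℂ) / (n : ℂ)) w‖ ^ 2 *
          (Real.exp 2 * Real.exp (-2 * (1 / y) * w)) := h3
      _ = Real.exp 2 * (‖gt κ (fun n => g n * (Real.log n : ℂ) / (n : ℂ)) w‖ ^ 2 *
          Real.exp (-2 * (1 / y) * w)) := by ring
  -- step B: the frequency side
  have hMM : 0 ≤ M ^ 2 + 4 * y ^ 2 * Real.exp (-(κ ^ 2 * T ^ 2 / 4)) := by positivity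
  have hB : ∫ t : ℝ, ‖LSeries (fun n => g n * (Real.log n : ℂ))
      (1 + ((1 / y : ℝ) : ℂ) + t * Complex.I)‖ ^ 2 * Real.exp (-(κ ^ 2 * t ^ 2 / 2)) ≤
      (M ^ 2 + 4 * y ^ 2 * Real.exp (-(κ ^ 2 * T ^ 2 / 4))) *
        ∫ t : ℝ, ‖LSeries (fun n => g n * ((ArithmeticFunction.vonMangoldt n : ℝ) : ℂ))
          (1 + ((1 / y : ℝ) : ℂ) + t * Complex.I)‖ ^ 2 *
            Real.exp (-(κ ^ 2 / 2 * t ^ 2 / 2)) := by
    rw [← integral_const_mul]
    apply integral_mono_of_nonneg (Filter.Eventually.of_forall fun w => by positivity)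
      (b2.const_mul _)
    apply Filter.Eventually.of_forall
    intro t
    have e1 := HalCAux.L_log hg hα (hre t)
    have hg2 : ‖LSeries g (1 + ((1 / y : ℝ) : ℂ) + t * Complex.I)‖ ^ 2 *
        Real.exp (-(κ ^ 2 * t ^ 2 / 2)) ≤
        (M ^ 2 + 4 * y ^ 2 * Real.exp (-(κ ^ 2 * T ^ 2 / 4))) *
          Real.exp (-(κ ^ 2 / 2 * t ^ 2 / 2)) := by
      have e2 : Real.exp (-(κ ^ 2 * t ^ 2 / 2)) =
          Real.exp (-(κ ^ 2 * t ^ 2 / 4)) * Real.exp (-(κ ^ 2 / 2 * t ^ 2 / 2)) := by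
        rw [← Real.exp_add]
        congr 1
        ring
      rw [e2, ← mul_assoc]
      apply mul_le_mul_of_nonneg_right _ (Real.exp_pos _).le
      have hκt : 0 ≤ κ ^ 2 * t ^ 2 / 4 := by positivity
      rcases le_or_gt |t| T with ht | ht
      · have h1 := hL t ht
        have e3 : (1 + 1 / (y : ℂ) + t * Complex.I) =
            (1 + ((1 / y : ℝ) : ℂ) + t * Complex.I) := by push_cast; ring
        rw [e3] at h1
        have h2 := pow_le_pow_left₀ (norm_nonneg _) h1 2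
        have h3 : Real.exp (-(κ ^ 2 * t ^ 2 / 4)) ≤ 1 := Real.exp_le_one_iff.2 (by linarith)
        have h4 : 0 ≤ 4 * y ^ 2 * Real.exp (-(κ ^ 2 * T ^ 2 / 4)) := by positivity
        have h5 := mul_le_mul h2 h3 (Real.exp_pos _).le (by positivity)
        linarith
      · have h1 := HalCAux.norm_L hg hα (hre t)
        have h1' : ‖LSeries g (1 + ((1 / y : ℝ) : ℂ) + t * Complex.I)‖ ≤ 2 * y := by
          have : 1 / (1 / y) = y := by field_simp
          rw [this] at h1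
          linarith
        have h2 := pow_le_pow_left₀ (norm_nonneg _) h1' 2
        have h3 : Real.exp (-(κ ^ 2 * t ^ 2 / 4)) ≤ Real.exp (-(κ ^ 2 * T ^ 2 / 4)) := by
          apply Real.exp_le_exp.2
          have h6 : T ^ 2 ≤ t ^ 2 := by
            rw [← sq_abs t]
            exact pow_le_pow_left₀ hT ht.le 2
          have := mul_le_mul_of_nonneg_left h6 (sq_nonneg κ)
          linarith
        have h5 := mul_le_mul h2 h3 (Real.exp_pos _).le (by positivity)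
        have e4 : (2 * y) ^ 2 = 4 * y ^ 2 := by ring
        rw [e4] at h5
        have := sq_nonneg M
        linarith
    show ‖LSeries (fun n => g n * (Real.log n : ℂ))
      (1 + ((1 / y : ℝ) : ℂ) + t * Complex.I)‖ ^ 2 * Real.exp (-(κ ^ 2 * t ^ 2 / 2)) ≤ _
    rw [e1, norm_mul, mul_pow]
    have h7 := mul_le_mul_of_nonneg_left hg2
      (sq_nonneg ‖LSeries (fun n => g n * ((ArithmeticFunction.vonMangoldt n : ℝ) : ℂ))
        (1 + ((1 / y : ℝ) : ℂ) + t * Complex.I)‖)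
    refine le_trans (le_of_eq ?_) (h7.trans (le_of_eq ?_))
    · ring
    · ring
  -- step C: back to the physical side
  set I3 : ℝ := ∫ t : ℝ, ‖LSeries (fun n => g n * ((ArithmeticFunction.vonMangoldt n : ℝ) : ℂ))
          (1 + ((1 / y : ℝ) : ℂ) + t * Complex.I)‖ ^ 2 *
            Real.exp (-(κ ^ 2 / 2 * t ^ 2 / 2)) with hI3
  have hI3n : 0 ≤ I3 := by
    rw [hI3]
    apply integral_nonneg
    intro t
    positivity
  have hC : κ ^ 2 / 4 * I3 ≤ K * y := by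
    refine le_trans ?_ hvm'
    rw [b3]
    have h1 : 1 ≤ Real.exp ((1 / y) ^ 2 * (κ ^ 2 / 2) / 2) := Real.one_le_exp (by positivity)
    have h2 : κ ^ 2 / 4 * I3 ≤
        κ ^ 2 / 4 * Real.exp ((1 / y) ^ 2 * (κ ^ 2 / 2) / 2) * I3 := by
      apply mul_le_mul_of_nonneg_right _ hI3n
      exact le_mul_of_one_le_right (by positivity) h1
    refine h2.trans (le_of_eq ?_)
    ring
  have hD : κ ^ 2 / 2 * Real.exp ((1 / y) ^ 2 * κ ^ 2 / 2) ≤ κ ^ 2 := by
    have h1 : (1 / y) ^ 2 ≤ 1 := pow_le_one₀ hα.le hα1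
    have h2 : κ ^ 2 ≤ 1 := pow_le_one₀ hκ.le hκ1
    have h3 : (1 / y) ^ 2 * κ ^ 2 / 2 ≤ 1 / 2 := by
      have := mul_le_mul h1 h2 (sq_nonneg κ) (by norm_num)
      linarith
    have h4 : Real.exp ((1 / y) ^ 2 * κ ^ 2 / 2) ≤ 2 := by
      refine (Real.exp_le_exp.2 h3).trans ?_
      have h5 : Real.exp (1 / 2) * Real.exp (1 / 2) = Real.exp 1 := by
        rw [← Real.exp_add]
        norm_num
      have h6 := Real.exp_one_lt_d9
      have h7 := Real.exp_pos (1 / 2)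
      nlinarith
    have := mul_le_mul_of_nonneg_left h4 (by positivity : 0 ≤ κ ^ 2 / 2)
    linarith
  refine hA.trans ?_
  rw [a3]
  set I1 : ℝ := ∫ t : ℝ, ‖LSeries (fun n => g n * (Real.log n : ℂ))
      (1 + ((1 / y : ℝ) : ℂ) + t * Complex.I)‖ ^ 2 * Real.exp (-(κ ^ 2 * t ^ 2 / 2)) with hI1
  have hI1n : 0 ≤ I1 := by
    rw [hI1]
    apply integral_nonneg
    intro t
    positivity
  set W : ℝ := M ^ 2 + 4 * y ^ 2 * Real.exp (-(κ ^ 2 * T ^ 2 / 4)) with hW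
  have hW2 : W ≤ 4 * (M ^ 2 + Real.exp (-(κ ^ 2 * T ^ 2 / 4)) * y ^ 2) := by
    have := sq_nonneg M
    rw [hW]
    linarith
  calc Real.exp 2 * (κ ^ 2 / 2 * Real.exp ((1 / y) ^ 2 * κ ^ 2 / 2) * I1)
      ≤ Real.exp 2 * (κ ^ 2 * I1) := by
        apply mul_le_mul_of_nonneg_left _ (Real.exp_pos _).le
        exact mul_le_mul_of_nonneg_right hD hI1n
    _ ≤ Real.exp 2 * (κ ^ 2 * (W * I3)) := by
        apply mul_le_mul_of_nonneg_left _ (Real.exp_pos _).le
        exact mul_le_mul_of_nonneg_left hB (sq_nonneg κ)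
    _ = Real.exp 2 * (4 * W) * (κ ^ 2 / 4 * I3) := by ring
    _ ≤ Real.exp 2 * (4 * W) * (K * y) := by
        apply mul_le_mul_of_nonneg_left hC
        positivity
    _ ≤ Real.exp 2 * (4 * (4 * (M ^ 2 + Real.exp (-(κ ^ 2 * T ^ 2 / 4)) * y ^ 2))) *
        (K * y) := by
        apply mul_le_mul_of_nonneg_right _ (by positivity)
        apply mul_le_mul_of_nonneg_left _ (Real.exp_pos _).le
        linarith
    _ = 16 * Real.exp 2 * K * y * (M ^ 2 + Real.exp (-(κ ^ 2 * T ^ 2 / 4)) * y ^ 2) := by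
        ring

end Pool.MRZ
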