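import Mathlib
import Pool.Agent.MRZ.HalA
import Pool.Agent.MRZ.HalC

/-!
# MRZ/HalD: soft Halász theorem for the Gaussian sums

For `0 < κ ≤ 1`, `ε > 0` there are `ε' > 0`, `T`, `Y` such that for `g` completely multiplicative bounded by one
and `y ≥ Y`: if `‖LSeries g (1 + 1/y + it)‖ ≤ ε' y` for all `|t| ≤ T`, then `‖sk κ g y‖ ≤ ε`.

Proof. Let `C` be larger than the constants of `halA κ`, `halC κ`, `sk_bdd`, `sk_log` and `C ≥ 1`. Choose
`τ ≤ κ` with `C τ ≤ ε/4`, then `δ ∈ (0,1)` with `C² δ/τ ≤ ε/8`, then `ε'` with `(C/τ)(1/δ)(2C)^{1/2} ε' ≤ ε/8`,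
then `T` with `e^{-κ²T²/4} ≤ ε'²`, then `Y` large. Now `∫_0^{δy} ‖sk‖ ≤ C δ y`; on `[δy, y]`:
`‖sk(w)‖ ≤ (‖b(w)‖ + C)/w ≤ (‖b(w)‖ + C)/(δy)` (`sk_log`), so by Cauchy–Schwarz and `halC` (`M = ε'y`)
`∫_{δy}^y ‖sk‖ ≤ (1/(δy)) ( y^{1/2} (C y · 2 ε'² y²)^{1/2} + C y ) = (1/δ) ((2C)^{1/2} ε' y + C)`.
`halA`: `‖sk(y)‖ ≤ (C/(τy)) (C δ y + (1/δ)((2C)^{1/2} ε' y + C)) + C τ + C/(τy)
≤ ε/8 + ε/8 + C²/(τδy) + ε/4 + C/(τy) ≤ ε` for `y ≥ Y`.
-/

namespace Pool.MRZ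

open Finset MeasureTheory

theorem halD_summable (κ : ℝ) (hκ : 0 < κ) (hκ1 : κ ≤ 1) (g : ℕ → ℂ) (hg : ∀ n, ‖g n‖ ≤ 1)
    (w : ℝ) : Summable (fun n : ℕ => (g n * (Real.log n : ℂ) / (n : ℂ)) *
      ((gw κ (Real.log n - w) : ℝ) : ℂ)) := by
  obtain ⟨C1, -, h1⟩ := gauss_abs
  obtain ⟨C2, -, h2⟩ := gauss_sum
  have s1 := (h1 (fun n => 1 / (n : ℝ)) 3 κ w bb_one hκ hκ1).1
  have s2 := (h2 (fun n => 1 / (n : ℝ)) 3 κ w bb_one hκ hκ1).1.mul_left |w|
  refine Summable.of_norm_bounded (s1.add s2) ?_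
  intro n
  have hgw : 0 < gw κ (Real.log n - w) := Real.exp_pos _
  have hlog : 0 ≤ Real.log n := Real.log_natCast_nonneg n
  rw [norm_mul, norm_div, norm_mul, Complex.norm_natCast, Complex.norm_real, Complex.norm_real,
    Real.norm_of_nonneg hlog, Real.norm_of_nonneg hgw.le]
  have hn : (0 : ℝ) ≤ 1 / (n : ℝ) := by positivity
  have h3 : Real.log n ≤ |Real.log n - w| + |w| := by
    have h4 := le_abs_self (Real.log n - w)
    have h5 := le_abs_self w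
    linarith
  have h6 : ‖g n‖ * Real.log n ≤ |Real.log n - w| + |w| := by
    have := hg n
    nlinarith
  calc ‖g n‖ * Real.log n / n * gw κ (Real.log n - w) =
      (‖g n‖ * Real.log n) * (1 / (n : ℝ) * gw κ (Real.log n - w)) := by ring
    _ ≤ (|Real.log n - w| + |w|) * (1 / (n : ℝ) * gw κ (Real.log n - w)) := by
        apply mul_le_mul_of_nonneg_right h6 (by positivity)
    _ = _ := by ring

theorem halD_meas (κ : ℝ) (hκ : 0 < κ) (hκ1 : κ ≤ 1) (g : ℕ → ℂ) (hg : ∀ n, ‖g n‖ ≤ 1) :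
    Measurable (gt κ (fun n => g n * (Real.log n : ℂ) / (n : ℂ))) := by
  have h1 : ∀ N : ℕ, Measurable (fun w : ℝ => ∑ n ∈ Finset.range N,
      (g n * (Real.log n : ℂ) / (n : ℂ)) * ((gw κ (Real.log n - w) : ℝ) : ℂ)) := by
    intro N
    apply Continuous.measurable
    unfold gw
    fun_prop
  refine measurable_of_tendsto_metrizable h1 ?_
  rw [tendsto_pi_nhds]
  intro w
  exact (halD_summable κ hκ hκ1 g hg w).hasSum.tendsto_sum_nat

theorem halD_int (κ : ℝ) (hκ : 0 < κ) (hκ1 : κ ≤ 1) : ∃ C : ℝ, 1 ≤ C ∧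
    ∀ (g : ℕ → ℂ) (y δ ε' T : ℝ), CM g → 1 ≤ y → 0 < δ → δ ≤ 1 → 0 < ε' → 0 ≤ T →
      Real.exp (-(κ ^ 2 * T ^ 2 / 4)) ≤ ε' ^ 2 →
      (∀ t : ℝ, |t| ≤ T → ‖LSeries g (1 + 1 / (y : ℂ) + t * Complex.I)‖ ≤ ε' * y) →
      ∫ w in (0 : ℝ)..y, ‖sk κ g w‖ ≤ C * δ * y + 1 / δ * (2 * C * ε' * y + C) := by
  obtain ⟨C2, hC2, h2⟩ := halC κ hκ hκ1
  obtain ⟨C3, hC3, h3⟩ := sk_bdd
  obtain ⟨C4, hC4, h4⟩ := sk_log
  set C : ℝ := max (max C2 C3) (max C4 1) with hC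
  have c2 : C2 ≤ C := (le_max_left _ _).trans (le_max_left _ _)
  have c3 : C3 ≤ C := (le_max_right _ _).trans (le_max_left _ _)
  have c4 : C4 ≤ C := (le_max_left _ _).trans (le_max_right _ _)
  have c1 : 1 ≤ C := (le_max_right _ _).trans (le_max_right _ _)
  refine ⟨C, c1, ?_⟩
  intro g y δ ε' T hg hy hδ hδ1 hε' hT hexp hL
  have hy0 : 0 < y := by linarith
  have hC0 : 0 < C := by linarith
  have hgb := hg.bdd
  set S : ℝ → ℂ := sk κ g with hS
  set b : ℝ → ℂ := gt κ (fun n => g n * (Real.log n : ℂ) / (n : ℂ)) with hb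
  have hScont : Continuous S := sk_continuous κ hκ hκ1 g hgb
  have hSn : Continuous fun w => ‖S w‖ := hScont.norm
  have hSb : ∀ w, ‖S w‖ ≤ C := fun w => (h3 κ w g hκ hκ1 hgb).trans c3
  have hSl : ∀ w : ℝ, ‖(w : ℂ) * S w - b w‖ ≤ C := fun w => (h4 κ w g hκ hκ1 hgb).trans c4
  have hbm : Measurable b := halD_meas κ hκ hκ1 g hgb
  have hbb : ∀ w ∈ Set.Icc (0 : ℝ) y, ‖b w‖ ≤ C * y + C := by
    intro w hw
    have e : b w = (w : ℂ) * S w - ((w : ℂ) * S w - b w) := by ring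
    rw [e]
    refine (norm_sub_le _ _).trans (add_le_add ?_ (hSl w))
    rw [norm_mul, Complex.norm_real, Real.norm_of_nonneg hw.1, mul_comm]
    exact mul_le_mul (hSb w) hw.2 hw.1 hC0.le
  have hbint : IntervalIntegrable (fun w => ‖b w‖) volume 0 y := by
    rw [intervalIntegrable_iff_integrableOn_Ioc_of_le hy0.le]
    refine Measure.integrableOn_of_bounded (M := C * y + C) (by simp)
      hbm.norm.aestronglyMeasurable ?_
    refine (ae_restrict_mem measurableSet_Ioc).mono fun w hw => ?_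
    rw [norm_norm]
    exact hbb w (Set.Ioc_subset_Icc_self hw)
  have hb2int : IntervalIntegrable (fun w => ‖b w‖ ^ 2) volume 0 y := by
    rw [intervalIntegrable_iff_integrableOn_Ioc_of_le hy0.le]
    refine Measure.integrableOn_of_bounded (M := (C * y + C) ^ 2) (by simp)
      (hbm.norm.pow_const 2).aestronglyMeasurable ?_
    refine (ae_restrict_mem measurableSet_Ioc).mono fun w hw => ?_
    rw [norm_pow, norm_norm]
    exact pow_le_pow_left₀ (norm_nonneg _) (hbb w (Set.Ioc_subset_Icc_self hw)) 2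
  -- mean square
  have hms : ∫ w in (0 : ℝ)..y, ‖b w‖ ^ 2 ≤ 2 * C * ε' ^ 2 * y ^ 3 := by
    have h5 := h2 g y (ε' * y) T hg hy (by positivity) hT hL
    refine h5.trans ?_
    have h6 : (ε' * y) ^ 2 + Real.exp (-(κ ^ 2 * T ^ 2 / 4)) * y ^ 2 ≤ 2 * ε' ^ 2 * y ^ 2 := by
      have h7 : Real.exp (-(κ ^ 2 * T ^ 2 / 4)) * y ^ 2 ≤ ε' ^ 2 * y ^ 2 :=
        mul_le_mul_of_nonneg_right hexp (by positivity)
      nlinarith
    have h8 : 0 ≤ (ε' * y) ^ 2 + Real.exp (-(κ ^ 2 * T ^ 2 / 4)) * y ^ 2 := by positivity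
    calc C2 * y * ((ε' * y) ^ 2 + Real.exp (-(κ ^ 2 * T ^ 2 / 4)) * y ^ 2) ≤
        C * y * (2 * ε' ^ 2 * y ^ 2) := by
          apply mul_le_mul _ h6 h8 (by positivity)
          exact mul_le_mul_of_nonneg_right c2 hy0.le
      _ = _ := by ring
  have hmb : ∫ w in (0 : ℝ)..y, ‖b w‖ ≤ 2 * C * ε' * y ^ 2 := by
    set lam' : ℝ := 1 / (2 * C * ε' * y) with hlam
    have hlam0 : 0 < lam' := by positivity
    have h5 : ∫ w in (0 : ℝ)..y, ‖b w‖ ≤
        ∫ w in (0 : ℝ)..y, (lam' / 2 * ‖b w‖ ^ 2 + 1 / (2 * lam')) := by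
      apply intervalIntegral.integral_mono_on hy0.le hbint
        ((hb2int.const_mul _).add (intervalIntegrable_const))
      intro w _
      have h6 : 0 ≤ (lam' * ‖b w‖ - 1) ^ 2 := sq_nonneg _
      have h7 : lam' / 2 * ‖b w‖ ^ 2 + 1 / (2 * lam') - ‖b w‖ =
          (lam' * ‖b w‖ - 1) ^ 2 / (2 * lam') := by
        field_simp
        ring
      have h8 : 0 ≤ (lam' * ‖b w‖ - 1) ^ 2 / (2 * lam') := by positivity
      linarith
    rw [intervalIntegral.integral_add (hb2int.const_mul _) intervalIntegrable_const,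
      intervalIntegral.integral_const_mul, intervalIntegral.integral_const, sub_zero,
      smul_eq_mul] at h5
    have h9 : lam' / 2 * ∫ w in (0 : ℝ)..y, ‖b w‖ ^ 2 ≤ lam' / 2 * (2 * C * ε' ^ 2 * y ^ 3) :=
      mul_le_mul_of_nonneg_left hms (by positivity)
    have h10 : lam' / 2 * (2 * C * ε' ^ 2 * y ^ 3) = 1 / 2 * (ε' * y ^ 2) := by
      rw [hlam]
      field_simp
    have h11 : y * (1 / (2 * lam')) = C * (ε' * y ^ 2) := by
      rw [hlam]
      field_simp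
    rw [h10] at h9
    rw [h11] at h5
    have h12 : 0 < ε' * y ^ 2 := by positivity
    nlinarith
  have hδy : 0 ≤ δ * y := by positivity
  have hδy1 : δ * y ≤ y := by nlinarith
  have hδy0 : 0 < δ * y := by positivity
  have hI1 : ∫ w in (0 : ℝ)..(δ * y), ‖S w‖ ≤ C * δ * y := by
    have h5 : ∫ w in (0 : ℝ)..(δ * y), ‖S w‖ ≤ ∫ w in (0 : ℝ)..(δ * y), C := by
      apply intervalIntegral.integral_mono_on hδy (hSn.intervalIntegrable _ _)
        intervalIntegrable_const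
      intro w _
      exact hSb w
    rw [intervalIntegral.integral_const, sub_zero, smul_eq_mul] at h5
    linarith
  have hFint : IntervalIntegrable (fun w => 1 / (δ * y) * (‖b w‖ + C)) volume 0 y :=
    (hbint.add intervalIntegrable_const).const_mul _
  have hI2 : ∫ w in (δ * y)..y, ‖S w‖ ≤ 1 / δ * (2 * C * ε' * y + C) := by
    have h5 : ∫ w in (δ * y)..y, ‖S w‖ ≤ ∫ w in (δ * y)..y, 1 / (δ * y) * (‖b w‖ + C) := by
      apply intervalIntegral.integral_mono_on hδy1 (hSn.intervalIntegrable _ _)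
      · apply hFint.mono_set
        rw [Set.uIcc_of_le hδy1, Set.uIcc_of_le hy0.le]
        exact Set.Icc_subset_Icc_left hδy
      · intro w hw
        have hw0 : 0 < w := lt_of_lt_of_le hδy0 hw.1
        have h6 : w * ‖S w‖ ≤ ‖b w‖ + C := by
          have e : (w : ℂ) * S w = b w + ((w : ℂ) * S w - b w) := by ring
          have h7 : ‖(w : ℂ) * S w‖ ≤ ‖b w‖ + C := by
            rw [e]
            exact (norm_add_le _ _).trans (add_le_add le_rfl (hSl w))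
          rwa [norm_mul, Complex.norm_real, Real.norm_of_nonneg hw0.le] at h7
        have h8 : δ * y * ‖S w‖ ≤ ‖b w‖ + C :=
          (mul_le_mul_of_nonneg_right hw.1 (norm_nonneg _)).trans h6
        rw [one_div, ← div_eq_inv_mul, le_div_iff₀ hδy0]
        linarith
    have h9 : ∫ w in (δ * y)..y, 1 / (δ * y) * (‖b w‖ + C) ≤
        ∫ w in (0 : ℝ)..y, 1 / (δ * y) * (‖b w‖ + C) := by
      apply intervalIntegral.integral_mono_interval hδy hδy1 le_rfl _ hFint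
      refine Filter.Eventually.of_forall fun w => ?_
      simp only [Pi.zero_apply]
      positivity
    have e9 : ∫ w in (0 : ℝ)..y, 1 / (δ * y) * (‖b w‖ + C) =
        1 / (δ * y) * ((∫ w in (0 : ℝ)..y, ‖b w‖) + y * C) := by
      rw [intervalIntegral.integral_const_mul, intervalIntegral.integral_add hbint
        intervalIntegrable_const, intervalIntegral.integral_const, sub_zero, smul_eq_mul]
    rw [e9] at h9
    refine h5.trans (h9.trans ?_)
    calc 1 / (δ * y) * ((∫ w in (0 : ℝ)..y, ‖b w‖) + y * C) ≤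
        1 / (δ * y) * (2 * C * ε' * y ^ 2 + y * C) := by
          apply mul_le_mul_of_nonneg_left _ (by positivity)
          linarith
      _ = _ := by
          field_simp
  have hadd := intervalIntegral.integral_add_adjacent_intervals
    (hSn.intervalIntegrable (μ := volume) 0 (δ * y)) (hSn.intervalIntegrable (δ * y) y)
  rw [← hadd]
  linarith

theorem halD (κ ε : ℝ) (hκ : 0 < κ) (hκ1 : κ ≤ 1) (hε : 0 < ε) :
    ∃ ε' T Y : ℝ, 0 < ε' ∧ 0 ≤ T ∧ 1 ≤ Y ∧ ∀ (g : ℕ → ℂ) (y : ℝ), CM g → Y ≤ y →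
      (∀ t : ℝ, |t| ≤ T → ‖LSeries g (1 + 1 / (y : ℂ) + t * Complex.I)‖ ≤ ε' * y) →
      ‖sk κ g y‖ ≤ ε := by
  obtain ⟨C1, hC1, h1⟩ := halA κ hκ hκ1
  obtain ⟨C2, hC2, h2⟩ := halD_int κ hκ hκ1
  set C : ℝ := max C1 C2 with hC
  have c1 : C1 ≤ C := le_max_left _ _
  have c2 : C2 ≤ C := le_max_right _ _
  have hC1' : 1 ≤ C := hC2.trans c2
  have hC0 : 0 < C := by linarith
  set τ : ℝ := min κ (ε / (4 * C)) with hτ
  have hτ0 : 0 < τ := lt_min hκ (by positivity)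
  have hτκ : τ ≤ κ := min_le_left _ _
  have hτε : C * τ ≤ ε / 4 := by
    have h3 : τ ≤ ε / (4 * C) := min_le_right _ _
    calc C * τ ≤ C * (ε / (4 * C)) := mul_le_mul_of_nonneg_left h3 hC0.le
      _ = ε / 4 := by field_simp
  set δ : ℝ := min 1 (ε * τ / (8 * C ^ 2)) with hδ
  have hδ0 : 0 < δ := lt_min one_pos (by positivity)
  have hδ1 : δ ≤ 1 := min_le_left _ _
  have hδε : C ^ 2 * δ / τ ≤ ε / 8 := by
    have h3 : δ ≤ ε * τ / (8 * C ^ 2) := min_le_right _ _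
    calc C ^ 2 * δ / τ ≤ C ^ 2 * (ε * τ / (8 * C ^ 2)) / τ := by gcongr
      _ = ε / 8 := by field_simp
  set ε' : ℝ := ε * τ * δ / (16 * C ^ 2) with hε'
  have hε'0 : 0 < ε' := by positivity
  have hε'ε : 2 * C ^ 2 * ε' / (τ * δ) = ε / 8 := by
    rw [hε']
    field_simp
    norm_num
  set T : ℝ := 2 / (κ * ε') with hT
  have hT0 : 0 ≤ T := by positivity
  have hexp : Real.exp (-(κ ^ 2 * T ^ 2 / 4)) ≤ ε' ^ 2 := by
    have h3 : κ ^ 2 * T ^ 2 / 4 = 1 / ε' ^ 2 := by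
      rw [hT]
      field_simp
      norm_num
    rw [h3, Real.exp_neg]
    have h4 := Real.add_one_le_exp (1 / ε' ^ 2)
    have h5 : 1 / ε' ^ 2 ≤ Real.exp (1 / ε' ^ 2) := by linarith
    have h6 : 0 < 1 / ε' ^ 2 := by positivity
    calc (Real.exp (1 / ε' ^ 2))⁻¹ ≤ (1 / ε' ^ 2)⁻¹ := inv_anti₀ h6 h5
      _ = ε' ^ 2 := by rw [one_div, inv_inv]
  set Y : ℝ := max 1 ((C ^ 2 / (τ * δ) + C / τ) * (2 / ε)) with hY
  refine ⟨ε', T, Y, hε'0, hT0, le_max_left _ _, ?_⟩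
  intro g y hg hYy hL
  have hy1 : 1 ≤ y := (le_max_left _ _).trans hYy
  have hy0 : 0 < y := by linarith
  have hy2 : (C ^ 2 / (τ * δ) + C / τ) * (2 / ε) ≤ y := (le_max_right _ _).trans hYy
  have hy3 : C ^ 2 / (τ * δ * y) + C / (τ * y) ≤ ε / 2 := by
    have e : C ^ 2 / (τ * δ * y) + C / (τ * y) = (C ^ 2 / (τ * δ) + C / τ) / y := by
      field_simp
    rw [e, div_le_iff₀ hy0]
    have h3 : (C ^ 2 / (τ * δ) + C / τ) = (C ^ 2 / (τ * δ) + C / τ) * (2 / ε) * (ε / 2) := by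
      field_simp
    rw [h3]
    calc _ ≤ y * (ε / 2) := mul_le_mul_of_nonneg_right hy2 (by positivity)
      _ = _ := by ring
  have hA := h1 g τ y hg hτ0 hτκ hy1
  have hI := h2 g y δ ε' T hg hy1 hδ0 hδ1 hε'0 hT0 hexp hL
  have hI' : ∫ w in (0 : ℝ)..y, ‖sk κ g w‖ ≤ C * δ * y + 1 / δ * (2 * C * ε' * y + C) := by
    refine hI.trans ?_
    gcongr
  have hInn : 0 ≤ ∫ w in (0 : ℝ)..y, ‖sk κ g w‖ :=
    intervalIntegral.integral_nonneg hy0.le fun w _ => norm_nonneg _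
  calc ‖sk κ g y‖ ≤ C1 * (1 / (τ * y) * (∫ w in (0 : ℝ)..y, ‖sk κ g w‖) + τ + 1 / (τ * y)) := hA
    _ ≤ C * (1 / (τ * y) * (C * δ * y + 1 / δ * (2 * C * ε' * y + C)) + τ + 1 / (τ * y)) := by
        apply mul_le_mul c1 _ (by positivity) hC0.le
        gcongr
    _ = C ^ 2 * δ / τ + 2 * C ^ 2 * ε' / (τ * δ) + C * τ +
        (C ^ 2 / (τ * δ * y) + C / (τ * y)) := by
        field_simp
        ring
    _ ≤ ε / 8 + ε / 8 + ε / 4 + ε / 2 := by
        rw [hε'ε]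
        linarith
    _ = ε := by ring

end Pool.MRZ
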