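import Mathlib
import Pool.Agent.MRZ.HalA

/-!
# MRZ/Sharp: from Gaussian sums to sharp dyadic sums

For `ε > 0` there are `κ ∈ (0,1]`, `ε₁ > 0`, `N₀` such that for `|g| ≤ 1`, `N ≥ N₀`: if `‖sk κ g w‖ ≤ ε₁` for all
`w ∈ [log N, log 2N]` then `‖∑_{N < n ≤ 2N} g(n)/n‖ ≤ ε`.

Proof. `∫ gw κ = κ√π`. Let `W(n) = (1/(κ√π)) ∫_{log N}^{log 2N} gw κ (log n - w) dw ∈ [0,1]`; interchanging sum and
integral (`gauss_sum` for absolute convergence)
`∑_n (g(n)/n) W(n) = (1/(κ√π)) ∫_{log N}^{log 2N} sk κ g w dw`, of norm `≤ log 2 · ε₁/(κ√π)`.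
For `v ≥ D ≥ 0`: `v² ≥ D² + (v-D)²`, so `∫_{|v|≥D} gw κ v dv ≤ κ√π gw κ D`, hence
`|1_{N<n≤2N} - W(n)| ≤ gw κ (log n - log N) + gw κ (log n - log 2N)` for all `n ≥ 1` (distance to the end points;
for `n` with `log N ≤ log n ≤ log 2N` the complement has two pieces). By `gauss_kappa` (`w = log N`, `w = log 2N`):
`∑ (1/n) |1_{N<n≤2N} - W(n)| ≤ 2C (κ + 1/N)`. Choose `κ` with `2Cκ ≤ ε/3`, `N₀` with `2C/N₀ ≤ ε/3` and
`ε₁ = κ ε/3`.
-/

namespace Pool.MRZ

open Finset MeasureTheory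

namespace SharpAux

theorem gw_pos (κ v : ℝ) : 0 < gw κ v := Real.exp_pos _

theorem gw_continuous (κ : ℝ) : Continuous (gw κ) := by
  unfold gw
  fun_prop

theorem gw_eq (κ : ℝ) : gw κ = fun v => Real.exp (-(κ ^ 2)⁻¹ * v ^ 2) := by
  funext v
  unfold gw
  congr 1
  rw [div_pow, div_eq_mul_inv]
  ring

theorem integrable_gw {κ : ℝ} (hκ : 0 < κ) : Integrable (gw κ) := by
  rw [gw_eq]
  exact integrable_exp_neg_mul_sq (by positivity)

theorem integral_gw {κ : ℝ} (hκ : 0 < κ) : ∫ v, gw κ v = κ * √Real.pi := by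
  rw [gw_eq, integral_gaussian, div_inv_eq_mul, mul_comm Real.pi,
    Real.sqrt_mul (sq_nonneg κ), Real.sqrt_sq hκ.le]

theorem integrable_shift {κ : ℝ} (hκ : 0 < κ) (x : ℝ) : Integrable (fun w => gw κ (x - w)) :=
  (integrable_gw hκ).comp_sub_left x

theorem integral_shift {κ : ℝ} (hκ : 0 < κ) (x : ℝ) : ∫ w, gw κ (x - w) = κ * √Real.pi := by
  rw [integral_sub_left_eq_self (gw κ) volume x, integral_gw hκ]

theorem tail {κ x c : ℝ} (hκ : 0 < κ) {S : Set ℝ} (hS : MeasurableSet S)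
    (h : ∀ w ∈ S, 0 ≤ c * (x - w - c)) :
    ∫ w in S, gw κ (x - w) ≤ gw κ c * (κ * √Real.pi) := by
  have hint : Integrable (fun w => gw κ c * gw κ (x - c - w)) :=
    (integrable_shift hκ (x - c)).const_mul _
  have h1 : ∀ w ∈ S, gw κ (x - w) ≤ gw κ c * gw κ (x - c - w) := by
    intro w hw
    unfold gw
    rw [← Real.exp_add]
    apply Real.exp_le_exp.2
    have h2 := h w hw
    have h3 : (x - w) ^ 2 = c ^ 2 + (x - c - w) ^ 2 + 2 * (c * (x - w - c)) := by ring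
    have h4 : (c ^ 2 + (x - c - w) ^ 2) / κ ^ 2 ≤ (x - w) ^ 2 / κ ^ 2 := by
      apply div_le_div_of_nonneg_right _ (by positivity)
      linarith
    rw [div_pow, div_pow, div_pow]
    rw [add_div] at h4
    linarith
  calc ∫ w in S, gw κ (x - w) ≤ ∫ w in S, gw κ c * gw κ (x - c - w) :=
        setIntegral_mono_on (integrable_shift hκ x).integrableOn hint.integrableOn hS h1
    _ ≤ ∫ w, gw κ c * gw κ (x - c - w) :=
        setIntegral_le_integral hint (Filter.Eventually.of_forall fun w =>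
          mul_nonneg (gw_pos _ _).le (gw_pos _ _).le)
    _ = gw κ c * (κ * √Real.pi) := by
        rw [integral_const_mul, integral_shift hκ]

/-- the smoothed indicator function -/
noncomputable def WW (κ a b x : ℝ) : ℝ := (κ * √Real.pi)⁻¹ * ∫ w in Set.Ioc a b, gw κ (x - w)

theorem WW_nonneg {κ : ℝ} (hκ : 0 < κ) (a b x : ℝ) : 0 ≤ WW κ a b x :=
  mul_nonneg (by positivity) (integral_nonneg fun w => (gw_pos _ _).le)

theorem WW_split {κ : ℝ} (hκ : 0 < κ) {a b : ℝ} (hab : a ≤ b) (x : ℝ) :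
    (∫ w in Set.Ioc a b, gw κ (x - w)) + ((∫ w in Set.Iic a, gw κ (x - w)) +
      ∫ w in Set.Ioi b, gw κ (x - w)) = κ * √Real.pi := by
  have hi := integrable_shift hκ x
  rw [← integral_shift hκ x]
  have h1 : (∫ w in Set.Iic a, gw κ (x - w)) + ∫ w in Set.Ioc a b, gw κ (x - w) =
      ∫ w in Set.Iic b, gw κ (x - w) := by
    rw [← setIntegral_union _ measurableSet_Ioc hi.integrableOn hi.integrableOn,
      Set.Iic_union_Ioc_eq_Iic hab]
    rw [Set.disjoint_left]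
    intro w h2 h3
    exact absurd h3.1 (not_lt.2 h2)
  have h2 : (∫ w in Set.Iic b, gw κ (x - w)) + ∫ w in Set.Ioi b, gw κ (x - w) =
      ∫ w, gw κ (x - w) := by
    rw [← Set.compl_Iic]
    exact integral_add_compl measurableSet_Iic hi
  linarith

theorem mid_bound {κ : ℝ} (hκ : 0 < κ) {a b x : ℝ} (hax : a < x) (hxb : x ≤ b) :
    |1 - WW κ a b x| ≤ gw κ (x - a) + gw κ (x - b) := by
  have hk : 0 < κ * √Real.pi := by positivity
  have h1 := WW_split hκ (hax.le.trans hxb) x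
  have h2 : ∫ w in Set.Iic a, gw κ (x - w) ≤ gw κ (x - a) * (κ * √Real.pi) := by
    apply tail hκ measurableSet_Iic
    intro w hw
    apply mul_nonneg (by linarith)
    have : w ≤ a := hw
    linarith
  have h3 : ∫ w in Set.Ioi b, gw κ (x - w) ≤ gw κ (x - b) * (κ * √Real.pi) := by
    apply tail hκ measurableSet_Ioi
    intro w hw
    apply mul_nonneg_of_nonpos_of_nonpos (by linarith)
    have : b < w := hw
    linarith
  have h4 : (0 : ℝ) ≤ ∫ w in Set.Iic a, gw κ (x - w) := integral_nonneg fun w => (gw_pos _ _).le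
  have h5 : (0 : ℝ) ≤ ∫ w in Set.Ioi b, gw κ (x - w) := integral_nonneg fun w => (gw_pos _ _).le
  have h6 : 1 - WW κ a b x = (κ * √Real.pi)⁻¹ * ((∫ w in Set.Iic a, gw κ (x - w)) +
      ∫ w in Set.Ioi b, gw κ (x - w)) := by
    unfold WW
    have h7 : (κ * √Real.pi)⁻¹ * (κ * √Real.pi) = 1 := inv_mul_cancel₀ hk.ne'
    linear_combination -(κ * √Real.pi)⁻¹ * h1 - h7
  rw [h6, abs_of_nonneg (by positivity), inv_mul_le_iff₀ hk]
  linarith

theorem left_bound {κ : ℝ} (hκ : 0 < κ) {a b x : ℝ} (hxa : x ≤ a) :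
    |WW κ a b x| ≤ gw κ (x - a) + gw κ (x - b) := by
  have hk : 0 < κ * √Real.pi := by positivity
  have h2 : ∫ w in Set.Ioc a b, gw κ (x - w) ≤ gw κ (x - a) * (κ * √Real.pi) := by
    apply tail hκ measurableSet_Ioc
    intro w hw
    apply mul_nonneg_of_nonpos_of_nonpos (by linarith)
    have := hw.1
    linarith
  rw [abs_of_nonneg (WW_nonneg hκ a b x)]
  unfold WW
  rw [inv_mul_le_iff₀ hk]
  have h3 := gw_pos κ (x - b)
  nlinarith

theorem right_bound {κ : ℝ} (hκ : 0 < κ) {a b x : ℝ} (hxb : b ≤ x) :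
    |WW κ a b x| ≤ gw κ (x - a) + gw κ (x - b) := by
  have hk : 0 < κ * √Real.pi := by positivity
  have h2 : ∫ w in Set.Ioc a b, gw κ (x - w) ≤ gw κ (x - b) * (κ * √Real.pi) := by
    apply tail hκ measurableSet_Ioc
    intro w hw
    apply mul_nonneg (by linarith)
    have := hw.2
    linarith
  rw [abs_of_nonneg (WW_nonneg hκ a b x)]
  unfold WW
  rw [inv_mul_le_iff₀ hk]
  have h3 := gw_pos κ (x - a)
  nlinarith

theorem summable_gw {κ : ℝ} (hκ : 0 < κ) (hκ1 : κ ≤ 1) (w : ℝ) :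
    Summable (fun n : ℕ => 1 / (n : ℝ) * gw κ (Real.log n - w)) := by
  obtain ⟨C, hC, h⟩ := gauss_sum
  exact (h _ 3 κ w bb_one hκ hκ1).1

/-- interchange of sum and integral -/
theorem swap {κ : ℝ} (hκ : 0 < κ) (hκ1 : κ ≤ 1) {g : ℕ → ℂ} (hg : ∀ n, ‖g n‖ ≤ 1) {a b : ℝ} :
    Summable (fun n : ℕ => g n / (n : ℂ) * ((WW κ a b (Real.log n) : ℝ) : ℂ)) ∧
    ∑' n : ℕ, g n / (n : ℂ) * ((WW κ a b (Real.log n) : ℝ) : ℂ) =
      (((κ * √Real.pi)⁻¹ : ℝ) : ℂ) * ∫ w in Set.Ioc a b, sk κ g w := by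
  obtain ⟨C, hC, hgs⟩ := gauss_sum
  obtain ⟨F, hF⟩ : ∃ F : ℕ → ℝ → ℂ, F = fun n w =>
    g n / (n : ℂ) * ((gw κ (Real.log n - w) : ℝ) : ℂ) := ⟨_, rfl⟩
  have hFc : ∀ n, Continuous (F n) := by
    intro n
    rw [hF]
    have := gw_continuous κ
    fun_prop
  have hFi : ∀ n, Integrable (F n) (volume.restrict (Set.Ioc a b)) := fun n =>
    ((hFc n).integrableOn_Icc (a := a) (b := b)).mono_set Set.Ioc_subset_Icc_self
  have hFn : ∀ n w, ‖F n w‖ ≤ 1 / (n : ℝ) * gw κ (Real.log n - w) := by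
    intro n w
    rw [hF]
    simp only
    rw [norm_mul, norm_div, Complex.norm_natCast, Complex.norm_real, Real.norm_eq_abs,
      abs_of_pos (gw_pos _ _)]
    apply mul_le_mul_of_nonneg_right _ (gw_pos _ _).le
    exact div_le_div_of_nonneg_right (hg n) (Nat.cast_nonneg n)
  have hsum : Summable fun n => ∫ w in Set.Ioc a b, ‖F n w‖ := by
    refine summable_of_sum_le (c := ∫ w in Set.Ioc a b, C * 3)
      (fun n => integral_nonneg fun w => norm_nonneg _) fun s => ?_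
    rw [← integral_finsetSum s fun n _ => (hFi n).norm]
    apply integral_mono (integrable_finsetSum s fun n _ => (hFi n).norm) (integrable_const _)
    intro w
    have h1 := hgs _ 3 κ w bb_one hκ hκ1
    calc ∑ n ∈ s, ‖F n w‖ ≤ ∑ n ∈ s, 1 / (n : ℝ) * gw κ (Real.log n - w) :=
          Finset.sum_le_sum fun n _ => hFn n w
      _ ≤ ∑' n : ℕ, 1 / (n : ℝ) * gw κ (Real.log n - w) :=
          h1.1.sum_le_tsum s fun n _ => mul_nonneg (by positivity) (gw_pos _ _).le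
      _ ≤ C * 3 := h1.2
  have hmain := hasSum_integral_of_summable_integral_norm hFi hsum
  have hsk : (fun w => ∑' n, F n w) = sk κ g := by
    funext w
    rw [hF]
    rfl
  rw [hsk] at hmain
  have hterm : ∀ n : ℕ, g n / (n : ℂ) * ((WW κ a b (Real.log n) : ℝ) : ℂ) =
      (((κ * √Real.pi)⁻¹ : ℝ) : ℂ) * ∫ w in Set.Ioc a b, F n w := by
    intro n
    rw [hF]
    simp only
    rw [integral_const_mul, integral_complex_ofReal]
    unfold WW
    push_cast
    ring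
  have h2 := hmain.mul_left (((κ * √Real.pi)⁻¹ : ℝ) : ℂ)
  simp only [← hterm] at h2
  exact ⟨h2.summable, h2.tsum_eq⟩

end SharpAux

open SharpAux

theorem sharp (ε : ℝ) (hε : 0 < ε) : ∃ κ ε₁ N₀ : ℝ, 0 < κ ∧ κ ≤ 1 ∧ 0 < ε₁ ∧ 1 ≤ N₀ ∧
    ∀ (g : ℕ → ℂ) (N : ℝ), (∀ n, ‖g n‖ ≤ 1) → N₀ ≤ N →
      (∀ w : ℝ, Real.log N ≤ w → w ≤ Real.log (2 * N) → ‖sk κ g w‖ ≤ ε₁) →
      ‖∑ n ∈ Finset.Ioc ⌊N⌋₊ ⌊2 * N⌋₊, g n / (n : ℂ)‖ ≤ ε := by
  obtain ⟨C, hC, hk⟩ := gauss_kappa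
  obtain ⟨κ, hκe⟩ : ∃ κ, κ = min 1 (ε / (6 * C)) := ⟨_, rfl⟩
  have hκ : 0 < κ := by rw [hκe]; exact lt_min one_pos (by positivity)
  have hκ1 : κ ≤ 1 := by rw [hκe]; exact min_le_left _ _
  have hκ2 : 2 * C * κ ≤ ε / 3 := by
    have h1 : κ ≤ ε / (6 * C) := by rw [hκe]; exact min_le_right _ _
    have h2 : 2 * C * κ ≤ 2 * C * (ε / (6 * C)) := mul_le_mul_of_nonneg_left h1 (by positivity)
    have h3 : 2 * C * (ε / (6 * C)) = ε / 3 := by
      field_simp
      ring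
    linarith
  refine ⟨κ, κ * (ε / 3), max 1 (6 * C / ε), hκ, hκ1, by positivity, le_max_left _ _, ?_⟩
  intro g N hg hN hw
  have hN1 : 1 ≤ N := (le_max_left _ _).trans hN
  have hN0 : 0 < N := by linarith
  have hN2 : 2 * C / N ≤ ε / 3 := by
    have h1 : 6 * C / ε ≤ N := (le_max_right _ _).trans hN
    rw [div_le_iff₀ hε] at h1
    rw [div_le_iff₀ hN0]
    linarith
  obtain ⟨a, ha⟩ : ∃ a, a = Real.log N := ⟨_, rfl⟩
  obtain ⟨b, hb⟩ : ∃ b, b = Real.log (2 * N) := ⟨_, rfl⟩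
  rw [← ha, ← hb] at hw
  have ha0 : 0 ≤ a := by rw [ha]; exact Real.log_nonneg hN1
  have hba : b - a = Real.log 2 := by
    rw [ha, hb, Real.log_mul (by norm_num) hN0.ne']
    ring
  have hlog2 : Real.log 2 ≤ 1 := by
    have := Real.log_two_lt_d9
    linarith
  have hlog20 : 0 ≤ Real.log 2 := Real.log_nonneg (by norm_num)
  have hab : a ≤ b := by linarith
  have hb0 : 0 ≤ b := by linarith
  -- the smoothed sum
  obtain ⟨hS, hT⟩ := swap (a := a) (b := b) hκ hκ1 hg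
  have hsm : ‖∑' n : ℕ, g n / (n : ℂ) * ((WW κ a b (Real.log n) : ℝ) : ℂ)‖ ≤ ε / 3 := by
    rw [hT, norm_mul, Complex.norm_real, Real.norm_eq_abs, abs_of_pos (by positivity)]
    have h1 : ‖∫ w in Set.Ioc a b, sk κ g w‖ ≤ (κ * (ε / 3)) * (volume.real (Set.Ioc a b)) := by
      apply norm_setIntegral_le_of_norm_le_const
      · rw [Real.volume_Ioc]; exact ENNReal.ofReal_lt_top
      · intro w hw'
        exact hw w hw'.1.le hw'.2
    rw [Real.volume_real_Ioc_of_le hab, hba] at h1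
    have hsp : 1 ≤ √Real.pi := by
      rw [Real.one_le_sqrt]
      have := Real.pi_gt_three
      linarith
    rw [inv_mul_le_iff₀ (by positivity)]
    refine h1.trans ?_
    have h2 : κ * (ε / 3) * Real.log 2 ≤ κ * (ε / 3) * 1 :=
      mul_le_mul_of_nonneg_left hlog2 (by positivity)
    have h3 : κ * (ε / 3) * 1 ≤ κ * (ε / 3) * √Real.pi :=
      mul_le_mul_of_nonneg_left hsp (by positivity)
    linarith
  -- the sharp sum
  obtain ⟨J, hJ⟩ : ∃ J, J = Finset.Ioc ⌊N⌋₊ ⌊2 * N⌋₊ := ⟨_, rfl⟩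
  rw [← hJ]
  have hmem : ∀ n : ℕ, n ∈ J ↔ (N < n ∧ (n : ℝ) ≤ 2 * N) := by
    intro n
    rw [hJ, Finset.mem_Ioc, Nat.floor_lt hN0.le, Nat.le_floor_iff (by positivity)]
  have hE : ∀ n : ℕ, ‖g n / (n : ℂ) * (if n ∈ J then 1 else 0) -
      g n / (n : ℂ) * ((WW κ a b (Real.log n) : ℝ) : ℂ)‖ ≤
      1 / (n : ℝ) * gw κ (Real.log n - a) + 1 / (n : ℝ) * gw κ (Real.log n - b) := by
    intro n
    rcases Nat.eq_zero_or_pos n with hn | hn
    · subst hn
      simp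
    have hn1 : (1 : ℝ) ≤ n := by exact_mod_cast hn
    have hn0 : (0 : ℝ) < n := by linarith
    rw [← mul_sub, norm_mul, norm_div, Complex.norm_natCast, ← mul_add]
    have key : ‖(if n ∈ J then (1 : ℂ) else 0) - ((WW κ a b (Real.log n) : ℝ) : ℂ)‖ ≤
        gw κ (Real.log n - a) + gw κ (Real.log n - b) := by
      by_cases hnJ : n ∈ J
      · rw [if_pos hnJ]
        rw [hmem] at hnJ
        have h1 : (1 : ℂ) - ((WW κ a b (Real.log n) : ℝ) : ℂ) =
            ((1 - WW κ a b (Real.log n) : ℝ) : ℂ) := by push_cast; ring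
        rw [h1, Complex.norm_real, Real.norm_eq_abs]
        apply mid_bound hκ
        · rw [ha]; exact Real.log_lt_log hN0 hnJ.1
        · rw [hb]; exact Real.log_le_log hn0 hnJ.2
      · rw [if_neg hnJ, zero_sub, norm_neg, Complex.norm_real, Real.norm_eq_abs]
        rw [hmem, not_and_or, not_lt, not_le] at hnJ
        rcases hnJ with h1 | h1
        · apply left_bound hκ
          rw [ha]; exact Real.log_le_log hn0 h1
        · apply right_bound hκ
          rw [hb]; exact Real.log_le_log (by positivity) h1.le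
    apply mul_le_mul _ key (norm_nonneg _) (by positivity)
    exact div_le_div_of_nonneg_right (hg n) hn0.le
  have hsa := summable_gw hκ hκ1 a
  have hsb := summable_gw hκ hκ1 b
  have hsab := hsa.add hsb
  have hSJ : Summable (fun n : ℕ => g n / (n : ℂ) * (if n ∈ J then (1 : ℂ) else 0)) := by
    apply summable_of_ne_finset_zero (s := J)
    intro n hn
    rw [if_neg hn, mul_zero]
  have hTJ : ∑' n : ℕ, g n / (n : ℂ) * (if n ∈ J then (1 : ℂ) else 0) =
      ∑ n ∈ J, g n / (n : ℂ) := by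
    rw [tsum_eq_sum (s := J)]
    · refine Finset.sum_congr rfl fun n hn => ?_
      rw [if_pos hn, mul_one]
    · intro n hn
      rw [if_neg hn, mul_zero]
  have hdiff : ‖∑ n ∈ J, g n / (n : ℂ) -
      ∑' n : ℕ, g n / (n : ℂ) * ((WW κ a b (Real.log n) : ℝ) : ℂ)‖ ≤ 2 * C * κ + 2 * C / N := by
    rw [← hTJ, ← hSJ.tsum_sub hS]
    refine (tsum_of_norm_bounded hsab.hasSum hE).trans ?_
    rw [hsa.tsum_add hsb]
    have k1 := hk κ a hκ hκ1 ha0
    have k2 := hk κ b hκ hκ1 hb0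
    have e1 : Real.exp (-a) = 1 / N := by
      rw [Real.exp_neg, ha, Real.exp_log hN0, one_div]
    have e2 : Real.exp (-b) ≤ 1 / N := by
      rw [← e1]
      apply Real.exp_le_exp.2
      linarith
    rw [e1] at k1
    have k3 : C * (κ + Real.exp (-b)) ≤ C * (κ + 1 / N) :=
      mul_le_mul_of_nonneg_left (by linarith) hC.le
    have e3 : 2 * C / N = 2 * (C * (1 / N)) := by ring
    rw [e3]
    linarith
  have hfin := norm_sub_norm_le (∑ n ∈ J, g n / (n : ℂ))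
    (∑' n : ℕ, g n / (n : ℂ) * ((WW κ a b (Real.log n) : ℝ) : ℂ))
  linarith

end Pool.MRZ
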