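import Mathlib
import Pool.Agent.MRZ.HalD
import Pool.Agent.MRZ.Sharp

/-!
# MRZ/NPCrit: criterion for `NP f`

If `f` is completely multiplicative bounded by one, `f 0 = 0`, and for every `ε' > 0`, for all large `y`,
`‖LSeries f (1 + 1/y + it)‖ ≤ ε' y` for all `|t| ≤ e^{3y}`, then `NP f`.

Proof. Given `ε`: `sharp ε` gives `κ, ε₁, N₀`; `halD κ ε₁` gives `ε', T, Y`; the hypothesis for `ε'` gives `Y₂`.
Let `N ≥ max (N₀, e^Y, e^{Y₂}, T + 2)`, `|t| ≤ N²`, `g(n) = f(n) tw (-t) n` (`CM.tw`). For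
`w ∈ [log N, log 2N]`, `|u| ≤ T`: `LSeries g (1 + 1/w + iu) = LSeries f (1 + 1/w + i(t+u))`
(termwise: `tw (-t) n = n^{-it}` for `n ≥ 1`), `|t+u| ≤ N² + T ≤ N³ ≤ e^{3w}`. So `‖sk κ g w‖ ≤ ε₁` and
`R f N t = ∑_{N<n≤2N} g(n)/n` has norm `≤ ε`.
-/

namespace Pool.MRZ

open Finset

namespace NPCritAux

/-- twisting by `n ^ (-it)` shifts the Dirichlet series -/
theorem lseries_tw (f : ℕ → ℂ) (t : ℝ) (s : ℂ) :
    LSeries (fun n => f n * tw (-t) n) s = LSeries f (s + t * Complex.I) := by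
  unfold LSeries
  refine tsum_congr fun n => ?_
  rcases Nat.eq_zero_or_pos n with hn | hn
  · subst hn
    simp
  · have hn0 : (n : ℂ) ≠ 0 := by exact_mod_cast hn.ne'
    rw [LSeries.term_of_ne_zero hn.ne', LSeries.term_of_ne_zero hn.ne', Complex.cpow_add _ _ hn0]
    have h1 : (n : ℂ) ^ ((t : ℂ) * Complex.I) = tw t n := by
      rw [Complex.cpow_def_of_ne_zero hn0, ← Complex.natCast_log]
      unfold tw
      congr 1
      push_cast
      ring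
    have h2 : tw t n * tw (-t) n = 1 := by
      rw [← tw_add, add_neg_cancel, tw_zero]
    have h3 : tw t n ≠ 0 := left_ne_zero_of_mul_eq_one h2
    have h4 : (n : ℂ) ^ s ≠ 0 := by
      rw [Complex.cpow_def_of_ne_zero hn0]
      exact Complex.exp_ne_zero _
    rw [h1, div_eq_div_iff h4 (mul_ne_zero h4 h3)]
    linear_combination f n * (n : ℂ) ^ s * h2

end NPCritAux

theorem np_crit (f : ℕ → ℂ) (hf : CM f) (h0 : f 0 = 0)
    (h : ∀ ε' : ℝ, 0 < ε' → ∃ Y : ℝ, ∀ y t : ℝ, Y ≤ y → |t| ≤ Real.exp (3 * y) →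
      ‖LSeries f (1 + 1 / (y : ℂ) + t * Complex.I)‖ ≤ ε' * y) : NP f := by
  intro ε hε
  obtain ⟨κ, ε₁, N₀, hκ, hκ1, hε₁, hN₀, hsharp⟩ := sharp ε hε
  obtain ⟨ε', T, Y, hε', hT, hY, hhal⟩ := halD κ ε₁ hκ hκ1 hε₁
  obtain ⟨Y₂, hY₂⟩ := h ε' hε'
  refine ⟨max (max N₀ (Real.exp Y)) (max (Real.exp Y₂) (T + 2)), ?_⟩
  intro N hN t ht
  have hN1 : N₀ ≤ N := le_trans (le_trans (le_max_left _ _) (le_max_left _ _)) hN
  have hN2 : Real.exp Y ≤ N := le_trans (le_trans (le_max_right _ _) (le_max_left _ _)) hN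
  have hN3 : Real.exp Y₂ ≤ N := le_trans (le_trans (le_max_left _ _) (le_max_right _ _)) hN
  have hN4 : T + 2 ≤ N := le_trans (le_trans (le_max_right _ _) (le_max_right _ _)) hN
  have hNpos : 0 < N := by linarith
  have hg : CM (fun n => f n * tw (-t) n) := hf.tw (-t) h0
  refine hsharp (fun n => f n * tw (-t) n) N hg.bdd hN1 ?_
  intro w hw1 hw2
  have hwY : Y ≤ w := ((Real.le_log_iff_exp_le hNpos).2 hN2).trans hw1
  have hwY₂ : Y₂ ≤ w := ((Real.le_log_iff_exp_le hNpos).2 hN3).trans hw1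
  refine hhal _ w hg hwY ?_
  intro u hu
  rw [NPCritAux.lseries_tw]
  have h1 : (1 : ℂ) + 1 / (w : ℂ) + u * Complex.I + t * Complex.I =
      1 + 1 / (w : ℂ) + ((u + t : ℝ) : ℂ) * Complex.I := by
    push_cast
    ring
  rw [h1]
  refine hY₂ w (u + t) hwY₂ ?_
  have h2 : N ^ 3 ≤ Real.exp (3 * w) := by
    have h3 : N ≤ Real.exp w := by
      rw [← Real.exp_log hNpos]
      exact Real.exp_le_exp.2 hw1
    calc N ^ 3 ≤ (Real.exp w) ^ 3 := pow_le_pow_left₀ hNpos.le h3 3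
      _ = Real.exp (3 * w) := by
        rw [← Real.exp_nat_mul]
        norm_num
  have h4 : N ^ 2 + T ≤ N ^ 3 := by
    nlinarith [mul_nonneg (sq_nonneg N) (show (0 : ℝ) ≤ N - 2 by linarith), sq_nonneg (N - 1)]
  calc |u + t| ≤ |u| + |t| := abs_add_le _ _
    _ ≤ T + N ^ 2 := add_le_add hu ht
    _ ≤ N ^ 3 := by linarith
    _ ≤ _ := h2

end Pool.MRZ
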