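import Mathlib
import Pool.Agent.MRZ.NPCrit
import Pool.Agent.MRZ.LChi

/-!
# MRZ/NPLam: `NP (λ χ)` for every Dirichlet character

* `lam_chi_mul`: for `Re s > 1`: `‖LSeries (λχ) s‖ ‖LSeries χ s‖ ≤ 2`. Indeed `λ * 1 = 1_□`, so
  `(λχ) * χ = χ 1_□` and the product is `∑_m χ(m²) m^{-2s}`, of norm `≤ ∑ m^{-2} ≤ 2`
  (`LSeries_convolution'`; `∑_{d∣n} λ(d) = 1` if `n` is a square and `0` otherwise: multiplicative, check prime
  powers; alternatively avoid the exact identity: for `Re s > 1` both series are absolutely convergent Euler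
  products, `(1 + χ(p)p^{-s})^{-1} (1 - χ(p)p^{-s})^{-1} = (1 - χ²(p) p^{-2s})^{-1}`,
  `DirichletCharacter.LSeries_eulerProduct_hasProd`, `EulerProduct.eulerProduct_completely_multiplicative_hasProd`).
* `np_lam_chi`: `np_crit` for `f = λχ` (`cm_lam_chi`, `f 0 = 0` as `lam 0 = 0`): by `lchi_low` with `ε'/2`:
  `‖LSeries (λχ) s‖ ≤ 2/‖LSeries χ s‖ ≤ ε' y`.
-/

namespace Pool.MRZ

open Finset

/-- the summand `λ(n) χ(n) n^{-s}` -/
noncomputable def lamHom {q : ℕ} (χ : DirichletCharacter ℂ q) {s : ℂ} (hs : s ≠ 0) : ℕ →*₀ ℂ where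
  toFun n := lam n * dirichletSummandHom χ hs n
  map_zero' := by rw [map_zero, mul_zero]
  map_one' := by rw [lam_one, map_one, mul_one]
  map_mul' m n := by
    rw [lam_mul, map_mul]
    ring

theorem lamHom_apply {q : ℕ} (χ : DirichletCharacter ℂ q) {s : ℂ} (hs : s ≠ 0) (n : ℕ) :
    lamHom χ hs n = lam n * (χ n * (n : ℂ) ^ (-s)) := rfl

theorem summable_lamHom {q : ℕ} (χ : DirichletCharacter ℂ q) {s : ℂ} (hs : 1 < s.re) :
    Summable (fun n => ‖lamHom χ (Complex.ne_zero_of_one_lt_re hs) n‖) := by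
  refine (summable_dirichletSummand χ hs).of_nonneg_of_le (fun n => norm_nonneg _) (fun n => ?_)
  change ‖lam n * dirichletSummandHom χ (Complex.ne_zero_of_one_lt_re hs) n‖ ≤ _
  rw [norm_mul]
  exact mul_le_of_le_one_left (norm_nonneg _) (norm_lam_le n)

theorem tsum_lamHom {q : ℕ} (χ : DirichletCharacter ℂ q) {s : ℂ} (hs : 1 < s.re) :
    ∑' n, lamHom χ (Complex.ne_zero_of_one_lt_re hs) n =
      LSeries (fun n => lam n * χ n) s := by
  rw [LSeries]
  refine tsum_congr fun n => ?_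
  rw [lamHom_apply, LSeries.term_of_ne_zero' (Complex.ne_zero_of_one_lt_re hs), Complex.cpow_neg,
    div_eq_mul_inv, mul_assoc]

theorem norm_sq_le {q : ℕ} (χ : DirichletCharacter ℂ q) {s : ℂ} (hs : 1 < s.re) :
    ‖LSeries (fun n => (χ ^ 2) n) (2 * s)‖ ≤ 2 := by
  have hs2 : 1 < (2 * s).re := by
    simp only [Complex.mul_re, Complex.re_ofNat, Complex.im_ofNat, zero_mul, sub_zero]
    linarith
  have h0 := tsum_dirichletSummand (χ ^ 2) hs2
  have hz := hasSum_zeta_two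
  have hle : ∀ n : ℕ, ‖dirichletSummandHom (χ ^ 2) (Complex.ne_zero_of_one_lt_re hs2) n‖ ≤
      1 / (n : ℝ) ^ 2 := by
    intro n
    rcases Nat.eq_zero_or_pos n with rfl | hn
    · rw [map_zero, norm_zero]
      positivity
    · change ‖(χ ^ 2) n * (n : ℂ) ^ (-(2 * s))‖ ≤ _
      rw [norm_mul, Complex.norm_natCast_cpow_of_pos hn]
      have h1 : (-(2 * s)).re ≤ -2 := by
        simp only [Complex.neg_re, Complex.mul_re, Complex.re_ofNat, Complex.im_ofNat, zero_mul,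
          sub_zero]
        linarith
      have hn1 : (1 : ℝ) ≤ n := by exact_mod_cast hn
      have h2 : (n : ℝ) ^ (-(2 * s)).re ≤ (n : ℝ) ^ (-2 : ℝ) :=
        Real.rpow_le_rpow_of_exponent_le hn1 h1
      have h3 : (n : ℝ) ^ (-2 : ℝ) = 1 / (n : ℝ) ^ 2 := by
        rw [Real.rpow_neg (by positivity), one_div]
        norm_num
      calc ‖(χ ^ 2) n‖ * (n : ℝ) ^ (-(2 * s)).re ≤ 1 * (n : ℝ) ^ (-(2 * s)).re := by
            apply mul_le_mul_of_nonneg_right ((χ ^ 2).norm_le_one _)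
            positivity
        _ ≤ 1 / (n : ℝ) ^ 2 := by rw [one_mul, ← h3]; exact h2
  have h4 : LSeries (fun n => (χ ^ 2) n) (2 * s) =
      ∑' n, dirichletSummandHom (χ ^ 2) (Complex.ne_zero_of_one_lt_re hs2) n := h0.symm
  rw [h4]
  have hpi := Real.pi_lt_d2
  have hpi0 := Real.pi_pos
  calc ‖∑' n, dirichletSummandHom (χ ^ 2) (Complex.ne_zero_of_one_lt_re hs2) n‖
      ≤ ∑' n, ‖dirichletSummandHom (χ ^ 2) (Complex.ne_zero_of_one_lt_re hs2) n‖ :=
        norm_tsum_le_tsum_norm (summable_dirichletSummand (χ ^ 2) hs2)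
    _ ≤ ∑' n : ℕ, 1 / (n : ℝ) ^ 2 :=
        (summable_dirichletSummand (χ ^ 2) hs2).tsum_le_tsum hle hz.summable
    _ = Real.pi ^ 2 / 6 := hz.tsum_eq
    _ ≤ 2 := by nlinarith

theorem lam_chi_mul (q : ℕ) [NeZero q] (χ : DirichletCharacter ℂ q) (s : ℂ) (hs : 1 < s.re) :
    ‖LSeries (fun n => lam n * χ n) s‖ * ‖LSeries (fun n => χ n) s‖ ≤ 2 := by
  have hs2 : 1 < (2 * s).re := by
    simp only [Complex.mul_re, Complex.re_ofNat, Complex.im_ofNat, zero_mul, sub_zero]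
    linarith
  have hA := EulerProduct.eulerProduct_completely_multiplicative_hasProd (summable_lamHom χ hs)
  rw [tsum_lamHom χ hs] at hA
  have hB := DirichletCharacter.LSeries_eulerProduct_hasProd χ hs
  have hC := DirichletCharacter.LSeries_eulerProduct_hasProd (χ ^ 2) hs2
  have hAB := hA.mul hB
  have heq : (fun p : Nat.Primes => (1 - lamHom χ (Complex.ne_zero_of_one_lt_re hs) p)⁻¹ *
      (1 - χ p * (p : ℂ) ^ (-s))⁻¹) =
      fun p : Nat.Primes => (1 - (χ ^ 2) p * (p : ℂ) ^ (-(2 * s)))⁻¹ := by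
    funext p
    have hp0 : ((p : ℕ) : ℂ) ≠ 0 := by exact_mod_cast p.2.ne_zero
    have e1 : lamHom χ (Complex.ne_zero_of_one_lt_re hs) p = -(χ p * (p : ℂ) ^ (-s)) := by
      rw [lamHom_apply, lam_prime p.2]
      ring
    have e2 : (χ ^ 2) p = χ p * χ p := by
      rw [pow_two, MulChar.mul_apply]
    have e3 : (p : ℂ) ^ (-(2 * s)) = (p : ℂ) ^ (-s) * (p : ℂ) ^ (-s) := by
      rw [← Complex.cpow_add _ _ hp0]
      congr 1
      ring
    rw [e1, e2, e3, ← mul_inv]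
    congr 1
    ring
  rw [heq] at hAB
  have hprod := hAB.unique hC
  rw [← norm_mul]
  calc ‖LSeries (fun n => lam n * χ n) s * LSeries (fun n => χ n) s‖
      = ‖LSeries (fun n => (χ ^ 2) n) (2 * s)‖ := by rw [← hprod]
    _ ≤ 2 := norm_sq_le χ hs

theorem np_lam_chi (q : ℕ) [NeZero q] (χ : DirichletCharacter ℂ q) :
    NP (fun n => lam n * χ n) := by
  refine np_crit _ (cm_lam_chi χ) ?_ ?_
  · change lam 0 * _ = 0
    rw [lam_zero, zero_mul]
  · intro ε' hε'
    obtain ⟨Y, hY1, hY⟩ := lchi_low q χ (ε' / 2) (by positivity)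
    refine ⟨Y, fun y t hy ht => ?_⟩
    have hy1 : 1 ≤ y := hY1.trans hy
    have h1 := hY y t hy ht
    have hs : 1 < (1 + 1 / (y : ℂ) + t * Complex.I).re := by
      have : (1 + 1 / (y : ℂ) + t * Complex.I).re = 1 + 1 / y := by
        have e1 : (1 / (y : ℂ)) = ((1 / y : ℝ) : ℂ) := by push_cast; rfl
        rw [e1]
        simp
      rw [this]
      have : 0 < 1 / y := by positivity
      linarith
    have h2 := lam_chi_mul q χ _ hs
    have h3 := norm_nonneg (LSeries (fun n => lam n * χ n) (1 + 1 / (y : ℂ) + t * Complex.I))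
    generalize ‖LSeries (fun n => lam n * χ n) (1 + 1 / (y : ℂ) + t * Complex.I)‖ = a at h2 h3 ⊢
    generalize ‖LSeries (fun n => χ n) (1 + 1 / (y : ℂ) + t * Complex.I)‖ = b at h1 h2
    have h4 : a * 1 ≤ a * (ε' / 2 * y * b) := mul_le_mul_of_nonneg_left h1 h3
    have h5 : a * (ε' / 2 * y * b) = (ε' / 2 * y) * (a * b) := by ring
    have h6 : (ε' / 2 * y) * (a * b) ≤ (ε' / 2 * y) * 2 :=
      mul_le_mul_of_nonneg_left h2 (by positivity)
    linarith

end Pool.MRZ
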