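import Mathlib
import Pool.Agent.MRZ.Fejer

/-!
# MRZ/Phys: from integer frequencies to short intervals

For `|f| ≤ 1`, `Y = X / H1` (natural division), `K ≥ 2`, `K H1 ≤ X`:
`∑_{X<x≤2X} |∑_{x<n≤x+K H1} f(n)| ≤ C K H1 X ( (∑_{|t|<Y} |R f X t|²)^{1/2} + (1+log K)/K + K H1/X )`.

Proof. Put `H = K H1`, `G(u) = ∑_{X<n≤2X} (f(n)/n) fej Y (log n - u) = ∑_{|t|<Y} (1-|t|/Y) e^{-itu} R f X (-t)`
(`fej_eq_sum_exp`). Orthogonality of `e^{itu}` on `[0,2π]` (or on any interval of length `2π`):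
`∫_{log X}^{log X + 2π} |G|² du = 2π ∑ (1-|t|/Y)² |R f X (-t)|² ≤ 2π Σ`, `Σ = ∑_{|t|<Y} |R f X t|²`.
For `X < x ≤ 2X - H` compare `S(x) = ∑_{x<n≤x+H} f(n)` with
`(1/2π) ∫_{log x}^{log(x+H)} e^u G(u) du = ∑_{X<n≤2X} f(n) w(n)`,
`w(n) = (1/2π) ∫_{log x}^{log (x+H)} (e^u/n) fej Y (log n - u) du`. Claim:
`∑_{X<n≤2X} |1_{x<n≤x+H} - w(n)| ≤ C (X/Y)(1 + log K) + C`. Indeed `0 ≤ fej`, `∫_{-π}^{π} fej Y = 2π`,
`|e^u/n - 1| ≤ 2|u - log n|`; the mass of `fej Y/2π` outside `[-δ,δ]` is `≤ C/(Yδ)`; so with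
`d = min(|log n - log x|, |log n - log (x+H)|)` (all logs involved differ by at most `log 2 + … < π`, no
wrap-around): `|1 - w| ≤ C min(1, 1/(Yd)) + C (1 + log Y)/Y·…`; more precisely for `n` outside the interval at
distance `d` with `d ≥ H/X` the bound is `C (H/X)/(Y d²)`, for `d ≤ H/X`, `C min(1, 1/(Yd))`; the term with
`|u - log n|` contributes `≤ C/Y · (1 + log Y)`-free: `∫ |v| fej Y(v) dv ≤ C (1+log Y)/Y` over the window of `u` only
of length `≤ 2H/X`: bounded by `C (H/X) min(Y, 1/(Y v²))|v| …`; summing over the `≤ X` integers `n` with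
spacing `1/n ≍ 1/X` of `log n` gives `C (X/Y)(1 + log (Y H/X)) ≤ C H1 (1+log K)` (note `X/Y ≤ 2 H1` because
`Y = X/H1 ≥ 1`... `Y ≥ X/(2H1)`), and `H1 ≥ 1` absorbs the `+C`.
Hence `∑_x |S(x)| ≤ (1/2π) ∑_x ∫_{log x}^{log(x+H)} e^u |G(u)| du + C X H1 (1+log K) + H·H`
(the last for the `x > 2X - H`), and `∑_x 1_{log x ≤ u ≤ log(x+H)} ≤ H + 1`, `e^u ≤ 3X`, so the first term is
`≤ C X H ∫_{log X}^{log 3X} |G| ≤ C X H (∫|G|²)^{1/2} ≤ C X H Σ^{1/2}`.
-/

namespace Pool.MRZ

open Finset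

private lemma ph_cont (Y : ℕ) : Continuous (fej Y) := by
  unfold fej
  fun_prop

private noncomputable def phI (Y : ℕ) (d : ℝ) : ℝ := ∫ θ in (0 : ℝ)..d, fej Y θ

private lemma ph_pi (Y : ℕ) (hY : 1 ≤ Y) : phI Y Real.pi = Real.pi := by
  unfold phI fej
  rw [intervalIntegral.integral_finsetSum]
  · rw [Finset.sum_eq_single (0 : ℤ)]
    · simp
    · intro t _ ht
      rw [intervalIntegral.integral_const_mul]
      have h0 : (t : ℝ) ≠ 0 := by exact_mod_cast ht
      have h1 : ∫ θ in (0 : ℝ)..Real.pi, Real.cos ((t : ℝ) * θ) = 0 := by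
        rw [intervalIntegral.integral_comp_mul_left (f := Real.cos) h0, integral_cos,
          Real.sin_int_mul_pi]
        simp
      rw [h1, mul_zero]
    · intro h
      exact absurd (by rw [Finset.mem_Ioo]; constructor <;> omega) h
  · intro t _
    apply Continuous.intervalIntegrable
    fun_prop

private lemma ph_zero (Y : ℕ) : phI Y 0 = 0 := by
  unfold phI
  exact intervalIntegral.integral_same

private lemma ph_sub (Y : ℕ) (a b : ℝ) : phI Y b - phI Y a = ∫ θ in a..b, fej Y θ :=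
  intervalIntegral.integral_interval_sub_left ((ph_cont Y).intervalIntegrable _ _)
    ((ph_cont Y).intervalIntegrable _ _)

private lemma ph_mono (Y : ℕ) {a b : ℝ} (h : a ≤ b) : phI Y a ≤ phI Y b := by
  have h1 := ph_sub Y a b
  have h2 : 0 ≤ ∫ θ in a..b, fej Y θ :=
    intervalIntegral.integral_nonneg h fun θ _ => fej_nonneg Y θ
  linarith

private lemma ph_odd (Y : ℕ) (d : ℝ) : phI Y (-d) = -phI Y d := by
  unfold phI
  have h := intervalIntegral.integral_comp_neg (a := 0) (b := d) (f := fej Y)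
  simp only [fej_neg, neg_zero] at h
  rw [h]
  exact intervalIntegral.integral_symm _ _

private lemma ph_far (Y : ℕ) (hY : 1 ≤ Y) {d b : ℝ} (hd : 0 < d) (hdb : d ≤ b)
    (hb : b ≤ Real.pi) : phI Y b - phI Y d ≤ Real.pi ^ 2 / Y * (1 / d - 1 / b) := by
  rw [ph_sub]
  have hcont : ContinuousOn (fun θ : ℝ => 1 / θ ^ 2) (Set.uIcc d b) := by
    rw [Set.uIcc_of_le hdb]
    apply ContinuousOn.div continuousOn_const (by fun_prop)
    intro θ hθ
    have : 0 < θ := lt_of_lt_of_le hd hθ.1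
    positivity
  have h1 : ∫ θ in d..b, (Real.pi ^ 2 / Y) * (1 / θ ^ 2) =
      Real.pi ^ 2 / Y * (1 / d - 1 / b) := by
    rw [intervalIntegral.integral_const_mul]
    congr 1
    have h2 : ∫ θ in d..b, 1 / θ ^ 2 = (fun θ : ℝ => -(θ⁻¹)) b - (fun θ : ℝ => -(θ⁻¹)) d := by
      apply intervalIntegral.integral_eq_sub_of_hasDerivAt
      · intro θ hθ
        rw [Set.uIcc_of_le hdb] at hθ
        have h3 : 0 < θ := lt_of_lt_of_le hd hθ.1
        have h4 : HasDerivAt (fun y : ℝ => -(y⁻¹)) (-(-(θ ^ 2)⁻¹)) θ :=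
          (hasDerivAt_inv h3.ne').neg
        rw [neg_neg, ← one_div] at h4
        exact h4
      · exact hcont.intervalIntegrable
    rw [h2]
    simp only [one_div]
    ring
  rw [← h1]
  apply intervalIntegral.integral_mono_on hdb
  · exact (ph_cont Y).intervalIntegrable _ _
  · exact (hcont.intervalIntegrable).const_mul _
  · intro θ hθ
    have hθ0 : 0 < θ := lt_of_lt_of_le hd hθ.1
    have := fej_le_inv hY hθ0.ne' (by rw [abs_of_pos hθ0]; exact hθ.2.trans hb)
    refine this.trans (le_of_eq ?_)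
    rw [div_mul_div_comm, mul_one]

/-- the majorant -/
private noncomputable def phm (H1 H : ℕ) (j : ℕ) : ℝ :=
  if j ≤ H1 then 1 else if j ≤ H then (H1 : ℝ) / j else (H1 : ℝ) * H / (j : ℝ) ^ 2

private lemma phm_nonneg (H1 H j : ℕ) : 0 ≤ phm H1 H j := by
  unfold phm
  split_ifs <;> positivity

private lemma ph_P1 {X H1 H Y j : ℕ} (hX : 1 ≤ X) (hY : 1 ≤ Y) (hXY : (X : ℝ) ≤ 2 * H1 * Y)
    {d L : ℝ} (hd0 : 0 ≤ d) (hL0 : 0 ≤ L) (hdL : d + L ≤ Real.pi)
    (hd : (j : ℝ) / (2 * X) ≤ d) (hL : L ≤ (H : ℝ) / X) :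
    1 / (2 * Real.pi) * (phI Y (d + L) - phI Y d) ≤ 13 * phm H1 H j := by
  have hX0 : (0 : ℝ) < X := by exact_mod_cast hX
  have hY0 : (0 : ℝ) < Y := by exact_mod_cast hY
  have hp := Real.pi_pos
  have hp4 : Real.pi < 3.15 := Real.pi_lt_d2
  rw [div_le_iff₀ (by positivity)] at hd
  rw [le_div_iff₀ hX0] at hL
  unfold phm
  split_ifs with h1 h2
  · have e1 : phI Y (d + L) ≤ Real.pi := by
      rw [← ph_pi Y hY]
      have := ph_mono Y hdL
      rwa [ph_pi Y hY] at this ⊢
    have e2 : 0 ≤ phI Y d := by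
      rw [← ph_zero Y]
      exact ph_mono Y hd0
    calc 1 / (2 * Real.pi) * (phI Y (d + L) - phI Y d) ≤ 1 / (2 * Real.pi) * Real.pi :=
          mul_le_mul_of_nonneg_left (by linarith) (by positivity)
      _ = 1 / 2 := by field_simp
      _ ≤ 13 * 1 := by norm_num
  · have hj0 : 0 < j := by omega
    have hj : (0 : ℝ) < j := by exact_mod_cast hj0
    have hd1 : 0 < d := by
      by_contra hcon
      have : d = 0 := le_antisymm (not_lt.1 hcon) hd0
      rw [this] at hd
      linarith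
    have e1 := ph_far Y hY hd1 (by linarith : d ≤ d + L) hdL
    have e2 : 1 / (Y * d) ≤ 4 * H1 / j := by
      rw [div_le_div_iff₀ (by positivity) hj]
      nlinarith
    have e3 : Real.pi ^ 2 / Y * (1 / d - 1 / (d + L)) ≤ Real.pi ^ 2 * (4 * H1 / j) := by
      have : 0 ≤ 1 / (d + L) := by positivity
      calc Real.pi ^ 2 / Y * (1 / d - 1 / (d + L)) ≤ Real.pi ^ 2 / Y * (1 / d) :=
            mul_le_mul_of_nonneg_left (by linarith) (by positivity)
        _ = Real.pi ^ 2 * (1 / (Y * d)) := by field_simp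
        _ ≤ _ := mul_le_mul_of_nonneg_left e2 (by positivity)
    calc 1 / (2 * Real.pi) * (phI Y (d + L) - phI Y d)
        ≤ 1 / (2 * Real.pi) * (Real.pi ^ 2 * (4 * H1 / j)) :=
          mul_le_mul_of_nonneg_left (e1.trans e3) (by positivity)
      _ = 2 * Real.pi * (H1 / j) := by field_simp; ring
      _ ≤ 13 * (H1 / j) := mul_le_mul_of_nonneg_right (by linarith) (by positivity)
  · have hj0 : 0 < j := by omega
    have hj : (0 : ℝ) < j := by exact_mod_cast hj0
    have hd1 : 0 < d := by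
      by_contra hcon
      have : d = 0 := le_antisymm (not_lt.1 hcon) hd0
      rw [this] at hd
      linarith
    have e1 := ph_far Y hY hd1 (by linarith : d ≤ d + L) hdL
    have e2 : L / (Y * d ^ 2) ≤ 8 * (H1 * H) / (j : ℝ) ^ 2 := by
      rw [div_le_div_iff₀ (by positivity) (by positivity)]
      have f1 : (j : ℝ) ^ 2 ≤ (d * (2 * X)) ^ 2 := by
        apply pow_le_pow_left₀ hj.le hd
      calc L * (j : ℝ) ^ 2 ≤ L * (d * (2 * X)) ^ 2 := mul_le_mul_of_nonneg_left f1 hL0
        _ = (L * X) * (4 * X * d ^ 2) := by ring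
        _ ≤ H * (4 * X * d ^ 2) := mul_le_mul_of_nonneg_right hL (by positivity)
        _ = (4 * H * d ^ 2) * X := by ring
        _ ≤ (4 * H * d ^ 2) * (2 * H1 * Y) := mul_le_mul_of_nonneg_left hXY (by positivity)
        _ = _ := by ring
    have e3 : Real.pi ^ 2 / Y * (1 / d - 1 / (d + L)) ≤
        Real.pi ^ 2 * (8 * (H1 * H) / (j : ℝ) ^ 2) := by
      have f1 : 1 / d - 1 / (d + L) ≤ L / d ^ 2 := by
        have : 1 / d - 1 / (d + L) = L / (d * (d + L)) := by
          field_simp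
          ring
        rw [this]
        apply div_le_div_of_nonneg_left hL0 (by positivity)
        nlinarith
      calc Real.pi ^ 2 / Y * (1 / d - 1 / (d + L)) ≤ Real.pi ^ 2 / Y * (L / d ^ 2) :=
            mul_le_mul_of_nonneg_left f1 (by positivity)
        _ = Real.pi ^ 2 * (L / (Y * d ^ 2)) := by field_simp
        _ ≤ _ := mul_le_mul_of_nonneg_left e2 (by positivity)
    calc 1 / (2 * Real.pi) * (phI Y (d + L) - phI Y d)
        ≤ 1 / (2 * Real.pi) * (Real.pi ^ 2 * (8 * (H1 * H) / (j : ℝ) ^ 2)) :=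
          mul_le_mul_of_nonneg_left (e1.trans e3) (by positivity)
      _ = 4 * Real.pi * (H1 * H / (j : ℝ) ^ 2) := by field_simp; ring
      _ ≤ 13 * (H1 * H / (j : ℝ) ^ 2) := mul_le_mul_of_nonneg_right (by linarith) (by positivity)

private lemma ph_P2 {X H1 H Y j : ℕ} (hX : 1 ≤ X) (hY : 1 ≤ Y) (hXY : (X : ℝ) ≤ 2 * H1 * Y)
    {d : ℝ} (hd0 : 0 ≤ d) (hdπ : d ≤ Real.pi) (hjH : j ≤ H)
    (hd : (j : ℝ) / (2 * X) ≤ d) :
    1 / (2 * Real.pi) * (Real.pi - phI Y d) ≤ 13 * phm H1 H j := by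
  have hX0 : (0 : ℝ) < X := by exact_mod_cast hX
  have hY0 : (0 : ℝ) < Y := by exact_mod_cast hY
  have hp := Real.pi_pos
  have hp4 : Real.pi < 3.15 := Real.pi_lt_d2
  rw [div_le_iff₀ (by positivity)] at hd
  unfold phm
  split_ifs with h1
  · have e2 : 0 ≤ phI Y d := by
      rw [← ph_zero Y]
      exact ph_mono Y hd0
    calc 1 / (2 * Real.pi) * (Real.pi - phI Y d) ≤ 1 / (2 * Real.pi) * Real.pi :=
          mul_le_mul_of_nonneg_left (by linarith) (by positivity)
      _ = 1 / 2 := by field_simp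
      _ ≤ 13 * 1 := by norm_num
  · have hj0 : 0 < j := by omega
    have hj : (0 : ℝ) < j := by exact_mod_cast hj0
    have hd1 : 0 < d := by
      by_contra hcon
      have : d = 0 := le_antisymm (not_lt.1 hcon) hd0
      rw [this] at hd
      linarith
    have e1 := ph_far Y hY hd1 hdπ le_rfl
    rw [ph_pi Y hY] at e1
    have e2 : 1 / (Y * d) ≤ 4 * H1 / j := by
      rw [div_le_div_iff₀ (by positivity) hj]
      nlinarith
    have e3 : Real.pi ^ 2 / Y * (1 / d - 1 / Real.pi) ≤ Real.pi ^ 2 * (4 * H1 / j) := by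
      have : 0 ≤ 1 / Real.pi := by positivity
      calc Real.pi ^ 2 / Y * (1 / d - 1 / Real.pi) ≤ Real.pi ^ 2 / Y * (1 / d) :=
            mul_le_mul_of_nonneg_left (by linarith) (by positivity)
        _ = Real.pi ^ 2 * (1 / (Y * d)) := by field_simp
        _ ≤ _ := mul_le_mul_of_nonneg_left e2 (by positivity)
    calc 1 / (2 * Real.pi) * (Real.pi - phI Y d)
        ≤ 1 / (2 * Real.pi) * (Real.pi ^ 2 * (4 * H1 / j)) :=
          mul_le_mul_of_nonneg_left (e1.trans e3) (by positivity)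
      _ = 2 * Real.pi * (H1 / j) := by field_simp; ring
      _ ≤ 13 * (H1 / j) := mul_le_mul_of_nonneg_right (by linarith) (by positivity)

private lemma ph_log_ge {a b : ℝ} (ha : 0 < a) (hab : a ≤ b) :
    (b - a) / b ≤ Real.log b - Real.log a := by
  have hb : 0 < b := lt_of_lt_of_le ha hab
  have h1 := Real.log_le_sub_one_of_pos (div_pos ha hb)
  rw [Real.log_div ha.ne' hb.ne'] at h1
  have h2 : (b - a) / b = 1 - a / b := by field_simp
  rw [h2]
  linarith

private lemma ph_log_le {a b : ℝ} (ha : 0 < a) (hab : a ≤ b) :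
    Real.log b - Real.log a ≤ (b - a) / a := by
  have hb : 0 < b := lt_of_lt_of_le ha hab
  have h1 := Real.log_le_sub_one_of_pos (div_pos hb ha)
  rw [Real.log_div hb.ne' ha.ne'] at h1
  have h2 : (b - a) / a = b / a - 1 := by field_simp
  rw [h2]
  linarith

private lemma ph_point {X H1 H Y x n : ℕ} (hX : 1 ≤ X) (hY : 1 ≤ Y)
    (hXY : (X : ℝ) ≤ 2 * H1 * Y) (hx1 : X < x) (hx2 : x + H ≤ 2 * X) (hn1 : X < n)
    (hn2 : n ≤ 2 * X) :
    |(if n ∈ Finset.Ioc x (x + H) then (1 : ℝ) else 0) - 1 / (2 * Real.pi) *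
      (phI Y (Real.log n - Real.log x) - phI Y (Real.log n - Real.log ((x + H : ℕ) : ℝ)))| ≤
      13 * (phm H1 H (n - x + (x - n)) + phm H1 H (n - (x + H) + (x + H - n))) := by
  have hX0 : (0 : ℝ) < X := by exact_mod_cast hX
  have hx0 : (X : ℝ) < x := by exact_mod_cast hx1
  have hn0 : (X : ℝ) < n := by exact_mod_cast hn1
  have hn2' : (n : ℝ) ≤ 2 * X := by exact_mod_cast hn2
  have hx2' : (x : ℝ) + H ≤ 2 * X := by exact_mod_cast hx2
  have hH0 : (0 : ℝ) ≤ H := Nat.cast_nonneg H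
  have hp := Real.pi_pos
  have hp3 : 3 < Real.pi := Real.pi_gt_three
  have hxH : ((x + H : ℕ) : ℝ) = x + H := by push_cast; ring
  rw [hxH]
  have hxpos : (0 : ℝ) < x := by linarith
  have hnpos : (0 : ℝ) < n := by linarith
  have hxHpos : (0 : ℝ) < (x : ℝ) + H := by linarith
  have hL1 : Real.log ((x : ℝ) + H) - Real.log x ≤ (H : ℝ) / X := by
    refine (ph_log_le hxpos (by linarith)).trans ?_
    have : (x : ℝ) + H - x = H := by ring
    rw [this]
    exact div_le_div_of_nonneg_left hH0 hX0 hx0.le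
  have hL0 : 0 ≤ Real.log ((x : ℝ) + H) - Real.log x := by
    have := Real.log_le_log hxpos (by linarith : (x : ℝ) ≤ x + H)
    linarith
  have hpn := phm_nonneg H1 H
  rcases le_or_gt n x with hnx | hnx
  · -- left of the interval
    have hnx' : (n : ℝ) ≤ x := by exact_mod_cast hnx
    have hind : n ∉ Finset.Ioc x (x + H) := by
      rw [Finset.mem_Ioc]
      omega
    rw [if_neg hind, zero_sub, abs_neg]
    have ed : Real.log n - Real.log x = -(Real.log x - Real.log n) := by ring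
    have ed2 : Real.log n - Real.log ((x : ℝ) + H) =
        -((Real.log x - Real.log n) + (Real.log ((x : ℝ) + H) - Real.log x)) := by ring
    rw [ed, ed2, ph_odd, ph_odd]
    have hd0 : 0 ≤ Real.log x - Real.log n := by
      have := Real.log_le_log hnpos hnx'
      linarith
    have hdL : (Real.log x - Real.log n) + (Real.log ((x : ℝ) + H) - Real.log x) ≤ Real.pi := by
      have h1 := ph_log_le hnpos (by linarith : (n : ℝ) ≤ x + H)
      have h2 : ((x : ℝ) + H - n) / n ≤ 1 := by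
        rw [div_le_one hnpos]
        linarith
      linarith
    have hdj : ((n - x + (x - n) : ℕ) : ℝ) / (2 * X) ≤ Real.log x - Real.log n := by
      have h1 : n - x + (x - n) = x - n := by omega
      rw [h1, Nat.cast_sub hnx]
      refine le_trans ?_ (ph_log_ge hnpos hnx')
      exact div_le_div_of_nonneg_left (by linarith) hxpos (by linarith)
    have key := ph_P1 (H1 := H1) (H := H) hX hY hXY hd0 hL0 hdL hdj hL1
    have hm := ph_mono Y (by linarith : Real.log x - Real.log n ≤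
      (Real.log x - Real.log n) + (Real.log ((x : ℝ) + H) - Real.log x))
    have e : 1 / (2 * Real.pi) * (-phI Y (Real.log x - Real.log n) -
        -phI Y ((Real.log x - Real.log n) + (Real.log ((x : ℝ) + H) - Real.log x))) =
        1 / (2 * Real.pi) * (phI Y ((Real.log x - Real.log n) +
          (Real.log ((x : ℝ) + H) - Real.log x)) - phI Y (Real.log x - Real.log n)) := by ring
    rw [e, abs_of_nonneg (mul_nonneg (by positivity) (by linarith))]
    have := hpn (n - (x + H) + (x + H - n))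
    linarith
  · rcases le_or_gt n (x + H) with hnH | hnH
    · -- inside
      have hnx' : (x : ℝ) ≤ n := by exact_mod_cast hnx.le
      have hnH' : (n : ℝ) ≤ x + H := by exact_mod_cast hnH
      have hind : n ∈ Finset.Ioc x (x + H) := by
        rw [Finset.mem_Ioc]
        exact ⟨hnx, hnH⟩
      rw [if_pos hind]
      have ed2 : Real.log n - Real.log ((x : ℝ) + H) =
          -(Real.log ((x : ℝ) + H) - Real.log n) := by ring
      rw [ed2, ph_odd]
      have hd1 : 0 ≤ Real.log n - Real.log x := by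
        have := Real.log_le_log hxpos hnx'
        linarith
      have hd2 : 0 ≤ Real.log ((x : ℝ) + H) - Real.log n := by
        have := Real.log_le_log hnpos hnH'
        linarith
      have hd1π : Real.log n - Real.log x ≤ Real.pi := by
        have h1 := ph_log_le hxpos hnx'
        have h2 : ((n : ℝ) - x) / x ≤ 1 := by
          rw [div_le_one hxpos]
          linarith
        linarith
      have hd2π : Real.log ((x : ℝ) + H) - Real.log n ≤ Real.pi := by
        have h1 := ph_log_le hnpos hnH'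
        have h2 : ((x : ℝ) + H - n) / n ≤ 1 := by
          rw [div_le_one hnpos]
          linarith
        linarith
      have hj1 : ((n - x + (x - n) : ℕ) : ℝ) / (2 * X) ≤ Real.log n - Real.log x := by
        have h1 : n - x + (x - n) = n - x := by omega
        rw [h1, Nat.cast_sub hnx.le]
        refine le_trans ?_ (ph_log_ge hxpos hnx')
        exact div_le_div_of_nonneg_left (by linarith) hnpos (by linarith)
      have hj2 : ((n - (x + H) + (x + H - n) : ℕ) : ℝ) / (2 * X) ≤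
          Real.log ((x : ℝ) + H) - Real.log n := by
        have h1 : n - (x + H) + (x + H - n) = x + H - n := by omega
        rw [h1, Nat.cast_sub hnH, hxH]
        refine le_trans ?_ (ph_log_ge hnpos hnH')
        exact div_le_div_of_nonneg_left (by linarith) hxHpos (by linarith)
      have k1 := ph_P2 (H1 := H1) (H := H) hX hY hXY hd1 hd1π (by omega) hj1
      have k2 := ph_P2 (H1 := H1) (H := H) hX hY hXY hd2 hd2π (by omega) hj2
      have m1 : phI Y (Real.log n - Real.log x) ≤ Real.pi := by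
        have := ph_mono Y hd1π
        rwa [ph_pi Y hY] at this
      have m2 : phI Y (Real.log ((x : ℝ) + H) - Real.log n) ≤ Real.pi := by
        have := ph_mono Y hd2π
        rwa [ph_pi Y hY] at this
      have e : 1 - 1 / (2 * Real.pi) * (phI Y (Real.log n - Real.log x) -
          -phI Y (Real.log ((x : ℝ) + H) - Real.log n)) =
          1 / (2 * Real.pi) * (Real.pi - phI Y (Real.log n - Real.log x)) +
          1 / (2 * Real.pi) * (Real.pi - phI Y (Real.log ((x : ℝ) + H) - Real.log n)) := by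
        field_simp
        ring
      rw [e, abs_of_nonneg (add_nonneg (mul_nonneg (by positivity) (by linarith))
        (mul_nonneg (by positivity) (by linarith)))]
      linarith
    · -- right of the interval
      have hnH' : (x : ℝ) + H ≤ n := by exact_mod_cast hnH.le
      have hind : n ∉ Finset.Ioc x (x + H) := by
        rw [Finset.mem_Ioc]
        omega
      rw [if_neg hind, zero_sub, abs_neg]
      have ed : Real.log n - Real.log x = (Real.log n - Real.log ((x : ℝ) + H)) +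
          (Real.log ((x : ℝ) + H) - Real.log x) := by ring
      have hd0 : 0 ≤ Real.log n - Real.log ((x : ℝ) + H) := by
        have := Real.log_le_log hxHpos hnH'
        linarith
      have hdL : (Real.log n - Real.log ((x : ℝ) + H)) +
          (Real.log ((x : ℝ) + H) - Real.log x) ≤ Real.pi := by
        have h1 := ph_log_le hxpos (by linarith : (x : ℝ) ≤ n)
        have h2 : ((n : ℝ) - x) / x ≤ 1 := by
          rw [div_le_one hxpos]
          linarith
        linarith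
      have hdj : ((n - (x + H) + (x + H - n) : ℕ) : ℝ) / (2 * X) ≤
          Real.log n - Real.log ((x : ℝ) + H) := by
        have h1 : n - (x + H) + (x + H - n) = n - (x + H) := by omega
        rw [h1, Nat.cast_sub hnH.le, hxH]
        refine le_trans ?_ (ph_log_ge hxHpos hnH')
        exact div_le_div_of_nonneg_left (by linarith) hnpos (by linarith)
      have key := ph_P1 (H1 := H1) (H := H) hX hY hXY hd0 hL0 hdL hdj hL1
      rw [← ed] at key
      have hm := ph_mono Y (by linarith : Real.log n - Real.log ((x : ℝ) + H) ≤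
        Real.log n - Real.log x)
      rw [abs_of_nonneg (mul_nonneg (by positivity) (by linarith))]
      have := hpn (n - x + (x - n))
      linarith

private lemma ph_inj (F : ℕ → ℝ) (hF : ∀ j, 0 ≤ F j) (S T : Finset ℕ) (φ : ℕ → ℕ)
    (hφ : ∀ a ∈ S, φ a ∈ T) (hinj : Set.InjOn φ S) : ∑ n ∈ S, F (φ n) ≤ ∑ j ∈ T, F j := by
  classical
  rw [← Finset.sum_image (f := F) (g := φ) hinj]
  apply Finset.sum_le_sum_of_subset_of_nonneg
  · intro a ha
    obtain ⟨b, hb, rfl⟩ := Finset.mem_image.1 ha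
    exact hφ b hb
  · intro j _ _
    exact hF j

private lemma ph_dist (F : ℕ → ℝ) (hF : ∀ j, 0 ≤ F j) (X z : ℕ) (hz : z ≤ 2 * X) :
    ∑ n ∈ Finset.Ioc X (2 * X), F (n - z + (z - n)) ≤
      2 * ∑ j ∈ Finset.range (2 * X + 1), F j := by
  classical
  rw [← Finset.sum_filter_add_sum_filter_not (Finset.Ioc X (2 * X)) (fun n => n ≤ z),
    two_mul (∑ j ∈ Finset.range (2 * X + 1), F j)]
  apply add_le_add
  · have h1 : ∑ n ∈ (Finset.Ioc X (2 * X)).filter (fun n => n ≤ z), F (n - z + (z - n)) =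
        ∑ n ∈ (Finset.Ioc X (2 * X)).filter (fun n => n ≤ z), F ((fun n => z - n) n) := by
      apply Finset.sum_congr rfl
      intro n hn
      rw [Finset.mem_filter] at hn
      congr 1
      simp only
      omega
    rw [h1]
    apply ph_inj F hF
    · intro a _
      rw [Finset.mem_range]
      omega
    · intro a ha b hb hab
      rw [Finset.mem_coe, Finset.mem_filter] at ha hb
      simp only at hab
      omega
  · have h1 : ∑ n ∈ (Finset.Ioc X (2 * X)).filter (fun n => ¬ n ≤ z), F (n - z + (z - n)) =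
        ∑ n ∈ (Finset.Ioc X (2 * X)).filter (fun n => ¬ n ≤ z), F ((fun n => n - z) n) := by
      apply Finset.sum_congr rfl
      intro n hn
      rw [Finset.mem_filter] at hn
      congr 1
      simp only
      omega
    rw [h1]
    apply ph_inj F hF
    · intro a ha
      rw [Finset.mem_filter, Finset.mem_Ioc] at ha
      rw [Finset.mem_range]
      omega
    · intro a ha b hb hab
      rw [Finset.mem_coe, Finset.mem_filter] at ha hb
      simp only at hab
      omega

private lemma ph_harm (a : ℕ) (ha : 1 ≤ a) (b : ℕ) (hab : a ≤ b) :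
    ∑ j ∈ Finset.Ico (a + 1) (b + 1), (1 : ℝ) / j ≤ Real.log b - Real.log a := by
  induction b, hab using Nat.le_induction with
  | base => simp
  | succ n hn ih =>
    rw [Finset.sum_Ico_succ_top (by omega)]
    have hn0 : (0 : ℝ) < n := by exact_mod_cast (by omega : 0 < n)
    have h1 := ph_log_ge hn0 (by linarith : (n : ℝ) ≤ n + 1)
    have h2 : ((n : ℝ) + 1 - n) / (n + 1) = 1 / (n + 1) := by ring
    rw [h2] at h1
    push_cast
    linarith

private lemma ph_sq (a : ℕ) (ha : 1 ≤ a) (b : ℕ) (hab : a ≤ b) :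
    ∑ j ∈ Finset.Ico (a + 1) (b + 1), (1 : ℝ) / (j : ℝ) ^ 2 ≤ 1 / a - 1 / b := by
  induction b, hab using Nat.le_induction with
  | base => simp
  | succ n hn ih =>
    rw [Finset.sum_Ico_succ_top (by omega)]
    have hn0 : (0 : ℝ) < n := by exact_mod_cast (by omega : 0 < n)
    have h2 : 1 / ((n : ℝ) + 1) ^ 2 ≤ 1 / n - 1 / (n + 1) := by
      have : 1 / (n : ℝ) - 1 / (n + 1) = 1 / (n * (n + 1)) := by
        field_simp
        ring
      rw [this]
      apply one_div_le_one_div_of_le (by positivity)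
      nlinarith
    push_cast
    linarith

private lemma ph_sum (H1 K M : ℕ) (hH1 : 1 ≤ H1) (hK : 1 ≤ K) :
    ∑ j ∈ Finset.range M, phm H1 (K * H1) j ≤ 3 * H1 * (1 + Real.log K) := by
  have hle : H1 ≤ K * H1 := Nat.le_mul_of_pos_left H1 (by omega)
  have hH1' : (1 : ℝ) ≤ H1 := by exact_mod_cast hH1
  have hK' : (1 : ℝ) ≤ K := by exact_mod_cast hK
  have hlogK : 0 ≤ Real.log K := Real.log_nonneg hK'
  have h0 : ∑ j ∈ Finset.range M, phm H1 (K * H1) j ≤
      ∑ j ∈ Finset.range (M + K * H1 + 1), phm H1 (K * H1) j := by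
    apply Finset.sum_le_sum_of_subset_of_nonneg
    · exact Finset.range_mono (by omega)
    · intro j _ _
      exact phm_nonneg _ _ _
  refine h0.trans ?_
  rw [← Finset.sum_range_add_sum_Ico _ (by omega : H1 + 1 ≤ M + K * H1 + 1),
    ← Finset.sum_Ico_consecutive _ (by omega : H1 + 1 ≤ K * H1 + 1)
      (by omega : K * H1 + 1 ≤ M + K * H1 + 1)]
  have e1 : ∑ j ∈ Finset.range (H1 + 1), phm H1 (K * H1) j = H1 + 1 := by
    have : ∀ j ∈ Finset.range (H1 + 1), phm H1 (K * H1) j = 1 := by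
      intro j hj
      rw [Finset.mem_range] at hj
      unfold phm
      rw [if_pos (by omega)]
    rw [Finset.sum_congr rfl this]
    simp
  have e2 : ∑ j ∈ Finset.Ico (H1 + 1) (K * H1 + 1), phm H1 (K * H1) j ≤ H1 * Real.log K := by
    have h1 : ∀ j ∈ Finset.Ico (H1 + 1) (K * H1 + 1), phm H1 (K * H1) j = H1 * (1 / (j : ℝ)) := by
      intro j hj
      rw [Finset.mem_Ico] at hj
      unfold phm
      rw [if_neg (by omega), if_pos (by omega)]
      ring
    rw [Finset.sum_congr rfl h1, ← Finset.mul_sum]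
    apply mul_le_mul_of_nonneg_left _ (by linarith)
    refine (ph_harm H1 hH1 _ hle).trans (le_of_eq ?_)
    rw [Nat.cast_mul, Real.log_mul (by linarith) (by linarith)]
    ring
  have e3 : ∑ j ∈ Finset.Ico (K * H1 + 1) (M + K * H1 + 1), phm H1 (K * H1) j ≤ H1 := by
    have h1 : ∀ j ∈ Finset.Ico (K * H1 + 1) (M + K * H1 + 1), phm H1 (K * H1) j =
        (H1 * ((K * H1 : ℕ) : ℝ)) * (1 / (j : ℝ) ^ 2) := by
      intro j hj
      rw [Finset.mem_Ico] at hj
      unfold phm
      rw [if_neg (by omega), if_neg (by omega)]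
      ring
    rw [Finset.sum_congr rfl h1, ← Finset.mul_sum]
    have hKH : (0 : ℝ) < ((K * H1 : ℕ) : ℝ) := by
      push_cast
      positivity
    have h2 := ph_sq (K * H1) (by omega) (M + K * H1) (by omega)
    have h3 : (0 : ℝ) ≤ 1 / ((M + K * H1 : ℕ) : ℝ) := by positivity
    calc (H1 * ((K * H1 : ℕ) : ℝ)) * ∑ j ∈ Finset.Ico (K * H1 + 1) (M + K * H1 + 1),
          1 / (j : ℝ) ^ 2 ≤ (H1 * ((K * H1 : ℕ) : ℝ)) * (1 / ((K * H1 : ℕ) : ℝ)) :=
          mul_le_mul_of_nonneg_left (by linarith) (by positivity)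
      _ = H1 := by
          field_simp
  nlinarith

private lemma ph_exp_int (k : ℤ) (hk : k ≠ 0) (a : ℝ) :
    ∫ u in a..(a + 2 * Real.pi), Complex.exp ((((k : ℝ) * u : ℝ) : ℂ) * Complex.I) = 0 := by
  have hc : (k : ℂ) * Complex.I ≠ 0 := mul_ne_zero (by exact_mod_cast hk) Complex.I_ne_zero
  have h1 : ∀ u : ℝ, Complex.exp ((((k : ℝ) * u : ℝ) : ℂ) * Complex.I) =
      Complex.exp (((k : ℂ) * Complex.I) * u) := by
    intro u
    congr 1
    push_cast
    ring
  simp_rw [h1]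
  rw [integral_exp_mul_complex hc]
  have h2 : (k : ℂ) * Complex.I * ((a + 2 * Real.pi : ℝ) : ℂ) =
      (k : ℂ) * Complex.I * (a : ℂ) + k * (2 * Real.pi * Complex.I) := by
    push_cast
    ring
  rw [h2, Complex.exp_add, Complex.exp_int_mul_two_pi_mul_I]
  simp

private lemma ph_parseval (S : Finset ℤ) (c : ℤ → ℂ) (a : ℝ) :
    ∫ u in a..(a + 2 * Real.pi),
      ‖∑ t ∈ S, c t * Complex.exp (((-(t : ℝ) * u : ℝ) : ℂ) * Complex.I)‖ ^ 2 =
      2 * Real.pi * ∑ t ∈ S, ‖c t‖ ^ 2 := by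
  have h1 : ((∫ u in a..(a + 2 * Real.pi),
      ‖∑ t ∈ S, c t * Complex.exp (((-(t : ℝ) * u : ℝ) : ℂ) * Complex.I)‖ ^ 2 : ℝ) : ℂ) =
      ∫ u in a..(a + 2 * Real.pi), ∑ s ∈ S, ∑ t ∈ S, (c s * (starRingEnd ℂ) (c t)) *
        Complex.exp (((((t - s : ℤ) : ℝ) * u : ℝ) : ℂ) * Complex.I) := by
    rw [← intervalIntegral.integral_ofReal]
    congr 1
    funext u
    rw [Complex.ofReal_pow, ← Complex.mul_conj', map_sum, Finset.sum_mul_sum]
    apply Finset.sum_congr rfl
    intro s _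
    apply Finset.sum_congr rfl
    intro t _
    rw [map_mul, ← Complex.exp_conj, map_mul, Complex.conj_ofReal, Complex.conj_I,
      mul_mul_mul_comm, ← Complex.exp_add]
    congr 2
    push_cast
    ring
  have h2 : ∫ u in a..(a + 2 * Real.pi), ∑ s ∈ S, ∑ t ∈ S, (c s * (starRingEnd ℂ) (c t)) *
        Complex.exp (((((t - s : ℤ) : ℝ) * u : ℝ) : ℂ) * Complex.I) =
      ∑ s ∈ S, ∑ t ∈ S, (c s * (starRingEnd ℂ) (c t)) *
        (if s = t then ((2 * Real.pi : ℝ) : ℂ) else 0) := by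
    rw [intervalIntegral.integral_finsetSum]
    · apply Finset.sum_congr rfl
      intro s _
      rw [intervalIntegral.integral_finsetSum]
      · apply Finset.sum_congr rfl
        intro t _
        rw [intervalIntegral.integral_const_mul]
        congr 1
        split_ifs with h
        · subst h
          simp
        · exact ph_exp_int _ (sub_ne_zero.2 (Ne.symm h)) a
      · intro t _
        apply Continuous.intervalIntegrable
        fun_prop
    · intro s _
      apply Continuous.intervalIntegrable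
      fun_prop
  have h3 : ((∫ u in a..(a + 2 * Real.pi),
      ‖∑ t ∈ S, c t * Complex.exp (((-(t : ℝ) * u : ℝ) : ℂ) * Complex.I)‖ ^ 2 : ℝ) : ℂ) =
      ((2 * Real.pi * ∑ t ∈ S, ‖c t‖ ^ 2 : ℝ) : ℂ) := by
    rw [h1, h2]
    push_cast
    rw [Finset.mul_sum]
    apply Finset.sum_congr rfl
    intro s hs
    simp only [mul_ite, mul_zero]
    rw [Finset.sum_ite_eq, if_pos hs, Complex.mul_conj', mul_comm]
  exact_mod_cast h3

private noncomputable def phG (f : ℕ → ℂ) (X Y : ℕ) (u : ℝ) : ℂ :=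
  ∑ n ∈ Finset.Ioc X (2 * X), f n / (n : ℂ) * ((fej Y (Real.log n - u) : ℝ) : ℂ)

private lemma phG_cont (f : ℕ → ℂ) (X Y : ℕ) : Continuous (phG f X Y) := by
  unfold phG
  have := ph_cont Y
  fun_prop

private lemma phG_eq (f : ℕ → ℂ) (X Y : ℕ) (u : ℝ) : phG f X Y u =
    ∑ t ∈ Finset.Ioo (-(Y : ℤ)) Y, (((1 - |(t : ℝ)| / Y : ℝ) : ℂ) * R f X (-(t : ℝ))) *
      Complex.exp (((-(t : ℝ) * u : ℝ) : ℂ) * Complex.I) := by
  unfold phG R
  have hfl : ⌊2 * (X : ℝ)⌋₊ = 2 * X := by
    have : (2 * (X : ℝ)) = ((2 * X : ℕ) : ℝ) := by push_cast; ring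
    rw [this, Nat.floor_natCast]
  rw [Nat.floor_natCast, hfl]
  simp_rw [fej_eq_sum_exp, Finset.mul_sum]
  rw [Finset.sum_comm]
  apply Finset.sum_congr rfl
  intro t _
  rw [Finset.sum_mul]
  apply Finset.sum_congr rfl
  intro n _
  have h1 : Complex.exp (((t * (Real.log n - u) : ℝ) : ℂ) * Complex.I) =
      tw (-(-(t : ℝ))) n * Complex.exp (((-(t : ℝ) * u : ℝ) : ℂ) * Complex.I) := by
    unfold tw
    rw [← Complex.exp_add]
    congr 1
    push_cast
    ring
  rw [h1]
  ring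

private lemma phG_L2 (f : ℕ → ℂ) (X Y : ℕ) (a : ℝ) :
    ∫ u in a..(a + 2 * Real.pi), ‖phG f X Y u‖ ^ 2 ≤
      2 * Real.pi * ∑ t ∈ Finset.Ioo (-(Y : ℤ)) Y, ‖R f X t‖ ^ 2 := by
  simp_rw [phG_eq]
  rw [ph_parseval (Finset.Ioo (-(Y : ℤ)) Y)
    (fun t => ((1 - |(t : ℝ)| / Y : ℝ) : ℂ) * R f X (-(t : ℝ)))]
  apply mul_le_mul_of_nonneg_left _ (by positivity)
  have h1 : ∑ t ∈ Finset.Ioo (-(Y : ℤ)) Y, ‖R f X t‖ ^ 2 =
      ∑ t ∈ Finset.Ioo (-(Y : ℤ)) Y, ‖R f X (-(t : ℝ))‖ ^ 2 := by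
    refine Finset.sum_nbij' (fun t => -t) (fun t => -t) ?_ ?_ ?_ ?_ ?_
    · intro t ht
      rw [Finset.mem_Ioo] at ht ⊢
      omega
    · intro t ht
      rw [Finset.mem_Ioo] at ht ⊢
      omega
    · intro t _; exact neg_neg t
    · intro t _; exact neg_neg t
    · intro t _
      push_cast
      rw [neg_neg]
  rw [h1]
  apply Finset.sum_le_sum
  intro t ht
  rw [Finset.mem_Ioo] at ht
  rw [norm_mul, Complex.norm_real, mul_pow]
  have hY0 : (0 : ℝ) < Y := by
    have : 0 < Y := by omega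
    exact_mod_cast this
  have h2 : |(t : ℝ)| ≤ Y := by
    rw [abs_le]
    constructor
    · have : -(Y : ℤ) ≤ t := by omega
      exact_mod_cast this
    · have : t ≤ (Y : ℤ) := by omega
      exact_mod_cast this
  have h3 : |(t : ℝ)| / Y ≤ 1 := by rwa [div_le_one hY0]
  have h4 : 0 ≤ |(t : ℝ)| / Y := by positivity
  have h5 : ‖1 - |(t : ℝ)| / Y‖ ≤ 1 := by
    rw [Real.norm_eq_abs, abs_le]
    constructor <;> linarith
  have h6 : ‖1 - |(t : ℝ)| / Y‖ ^ 2 ≤ 1 := by
    have := norm_nonneg (1 - |(t : ℝ)| / Y)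
    nlinarith
  calc ‖1 - |(t : ℝ)| / Y‖ ^ 2 * ‖R f X (-(t : ℝ))‖ ^ 2 ≤ 1 * ‖R f X (-(t : ℝ))‖ ^ 2 :=
        mul_le_mul_of_nonneg_right h6 (by positivity)
    _ = _ := one_mul _

private lemma phG_L1 (f : ℕ → ℂ) (X Y : ℕ) (a : ℝ) :
    ∫ u in a..(a + 2 * Real.pi), ‖phG f X Y u‖ ≤
      2 * Real.pi * Real.sqrt (∑ t ∈ Finset.Ioo (-(Y : ℤ)) Y, ‖R f X t‖ ^ 2) := by
  have hp := Real.pi_pos
  have hc := (phG_cont f X Y).norm
  obtain ⟨I, hI⟩ : ∃ I, I = ∫ u in a..(a + 2 * Real.pi), ‖phG f X Y u‖ := ⟨_, rfl⟩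
  obtain ⟨Q, hQ⟩ : ∃ Q, Q = ∫ u in a..(a + 2 * Real.pi), ‖phG f X Y u‖ ^ 2 := ⟨_, rfl⟩
  have hL2 := phG_L2 f X Y a
  rw [← hQ] at hL2
  rw [← hI]
  have h1 : 0 ≤ ∫ u in a..(a + 2 * Real.pi), (‖phG f X Y u‖ - I / (2 * Real.pi)) ^ 2 :=
    intervalIntegral.integral_nonneg (by linarith) fun u _ => sq_nonneg _
  have h2 : ∫ u in a..(a + 2 * Real.pi), (‖phG f X Y u‖ - I / (2 * Real.pi)) ^ 2 =
      Q - 2 * (I / (2 * Real.pi)) * I + 2 * Real.pi * (I / (2 * Real.pi)) ^ 2 := by
    have e : ∀ u, (‖phG f X Y u‖ - I / (2 * Real.pi)) ^ 2 =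
        (‖phG f X Y u‖ ^ 2 - (2 * (I / (2 * Real.pi))) * ‖phG f X Y u‖) +
          (I / (2 * Real.pi)) ^ 2 := by
      intro u
      ring
    simp_rw [e]
    rw [intervalIntegral.integral_add, intervalIntegral.integral_sub,
      intervalIntegral.integral_const_mul, intervalIntegral.integral_const, smul_eq_mul, ← hI, ← hQ]
    · ring
    · exact (hc.pow 2).intervalIntegrable _ _
    · exact (continuous_const.mul hc).intervalIntegrable _ _
    · exact ((hc.pow 2).sub (continuous_const.mul hc)).intervalIntegrable _ _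
    · exact continuous_const.intervalIntegrable _ _
  rw [h2] at h1
  have h3 : I ^ 2 ≤ 2 * Real.pi * Q := by
    have h4 : Q - 2 * (I / (2 * Real.pi)) * I + 2 * Real.pi * (I / (2 * Real.pi)) ^ 2 =
        (2 * Real.pi * Q - I ^ 2) / (2 * Real.pi) := by
      field_simp
      ring
    rw [h4] at h1
    have h5 := (div_nonneg_iff.1 h1)
    rcases h5 with h5 | h5
    · linarith [h5.1]
    · linarith [h5.2]
  have hS0 : 0 ≤ ∑ t ∈ Finset.Ioo (-(Y : ℤ)) Y, ‖R f X t‖ ^ 2 :=
    Finset.sum_nonneg fun t _ => by positivity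
  apply le_of_sq_le_sq _ (by positivity)
  rw [mul_pow, Real.sq_sqrt hS0]
  nlinarith

/-- the contribution of the trigonometric polynomial to all the `x` -/
private lemma ph_main (f : ℕ → ℂ) (X Y H : ℕ) (hX : 1 ≤ X) :
    ∑ x ∈ Finset.Ioc X (2 * X - H),
      (∫ u in (Real.log x)..(Real.log ((x + H : ℕ) : ℝ)), ‖phG f X Y u‖) ≤
      H * (2 * Real.pi * Real.sqrt (∑ t ∈ Finset.Ioo (-(Y : ℤ)) Y, ‖R f X t‖ ^ 2)) := by
  have hc := (phG_cont f X Y).norm
  have hX0 : (0 : ℝ) < X := by exact_mod_cast hX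
  obtain ⟨g, hg⟩ : ∃ g : ℕ → ℝ, g = fun m : ℕ =>
      ∫ u in (Real.log (m : ℝ))..(Real.log ((m + 1 : ℕ) : ℝ)), ‖phG f X Y u‖ := ⟨_, rfl⟩
  obtain ⟨g', hg'⟩ : ∃ g' : ℕ → ℝ, g' = fun m : ℕ => |g m| := ⟨_, rfl⟩
  have hg0 : ∀ m : ℕ, 1 ≤ m → 0 ≤ g m := by
    intro m hm
    rw [hg]
    apply intervalIntegral.integral_nonneg _ fun u _ => norm_nonneg _
    apply Real.log_le_log (by exact_mod_cast hm)
    push_cast
    linarith
  have e1 : ∀ x ∈ Finset.Ioc X (2 * X - H),
      (∫ u in (Real.log x)..(Real.log ((x + H : ℕ) : ℝ)), ‖phG f X Y u‖) =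
      ∑ i ∈ Finset.range H, g' (x + i) := by
    intro x hx
    rw [Finset.mem_Ioc] at hx
    have h1 := intervalIntegral.sum_integral_adjacent_intervals (f := fun u => ‖phG f X Y u‖)
      (μ := MeasureTheory.volume) (a := fun i : ℕ => Real.log ((x + i : ℕ) : ℝ)) (n := H)
      (fun k _ => hc.intervalIntegrable _ _)
    simp only [Nat.add_zero] at h1
    rw [← h1]
    apply Finset.sum_congr rfl
    intro i _
    rw [hg']
    simp only
    rw [abs_of_nonneg (hg0 _ (by omega)), hg]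
    rfl
  rw [Finset.sum_congr rfl e1, Finset.sum_comm]
  have e2 : ∀ i ∈ Finset.range H, ∑ x ∈ Finset.Ioc X (2 * X - H), g' (x + i) ≤
      2 * Real.pi * Real.sqrt (∑ t ∈ Finset.Ioo (-(Y : ℤ)) Y, ‖R f X t‖ ^ 2) := by
    intro i hi
    rw [Finset.mem_range] at hi
    have h1 : ∑ x ∈ Finset.Ioc X (2 * X - H), g' (x + i) ≤
        ∑ m ∈ Finset.Ico X (2 * X), g' m := by
      apply ph_inj g' (fun j => by rw [hg']; exact abs_nonneg _) _ _ (fun x => x + i)
      · intro x hx
        rw [Finset.mem_Ioc] at hx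
        rw [Finset.mem_Ico]
        omega
      · intro a _ b _ hab
        simp only at hab
        omega
    refine h1.trans ?_
    have h2 : ∑ m ∈ Finset.Ico X (2 * X), g' m = ∑ i ∈ Finset.range X, g (X + i) := by
      rw [Finset.sum_Ico_eq_sum_range]
      have : 2 * X - X = X := by omega
      rw [this]
      apply Finset.sum_congr rfl
      intro i _
      rw [hg']
      simp only
      exact abs_of_nonneg (hg0 _ (by omega))
    have h3 := intervalIntegral.sum_integral_adjacent_intervals (f := fun u => ‖phG f X Y u‖)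
      (μ := MeasureTheory.volume) (a := fun i : ℕ => Real.log ((X + i : ℕ) : ℝ)) (n := X)
      (fun k _ => hc.intervalIntegrable _ _)
    simp only [Nat.add_zero] at h3
    have h4 : ∑ i ∈ Finset.range X, g (X + i) =
        ∫ u in (Real.log X)..(Real.log ((X + X : ℕ) : ℝ)), ‖phG f X Y u‖ := by
      rw [← h3]
      apply Finset.sum_congr rfl
      intro i _
      rw [hg]
      rfl
    rw [h2, h4]
    refine le_trans ?_ (phG_L1 f X Y (Real.log X))
    have h5 : Real.log ((X + X : ℕ) : ℝ) ≤ Real.log X + 2 * Real.pi := by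
      have h6 : ((X + X : ℕ) : ℝ) = 2 * X := by push_cast; ring
      rw [h6, Real.log_mul (by norm_num) hX0.ne']
      have := Real.log_two_lt_d9
      have := Real.pi_gt_three
      linarith
    have h7 : Real.log X ≤ Real.log ((X + X : ℕ) : ℝ) := by
      apply Real.log_le_log hX0
      push_cast
      linarith
    apply intervalIntegral.integral_mono_interval le_rfl h7 h5
    · exact Filter.Eventually.of_forall fun u => norm_nonneg _
    · exact hc.intervalIntegrable _ _
  refine (Finset.sum_le_sum e2).trans (le_of_eq ?_)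
  rw [Finset.sum_const, Finset.card_range, nsmul_eq_mul]

theorem phys : ∃ C : ℝ, 0 < C ∧ ∀ (f : ℕ → ℂ) (X H1 K : ℕ), (∀ n, ‖f n‖ ≤ 1) → 1 ≤ H1 → 2 ≤ K →
    K * H1 ≤ X →
    ∑ x ∈ Finset.Ioc X (2 * X), ‖∑ n ∈ Finset.Ioc x (x + K * H1), f n‖ ≤
      C * K * H1 * X * (Real.sqrt (∑ t ∈ Finset.Ioo (-((X / H1 : ℕ) : ℤ)) ((X / H1 : ℕ) : ℤ),
        ‖R f X t‖ ^ 2) + (1 + Real.log K) / K + K * H1 / X) := by
  refine ⟨312, by norm_num, ?_⟩
  intro f X H1 K hf hH1 hK hKX
  obtain ⟨Y, hY⟩ : ∃ Y, Y = X / H1 := ⟨_, rfl⟩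
  obtain ⟨H, hH⟩ : ∃ H, H = K * H1 := ⟨_, rfl⟩
  obtain ⟨SQ, hSQ⟩ : ∃ SQ : ℝ, SQ = Real.sqrt (∑ t ∈ Finset.Ioo (-(Y : ℤ)) Y, ‖R f X t‖ ^ 2) :=
    ⟨_, rfl⟩
  rw [← hY, ← hSQ]
  have hH1' : (1 : ℝ) ≤ H1 := by exact_mod_cast hH1
  have hK' : (2 : ℝ) ≤ K := by exact_mod_cast hK
  have hHX : H ≤ X := by rw [hH]; exact hKX
  have hHpos : 1 ≤ H := by
    rw [hH]
    exact Nat.mul_pos (by omega) hH1
  have hX : 1 ≤ X := by omega
  have hX0 : (0 : ℝ) < X := by exact_mod_cast hX
  have hKY : K ≤ Y := by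
    rw [hY]
    exact (Nat.le_div_iff_mul_le hH1).2 hKX
  have hY1 : 1 ≤ Y := by omega
  have hXY : (X : ℝ) ≤ 2 * H1 * Y := by
    have h1 : X < H1 * (Y + 1) := by
      rw [hY]
      exact Nat.lt_mul_div_succ X hH1
    have h2 : H1 * (Y + 1) ≤ 2 * H1 * Y := by nlinarith
    exact_mod_cast (h1.le.trans h2)
  have hHr : (H : ℝ) = K * H1 := by rw [hH]; push_cast; ring
  have hH0 : (0 : ℝ) ≤ H := Nat.cast_nonneg H
  have hlogK : 0 ≤ Real.log K := Real.log_nonneg (by linarith)
  have hp := Real.pi_pos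
  have hc := (phG_cont f X Y).norm
  rw [← hH]
  -- one x
  have hone : ∀ x ∈ Finset.Ioc X (2 * X - H), ‖∑ n ∈ Finset.Ioc x (x + H), f n‖ ≤
      H * H / X + X / Real.pi *
        (∫ u in (Real.log x)..(Real.log ((x + H : ℕ) : ℝ)), ‖phG f X Y u‖) +
        312 * H1 * (1 + Real.log K) := by
    intro x hx
    rw [Finset.mem_Ioc] at hx
    obtain ⟨hx1, hx2⟩ := hx
    have hx2' : x + H ≤ 2 * X := by omega
    have hxr : (X : ℝ) < x := by exact_mod_cast hx1
    have hxr2 : (x : ℝ) ≤ 2 * X := by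
      have : x ≤ 2 * X := by omega
      exact_mod_cast this
    have hxpos : (0 : ℝ) < x := by linarith
    obtain ⟨W, hW⟩ : ∃ W : ℕ → ℝ, W = fun n : ℕ => 1 / (2 * Real.pi) *
      (phI Y (Real.log n - Real.log x) - phI Y (Real.log n - Real.log ((x + H : ℕ) : ℝ))) :=
      ⟨_, rfl⟩
    -- step 1
    have s1 : ‖∑ n ∈ Finset.Ioc x (x + H), f n -
        (x : ℂ) * ∑ n ∈ Finset.Ioc x (x + H), f n / (n : ℂ)‖ ≤ H * H / X := by
      rw [Finset.mul_sum, ← Finset.sum_sub_distrib]
      refine (norm_sum_le _ _).trans ?_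
      have h1 : ∀ n ∈ Finset.Ioc x (x + H), ‖f n - (x : ℂ) * (f n / (n : ℂ))‖ ≤ H / X := by
        intro n hn
        rw [Finset.mem_Ioc] at hn
        have hn1 : (x : ℝ) < n := by exact_mod_cast hn.1
        have hn2 : (n : ℝ) ≤ x + H := by exact_mod_cast hn.2
        have hn0 : (0 : ℝ) < n := by linarith
        have hnc : (n : ℂ) ≠ 0 := by
          have : (n : ℝ) ≠ 0 := hn0.ne'
          exact_mod_cast this
        have h2 : f n - (x : ℂ) * (f n / (n : ℂ)) = f n * (((((n : ℝ) - x) / n : ℝ)) : ℂ) := by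
          push_cast
          field_simp
        rw [h2, norm_mul, Complex.norm_real, Real.norm_of_nonneg
          (div_nonneg (by linarith) hn0.le)]
        have h3 : ((n : ℝ) - x) / n ≤ H / X :=
          div_le_div₀ hH0 (by linarith) hX0 (by linarith)
        have h4 : 0 ≤ ((n : ℝ) - x) / n := div_nonneg (by linarith) hn0.le
        calc ‖f n‖ * (((n : ℝ) - x) / n) ≤ 1 * (((n : ℝ) - x) / n) :=
              mul_le_mul_of_nonneg_right (hf n) h4
          _ ≤ H / X := by linarith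
      refine (Finset.sum_le_sum h1).trans (le_of_eq ?_)
      rw [Finset.sum_const, Nat.card_Ioc, nsmul_eq_mul]
      have : x + H - x = H := by omega
      rw [this]
      ring
    -- step 2: the integral
    have s2 : ((1 / (2 * Real.pi) : ℝ) : ℂ) *
        (∫ u in (Real.log x)..(Real.log ((x + H : ℕ) : ℝ)), phG f X Y u) =
        ∑ n ∈ Finset.Ioc X (2 * X), f n / (n : ℂ) * ((W n : ℝ) : ℂ) := by
      unfold phG
      rw [intervalIntegral.integral_finsetSum, Finset.mul_sum]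
      · apply Finset.sum_congr rfl
        intro n _
        rw [intervalIntegral.integral_const_mul, intervalIntegral.integral_ofReal,
          intervalIntegral.integral_comp_sub_left (f := fej Y), ← ph_sub, hW]
        push_cast
        ring
      · intro n _
        apply Continuous.intervalIntegrable
        have := ph_cont Y
        fun_prop
    -- step 3: comparison
    have s3 : ‖∑ n ∈ Finset.Ioc x (x + H), f n / (n : ℂ) - ((1 / (2 * Real.pi) : ℝ) : ℂ) *
        (∫ u in (Real.log x)..(Real.log ((x + H : ℕ) : ℝ)), phG f X Y u)‖ ≤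
        1 / X * (156 * H1 * (1 + Real.log K)) := by
      rw [s2]
      have h1 : ∑ n ∈ Finset.Ioc x (x + H), f n / (n : ℂ) = ∑ n ∈ Finset.Ioc X (2 * X),
          f n / (n : ℂ) * (((if n ∈ Finset.Ioc x (x + H) then (1 : ℝ) else 0) : ℝ) : ℂ) := by
        have h2 : ∑ n ∈ Finset.Ioc x (x + H), f n / (n : ℂ) = ∑ n ∈ Finset.Ioc x (x + H),
            f n / (n : ℂ) * (((if n ∈ Finset.Ioc x (x + H) then (1 : ℝ) else 0) : ℝ) : ℂ) := by
          apply Finset.sum_congr rfl
          intro n hn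
          rw [if_pos hn]
          simp
        rw [h2]
        apply Finset.sum_subset
        · intro n hn
          rw [Finset.mem_Ioc] at hn ⊢
          omega
        · intro n _ hn
          rw [if_neg hn]
          simp
      rw [h1, ← Finset.sum_sub_distrib]
      refine (norm_sum_le _ _).trans ?_
      have h3 : ∀ n ∈ Finset.Ioc X (2 * X), ‖f n / (n : ℂ) *
          (((if n ∈ Finset.Ioc x (x + H) then (1 : ℝ) else 0) : ℝ) : ℂ) -
          f n / (n : ℂ) * ((W n : ℝ) : ℂ)‖ ≤ 1 / X *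
          (13 * (phm H1 H (n - x + (x - n)) + phm H1 H (n - (x + H) + (x + H - n)))) := by
        intro n hn
        rw [Finset.mem_Ioc] at hn
        have hn1 : (X : ℝ) < n := by exact_mod_cast hn.1
        have hn0 : (0 : ℝ) < n := by linarith
        have h4 := ph_point (X := X) (H1 := H1) (H := H) (Y := Y) (x := x) (n := n) hX hY1 hXY
          hx1 hx2' hn.1 hn.2
        rw [← mul_sub, ← Complex.ofReal_sub, norm_mul, norm_div, Complex.norm_natCast,
          Complex.norm_real, Real.norm_eq_abs]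
        rw [hW]
        apply mul_le_mul _ h4 (abs_nonneg _) (by positivity)
        exact div_le_div₀ zero_le_one (hf n) hX0 hn1.le
      refine (Finset.sum_le_sum h3).trans ?_
      rw [← Finset.mul_sum, ← Finset.mul_sum, Finset.sum_add_distrib]
      apply mul_le_mul_of_nonneg_left _ (by positivity)
      have h5 := ph_dist (phm H1 H) (phm_nonneg H1 H) X x (by omega)
      have h6 := ph_dist (phm H1 H) (phm_nonneg H1 H) X (x + H) hx2'
      have h7 := ph_sum H1 K (2 * X + 1) hH1 (by omega)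
      rw [← hH] at h7
      linarith
    have s4 : ‖∫ u in (Real.log x)..(Real.log ((x + H : ℕ) : ℝ)), phG f X Y u‖ ≤
        ∫ u in (Real.log x)..(Real.log ((x + H : ℕ) : ℝ)), ‖phG f X Y u‖ := by
      apply intervalIntegral.norm_integral_le_integral_norm
      apply Real.log_le_log hxpos
      push_cast
      linarith
    obtain ⟨A, hA⟩ : ∃ A, A = ∑ n ∈ Finset.Ioc x (x + H), f n := ⟨_, rfl⟩
    obtain ⟨B, hB⟩ : ∃ B, B = ∑ n ∈ Finset.Ioc x (x + H), f n / (n : ℂ) := ⟨_, rfl⟩
    obtain ⟨D, hD⟩ : ∃ D, D = ∫ u in (Real.log x)..(Real.log ((x + H : ℕ) : ℝ)), phG f X Y u :=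
      ⟨_, rfl⟩
    obtain ⟨E, hE⟩ : ∃ E, E = ∫ u in (Real.log x)..(Real.log ((x + H : ℕ) : ℝ)),
      ‖phG f X Y u‖ := ⟨_, rfl⟩
    rw [← hA, ← hB] at s1
    rw [← hB, ← hD] at s3
    rw [← hD, ← hE] at s4
    rw [← hA, ← hE]
    have e1 : A = (A - (x : ℂ) * B) + (x : ℂ) * ((B - ((1 / (2 * Real.pi) : ℝ) : ℂ) * D) +
        ((1 / (2 * Real.pi) : ℝ) : ℂ) * D) := by ring
    have n1 := norm_add_le (A - (x : ℂ) * B) ((x : ℂ) * ((B - ((1 / (2 * Real.pi) : ℝ) : ℂ) * D) +
        ((1 / (2 * Real.pi) : ℝ) : ℂ) * D))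
    rw [← e1, norm_mul, Complex.norm_natCast] at n1
    have n2 := norm_add_le (B - ((1 / (2 * Real.pi) : ℝ) : ℂ) * D)
      (((1 / (2 * Real.pi) : ℝ) : ℂ) * D)
    rw [norm_mul, Complex.norm_real, Real.norm_of_nonneg (by positivity)] at n2
    have n3 : ‖(B - ((1 / (2 * Real.pi) : ℝ) : ℂ) * D) + ((1 / (2 * Real.pi) : ℝ) : ℂ) * D‖ ≤
        1 / X * (156 * H1 * (1 + Real.log K)) + 1 / (2 * Real.pi) * E := by
      refine n2.trans (add_le_add s3 ?_)
      exact mul_le_mul_of_nonneg_left s4 (by positivity)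
    have hE0 : 0 ≤ E := (norm_nonneg _).trans s4
    have n4 : (x : ℝ) * ‖(B - ((1 / (2 * Real.pi) : ℝ) : ℂ) * D) +
        ((1 / (2 * Real.pi) : ℝ) : ℂ) * D‖ ≤
        (2 * X) * (1 / X * (156 * H1 * (1 + Real.log K)) + 1 / (2 * Real.pi) * E) :=
      mul_le_mul hxr2 n3 (norm_nonneg _) (by positivity)
    have n5 : (2 * (X : ℝ)) * (1 / X * (156 * H1 * (1 + Real.log K)) + 1 / (2 * Real.pi) * E) =
        312 * H1 * (1 + Real.log K) + X / Real.pi * E := by
      field_simp
      ring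
    linarith
  -- the sum
  have hsplit : ∑ x ∈ Finset.Ioc X (2 * X), ‖∑ n ∈ Finset.Ioc x (x + H), f n‖ =
      ∑ x ∈ Finset.Ioc X (2 * X - H), ‖∑ n ∈ Finset.Ioc x (x + H), f n‖ +
      ∑ x ∈ Finset.Ioc (2 * X - H) (2 * X), ‖∑ n ∈ Finset.Ioc x (x + H), f n‖ := by
    rw [← Finset.sum_union]
    · congr 1
      ext n
      rw [Finset.mem_union, Finset.mem_Ioc, Finset.mem_Ioc, Finset.mem_Ioc]
      omega
    · rw [Finset.disjoint_left]
      intro n hn1 hn2
      rw [Finset.mem_Ioc] at hn1 hn2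
      omega
  have htriv : ∀ x, ‖∑ n ∈ Finset.Ioc x (x + H), f n‖ ≤ H := by
    intro x
    refine (norm_sum_le _ _).trans ((Finset.sum_le_sum fun n _ => hf n).trans (le_of_eq ?_))
    rw [Finset.sum_const, Nat.card_Ioc, nsmul_eq_mul, mul_one]
    congr 1
    omega
  have hB2 : ∑ x ∈ Finset.Ioc (2 * X - H) (2 * X), ‖∑ n ∈ Finset.Ioc x (x + H), f n‖ ≤
      H * H := by
    refine (Finset.sum_le_sum fun x _ => htriv x).trans (le_of_eq ?_)
    rw [Finset.sum_const, Nat.card_Ioc, nsmul_eq_mul]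
    congr 2
    omega
  have hB1 : ∑ x ∈ Finset.Ioc X (2 * X - H), ‖∑ n ∈ Finset.Ioc x (x + H), f n‖ ≤
      X * (H * H / X) + X / Real.pi * (H * (2 * Real.pi * SQ)) +
        X * (312 * H1 * (1 + Real.log K)) := by
    refine (Finset.sum_le_sum hone).trans ?_
    rw [Finset.sum_add_distrib, Finset.sum_add_distrib, Finset.sum_const, Finset.sum_const,
      nsmul_eq_mul, nsmul_eq_mul, ← Finset.mul_sum, Nat.card_Ioc]
    have hcard : ((2 * X - H - X : ℕ) : ℝ) ≤ X := by
      have : 2 * X - H - X ≤ X := by omega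
      exact_mod_cast this
    have m1 : ((2 * X - H - X : ℕ) : ℝ) * (H * H / X) ≤ X * (H * H / X) :=
      mul_le_mul_of_nonneg_right hcard (by positivity)
    have m2 : ((2 * X - H - X : ℕ) : ℝ) * (312 * H1 * (1 + Real.log K)) ≤
        X * (312 * H1 * (1 + Real.log K)) :=
      mul_le_mul_of_nonneg_right hcard (by positivity)
    have m3 := ph_main f X Y H hX
    rw [← hSQ] at m3
    have m4 := mul_le_mul_of_nonneg_left m3 (by positivity : (0 : ℝ) ≤ X / Real.pi)
    linarith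
  rw [hsplit]
  refine (add_le_add hB1 hB2).trans ?_
  have hSQ0 : 0 ≤ SQ := by rw [hSQ]; exact Real.sqrt_nonneg _
  have e1 : X * ((H : ℝ) * H / X) + X / Real.pi * (H * (2 * Real.pi * SQ)) +
      X * (312 * H1 * (1 + Real.log K)) + H * H =
      2 * (H * H) + 2 * X * H * SQ + 312 * (X * H1 * (1 + Real.log K)) := by
    field_simp
    ring
  have e2 : 312 * (K : ℝ) * H1 * X * (SQ + (1 + Real.log K) / K + K * H1 / X) =
      312 * (H * X) * SQ + 312 * (X * H1 * (1 + Real.log K)) + 312 * (H * H) := by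
    rw [hHr]
    field_simp
  rw [e1, e2]
  have h1 : 0 ≤ (H : ℝ) * X * SQ := by positivity
  have h2 : 0 ≤ (H : ℝ) * H := by positivity
  nlinarith

end Pool.MRZ
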