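import Mathlib
import Pool.Agent.MRZ.Defs

/-!
# MRZ/SplitH: from one length `H₀` to all longer lengths

`|g| ≤ 1`, `H₀ ≥ 1`, `H ≥ 1`: `∑_{x<X} |∑_{x<n≤x+H} g(n)| ≤ (H/H₀ + 1) … `; precisely
`∑_{x<X} |∑_{x<n≤x+H} g(n)| ≤ (1/H₀) H ∑_{y<X+H} |∑_{y<n≤y+H₀} g(n)| + 2 H₀ X`.

Proof. `∑_{x ≤ y < x+H} ∑_{y<n≤y+H₀} g(n) = H₀ ∑_{x<n≤x+H} g(n) + O(H₀ · H₀·2)`: every `n ∈ (x+H₀, x+H]` is counted
`H₀` times, the at most `2H₀` integers of `(x, x+H₀] ∪ (x+H, x+H+H₀]` at most `H₀` times (and those in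
`(x,x+H]` exactly at most `H₀` times), so `|H₀ S_H(x) - ∑_y S_{H₀}(y)| ≤ 2 H₀²`. Sum over `x`; each `y` occurs for at
most `H` values of `x`.
-/

namespace Pool.MRZ

open Finset

private theorem splitH_S (g : ℕ → ℂ) (x L : ℕ) :
    ∑ n ∈ Finset.Ioc x (x + L), g n = ∑ i ∈ Finset.range L, g (x + 1 + i) := by
  have h : Finset.Ioc x (x + L) = Finset.Ico (x + 1) (x + 1 + L) := by
    ext n
    simp only [Finset.mem_Ioc, Finset.mem_Ico]
    omega
  rw [h, Finset.sum_Ico_eq_sum_range]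
  simp

private theorem splitH_shift (g : ℕ → ℂ) (hg : ∀ n, ‖g n‖ ≤ 1) (x L : ℕ) (i : ℕ) :
    ‖(∑ k ∈ Finset.range L, g (x + i + 1 + k)) - ∑ k ∈ Finset.range L, g (x + 1 + k)‖ ≤
      2 * (i : ℝ) := by
  induction i with
  | zero => simp
  | succ i ih =>
    have h1 : ∑ k ∈ Finset.range L, g (x + (i + 1) + 1 + k) =
        (∑ k ∈ Finset.range L, g (x + i + 1 + k)) + g (x + i + 1 + L) - g (x + i + 1) := by
      have h2 := Finset.sum_range_succ (fun k => g (x + i + 1 + k)) L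
      have h3 := Finset.sum_range_succ' (fun k => g (x + i + 1 + k)) L
      have h4 : ∑ k ∈ Finset.range L, g (x + (i + 1) + 1 + k) =
          ∑ k ∈ Finset.range L, g (x + i + 1 + (k + 1)) := by
        refine Finset.sum_congr rfl fun k _ => ?_
        congr 1
        ring
      rw [h4, ← h2, h3]
      simp
    rw [h1]
    calc ‖(∑ k ∈ Finset.range L, g (x + i + 1 + k)) + g (x + i + 1 + L) - g (x + i + 1) -
          ∑ k ∈ Finset.range L, g (x + 1 + k)‖
        = ‖((∑ k ∈ Finset.range L, g (x + i + 1 + k)) - ∑ k ∈ Finset.range L, g (x + 1 + k)) +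
            (g (x + i + 1 + L) - g (x + i + 1))‖ := by congr 1; ring
      _ ≤ 2 * (i : ℝ) + (1 + 1) := by
          refine (norm_add_le _ _).trans (add_le_add ih ?_)
          exact (norm_sub_le _ _).trans (add_le_add (hg _) (hg _))
      _ = 2 * ((i + 1 : ℕ) : ℝ) := by push_cast; ring

theorem splitH (g : ℕ → ℂ) (hg : ∀ n, ‖g n‖ ≤ 1) (H₀ H X : ℕ) (h0 : 1 ≤ H₀) (h1 : 1 ≤ H) :
    ∑ x ∈ Finset.range X, ‖∑ n ∈ Finset.Ioc x (x + H), g n‖ ≤
      (H : ℝ) / H₀ * ∑ y ∈ Finset.range (X + H), ‖∑ n ∈ Finset.Ioc y (y + H₀), g n‖ +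
        2 * H₀ * X := by
  have hH0 : (0 : ℝ) < H₀ := by exact_mod_cast h0
  have hpt : ∀ x, (H₀ : ℝ) * ‖∑ n ∈ Finset.Ioc x (x + H), g n‖ ≤
      ∑ y ∈ Finset.range H, ‖∑ n ∈ Finset.Ioc (x + y) (x + y + H₀), g n‖ + 2 * H₀ * H₀ := by
    intro x
    have h2 : ∑ y ∈ Finset.range H, ∑ n ∈ Finset.Ioc (x + y) (x + y + H₀), g n =
        ∑ i ∈ Finset.range H₀, ∑ k ∈ Finset.range H, g (x + i + 1 + k) := by
      rw [Finset.sum_comm (s := Finset.range H₀) (t := Finset.range H)]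
      refine Finset.sum_congr rfl fun y _ => ?_
      rw [splitH_S]
      refine Finset.sum_congr rfl fun i _ => ?_
      congr 1
      ring
    have h3 : (H₀ : ℂ) * ∑ k ∈ Finset.range H, g (x + 1 + k) =
        (∑ i ∈ Finset.range H₀, ∑ k ∈ Finset.range H, g (x + i + 1 + k)) -
        ∑ i ∈ Finset.range H₀, ((∑ k ∈ Finset.range H, g (x + i + 1 + k)) -
          ∑ k ∈ Finset.range H, g (x + 1 + k)) := by
      rw [Finset.sum_sub_distrib, Finset.sum_const, Finset.card_range, nsmul_eq_mul]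
      ring
    have h4 : (H₀ : ℝ) * ‖∑ n ∈ Finset.Ioc x (x + H), g n‖ =
        ‖(H₀ : ℂ) * ∑ k ∈ Finset.range H, g (x + 1 + k)‖ := by
      rw [splitH_S, norm_mul, Complex.norm_natCast]
    rw [h4, h3, ← h2]
    refine (norm_sub_le _ _).trans (add_le_add (norm_sum_le _ _) ?_)
    refine (norm_sum_le _ _).trans ?_
    calc ∑ i ∈ Finset.range H₀, ‖(∑ k ∈ Finset.range H, g (x + i + 1 + k)) -
          ∑ k ∈ Finset.range H, g (x + 1 + k)‖
        ≤ ∑ _i ∈ Finset.range H₀, 2 * (H₀ : ℝ) := by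
          refine Finset.sum_le_sum fun i hi => (splitH_shift g hg x H i).trans ?_
          have : (i : ℝ) ≤ H₀ := by exact_mod_cast (Finset.mem_range.1 hi).le
          linarith
      _ = 2 * (H₀ : ℝ) * H₀ := by
          rw [Finset.sum_const, Finset.card_range, nsmul_eq_mul]; ring
  have hsum : (H₀ : ℝ) * ∑ x ∈ Finset.range X, ‖∑ n ∈ Finset.Ioc x (x + H), g n‖ ≤
      (H : ℝ) * ∑ y ∈ Finset.range (X + H), ‖∑ n ∈ Finset.Ioc y (y + H₀), g n‖ +
        2 * H₀ * H₀ * X := by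
    rw [Finset.mul_sum]
    refine (Finset.sum_le_sum fun x _ => hpt x).trans ?_
    rw [Finset.sum_add_distrib, Finset.sum_const, Finset.card_range, nsmul_eq_mul]
    refine add_le_add ?_ (le_of_eq (by ring))
    rw [Finset.sum_comm]
    calc ∑ y ∈ Finset.range H, ∑ x ∈ Finset.range X,
          ‖∑ n ∈ Finset.Ioc (x + y) (x + y + H₀), g n‖
        ≤ ∑ _y ∈ Finset.range H, ∑ z ∈ Finset.range (X + H),
            ‖∑ n ∈ Finset.Ioc z (z + H₀), g n‖ := by
          refine Finset.sum_le_sum fun y hy => ?_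
          have h5 : ∑ x ∈ Finset.range X, ‖∑ n ∈ Finset.Ioc (x + y) (x + y + H₀), g n‖ =
              ∑ z ∈ (Finset.range X).map (addRightEmbedding y),
                ‖∑ n ∈ Finset.Ioc z (z + H₀), g n‖ := by
            rw [Finset.sum_map]
            rfl
          rw [h5]
          refine Finset.sum_le_sum_of_subset_of_nonneg ?_ fun _ _ _ => norm_nonneg _
          intro z hz
          rw [Finset.mem_map] at hz
          obtain ⟨x, hx, rfl⟩ := hz
          rw [Finset.mem_range] at *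
          show x + y < X + H
          omega
      _ = (H : ℝ) * ∑ z ∈ Finset.range (X + H), ‖∑ n ∈ Finset.Ioc z (z + H₀), g n‖ := by
          rw [Finset.sum_const, Finset.card_range, nsmul_eq_mul]
  have h6 : ∑ x ∈ Finset.range X, ‖∑ n ∈ Finset.Ioc x (x + H), g n‖ =
      ((H₀ : ℝ) * ∑ x ∈ Finset.range X, ‖∑ n ∈ Finset.Ioc x (x + H), g n‖) / H₀ := by
    field_simp
  rw [h6]
  calc _ ≤ ((H : ℝ) * ∑ y ∈ Finset.range (X + H), ‖∑ n ∈ Finset.Ioc y (y + H₀), g n‖ +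
        2 * H₀ * H₀ * X) / H₀ := by
        gcongr
    _ = _ := by field_simp

end Pool.MRZ
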