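import Mathlib
import Pool.Agent.MRZ.Freq
import Pool.Agent.MRZ.Phys
import Pool.Agent.MRZ.SplitH
import Pool.Agent.MRZ.NPLam

/-!
# MRZ/MRThm: the soft Matomäki–Radziwiłł theorem `CM f → NP f → Short f`

Given `η`: choose `K ≥ 2` with `C(1+log K)/K ≤ η/16` (`C` of `phys`), `ε` with `C √ε ≤ η/16`, `H₁, X₁` from
`freq`, `H₀ = K H₁`. By `phys`, for `X ≥ X₂` (`C H₀/X ≤ η/16`, `H₀ ≤ X`):
`∑_{X<x≤2X} |S_{H₀}(x)| ≤ (3η/16) H₀ X`, `S_H(x) = ∑_{x<n≤x+H} f(n)`.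
Hence for `Z ≥ 1`: `∑_{x<Z} |S_{H₀}(x)| ≤ (3η/8) H₀ Z + (2 X₂ + 2) H₀`: cover `(X₂, Z)` by the intervals
`(X_i, 2X_i]`, `X_i = X₂ 2^i` while `X_i < Z` (`∑ X_i ≤ 2Z`), and `|S| ≤ H₀` trivially for `x ≤ X₂`.
Finally `splitH`: for `H ≥ 1`, `H ≤ X`:
`∑_{x<X} |S_H(x)| ≤ (H/H₀)((3η/8) H₀ · 2X + (2X₂+2)H₀) + 2 H₀ X ≤ η H X` as soon as `2H₀ ≤ (η/8) H` and
`(2X₂+2) ≤ (η/8) X`.
-/

namespace Pool.MRZ

open Finset

/-- from dyadic intervals to initial segments -/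
theorem dyadic_cover (F : ℕ → ℝ) (h : ℝ) (c : ℝ) (X₂ : ℕ) (hc : 0 ≤ c) (hh : 0 ≤ h)
    (hX₂ : 1 ≤ X₂) (hF0 : ∀ x, 0 ≤ F x) (hF : ∀ x, F x ≤ h)
    (hd : ∀ X : ℕ, X₂ ≤ X → ∑ x ∈ Finset.Ioc X (2 * X), F x ≤ c * h * X) (Z : ℕ) :
    ∑ x ∈ Finset.range Z, F x ≤ (2 * c * Z + (2 * X₂ + 2)) * h := by
  induction Z using Nat.strong_induction_on with
  | _ Z ih =>
    rcases Nat.lt_or_ge (2 * X₂ + 2) Z with hZ | hZ
    · obtain ⟨X, hX⟩ : ∃ X, X = Z / 2 := ⟨_, rfl⟩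
      have h1 : X₂ ≤ X := by omega
      have h2 : X + 1 < Z := by omega
      have h3 := ih (X + 1) h2
      have h4 := hd X h1
      have h5 : Finset.range Z ⊆ Finset.range (X + 1) ∪ Finset.Ioc X (2 * X) := by
        intro x hx
        rw [Finset.mem_range] at hx
        rw [Finset.mem_union, Finset.mem_range, Finset.mem_Ioc]
        omega
      have h6 : ∑ x ∈ Finset.range Z, F x ≤
          ∑ x ∈ Finset.range (X + 1) ∪ Finset.Ioc X (2 * X), F x :=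
        Finset.sum_le_sum_of_subset_of_nonneg h5 (fun x _ _ => hF0 x)
      have h7 : ∑ x ∈ Finset.range (X + 1) ∪ Finset.Ioc X (2 * X), F x ≤
          ∑ x ∈ Finset.range (X + 1), F x + ∑ x ∈ Finset.Ioc X (2 * X), F x := by
        rw [← Finset.sum_union_inter]
        have h8 : 0 ≤ ∑ x ∈ Finset.range (X + 1) ∩ Finset.Ioc X (2 * X), F x :=
          Finset.sum_nonneg (fun x _ => hF0 x)
        linarith
      have h8 : (2 : ℝ) * X ≤ Z := by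
        have : 2 * X ≤ Z := by omega
        exact_mod_cast this
      have h9 : (4 : ℝ) ≤ Z := by
        have : 4 ≤ Z := by omega
        exact_mod_cast this
      have hch : 0 ≤ c * h := mul_nonneg hc hh
      have h10 : c * h * (3 * X + 2) ≤ c * h * (2 * Z) := by
        apply mul_le_mul_of_nonneg_left _ hch
        linarith
      push_cast at h3
      nlinarith
    · have h1 : ∑ x ∈ Finset.range Z, F x ≤ ∑ x ∈ Finset.range Z, h :=
        Finset.sum_le_sum (fun x _ => hF x)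
      rw [Finset.sum_const, Finset.card_range, nsmul_eq_mul] at h1
      have h2 : (Z : ℝ) ≤ 2 * X₂ + 2 := by exact_mod_cast hZ
      have h3 : (0 : ℝ) ≤ Z := Nat.cast_nonneg Z
      refine le_trans h1 (mul_le_mul_of_nonneg_right ?_ hh)
      have h4 : 0 ≤ 2 * c * Z := by positivity
      linarith

theorem exists_K (C η : ℝ) (hC : 0 < C) (hη : 0 < η) :
    ∃ K : ℕ, 2 ≤ K ∧ C * ((1 + Real.log K) / K) ≤ η / 16 := by
  obtain ⟨m, hm⟩ := exists_nat_ge (max 2 (32 * C / η))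
  have hm2 : (2 : ℝ) ≤ m := le_trans (le_max_left _ _) hm
  have hmC : 32 * C / η ≤ m := le_trans (le_max_right _ _) hm
  have hm2' : 2 ≤ m := by exact_mod_cast hm2
  have hm0 : (0 : ℝ) < m := by linarith
  refine ⟨m * m, by nlinarith, ?_⟩
  rw [Nat.cast_mul, Real.log_mul hm0.ne' hm0.ne']
  have h1 : Real.log m ≤ m - 1 := Real.log_le_sub_one_of_pos hm0
  have h2 : (1 + (Real.log m + Real.log m)) / ((m : ℝ) * m) ≤ 2 / m := by
    rw [div_le_div_iff₀ (by positivity) hm0]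
    nlinarith
  have h3 : C * (2 / m) ≤ η / 16 := by
    rw [div_le_iff₀ hη] at hmC
    rw [← mul_div_assoc, div_le_div_iff₀ hm0 (by norm_num)]
    linarith
  exact le_trans (mul_le_mul_of_nonneg_left h2 hC.le) h3

theorem norm_sum_le_len (f : ℕ → ℂ) (hf : ∀ n, ‖f n‖ ≤ 1) (x H : ℕ) :
    ‖∑ n ∈ Finset.Ioc x (x + H), f n‖ ≤ H := by
  refine le_trans (norm_sum_le _ _) ?_
  refine le_trans (Finset.sum_le_sum (fun n _ => hf n)) ?_
  simp

theorem mr_short (f : ℕ → ℂ) (hf : CM f) (hnp : NP f) : Short f := by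
  intro η hη
  obtain ⟨C, hC, hph⟩ := phys
  obtain ⟨K, hK, hKC⟩ := exists_K C η hC hη
  obtain ⟨H₁, X₁, hH₁, hfr⟩ := freq f hf hnp ((η / (16 * C)) ^ 2) (by positivity)
  obtain ⟨X₂', hX₂'⟩ := exists_nat_ge (16 * (C * (K * H₁)) / η)
  obtain ⟨X₂, hX₂⟩ : ∃ X₂, X₂ = 1 + X₁ + K * H₁ + X₂' := ⟨_, rfl⟩
  have hKr : (2 : ℝ) ≤ K := by exact_mod_cast hK
  have hHr : (1 : ℝ) ≤ H₁ := by exact_mod_cast hH₁
  obtain ⟨H₀, hH₀⟩ : ∃ H₀, H₀ = K * H₁ := ⟨_, rfl⟩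
  have hH₀r : (H₀ : ℝ) = K * H₁ := by exact_mod_cast hH₀
  have hH₀1 : 1 ≤ H₀ := by
    rw [hH₀]
    exact Nat.mul_pos (by omega) hH₁
  have hH₀p : (0 : ℝ) < H₀ := by exact_mod_cast hH₀1
  -- the dyadic bound
  have hdy : ∀ X : ℕ, X₂ ≤ X → ∑ x ∈ Finset.Ioc X (2 * X), ‖∑ n ∈ Finset.Ioc x (x + H₀), f n‖ ≤
      3 * η / 16 * H₀ * X := by
    intro X hX
    have h1 := hph f X H₁ K hf.bdd hH₁ hK (by omega)
    have h2 := hfr X (by omega)
    have hX0 : (0 : ℝ) < X := by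
      have : 0 < X := by omega
      exact_mod_cast this
    have h3 : Real.sqrt (∑ t ∈ Finset.Ioo (-((X / H₁ : ℕ) : ℤ)) ((X / H₁ : ℕ) : ℤ),
        ‖R f X t‖ ^ 2) ≤ η / (16 * C) := by
      rw [← Real.sqrt_sq (show 0 ≤ η / (16 * C) by positivity)]
      exact Real.sqrt_le_sqrt h2
    have h4 : C * (η / (16 * C)) = η / 16 := by
      field_simp
    have h5 : C * (K * H₁ / X) ≤ η / 16 := by
      rw [div_le_iff₀ hη] at hX₂'
      have h6 : (X₂' : ℝ) ≤ X := by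
        have : X₂' ≤ X := by omega
        exact_mod_cast this
      rw [← mul_div_assoc, div_le_div_iff₀ hX0 (by norm_num)]
      have h7 : (X₂' : ℝ) * η ≤ X * η := mul_le_mul_of_nonneg_right h6 hη.le
      linarith
    rw [← hH₀] at h1
    refine le_trans h1 ?_
    obtain ⟨S, hS⟩ : ∃ S, S = Real.sqrt (∑ t ∈ Finset.Ioo (-((X / H₁ : ℕ) : ℤ))
      ((X / H₁ : ℕ) : ℤ), ‖R f X t‖ ^ 2) := ⟨_, rfl⟩
    rw [← hS] at h3 ⊢
    have h6 : C * K * H₁ * X * (S + (1 + Real.log K) / K + K * H₁ / X) =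
        (K * H₁ * X) * (C * S + C * ((1 + Real.log K) / K) + C * (K * H₁ / X)) := by ring
    rw [h6, hH₀r]
    have h7 : C * S ≤ η / 16 := by
      rw [← h4]
      exact mul_le_mul_of_nonneg_left h3 hC.le
    have h8 : (K * H₁ * X : ℝ) * (C * S + C * ((1 + Real.log K) / K) + C * (K * H₁ / X)) ≤
        (K * H₁ * X) * (3 * η / 16) := by
      apply mul_le_mul_of_nonneg_left _ (by positivity)
      linarith
    refine le_trans h8 (le_of_eq ?_)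
    ring
  have hcov := dyadic_cover (fun x => ‖∑ n ∈ Finset.Ioc x (x + H₀), f n‖) H₀ (3 * η / 16) X₂
    (by positivity) hH₀p.le (by omega) (fun x => norm_nonneg _)
    (fun x => norm_sum_le_len f hf.bdd x H₀) hdy
  obtain ⟨H₂, hH₂⟩ := exists_nat_ge (16 * H₀ / η)
  obtain ⟨X₃, hX₃⟩ := exists_nat_ge (8 * (2 * X₂ + 2) / η)
  refine ⟨H₂ + 1, X₃, ?_⟩
  intro X H hX hH hHX
  have h1 := splitH f hf.bdd H₀ H X hH₀1 (by omega)
  have h2 := hcov (X + H)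
  refine le_trans h1 ?_
  have hX3 : 8 * (2 * X₂ + 2) ≤ X * η := by
    rw [div_le_iff₀ hη] at hX₃
    have h3 : (X₃ : ℝ) ≤ X := by exact_mod_cast hX
    have h4 : (X₃ : ℝ) * η ≤ X * η := mul_le_mul_of_nonneg_right h3 hη.le
    linarith
  have hH3 : 16 * (H₀ : ℝ) ≤ H * η := by
    rw [div_le_iff₀ hη] at hH₂
    have h3 : (H₂ : ℝ) ≤ H := by
      have : H₂ ≤ H := by omega
      exact_mod_cast this
    have h4 : (H₂ : ℝ) * η ≤ H * η := mul_le_mul_of_nonneg_right h3 hη.le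
    linarith
  have hHr0 : (0 : ℝ) ≤ H := Nat.cast_nonneg H
  have hXr0 : (0 : ℝ) ≤ X := Nat.cast_nonneg X
  have hHXr : (H : ℝ) ≤ X := by exact_mod_cast hHX
  have h3 : (H : ℝ) / H₀ * ∑ y ∈ Finset.range (X + H), ‖∑ n ∈ Finset.Ioc y (y + H₀), f n‖ ≤
      (H : ℝ) / H₀ * ((2 * (3 * η / 16) * ((X + H : ℕ) : ℝ) + (2 * X₂ + 2)) * H₀) :=
    mul_le_mul_of_nonneg_left h2 (by positivity)
  have h4 : (H : ℝ) / H₀ * ((2 * (3 * η / 16) * ((X + H : ℕ) : ℝ) + (2 * X₂ + 2)) * H₀) =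
      H * (2 * (3 * η / 16) * (X + H) + (2 * X₂ + 2)) := by
    push_cast
    field_simp
  rw [h4] at h3
  have h5 : (H : ℝ) * (2 * (3 * η / 16) * (X + H) + (2 * X₂ + 2)) ≤
      H * (2 * (3 * η / 16) * (X + X) + X * η / 8) := by
    apply mul_le_mul_of_nonneg_left _ hHr0
    have h6 : 2 * (3 * η / 16) * ((X : ℝ) + H) ≤ 2 * (3 * η / 16) * (X + X) := by
      apply mul_le_mul_of_nonneg_left _ (by positivity)
      linarith
    linarith
  have h6 : 2 * (H₀ : ℝ) * X ≤ H * η / 8 * X := by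
    apply mul_le_mul_of_nonneg_right _ hXr0
    linarith
  have h7 : H * (2 * (3 * η / 16) * ((X : ℝ) + X) + X * η / 8) + H * η / 8 * X = η * H * X := by
    ring
  linarith

theorem short_lam_chi (q : ℕ) [NeZero q] (χ : DirichletCharacter ℂ q) :
    Short (fun n => lam n * χ n) :=
  mr_short _ (cm_lam_chi χ) (np_lam_chi q χ)

end Pool.MRZ
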