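import Mathlib
import Pool.Agent.MRZ.MRThm

/-!
# MRZ/AP: `λ` in almost all short intervals and a residue class

For `q ≥ 1` and every `b`: `Short (n ↦ λ(n) 1_{n ≡ b mod q})`.

Proof. `d = gcd(b, q)`, `b = d b'`, `q = d q'`, `gcd(b',q') = 1`. If `n ≡ b (q)` then `d ∣ n`, `n = d m`,
`m ≡ b' (q')`, `λ(n) = λ(d) λ(m)`. Orthogonality of the characters mod `q'`
(`DirichletCharacter.sum_char_inv_mul_char_eq` or `ZMod`): `1_{m≡b'(q')} = (1/φ(q')) ∑_χ conj χ(b') χ(m)`. So
`|∑_{x<n≤x+H} λ(n)1_{n≡b(q)}| ≤ (1/φ(q')) ∑_χ |∑_{x<dm≤x+H} λ(m)χ(m)|`, and `{m : x < dm ≤ x+H} =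
(y, y + H']` or `(y, y+H'+1]`, `y = ⌊x/d⌋`, `H' = ⌊H/d⌋`. So the inner sum is at most `|∑_{y<m≤y+H'} λχ(m)| + 1`, and
every `y` comes from at most `d` values of `x`, `y ≤ X/d`. With `Short (λχ)` (`short_lam_chi`) at length
`H' ≤ X' := ⌊X/d⌋ + 1` (for all `χ` mod `q'`, take the maximum of `H₀, X₀`):
`∑_{x<X} ≤ d (η' H' X' + X') ≤ η H X` for `H, X` large. (For `q = 1` it is `χ = 1` mod 1.)

Also `short_trunc`: if `Short g`, `Short g'` then `Short (g + g')`, `Short (c g)` (simple).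
-/

namespace Pool.MRZ

open Finset

theorem Short.add {g g' : ℕ → ℂ} (h : Short g) (h' : Short g') : Short (fun n => g n + g' n) := by
  intro η hη
  obtain ⟨H1, X1, h1⟩ := h (η / 2) (by positivity)
  obtain ⟨H2, X2, h2⟩ := h' (η / 2) (by positivity)
  refine ⟨max H1 H2, max X1 X2, ?_⟩
  intro X H hX hH hHX
  have a1 := h1 X H (le_trans (le_max_left _ _) hX) (le_trans (le_max_left _ _) hH) hHX
  have a2 := h2 X H (le_trans (le_max_right _ _) hX) (le_trans (le_max_right _ _) hH) hHX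
  calc ∑ x ∈ Finset.range X, ‖∑ n ∈ Finset.Ioc x (x + H), (g n + g' n)‖
      ≤ ∑ x ∈ Finset.range X, (‖∑ n ∈ Finset.Ioc x (x + H), g n‖ +
          ‖∑ n ∈ Finset.Ioc x (x + H), g' n‖) := by
        refine Finset.sum_le_sum fun x _ => ?_
        rw [Finset.sum_add_distrib]
        exact norm_add_le _ _
    _ ≤ η * H * X := by
        rw [Finset.sum_add_distrib]
        linarith

theorem short_zero : Short (fun _ => (0 : ℂ)) := by
  intro η hη
  refine ⟨0, 0, ?_⟩
  intro X H _ _ _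
  simp only [Finset.sum_const_zero, norm_zero]
  positivity

theorem short_sum {ι : Type*} (s : Finset ι) (g : ι → ℕ → ℂ) (h : ∀ i ∈ s, Short (g i)) :
    Short (fun n => ∑ i ∈ s, g i n) := by
  classical
  induction s using Finset.induction_on with
  | empty =>
    simp only [Finset.sum_empty]
    exact short_zero
  | insert a s ha ih =>
    have h1 := (h a (Finset.mem_insert_self a s)).add
      (ih fun i hi => h i (Finset.mem_insert_of_mem hi))
    have e : (fun n => ∑ i ∈ insert a s, g i n) = fun n => g a n + ∑ i ∈ s, g i n := by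
      funext n
      rw [Finset.sum_insert ha]
    rw [e]
    exact h1

theorem Short.const_mul {g : ℕ → ℂ} (c : ℂ) (h : Short g) : Short (fun n => c * g n) := by
  intro η hη
  have hc : 0 < ‖c‖ + 1 := by positivity
  obtain ⟨H1, X1, h1⟩ := h (η / (‖c‖ + 1)) (by positivity)
  refine ⟨H1, X1, ?_⟩
  intro X H hX hH hHX
  have a1 := h1 X H hX hH hHX
  have e : ∑ x ∈ Finset.range X, ‖∑ n ∈ Finset.Ioc x (x + H), c * g n‖ =
      ‖c‖ * ∑ x ∈ Finset.range X, ‖∑ n ∈ Finset.Ioc x (x + H), g n‖ := by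
    rw [Finset.mul_sum]
    refine Finset.sum_congr rfl fun x _ => ?_
    rw [← Finset.mul_sum, norm_mul]
  rw [e]
  have hHX0 : (0 : ℝ) ≤ H * X := by positivity
  calc ‖c‖ * ∑ x ∈ Finset.range X, ‖∑ n ∈ Finset.Ioc x (x + H), g n‖
      ≤ (‖c‖ + 1) * (η / (‖c‖ + 1) * H * X) := by
        apply mul_le_mul _ a1 _ hc.le
        · linarith
        · exact Finset.sum_nonneg fun _ _ => norm_nonneg _
    _ = η * H * X := by
        field_simp

theorem ap_sum_div (F : ℕ → ℝ) (d Y : ℕ) (hd : 0 < d) :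
    ∑ x ∈ Finset.range (d * Y), F (x / d) = d * ∑ y ∈ Finset.range Y, F y := by
  induction Y with
  | zero => simp
  | succ Y ih =>
    rw [Nat.mul_succ, Finset.sum_range_add, ih, Finset.sum_range_succ, mul_add]
    congr 1
    have : ∀ x ∈ Finset.range d, F ((d * Y + x) / d) = F Y := by
      intro x hx
      have hx' := Finset.mem_range.mp hx
      rw [Nat.mul_add_div hd, Nat.div_eq_of_lt hx', add_zero]
    rw [Finset.sum_congr rfl this, Finset.sum_const, Finset.card_range, nsmul_eq_mul]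

theorem ap_dil (g : ℕ → ℂ) (d a b : ℕ) (hd : 0 < d) :
    ∑ n ∈ Finset.Ioc a b, (if d ∣ n then g (n / d) else 0) =
      ∑ m ∈ Finset.Ioc (a / d) (b / d), g m := by
  rw [← Finset.sum_filter]
  symm
  refine Finset.sum_bij (fun m _ => d * m) ?_ ?_ ?_ ?_
  · intro m hm
    rw [Finset.mem_Ioc] at hm
    rw [Finset.mem_filter, Finset.mem_Ioc]
    refine ⟨⟨?_, ?_⟩, dvd_mul_right _ _⟩
    · have := (Nat.div_lt_iff_lt_mul hd).mp hm.1
      rwa [mul_comm] at this
    · have := (Nat.le_div_iff_mul_le hd).mp hm.2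
      rwa [mul_comm] at this
  · intro m _ m' _ h
    exact Nat.eq_of_mul_eq_mul_left hd h
  · intro n hn
    rw [Finset.mem_filter, Finset.mem_Ioc] at hn
    obtain ⟨⟨h1, h2⟩, m, rfl⟩ := hn
    refine ⟨m, ?_, rfl⟩
    rw [Finset.mem_Ioc]
    refine ⟨?_, ?_⟩
    · rw [Nat.div_lt_iff_lt_mul hd, mul_comm]
      exact h1
    · rw [Nat.le_div_iff_mul_le hd, mul_comm]
      exact h2
  · intro m _
    rw [Nat.mul_div_cancel_left m hd]

theorem ap_inner (g : ℕ → ℂ) (hg : ∀ n, ‖g n‖ ≤ 1) (d x H : ℕ) (hd : 0 < d) :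
    ‖∑ n ∈ Finset.Ioc x (x + H), (if d ∣ n then g (n / d) else 0)‖ ≤
      ‖∑ m ∈ Finset.Ioc (x / d) (x / d + H / d), g m‖ + 1 := by
  rw [ap_dil g d x (x + H) hd]
  have h1 : x / d + H / d ≤ (x + H) / d := Nat.div_add_div_le_add_div
  have h2 : (x + H) / d ≤ x / d + H / d + 1 := by
    rw [Nat.add_div hd]
    split_ifs <;> omega
  rcases Nat.eq_or_lt_of_le h1 with h | h
  · rw [← h]
    linarith
  · have h3 : (x + H) / d = x / d + H / d + 1 := by omega
    rw [h3, ← Finset.sum_Ioc_consecutive (fun m => g m) (Nat.le_add_right (x / d) (H / d))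
      (Nat.le_succ _)]
    refine (norm_add_le _ _).trans ?_
    have h4 : ∑ m ∈ Finset.Ioc (x / d + H / d) (x / d + H / d + 1), g m =
        g (x / d + H / d + 1) := by
      rw [Nat.Ioc_succ_singleton, Finset.sum_singleton]
    have h5 := hg (x / d + H / d + 1)
    rw [← h4] at h5
    exact add_le_add le_rfl h5

theorem short_dil (g : ℕ → ℂ) (hg : ∀ n, ‖g n‖ ≤ 1) (h : Short g) (d : ℕ) (hd : 0 < d) :
    Short (fun n => if d ∣ n then g (n / d) else 0) := by
  intro η hη
  obtain ⟨H1, X1, h1⟩ := h (η / 4) (by positivity)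
  refine ⟨max (d * H1) ⌈2 / η⌉₊, max (d * X1) d, ?_⟩
  intro X H hX hH hHX
  have hX1 : d * X1 ≤ X := le_trans (le_max_left _ _) hX
  have hX2 : d ≤ X := le_trans (le_max_right _ _) hX
  have hH1 : d * H1 ≤ H := le_trans (le_max_left _ _) hH
  have hH2 : 2 / η ≤ (H : ℝ) :=
    le_trans (Nat.le_ceil _) (by exact_mod_cast le_trans (le_max_right _ _) hH)
  have hH3 : 2 ≤ η * H := by
    rw [div_le_iff₀ hη] at hH2
    linarith
  have b1 : H1 ≤ H / d := by
    rw [Nat.le_div_iff_mul_le hd, mul_comm]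
    exact hH1
  have b2 : X1 ≤ X / d + 1 := by
    have : X1 ≤ X / d := by
      rw [Nat.le_div_iff_mul_le hd, mul_comm]
      exact hX1
    omega
  have b3 : H / d ≤ X / d + 1 := by
    have := Nat.div_le_div_right (c := d) hHX
    omega
  have key := h1 (X / d + 1) (H / d) b2 b1 b3
  have hsub : Finset.range X ⊆ Finset.range (d * (X / d + 1)) := by
    intro x hx
    rw [Finset.mem_range] at hx ⊢
    have := Nat.lt_mul_div_succ X hd
    omega
  have s1 : ∑ x ∈ Finset.range X, ‖∑ n ∈ Finset.Ioc x (x + H), (if d ∣ n then g (n / d) else 0)‖ ≤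
      ∑ x ∈ Finset.range X, (‖∑ m ∈ Finset.Ioc (x / d) (x / d + H / d), g m‖ + 1) :=
    Finset.sum_le_sum fun x _ => ap_inner g hg d x H hd
  have s2 : ∑ x ∈ Finset.range X, ‖∑ m ∈ Finset.Ioc (x / d) (x / d + H / d), g m‖ ≤
      d * (η / 4 * ((H / d : ℕ) : ℝ) * ((X / d + 1 : ℕ) : ℝ)) := by
    calc ∑ x ∈ Finset.range X, ‖∑ m ∈ Finset.Ioc (x / d) (x / d + H / d), g m‖
        ≤ ∑ x ∈ Finset.range (d * (X / d + 1)),
            ‖∑ m ∈ Finset.Ioc (x / d) (x / d + H / d), g m‖ :=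
          Finset.sum_le_sum_of_subset_of_nonneg hsub fun _ _ _ => norm_nonneg _
      _ = d * ∑ y ∈ Finset.range (X / d + 1), ‖∑ m ∈ Finset.Ioc y (y + H / d), g m‖ :=
          ap_sum_div (fun y => ‖∑ m ∈ Finset.Ioc y (y + H / d), g m‖) d (X / d + 1) hd
      _ ≤ _ := by
          apply mul_le_mul_of_nonneg_left key
          positivity
  have hdR : (0 : ℝ) < d := by exact_mod_cast hd
  have c1 : ((H / d : ℕ) : ℝ) ≤ H / d := Nat.cast_div_le
  have c2 : ((X / d + 1 : ℕ) : ℝ) ≤ 2 * (X / d) := by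
    have c3 : ((X / d : ℕ) : ℝ) ≤ X / d := Nat.cast_div_le
    have c4 : (1 : ℝ) ≤ X / d := by
      rw [le_div_iff₀ hdR, one_mul]
      exact_mod_cast hX2
    push_cast
    linarith
  have hd1 : (1 : ℝ) ≤ d := by exact_mod_cast hd
  have s3 : d * (η / 4 * ((H / d : ℕ) : ℝ) * ((X / d + 1 : ℕ) : ℝ)) ≤ η / 2 * H * X := by
    calc d * (η / 4 * ((H / d : ℕ) : ℝ) * ((X / d + 1 : ℕ) : ℝ))
        ≤ d * (η / 4 * (H / d) * (2 * (X / d))) := by
          gcongr
      _ = η / 2 * H * X / d := by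
          field_simp
          ring
      _ ≤ η / 2 * H * X := by
          apply div_le_self _ hd1
          positivity
  rw [Finset.sum_add_distrib] at s1
  have s4 : ∑ x ∈ Finset.range X, (1 : ℝ) = X := by simp
  rw [s4] at s1
  have hX0 : (0 : ℝ) ≤ X := by positivity
  have s5 : (X : ℝ) ≤ η / 2 * H * X := by
    nlinarith
  linarith

theorem short_ap_cop (q b : ℕ) (hq : 1 ≤ q) (hb : Nat.Coprime b q) :
    Short (fun n => if n % q = b % q then lam n else 0) := by
  have : NeZero q := ⟨by omega⟩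
  have hu : IsUnit (b : ZMod q) := (ZMod.isUnit_iff_coprime b q).mpr hb
  have hφ : (q.totient : ℂ) ≠ 0 := by
    have := Nat.totient_pos.mpr (show 0 < q by omega)
    exact_mod_cast this.ne'
  have e : (fun n : ℕ => if n % q = b % q then lam n else 0) = fun n : ℕ =>
      ∑ χ : DirichletCharacter ℂ q, ((q.totient : ℂ)⁻¹ * χ (b : ZMod q)⁻¹) * (lam n * χ n) := by
    funext n
    have h1 := DirichletCharacter.sum_char_inv_mul_char_eq ℂ hu (n : ZMod q)
    have h2 : ∑ χ : DirichletCharacter ℂ q, ((q.totient : ℂ)⁻¹ * χ (b : ZMod q)⁻¹) * (lam n * χ n) =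
        (q.totient : ℂ)⁻¹ * lam n *
          ∑ χ : DirichletCharacter ℂ q, χ (b : ZMod q)⁻¹ * χ (n : ZMod q) := by
      rw [Finset.mul_sum]
      refine Finset.sum_congr rfl fun χ _ => ?_
      ring
    rw [h2, h1]
    by_cases hnb : n % q = b % q
    · have h3 : (b : ZMod q) = (n : ZMod q) := by
        rw [ZMod.natCast_eq_natCast_iff']
        exact hnb.symm
      rw [if_pos hnb, if_pos h3]
      field_simp
    · have h3 : ¬ (b : ZMod q) = (n : ZMod q) := by
        rw [ZMod.natCast_eq_natCast_iff']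
        exact fun h => hnb h.symm
      rw [if_neg hnb, if_neg h3, mul_zero]
  rw [e]
  exact short_sum _ _ fun χ _ => (short_lam_chi q χ).const_mul _

theorem short_ap (q b : ℕ) (hq : 1 ≤ q) :
    Short (fun n => if n % q = b % q then lam n else 0) := by
  have hd : 0 < Nat.gcd b q := Nat.gcd_pos_of_pos_right b (by omega)
  obtain ⟨b', hb'⟩ := Nat.gcd_dvd_left b q
  obtain ⟨q', hq'⟩ := Nat.gcd_dvd_right b q
  generalize hdd : Nat.gcd b q = d at *
  have hcop : Nat.Coprime b' q' := by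
    have h1 : Nat.gcd (d * b') (d * q') = d := by
      rw [← hb', ← hq', hdd]
    rw [Nat.gcd_mul_left] at h1
    exact Nat.eq_of_mul_eq_mul_left hd (by rw [h1, mul_one])
  have hq'1 : 1 ≤ q' := by
    rcases Nat.eq_zero_or_pos q' with h | h
    · rw [h, mul_zero] at hq'
      omega
    · exact h
  have hs := short_ap_cop q' b' hq'1 hcop
  have hg : ∀ n : ℕ, ‖(if n % q' = b' % q' then lam n else 0)‖ ≤ 1 := by
    intro n
    split_ifs
    · exact norm_lam_le n
    · rw [norm_zero]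
      exact zero_le_one
  have h2 := (short_dil _ hg hs d hd).const_mul (lam d)
  have e : (fun n : ℕ => if n % q = b % q then lam n else 0) = fun n : ℕ => lam d *
      (if d ∣ n then (if n / d % q' = b' % q' then lam (n / d) else 0) else 0) := by
    funext n
    by_cases hdn : d ∣ n
    · obtain ⟨m, rfl⟩ := hdn
      rw [if_pos (dvd_mul_right d m), Nat.mul_div_cancel_left m hd, hb', hq',
        Nat.mul_mod_mul_left, Nat.mul_mod_mul_left, lam_mul]
      by_cases hm : m % q' = b' % q'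
      · rw [if_pos hm, if_pos (by rw [hm])]
      · rw [if_neg hm, if_neg, mul_zero]
        intro h
        exact hm (Nat.eq_of_mul_eq_mul_left hd h)
    · rw [if_neg hdn, mul_zero, if_neg]
      intro h
      apply hdn
      have h3 : d ∣ q := ⟨q', hq'⟩
      have h4 : d ∣ b := ⟨b', hb'⟩
      have h5 : d ∣ n % q := by
        rw [h]
        exact (Nat.dvd_mod_iff h3).mpr h4
      exact (Nat.dvd_mod_iff h3).mp h5
  rw [e]
  exact h2

end Pool.MRZ
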