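import Mathlib
import Pool.Agent.MRZ.AP
import Pool.Agent.MRZ.SplitH

/-!
# MRZ/Major: major arcs

For `W ≥ 1`, `η > 0` there are `H₀, X₀`: for `X ≥ X₀`, `H₀ ≤ H ≤ X`, `1 ≤ q ≤ W`, `|α - a/q| ≤ W²/H`:
`∑_{x<X} |∑_{x<n≤x+H} λ(n) e(αn)| ≤ η H X`.

Proof. `θ = η/(64 W²)` (wlog `η ≤ 1`), `H' = ⌊θH⌋ ≥ 1`, `β = α - a/q`. `splitH` for `g(n) = λ(n) e(αn)`:
`∑_{x<X} |S_H(x)| ≤ (H/H') ∑_{y<X+H} |S_{H'}(y)| + 2H'X`, `2H'X ≤ 2θHX ≤ (η/4) HX`.
On `(y, y+H']`: `|e(βn) - e(βy)| ≤ 2π|β|H'`, so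
`|S_{H'}(y)| ≤ |∑_{y<n≤y+H'} λ(n) e(an/q)| + 2π (W²/H) H'·H' ≤ ∑_{b<q} |∑_{y<n≤y+H', n≡b(q)} λ(n)| + 2πW²θ H'`
(`e(an/q)` depends only on `n mod q`). `2πW²θ ≤ η/8`: contributes `≤ (H/H')(X+H)(η/8)H' ≤ (η/4) H X`.
By `short_ap` (max of `H₀, X₀` over the finitely many `q ≤ W`, `b < q`, with `η' = η/(8W)`, for length `H'` and
`X' = X + H ≥ H'`): `(H/H') q η' H' (X+H) ≤ (η/4) H X`. `H₀` such that `⌊θH₀⌋ ≥` the required length.
-/

namespace Pool.MRZ

open Finset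

lemma major_ee_sub_one (x : ℝ) : ‖ee x - 1‖ ≤ 2 * Real.pi * |x| := by
  have h := Real.norm_exp_I_mul_ofReal_sub_one_le (x := 2 * Real.pi * x)
  rw [mul_comm Complex.I] at h
  refine le_trans (le_of_eq rfl) (h.trans ?_)
  rw [Real.norm_eq_abs, abs_mul, abs_of_pos (by positivity : (0 : ℝ) < 2 * Real.pi)]

/-- `e(an/q)` depends only on `n mod q` -/
lemma major_ee_mod (a : ℤ) (q n : ℕ) (hq : 1 ≤ q) :
    ee ((a / q : ℝ) * n) = ee ((a / q : ℝ) * (n % q : ℕ)) := by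
  have hq' : (q : ℝ) ≠ 0 := by positivity
  obtain ⟨k, hk⟩ : ∃ k : ℕ, k = n / q := ⟨_, rfl⟩
  have h : (a / q : ℝ) * n = (a / q : ℝ) * (n % q : ℕ) + ((a * (k : ℤ) : ℤ) : ℝ) := by
    have h1 := Nat.div_add_mod n q
    rw [← hk] at h1
    have h2 : (n : ℝ) = q * (k : ℝ) + ((n % q : ℕ) : ℝ) := by exact_mod_cast h1.symm
    push_cast
    rw [h2]
    field_simp
    ring
  rw [h, ee_add, ee_int, mul_one]

lemma major_pt (α : ℝ) (a : ℤ) (q : ℕ) (hq : 1 ≤ q) (y L : ℕ) :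
    ‖∑ n ∈ Finset.Ioc y (y + L), lam n * ee (α * n)‖ ≤
      ∑ b ∈ Finset.range q, ‖∑ n ∈ Finset.Ioc y (y + L), if n % q = b % q then lam n else 0‖ +
        2 * Real.pi * |α - a / q| * L * L := by
  set β : ℝ := α - a / q with hβ
  have hfac : ∀ n ∈ Finset.Ioc y (y + L), lam n * ee (α * n) =
      lam n * ee ((a / q : ℝ) * n) * ee (β * y) +
        lam n * ee ((a / q : ℝ) * n) * ee (β * y) * (ee (β * ((n : ℝ) - y)) - 1) := by
    intro n _
    have h1 : α * n = (a / q : ℝ) * n + (β * y + β * ((n : ℝ) - y)) := by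
      rw [hβ]
      ring
    rw [h1, ee_add, ee_add]
    ring
  rw [Finset.sum_congr rfl hfac, Finset.sum_add_distrib]
  refine (norm_add_le _ _).trans (add_le_add ?_ ?_)
  · rw [← Finset.sum_mul, norm_mul, norm_ee, mul_one]
    have h2 : ∑ n ∈ Finset.Ioc y (y + L), lam n * ee ((a / q : ℝ) * n) =
        ∑ b ∈ Finset.range q, ee ((a / q : ℝ) * b) *
          ∑ n ∈ Finset.Ioc y (y + L), if n % q = b % q then lam n else 0 := by
      simp_rw [Finset.mul_sum]
      rw [Finset.sum_comm]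
      refine Finset.sum_congr rfl fun n _ => ?_
      rw [major_ee_mod a q n hq]
      have hmem : n % q ∈ Finset.range q := Finset.mem_range.2 (Nat.mod_lt _ hq)
      rw [Finset.sum_eq_single_of_mem (n % q) hmem]
      · rw [Nat.mod_mod, if_pos rfl]
        ring
      · intro b hb hne
        rw [Nat.mod_eq_of_lt (Finset.mem_range.1 hb), if_neg (fun h => hne h.symm), mul_zero]
    rw [h2]
    refine (norm_sum_le _ _).trans (Finset.sum_le_sum fun b _ => ?_)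
    rw [norm_mul, norm_ee, one_mul]
  · refine (norm_sum_le _ _).trans ?_
    have h3 : ∀ n ∈ Finset.Ioc y (y + L),
        ‖lam n * ee ((a / q : ℝ) * n) * ee (β * y) * (ee (β * ((n : ℝ) - y)) - 1)‖ ≤
          2 * Real.pi * |β| * L := by
      intro n hn
      rw [Finset.mem_Ioc] at hn
      rw [norm_mul, norm_mul, norm_mul, norm_ee, norm_ee, mul_one, mul_one]
      have h4 : |(n : ℝ) - y| ≤ L := by
        rw [abs_le]
        have a1 : (y : ℝ) < n := by exact_mod_cast hn.1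
        have a2 : (n : ℝ) ≤ y + L := by exact_mod_cast hn.2
        constructor
        · have : (0 : ℝ) ≤ L := Nat.cast_nonneg _
          linarith
        · linarith
      calc ‖lam n‖ * ‖ee (β * ((n : ℝ) - y)) - 1‖ ≤ 1 * (2 * Real.pi * |β * ((n : ℝ) - y)|) :=
            mul_le_mul (norm_lam_le n) (major_ee_sub_one _) (norm_nonneg _) zero_le_one
        _ = 2 * Real.pi * |β| * |(n : ℝ) - y| := by rw [abs_mul]; ring
        _ ≤ 2 * Real.pi * |β| * L :=
            mul_le_mul_of_nonneg_left h4 (by positivity)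
    refine (Finset.sum_le_sum h3).trans (le_of_eq ?_)
    rw [Finset.sum_const, Nat.card_Ioc, nsmul_eq_mul]
    have : y + L - y = L := by omega
    rw [this]
    ring

/-- uniform version of `short_ap` for all moduli up to `W` -/
lemma major_ap (W : ℕ) (η : ℝ) (hη : 0 < η) : ∃ H₀ X₀ : ℕ, ∀ q b : ℕ, 1 ≤ q → q ≤ W → b ≤ W →
    ∀ X H : ℕ, X₀ ≤ X → H₀ ≤ H → H ≤ X →
    ∑ x ∈ Finset.range X, ‖∑ n ∈ Finset.Ioc x (x + H), if n % q = b % q then lam n else 0‖ ≤
      η * H * X := by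
  have h : ∀ q b : ℕ, ∃ H₀ X₀ : ℕ, 1 ≤ q → ∀ X H : ℕ, X₀ ≤ X → H₀ ≤ H → H ≤ X →
      ∑ x ∈ Finset.range X, ‖∑ n ∈ Finset.Ioc x (x + H), if n % q = b % q then lam n else 0‖ ≤
        η * H * X := by
    intro q b
    by_cases hq : 1 ≤ q
    · obtain ⟨H₀, X₀, h⟩ := short_ap q b hq η hη
      exact ⟨H₀, X₀, fun _ => h⟩
    · exact ⟨0, 0, fun h => absurd h hq⟩
  choose F G hFG using h
  have hle : ∀ (K : ℕ → ℕ → ℕ) (q b : ℕ), q ≤ W → b ≤ W →
      K q b ≤ ∑ q ∈ Finset.range (W + 1), ∑ b ∈ Finset.range (W + 1), K q b := by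
    intro K q b hq hb
    refine le_trans ?_ (Finset.single_le_sum (f := fun q => ∑ b ∈ Finset.range (W + 1), K q b)
      (fun _ _ => Nat.zero_le _) (Finset.mem_range.2 (Nat.lt_succ_of_le hq)))
    exact Finset.single_le_sum (f := fun b => K q b)
      (fun _ _ => Nat.zero_le _) (Finset.mem_range.2 (Nat.lt_succ_of_le hb))
  refine ⟨∑ q ∈ Finset.range (W + 1), ∑ b ∈ Finset.range (W + 1), F q b,
    ∑ q ∈ Finset.range (W + 1), ∑ b ∈ Finset.range (W + 1), G q b, ?_⟩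
  intro q b h1 hq hb X H hX hH hHX
  exact hFG q b h1 X H ((hle G q b hq hb).trans hX) ((hle F q b hq hb).trans hH) hHX

theorem major (W : ℕ) (η : ℝ) (hW : 1 ≤ W) (hη : 0 < η) : ∃ H₀ X₀ : ℕ, ∀ X H : ℕ,
    X₀ ≤ X → H₀ ≤ H → H ≤ X → ∀ (α : ℝ) (a : ℤ) (q : ℕ), 1 ≤ q → q ≤ W →
    |α - a / q| ≤ (W : ℝ) ^ 2 / H →
    ∑ x ∈ Finset.range X, ‖∑ n ∈ Finset.Ioc x (x + H), lam n * ee (α * n)‖ ≤ η * H * X := by
  have hW0 : (0 : ℝ) < W := by exact_mod_cast hW
  have hW1 : (1 : ℝ) ≤ W := by exact_mod_cast hW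
  set η₁ : ℝ := min η 1 with hη₁
  have h1 : 0 < η₁ := lt_min hη one_pos
  have h1' : η₁ ≤ 1 := min_le_right _ _
  have h1'' : η₁ ≤ η := min_le_left _ _
  set θ : ℝ := η₁ / (64 * W ^ 2) with hθ
  have hθ0 : 0 < θ := by positivity
  have hθ1 : θ ≤ 1 := by
    rw [hθ, div_le_one (by positivity)]
    nlinarith [one_le_pow₀ hW1 (n := 2)]
  obtain ⟨H₁, X₁, hap⟩ := major_ap W (η₁ / (8 * W)) (by positivity)
  refine ⟨⌈((H₁ : ℝ) + 1) / θ⌉₊ + 1, X₁, ?_⟩
  intro X H hX hH hHX α a q hq hqW hα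
  have hH1 : 1 ≤ H := by omega
  have hHR : (0 : ℝ) < H := by exact_mod_cast hH1
  have hXR : (0 : ℝ) < X := by exact_mod_cast (lt_of_lt_of_le hH1 hHX)
  have hHXR : (H : ℝ) ≤ X := by exact_mod_cast hHX
  set L : ℕ := ⌊θ * H⌋₊ with hL
  have hLH₁ : H₁ + 1 ≤ L := by
    rw [hL, Nat.le_floor_iff (by positivity)]
    have h2 : ((H₁ : ℝ) + 1) / θ ≤ H := by
      refine (Nat.le_ceil _).trans ?_
      exact_mod_cast (by omega : ⌈((H₁ : ℝ) + 1) / θ⌉₊ ≤ H)
    rw [div_le_iff₀ hθ0] at h2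
    push_cast
    linarith
  have hL1 : 1 ≤ L := by omega
  have hLR : (0 : ℝ) < L := by exact_mod_cast hL1
  have hLle : (L : ℝ) ≤ θ * H := Nat.floor_le (by positivity)
  have hLH : L ≤ H := by
    have : (L : ℝ) ≤ H := hLle.trans (by nlinarith)
    exact_mod_cast this
  have hg : ∀ n : ℕ, ‖lam n * ee (α * n)‖ ≤ 1 := by
    intro n
    rw [norm_mul, norm_ee, mul_one]
    exact norm_lam_le n
  have hs := splitH (fun n => lam n * ee (α * n)) hg L H X hL1 hH1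
  have hβ : |α - a / q| * H ≤ (W : ℝ) ^ 2 := by
    rwa [le_div_iff₀ hHR] at hα
  -- the sum over `y`
  have hy : ∑ y ∈ Finset.range (X + H), ‖∑ n ∈ Finset.Ioc y (y + L), lam n * ee (α * n)‖ ≤
      (W : ℝ) * (η₁ / (8 * W) * L * (X + H : ℕ)) +
        (X + H : ℕ) * (2 * Real.pi * |α - a / q| * L * L) := by
    refine (Finset.sum_le_sum fun y _ => major_pt α a q hq y L).trans ?_
    rw [Finset.sum_add_distrib, Finset.sum_const, Finset.card_range, nsmul_eq_mul]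
    refine add_le_add ?_ le_rfl
    rw [Finset.sum_comm]
    calc ∑ b ∈ Finset.range q, ∑ y ∈ Finset.range (X + H),
          ‖∑ n ∈ Finset.Ioc y (y + L), if n % q = b % q then lam n else 0‖
        ≤ ∑ _b ∈ Finset.range q, η₁ / (8 * W) * L * (X + H : ℕ) := by
          refine Finset.sum_le_sum fun b hb => ?_
          exact hap q b hq hqW ((Finset.mem_range.1 hb).le.trans hqW) (X + H) L (by omega)
            (by omega) (by omega)
      _ = (q : ℝ) * (η₁ / (8 * W) * L * (X + H : ℕ)) := by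
          rw [Finset.sum_const, Finset.card_range, nsmul_eq_mul]
      _ ≤ (W : ℝ) * (η₁ / (8 * W) * L * (X + H : ℕ)) := by
          apply mul_le_mul_of_nonneg_right _ (by positivity)
          exact_mod_cast hqW
  have hXH : ((X + H : ℕ) : ℝ) ≤ 2 * X := by
    push_cast
    linarith
  have hXH0 : (0 : ℝ) ≤ ((X + H : ℕ) : ℝ) := Nat.cast_nonneg _
  -- first term
  have t1 : (H : ℝ) / L * ((W : ℝ) * (η₁ / (8 * W) * L * (X + H : ℕ))) ≤ η₁ / 4 * (H * X) := by
    have e : (H : ℝ) / L * ((W : ℝ) * (η₁ / (8 * W) * L * (X + H : ℕ))) =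
        η₁ / 8 * H * ((X + H : ℕ) : ℝ) := by
      field_simp
    rw [e]
    calc η₁ / 8 * H * ((X + H : ℕ) : ℝ) ≤ η₁ / 8 * H * (2 * X) :=
          mul_le_mul_of_nonneg_left hXH (by positivity)
      _ = η₁ / 4 * (H * X) := by ring
  -- second term
  have t2 : (H : ℝ) / L * ((X + H : ℕ) * (2 * Real.pi * |α - a / q| * L * L)) ≤
      η₁ / 4 * (H * X) := by
    have e : (H : ℝ) / L * ((X + H : ℕ) * (2 * Real.pi * |α - a / q| * L * L)) =
        2 * Real.pi * (|α - a / q| * H) * (L * ((X + H : ℕ) : ℝ)) := by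
      field_simp
    rw [e]
    calc 2 * Real.pi * (|α - a / q| * H) * (L * ((X + H : ℕ) : ℝ))
        ≤ 2 * Real.pi * (W : ℝ) ^ 2 * ((θ * H) * (2 * X)) := by
          apply mul_le_mul _ _ (by positivity) (by positivity)
          · exact mul_le_mul_of_nonneg_left hβ (by positivity)
          · exact mul_le_mul hLle hXH hXH0 (by positivity)
      _ = Real.pi * (η₁ / 16) * (H * X) := by
          rw [hθ]
          field_simp
          ring
      _ ≤ 4 * (η₁ / 16) * (H * X) := by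
          apply mul_le_mul_of_nonneg_right _ (by positivity)
          exact mul_le_mul_of_nonneg_right Real.pi_le_four (by positivity)
      _ = η₁ / 4 * (H * X) := by ring
  -- third term
  have t3 : 2 * (L : ℝ) * X ≤ η₁ / 4 * (H * X) := by
    have e : θ ≤ η₁ / 64 := by
      rw [hθ]
      apply div_le_div_of_nonneg_left h1.le (by norm_num)
      nlinarith [one_le_pow₀ hW1 (n := 2)]
    calc 2 * (L : ℝ) * X ≤ 2 * (η₁ / 64 * H) * X := by
          apply mul_le_mul_of_nonneg_right _ hXR.le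
          have := hLle.trans (mul_le_mul_of_nonneg_right e hHR.le)
          linarith
      _ ≤ η₁ / 4 * (H * X) := by
          have : 0 ≤ η₁ * (H * X) := by positivity
          linarith
  calc ∑ x ∈ Finset.range X, ‖∑ n ∈ Finset.Ioc x (x + H), lam n * ee (α * n)‖
      ≤ (H : ℝ) / L * ((W : ℝ) * (η₁ / (8 * W) * L * (X + H : ℕ)) +
        (X + H : ℕ) * (2 * Real.pi * |α - a / q| * L * L)) + 2 * L * X := by
        refine hs.trans (add_le_add ?_ le_rfl)
        exact mul_le_mul_of_nonneg_left hy (by positivity)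
    _ ≤ η₁ / 4 * (H * X) + η₁ / 4 * (H * X) + η₁ / 4 * (H * X) := by
        rw [mul_add]
        exact add_le_add (add_le_add t1 t2) t3
    _ ≤ η₁ * (H * X) := by
        have : 0 ≤ η₁ * (H * X) := by positivity
        linarith
    _ ≤ η * (H * X) := mul_le_mul_of_nonneg_right h1'' (by positivity)
    _ = η * H * X := by ring

end Pool.MRZ
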