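import Mathlib
import Pool.Agent.MRZ.Defs

/-!
# MRZ/MinSum: `∑_{l<P} min(M, 1/‖αl‖)`

`dz x = |x - round x|` is the distance to the nearest integer.
* `geo_le`: `|∑_{A<m≤B} e(θm)| ≤ min (B - A, 1/(2 dz θ))` in the form: `≤ B - A` and `* (2 dz θ) ≤ 1`
  (geometric sum, `|e(θ) - 1| = 2|sin πθ| ≥ 4 dz θ`, so `|∑| ≤ 2/(4 dz θ)`).
* `min_sum`: if `|α - a/q| ≤ 1/q²`, `gcd(a,q) = 1`, `q, P ≥ 1`, `M ≥ 0`:
  `∑_{l<P} mn M (αl) ≤ C (P/q + 1)(M + q log (2P))`, `mn M x = M` if `dz x = 0`, else `min(M, 1/(2 dz x))`.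
  Proof: let `q₁ = max(1, ⌊q/2⌋)` and cut `[0,P)` into `≤ P/q₁ + 1 ≤ 3(P/q) + 1`… blocks of length
  `≤ min(P, q₁)`. In one block `l = l₀ + r`, `0 ≤ r < min(P,q₁)`: for `r ≠ r'` in the block
  `dz (α(r-r')) ≥ dz (a(r-r')/q) - |r-r'|/q² ≥ 1/q - (q/2)/q² = 1/(2q)` (if `q = 1` or `q₁ = 1` the block has
  one element). So the points `αl` of the block are `1/(2q)`-separated mod 1: for every `k ≥ 0` at most
  `2` of them (one on each side) have `dz ∈ [k/(2q), (k+1)/(2q))`; the two with `k = 0` contribute `2M`, the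
  others at most `∑_{1≤k≤min(P,q)} 2 · q/k ≤ 2q (1 + log P)` (order the block by the size of `dz`: the `i`-th
  smallest has `dz ≥ ⌊(i-1)/2⌋/(2q)`, and the block has at most `P` elements).
-/

namespace Pool.MRZ

open Finset

/-- distance to the nearest integer -/
noncomputable def dz (x : ℝ) : ℝ := |x - round x|

/-- `min (M, 1/(2‖x‖))` -/
noncomputable def mn (M x : ℝ) : ℝ := if dz x = 0 then M else min M (1 / (2 * dz x))

theorem dz_nonneg (x : ℝ) : 0 ≤ dz x := abs_nonneg _

theorem dz_le_half (x : ℝ) : dz x ≤ 1 / 2 := abs_sub_round x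

theorem ee_sub_int (x : ℝ) (n : ℤ) : ee (x - n) = ee x := by
  have h1 : x = (x - n) + n := by ring
  conv_rhs => rw [h1, ee_add, ee_int, mul_one]

/-- `|e(θ) - 1| ≥ 4 ‖θ‖` -/
theorem norm_ee_sub_one (θ : ℝ) : 4 * dz θ ≤ ‖ee θ - 1‖ := by
  set t := θ - round θ with ht
  have h1 : ee θ = ee t := by
    rw [ht, ee_sub_int]
  have h2 : ‖ee t - 1‖ = 2 * |Real.sin (Real.pi * t)| := by
    unfold ee
    rw [mul_comm _ Complex.I, Complex.norm_exp_I_mul_ofReal_sub_one, norm_mul, Real.norm_two,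
      Real.norm_eq_abs]
    congr 3
    ring
  have h3 : |t| ≤ 1 / 2 := abs_sub_round θ
  have h4 : |Real.sin (Real.pi * t)| = Real.sin (Real.pi * |t|) := by
    have hpi := Real.pi_pos
    rcases le_total 0 t with h | h
    · rw [abs_of_nonneg h] at h3 ⊢
      exact abs_of_nonneg (Real.sin_nonneg_of_nonneg_of_le_pi (by positivity) (by nlinarith))
    · rw [abs_of_nonpos h] at h3 ⊢
      have h5 : Real.sin (Real.pi * t) = - Real.sin (Real.pi * -t) := by
        rw [← Real.sin_neg]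
        congr 1
        ring
      rw [h5, abs_neg]
      exact abs_of_nonneg (Real.sin_nonneg_of_nonneg_of_le_pi (by nlinarith) (by nlinarith))
  have h5 : 2 / Real.pi * (Real.pi * |t|) ≤ Real.sin (Real.pi * |t|) :=
    Real.mul_le_sin (by positivity) (by nlinarith [Real.pi_pos])
  have h6 : 2 / Real.pi * (Real.pi * |t|) = 2 * |t| := by
    have := Real.pi_ne_zero
    field_simp
  rw [h1, h2, h4]
  have h7 : dz θ = |t| := rfl
  rw [h7]
  linarith

theorem ee_nat_mul (θ : ℝ) (m : ℕ) : ee (θ * m) = ee θ ^ m := by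
  induction m with
  | zero => simp [ee_zero]
  | succ m ih =>
    rw [pow_succ, ← ih, ← ee_add]
    congr 1
    push_cast
    ring

theorem geo_le (A B : ℕ) (θ : ℝ) (hAB : A ≤ B) :
    ‖∑ m ∈ Finset.Ioc A B, ee (θ * m)‖ ≤ mn ((B : ℝ) - A) θ := by
  have h1 : ‖∑ m ∈ Finset.Ioc A B, ee (θ * m)‖ ≤ (B : ℝ) - A := by
    refine (norm_sum_le _ _).trans ?_
    simp only [norm_ee, Finset.sum_const, Nat.card_Ioc, nsmul_eq_mul, mul_one]
    rw [Nat.cast_sub hAB]
  unfold mn
  split_ifs with h0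
  · exact h1
  · refine le_min h1 ?_
    have hd : 0 < dz θ := lt_of_le_of_ne (dz_nonneg θ) (Ne.symm h0)
    have h2 := norm_ee_sub_one θ
    have h3 : ee θ ≠ 1 := by
      intro h
      rw [h, sub_self, norm_zero] at h2
      linarith
    have h4 : ∑ m ∈ Finset.Ioc A B, ee (θ * m) = (ee θ ^ (B + 1) - ee θ ^ (A + 1)) / (ee θ - 1) := by
      rw [← geom_sum_Ico h3 (Nat.succ_le_succ hAB)]
      refine Finset.sum_congr ?_ fun m _ => ee_nat_mul θ m
      ext m
      simp only [Finset.mem_Ioc, Finset.mem_Ico]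
      omega
    rw [h4, norm_div, div_le_div_iff₀ (by linarith) (by linarith), one_mul]
    have h5 : ‖ee θ ^ (B + 1) - ee θ ^ (A + 1)‖ ≤ 2 := by
      refine (norm_sub_le _ _).trans ?_
      rw [norm_pow, norm_pow, norm_ee, one_pow, one_pow]
      norm_num
    calc ‖ee θ ^ (B + 1) - ee θ ^ (A + 1)‖ * (2 * dz θ) ≤ 2 * (2 * dz θ) :=
          mul_le_mul_of_nonneg_right h5 (by linarith)
      _ = 4 * dz θ := by ring
      _ ≤ _ := h2

/-- separation of multiples -/
theorem sep_mult {α : ℝ} {a : ℤ} {q : ℕ} (hq : 1 ≤ q) (hcop : IsCoprime a (q : ℤ))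
    (hα : |α - a / q| ≤ 1 / (q : ℝ) ^ 2) {d : ℤ} (hd : d ≠ 0) (hdq : |(d : ℝ)| ≤ q / 2) (n : ℤ) :
    1 / (2 * (q : ℝ)) ≤ |α * d - n| := by
  have hq0 : (0 : ℝ) < q := by exact_mod_cast hq
  have hne : a * d - n * q ≠ 0 := by
    intro h0
    have h1 : (q : ℤ) ∣ a * d := ⟨n, by linarith⟩
    have h2 : (q : ℤ) ∣ d := hcop.symm.dvd_of_dvd_mul_left h1
    have h3 : (q : ℤ) ≤ |d| := Int.le_of_dvd (abs_pos.2 hd) ((dvd_abs _ _).2 h2)
    have h4 : (q : ℝ) ≤ |(d : ℝ)| := by exact_mod_cast h3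
    linarith
  have h1 : (1 : ℝ) ≤ |((a * d - n * q : ℤ) : ℝ)| := by
    have h2 : (1 : ℤ) ≤ |a * d - n * q| := Int.one_le_abs hne
    exact_mod_cast h2
  have h2 : |((a * d - n * q : ℤ) : ℝ)| = q * |(a : ℝ) / q * d - n| := by
    have h3 : (q : ℝ) * |(a : ℝ) / q * d - n| = |(q : ℝ) * ((a : ℝ) / q * d - n)| := by
      rw [abs_mul, abs_of_pos hq0]
    rw [h3]
    congr 1
    push_cast
    field_simp
  have h3 : 1 / (q : ℝ) ≤ |(a : ℝ) / q * d - n| := by
    rw [div_le_iff₀ hq0]
    linarith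
  have h4 : |(α - a / q) * d| ≤ 1 / (2 * (q : ℝ)) := by
    rw [abs_mul]
    calc |α - a / q| * |(d : ℝ)| ≤ 1 / (q : ℝ) ^ 2 * (q / 2) :=
          mul_le_mul hα hdq (abs_nonneg _) (by positivity)
      _ = 1 / (2 * (q : ℝ)) := by field_simp
  have h5 : (a / q * d - n : ℝ) = (α * d - n) - (α - a / q) * d := by ring
  have h6 : |(a / q * d - n : ℝ)| ≤ |α * d - n| + |(α - a / q) * d| := by
    rw [h5]
    exact abs_sub _ _
  have h7 : 1 / (q : ℝ) = 1 / (2 * (q : ℝ)) + 1 / (2 * (q : ℝ)) := by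
    field_simp
    norm_num
  linarith

theorem harm_le (q : ℝ) (hq : 0 ≤ q) (P : ℕ) :
    ∑ k ∈ Finset.range P, q / ((k : ℝ) + 1) ≤ q * (1 + Real.log P) := by
  have h1 := harmonic_le_one_add_log P
  have h2 : ∑ k ∈ Finset.range P, q / ((k : ℝ) + 1) = q * (harmonic P : ℝ) := by
    unfold harmonic
    push_cast
    rw [Finset.mul_sum]
    rfl
  rw [h2]
  exact mul_le_mul_of_nonneg_left h1 hq

/-- one block -/
theorem block_sum {α M : ℝ} {q P : ℕ} (hq : 1 ≤ q) (hP : 1 ≤ P) (hM : 0 ≤ M) (B : Finset ℕ)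
    (hcard : B.card ≤ P)
    (hsep : ∀ l ∈ B, ∀ l' ∈ B, l ≠ l' → ∀ n : ℤ, 1 / (2 * (q : ℝ)) ≤ |α * l - α * l' - n|) :
    ∑ l ∈ B, mn M (α * l) ≤ 2 * M + q * (3 + 2 * Real.log P) := by
  classical
  have hq0 : (0 : ℝ) < q := by exact_mod_cast hq
  have hP0 : (0 : ℝ) < P := by exact_mod_cast hP
  set K : ℕ → ℕ := fun l => ⌊2 * q * dz (α * l)⌋₊ with hK
  set H : ℕ → ℝ := fun k => if k = 0 then M else (q : ℝ) / k with hH
  have hHpos : ∀ k, 0 ≤ H k := by
    intro k
    simp only [hH]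
    split_ifs
    · exact hM
    · positivity
  have h1 : ∀ l : ℕ, mn M (α * l) ≤ H (K l) := by
    intro l
    simp only [hH]
    split_ifs with h0
    · unfold mn
      split_ifs
      · exact le_rfl
      · exact min_le_left _ _
    · have h2 : (K l : ℝ) ≤ 2 * q * dz (α * l) :=
        Nat.floor_le (mul_nonneg (by positivity) (dz_nonneg _))
      have h3 : (1 : ℝ) ≤ K l := by exact_mod_cast Nat.one_le_iff_ne_zero.2 h0
      have h4 : 0 < dz (α * l) := by
        by_contra hcon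
        push Not at hcon
        have h5 : dz (α * l) = 0 := le_antisymm hcon (dz_nonneg _)
        rw [h5] at h2
        linarith
      unfold mn
      rw [if_neg h4.ne']
      refine (min_le_right _ _).trans ?_
      rw [div_le_div_iff₀ (by positivity) (by linarith)]
      linarith
  set g : ℕ → ℕ × Bool := fun l => (K l, decide (0 ≤ α * l - round (α * l))) with hg
  have hinj : Set.InjOn g (B : Set ℕ) := by
    intro l hl l' hl' hgl
    by_contra hne
    simp only [hg, Prod.mk.injEq, decide_eq_decide] at hgl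
    obtain ⟨hk, hs⟩ := hgl
    have h2 := hsep l hl l' hl' hne (round (α * l) - round (α * l'))
    set t := α * l - round (α * l) with ht
    set t' := α * l' - round (α * l') with ht'
    have h3 : α * l - α * l' - ((round (α * l) - round (α * l') : ℤ) : ℝ) = t - t' := by
      rw [ht, ht']
      push_cast
      ring
    rw [h3] at h2
    have h4 : |t - t'| = abs (|t| - |t'|) := by
      by_cases h0 : 0 ≤ t
      · rw [abs_of_nonneg h0, abs_of_nonneg (hs.1 h0)]
      · have h0' : ¬ 0 ≤ t' := fun h => h0 (hs.2 h)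
        push Not at h0 h0'
        rw [abs_of_neg h0, abs_of_neg h0', ← abs_neg]
        congr 1
        ring
    have hd : dz (α * l) = |t| := rfl
    have hd' : dz (α * l') = |t'| := rfl
    have h5 : (K l : ℝ) ≤ 2 * q * |t| := hd ▸ Nat.floor_le (mul_nonneg (by positivity) (dz_nonneg _))
    have h6 : 2 * q * |t| < K l + 1 := hd ▸ Nat.lt_floor_add_one _
    have h7 : (K l' : ℝ) ≤ 2 * q * |t'| :=
      hd' ▸ Nat.floor_le (mul_nonneg (by positivity) (dz_nonneg _))
    have h8 : 2 * q * |t'| < K l' + 1 := hd' ▸ Nat.lt_floor_add_one _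
    have hk' : (K l : ℝ) = K l' := by exact_mod_cast hk
    rw [h4, div_le_iff₀ (by positivity)] at h2
    rcases le_total |t| |t'| with h9 | h9
    · rw [abs_of_nonpos (by linarith)] at h2
      nlinarith
    · rw [abs_of_nonneg (by linarith)] at h2
      nlinarith
  -- the large ones
  have hbig : ∑ l ∈ B.filter (fun l => ¬ K l ≤ P), H (K l) ≤ q := by
    have h2 : ∀ l ∈ B.filter (fun l => ¬ K l ≤ P), H (K l) ≤ q / P := by
      intro l hl
      have h3 := (Finset.mem_filter.1 hl).2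
      push Not at h3
      have h4 : K l ≠ 0 := by omega
      simp only [hH, if_neg h4]
      have h5 : (P : ℝ) ≤ K l := by exact_mod_cast h3.le
      exact div_le_div_of_nonneg_left hq0.le hP0 h5
    refine (Finset.sum_le_card_nsmul _ _ _ h2).trans ?_
    rw [nsmul_eq_mul]
    have h3 : ((B.filter (fun l => ¬ K l ≤ P)).card : ℝ) ≤ P := by
      exact_mod_cast (Finset.card_filter_le _ _).trans hcard
    calc ((B.filter (fun l => ¬ K l ≤ P)).card : ℝ) * (q / P) ≤ P * (q / P) :=
          mul_le_mul_of_nonneg_right h3 (by positivity)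
      _ = q := by field_simp
  have hsmall : ∑ l ∈ B.filter (fun l => K l ≤ P), H (K l) ≤ 2 * (M + q * (1 + Real.log P)) := by
    have h2 : ∑ l ∈ B.filter (fun l => K l ≤ P), H (K l) =
        ∑ p ∈ (B.filter (fun l => K l ≤ P)).image g, H p.1 := by
      rw [Finset.sum_image]
      intro l hl l' hl' h
      exact hinj (Finset.mem_filter.1 hl).1 (Finset.mem_filter.1 hl').1 h
    have h3 : (B.filter (fun l => K l ≤ P)).image g ⊆
        Finset.range (P + 1) ×ˢ (Finset.univ : Finset Bool) := by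
      intro p hp
      obtain ⟨l, hl, rfl⟩ := Finset.mem_image.1 hp
      have h4 := (Finset.mem_filter.1 hl).2
      simp only [hg, Finset.mem_product, Finset.mem_range, Finset.mem_univ, and_true]
      omega
    rw [h2]
    refine (Finset.sum_le_sum_of_subset_of_nonneg h3 (fun p _ _ => hHpos p.1)).trans ?_
    rw [Finset.sum_product]
    simp only [Finset.sum_const, Finset.card_univ, Fintype.card_bool, nsmul_eq_mul]
    rw [← Finset.mul_sum, Finset.sum_range_succ']
    have h4 : ∑ k ∈ Finset.range P, H (k + 1) ≤ q * (1 + Real.log P) := by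
      refine le_trans (le_of_eq ?_) (harm_le q hq0.le P)
      refine Finset.sum_congr rfl fun k _ => ?_
      simp [hH]
    have h5 : H 0 = M := by simp [hH]
    rw [h5]
    push_cast
    linarith
  calc ∑ l ∈ B, mn M (α * l) ≤ ∑ l ∈ B, H (K l) := Finset.sum_le_sum fun l _ => h1 l
    _ = ∑ l ∈ B.filter (fun l => K l ≤ P), H (K l) +
        ∑ l ∈ B.filter (fun l => ¬ K l ≤ P), H (K l) :=
      (Finset.sum_filter_add_sum_filter_not _ _ _).symm
    _ ≤ 2 * (M + q * (1 + Real.log P)) + q := add_le_add hsmall hbig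
    _ = 2 * M + q * (3 + 2 * Real.log P) := by ring

theorem min_sum : ∃ C : ℝ, 0 < C ∧ ∀ (α M : ℝ) (a : ℤ) (q P : ℕ), 1 ≤ q → 1 ≤ P → 0 ≤ M →
    IsCoprime a (q : ℤ) → |α - a / q| ≤ 1 / (q : ℝ) ^ 2 →
    ∑ l ∈ Finset.range P, mn M (α * l) ≤ C * ((P : ℝ) / q + 1) * (M + q * Real.log (2 * P)) := by
  refine ⟨21, by norm_num, ?_⟩
  intro α M a q P hq hP hM hcop hα
  have hq0 : (0 : ℝ) < q := by exact_mod_cast hq
  have hP0 : (0 : ℝ) < P := by exact_mod_cast hP
  set q₁ := max 1 (q / 2) with hq₁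
  have hq₁1 : 1 ≤ q₁ := le_max_left _ _
  have hmaps : ∀ l ∈ Finset.range P, l / q₁ ∈ Finset.range (P / q₁ + 1) := by
    intro l hl
    rw [Finset.mem_range] at hl ⊢
    exact Nat.lt_succ_of_le (Nat.div_le_div_right hl.le)
  rw [← Finset.sum_fiberwise_of_maps_to hmaps]
  have hlogP : 0 ≤ Real.log P := Real.log_nonneg (by exact_mod_cast hP)
  have hlog : Real.log (2 * P) = Real.log 2 + Real.log P :=
    Real.log_mul (by norm_num) hP0.ne'
  have hlog2 : 0.69 < Real.log 2 := lt_trans (by norm_num) Real.log_two_gt_d9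
  have hblock : ∀ j ∈ Finset.range (P / q₁ + 1),
      ∑ l ∈ (Finset.range P).filter (fun l => l / q₁ = j), mn M (α * l) ≤
        7 * (M + q * Real.log (2 * P)) := by
    intro j _
    refine (block_sum hq hP hM _ ?_ ?_).trans ?_
    · exact (Finset.card_filter_le _ _).trans (by rw [Finset.card_range])
    · intro l hl l' hl' hne n
      have h1 := (Finset.mem_filter.1 hl).2
      have h2 := (Finset.mem_filter.1 hl').2
      have h3 := Nat.div_add_mod l q₁
      have h4 := Nat.div_add_mod l' q₁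
      have h5 := Nat.mod_lt l hq₁1
      have h6 := Nat.mod_lt l' hq₁1
      rw [h1] at h3
      rw [h2] at h4
      have h7 : |((l : ℤ) - l')| < q₁ := by
        rw [abs_lt]
        constructor <;> omega
      have h8 : q₁ = q / 2 := by
        rw [hq₁]
        refine max_eq_right ?_
        by_contra hcon
        have h9 : q₁ = 1 := by
          rw [hq₁]
          exact max_eq_left (by omega)
        rw [h9] at h3 h4 h5 h6
        apply hne
        omega
      have h9 : |(((l : ℤ) - l' : ℤ) : ℝ)| ≤ q / 2 := by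
        have h10 : |((l : ℤ) - l')| * 2 ≤ q := by
          have h11 : q₁ * 2 ≤ q := by
            rw [h8]
            exact Nat.div_mul_le_self q 2
          have h12 : ((q₁ * 2 : ℕ) : ℤ) ≤ q := by exact_mod_cast h11
          push_cast at h12
          linarith
        have h13 : |(((l : ℤ) - l' : ℤ) : ℝ)| * 2 ≤ q := by exact_mod_cast h10
        linarith
      have h10 := sep_mult hq hcop hα (d := (l : ℤ) - l') (by omega) h9 n
      have h11 : α * (((l : ℤ) - l' : ℤ) : ℝ) - n = α * l - α * l' - n := by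
        push_cast
        ring
      rwa [h11] at h10
    · rw [hlog]
      nlinarith
  refine (Finset.sum_le_card_nsmul _ _ _ hblock).trans ?_
  rw [Finset.card_range, nsmul_eq_mul]
  have hX : 0 ≤ M + q * Real.log (2 * P) := by
    rw [hlog]
    have : 0 ≤ (q : ℝ) * (Real.log 2 + Real.log P) := by positivity
    linarith
  have h1 : ((P / q₁ + 1 : ℕ) : ℝ) ≤ 3 * ((P : ℝ) / q + 1) := by
    have h2 : ((P / q₁ : ℕ) : ℝ) ≤ (P : ℝ) / q₁ := Nat.cast_div_le
    have h3 : (q : ℝ) ≤ 3 * q₁ := by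
      have h4 : q ≤ 3 * q₁ := by
        rw [hq₁]
        rcases le_total 1 (q / 2) with h | h
        · rw [max_eq_right h]
          omega
        · rw [max_eq_left h]
          omega
      exact_mod_cast h4
    have hq₁0 : (0 : ℝ) < q₁ := by exact_mod_cast hq₁1
    have h4 : (P : ℝ) / q₁ ≤ 3 * (P / q) := by
      rw [← mul_div_assoc, div_le_div_iff₀ hq₁0 hq0]
      nlinarith
    push_cast
    linarith
  calc ((P / q₁ + 1 : ℕ) : ℝ) * (7 * (M + q * Real.log (2 * P)))
      ≤ 3 * ((P : ℝ) / q + 1) * (7 * (M + q * Real.log (2 * P))) :=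
        mul_le_mul_of_nonneg_right h1 (by positivity)
    _ = 21 * ((P : ℝ) / q + 1) * (M + q * Real.log (2 * P)) := by ring

end Pool.MRZ
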