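import Mathlib
import Pool.Agent.MRZ.MinSum

/-!
# MRZ/Bilin: the bilinear sum over a dyadic block of primes

`f` completely multiplicative bounded by one, `I ⊆ (P, 2P]` a finite set (of primes; only this is used),
`1 ≤ P ≤ H ≤ X`, `|α - a/q| ≤ 1/q²`, `gcd(a,q) = 1`, `q ≥ 1`. Then with
`F(x) = ∑_{p∈I} ∑_{m : x < pm ≤ x+H} f(p) f(m) e(αpm)`:
`(∑_{x<X} |F(x)|)² ≤ C X² H² (1/q + 1/P + P log(2P)/H + q log(2P)/H)`.

Proof. Let `|θ_x| = 1` with `∑_{x<X} |F(x)| = ∑_x θ_x F(x) = ∑_{m} f(m) ∑_{p∈I} f(p) e(αpm) Θ(pm)`,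
`Θ(n) = ∑_{x<X, x<n≤x+H} θ_x`; only `m ≤ M₀ := ⌊2X/P⌋` occur (`pm ≤ X + H ≤ 2X`, `p > P`). Cauchy–Schwarz:
`(∑_x |F|)² ≤ M₀ ∑_{m≤M₀} |∑_p f(p) e(αpm) Θ(pm)|²
= M₀ ∑_{p,p'} f(p) conj f(p') ∑_{x,x'<X} θ_x conj θ_{x'} ∑_m e(α(p-p')m)`,
`m` over the integers (`≤ M₀`, `≥ 1`) with `x < pm ≤ x+H`, `x' < p'm ≤ x'+H`: an interval of at most `H/P + 1 ≤ 2H/P`
integers, so the inner sum is at most `mn (2H/P) (α(p-p'))` (`geo_le`; `mn` is monotone in `M`; `mn M (-x) = mn M x`),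
and it is empty unless `|x/p - x'/p'| < H/P`, i.e. (given `x, p, p'`) `|x' - p'x/p| < p'H/P ≤ 2H`: at most `4H+1 ≤ 5H`
values of `x'`. Total `≤ (2X/P) · X · 5H ∑_{p,p'∈I} mn (2H/P) (α(p-p'))
≤ (10 X²H/P) · P · 2 ∑_{0≤l<P} mn (2H/P) (αl)` (for fixed `p` the differences `p' - p` are distinct, `|p'-p| < P`, and
`I` has at most `P` elements) `≤ C X² H (P/q + 1)(H/P + q log 2P)
= C X² H (H/q + P log 2P + H/P + q log 2P)`.
-/

namespace Pool.MRZ

open Finset

namespace BilinAux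

theorem dz_neg (x : ℝ) : dz (-x) = dz x := by
  have key : ∀ y : ℝ, dz (-y) ≤ dz y := by
    intro y
    have h1 := round_le (-y) (-round y)
    have h2 : |(-y) - ((-round y : ℤ) : ℝ)| = |y - round y| := by
      rw [← abs_neg]
      congr 1
      push_cast
      ring
    rw [h2] at h1
    exact h1
  refine le_antisymm (key x) ?_
  have := key (-x)
  rwa [neg_neg] at this

theorem mn_neg (M x : ℝ) : mn M (-x) = mn M x := by
  unfold mn
  rw [dz_neg]

theorem mn_mono {M M' : ℝ} (h : M ≤ M') (x : ℝ) : mn M x ≤ mn M' x := by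
  unfold mn
  split_ifs
  · exact h
  · exact min_le_min_right _ h

theorem mn_nonneg {M : ℝ} (hM : 0 ≤ M) (x : ℝ) : 0 ≤ mn M x := by
  unfold mn
  split_ifs
  · exact hM
  · refine le_min hM ?_
    have := dz_nonneg x
    positivity

/-- duality: Cauchy–Schwarz over `m` -/
theorem dual {ι : Type} [DecidableEq ι] (f : ℕ → ℂ) (hf : ∀ n, ‖f n‖ ≤ 1) (U : Finset ι)
    (J : ι → Finset ℕ) (Ms : Finset ℕ) (hJ : ∀ u ∈ U, J u ⊆ Ms) (c : ι → ℂ) (hc : ∀ u, ‖c u‖ ≤ 1)
    (φ : ι → ℝ) :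
    ‖∑ u ∈ U, ∑ m ∈ J u, c u * (f m * ee (φ u * m))‖ ^ 2 ≤
      Ms.card * ∑ u ∈ U, ∑ u' ∈ U, ‖∑ m ∈ J u ∩ J u', ee ((φ u - φ u') * m)‖ := by
  classical
  set A : ι → ℕ → ℂ := fun u m => if m ∈ J u then c u * ee (φ u * m) else 0 with hA
  have h1 : ∑ u ∈ U, ∑ m ∈ J u, c u * (f m * ee (φ u * m)) =
      ∑ m ∈ Ms, f m * ∑ u ∈ U, A u m := by
    have e1 : ∀ u ∈ U, ∑ m ∈ J u, c u * (f m * ee (φ u * m)) = ∑ m ∈ Ms, f m * A u m := by
      intro u hu
      rw [← Finset.sum_subset (hJ u hu)]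
      · refine Finset.sum_congr rfl fun m hm => ?_
        simp only [hA, if_pos hm]
        ring
      · intro m _ hm
        simp only [hA, if_neg hm, mul_zero]
    rw [Finset.sum_congr rfl e1, Finset.sum_comm]
    simp only [Finset.mul_sum]
  have h2 : ‖∑ m ∈ Ms, f m * ∑ u ∈ U, A u m‖ ≤ ∑ m ∈ Ms, ‖∑ u ∈ U, A u m‖ := by
    refine (norm_sum_le _ _).trans (Finset.sum_le_sum fun m _ => ?_)
    rw [norm_mul]
    exact mul_le_of_le_one_left (norm_nonneg _) (hf m)
  have h3 : (∑ m ∈ Ms, ‖∑ u ∈ U, A u m‖) ^ 2 ≤ Ms.card * ∑ m ∈ Ms, ‖∑ u ∈ U, A u m‖ ^ 2 :=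
    sq_sum_le_card_mul_sum_sq
  have h4 : ∑ m ∈ Ms, ‖∑ u ∈ U, A u m‖ ^ 2 ≤
      ∑ u ∈ U, ∑ u' ∈ U, ‖∑ m ∈ J u ∩ J u', ee ((φ u - φ u') * m)‖ := by
    have e0 : ∀ z : ℂ, ((‖z‖ ^ 2 : ℝ) : ℂ) = z * (starRingEnd ℂ) z := by
      intro z
      rw [Complex.mul_conj, Complex.normSq_eq_norm_sq]
    have e1 : ((∑ m ∈ Ms, ‖∑ u ∈ U, A u m‖ ^ 2 : ℝ) : ℂ) =
        ∑ u ∈ U, ∑ u' ∈ U, ∑ m ∈ Ms, A u m * (starRingEnd ℂ) (A u' m) := by
      rw [Complex.ofReal_sum]
      have e2 : ∀ m ∈ Ms, ((‖∑ u ∈ U, A u m‖ ^ 2 : ℝ) : ℂ) =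
          ∑ u ∈ U, ∑ u' ∈ U, A u m * (starRingEnd ℂ) (A u' m) := by
        intro m _
        rw [e0, map_sum, Finset.sum_mul_sum]
      rw [Finset.sum_congr rfl e2, Finset.sum_comm]
      refine Finset.sum_congr rfl fun u _ => ?_
      rw [Finset.sum_comm]
    have e3 : ∀ u ∈ U, ∀ u' ∈ U, ∑ m ∈ Ms, A u m * (starRingEnd ℂ) (A u' m) =
        c u * (starRingEnd ℂ) (c u') * ∑ m ∈ J u ∩ J u', ee ((φ u - φ u') * m) := by
      intro u hu u' _
      rw [← Finset.sum_subset (Finset.inter_subset_left.trans (hJ u hu) : J u ∩ J u' ⊆ Ms)]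
      · rw [Finset.mul_sum]
        refine Finset.sum_congr rfl fun m hm => ?_
        rw [Finset.mem_inter] at hm
        simp only [hA, if_pos hm.1, if_pos hm.2, map_mul, conj_ee]
        have e4 : (φ u - φ u') * (m : ℝ) = φ u * m + -(φ u' * m) := by ring
        rw [e4, ee_add]
        ring
      · intro m _ hm
        rw [Finset.mem_inter, not_and_or] at hm
        rcases hm with hm | hm
        · simp only [hA, if_neg hm, zero_mul]
        · simp only [hA, if_neg hm, map_zero, mul_zero]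
    have e5 : 0 ≤ ∑ m ∈ Ms, ‖∑ u ∈ U, A u m‖ ^ 2 := Finset.sum_nonneg fun _ _ => sq_nonneg _
    calc ∑ m ∈ Ms, ‖∑ u ∈ U, A u m‖ ^ 2
        = ‖((∑ m ∈ Ms, ‖∑ u ∈ U, A u m‖ ^ 2 : ℝ) : ℂ)‖ := by
          rw [Complex.norm_real, Real.norm_of_nonneg e5]
      _ = ‖∑ u ∈ U, ∑ u' ∈ U, ∑ m ∈ Ms, A u m * (starRingEnd ℂ) (A u' m)‖ := by rw [e1]
      _ ≤ ∑ u ∈ U, ∑ u' ∈ U, ‖∑ m ∈ Ms, A u m * (starRingEnd ℂ) (A u' m)‖ :=
          (norm_sum_le _ _).trans (Finset.sum_le_sum fun u _ => norm_sum_le _ _)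
      _ ≤ _ := by
          refine Finset.sum_le_sum fun u hu => Finset.sum_le_sum fun u' hu' => ?_
          rw [e3 u hu u' hu', norm_mul, norm_mul, RCLike.norm_conj]
          exact mul_le_of_le_one_left (norm_nonneg _)
            (mul_le_one₀ (hc u) (norm_nonneg _) (hc u'))
  rw [h1]
  calc ‖∑ m ∈ Ms, f m * ∑ u ∈ U, A u m‖ ^ 2 ≤ (∑ m ∈ Ms, ‖∑ u ∈ U, A u m‖) ^ 2 :=
        pow_le_pow_left₀ (norm_nonneg _) h2 2
    _ ≤ Ms.card * ∑ m ∈ Ms, ‖∑ u ∈ U, A u m‖ ^ 2 := h3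
    _ ≤ _ := mul_le_mul_of_nonneg_left h4 (Nat.cast_nonneg _)

/-- sums over differences -/
theorem diff_sum {I : Finset ℕ} {P : ℕ} (hI : ∀ p ∈ I, P < p ∧ p ≤ 2 * P) {p : ℕ} (hp : p ∈ I)
    {M α : ℝ} (hM : 0 ≤ M) :
    ∑ p' ∈ I, mn M (α * p - α * p') ≤ 2 * ∑ l ∈ Finset.range P, mn M (α * l) := by
  classical
  have hp1 := hI p hp
  have h1 : ∑ p' ∈ I.filter (fun p' => p' ≤ p), mn M (α * p - α * p') ≤
      ∑ l ∈ Finset.range P, mn M (α * l) := by
    have e1 : ∀ p' ∈ I.filter (fun p' => p' ≤ p),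
        mn M (α * p - α * p') = mn M (α * ((p - p' : ℕ) : ℝ)) := by
      intro p' hp'
      rw [Finset.mem_filter] at hp'
      rw [Nat.cast_sub hp'.2]
      congr 1
      ring
    rw [Finset.sum_congr rfl e1]
    have e2 : ∑ p' ∈ I.filter (fun p' => p' ≤ p), mn M (α * ((p - p' : ℕ) : ℝ)) =
        ∑ l ∈ (I.filter (fun p' => p' ≤ p)).image (fun p' => p - p'), mn M (α * (l : ℝ)) := by
      rw [Finset.sum_image]
      intro x hx y hy hxy
      have hx' := (Finset.mem_filter.1 hx).2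
      have hy' := (Finset.mem_filter.1 hy).2
      simp only at hxy
      omega
    rw [e2]
    refine Finset.sum_le_sum_of_subset_of_nonneg ?_ fun _ _ _ => mn_nonneg hM _
    intro l hl
    obtain ⟨p', hp', rfl⟩ := Finset.mem_image.1 hl
    rw [Finset.mem_filter] at hp'
    have := hI p' hp'.1
    rw [Finset.mem_range]
    omega
  have h2 : ∑ p' ∈ I.filter (fun p' => ¬ p' ≤ p), mn M (α * p - α * p') ≤
      ∑ l ∈ Finset.range P, mn M (α * l) := by
    have e1 : ∀ p' ∈ I.filter (fun p' => ¬ p' ≤ p),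
        mn M (α * p - α * p') = mn M (α * ((p' - p : ℕ) : ℝ)) := by
      intro p' hp'
      rw [Finset.mem_filter] at hp'
      rw [Nat.cast_sub (by omega), ← mn_neg]
      congr 1
      ring
    rw [Finset.sum_congr rfl e1]
    have e2 : ∑ p' ∈ I.filter (fun p' => ¬ p' ≤ p), mn M (α * ((p' - p : ℕ) : ℝ)) =
        ∑ l ∈ (I.filter (fun p' => ¬ p' ≤ p)).image (fun p' => p' - p), mn M (α * (l : ℝ)) := by
      rw [Finset.sum_image]
      intro x hx y hy hxy
      have hx' := (Finset.mem_filter.1 hx).2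
      have hy' := (Finset.mem_filter.1 hy).2
      simp only at hxy
      omega
    rw [e2]
    refine Finset.sum_le_sum_of_subset_of_nonneg ?_ fun _ _ _ => mn_nonneg hM _
    intro l hl
    obtain ⟨p', hp', rfl⟩ := Finset.mem_image.1 hl
    rw [Finset.mem_filter] at hp'
    have := hI p' hp'.1
    rw [Finset.mem_range]
    omega
  rw [← Finset.sum_filter_add_sum_filter_not I (fun p' => p' ≤ p)]
  linarith

/-- one pair of intervals -/
theorem pair_le {P H x x' p p' : ℕ} (hP : 1 ≤ P) (hPH : P ≤ H) (hp : P < p) (hp2 : p' ≤ 2 * P)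
    (hp' : P < p') (θ : ℝ) :
    ‖∑ m ∈ Finset.Ioc (x / p) ((x + H) / p) ∩ Finset.Ioc (x' / p') ((x' + H) / p'),
      ee (θ * m)‖ ≤
      if x' ∈ Finset.Icc (p' * x / p + 1 - H) (p' * x / p + 2 * H) then mn (2 * H / P) θ
      else 0 := by
  have hp0 : 0 < p := by omega
  have hp0' : 0 < p' := by omega
  have hM : (0 : ℝ) ≤ 2 * H / P := by positivity
  by_cases hne : (Finset.Ioc (x / p) ((x + H) / p) ∩
      Finset.Ioc (x' / p') ((x' + H) / p')).Nonempty
  · obtain ⟨m, hm⟩ := hne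
    have hm' := hm
    rw [Finset.mem_inter, Finset.mem_Ioc, Finset.mem_Ioc] at hm'
    obtain ⟨⟨m1, m2⟩, ⟨m3, m4⟩⟩ := hm'
    rw [Nat.div_lt_iff_lt_mul hp0] at m1
    rw [Nat.le_div_iff_mul_le hp0] at m2
    rw [Nat.div_lt_iff_lt_mul hp0'] at m3
    rw [Nat.le_div_iff_mul_le hp0'] at m4
    -- `m1 : x < m p`, `m2 : m p ≤ x + H`, `m3 : x' < m p'`, `m4 : m p' ≤ x' + H`
    have h1 : p' * x < p * (x' + H) := by
      calc p' * x < p' * (m * p) := Nat.mul_lt_mul_of_pos_left m1 hp0'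
        _ = p * (m * p') := by ring
        _ ≤ p * (x' + H) := Nat.mul_le_mul_left _ m4
    have h2 : p * x' < p' * (x + H) := by
      calc p * x' < p * (m * p') := Nat.mul_lt_mul_of_pos_left m3 hp0
        _ = p' * (m * p) := by ring
        _ ≤ p' * (x + H) := Nat.mul_le_mul_left _ m2
    have h3 : p' * x / p < x' + H := by
      rw [Nat.div_lt_iff_lt_mul hp0]
      linarith [h1, mul_comm p (x' + H)]
    have h4 : x' < p' * x / p + 1 + 2 * H := by
      have e1 : p' * x < p * (p' * x / p + 1) := Nat.lt_mul_div_succ _ hp0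
      have e2 : p' * H ≤ p * (2 * H) := by nlinarith
      have e3 : p * x' < p * (p' * x / p + 1 + 2 * H) := by
        calc p * x' < p' * (x + H) := h2
          _ = p' * x + p' * H := by ring
          _ ≤ p * (p' * x / p + 1) + p * (2 * H) := add_le_add e1.le e2
          _ = p * (p' * x / p + 1 + 2 * H) := by ring
      exact Nat.lt_of_mul_lt_mul_left e3
    rw [if_pos (by rw [Finset.mem_Icc]; omega)]
    rw [Finset.Ioc_inter_Ioc]
    have h5 : max (x / p) (x' / p') ≤ min ((x + H) / p) ((x' + H) / p') := by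
      by_contra hcon
      push Not at hcon
      rw [Finset.Ioc_inter_Ioc, Finset.mem_Ioc] at hm
      have := hm.1.trans_le hm.2
      exact absurd this (not_lt.2 hcon.le)
    refine (geo_le _ _ θ h5).trans (mn_mono ?_ θ)
    have h6 : ((min ((x + H) / p) ((x' + H) / p') : ℕ) : ℝ) ≤ (((x + H) / p : ℕ) : ℝ) := by
      exact_mod_cast min_le_left _ _
    have h7 : ((x / p : ℕ) : ℝ) ≤ ((max (x / p) (x' / p') : ℕ) : ℝ) := by
      exact_mod_cast le_max_left _ _
    have h8 : (x + H) / p ≤ x / p + H / p + 1 := by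
      have e1 : x < p * (x / p + 1) := Nat.lt_mul_div_succ _ hp0
      have e2 : H < p * (H / p + 1) := Nat.lt_mul_div_succ _ hp0
      have e3 : x + H < (x / p + H / p + 2) * p := by nlinarith
      have e4 := (Nat.div_lt_iff_lt_mul hp0).2 e3
      omega
    have h9 : (((x + H) / p : ℕ) : ℝ) ≤ ((x / p : ℕ) : ℝ) + ((H / p : ℕ) : ℝ) + 1 := by
      exact_mod_cast h8
    have hP0 : (0 : ℝ) < P := by exact_mod_cast hP
    have h10 : ((H / p : ℕ) : ℝ) ≤ (H : ℝ) / P := by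
      refine (Nat.cast_div_le).trans ?_
      apply div_le_div_of_nonneg_left (Nat.cast_nonneg _) hP0
      exact_mod_cast hp.le
    have h11 : (1 : ℝ) ≤ (H : ℝ) / P := by
      rw [le_div_iff₀ hP0, one_mul]
      exact_mod_cast hPH
    have h12 : (2 : ℝ) * H / P = H / P + H / P := by ring
    linarith
  · rw [Finset.not_nonempty_iff_eq_empty] at hne
    rw [hne, Finset.sum_empty, norm_zero]
    split_ifs
    · exact mn_nonneg hM _
    · exact le_rfl

end BilinAux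

open BilinAux

theorem bilin : ∃ C : ℝ, 0 < C ∧ ∀ (f : ℕ → ℂ) (I : Finset ℕ) (P X H q : ℕ) (a : ℤ) (α : ℝ),
    (∀ n, ‖f n‖ ≤ 1) → (∀ p ∈ I, P < p ∧ p ≤ 2 * P) → 1 ≤ P → P ≤ H → H ≤ X → 1 ≤ q →
    IsCoprime a (q : ℤ) → |α - a / q| ≤ 1 / (q : ℝ) ^ 2 →
    (∑ x ∈ Finset.range X, ‖∑ p ∈ I, ∑ m ∈ (Finset.Icc 1 (2 * X)).filter
        (fun m => x < p * m ∧ p * m ≤ x + H), f p * f m * ee (α * (p * m : ℕ))‖) ^ 2 ≤
      C * (X : ℝ) ^ 2 * (H : ℝ) ^ 2 * (1 / q + 1 / P + P * Real.log (2 * P) / H +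
        q * Real.log (2 * P) / H) := by
  classical
  obtain ⟨C₀, hC₀, hmin⟩ := min_sum
  refine ⟨24 * C₀, by positivity, ?_⟩
  intro f I P X H q a α hf hI hP hPH hHX hq hcop hα
  have hP0 : (0 : ℝ) < P := by exact_mod_cast hP
  have hH0 : (0 : ℝ) < H := by exact_mod_cast (hP.trans hPH)
  have hX0 : (0 : ℝ) < X := by exact_mod_cast ((hP.trans hPH).trans hHX)
  have hq0 : (0 : ℝ) < q := by exact_mod_cast hq
  -- the sets of `m`
  have hJ : ∀ x ∈ Finset.range X, ∀ p ∈ I, (Finset.Icc 1 (2 * X)).filter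
      (fun m => x < p * m ∧ p * m ≤ x + H) = Finset.Ioc (x / p) ((x + H) / p) := by
    intro x hx p hp
    rw [Finset.mem_range] at hx
    have hp1 := hI p hp
    have hp0 : 0 < p := by omega
    ext m
    rw [Finset.mem_filter, Finset.mem_Icc, Finset.mem_Ioc, Nat.div_lt_iff_lt_mul hp0,
      Nat.le_div_iff_mul_le hp0, mul_comm m p]
    constructor
    · exact fun h => h.2
    · rintro ⟨h1, h2⟩
      refine ⟨⟨?_, ?_⟩, h1, h2⟩
      · rcases Nat.eq_zero_or_pos m with h0 | h0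
        · rw [h0] at h1
          omega
        · exact h0
      · have : m ≤ p * m := Nat.le_mul_of_pos_left m hp0
        omega
  set g : ℕ → ℂ := fun x => ∑ p ∈ I, ∑ m ∈ (Finset.Icc 1 (2 * X)).filter
        (fun m => x < p * m ∧ p * m ≤ x + H), f p * f m * ee (α * (p * m : ℕ)) with hg
  set θ : ℕ → ℂ := fun x => if g x = 0 then 0 else (starRingEnd ℂ) (g x) / (‖g x‖ : ℂ) with hθ
  have hθ1 : ∀ x, ‖θ x‖ ≤ 1 := by
    intro x
    simp only [hθ]
    split_ifs with h0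
    · simp
    · rw [norm_div, RCLike.norm_conj, Complex.norm_real, norm_norm, div_self]
      exact norm_ne_zero_iff.2 h0
  have hθ2 : ∀ x, θ x * g x = (‖g x‖ : ℂ) := by
    intro x
    simp only [hθ]
    split_ifs with h0
    · rw [h0]
      simp
    · have h1 : (‖g x‖ : ℂ) ≠ 0 := by
        rw [Ne, Complex.ofReal_eq_zero]
        exact norm_ne_zero_iff.2 h0
      rw [div_mul_eq_mul_div, div_eq_iff h1, mul_comm, Complex.mul_conj, Complex.normSq_eq_norm_sq]
      push_cast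
      ring
  -- the dual form
  set U := Finset.range X ×ˢ I with hU
  set J : ℕ × ℕ → Finset ℕ := fun u => Finset.Ioc (u.1 / u.2) ((u.1 + H) / u.2) with hJdef
  set c : ℕ × ℕ → ℂ := fun u => θ u.1 * f u.2 with hc
  set φ : ℕ × ℕ → ℝ := fun u => α * u.2 with hφ
  have hsum : ((∑ x ∈ Finset.range X, ‖g x‖ : ℝ) : ℂ) =
      ∑ u ∈ U, ∑ m ∈ J u, c u * (f m * ee (φ u * m)) := by
    rw [Complex.ofReal_sum, hU, Finset.sum_product]
    refine Finset.sum_congr rfl fun x hx => ?_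
    rw [← hθ2 x]
    simp only [hg]
    rw [Finset.mul_sum]
    refine Finset.sum_congr rfl fun p hp => ?_
    rw [hJ x hx p hp, Finset.mul_sum]
    refine Finset.sum_congr rfl fun m _ => ?_
    simp only [hc, hφ]
    have e1 : α * ((p * m : ℕ) : ℝ) = α * p * m := by
      push_cast
      ring
    rw [e1]
    ring
  set Ms := Finset.Icc 1 (2 * X / P) with hMs
  have hJM : ∀ u ∈ U, J u ⊆ Ms := by
    intro u hu m hm
    rw [hU, Finset.mem_product, Finset.mem_range] at hu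
    have hp1 := hI u.2 hu.2
    have hp0 : 0 < u.2 := by omega
    rw [hJdef] at hm
    simp only at hm
    rw [Finset.mem_Ioc, Nat.le_div_iff_mul_le hp0] at hm
    rw [hMs, Finset.mem_Icc]
    refine ⟨(Nat.zero_le _).trans_lt hm.1, ?_⟩
    rw [Nat.le_div_iff_mul_le (by omega)]
    have : m * P ≤ m * u.2 := Nat.mul_le_mul_left m hp1.1.le
    omega
  have hdual := dual f hf U J Ms hJM c (fun u => by
    simp only [hc, norm_mul]
    exact mul_le_one₀ (hθ1 _) (norm_nonneg _) (hf _)) φ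
  have hnonneg : 0 ≤ ∑ x ∈ Finset.range X, ‖g x‖ := Finset.sum_nonneg fun _ _ => norm_nonneg _
  have hS : (∑ x ∈ Finset.range X, ‖g x‖) ^ 2 ≤
      Ms.card * ∑ u ∈ U, ∑ u' ∈ U, ‖∑ m ∈ J u ∩ J u', ee ((φ u - φ u') * m)‖ := by
    have e1 : ∑ x ∈ Finset.range X, ‖g x‖ =
        ‖∑ u ∈ U, ∑ m ∈ J u, c u * (f m * ee (φ u * m))‖ := by
      rw [← hsum, Complex.norm_real, Real.norm_of_nonneg hnonneg]
    rw [e1]
    exact hdual
  -- the double sum
  set M : ℝ := 2 * H / P with hM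
  have hM0 : 0 ≤ M := by positivity
  have hdouble : ∑ u ∈ U, ∑ u' ∈ U, ‖∑ m ∈ J u ∩ J u', ee ((φ u - φ u') * m)‖ ≤
      X * (P * (3 * H * (2 * ∑ l ∈ Finset.range P, mn M (α * l)))) := by
    have e1 : ∀ u ∈ U, ∑ u' ∈ U, ‖∑ m ∈ J u ∩ J u', ee ((φ u - φ u') * m)‖ ≤
        3 * H * (2 * ∑ l ∈ Finset.range P, mn M (α * l)) := by
      intro u hu
      rw [hU, Finset.mem_product, Finset.mem_range] at hu
      have hp1 := hI u.2 hu.2
      rw [hU, Finset.sum_product_right]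
      calc ∑ p' ∈ I, ∑ x' ∈ Finset.range X,
            ‖∑ m ∈ J u ∩ J (x', p'), ee ((φ u - φ (x', p')) * m)‖
          ≤ ∑ p' ∈ I, 3 * H * mn M (α * u.2 - α * p') := by
            refine Finset.sum_le_sum fun p' hp' => ?_
            have hp1' := hI p' hp'
            calc ∑ x' ∈ Finset.range X, ‖∑ m ∈ J u ∩ J (x', p'), ee ((φ u - φ (x', p')) * m)‖
                ≤ ∑ x' ∈ Finset.range X,
                  (if x' ∈ Finset.Icc (p' * u.1 / u.2 + 1 - H) (p' * u.1 / u.2 + 2 * H) then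
                    mn M (α * u.2 - α * p') else 0) := by
                  refine Finset.sum_le_sum fun x' _ => ?_
                  exact pair_le hP hPH hp1.1 hp1'.2 hp1'.1 _
              _ = ((Finset.range X).filter (fun x' => x' ∈
                  Finset.Icc (p' * u.1 / u.2 + 1 - H) (p' * u.1 / u.2 + 2 * H))).card *
                  mn M (α * u.2 - α * p') := by
                  rw [← Finset.sum_filter, Finset.sum_const, nsmul_eq_mul]
              _ ≤ 3 * H * mn M (α * u.2 - α * p') := by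
                  apply mul_le_mul_of_nonneg_right _ (mn_nonneg hM0 _)
                  have e2 : ((Finset.range X).filter (fun x' => x' ∈
                      Finset.Icc (p' * u.1 / u.2 + 1 - H) (p' * u.1 / u.2 + 2 * H))).card ≤
                      3 * H := by
                    refine (Finset.card_le_card (t := Finset.Icc (p' * u.1 / u.2 + 1 - H)
                      (p' * u.1 / u.2 + 2 * H)) ?_).trans ?_
                    · intro x' hx'
                      exact (Finset.mem_filter.1 hx').2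
                    · rw [Nat.card_Icc]
                      omega
                  exact_mod_cast e2
        _ = 3 * H * ∑ p' ∈ I, mn M (α * u.2 - α * p') := by rw [Finset.mul_sum]
        _ ≤ 3 * H * (2 * ∑ l ∈ Finset.range P, mn M (α * l)) :=
            mul_le_mul_of_nonneg_left (diff_sum hI hu.2 hM0) (by positivity)
    have hB0 : 0 ≤ 3 * (H : ℝ) * (2 * ∑ l ∈ Finset.range P, mn M (α * l)) := by
      have : 0 ≤ ∑ l ∈ Finset.range P, mn M (α * l) :=
        Finset.sum_nonneg fun _ _ => mn_nonneg hM0 _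
      positivity
    refine (Finset.sum_le_card_nsmul _ _ _ e1).trans ?_
    rw [nsmul_eq_mul, hU, Finset.card_product, Finset.card_range]
    push_cast
    rw [mul_assoc]
    apply mul_le_mul_of_nonneg_left _ hX0.le
    apply mul_le_mul_of_nonneg_right _ hB0
    have e3 : I.card ≤ P := by
      have e4 : I ⊆ Finset.Ioc P (2 * P) := fun p hp => Finset.mem_Ioc.2 (hI p hp)
      have e5 := Finset.card_le_card e4
      rw [Nat.card_Ioc] at e5
      omega
    exact_mod_cast e3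
  have hms := hmin α M a q P hq hP hM0 hcop hα
  have hcard : (Ms.card : ℝ) ≤ 2 * X / P := by
    rw [hMs, Nat.card_Icc, Nat.add_sub_cancel]
    refine (Nat.cast_div_le).trans (le_of_eq ?_)
    push_cast
    ring
  have hlog : 0 ≤ Real.log (2 * P) := Real.log_nonneg (by
    have : (1 : ℝ) ≤ P := by exact_mod_cast hP
    linarith)
  calc (∑ x ∈ Finset.range X, ‖g x‖) ^ 2
      ≤ Ms.card * ∑ u ∈ U, ∑ u' ∈ U, ‖∑ m ∈ J u ∩ J u', ee ((φ u - φ u') * m)‖ := hS
    _ ≤ Ms.card * (X * (P * (3 * H * (2 * ∑ l ∈ Finset.range P, mn M (α * l))))) :=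
        mul_le_mul_of_nonneg_left hdouble (Nat.cast_nonneg _)
    _ ≤ Ms.card * (X * (P * (3 * H * (2 * (C₀ * ((P : ℝ) / q + 1) *
          (M + q * Real.log (2 * P))))))) := by
        apply mul_le_mul_of_nonneg_left _ (Nat.cast_nonneg _)
        apply mul_le_mul_of_nonneg_left _ hX0.le
        apply mul_le_mul_of_nonneg_left _ hP0.le
        apply mul_le_mul_of_nonneg_left _ (by positivity)
        linarith
    _ ≤ (2 * X / P) * (X * (P * (3 * H * (2 * (C₀ * ((P : ℝ) / q + 1) *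
          (M + q * Real.log (2 * P))))))) := by
        apply mul_le_mul_of_nonneg_right hcard
        positivity
    _ = 12 * C₀ * (X : ℝ) ^ 2 * H ^ 2 * (2 * (1 / q) + 2 * (1 / P) + P * Real.log (2 * P) / H +
          q * Real.log (2 * P) / H) := by
        rw [hM]
        field_simp
        ring
    _ ≤ 24 * C₀ * (X : ℝ) ^ 2 * (H : ℝ) ^ 2 * (1 / q + 1 / P + P * Real.log (2 * P) / H +
        q * Real.log (2 * P) / H) := by
        have e1 : 0 ≤ (P : ℝ) * Real.log (2 * P) / H := by positivity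
        have e2 : 0 ≤ (q : ℝ) * Real.log (2 * P) / H := by positivity
        have e3 : 0 ≤ 12 * C₀ * (X : ℝ) ^ 2 * (H : ℝ) ^ 2 := by positivity
        have e4 : 2 * (1 / (q : ℝ)) + 2 * (1 / (P : ℝ)) + P * Real.log (2 * P) / H +
            q * Real.log (2 * P) / H ≤ 2 * (1 / q + 1 / P + P * Real.log (2 * P) / H +
            q * Real.log (2 * P) / H) := by linarith
        have e5 := mul_le_mul_of_nonneg_left e4 e3
        linarith

end Pool.MRZ
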