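import Mathlib
import Pool.Agent.MRZ.Bilin
import Pool.Agent.MRZ.TK
import Pool.Agent.MRZ.PVb

/-!
# MRZ/Minor: minor arcs

For `η > 0` there are `W ≥ 1`, `H₀`: for `H₀ ≤ H ≤ X`, `f` completely multiplicative bounded by one,
`|α - a/q| ≤ 1/q²`, `gcd(a,q)=1`, `W < q`, `q W² ≤ H`:
`∑_{x<X} |∑_{x<n≤x+H} f(n) e(αn)| ≤ η H X`.

Proof. Let `c, C'` be from `mertens_ge`, `C` from `bilin`. Choose `k` with `L := ∑_{W<p≤W^k} 1/p ≥ c log k - C' ≥ L₀`,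
`L₀ = 64/η²` (any `W ≥ 2`), then `W` large in terms of `k, η`, then `H₀ ≥ W^{10k}·…`. Let `𝒫` be the primes in
`(W, W^k]`, `ω(n) = #{p∈𝒫 : p∣n}`, `Q0 = W^k`. For every `x`, by Cauchy–Schwarz and `tk_var` (`A = x`, `D = H`):
`∑_{x<n≤x+H} |1 - ω(n)/L| ≤ L^{-1} (H (HL + 2Q0²))^{1/2} ≤ (η/4) H·…` if `2Q0² ≤ HL` (`≤ √2 H/√L ≤ (η/4) H`). So
`∑_x |∑ f(n)e(αn)| ≤ (η/4) HX + (1/L) ∑_x |∑_{p∈𝒫} ∑_{x<pm≤x+H} f(p)f(m) e(αpm)|`
(`f(n) ω(n) = ∑_{p∣n, p∈𝒫} f(p) f(n/p)`; `L ≥ 1`). Split `𝒫` into the dyadic parts `I_i = 𝒫 ∩ (W2^i, W2^{i+1}]`,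
`0 ≤ i ≤ I₀`, `2^{I₀} ≤ W^k`, so at most `2k log W + 1` of them; `P = W2^i ∈ [W, W^k]`: by `bilin`
`≤ C^{1/2} X H (1/q + 1/P + P log(2P)/H + q log(2P)/H)^{1/2}`, and `1/q, 1/P ≤ 1/W`,
`P log(2P)/H ≤ W^{2k}·…/H₀ ≤ 1/W`, `q log(2P)/H ≤ (2k log W)/W² ≤ 1/W` (`W` large). Sum `≤ (2k log W + 1) C^{1/2} XH (4/W)^{1/2}
≤ (η/2) XH` for `W` large. (For `p ∈ 𝒫`, `m ≤ 2X` automatically.)

(In the Lean proof `W = 2^w`, and the dyadic parts are `(2^i, 2^{i+1}]`, `w ≤ i < wk`.)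
-/

namespace Pool.MRZ

open Finset

namespace Minor

lemma omega_sum (f : ℕ → ℂ) (hf : ∀ m n, f (m * n) = f m * f n) (PP : Finset ℕ)
    (hPP : ∀ p ∈ PP, 1 ≤ p) (α : ℝ) (x X H : ℕ) (hx : x < X) (hH : H ≤ X) :
    ∑ n ∈ Finset.Ioc x (x + H), ((PP.filter (· ∣ n)).card : ℂ) * (f n * ee (α * n)) =
    ∑ p ∈ PP, ∑ m ∈ (Finset.Icc 1 (2 * X)).filter (fun m => x < p * m ∧ p * m ≤ x + H),
      f p * f m * ee (α * (p * m : ℕ)) := by
  calc ∑ n ∈ Finset.Ioc x (x + H), ((PP.filter (· ∣ n)).card : ℂ) * (f n * ee (α * n))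
      = ∑ n ∈ Finset.Ioc x (x + H), ∑ p ∈ PP, (if p ∣ n then f n * ee (α * n) else 0) := by
        refine Finset.sum_congr rfl fun n _ => ?_
        rw [← Finset.sum_filter, Finset.sum_const, nsmul_eq_mul]
    _ = ∑ p ∈ PP, ∑ n ∈ Finset.Ioc x (x + H), (if p ∣ n then f n * ee (α * n) else 0) :=
        Finset.sum_comm
    _ = _ := by
        refine Finset.sum_congr rfl fun p hp => ?_
        have hp1 := hPP p hp
        rw [← Finset.sum_filter]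
        symm
        refine Finset.sum_nbij' (fun m => p * m) (fun n => n / p) ?_ ?_ ?_ ?_ ?_
        · intro m hm
          simp only [Finset.mem_filter, Finset.mem_Icc, Finset.mem_Ioc] at hm ⊢
          exact ⟨⟨hm.2.1, hm.2.2⟩, dvd_mul_right _ _⟩
        · intro n hn
          simp only [Finset.mem_filter, Finset.mem_Icc, Finset.mem_Ioc] at hn ⊢
          obtain ⟨⟨h1, h2⟩, m, rfl⟩ := hn
          rw [Nat.mul_div_cancel_left _ hp1]
          refine ⟨⟨?_, ?_⟩, h1, h2⟩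
          · rcases Nat.eq_zero_or_pos m with h | h
            · subst h; simp at h1
            · exact h
          · have : m ≤ p * m := Nat.le_mul_of_pos_left m hp1
            omega
        · intro m hm
          exact Nat.mul_div_cancel_left _ hp1
        · intro n hn
          simp only [Finset.mem_filter] at hn
          exact Nat.mul_div_cancel' hn.2
        · intro m hm
          rw [hf]

lemma tk_abs (P : Finset ℕ) (Q0 A D : ℕ) (hP : ∀ p ∈ P, p.Prime) (hQ : ∀ p ∈ P, p ≤ Q0)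
    (hD : 2 * (Q0 : ℝ) ^ 2 ≤ D * (∑ p ∈ P, (1 : ℝ) / p)) :
    ∑ n ∈ Finset.Ioc A (A + D), |((P.filter (· ∣ n)).card : ℝ) - ∑ p ∈ P, (1 : ℝ) / p| ≤
      D * Real.sqrt (2 * ∑ p ∈ P, (1 : ℝ) / p) := by
  have h1 := tk_var P Q0 A D hP hQ
  have h2 := sq_sum_le_card_mul_sum_sq (s := Finset.Ioc A (A + D))
    (f := fun n => |((P.filter (· ∣ n)).card : ℝ) - ∑ p ∈ P, (1 : ℝ) / p|)
  simp only [sq_abs, Nat.card_Ioc, Nat.add_sub_cancel_left] at h2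
  set L := ∑ p ∈ P, (1 : ℝ) / p with hL
  have hL0 : 0 ≤ L := Finset.sum_nonneg fun _ _ => by positivity
  have h3 : (∑ n ∈ Finset.Ioc A (A + D), |((P.filter (· ∣ n)).card : ℝ) - L|) ^ 2
      ≤ (D * Real.sqrt (2 * L)) ^ 2 := by
    rw [mul_pow, Real.sq_sqrt (by positivity)]
    calc _ ≤ (D : ℝ) * ∑ n ∈ Finset.Ioc A (A + D), (((P.filter (· ∣ n)).card : ℝ) - L) ^ 2 := h2
      _ ≤ (D : ℝ) * (D * L + 2 * (Q0 : ℝ) ^ 2) := by gcongr
      _ ≤ (D : ℝ) * (D * L + D * L) := by gcongr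
      _ = _ := by ring
  exact (sq_le_sq₀ (Finset.sum_nonneg fun _ _ => abs_nonneg _) (by positivity)).1 h3

lemma dyad (g : ℕ → ℂ) (a b : ℕ) (hab : a ≤ b) :
    ∑ n ∈ Finset.Ioc (2 ^ a) (2 ^ b), g n =
      ∑ i ∈ Finset.Ico a b, ∑ n ∈ Finset.Ioc (2 ^ i) (2 ^ (i + 1)), g n := by
  induction b, hab using Nat.le_induction with
  | base => simp
  | succ b h ih =>
    rw [Finset.sum_Ico_succ_top h, ← ih]
    rw [Finset.sum_Ioc_consecutive]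
    · exact Nat.pow_le_pow_right (by norm_num) h
    · exact Nat.pow_le_pow_right (by norm_num) (by omega)

lemma dyad_primes (g : ℕ → ℂ) (a b : ℕ) (hab : a ≤ b) :
    ∑ n ∈ (Finset.Ioc (2 ^ a) (2 ^ b)).filter Nat.Prime, g n =
      ∑ i ∈ Finset.Ico a b, ∑ n ∈ (Finset.Ioc (2 ^ i) (2 ^ (i + 1))).filter Nat.Prime, g n := by
  simp only [Finset.sum_filter]
  exact dyad _ a b hab

/-- `F` for one block of primes -/
noncomputable def F (f : ℕ → ℂ) (α : ℝ) (I : Finset ℕ) (X H x : ℕ) : ℂ :=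
  ∑ p ∈ I, ∑ m ∈ (Finset.Icc 1 (2 * X)).filter (fun m => x < p * m ∧ p * m ≤ x + H),
    f p * f m * ee (α * (p * m : ℕ))

/-- the pointwise inequality -/
lemma pointwise (f : ℕ → ℂ) (hf : CM f) (PP : Finset ℕ) (Q0 : ℕ) (hP : ∀ p ∈ PP, p.Prime)
    (hQ : ∀ p ∈ PP, p ≤ Q0) (α : ℝ) (x X H : ℕ) (hx : x < X) (hH : H ≤ X)
    (hD : 2 * (Q0 : ℝ) ^ 2 ≤ H * (∑ p ∈ PP, (1 : ℝ) / p)) :
    (∑ p ∈ PP, (1 : ℝ) / p) * ‖∑ n ∈ Finset.Ioc x (x + H), f n * ee (α * n)‖ ≤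
      ‖F f α PP X H x‖ + H * Real.sqrt (2 * ∑ p ∈ PP, (1 : ℝ) / p) := by
  have h1 := omega_sum f hf.mul PP (fun p hp => (hP p hp).one_le) α x X H hx hH
  have h2 := tk_abs PP Q0 x H hP hQ hD
  set L := ∑ p ∈ PP, (1 : ℝ) / p with hL
  have hL0 : 0 ≤ L := Finset.sum_nonneg fun _ _ => by positivity
  have h3 : ((L : ℝ) : ℂ) * ∑ n ∈ Finset.Ioc x (x + H), f n * ee (α * n)
      = F f α PP X H x - ∑ n ∈ Finset.Ioc x (x + H),
        (((((PP.filter (· ∣ n)).card : ℝ) - L : ℝ)) : ℂ) * (f n * ee (α * n)) := by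
    unfold F
    rw [← h1, ← Finset.sum_sub_distrib, Finset.mul_sum]
    refine Finset.sum_congr rfl fun n _ => ?_
    push_cast
    ring
  have h4 : L * ‖∑ n ∈ Finset.Ioc x (x + H), f n * ee (α * n)‖
      = ‖((L : ℝ) : ℂ) * ∑ n ∈ Finset.Ioc x (x + H), f n * ee (α * n)‖ := by
    rw [norm_mul, Complex.norm_real, Real.norm_of_nonneg hL0]
  rw [h4, h3]
  refine (norm_sub_le _ _).trans ?_
  refine add_le_add le_rfl (le_trans ?_ h2)
  refine (norm_sum_le _ _).trans (Finset.sum_le_sum fun n _ => ?_)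
  rw [norm_mul, norm_mul, norm_ee, mul_one, Complex.norm_real, Real.norm_eq_abs]
  exact mul_le_of_le_one_right (abs_nonneg _) (hf.bdd n)

/-- one block -/
lemma block (C : ℝ) (hC0 : 0 < C) (hC : ∀ (f : ℕ → ℂ) (I : Finset ℕ) (P X H q : ℕ) (a : ℤ) (α : ℝ),
    (∀ n, ‖f n‖ ≤ 1) → (∀ p ∈ I, P < p ∧ p ≤ 2 * P) → 1 ≤ P → P ≤ H → H ≤ X → 1 ≤ q →
    IsCoprime a (q : ℤ) → |α - a / q| ≤ 1 / (q : ℝ) ^ 2 →
    (∑ x ∈ Finset.range X, ‖∑ p ∈ I, ∑ m ∈ (Finset.Icc 1 (2 * X)).filter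
        (fun m => x < p * m ∧ p * m ≤ x + H), f p * f m * ee (α * (p * m : ℕ))‖) ^ 2 ≤
      C * (X : ℝ) ^ 2 * (H : ℝ) ^ 2 * (1 / q + 1 / P + P * Real.log (2 * P) / H +
        q * Real.log (2 * P) / H))
    (f : ℕ → ℂ) (hf : CM f) (w K i X H q : ℕ) (a : ℤ) (α : ℝ) (hi : w ≤ i) (hiK : i < K)
    (hK : K ≤ 2 ^ w) (hH : 2 ^ K * K * 2 ^ w ≤ H) (hHX : H ≤ X) (hq : 2 ^ w < q)
    (hqH : q * (2 ^ w) ^ 2 ≤ H)
    (hc : IsCoprime a (q : ℤ)) (hα : |α - a / q| ≤ 1 / (q : ℝ) ^ 2) :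
    ∑ x ∈ Finset.range X, ‖F f α ((Finset.Ioc (2 ^ i) (2 ^ (i + 1))).filter Nat.Prime) X H x‖ ≤
      (X : ℝ) * H * Real.sqrt (C * (4 / 2 ^ w)) := by
  have hK1 : 1 ≤ K := by omega
  have h2w : 1 ≤ 2 ^ w := Nat.one_le_two_pow
  have hPK : 2 ^ i ≤ 2 ^ K := Nat.pow_le_pow_right (by norm_num) (by omega)
  have hKH : 2 ^ K ≤ H := by
    calc 2 ^ K = 2 ^ K * 1 * 1 := by ring
      _ ≤ 2 ^ K * K * 2 ^ w := by gcongr
      _ ≤ H := hH
  have h := hC f ((Finset.Ioc (2 ^ i) (2 ^ (i + 1))).filter Nat.Prime) (2 ^ i) X H q a α hf.bdd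
    (by
      intro p hp
      simp only [Finset.mem_filter, Finset.mem_Ioc] at hp
      refine ⟨hp.1.1, ?_⟩
      have := hp.1.2
      rw [pow_succ] at this
      omega) Nat.one_le_two_pow (hPK.trans hKH) hHX (by omega) hc hα
  have hW0 : (0 : ℝ) < 2 ^ w := by positivity
  have hH0 : (0 : ℝ) < H := by
    have : 0 < H := lt_of_lt_of_le (by positivity) hKH
    exact_mod_cast this
  have hlog : Real.log (2 * ((2 ^ i : ℕ) : ℝ)) ≤ K := by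
    have e : (2 : ℝ) * ((2 ^ i : ℕ) : ℝ) = 2 ^ (i + 1) := by push_cast; ring
    rw [e, Real.log_pow]
    have h7 : Real.log 2 < 0.6931471808 := Real.log_two_lt_d9
    have h8 : 0 < Real.log 2 := Real.log_pos (by norm_num)
    have h9 : ((i + 1 : ℕ) : ℝ) ≤ K := by exact_mod_cast hiK
    have h10 : (0 : ℝ) ≤ ((i + 1 : ℕ) : ℝ) := Nat.cast_nonneg _
    nlinarith
  have hlog0 : 0 ≤ Real.log (2 * ((2 ^ i : ℕ) : ℝ)) := by
    have e : (2 : ℝ) * ((2 ^ i : ℕ) : ℝ) = 2 ^ (i + 1) := by push_cast; ring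
    rw [e]
    exact Real.log_nonneg (one_le_pow₀ (by norm_num))
  have hqr : (2 : ℝ) ^ w < q := by exact_mod_cast hq
  have b1 : 1 / (q : ℝ) ≤ 1 / 2 ^ w := one_div_le_one_div_of_le hW0 hqr.le
  have b2 : 1 / ((2 ^ i : ℕ) : ℝ) ≤ 1 / 2 ^ w := by
    refine one_div_le_one_div_of_le hW0 ?_
    push_cast
    exact pow_le_pow_right₀ (by norm_num) hi
  have b3 : ((2 ^ i : ℕ) : ℝ) * Real.log (2 * ((2 ^ i : ℕ) : ℝ)) / H ≤ 1 / 2 ^ w := by
    rw [div_le_div_iff₀ hH0 hW0, one_mul]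
    have hH' : (2 : ℝ) ^ K * K * 2 ^ w ≤ H := by exact_mod_cast hH
    have hPK' : ((2 ^ i : ℕ) : ℝ) ≤ 2 ^ K := by exact_mod_cast hPK
    calc ((2 ^ i : ℕ) : ℝ) * Real.log (2 * ((2 ^ i : ℕ) : ℝ)) * 2 ^ w
        ≤ 2 ^ K * K * 2 ^ w := by gcongr
      _ ≤ H := hH'
  have b4 : (q : ℝ) * Real.log (2 * ((2 ^ i : ℕ) : ℝ)) / H ≤ 1 / 2 ^ w := by
    rw [div_le_div_iff₀ hH0 hW0, one_mul]
    have hq' : (q : ℝ) * (2 ^ w) ^ 2 ≤ H := by exact_mod_cast hqH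
    have hK' : (K : ℝ) ≤ 2 ^ w := by exact_mod_cast hK
    calc (q : ℝ) * Real.log (2 * ((2 ^ i : ℕ) : ℝ)) * 2 ^ w ≤ q * 2 ^ w * 2 ^ w := by
          gcongr
          exact hlog.trans hK'
      _ = (q : ℝ) * (2 ^ w) ^ 2 := by ring
      _ ≤ H := hq'
  have h5 : (∑ x ∈ Finset.range X,
      ‖F f α ((Finset.Ioc (2 ^ i) (2 ^ (i + 1))).filter Nat.Prime) X H x‖) ^ 2 ≤
      ((X : ℝ) * H * Real.sqrt (C * (4 / 2 ^ w))) ^ 2 := by
    rw [mul_pow, mul_pow, Real.sq_sqrt (by positivity)]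
    refine h.trans ?_
    calc _ ≤ C * (X : ℝ) ^ 2 * (H : ℝ) ^ 2 *
          (1 / 2 ^ w + 1 / 2 ^ w + 1 / 2 ^ w + 1 / 2 ^ w) := by gcongr
      _ = _ := by ring
  exact (sq_le_sq₀ (Finset.sum_nonneg fun _ _ => norm_nonneg _) (by positivity)).1 h5

end Minor

theorem minor (η : ℝ) (hη : 0 < η) : ∃ W H₀ : ℕ, 1 ≤ W ∧ ∀ (f : ℕ → ℂ) (X H q : ℕ) (a : ℤ) (α : ℝ),
    CM f → H₀ ≤ H → H ≤ X → W < q → q * W ^ 2 ≤ H →
    IsCoprime a (q : ℤ) → |α - a / q| ≤ 1 / (q : ℝ) ^ 2 →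
    ∑ x ∈ Finset.range X, ‖∑ n ∈ Finset.Ioc x (x + H), f n * ee (α * n)‖ ≤ η * H * X := by
  obtain ⟨c, C', hc, hC', hM⟩ := mertens_ge
  obtain ⟨C, hC0, hC⟩ := bilin
  -- the choice of `k`
  obtain ⟨k, hk1, hk⟩ : ∃ k : ℕ, 1 ≤ k ∧ 8 / η ^ 2 + 1 ≤ c * Real.log k - C' := by
    have h : Filter.Tendsto (fun k : ℕ => c * Real.log k - C') Filter.atTop Filter.atTop := by
      refine Filter.tendsto_atTop_add_const_right _ _ ?_
      exact Filter.Tendsto.const_mul_atTop hc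
        (Real.tendsto_log_atTop.comp tendsto_natCast_atTop_atTop)
    obtain ⟨k, h1, h2⟩ := ((Filter.eventually_ge_atTop 1).and (h.eventually_ge_atTop (8 / η ^ 2 + 1))).exists
    exact ⟨k, h1, h2⟩
  -- the choice of `w`
  obtain ⟨w, hw1, hw2, hw3⟩ : ∃ w : ℕ, 1 ≤ w ∧ w * k ≤ 2 ^ w ∧
      ((w * k : ℕ) : ℝ) * Real.sqrt (C * (4 / 2 ^ w)) ≤ η / 2 := by
    have hk0 : (0 : ℝ) < k := by exact_mod_cast hk1
    have ht := tendsto_pow_const_div_const_pow_of_one_lt 2 (by norm_num : (1 : ℝ) < 2)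
    have hε : 0 < min (1 / (k : ℝ)) (η ^ 2 / (16 * C * k ^ 2)) := by positivity
    obtain ⟨w, h1, h2⟩ := ((Filter.eventually_ge_atTop 1).and (ht.eventually_le_const hε)).exists
    have h3 := h2.trans (min_le_left _ _)
    have h4 := h2.trans (min_le_right _ _)
    have hw0 : (1 : ℝ) ≤ w := by exact_mod_cast h1
    have h2w : (0 : ℝ) < 2 ^ w := by positivity
    refine ⟨w, h1, ?_, ?_⟩
    · rw [div_le_div_iff₀ h2w hk0, one_mul] at h3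
      have h5 : (w : ℝ) * k ≤ 2 ^ w := by
        refine le_trans ?_ h3
        have : (w : ℝ) ≤ w ^ 2 := by nlinarith
        gcongr
      exact_mod_cast h5
    · rw [div_le_div_iff₀ h2w (by positivity)] at h4
      refine (sq_le_sq₀ (by positivity) (by positivity)).1 ?_
      rw [mul_pow, Real.sq_sqrt (by positivity)]
      have e : (((w * k : ℕ) : ℝ)) ^ 2 * (C * (4 / 2 ^ w)) = (w ^ 2 * (16 * C * k ^ 2)) / 2 ^ w / 4 := by
        push_cast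
        ring
      rw [e, div_pow]
      have h5 : (w : ℝ) ^ 2 * (16 * C * k ^ 2) / 2 ^ w ≤ η ^ 2 := by
        rw [div_le_iff₀ h2w]
        exact h4
      linarith
  refine ⟨2 ^ w, 2 ^ (w * k) * (w * k) * 2 ^ w + 2 * (2 ^ (w * k)) ^ 2, Nat.one_le_two_pow, ?_⟩
  intro f X H q a α hf hH hHX hq hqH hcop hα
  set PP := (Finset.Ioc (2 ^ w) ((2 ^ w) ^ k)).filter Nat.Prime with hPP
  have hL := hM (2 ^ w) k (by
    calc 2 = 2 ^ 1 := rfl
      _ ≤ 2 ^ w := Nat.pow_le_pow_right (by norm_num) hw1) hk1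
  rw [← hPP] at hL
  set L := ∑ p ∈ PP, (1 : ℝ) / p with hLdef
  have hη2 : 0 < 8 / η ^ 2 := by positivity
  have hL1 : 1 ≤ L := by linarith
  have hL8 : 8 / η ^ 2 ≤ L := by linarith
  have hH2 : 2 * (((2 ^ w) ^ k : ℕ) : ℝ) ^ 2 ≤ H * L := by
    have h1 : 2 * ((2 ^ w) ^ k) ^ 2 ≤ H := by
      rw [← pow_mul 2 w k]
      exact le_trans (Nat.le_add_left _ _) hH
    have h2 : 2 * (((2 ^ w) ^ k : ℕ) : ℝ) ^ 2 ≤ H := by exact_mod_cast h1
    have h3 : (0 : ℝ) ≤ H := Nat.cast_nonneg _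
    nlinarith
  have hkw : w ≤ w * k := Nat.le_mul_of_pos_right _ hk1
  have hpt : ∀ x ∈ Finset.range X, L * ‖∑ n ∈ Finset.Ioc x (x + H), f n * ee (α * n)‖ ≤
      (∑ i ∈ Finset.Ico w (w * k),
        ‖Minor.F f α ((Finset.Ioc (2 ^ i) (2 ^ (i + 1))).filter Nat.Prime) X H x‖) +
        H * Real.sqrt (2 * L) := by
    intro x hx
    have h1 := Minor.pointwise f hf PP ((2 ^ w) ^ k) (by
      intro p hp
      rw [hPP, Finset.mem_filter] at hp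
      exact hp.2) (by
      intro p hp
      rw [hPP, Finset.mem_filter, Finset.mem_Ioc] at hp
      exact hp.1.2) α x X H (Finset.mem_range.1 hx) hHX hH2
    refine h1.trans (add_le_add ?_ le_rfl)
    have h2 : Minor.F f α PP X H x = ∑ i ∈ Finset.Ico w (w * k),
        Minor.F f α ((Finset.Ioc (2 ^ i) (2 ^ (i + 1))).filter Nat.Prime) X H x := by
      unfold Minor.F
      rw [hPP, ← pow_mul]
      exact Minor.dyad_primes _ w (w * k) hkw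
    rw [h2]
    exact norm_sum_le _ _
  have hsum : L * ∑ x ∈ Finset.range X, ‖∑ n ∈ Finset.Ioc x (x + H), f n * ee (α * n)‖ ≤
      L * (η * H * X) := by
    have hb : ∀ i ∈ Finset.Ico w (w * k), ∑ x ∈ Finset.range X,
        ‖Minor.F f α ((Finset.Ioc (2 ^ i) (2 ^ (i + 1))).filter Nat.Prime) X H x‖ ≤
        (X : ℝ) * H * Real.sqrt (C * (4 / 2 ^ w)) := by
      intro i hi
      rw [Finset.mem_Ico] at hi
      exact Minor.block C hC0 hC f hf w (w * k) i X H q a α hi.1 hi.2 hw2 (by omega) hHX hq hqH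
        hcop hα
    have hs : Real.sqrt (2 * L) ≤ L * (η / 2) := by
      rw [Real.sqrt_le_left (by positivity)]
      rw [div_le_iff₀ (by positivity)] at hL8
      nlinarith
    calc L * ∑ x ∈ Finset.range X, ‖∑ n ∈ Finset.Ioc x (x + H), f n * ee (α * n)‖
        = ∑ x ∈ Finset.range X, L * ‖∑ n ∈ Finset.Ioc x (x + H), f n * ee (α * n)‖ :=
          Finset.mul_sum _ _ _
      _ ≤ ∑ x ∈ Finset.range X, ((∑ i ∈ Finset.Ico w (w * k),
          ‖Minor.F f α ((Finset.Ioc (2 ^ i) (2 ^ (i + 1))).filter Nat.Prime) X H x‖) +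
            H * Real.sqrt (2 * L)) := Finset.sum_le_sum hpt
      _ = (∑ i ∈ Finset.Ico w (w * k), ∑ x ∈ Finset.range X,
          ‖Minor.F f α ((Finset.Ioc (2 ^ i) (2 ^ (i + 1))).filter Nat.Prime) X H x‖) +
            X * (H * Real.sqrt (2 * L)) := by
          rw [Finset.sum_add_distrib, Finset.sum_comm, Finset.sum_const, Finset.card_range,
            nsmul_eq_mul]
      _ ≤ (∑ i ∈ Finset.Ico w (w * k), (X : ℝ) * H * Real.sqrt (C * (4 / 2 ^ w))) +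
            X * (H * (L * (η / 2))) := by
          gcongr with i hi
          exact hb i hi
      _ = ((w * k - w : ℕ) : ℝ) * ((X : ℝ) * H * Real.sqrt (C * (4 / 2 ^ w))) +
            X * (H * (L * (η / 2))) := by
          rw [Finset.sum_const, Nat.card_Ico, nsmul_eq_mul]
      _ ≤ ((w * k : ℕ) : ℝ) * ((X : ℝ) * H * Real.sqrt (C * (4 / 2 ^ w))) +
            X * (H * (L * (η / 2))) := by
          gcongr
          exact Nat.sub_le _ _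
      _ = (X : ℝ) * H * (((w * k : ℕ) : ℝ) * Real.sqrt (C * (4 / 2 ^ w))) +
            X * (H * (L * (η / 2))) := by ring
      _ ≤ (X : ℝ) * H * (η / 2) + X * (H * (L * (η / 2))) := by gcongr
      _ ≤ (X : ℝ) * H * (L * (η / 2)) + X * (H * (L * (η / 2))) := by
          gcongr
          nlinarith
      _ = L * (η * H * X) := by ring
  exact le_of_mul_le_mul_left hsum (by linarith)

end Pool.MRZ
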