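import Mathlib
import Pool.Agent.MRZ.Sup
import Pool.Agent.MRZ.Major
import Pool.Agent.MRZ.Minor

/-!
# MRZ/SupLam: `SupA λ` and `SupA μ`

* `sup_lam`: given `η`, `minor η` gives `W, H₀`; `major W η` gives `H₀', X₀`. For `α` and `H ≥ max(H₀,H₀',W²)` apply
  Dirichlet's theorem (`Real.exists_int_int_abs_mul_sub_le`, then divide out the common factor) with
  `N = ⌊H/W²⌋ ≥ 1`: coprime `a, q`, `1 ≤ q ≤ N`, `|α - a/q| ≤ 1/(q(N+1)) ≤ W²/(qH)`. If `q ≤ W`: `major`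
  (`|α - a/q| ≤ W²/H`). If `q > W`: `q W² ≤ H`, `|α - a/q| ≤ 1/(q(N+1)) ≤ 1/q²`: `minor` for `f = λ`
  (`cm` of `lam`: `lam_one, lam_mul, norm_lam_le`).
* `sup_mu`: `μ(n) = ∑_{d²∣n} μ(d) λ(n/d²)` (`n ≥ 1`; both sides multiplicative, or: `n = d₀² m` with `m`
  squarefree, `∑_{d∣d₀} μ(d) λ(n) = λ(n)1_{d₀=1}`, since `d²∣n ⟺ d∣d₀` and `λ(n/d²) = λ(n)`;
  Mathlib: `ArithmeticFunction.…`). Given `η` fix `D` with `4/D ≤ η/4`. For `d ≤ D`:
  `∑_{x<n≤x+H, d²∣n} λ(n/d²) e(αn) = ∑_{m ∈ (y, y+H'] or (y,y+H'+1]} λ(m) e(αd²m)`, `y = ⌊x/d²⌋`, `H' = ⌊H/d²⌋`, at most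
  `|∑_{y<m≤y+H'}| + 1`; every `y ≤ X/d²` comes from at most `d²` values of `x`. So `sup_lam` (frequency `αd²`,
  `X' = ⌊X/d²⌋+1 ≥ H'`) gives `∑_x ≤ d²(η'H'X' + X')`, sum over `d ≤ D` at most `(η/2) HX` for `η' = η/(8D)` and `H, X`
  large. `d > D`: `∑_{x<X} ∑_{x<n≤x+H} ∑_{d>D, d²∣n} 1 ≤ H ∑_{d>D} 2X/d² ≤ 4HX/D·…` (`∑_{d>D} 1/d² ≤ 1/D`).
-/

namespace Pool.MRZ

open Finset

theorem cm_lam : CM lam where
  one := lam_one
  mul := lam_mul
  bdd := norm_lam_le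

theorem sup_lam : SupA lam := by
  intro η hη
  obtain ⟨W, Hm, hW, hmin⟩ := minor η hη
  obtain ⟨HM, XM, hmaj⟩ := major W η hW hη
  refine ⟨max (max Hm HM) (W ^ 2), XM, ?_⟩
  intro X H hX hH hHX α
  have hH1 : Hm ≤ H := (le_max_left _ _).trans ((le_max_left _ _).trans hH)
  have hH2 : HM ≤ H := (le_max_right _ _).trans ((le_max_left _ _).trans hH)
  have hH3 : W ^ 2 ≤ H := (le_max_right _ _).trans hH
  have hW2 : 0 < W ^ 2 := by positivity
  have hN : 0 < H / W ^ 2 := Nat.div_pos hH3 hW2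
  obtain ⟨q, hq1, hq2⟩ := Real.exists_rat_abs_sub_le_and_den_le α hN
  have hq0 : 1 ≤ q.den := q.pos
  have hqr : ((q : ℚ) : ℝ) = (q.num : ℝ) / (q.den : ℝ) := Rat.cast_def q
  rw [hqr] at hq1
  have hq0r : (1 : ℝ) ≤ (q.den : ℝ) := by exact_mod_cast hq0
  have hHpos : 0 < H := lt_of_lt_of_le hW2 hH3
  have hHr : (0 : ℝ) < H := by exact_mod_cast hHpos
  by_cases hqW : q.den ≤ W
  · refine hmaj X H hX hH2 hHX α q.num q.den hq0 hqW (hq1.trans ?_)
    have h1 : H < (H / W ^ 2 + 1) * W ^ 2 := by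
      have := Nat.lt_mul_div_succ H hW2
      rwa [mul_comm] at this
    have h1r : (H : ℝ) ≤ (((H / W ^ 2 : ℕ) : ℝ) + 1) * (W : ℝ) ^ 2 := by
      exact_mod_cast h1.le
    rw [div_le_div_iff₀ (by positivity) hHr, one_mul]
    refine h1r.trans ?_
    have h2 : 0 ≤ (((H / W ^ 2 : ℕ) : ℝ) + 1) * (W : ℝ) ^ 2 := by positivity
    have h3 := mul_le_mul_of_nonneg_left hq0r h2
    linarith
  · push Not at hqW
    refine hmin lam X H q.den q.num α cm_lam hH1 hHX hqW ?_ ?_ (hq1.trans ?_)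
    · exact (Nat.mul_le_mul_right _ hq2).trans (Nat.div_mul_le_self _ _)
    · have h := q.reduced
      rw [Int.isCoprime_iff_gcd_eq_one]
      exact h
    · have h1 : (q.den : ℝ) ≤ ((H / W ^ 2 : ℕ) : ℝ) + 1 := by
        have : (q.den : ℝ) ≤ ((H / W ^ 2 : ℕ) : ℝ) := by exact_mod_cast hq2
        linarith
      apply one_div_le_one_div_of_le (by positivity)
      rw [pow_two]
      exact mul_le_mul_of_nonneg_right h1 (by linarith)

namespace SupLamAux

theorem lam_mul_self {d : ℕ} (hd : d ≠ 0) : lam d * lam d = 1 := by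
  unfold lam
  rw [ArithmeticFunction.liouville_apply hd]
  push_cast
  rw [← mul_pow]
  simp

theorem sq_dvd_iff {b a d : ℕ} (ha : Squarefree a) (hb : b ≠ 0) :
    d ^ 2 ∣ b ^ 2 * a ↔ d ∣ b := by
  constructor
  · intro h
    obtain ⟨d', b', hcop, hd, hb'⟩ := Nat.exists_coprime d b
    have hg : 0 < Nat.gcd d b := Nat.gcd_pos_of_pos_right d (Nat.pos_of_ne_zero hb)
    have h2 : d' ^ 2 * (Nat.gcd d b) ^ 2 ∣ b' ^ 2 * a * (Nat.gcd d b) ^ 2 := by
      have e1 : d' ^ 2 * (Nat.gcd d b) ^ 2 = d ^ 2 := by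
        conv_rhs => rw [hd]
        ring
      have e2 : b' ^ 2 * a * (Nat.gcd d b) ^ 2 = b ^ 2 * a := by
        conv_rhs => rw [hb']
        ring
      rw [e1, e2]
      exact h
    have h3 : d' ^ 2 ∣ b' ^ 2 * a := Nat.dvd_of_mul_dvd_mul_right (by positivity) h2
    have h4 : Nat.Coprime (d' ^ 2) (b' ^ 2) := Nat.Coprime.pow 2 2 hcop
    have h5 : d' ^ 2 ∣ a := Nat.Coprime.dvd_of_dvd_mul_left h4 h3
    have h6 : IsUnit d' := ha d' (by rw [← pow_two]; exact h5)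
    have h7 : d' = 1 := Nat.isUnit_iff.1 h6
    rw [h7, one_mul] at hd
    rw [hd]
    exact Nat.gcd_dvd_right d b
  · intro h
    exact (pow_dvd_pow_of_dvd h 2).mul_right a

theorem sum_mu (b : ℕ) : ∑ d ∈ b.divisors, mu d = if b = 1 then 1 else 0 := by
  have h := congrArg (fun f : ArithmeticFunction ℤ => f b) ArithmeticFunction.moebius_mul_coe_zeta
  simp only [ArithmeticFunction.coe_mul_zeta_apply, ArithmeticFunction.one_apply] at h
  unfold mu
  rw [← Int.cast_sum, h]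
  split_ifs <;> simp

end SupLamAux

theorem mu_eq (n : ℕ) (hn : 1 ≤ n) :
    mu n = ∑ d ∈ (Finset.Icc 1 n).filter (fun d => d ^ 2 ∣ n), mu d * lam (n / d ^ 2) := by
  obtain ⟨a, b, hab, ha⟩ := Nat.sq_mul_squarefree n
  have hb : b ≠ 0 := by
    rintro rfl
    simp at hab
    omega
  have ha0 : a ≠ 0 := ha.ne_zero
  have hset : (Finset.Icc 1 n).filter (fun d => d ^ 2 ∣ n) = b.divisors := by
    ext d
    rw [Finset.mem_filter, Finset.mem_Icc, Nat.mem_divisors, ← hab,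
      SupLamAux.sq_dvd_iff ha hb]
    constructor
    · rintro ⟨_, h⟩
      exact ⟨h, hb⟩
    · rintro ⟨h, _⟩
      refine ⟨⟨Nat.pos_of_dvd_of_pos h (Nat.pos_of_ne_zero hb), ?_⟩, h⟩
      have h1 : d ≤ b := Nat.le_of_dvd (Nat.pos_of_ne_zero hb) h
      have h2 : b ≤ b ^ 2 := Nat.le_self_pow (by norm_num) b
      have h3 : b ^ 2 ≤ b ^ 2 * a := Nat.le_mul_of_pos_right _ (Nat.pos_of_ne_zero ha0)
      omega
  rw [hset]
  have hterm : ∀ d ∈ b.divisors, mu d * lam (n / d ^ 2) = mu d * lam n := by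
    intro d hd
    have hdb := (Nat.mem_divisors.1 hd).1
    have hd0 : d ≠ 0 := by
      rintro rfl
      exact hb (Nat.eq_zero_of_zero_dvd hdb)
    have hdvd : d ^ 2 ∣ n := by
      rw [← hab]
      exact (SupLamAux.sq_dvd_iff ha hb).2 hdb
    have e : lam n = lam (n / d ^ 2) := by
      conv_lhs => rw [← Nat.mul_div_cancel' hdvd]
      rw [lam_mul, pow_two, lam_mul, SupLamAux.lam_mul_self hd0, one_mul]
    rw [e]
  rw [Finset.sum_congr rfl hterm, ← Finset.sum_mul, SupLamAux.sum_mu]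
  by_cases h1 : b = 1
  · rw [if_pos h1, one_mul]
    have hna : n = a := by
      rw [← hab, h1]
      ring
    have hsq : Squarefree n := by rw [hna]; exact ha
    unfold mu lam
    rw [ArithmeticFunction.moebius_apply_of_squarefree hsq,
      ArithmeticFunction.liouville_apply (by omega)]
  · rw [if_neg h1, zero_mul]
    have hns : ¬ Squarefree n := by
      intro h
      have h2 := h b (by rw [← hab, ← pow_two]; exact Dvd.intro _ rfl)
      exact h1 (Nat.isUnit_iff.1 h2)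
    unfold mu
    rw [ArithmeticFunction.moebius_eq_zero_of_not_squarefree hns]
    simp

namespace SupLamAux

theorem mu_eq' {n M : ℕ} (hn : 1 ≤ n) (hM : n ≤ M) :
    mu n = ∑ d ∈ (Finset.Ioc 0 M).filter (fun d => d ^ 2 ∣ n), mu d * lam (n / d ^ 2) := by
  rw [mu_eq n hn]
  congr 1
  ext d
  rw [Finset.mem_filter, Finset.mem_filter, Finset.mem_Icc, Finset.mem_Ioc]
  constructor
  · rintro ⟨⟨h1, h2⟩, h3⟩
    exact ⟨⟨h1, h2.trans hM⟩, h3⟩
  · rintro ⟨⟨h1, _⟩, h3⟩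
    have h4 : d ^ 2 ≤ n := Nat.le_of_dvd hn h3
    have h5 : d ≤ d ^ 2 := Nat.le_self_pow (by norm_num) d
    exact ⟨⟨h1, h5.trans h4⟩, h3⟩

/-- reindexing multiples of `k` -/
theorem reindex {k x H : ℕ} (hk : 0 < k) (Φ : ℕ → ℂ) :
    ∑ n ∈ (Finset.Ioc x (x + H)).filter (fun n => k ∣ n), Φ n =
      ∑ m ∈ Finset.Ioc (x / k) ((x + H) / k), Φ (k * m) := by
  refine Finset.sum_nbij' (fun n => n / k) (fun m => k * m) ?_ ?_ ?_ ?_ ?_
  · intro n hn
    rw [Finset.mem_filter, Finset.mem_Ioc] at hn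
    obtain ⟨⟨h1, h2⟩, m, rfl⟩ := hn
    simp only [Nat.mul_div_cancel_left m hk]
    rw [Finset.mem_Ioc, Nat.div_lt_iff_lt_mul hk, Nat.le_div_iff_mul_le hk]
    rw [mul_comm m k]
    exact ⟨h1, h2⟩
  · intro m hm
    rw [Finset.mem_Ioc, Nat.div_lt_iff_lt_mul hk, Nat.le_div_iff_mul_le hk, mul_comm m k] at hm
    rw [Finset.mem_filter, Finset.mem_Ioc]
    exact ⟨hm, Dvd.intro _ rfl⟩
  · intro n hn
    exact Nat.mul_div_cancel' (Finset.mem_filter.1 hn).2
  · intro m _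
    exact Nat.mul_div_cancel_left m hk
  · intro n hn
    simp only [Nat.mul_div_cancel' (Finset.mem_filter.1 hn).2]

/-- the part of the sum belonging to `d` -/
noncomputable def T (α : ℝ) (H d x : ℕ) : ℂ :=
  ∑ m ∈ Finset.Ioc (x / d ^ 2) ((x + H) / d ^ 2), lam m * ee (α * (d : ℝ) ^ 2 * m)

theorem norm_S {α : ℝ} {H x M : ℕ} (hM : x + H ≤ M) :
    ‖∑ n ∈ Finset.Ioc x (x + H), mu n * ee (α * n)‖ ≤ ∑ d ∈ Finset.Ioc 0 M, ‖T α H d x‖ := by
  have h1 : ∑ n ∈ Finset.Ioc x (x + H), mu n * ee (α * n) =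
      ∑ d ∈ Finset.Ioc 0 M, mu d * T α H d x := by
    have e1 : ∀ n ∈ Finset.Ioc x (x + H), mu n * ee (α * n) =
        ∑ d ∈ Finset.Ioc 0 M, (if d ^ 2 ∣ n then mu d * (lam (n / d ^ 2) * ee (α * n)) else 0) := by
      intro n hn
      rw [Finset.mem_Ioc] at hn
      rw [mu_eq' (n := n) (M := M) (by omega) (by omega), Finset.sum_mul, Finset.sum_filter]
      apply Finset.sum_congr rfl
      intro d _
      split_ifs
      · ring
      · rfl
    rw [Finset.sum_congr rfl e1, Finset.sum_comm]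
    apply Finset.sum_congr rfl
    intro d hd
    have hd0 : 0 < d := (Finset.mem_Ioc.1 hd).1
    have hk : 0 < d ^ 2 := by positivity
    rw [← Finset.sum_filter, ← Finset.mul_sum]
    congr 1
    rw [reindex hk (fun n => lam (n / d ^ 2) * ee (α * n))]
    unfold T
    apply Finset.sum_congr rfl
    intro m _
    rw [Nat.mul_div_cancel_left m hk]
    congr 2
    push_cast
    ring
  rw [h1]
  refine (norm_sum_le _ _).trans ?_
  apply Finset.sum_le_sum
  intro d _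
  rw [norm_mul]
  exact mul_le_of_le_one_left (norm_nonneg _) (norm_mu_le d)

theorem norm_term_le (α : ℝ) (m : ℕ) : ‖lam m * ee α‖ ≤ 1 := by
  rw [norm_mul, norm_ee, mul_one]
  exact norm_lam_le m

/-- sum of `⌊(x+H)/k⌋` -/
theorem sum_div (X k : ℕ) (H : ℕ) :
    (∑ x ∈ Finset.range X, (((x + H) / k : ℕ) : ℝ)) ≤
      (∑ x ∈ Finset.range X, ((x / k : ℕ) : ℝ)) + H * (((X + H : ℕ) : ℝ) / k) := by
  induction H with
  | zero => simp
  | succ H ih =>
    have h1 : (∑ x ∈ Finset.range X, (((x + (H + 1)) / k : ℕ) : ℝ)) + ((H / k : ℕ) : ℝ) =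
        (∑ x ∈ Finset.range X, (((x + H) / k : ℕ) : ℝ)) + (((X + H) / k : ℕ) : ℝ) := by
      have e1 := Finset.sum_range_succ (fun x => (((x + H) / k : ℕ) : ℝ)) X
      have e2 := Finset.sum_range_succ' (fun x => (((x + H) / k : ℕ) : ℝ)) X
      rw [← e1, e2]
      congr 1
      · apply Finset.sum_congr rfl
        intro x _
        congr 2
        omega
      · simp
    have h2 : (((X + H) / k : ℕ) : ℝ) ≤ ((X + H : ℕ) : ℝ) / k := Nat.cast_div_le
    have h3 : (0 : ℝ) ≤ ((H / k : ℕ) : ℝ) := Nat.cast_nonneg _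
    have h4 : ((X + H : ℕ) : ℝ) / k ≤ ((X + (H + 1) : ℕ) : ℝ) / k := by
      apply div_le_div_of_nonneg_right _ (Nat.cast_nonneg k)
      exact_mod_cast Nat.le_succ (X + H)
    have h5 : (H : ℝ) * (((X + H : ℕ) : ℝ) / k) ≤ H * (((X + (H + 1) : ℕ) : ℝ) / k) :=
      mul_le_mul_of_nonneg_left h4 (Nat.cast_nonneg H)
    have h6 : ((H + 1 : ℕ) : ℝ) * (((X + (H + 1) : ℕ) : ℝ) / k) =
        H * (((X + (H + 1) : ℕ) : ℝ) / k) + ((X + (H + 1) : ℕ) : ℝ) / k := by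
      push_cast
      ring
    rw [h6]
    linarith

/-- large `d` -/
theorem big_d {α : ℝ} {H X d : ℕ} (hHX : H ≤ X) :
    ∑ x ∈ Finset.range X, ‖T α H d x‖ ≤ 2 * H * X * ((d : ℝ) ^ 2)⁻¹ := by
  have h1 : ∀ x ∈ Finset.range X, ‖T α H d x‖ ≤
      (((x + H) / d ^ 2 : ℕ) : ℝ) - ((x / d ^ 2 : ℕ) : ℝ) := by
    intro x _
    unfold T
    refine (norm_sum_le _ _).trans ?_
    refine (Finset.sum_le_card_nsmul _ _ 1 (fun m _ => norm_term_le _ m)).trans ?_
    rw [Nat.card_Ioc, nsmul_eq_mul, mul_one, Nat.cast_sub]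
    exact Nat.div_le_div_right (Nat.le_add_right x H)
  refine (Finset.sum_le_sum h1).trans ?_
  rw [Finset.sum_sub_distrib]
  have h2 := sum_div X (d ^ 2) H
  have h3 : ((X + H : ℕ) : ℝ) / ((d ^ 2 : ℕ) : ℝ) ≤ 2 * X * ((d : ℝ) ^ 2)⁻¹ := by
    rw [div_eq_mul_inv]
    push_cast
    apply mul_le_mul_of_nonneg_right _ (by positivity)
    have : (H : ℝ) ≤ X := by exact_mod_cast hHX
    linarith
  have h4 := mul_le_mul_of_nonneg_left h3 (Nat.cast_nonneg (α := ℝ) H)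
  linarith

/-- sums over blocks -/
theorem sum_block (G : ℕ → ℝ) (k n : ℕ) (hk : 0 < k) :
    ∑ x ∈ Finset.range (k * n), G (x / k) = k * ∑ y ∈ Finset.range n, G y := by
  induction n with
  | zero => simp
  | succ n ih =>
    rw [Nat.mul_succ, Finset.sum_range_add, ih, Finset.sum_range_succ, mul_add]
    congr 1
    have h : ∀ r ∈ Finset.range k, G ((k * n + r) / k) = G n := by
      intro r hr
      rw [Finset.mem_range] at hr
      rw [Nat.mul_add_div hk, Nat.div_eq_of_lt hr, add_zero]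
    rw [Finset.sum_congr rfl h, Finset.sum_const, Finset.card_range, nsmul_eq_mul]

theorem Ioc_ins (a b : ℕ) :
    Finset.Ioc a (a + b + 1) = insert (a + b + 1) (Finset.Ioc a (a + b)) := by
  ext m
  simp only [Finset.mem_Ioc, Finset.mem_insert]
  omega

/-- small `d` -/
theorem small_d {α η' : ℝ} {H X d H1 X1 : ℕ} (hη' : 0 ≤ η') (hd : 0 < d) (hHX : H ≤ X)
    (hX1 : X1 * d ^ 2 ≤ X) (hH1 : H1 * d ^ 2 ≤ H) (hdX : d ^ 2 ≤ X)
    (hsup : ∀ X H : ℕ, X1 ≤ X → H1 ≤ H → H ≤ X → ∀ α : ℝ,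
      ∑ x ∈ Finset.range X, ‖∑ n ∈ Finset.Ioc x (x + H), lam n * ee (α * n)‖ ≤ η' * H * X) :
    ∑ x ∈ Finset.range X, ‖T α H d x‖ ≤ 2 * η' * H * X + X := by
  have hk : 0 < d ^ 2 := by positivity
  set k : ℕ := d ^ 2 with hkdef
  have hkr : (1 : ℝ) ≤ (k : ℝ) := by exact_mod_cast hk
  set G : ℕ → ℝ := fun y => ‖∑ m ∈ Finset.Ioc y (y + H / k),
    lam m * ee (α * (d : ℝ) ^ 2 * m)‖ with hG
  have hGn : ∀ y, 0 ≤ G y := fun y => norm_nonneg _
  have h1 : ∀ x ∈ Finset.range X, ‖T α H d x‖ ≤ G (x / k) + 1 := by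
    intro x _
    have e0 := Nat.add_div (a := x) (b := H) hk
    unfold T
    rw [← hkdef, e0]
    split_ifs with hc
    · have e1 := Ioc_ins (x / k) (H / k)
      have hnm : x / k + H / k + 1 ∉ Finset.Ioc (x / k) (x / k + H / k) := by
        rw [Finset.mem_Ioc]
        omega
      rw [e1, Finset.sum_insert hnm]
      refine (norm_add_le _ _).trans ?_
      rw [add_comm]
      exact add_le_add (le_refl _) (norm_term_le _ _)
    · rw [add_zero]
      have : ‖∑ m ∈ Finset.Ioc (x / k) (x / k + H / k),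
          lam m * ee (α * (d : ℝ) ^ 2 * m)‖ = G (x / k) := rfl
      rw [this]
      linarith
  refine (Finset.sum_le_sum h1).trans ?_
  rw [Finset.sum_add_distrib, Finset.sum_const, Finset.card_range, nsmul_eq_mul, mul_one]
  have h2 : ∑ x ∈ Finset.range X, G (x / k) ≤
      ∑ x ∈ Finset.range (k * (X / k + 1)), G (x / k) := by
    apply Finset.sum_le_sum_of_subset_of_nonneg
    · apply Finset.range_subset_range.2
      exact (Nat.lt_mul_div_succ X hk).le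
    · intro x _ _
      exact hGn _
  rw [sum_block G k _ hk] at h2
  have hH1' : H1 ≤ H / k := (Nat.le_div_iff_mul_le hk).2 hH1
  have hX1' : X1 ≤ X / k + 1 := ((Nat.le_div_iff_mul_le hk).2 hX1).trans (Nat.le_succ _)
  have hHX' : H / k ≤ X / k + 1 := (Nat.div_le_div_right hHX).trans (Nat.le_succ _)
  have h3 := hsup (X / k + 1) (H / k) hX1' hH1' hHX' (α * (d : ℝ) ^ 2)
  have h4 : (k : ℝ) * ∑ y ∈ Finset.range (X / k + 1), G y ≤
      k * (η' * ((H / k : ℕ) : ℝ) * ((X / k + 1 : ℕ) : ℝ)) :=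
    mul_le_mul_of_nonneg_left h3 (by linarith)
  have h5 : ((H / k : ℕ) : ℝ) ≤ (H : ℝ) / k := Nat.cast_div_le
  have h6 : ((X / k + 1 : ℕ) : ℝ) ≤ 2 * X / k := by
    have h7 : ((X / k : ℕ) : ℝ) ≤ (X : ℝ) / k := Nat.cast_div_le
    have h8 : (1 : ℝ) ≤ (X : ℝ) / k := by
      rw [le_div_iff₀ (by linarith), one_mul]
      exact_mod_cast hdX
    push_cast
    have : 2 * (X : ℝ) / k = X / k + X / k := by ring
    linarith
  have h9 : (k : ℝ) * (η' * ((H / k : ℕ) : ℝ) * ((X / k + 1 : ℕ) : ℝ)) ≤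
      k * (η' * ((H : ℝ) / k) * (2 * X / k)) := by
    apply mul_le_mul_of_nonneg_left _ (by linarith)
    apply mul_le_mul (mul_le_mul_of_nonneg_left h5 hη') h6 (Nat.cast_nonneg _)
    positivity
  have h10 : (k : ℝ) * (η' * ((H : ℝ) / k) * (2 * X / k)) = 2 * η' * H * X / k := by
    field_simp
  have h11 : 2 * η' * H * X / k ≤ 2 * η' * H * X := div_le_self (by positivity) hkr
  linarith

end SupLamAux

theorem sup_mu : SupA mu := by
  intro η hη
  obtain ⟨D, hD⟩ := exists_nat_ge (4 / η)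
  have hDpos : (0 : ℝ) < D := lt_of_lt_of_le (by positivity) hD
  have hD0 : 0 < D := by exact_mod_cast hDpos
  have hη' : 0 < η / (8 * D) := by positivity
  obtain ⟨H1, X1, hsup⟩ := sup_lam (η / (8 * D)) hη'
  obtain ⟨H2, hH2⟩ := exists_nat_ge (4 * D / η)
  refine ⟨max (H1 * D ^ 2) (max H2 (D ^ 2)), X1 * D ^ 2, ?_⟩
  intro X H hX hH hHX α
  have hHa : H1 * D ^ 2 ≤ H := (le_max_left _ _).trans hH
  have hHb : H2 ≤ H := (le_max_left _ _).trans ((le_max_right _ _).trans hH)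
  have hHc : D ^ 2 ≤ H := (le_max_right _ _).trans ((le_max_right _ _).trans hH)
  have hXc : D ^ 2 ≤ X := hHc.trans hHX
  have h1 : ∑ x ∈ Finset.range X, ‖∑ n ∈ Finset.Ioc x (x + H), mu n * ee (α * n)‖ ≤
      ∑ x ∈ Finset.range X, ∑ d ∈ Finset.Ioc 0 (2 * X + D), ‖SupLamAux.T α H d x‖ := by
    apply Finset.sum_le_sum
    intro x hx
    rw [Finset.mem_range] at hx
    exact SupLamAux.norm_S (by omega)
  refine h1.trans ?_
  rw [Finset.sum_comm, ← Finset.sum_Ioc_consecutive _ (Nat.zero_le D)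
    (by omega : D ≤ 2 * X + D)]
  have hsmall : ∑ d ∈ Finset.Ioc 0 D, ∑ x ∈ Finset.range X, ‖SupLamAux.T α H d x‖ ≤
      η / 4 * H * X + D * X := by
    have h2 : ∀ d ∈ Finset.Ioc 0 D, ∑ x ∈ Finset.range X, ‖SupLamAux.T α H d x‖ ≤
        2 * (η / (8 * D)) * H * X + X := by
      intro d hd
      rw [Finset.mem_Ioc] at hd
      have hdD : d ^ 2 ≤ D ^ 2 := Nat.pow_le_pow_left hd.2 2
      exact SupLamAux.small_d hη'.le hd.1 hHX ((Nat.mul_le_mul_left _ hdD).trans hX)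
        ((Nat.mul_le_mul_left _ hdD).trans hHa) (hdD.trans hXc) hsup
    refine (Finset.sum_le_card_nsmul _ _ _ h2).trans (le_of_eq ?_)
    rw [Nat.card_Ioc, nsmul_eq_mul, Nat.sub_zero]
    field_simp
    ring
  have hbig : ∑ d ∈ Finset.Ioc D (2 * X + D), ∑ x ∈ Finset.range X, ‖SupLamAux.T α H d x‖ ≤
      η / 2 * H * X := by
    refine (Finset.sum_le_sum (fun d _ => SupLamAux.big_d hHX)).trans ?_
    rw [← Finset.mul_sum]
    have h3 := sum_Ioc_inv_sq_le_sub (α := ℝ) hD0.ne' (by omega : D ≤ 2 * X + D)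
    have h4 : (0 : ℝ) ≤ (((2 * X + D : ℕ) : ℝ))⁻¹ := by positivity
    have h5 : (D : ℝ)⁻¹ ≤ η / 4 := by
      rw [inv_le_comm₀ hDpos (by positivity)]
      have : (η / 4)⁻¹ = 4 / η := by rw [inv_div]
      rw [this]
      exact hD
    have h6 : ∑ i ∈ Finset.Ioc D (2 * X + D), ((i : ℝ) ^ 2)⁻¹ ≤ η / 4 := by linarith
    have h7 := mul_le_mul_of_nonneg_left h6 (by positivity : (0 : ℝ) ≤ 2 * H * X)
    linarith
  have hDX : (D : ℝ) * X ≤ η / 4 * H * X := by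
    apply mul_le_mul_of_nonneg_right _ (Nat.cast_nonneg X)
    have h8 : 4 * D / η ≤ H := hH2.trans (by exact_mod_cast hHb)
    rw [div_le_iff₀ hη] at h8
    linarith
  linarith

end Pool.MRZ
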