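import Mathlib
import Pool.Agent.Lib.PrimePairs

/-!
# MRZ/TupCount: counting `n` with `e ∣ ∏_{b∈B} (n+b)`

`tupD B = (#B)! ∏_{(b,b') ∈ B.offDiag} |b-b'|` (non-zero). For `e` squarefree coprime to `tupD B`, `κ = #B`:
`|#{n ∈ (M,M+N] : e ∣ ∏_{b∈B} (n+b)} - κ^{ω(e)} N/e| ≤ κ^{ω(e)}`.

Proof. For a prime `p ∣ e` the residues `-b mod p`, `b ∈ B`, are distinct (`p ∤ b-b'`), so for every `n` with
`p ∣ ∏ (n+b)` there is exactly one `b ∈ B` with `p ∣ n+b`. Hence `{n : e ∣ ∏(n+b)}` is the disjoint union over the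
functions `φ : primeFactors e → B` (`κ^{ω(e)}` of them) of `{n : ∀ p ∣ e, p ∣ n + φ(p)}`, and each of these is one residue
class mod `e = ∏ p` (Chinese remainder theorem, e.g. `Nat.chineseRemainderOfFinset`), which has `N/e + O(1)`
elements with error at most `1` (`PrimePairs.abs_count_modEq_sub_le`).
(Alternative: induction on the prime factors of `e`, with the statement for all residue classes.)
-/

namespace Pool.MRZ

open Finset

/-- the modulus containing all bad primes of a tuple of shifts -/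
def tupD (B : Finset ℕ) : ℕ := B.card.factorial * ∏ q ∈ B.offDiag, Nat.dist q.1 q.2

theorem tupD_pos (B : Finset ℕ) : 0 < tupD B := by
  unfold tupD
  refine Nat.mul_pos (Nat.factorial_pos _) (Finset.prod_pos fun q hq => ?_)
  rw [Finset.mem_offDiag] at hq
  exact Nat.dist_pos_of_ne hq.2.2

namespace TupCount

theorem sq_dvd_iff {e : ℕ} (he : Squarefree e) (m : ℕ) :
    e ∣ m ↔ ∀ p ∈ e.primeFactors, p ∣ m := by
  constructor
  · intro h p hp
    exact dvd_trans (Nat.dvd_of_mem_primeFactors hp) h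
  · intro h
    rw [← Nat.prod_primeFactors_of_squarefree he]
    exact Finset.prod_primes_dvd m (fun p hp => (Nat.prime_of_mem_primeFactors hp).prime) h

theorem modEq_iff_forall {e : ℕ} (he : Squarefree e) (n k : ℕ) :
    n ≡ k [MOD e] ↔ ∀ p ∈ e.primeFactors, n ≡ k [MOD p] := by
  rw [Nat.modEq_iff_dvd, Int.natCast_dvd, sq_dvd_iff he]
  refine forall₂_congr fun p _ => ?_
  rw [Nat.modEq_iff_dvd, Int.natCast_dvd]

theorem unique_b {B : Finset ℕ} {e : ℕ} (hD : e.Coprime (tupD B)) {p n b b' : ℕ}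
    (hp : p ∈ e.primeFactors) (hb : b ∈ B) (hb' : b' ∈ B) (h : p ∣ n + b) (h' : p ∣ n + b') :
    b = b' := by
  by_contra hne
  have h1 : p ∣ Nat.dist b b' := by
    unfold Nat.dist
    apply dvd_add
    · have := Nat.dvd_sub h h'
      rwa [Nat.add_sub_add_left] at this
    · have := Nat.dvd_sub h' h
      rwa [Nat.add_sub_add_left] at this
  have h2 : Nat.dist b b' ∣ tupD B := by
    unfold tupD
    apply dvd_mul_of_dvd_right
    have hm : (b, b') ∈ B.offDiag := by
      rw [Finset.mem_offDiag]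
      exact ⟨hb, hb', hne⟩
    exact Finset.dvd_prod_of_mem (fun q : ℕ × ℕ => Nat.dist q.1 q.2) hm
  have h3 : p ∣ Nat.gcd e (tupD B) :=
    Nat.dvd_gcd (Nat.dvd_of_mem_primeFactors hp) (dvd_trans h1 h2)
  rw [hD] at h3
  exact (Nat.prime_of_mem_primeFactors hp).one_lt.ne' (Nat.dvd_one.mp h3)

theorem exists_residue {e : ℕ} (he : Squarefree e)
    (φ : (p : ℕ) → p ∈ e.primeFactors → ℕ) :
    ∃ k : ℕ, ∀ n, (∀ p (hp : p ∈ e.primeFactors), p ∣ n + φ p hp) ↔ n ≡ k [MOD e] := by
  classical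
  have hs : ∀ i ∈ e.primeFactors, (id : ℕ → ℕ) i ≠ 0 := fun i hi =>
    (Nat.prime_of_mem_primeFactors hi).ne_zero
  have pp : Set.Pairwise (e.primeFactors : Set ℕ) (Function.onFun Nat.Coprime (id : ℕ → ℕ)) := by
    intro p hp q hq hpq
    exact (Nat.coprime_primes (Nat.prime_of_mem_primeFactors hp)
      (Nat.prime_of_mem_primeFactors hq)).mpr hpq
  obtain ⟨k, hk⟩ := Nat.chineseRemainderOfFinset
    (fun p => if hp : p ∈ e.primeFactors then p - φ p hp % p else 0) id e.primeFactors hs pp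
  refine ⟨k, fun n => ?_⟩
  rw [modEq_iff_forall he]
  refine forall₂_congr fun p hp => ?_
  have h1 := hk p hp
  simp only [dif_pos hp, id] at h1
  have hpos : 0 < p := (Nat.prime_of_mem_primeFactors hp).pos
  have h2 : p ∣ (p - φ p hp % p) + φ p hp := by
    have h3 := Nat.div_add_mod (φ p hp) p
    have h4 := Nat.mod_lt (φ p hp) hpos
    have h5 : (p - φ p hp % p) + φ p hp = p + p * (φ p hp / p) := by omega
    rw [h5]
    exact dvd_add dvd_rfl (dvd_mul_right _ _)
  have h6 : k + φ p hp ≡ 0 [MOD p] :=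
    (Nat.ModEq.add_right _ h1).trans ((Nat.modEq_zero_iff_dvd).mpr h2)
  constructor
  · intro h
    have h7 : n + φ p hp ≡ k + φ p hp [MOD p] :=
      ((Nat.modEq_zero_iff_dvd).mpr h).trans h6.symm
    exact Nat.ModEq.add_right_cancel' _ h7
  · intro h
    exact (Nat.modEq_zero_iff_dvd).mp ((Nat.ModEq.add_right _ h).trans h6)

end TupCount

open TupCount

theorem count_tup (B : Finset ℕ) (M N e : ℕ) (he : Squarefree e) (hD : e.Coprime (tupD B)) :
    |(((Finset.Ioc M (M + N)).filter (fun n => e ∣ ∏ b ∈ B, (n + b))).card : ℝ) -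
      (B.card : ℝ) ^ e.primeFactors.card / e * N| ≤ (B.card : ℝ) ^ e.primeFactors.card := by
  classical
  have he0 : 0 < e := Nat.pos_of_ne_zero he.ne_zero
  choose k hk using fun φ : (p : ℕ) → p ∈ e.primeFactors → ℕ => exists_residue he φ
  have hS : (Finset.Ioc M (M + N)).filter (fun n => e ∣ ∏ b ∈ B, (n + b)) =
      (Finset.pi e.primeFactors (fun _ => B)).biUnion
        (fun φ => (Finset.Ioc M (M + N)).filter (fun n => n ≡ k φ [MOD e])) := by
    ext n
    rw [Finset.mem_biUnion, Finset.mem_filter]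
    constructor
    · rintro ⟨hn, hd⟩
      have h1 : ∀ p ∈ e.primeFactors, ∃ b ∈ B, p ∣ n + b := by
        intro p hp
        have hpr := (Nat.prime_of_mem_primeFactors hp).prime
        exact hpr.exists_mem_finset_dvd (dvd_trans (Nat.dvd_of_mem_primeFactors hp) hd)
      choose φ hφ using h1
      refine ⟨φ, ?_, ?_⟩
      · rw [Finset.mem_pi]
        exact fun p hp => (hφ p hp).1
      · rw [Finset.mem_filter]
        exact ⟨hn, (hk φ n).mp fun p hp => (hφ p hp).2⟩
    · rintro ⟨φ, hφ, hn⟩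
      rw [Finset.mem_filter] at hn
      refine ⟨hn.1, ?_⟩
      rw [sq_dvd_iff he]
      intro p hp
      rw [Finset.mem_pi] at hφ
      exact dvd_trans ((hk φ n).mpr hn.2 p hp)
        (Finset.dvd_prod_of_mem (fun b => n + b) (hφ p hp))
  have hdisj : ∀ φ ∈ Finset.pi e.primeFactors (fun _ => B),
      ∀ ψ ∈ Finset.pi e.primeFactors (fun _ => B), φ ≠ ψ →
      Disjoint ((Finset.Ioc M (M + N)).filter (fun n => n ≡ k φ [MOD e]))
        ((Finset.Ioc M (M + N)).filter (fun n => n ≡ k ψ [MOD e])) := by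
    intro φ hφ ψ hψ hne
    rw [Finset.disjoint_left]
    intro n hn hn'
    rw [Finset.mem_filter] at hn hn'
    apply hne
    funext p hp
    rw [Finset.mem_pi] at hφ hψ
    exact unique_b hD hp (hφ p hp) (hψ p hp) ((hk φ n).mpr hn.2 p hp) ((hk ψ n).mpr hn'.2 p hp)
  rw [hS, Finset.card_biUnion hdisj]
  have hcard : ((Finset.pi e.primeFactors (fun _ => B)).card : ℝ) =
      (B.card : ℝ) ^ e.primeFactors.card := by
    rw [Finset.card_pi, Finset.prod_const]
    push_cast
    rfl
  have hsum : ((∑ φ ∈ Finset.pi e.primeFactors (fun _ => B),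
      ((Finset.Ioc M (M + N)).filter (fun n => n ≡ k φ [MOD e])).card : ℕ) : ℝ) -
      (B.card : ℝ) ^ e.primeFactors.card / e * N =
      ∑ φ ∈ Finset.pi e.primeFactors (fun _ => B),
        ((((Finset.Ioc M (M + N)).filter (fun n => n ≡ k φ [MOD e])).card : ℝ) - (N : ℝ) / e) := by
    rw [Finset.sum_sub_distrib, Finset.sum_const, nsmul_eq_mul, hcard]
    push_cast
    ring
  rw [hsum]
  refine (Finset.abs_sum_le_sum_abs _ _).trans ?_
  rw [← hcard]
  refine (Finset.sum_le_card_nsmul _ _ 1 fun φ _ => ?_).trans (by rw [nsmul_eq_mul, mul_one])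
  have := Pool.Agent.Lib.PrimePairs.abs_count_modEq_sub_le M (M + N) e (k φ) (by omega) he0
  have e1 : (((M + N : ℕ) : ℝ) - M) / e = (N : ℝ) / e := by
    push_cast
    ring
  rwa [e1] at this

end Pool.MRZ
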