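import Mathlib
import Pool.Agent.MRZ.TupCount
import Pool.Agent.Lib.PrimePairsMoment

/-!
# MRZ/TupMom: moments of `F` along the tuples `S ∪ (S+d)`

* `F_mul_le`: `F(mn) ≤ F(m) F(n)` (every divisor of `mn` is a product of divisors); `F_ge_one`.
* `F_mom`: for every `k`: `∑_{m≤N} F(m)^k ≤ C_k N`. Hölder as in `PrimePairsMoment.F_pow_four_le` (`k ≥ 2`):
  `F(m)^k ≤ (∑_e e^{-(k-1/4)/(k-1)})^{k-1} ∑_{e∣m} e^{-1/4}`, and `∑_{m≤N} ∑_{e∣m} e^{-1/4} ≤ N ∑ e^{-5/4}`.
  (Or by induction: `∑_{m≤N} F(m)^k = ∑_{e_1..e_k} N/(e_1⋯e_k lcm)`, `lcm ≥ (e_1⋯e_k)^{1/k}`.)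
* `tup_mom`: `S` finite, `Ds = ` the set of the differences `a - a'` (`a, a' ∈ S`, natural subtraction; it contains
  `0` if `S` is non-empty), `k ≥ 0`: for `d ∉ Ds` the set `S ∪ (S+d)` has `2 #S` elements and
  `F(tupD (S ∪ (S+d))) ≤ C_S ∏_{a,a'∈S} F(|d+a'-a|)²` (`tupD` is the product of `(2#S)!`, the differences inside `S`
  and inside `S+d`, which do not depend on `d`, and the cross differences, each twice), hence
  `∑_{d≤N, d∉Ds} F(tupD(S ∪ (S+d)))^k ≤ C_{S,k} N` (`∏_{i≤r} x_i ≤ ∑ x_i^r` for `x_i ≥ 1`, `F_mom`, and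
  `|d+a'-a| ≤ N + max S ≤ C_S N`, every value taken at most twice).
-/

namespace Pool.MRZ

open Finset Pool.Agent.Lib.PrimePairs

theorem F_mul_le (m n : ℕ) (hm : 0 < m) (hn : 0 < n) : F (m * n) ≤ F m * F n := by
  unfold F
  rw [Finset.sum_mul_sum, ← Finset.sum_product']
  have hmaps : ∀ p ∈ m.divisors ×ˢ n.divisors, p.1 * p.2 ∈ (m * n).divisors := by
    intro p hp
    rw [Finset.mem_product, Nat.mem_divisors, Nat.mem_divisors] at hp
    rw [Nat.mem_divisors]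
    exact ⟨mul_dvd_mul hp.1.1 hp.2.1, (Nat.mul_pos hm hn).ne'⟩
  rw [← Finset.sum_fiberwise_of_maps_to hmaps]
  refine Finset.sum_le_sum fun e he => ?_
  rw [Nat.mem_divisors] at he
  obtain ⟨a, b, ha, hb, hab⟩ := exists_dvd_and_dvd_of_dvd_mul he.1
  have hmem : (a, b) ∈ (m.divisors ×ˢ n.divisors).filter (fun p => p.1 * p.2 = e) := by
    rw [Finset.mem_filter, Finset.mem_product, Nat.mem_divisors, Nat.mem_divisors]
    exact ⟨⟨⟨ha, hm.ne'⟩, hb, hn.ne'⟩, hab.symm⟩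
  have := Finset.single_le_sum (f := fun p : ℕ × ℕ => (1 : ℝ) / p.1 * (1 / p.2))
    (fun p _ => by positivity) hmem
  refine le_trans (le_of_eq ?_) this
  rw [hab]
  push_cast
  rw [one_div_mul_one_div]

theorem F_ge_one (m : ℕ) (hm : 0 < m) : 1 ≤ F m := by
  unfold F
  have := Finset.single_le_sum (f := fun e : ℕ => (1 : ℝ) / e) (s := m.divisors)
    (fun e _ => by positivity) (Nat.one_mem_divisors.2 hm.ne')
  simpa using this

namespace TupMomAux

theorem pow_le {ι : Type*} (s : Finset ι) (w z : ι → ℝ) (hw : ∀ i ∈ s, 0 < w i)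
    (hz : ∀ i ∈ s, 0 ≤ z i) (hs : s.Nonempty) (k : ℕ) :
    (∑ i ∈ s, w i * z i) ^ (k + 1) ≤ (∑ i ∈ s, w i) ^ k * ∑ i ∈ s, w i * z i ^ (k + 1) := by
  set S := ∑ i ∈ s, w i with hS
  have hS0 : 0 < S := Finset.sum_pos hw hs
  have h := Real.pow_arith_mean_le_arith_mean_pow s (fun i => w i / S) z
    (fun i hi => (div_pos (hw i hi) hS0).le) (by
      rw [← Finset.sum_div, ← hS, div_self hS0.ne']) hz (k + 1)
  have e1 : ∑ i ∈ s, w i / S * z i = (∑ i ∈ s, w i * z i) / S := by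
    rw [Finset.sum_div]
    refine Finset.sum_congr rfl fun i _ => ?_
    ring
  have e2 : ∑ i ∈ s, w i / S * z i ^ (k + 1) = (∑ i ∈ s, w i * z i ^ (k + 1)) / S := by
    rw [Finset.sum_div]
    refine Finset.sum_congr rfl fun i _ => ?_
    ring
  rw [e1, e2, div_pow, div_le_div_iff₀ (by positivity) hS0] at h
  rw [pow_succ S k] at h
  have h2 : (∑ i ∈ s, w i * z i) ^ (k + 1) * S ≤
      (S ^ k * ∑ i ∈ s, w i * z i ^ (k + 1)) * S := by
    refine h.trans (le_of_eq ?_)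
    ring
  exact le_of_mul_le_mul_right h2 hS0

theorem sum_le_tsum_rpow {x : ℝ} (hx : x < -1) (s : Finset ℕ) :
    ∑ e ∈ s, (e : ℝ) ^ x ≤ ∑' e : ℕ, (e : ℝ) ^ x :=
  (Real.summable_nat_rpow.mpr hx).sum_le_tsum s (fun e _ => Real.rpow_nonneg (Nat.cast_nonneg e) _)

theorem tsum_rpow_nonneg (x : ℝ) : 0 ≤ ∑' e : ℕ, (e : ℝ) ^ x :=
  tsum_nonneg fun e => Real.rpow_nonneg (Nat.cast_nonneg e) _

theorem avg (N : ℕ) : ∑ D ∈ Icc 1 N, ∑ e ∈ D.divisors, (e : ℝ) ^ (-(1 / 2) : ℝ) ≤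
    (∑' e : ℕ, (e : ℝ) ^ (-(3 / 2) : ℝ)) * N := by
  have h3 : ∑ D ∈ Icc 1 N, ∑ e ∈ D.divisors, (e : ℝ) ^ (-(1 / 2) : ℝ) =
      ∑ D ∈ Icc 1 N, ∑ e ∈ Icc 1 N, if e ∣ D then (e : ℝ) ^ (-(1 / 2) : ℝ) else 0 := by
    apply Finset.sum_congr rfl
    intro D hD
    rw [Finset.mem_Icc] at hD
    rw [← Finset.sum_filter]
    apply Finset.sum_congr _ (fun _ _ => rfl)
    ext e
    simp only [Nat.mem_divisors, Finset.mem_filter, Finset.mem_Icc]
    constructor
    · rintro ⟨h, _⟩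
      exact ⟨⟨Nat.pos_of_dvd_of_pos h (by omega), (Nat.le_of_dvd (by omega) h).trans hD.2⟩, h⟩
    · rintro ⟨_, h⟩
      exact ⟨h, by omega⟩
  rw [h3, Finset.sum_comm]
  have h4 : ∀ e ∈ Icc 1 N, (∑ D ∈ Icc 1 N, if e ∣ D then (e : ℝ) ^ (-(1 / 2) : ℝ) else 0) ≤
      (e : ℝ) ^ (-(3 / 2) : ℝ) * N := by
    intro e he
    rw [Finset.mem_Icc] at he
    have hepos : (0 : ℝ) < e := by exact_mod_cast he.1
    rw [← Finset.sum_filter, Finset.sum_const, nsmul_eq_mul]
    have h5 : ((Icc 1 N).filter (fun D => e ∣ D)).card = N / e := by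
      have := Nat.card_multiples' N e
      have h6 : (Icc 1 N).filter (fun D => e ∣ D) =
          (range N.succ).filter (fun D => D ≠ 0 ∧ e ∣ D) := by
        ext D
        simp only [Finset.mem_filter, Finset.mem_Icc, Finset.mem_range]
        constructor
        · rintro ⟨⟨h1, h2⟩, h3⟩
          exact ⟨by omega, by omega, h3⟩
        · rintro ⟨h1, h2, h3⟩
          exact ⟨⟨by omega, by omega⟩, h3⟩
      rw [h6, this]
    rw [h5]
    have h7 : ((N / e : ℕ) : ℝ) ≤ (N : ℝ) / e := Nat.cast_div_le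
    have h8 : (e : ℝ) ^ (-(3 / 2) : ℝ) = (e : ℝ) ^ (-(1 / 2) : ℝ) / e := by
      rw [show (-(3 / 2) : ℝ) = -(1 / 2) + (-1) by norm_num, Real.rpow_add hepos,
        Real.rpow_neg_one]
      exact (div_eq_mul_inv _ _).symm
    rw [h8]
    have h9 : 0 ≤ (e : ℝ) ^ (-(1 / 2) : ℝ) := Real.rpow_nonneg hepos.le _
    calc ((N / e : ℕ) : ℝ) * (e : ℝ) ^ (-(1 / 2) : ℝ) ≤ (N : ℝ) / e * (e : ℝ) ^ (-(1 / 2) : ℝ) := by
          gcongr
      _ = (e : ℝ) ^ (-(1 / 2) : ℝ) / e * N := by ring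
  refine (Finset.sum_le_sum h4).trans ?_
  rw [← Finset.sum_mul]
  exact mul_le_mul_of_nonneg_right (sum_le_tsum_rpow (by norm_num) _) (Nat.cast_nonneg N)

theorem prod_le_one_add {ι : Type*} (I : Finset ι) (x : ι → ℝ) (hx : ∀ i ∈ I, 0 ≤ x i) :
    ∏ i ∈ I, x i ≤ 1 + ∑ i ∈ I, x i ^ I.card := by
  rcases I.eq_empty_or_nonempty with h | h
  · subst h
    simp
  · obtain ⟨j, hj, hmax⟩ := I.exists_max_image x h
    have h1 : ∏ i ∈ I, x i ≤ x j ^ I.card := by
      calc ∏ i ∈ I, x i ≤ ∏ i ∈ I, x j := Finset.prod_le_prod hx hmax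
        _ = x j ^ I.card := by rw [Finset.prod_const]
    have h2 := Finset.single_le_sum (f := fun i => x i ^ I.card)
      (fun i hi => pow_nonneg (hx i hi) _) hj
    linarith

theorem F_prod_le {ι : Type*} (I : Finset ι) (f : ι → ℕ) (hf : ∀ i ∈ I, 0 < f i) :
    F (∏ i ∈ I, f i) ≤ ∏ i ∈ I, F (f i) := by
  classical
  induction I using Finset.induction_on with
  | empty =>
    simp [F]
  | insert a I ha ih =>
    rw [Finset.prod_insert ha, Finset.prod_insert ha]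
    have h1 : ∀ i ∈ I, 0 < f i := fun i hi => hf i (Finset.mem_insert_of_mem hi)
    refine (F_mul_le _ _ (hf a (Finset.mem_insert_self a I)) (Finset.prod_pos h1)).trans ?_
    exact mul_le_mul_of_nonneg_left (ih h1) (F_nonneg _)

theorem sum_dist_le (f : ℕ → ℝ) (hf : ∀ n, 0 ≤ f n) (a a' N M : ℕ) (ha : a ≤ M) (ha' : a' ≤ M)
    (s : Finset ℕ) (hs : s ⊆ Icc 1 N) (hne : ∀ d ∈ s, a ≠ a' + d) :
    ∑ d ∈ s, f (Nat.dist a (a' + d)) ≤ 2 * ∑ v ∈ Icc 1 (N + M), f v := by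
  rw [← Finset.sum_filter_add_sum_filter_not s (fun d => a < a' + d), two_mul]
  refine add_le_add ?_ ?_
  · have hinj : Set.InjOn (fun d => Nat.dist a (a' + d)) (s.filter (fun d => a < a' + d) : Set ℕ) := by
      intro d hd d' hd' h
      rw [Finset.mem_coe, Finset.mem_filter] at hd hd'
      simp only [Nat.dist] at h
      omega
    rw [← Finset.sum_image (f := f) hinj]
    refine Finset.sum_le_sum_of_subset_of_nonneg ?_ fun _ _ _ => hf _
    intro v hv
    rw [Finset.mem_image] at hv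
    obtain ⟨d, hd, rfl⟩ := hv
    rw [Finset.mem_filter] at hd
    have h1 := Finset.mem_Icc.1 (hs hd.1)
    rw [Finset.mem_Icc]
    simp only [Nat.dist]
    omega
  · have hinj : Set.InjOn (fun d => Nat.dist a (a' + d))
        (s.filter (fun d => ¬ a < a' + d) : Set ℕ) := by
      intro d hd d' hd' h
      rw [Finset.mem_coe, Finset.mem_filter] at hd hd'
      simp only [Nat.dist] at h
      have h1 := hne d hd.1
      have h2 := hne d' hd'.1
      omega
    rw [← Finset.sum_image (f := f) hinj]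
    refine Finset.sum_le_sum_of_subset_of_nonneg ?_ fun _ _ _ => hf _
    intro v hv
    rw [Finset.mem_image] at hv
    obtain ⟨d, hd, rfl⟩ := hv
    rw [Finset.mem_filter] at hd
    have h1 := Finset.mem_Icc.1 (hs hd.1)
    have h2 := hne d hd.1
    rw [Finset.mem_Icc]
    simp only [Nat.dist]
    omega

end TupMomAux

open TupMomAux

theorem F_mom (k : ℕ) : ∃ C : ℝ, 0 < C ∧ ∀ N : ℕ, ∑ m ∈ Finset.Icc 1 N, F m ^ k ≤ C * N := by
  cases k with
  | zero =>
    refine ⟨1, one_pos, fun N => ?_⟩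
    simp
  | succ k =>
    set δ : ℝ := 1 / (2 * ((k : ℝ) + 1)) with hδ
    have hk0 : (0 : ℝ) < (k : ℝ) + 1 := by positivity
    have hδ0 : 0 < δ := by positivity
    set W1 : ℝ := ∑' e : ℕ, (e : ℝ) ^ (-(1 + δ)) with hW1
    set W2 : ℝ := ∑' e : ℕ, (e : ℝ) ^ (-(3 / 2) : ℝ) with hW2
    have hW10 : 0 ≤ W1 := tsum_rpow_nonneg _
    have hW20 : 0 ≤ W2 := tsum_rpow_nonneg _
    refine ⟨W1 ^ k * W2 + 1, by positivity, fun N => ?_⟩
    have h1 : ∀ D ∈ Icc 1 N, F D ^ (k + 1) ≤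
        W1 ^ k * ∑ e ∈ D.divisors, (e : ℝ) ^ (-(1 / 2) : ℝ) := by
      intro D hD
      rw [Finset.mem_Icc] at hD
      have hpos : ∀ e ∈ D.divisors, (0 : ℝ) < e := by
        intro e he
        exact_mod_cast Nat.pos_of_mem_divisors he
      have e1 : F D = ∑ e ∈ D.divisors, (e : ℝ) ^ (-(1 + δ)) * (e : ℝ) ^ δ := by
        unfold F
        refine Finset.sum_congr rfl fun e he => ?_
        rw [← Real.rpow_add (hpos e he), show -(1 + δ) + δ = -1 by ring, Real.rpow_neg_one,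
          one_div]
      rw [e1]
      refine (pow_le D.divisors _ _ (fun e he => Real.rpow_pos_of_pos (hpos e he) _)
        (fun e he => (Real.rpow_pos_of_pos (hpos e he) _).le)
        ⟨1, Nat.one_mem_divisors.2 (by omega)⟩ k).trans ?_
      refine mul_le_mul ?_ ?_ (Finset.sum_nonneg fun e he => ?_) (pow_nonneg hW10 k)
      · exact pow_le_pow_left₀ (Finset.sum_nonneg fun e he =>
          (Real.rpow_pos_of_pos (hpos e he) _).le) (sum_le_tsum_rpow (by linarith) _) k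
      · refine Finset.sum_le_sum fun e he => ?_
        rw [← Real.rpow_natCast, ← Real.rpow_mul (hpos e he).le, ← Real.rpow_add (hpos e he)]
        refine Real.rpow_le_rpow_of_exponent_le ?_ ?_
        · exact_mod_cast Nat.pos_of_mem_divisors he
        · push_cast
          have : δ * ((k : ℝ) + 1) = 1 / 2 := by
            rw [hδ]
            field_simp
          rw [this]
          linarith
      · exact mul_nonneg (Real.rpow_pos_of_pos (hpos e he) _).le
          (pow_nonneg (Real.rpow_pos_of_pos (hpos e he) _).le _)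
    refine (Finset.sum_le_sum h1).trans ?_
    rw [← Finset.mul_sum]
    have h2 := mul_le_mul_of_nonneg_left (avg N) (pow_nonneg hW10 k)
    refine h2.trans ?_
    have h3 : (0 : ℝ) ≤ N := Nat.cast_nonneg N
    rw [← hW2]
    nlinarith

/-- the set of differences -/
def difs (S : Finset ℕ) : Finset ℕ := (S ×ˢ S).image (fun q => q.1 - q.2)

theorem TupMomAux.disj (S : Finset ℕ) (d : ℕ) (hd : 1 ≤ d) (hS : d ∉ difs S) :
    Disjoint S (S.image (· + d)) := by
  rw [Finset.disjoint_left]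
  intro x hx hx'
  rw [Finset.mem_image] at hx'
  obtain ⟨y, hy, hxy⟩ := hx'
  apply hS
  unfold difs
  rw [Finset.mem_image]
  refine ⟨(x, y), Finset.mem_product.2 ⟨hx, hy⟩, ?_⟩
  simp only at hxy ⊢
  omega

theorem TupMomAux.tupD_eq (S : Finset ℕ) (d : ℕ) (hd : 1 ≤ d) (hS : d ∉ difs S) :
    tupD (S ∪ S.image (· + d)) = ((2 * S.card).factorial *
      (∏ q ∈ S.offDiag, Nat.dist q.1 q.2) ^ 2) *
      (∏ q ∈ S ×ˢ S, Nat.dist q.1 (q.2 + d)) ^ 2 := by
  have hdisj := TupMomAux.disj S d hd hS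
  have hcard : (S ∪ S.image (· + d)).card = 2 * S.card := by
    rw [Finset.card_union_of_disjoint hdisj,
      Finset.card_image_of_injective _ (add_left_injective d)]
    ring
  unfold tupD
  rw [hcard, Finset.offDiag_union hdisj]
  set S' := S.image (· + d) with hS'
  have hd1 : ∀ x ∈ S, x ∉ S' := fun x hx hx' => (Finset.disjoint_left.1 hdisj) hx hx'
  have p1 : ∏ q ∈ S'.offDiag, Nat.dist q.1 q.2 = ∏ q ∈ S.offDiag, Nat.dist q.1 q.2 := by
    symm
    refine Finset.prod_bij (fun q _ => (q.1 + d, q.2 + d)) ?_ ?_ ?_ ?_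
    · intro q hq
      rw [Finset.mem_offDiag] at hq ⊢
      refine ⟨Finset.mem_image_of_mem _ hq.1, Finset.mem_image_of_mem _ hq.2.1, ?_⟩
      simp only
      omega
    · intro q _ q' _ h
      rw [Prod.mk.injEq] at h
      apply Prod.ext <;> omega
    · intro q hq
      rw [Finset.mem_offDiag, hS', Finset.mem_image, Finset.mem_image] at hq
      obtain ⟨⟨x, hx, hx'⟩, ⟨y, hy, hy'⟩, hne⟩ := hq
      refine ⟨(x, y), ?_, ?_⟩
      · rw [Finset.mem_offDiag]
        refine ⟨hx, hy, ?_⟩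
        simp only at hx' hy' ⊢
        intro h
        apply hne
        rw [← hx', ← hy', h]
      · exact Prod.ext hx' hy'
    · intro q _
      simp only [Nat.dist]
      omega
  have p2 : ∏ q ∈ S ×ˢ S', Nat.dist q.1 q.2 = ∏ q ∈ S ×ˢ S, Nat.dist q.1 (q.2 + d) := by
    rw [Finset.prod_product, Finset.prod_product]
    refine Finset.prod_congr rfl fun x _ => ?_
    rw [hS', Finset.prod_image fun a _ b _ h => add_left_injective d h]
  have p3 : ∏ q ∈ S' ×ˢ S, Nat.dist q.1 q.2 = ∏ q ∈ S ×ˢ S, Nat.dist q.1 (q.2 + d) := by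
    rw [← p2, Finset.prod_product_right, Finset.prod_product]
    refine Finset.prod_congr rfl fun x _ => Finset.prod_congr rfl fun y _ => ?_
    exact Nat.dist_comm y x
  have u3 : Disjoint (S.offDiag ∪ S'.offDiag ∪ S ×ˢ S') (S' ×ˢ S) := by
    rw [Finset.disjoint_left]
    rintro ⟨x, y⟩ h1 h2
    simp only [Finset.mem_union, Finset.mem_offDiag, Finset.mem_product] at h1 h2
    rcases h1 with (h1 | h1) | h1
    · exact hd1 x h1.1 h2.1
    · exact hd1 y h2.2 h1.2.1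
    · exact hd1 x h1.1 h2.1
  have u2 : Disjoint (S.offDiag ∪ S'.offDiag) (S ×ˢ S') := by
    rw [Finset.disjoint_left]
    rintro ⟨x, y⟩ h1 h2
    simp only [Finset.mem_union, Finset.mem_offDiag, Finset.mem_product] at h1 h2
    rcases h1 with h1 | h1
    · exact hd1 y h1.2.1 h2.2
    · exact hd1 x h2.1 h1.1
  have u1 : Disjoint S.offDiag S'.offDiag := by
    rw [Finset.disjoint_left]
    rintro ⟨x, y⟩ h1 h2
    simp only [Finset.mem_offDiag] at h1 h2
    exact hd1 x h1.1 h2.1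
  rw [Finset.prod_union u3, Finset.prod_union u2, Finset.prod_union u1, p1, p2, p3]
  ring

theorem TupMomAux.dist_pos' (S : Finset ℕ) (d : ℕ) (hd : 1 ≤ d) (hS : d ∉ difs S) :
    ∀ q ∈ S ×ˢ S, 0 < Nat.dist q.1 (q.2 + d) := by
  intro q hq
  rw [Finset.mem_product] at hq
  apply Nat.dist_pos_of_ne
  intro h
  refine (Finset.disjoint_left.1 (TupMomAux.disj S d hd hS)) hq.1 ?_
  rw [h]
  exact Finset.mem_image_of_mem _ hq.2

theorem card_union_shift (S : Finset ℕ) (d : ℕ) (hd : 1 ≤ d) (hS : d ∉ difs S) :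
    (S ∪ S.image (· + d)).card = 2 * S.card := by
  have hdisj := TupMomAux.disj S d hd hS
  rw [Finset.card_union_of_disjoint hdisj, Finset.card_image_of_injective _ (add_left_injective d)]
  ring

theorem tup_mom (S : Finset ℕ) (k : ℕ) : ∃ C : ℝ, 0 < C ∧ ∀ N : ℕ,
    ∑ d ∈ (Finset.Icc 1 N).filter (fun d => d ∉ difs S), F (tupD (S ∪ S.image (· + d))) ^ k ≤
      C * N := by
  set c0 : ℕ := (2 * S.card).factorial * (∏ q ∈ S.offDiag, Nat.dist q.1 q.2) ^ 2 with hc0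
  have hc0p : 0 < c0 := by
    rw [hc0]
    refine Nat.mul_pos (Nat.factorial_pos _) (pow_pos (Finset.prod_pos fun q hq => ?_) 2)
    rw [Finset.mem_offDiag] at hq
    exact Nat.dist_pos_of_ne hq.2.2
  set r : ℕ := (S ×ˢ S).card with hr
  set K : ℕ := 2 * k * r with hK
  obtain ⟨C, hC, hmom⟩ := F_mom K
  set M : ℕ := S.sup id with hM
  have hSM : ∀ x ∈ S, x ≤ M := fun x hx => Finset.le_sup (f := id) hx
  refine ⟨F c0 ^ k * (1 + r * (2 * (C * (1 + M)))), ?_, fun N => ?_⟩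
  · have := F_ge_one c0 hc0p
    have h2 : 0 < F c0 ^ k := by positivity
    have h3 : (0 : ℝ) ≤ r * (2 * (C * (1 + M))) := by positivity
    exact mul_pos h2 (by linarith)
  have hpt : ∀ d ∈ (Finset.Icc 1 N).filter (fun d => d ∉ difs S),
      F (tupD (S ∪ S.image (· + d))) ^ k ≤
        F c0 ^ k * (1 + ∑ q ∈ S ×ˢ S, F (Nat.dist q.1 (q.2 + d)) ^ K) := by
    intro d hd
    rw [Finset.mem_filter, Finset.mem_Icc] at hd
    have hdp := TupMomAux.dist_pos' S d hd.1.1 hd.2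
    have hpp : 0 < ∏ q ∈ S ×ˢ S, Nat.dist q.1 (q.2 + d) := Finset.prod_pos hdp
    have h1 : F (tupD (S ∪ S.image (· + d))) ≤
        F c0 * (∏ q ∈ S ×ˢ S, F (Nat.dist q.1 (q.2 + d))) ^ 2 := by
      rw [TupMomAux.tupD_eq S d hd.1.1 hd.2, ← hc0]
      refine (F_mul_le _ _ hc0p (pow_pos hpp 2)).trans ?_
      refine mul_le_mul_of_nonneg_left ?_ (F_nonneg _)
      rw [pow_two, pow_two]
      have h2 := F_prod_le (S ×ˢ S) (fun q => Nat.dist q.1 (q.2 + d)) hdp
      refine (F_mul_le _ _ hpp hpp).trans ?_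
      exact mul_le_mul h2 h2 (F_nonneg _) (Finset.prod_nonneg fun _ _ => F_nonneg _)
    have h3 : F (tupD (S ∪ S.image (· + d))) ^ k ≤
        (F c0 * (∏ q ∈ S ×ˢ S, F (Nat.dist q.1 (q.2 + d))) ^ 2) ^ k :=
      pow_le_pow_left₀ (F_nonneg _) h1 k
    refine h3.trans ?_
    rw [mul_pow, ← pow_mul, ← Finset.prod_pow]
    refine mul_le_mul_of_nonneg_left ?_ (pow_nonneg (F_nonneg _) k)
    refine (prod_le_one_add (S ×ˢ S) _ fun q _ => pow_nonneg (F_nonneg _) _).trans ?_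
    refine le_of_eq ?_
    congr 1
    refine Finset.sum_congr rfl fun q _ => ?_
    rw [← pow_mul, ← hr, hK]
  refine (Finset.sum_le_sum hpt).trans ?_
  rw [← Finset.mul_sum, mul_assoc]
  refine mul_le_mul_of_nonneg_left ?_ (pow_nonneg (F_nonneg _) k)
  rw [Finset.sum_add_distrib, Finset.sum_const, nsmul_eq_mul, mul_one, Finset.sum_comm]
  rcases Nat.eq_zero_or_pos N with hN | hN
  · subst hN
    simp
  have hN1 : (1 : ℝ) ≤ N := by exact_mod_cast hN
  have h1 : (((Finset.Icc 1 N).filter (fun d => d ∉ difs S)).card : ℝ) ≤ N := by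
    have := Finset.card_filter_le (Finset.Icc 1 N) (fun d => d ∉ difs S)
    rw [Nat.card_Icc, Nat.add_sub_cancel] at this
    exact_mod_cast this
  have h2 : ∀ q ∈ S ×ˢ S, ∑ d ∈ (Finset.Icc 1 N).filter (fun d => d ∉ difs S),
      F (Nat.dist q.1 (q.2 + d)) ^ K ≤ 2 * (C * (1 + M)) * N := by
    intro q hq
    have hq' := Finset.mem_product.1 hq
    refine (sum_dist_le (fun n => F n ^ K) (fun n => pow_nonneg (F_nonneg n) K) q.1 q.2 N M
      (hSM _ hq'.1) (hSM _ hq'.2) _ (Finset.filter_subset _ _) ?_).trans ?_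
    · intro d hd h
      rw [Finset.mem_filter, Finset.mem_Icc] at hd
      have := TupMomAux.dist_pos' S d hd.1.1 hd.2 q hq
      rw [← h] at this
      simp [Nat.dist] at this
    · have h3 := hmom (N + M)
      push_cast at h3
      have h4 : (N : ℝ) + M ≤ (1 + M) * N := by
        have : (0 : ℝ) ≤ M := Nat.cast_nonneg M
        nlinarith
      have h5 : C * ((N : ℝ) + M) ≤ C * ((1 + M) * N) := mul_le_mul_of_nonneg_left h4 hC.le
      linarith
  have h3 := Finset.sum_le_card_nsmul _ _ _ h2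
  rw [nsmul_eq_mul, ← hr] at h3
  calc _ ≤ (N : ℝ) + r * (2 * (C * (1 + M)) * N) := add_le_add h1 h3
    _ = _ := by ring

end Pool.MRZ
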