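import Mathlib
import Pool.Agent.Lib.PrimePairs

/-!
# MRZ/TupG: lower bound for the Selberg sum of dimension `κ`

`SQ D y` (from `Lib/PrimePairs`) is the set of squarefree `l ≤ y` coprime to `D`;
`SK κ D y = ∑_{l∈SQ D y} κ^{ω(l)}/l`.
* `sk_step`: `SK κ D y · SK 1 D y' ≤ C_κ SK (κ+1) D (y y')`: for `l ∈ SQ D y`, `m ∈ SQ D y'`, `g = gcd(l,m)`, `l = g l'`,
  `m = g m'`: `g, l', m'` pairwise coprime squarefree, `κ^{ω(l)}/(lm) = (κ^{ω(g)}/g²)(κ^{ω(l')}/(l'm'))`; with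
  `n = l'm' ∈ SQ D (yy')` and `∑_{l'm'=n} κ^{ω(l')} = (κ+1)^{ω(n)}` (over the divisors `l'` of squarefree `n`), and
  `(l,m) ↦ (g,l',m')` injective, the product is `≤ (∑_g κ^{ω(g)}/g²) SK (κ+1) D (yy')`. `∑_g κ^{ω(g)}/g²` converges
  (`κ^{ω(g)} ≤ C_κ g^{1/2}`; or: `κ^{ω(g)} ≤ τ(g)^{k}`, or the Euler product `∏(1 + κ/(p²-1)·…)`; crude way:
  primes `p ≥ κ²` satisfy `κ ≤ p^{1/2}`, the others contribute at most `κ^{κ²}`).
* `sk_pow`: `(log y)^κ ≤ C_κ F(D)^κ SK κ D (y^κ)` for `D, y ≥ 1`: induction on `κ` with `sk_step`, and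
  `log y ≤ 2 F(D) SK 1 D y` (`PrimePairs.log_le_SQ`). `κ = 0`: `SK 0 D 1 = 1`.
-/

namespace Pool.MRZ

open Finset Pool.Agent.Lib.PrimePairs

/-- the sum `∑ κ^{ω(l)}/l` over squarefree `l ≤ y` coprime to `D` -/
noncomputable def SK (κ D y : ℕ) : ℝ := ∑ l ∈ SQ D y, (κ : ℝ) ^ l.primeFactors.card / l

private lemma tg_pf {a b : ℕ} (h : a.Coprime b) :
    (a * b).primeFactors.card = a.primeFactors.card + b.primeFactors.card := by
  rw [h.primeFactors_mul, Finset.card_union_of_disjoint h.disjoint_primeFactors]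

private noncomputable def tgf (κ : ℕ) : ArithmeticFunction ℝ :=
  ⟨fun n => if n = 0 then 0 else (κ : ℝ) ^ n.primeFactors.card, by simp⟩

private lemma tgf_apply (κ n : ℕ) :
    tgf κ n = if n = 0 then 0 else (κ : ℝ) ^ n.primeFactors.card := rfl

private lemma tgf_mult (κ : ℕ) : (tgf κ).IsMultiplicative := by
  refine ⟨?_, ?_⟩
  · rw [tgf_apply]
    simp
  · intro m n h
    rw [tgf_apply, tgf_apply, tgf_apply]
    rcases eq_or_ne m 0 with hm | hm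
    · simp [hm]
    rcases eq_or_ne n 0 with hn | hn
    · simp [hn]
    rw [if_neg (mul_ne_zero hm hn), if_neg hm, if_neg hn, tg_pf h, pow_add]

private lemma tg_sum (κ : ℕ) {n : ℕ} (hn : Squarefree n) :
    ∑ a ∈ n.divisors, (κ : ℝ) ^ a.primeFactors.card = ((κ + 1 : ℕ) : ℝ) ^ n.primeFactors.card := by
  have h := (tgf_mult κ).prodPrimeFactors_one_add_of_squarefree hn
  have h1 : ∀ p ∈ n.primeFactors, (1 : ℝ) + tgf κ p = ((κ + 1 : ℕ) : ℝ) := by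
    intro p hp
    have hp' := Nat.prime_of_mem_primeFactors hp
    rw [tgf_apply, if_neg hp'.ne_zero, hp'.primeFactors, Finset.card_singleton, pow_one]
    push_cast
    ring
  have h2 : ∀ a ∈ n.divisors, tgf κ a = (κ : ℝ) ^ a.primeFactors.card := by
    intro a ha
    rw [tgf_apply, if_neg (Nat.pos_of_mem_divisors ha).ne']
  rw [Finset.prod_congr rfl h1, Finset.prod_const, Finset.sum_congr rfl h2] at h
  exact h.symm

private lemma tg_conv (κ D y : ℕ) :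
    ∑ g ∈ SQ D y, (κ : ℝ) ^ g.primeFactors.card / (g : ℝ) ^ 2 ≤ Real.exp (2 * κ) := by
  classical
  obtain ⟨P, hP⟩ : ∃ P : Finset ℕ, P = (Icc 1 y).filter Nat.Prime := ⟨_, rfl⟩
  have h1 : ∀ g ∈ SQ D y, (κ : ℝ) ^ g.primeFactors.card / (g : ℝ) ^ 2 =
      (fun t : Finset ℕ => ∏ p ∈ t, ((κ : ℝ) / (p : ℝ) ^ 2)) g.primeFactors := by
    intro g hg
    rw [mem_SQ] at hg
    simp only
    rw [Finset.prod_div_distrib, Finset.prod_const, Finset.prod_pow]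
    congr 2
    have h0 := Nat.prod_primeFactors_of_squarefree hg.2.1
    rw [← Nat.cast_prod, h0]
  rw [Finset.sum_congr rfl h1]
  have hinj : Set.InjOn Nat.primeFactors (SQ D y : Set ℕ) := by
    intro a ha b hb hab
    rw [Finset.mem_coe, mem_SQ] at ha hb
    rw [← Nat.prod_primeFactors_of_squarefree ha.2.1, ← Nat.prod_primeFactors_of_squarefree hb.2.1,
      hab]
  rw [← Finset.sum_image (f := fun t : Finset ℕ => ∏ p ∈ t, ((κ : ℝ) / (p : ℝ) ^ 2)) hinj]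
  have hsub : (SQ D y).image Nat.primeFactors ⊆ P.powerset := by
    intro t ht
    obtain ⟨g, hg, rfl⟩ := Finset.mem_image.1 ht
    rw [mem_SQ] at hg
    rw [Finset.mem_powerset]
    intro p hp
    have hp' := Nat.prime_of_mem_primeFactors hp
    rw [hP, Finset.mem_filter, Finset.mem_Icc]
    exact ⟨⟨hp'.one_lt.le, (Nat.le_of_dvd (by omega) (Nat.dvd_of_mem_primeFactors hp)).trans
      hg.1.2⟩, hp'⟩
  refine (Finset.sum_le_sum_of_subset_of_nonneg hsub fun t _ _ =>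
    Finset.prod_nonneg fun p _ => by positivity).trans ?_
  rw [← Finset.prod_one_add]
  have h2 : ∏ p ∈ P, (1 + (κ : ℝ) / (p : ℝ) ^ 2) ≤ ∏ p ∈ P, Real.exp ((κ : ℝ) / (p : ℝ) ^ 2) := by
    apply Finset.prod_le_prod
    · intro p _
      positivity
    · intro p _
      have := Real.add_one_le_exp ((κ : ℝ) / (p : ℝ) ^ 2)
      linarith
  refine h2.trans ?_
  rw [← Real.exp_sum]
  apply Real.exp_le_exp.2
  have h3 : ∑ p ∈ P, (κ : ℝ) / (p : ℝ) ^ 2 ≤ ∑ p ∈ Icc 1 y, (κ : ℝ) / (p : ℝ) ^ 2 := by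
    apply Finset.sum_le_sum_of_subset_of_nonneg
    · rw [hP]
      exact Finset.filter_subset _ _
    · intro p _ _
      positivity
  have h4 : ∑ p ∈ Icc 1 y, (κ : ℝ) / (p : ℝ) ^ 2 = κ * ∑ p ∈ Icc 1 y, (1 : ℝ) / (p : ℝ) ^ 2 := by
    rw [Finset.mul_sum]
    apply Finset.sum_congr rfl
    intro p _
    ring
  have h5 := mul_le_mul_of_nonneg_left (sum_inv_sq_le y) (Nat.cast_nonneg κ : (0 : ℝ) ≤ κ)
  linarith

private lemma SK_nonneg (κ D y : ℕ) : 0 ≤ SK κ D y :=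
  Finset.sum_nonneg fun l _ => by positivity

theorem sk_step (κ : ℕ) : ∃ C : ℝ, 0 < C ∧ ∀ D y y' : ℕ, 1 ≤ D → 1 ≤ y → 1 ≤ y' →
    SK κ D y * SK 1 D y' ≤ C * SK (κ + 1) D (y * y') := by
  classical
  refine ⟨Real.exp (2 * κ), Real.exp_pos _, ?_⟩
  intro D y y' hD hy hy'
  have h1 : SK κ D y * SK 1 D y' =
      ∑ x ∈ SQ D y ×ˢ SQ D y', (κ : ℝ) ^ x.1.primeFactors.card / ((x.1 : ℝ) * x.2) := by
    unfold SK
    rw [Finset.sum_mul_sum, ← Finset.sum_product']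
    apply Finset.sum_congr rfl
    intro x _
    rw [div_mul_div_comm]
    simp
  rw [h1]
  let φ : ℕ × ℕ → ℕ × (Σ _ : ℕ, ℕ × ℕ) := fun x =>
    (Nat.gcd x.1 x.2, ⟨(x.1 / Nat.gcd x.1 x.2) * (x.2 / Nat.gcd x.1 x.2),
      (x.1 / Nat.gcd x.1 x.2, x.2 / Nat.gcd x.1 x.2)⟩)
  let t : Finset (ℕ × (Σ _ : ℕ, ℕ × ℕ)) :=
    SQ D y ×ˢ ((SQ D (y * y')).sigma (fun l => l.divisorsAntidiagonal))
  have hφinj : Set.InjOn φ (SQ D y ×ˢ SQ D y' : Finset (ℕ × ℕ)) := by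
    rintro ⟨a, b⟩ _ ⟨a', b'⟩ _ h
    simp only [φ, Prod.mk.injEq, Sigma.mk.injEq] at h
    obtain ⟨h1, h2, h3⟩ := h
    have h3 := eq_of_heq h3
    simp only [Prod.mk.injEq] at h3
    have e1 : a = Nat.gcd a b * (a / Nat.gcd a b) := (Nat.mul_div_cancel' (Nat.gcd_dvd_left _ _)).symm
    have e2 : b = Nat.gcd a b * (b / Nat.gcd a b) := (Nat.mul_div_cancel' (Nat.gcd_dvd_right _ _)).symm
    have e3 : a' = Nat.gcd a' b' * (a' / Nat.gcd a' b') :=
      (Nat.mul_div_cancel' (Nat.gcd_dvd_left _ _)).symm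
    have e4 : b' = Nat.gcd a' b' * (b' / Nat.gcd a' b') :=
      (Nat.mul_div_cancel' (Nat.gcd_dvd_right _ _)).symm
    rw [Prod.mk.injEq]
    constructor
    · rw [e1, e3, h3.1, h1]
    · rw [e2, e4, h3.2, h1]
  have hφt : ∀ x ∈ SQ D y ×ˢ SQ D y', φ x ∈ t := by
    rintro ⟨a, b⟩ hx
    rw [Finset.mem_product, mem_SQ, mem_SQ] at hx
    obtain ⟨⟨⟨ha1, ha2⟩, ha3, ha4⟩, ⟨⟨hb1, hb2⟩, hb3, hb4⟩⟩ := hx
    simp only at ha1 ha2 ha3 ha4 hb1 hb2 hb3 hb4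
    have hg0 : 0 < Nat.gcd a b := Nat.gcd_pos_of_pos_left _ (by omega)
    have hga : Nat.gcd a b ≤ a := Nat.le_of_dvd (by omega) (Nat.gcd_dvd_left _ _)
    have hda : a / Nat.gcd a b ∣ a := Nat.div_dvd_of_dvd (Nat.gcd_dvd_left _ _)
    have hdb : b / Nat.gcd a b ∣ b := Nat.div_dvd_of_dvd (Nat.gcd_dvd_right _ _)
    have hpa : 0 < a / Nat.gcd a b := Nat.pos_of_dvd_of_pos hda (by omega)
    have hpb : 0 < b / Nat.gcd a b := Nat.pos_of_dvd_of_pos hdb (by omega)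
    have hla : a / Nat.gcd a b ≤ y := (Nat.le_of_dvd (by omega) hda).trans ha2
    have hlb : b / Nat.gcd a b ≤ y' := (Nat.le_of_dvd (by omega) hdb).trans hb2
    have hcop : (a / Nat.gcd a b).Coprime (b / Nat.gcd a b) := Nat.coprime_div_gcd_div_gcd hg0
    have hprod0 : (a / Nat.gcd a b) * (b / Nat.gcd a b) ≠ 0 := by positivity
    simp only [t, φ, Finset.mem_product, Finset.mem_sigma, mem_SQ,
      Nat.mem_divisorsAntidiagonal]
    refine ⟨⟨⟨hg0, hga.trans ha2⟩, ha3.squarefree_of_dvd (Nat.gcd_dvd_left _ _),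
      Nat.Coprime.coprime_dvd_left (Nat.gcd_dvd_left _ _) ha4⟩,
      ⟨⟨Nat.pos_of_ne_zero hprod0, ?_⟩, ?_, ?_⟩, trivial, hprod0⟩
    · exact Nat.mul_le_mul hla hlb
    · exact (Nat.squarefree_mul hcop).mpr
        ⟨ha3.squarefree_of_dvd hda, hb3.squarefree_of_dvd hdb⟩
    · exact Nat.Coprime.mul_left (Nat.Coprime.coprime_dvd_left hda ha4)
        (Nat.Coprime.coprime_dvd_left hdb hb4)
  let g : ℕ × (Σ _ : ℕ, ℕ × ℕ) → ℝ := fun u =>
    ((κ : ℝ) ^ u.1.primeFactors.card / (u.1 : ℝ) ^ 2) *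
      ((κ : ℝ) ^ u.2.2.1.primeFactors.card * (1 / (u.2.1 : ℝ)))
  have hg : ∀ x ∈ SQ D y ×ˢ SQ D y',
      (κ : ℝ) ^ x.1.primeFactors.card / ((x.1 : ℝ) * x.2) = g (φ x) := by
    rintro ⟨a, b⟩ hx
    rw [Finset.mem_product, mem_SQ, mem_SQ] at hx
    obtain ⟨⟨⟨ha1, ha2⟩, ha3, ha4⟩, ⟨⟨hb1, hb2⟩, hb3, hb4⟩⟩ := hx
    simp only at ha1 ha2 ha3 ha4 hb1 hb2 hb3 hb4
    simp only [g, φ]
    have e1 : a = Nat.gcd a b * (a / Nat.gcd a b) := (Nat.mul_div_cancel' (Nat.gcd_dvd_left _ _)).symm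
    have e2 : b = Nat.gcd a b * (b / Nat.gcd a b) := (Nat.mul_div_cancel' (Nat.gcd_dvd_right _ _)).symm
    have e3 : (a : ℝ) = (Nat.gcd a b : ℝ) * ((a / Nat.gcd a b : ℕ) : ℝ) := by exact_mod_cast e1
    have e4 : (b : ℝ) = (Nat.gcd a b : ℝ) * ((b / Nat.gcd a b : ℕ) : ℝ) := by exact_mod_cast e2
    have hcop : (Nat.gcd a b).Coprime (a / Nat.gcd a b) := by
      have h := ha3
      rw [e1] at h
      exact Nat.coprime_of_squarefree_mul h
    have e5 : a.primeFactors.card = (Nat.gcd a b).primeFactors.card +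
        (a / Nat.gcd a b).primeFactors.card := by
      rw [← tg_pf hcop, ← e1]
    rw [e5, pow_add]
    have e6 : (a : ℝ) * b = (Nat.gcd a b : ℝ) ^ 2 *
        (((a / Nat.gcd a b) * (b / Nat.gcd a b) : ℕ) : ℝ) := by
      push_cast
      calc (a : ℝ) * b = ((Nat.gcd a b : ℝ) * ((a / Nat.gcd a b : ℕ) : ℝ)) *
          ((Nat.gcd a b : ℝ) * ((b / Nat.gcd a b : ℕ) : ℝ)) := by rw [← e3, ← e4]
        _ = _ := by ring
    rw [e6, div_mul_eq_mul_div, mul_one_div, mul_div_assoc', div_div]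
    congr 1
    ring
  rw [Finset.sum_congr rfl hg, ← Finset.sum_image hφinj]
  have hsub : (SQ D y ×ˢ SQ D y').image φ ⊆ t := by
    intro u hu
    rw [Finset.mem_image] at hu
    obtain ⟨x, hx, rfl⟩ := hu
    exact hφt x hx
  refine (Finset.sum_le_sum_of_subset_of_nonneg hsub (fun u _ _ => by positivity)).trans ?_
  have h2 : ∑ u ∈ t, g u = (∑ k ∈ SQ D y, (κ : ℝ) ^ k.primeFactors.card / (k : ℝ) ^ 2) *
      SK (κ + 1) D (y * y') := by
    simp only [t, g]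
    rw [Finset.sum_product, Finset.sum_mul]
    apply Finset.sum_congr rfl
    intro k _
    simp only
    rw [← Finset.mul_sum]
    congr 1
    rw [Finset.sum_sigma]
    unfold SK
    apply Finset.sum_congr rfl
    intro l hl
    rw [mem_SQ] at hl
    simp only
    rw [← Finset.sum_mul, Nat.sum_divisorsAntidiagonal
      (f := fun a _ => (κ : ℝ) ^ a.primeFactors.card), tg_sum κ hl.2.1, mul_one_div]
  rw [h2]
  exact mul_le_mul_of_nonneg_right (tg_conv κ D y) (SK_nonneg _ _ _)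

theorem sk_pow (κ : ℕ) : ∃ C : ℝ, 0 < C ∧ ∀ D y : ℕ, 1 ≤ D → 1 ≤ y →
    Real.log y ^ κ ≤ C * F D ^ κ * SK κ D (y ^ κ) := by
  classical
  induction κ with
  | zero =>
    refine ⟨1, one_pos, ?_⟩
    intro D y hD hy
    have h1 : SQ D (y ^ 0) = {1} := by
      ext l
      rw [mem_SQ, Finset.mem_singleton, pow_zero]
      constructor
      · rintro ⟨⟨h1, h2⟩, -⟩
        omega
      · rintro rfl
        exact ⟨⟨le_rfl, le_rfl⟩, squarefree_one, Nat.coprime_one_left D⟩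
    unfold SK
    rw [h1]
    simp
  | succ κ ih =>
    obtain ⟨C, hC, ih⟩ := ih
    obtain ⟨C', hC', hst⟩ := sk_step κ
    refine ⟨2 * C * C', by positivity, ?_⟩
    intro D y hD hy
    have h1 := ih D y hD hy
    have h2 := hst D (y ^ κ) y hD (Nat.one_le_pow _ _ hy) hy
    have h3 := log_le_SQ D y hD hy
    have h4 : SK 1 D y = ∑ l ∈ SQ D y, (1 : ℝ) / l := by
      unfold SK
      simp
    rw [← h4] at h3
    have hF := F_nonneg D
    have hlog : 0 ≤ Real.log y := Real.log_natCast_nonneg y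
    have h5 : 0 ≤ C * F D ^ κ * SK κ D (y ^ κ) :=
      mul_nonneg (by positivity) (SK_nonneg _ _ _)
    calc Real.log y ^ (κ + 1) = Real.log y ^ κ * Real.log y := pow_succ _ _
      _ ≤ (C * F D ^ κ * SK κ D (y ^ κ)) * (2 * F D * SK 1 D y) :=
        mul_le_mul h1 h3 hlog h5
      _ = (2 * C * F D ^ (κ + 1)) * (SK κ D (y ^ κ) * SK 1 D y) := by ring
      _ ≤ (2 * C * F D ^ (κ + 1)) * (C' * SK (κ + 1) D (y ^ κ * y)) :=
        mul_le_mul_of_nonneg_left h2 (by positivity)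
      _ = 2 * C * C' * F D ^ (κ + 1) * SK (κ + 1) D (y ^ (κ + 1)) := by
        rw [pow_succ y κ]
        ring

end Pool.MRZ
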