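import Mathlib
import Pool.Agent.MRZ.TupCount
import Pool.Agent.MRZ.TupG

/-!
# MRZ/TupUp: Selberg's upper bound for prime tuples

For every `κ` there is `C` with: `B ⊆ ℕ`, `#B = κ`, `2 ≤ y`, `y^κ ≤ M`:
`#{n ∈ (M, M+N] : n+b prime for all b ∈ B} ≤ C F(tupD B)^κ N/(log y)^κ + y^{6κ+6}`.

Proof (copy of `PrimePairs.card_prime_pairs_le`, which is `B = {0,d}`). `κ = 0`: trivial (`C = 1`). For `κ ≥ 1`:
`z = y^κ`, sieve `support = {∏_{b∈B}(n+b) : n ∈ (M,M+N]}` (the map is strictly increasing, so injective),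
`prodPrimes = primProd (tupD B) z`, `ν(e) = κ^{ω(e)}/e` (multiplicative arithmetic function; `ν(p) = κ/p < 1` for
`p ∣ prodPrimes` since `p > κ`: `κ! ∣ tupD B`), `totalMass = N`. `count_tup` gives `|rem e| ≤ κ^{ω(e)} ≤ e`
for `e ∣ prodPrimes`. A tuple of primes `n+b > M ≥ z` has no prime factor `≤ z`, so it is counted in `siftedSum`.
`SelbergUpper.siftedSum_le` with `A = z` (`ν(d)^{-1} ≤ d ≤ z`), `B = z²`: `≤ N/G + z^6`, and
`G ≥ SK κ (tupD B) z` (as in `PrimePairs.G_ge`, `selbergTerms l ≥ ν l`), `sk_pow`.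
-/

namespace Pool.MRZ

open Finset BoundingSieve Pool.Agent.Lib.PrimePairs Pool.Agent.Lib.SelbergUpper

/-- the density `κ^{ω(n)}/n` -/
noncomputable def nuTup (κ : ℕ) : ArithmeticFunction ℝ :=
  ⟨fun n => (κ : ℝ) ^ n.primeFactors.card / n, by simp⟩

lemma nuTup_apply (κ n : ℕ) : nuTup κ n = (κ : ℝ) ^ n.primeFactors.card / n := rfl

lemma nuTup_mult (κ : ℕ) : (nuTup κ).IsMultiplicative := by
  constructor
  · simp [nuTup_apply]
  · intro m n hmn
    rw [nuTup_apply, nuTup_apply, nuTup_apply, hmn.primeFactors_mul,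
      Finset.card_union_of_disjoint hmn.disjoint_primeFactors, pow_add]
    push_cast
    rw [mul_div_mul_comm]

lemma nuTup_prime (κ : ℕ) {p : ℕ} (hp : p.Prime) : nuTup κ p = κ / p := by
  rw [nuTup_apply, hp.primeFactors, Finset.card_singleton, pow_one]

lemma card_lt_of_dvd_primProd {B : Finset ℕ} {z p : ℕ} (hp : p.Prime) (h : p ∣ primProd (tupD B) z) :
    B.card < p := by
  by_contra hcon
  apply ((dvd_primProd_iff hp).mp h).2
  unfold tupD
  exact Dvd.dvd.mul_right (hp.dvd_factorial.mpr (by omega)) _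

/-- the sieve for prime tuples -/
noncomputable def tupSieve (B : Finset ℕ) (hB : 1 ≤ B.card) (M N z : ℕ) : BoundingSieve where
  support := (Ioc M (M + N)).image (fun n => ∏ b ∈ B, (n + b))
  prodPrimes := primProd (tupD B) z
  prodPrimes_squarefree := primProd_squarefree _ _
  weights := fun _ => 1
  weights_nonneg := fun _ => zero_le_one
  totalMass := N
  nu := nuTup B.card
  nu_mult := nuTup_mult _
  nu_pos_of_prime := by
    intro p hp _
    rw [nuTup_prime _ hp]
    have h1 : (0 : ℝ) < p := by exact_mod_cast hp.pos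
    have h2 : (0 : ℝ) < B.card := by exact_mod_cast hB
    exact div_pos h2 h1
  nu_lt_one_of_prime := by
    intro p hp hpd
    rw [nuTup_prime _ hp]
    rw [div_lt_one (by exact_mod_cast hp.pos)]
    exact_mod_cast card_lt_of_dvd_primProd hp hpd

lemma inj_tup (B : Finset ℕ) (hB : 1 ≤ B.card) (M N : ℕ) :
    Set.InjOn (fun n : ℕ => ∏ b ∈ B, (n + b)) (Ioc M (M + N) : Finset ℕ) := by
  have hne : B.Nonempty := Finset.card_pos.mp (by omega)
  have hlt : ∀ a b : ℕ, 0 < a → a < b → ∏ c ∈ B, (a + c) < ∏ c ∈ B, (b + c) := by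
    intro a b ha hab
    apply Finset.prod_lt_prod_of_nonempty
    · intro i _; omega
    · intro i _; omega
    · exact hne
  intro a ha b hb hab
  simp only at hab
  have ha' := Finset.mem_Ioc.mp (Finset.mem_coe.mp ha)
  have hb' := Finset.mem_Ioc.mp (Finset.mem_coe.mp hb)
  rcases lt_trichotomy a b with h | h | h
  · exact absurd hab (hlt a b (by omega) h).ne
  · exact h
  · exact absurd hab (hlt b a (by omega) h).ne'

lemma tupSieve_multSum (B : Finset ℕ) (hB : 1 ≤ B.card) (M N z e : ℕ) :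
    (tupSieve B hB M N z).multSum e =
      (((Ioc M (M + N)).filter (fun n => e ∣ ∏ b ∈ B, (n + b))).card : ℝ) := by
  unfold BoundingSieve.multSum tupSieve
  simp only
  rw [Finset.sum_image (inj_tup B hB M N)]
  rw [Finset.card_filter]
  push_cast
  rfl

lemma pow_omega_le {B : Finset ℕ} {z e : ℕ} (he : e ∣ primProd (tupD B) z) :
    B.card ^ e.primeFactors.card ≤ e := by
  have hsq := (primProd_squarefree (tupD B) z).squarefree_of_dvd he
  calc B.card ^ e.primeFactors.card = ∏ p ∈ e.primeFactors, B.card := by rw [Finset.prod_const]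
    _ ≤ ∏ p ∈ e.primeFactors, p := by
        apply Finset.prod_le_prod'
        intro p hp
        exact (card_lt_of_dvd_primProd (Nat.prime_of_mem_primeFactors hp)
          ((Nat.dvd_of_mem_primeFactors hp).trans he)).le
    _ = e := Nat.prod_primeFactors_of_squarefree hsq

lemma tupSieve_rem (B : Finset ℕ) (hB : 1 ≤ B.card) (M N z e : ℕ) (he : e ∣ primProd (tupD B) z) :
    |(tupSieve B hB M N z).rem e| ≤ e := by
  have h1 := count_tup B M N e ((primProd_squarefree (tupD B) z).squarefree_of_dvd he)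
    (coprime_primProd _ _ he)
  unfold BoundingSieve.rem
  rw [tupSieve_multSum]
  change |_ - nuTup B.card e * (N : ℝ)| ≤ _
  rw [nuTup_apply]
  refine h1.trans ?_
  exact_mod_cast pow_omega_le he

lemma card_le_siftedSum_tup (B : Finset ℕ) (hB : 1 ≤ B.card) (M N z : ℕ) (hzM : z ≤ M) :
    (((Ioc M (M + N)).filter (fun n => ∀ b ∈ B, (n + b).Prime)).card : ℝ) ≤
      (tupSieve B hB M N z).siftedSum := by
  unfold BoundingSieve.siftedSum tupSieve
  simp only
  rw [Finset.sum_image (inj_tup B hB M N)]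
  rw [Finset.card_filter]
  push_cast
  apply Finset.sum_le_sum
  intro n hn
  rw [Finset.mem_Ioc] at hn
  by_cases h : ∀ b ∈ B, (n + b).Prime
  · have hc : Nat.Coprime (primProd (tupD B) z) (∏ b ∈ B, (n + b)) := by
      apply Nat.Coprime.prod_right
      intro b hb
      by_contra hcon
      obtain ⟨p, hp, hpe, hpD⟩ := Nat.Prime.not_coprime_iff_dvd.mp hcon
      have h1 := ((dvd_primProd_iff hp).mp hpe).1
      have h2 := (Nat.prime_dvd_prime_iff_eq hp (h b hb)).mp hpD
      omega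
    rw [if_pos h, if_pos hc]
  · rw [if_neg h]
    split_ifs <;> norm_num

lemma card_le_div_G_tup (B : Finset ℕ) (hB : 1 ≤ B.card) (M N z : ℕ) (hz : 1 ≤ z) (hzM : z ≤ M) :
    (((Ioc M (M + N)).filter (fun n => ∀ b ∈ B, (n + b).Prime)).card : ℝ) ≤
      N / G (tupSieve B hB M N z) z + (z : ℝ) ^ 6 := by
  have h := siftedSum_le (tupSieve B hB M N z) z hz (z : ℝ) ((z : ℝ) ^ 2) (by positivity)
    (by
      intro e he hez
      have he' : e ∣ primProd (tupD B) z := he
      change (nuTup B.card e)⁻¹ ≤ _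
      rw [nuTup_apply, inv_div]
      have h1 : (1 : ℝ) ≤ (B.card : ℝ) ^ e.primeFactors.card := by
        apply one_le_pow₀
        exact_mod_cast hB
      rw [div_le_iff₀ (by linarith)]
      have h2 : (e : ℝ) ≤ z := by exact_mod_cast hez
      nlinarith [h1, h2, (Nat.cast_nonneg e : (0 : ℝ) ≤ e), (Nat.cast_nonneg z : (0 : ℝ) ≤ z)])
    (by
      intro e he hez
      have := tupSieve_rem B hB M N z e he
      refine this.trans ?_
      exact_mod_cast hez)
  refine (card_le_siftedSum_tup B hB M N z hzM).trans (h.trans ?_)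
  have : (z : ℝ) ^ 2 * (z : ℝ) ^ 2 * (z : ℝ) ^ 2 = (z : ℝ) ^ 6 := by ring
  rw [this]
  exact le_rfl

lemma G_ge_tup (B : Finset ℕ) (hB : 1 ≤ B.card) (M N z : ℕ) :
    SK B.card (tupD B) z ≤ G (tupSieve B hB M N z) z := by
  unfold G SK
  have hP : primProd (tupD B) z ≠ 0 := (primProd_squarefree _ _).ne_zero
  have hsub : SQ (tupD B) z ⊆
      ((tupSieve B hB M N z).prodPrimes.divisors.filter (fun l => l ≤ z)) := by
    intro l hl
    rw [mem_SQ] at hl
    rw [Finset.mem_filter, Nat.mem_divisors]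
    exact ⟨⟨dvd_primProd_of_squarefree hl.2.1 hl.1.2 hl.2.2, hP⟩, hl.1.2⟩
  refine le_trans ?_ (Finset.sum_le_sum_of_subset_of_nonneg hsub ?_)
  · apply Finset.sum_le_sum
    intro l hl
    rw [mem_SQ] at hl
    have hlP : l ∣ (tupSieve B hB M N z).prodPrimes :=
      dvd_primProd_of_squarefree hl.2.1 hl.1.2 hl.2.2
    rw [selbergTerms_apply]
    change _ ≤ nuTup B.card l * _
    rw [nuTup_apply]
    have h1 : (1 : ℝ) ≤ ∏ p ∈ l.primeFactors, (1 - (tupSieve B hB M N z).nu p)⁻¹ := by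
      have : ∀ p ∈ l.primeFactors, (1 : ℝ) ≤ (1 - (tupSieve B hB M N z).nu p)⁻¹ := by
        intro p hp
        have hp' := Nat.prime_of_mem_primeFactors hp
        have hpP := (Nat.dvd_of_mem_primeFactors hp).trans hlP
        have h2 := (tupSieve B hB M N z).nu_lt_one_of_prime p hp' hpP
        have h3 := (tupSieve B hB M N z).nu_pos_of_prime p hp' hpP
        rw [one_le_inv₀ (by linarith)]
        linarith
      calc (1 : ℝ) = ∏ p ∈ l.primeFactors, (1 : ℝ) := by simp
        _ ≤ _ := Finset.prod_le_prod (fun _ _ => zero_le_one) this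
    have h4 : (0 : ℝ) ≤ (B.card : ℝ) ^ l.primeFactors.card / l := by positivity
    nlinarith
  · intro l hl _
    rw [Finset.mem_filter, Nat.mem_divisors] at hl
    exact (selbergTerms_pos hl.1.1).le

theorem card_tuple_le (κ : ℕ) : ∃ C : ℝ, 0 < C ∧ ∀ (B : Finset ℕ) (M N y : ℕ), B.card = κ → 2 ≤ y →
    y ^ κ ≤ M →
    (((Finset.Ioc M (M + N)).filter (fun n => ∀ b ∈ B, (n + b).Prime)).card : ℝ) ≤
      C * F (tupD B) ^ κ * N / Real.log y ^ κ + (y : ℝ) ^ (6 * κ + 6) := by
  rcases Nat.eq_zero_or_pos κ with hκ | hκ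
  · subst hκ
    refine ⟨1, one_pos, ?_⟩
    intro B M N y hB hy _
    have h1 : (((Finset.Ioc M (M + N)).filter (fun n => ∀ b ∈ B, (n + b).Prime)).card : ℝ) ≤ N := by
      have h2 := Finset.card_filter_le (Finset.Ioc M (M + N)) (fun n => ∀ b ∈ B, (n + b).Prime)
      rw [Nat.card_Ioc] at h2
      have h3 : M + N - M = N := by omega
      rw [h3] at h2
      exact_mod_cast h2
    have h4 : (0 : ℝ) ≤ (y : ℝ) ^ (6 * 0 + 6) := by positivity
    simp only [pow_zero, mul_one, one_mul, div_one]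
    linarith
  · obtain ⟨C, hC, hsk⟩ := sk_pow κ
    refine ⟨C, hC, ?_⟩
    intro B M N y hB hy hyM
    have hB1 : 1 ≤ B.card := by omega
    have hz1 : 1 ≤ y ^ κ := Nat.one_le_pow _ _ (by omega)
    have h1 := card_le_div_G_tup B hB1 M N (y ^ κ) hz1 hyM
    have h2 := G_ge_tup B hB1 M N (y ^ κ)
    rw [hB] at h2
    have h3 := hsk (tupD B) y (tupD_pos B) (by omega)
    have hlog : 0 < Real.log y := Real.log_pos (by exact_mod_cast (by omega : 1 < y))
    have hG := G_pos (tupSieve B hB1 M N (y ^ κ)) (y ^ κ) hz1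
    set G0 := G (tupSieve B hB1 M N (y ^ κ)) (y ^ κ) with hG0
    have hF : 0 ≤ F (tupD B) := F_nonneg _
    have h5 : Real.log y ^ κ ≤ C * F (tupD B) ^ κ * G0 :=
      h3.trans (mul_le_mul_of_nonneg_left h2 (by positivity))
    have h8 : (N : ℝ) / G0 ≤ C * F (tupD B) ^ κ * N / Real.log y ^ κ := by
      rw [div_le_div_iff₀ hG (by positivity)]
      have : (0 : ℝ) ≤ N := Nat.cast_nonneg N
      nlinarith
    refine h1.trans (add_le_add h8 ?_)
    push_cast
    rw [← pow_mul, mul_comm κ 6]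
    apply pow_le_pow_right₀
    · exact_mod_cast (by omega : 1 ≤ y)
    · omega

end Pool.MRZ
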