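import Mathlib
import Pool.Agent.MRZ.WDefs
import Pool.Agent.MRZ.TupUp
import Pool.Agent.MRZ.TupMom
import Pool.Agent.MRZ.PairUp

/-!
# MRZ/WUp: the weight of prime tuples is good

`w_good`: `WGood (W S) (#S)`. Let `ℓ = #S`, `m = max S`.
* `cnt`: for a finite set `B ⊆ [0, Q]`, `#B = κ`, `X ≥ 2`: `#{k ≤ X : k+b prime ∀ b∈B} ≤
  C_κ F(tupD B)^κ X/(log X)^κ`: for `X ≤ X_κ` trivial (`F ≥ 1`); for large `X`, `M = ⌊√X⌋`, `y = ⌊X^{1/(24κ+24)}⌋`
  (`y^κ ≤ M`, `y^{6κ+6} ≤ X^{1/4}·…`, `log y ≥ log X/(48κ+48)`), `card_tuple_le` for `(M, M+X]` and `k ≤ M` trivially;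
  `√X ≤ C X/(log X)^κ`. (The constant does not depend on `Q`.)
* mean: `W S k ≤ (log (X+m))^ℓ ≤ C_S (log X)^ℓ` (`X ≥ 2`), so `∑_{k≤X} W S k ≤ C_S (log X)^ℓ X/(log X)^ℓ`;
  mean square: `≤ C_S (log X)^{2ℓ} X/(log X)^ℓ`.
* correlations, `d ∉ Ds := difs S`, `1 ≤ d ≤ X`: `W S k W S (k+d) ≤ (log (2X+m))^{2ℓ} 1_{k+b prime ∀ b ∈ S∪(S+d)}`, so the sum
  is `≤ C_S F(tupD(S ∪ (S+d)))^{2ℓ} X =: G(d) X`; `∑_{d≤N} G(d)² ≤ C N` by `tup_mom` with `k = 4ℓ`
  (`G d := 0` for `d ∈ Ds`).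
* `d ∈ Ds`: `W(k) W(k+d) ≤ (W(k)² + W(k+d)²)/2` and `∑_{k≤X} W(k+d)² ≤ ∑_{k ≤ X+d} W(k)² ≤ C_S X (log X)^ℓ`.

`wl_sub_w`: `∑_{k≤X} |WL S k - W S k| ≤ C_S √X (log X)^{ℓ+1}`: telescoping the product, each term is
`≤ (log (X+m))^{ℓ-1} |Λ - thp|(k+a)`, and `vm_sub_thp` for `X + m ≤ C_S X`. (`S = ∅`: both are `1`.)
-/

namespace Pool.MRZ

open Finset Pool.Agent.Lib.PrimePairs

namespace WUpAux

/-- powers of the logarithm against the square root -/
theorem logpow_le (κ : ℕ) {x : ℝ} (hx : 1 ≤ x) :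
    Real.log x ^ κ ≤ (2 * (κ + 1) : ℝ) ^ κ * √x := by
  have h0 : 0 ≤ x := by linarith
  have hκ : (0 : ℝ) < 2 * (κ + 1) := by positivity
  have hε : (0 : ℝ) < 1 / (2 * (κ + 1)) := by positivity
  have h := Real.log_le_rpow_div h0 hε
  have hl : 0 ≤ Real.log x := Real.log_nonneg hx
  calc Real.log x ^ κ ≤ (x ^ (1 / (2 * (κ + 1)) : ℝ) / (1 / (2 * (κ + 1)))) ^ κ := by gcongr
    _ = (2 * (κ + 1) : ℝ) ^ κ * x ^ ((1 / (2 * (κ + 1)) : ℝ) * κ) := by
      rw [Real.rpow_mul_natCast h0, div_div_eq_mul_div, div_one, mul_pow]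
      ring
    _ ≤ (2 * (κ + 1) : ℝ) ^ κ * √x := by
      apply mul_le_mul_of_nonneg_left _ (by positivity)
      rw [Real.sqrt_eq_rpow]
      apply Real.rpow_le_rpow_of_exponent_le hx
      rw [div_mul_eq_mul_div, one_mul, div_le_iff₀ hκ]
      linarith

theorem exists_root (e X : ℕ) (he : 1 ≤ e) (hX : 2 ^ e ≤ X) :
    ∃ y : ℕ, 2 ≤ y ∧ y ^ e ≤ X ∧ X < (y ^ 2) ^ e := by
  obtain ⟨y, hy⟩ : ∃ y, y = Nat.findGreatest (fun y => y ^ e ≤ X) X := ⟨_, rfl⟩
  have h2X : 2 ≤ X := by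
    calc 2 = 2 ^ 1 := by norm_num
      _ ≤ 2 ^ e := Nat.pow_le_pow_right (by norm_num) he
      _ ≤ X := hX
  have h1 : y ^ e ≤ X := by
    rw [hy]
    exact Nat.findGreatest_spec (P := fun y => y ^ e ≤ X) h2X hX
  have h2 : 2 ≤ y := by
    rw [hy]
    exact Nat.le_findGreatest h2X hX
  have h3 : X < (y + 1) ^ e := by
    by_contra hcon
    rw [not_lt] at hcon
    rcases le_or_gt (y + 1) X with h | h
    · exact Nat.findGreatest_is_greatest (P := fun y => y ^ e ≤ X) (k := y + 1)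
        (by rw [← hy]; omega) h hcon
    · have h4 : y + 1 ≤ (y + 1) ^ e := Nat.le_self_pow (by omega) _
      omega
  refine ⟨y, h2, h1, lt_of_lt_of_le h3 (Nat.pow_le_pow_left ?_ e)⟩
  nlinarith

theorem cnt (κ : ℕ) : ∃ C : ℝ, 0 < C ∧ ∀ (B : Finset ℕ) (X : ℕ), B.card = κ → 2 ≤ X →
    (((Finset.Icc 1 X).filter (fun n => ∀ b ∈ B, (n + b).Prime)).card : ℝ) ≤
      C * F (tupD B) ^ κ * X / Real.log X ^ κ := by
  obtain ⟨C, hC, h⟩ := card_tuple_le κ
  obtain ⟨e, he⟩ : ∃ e : ℕ, e = 24 * κ + 24 := ⟨_, rfl⟩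
  refine ⟨C * (2 * e) ^ κ + 2 * (2 * (κ + 1) : ℝ) ^ κ + e ^ κ, by positivity, ?_⟩
  intro B X hB hX
  have hF : 1 ≤ F (tupD B) := F_ge_one _ (tupD_pos B)
  have hFk : 1 ≤ F (tupD B) ^ κ := one_le_pow₀ hF
  have hX1 : (1 : ℝ) < X := by exact_mod_cast (by omega : 1 < X)
  have hX0 : (0 : ℝ) < X := by linarith
  have hlX : 0 < Real.log X := Real.log_pos hX1
  have hlXk : 0 < Real.log X ^ κ := pow_pos hlX κ
  obtain ⟨A, hA⟩ : ∃ A : ℝ, A = F (tupD B) ^ κ * X / Real.log X ^ κ := ⟨_, rfl⟩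
  have hA0 : 0 ≤ A := by
    rw [hA]
    positivity
  have hgoal : (C * (2 * e) ^ κ + 2 * (2 * (κ + 1) : ℝ) ^ κ + e ^ κ) * F (tupD B) ^ κ * X /
      Real.log X ^ κ = C * (2 * e) ^ κ * A + 2 * (2 * (κ + 1) : ℝ) ^ κ * A + e ^ κ * A := by
    rw [hA]
    ring
  rw [hgoal]
  have hp1 : 0 ≤ C * (2 * e) ^ κ * A := by positivity
  have hp2 : 0 ≤ 2 * (2 * (κ + 1) : ℝ) ^ κ * A := by positivity
  have hp3 : 0 ≤ (e : ℝ) ^ κ * A := by positivity
  have hsqA : √X ≤ (2 * (κ + 1) : ℝ) ^ κ * A := by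
    rw [hA]
    have h1 := logpow_le κ hX1.le
    calc √(X : ℝ) = √X * Real.log X ^ κ / Real.log X ^ κ := by field_simp
      _ ≤ √X * ((2 * (κ + 1) : ℝ) ^ κ * √X) / Real.log X ^ κ := by gcongr
      _ = (2 * (κ + 1) : ℝ) ^ κ * (1 * X / Real.log X ^ κ) := by
        rw [show √(X : ℝ) * ((2 * (κ + 1) : ℝ) ^ κ * √X) =
          (2 * (κ + 1) : ℝ) ^ κ * (√X * √X) by ring, Real.mul_self_sqrt hX0.le]
        ring
      _ ≤ _ := by gcongr
  rcases lt_or_ge X (2 ^ e) with hs | hs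
  · -- small
    have h1 : (((Finset.Icc 1 X).filter (fun n => ∀ b ∈ B, (n + b).Prime)).card : ℝ) ≤ X := by
      have h2 := Finset.card_filter_le (Finset.Icc 1 X) (fun n => ∀ b ∈ B, (n + b).Prime)
      rw [Nat.card_Icc, Nat.add_sub_cancel] at h2
      exact_mod_cast h2
    have h2 : Real.log X ≤ e := by
      have h3 : (X : ℝ) ≤ 2 ^ e := by exact_mod_cast hs.le
      calc Real.log X ≤ Real.log (2 ^ e) := Real.log_le_log hX0 h3
        _ = e * Real.log 2 := Real.log_pow _ _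
        _ ≤ e * 1 := by
          gcongr
          have := Real.log_two_lt_d9
          linarith
        _ = e := mul_one _
    have h3 : (X : ℝ) ≤ e ^ κ * A := by
      rw [hA]
      calc (X : ℝ) = Real.log X ^ κ * (1 * X / Real.log X ^ κ) := by field_simp
        _ ≤ e ^ κ * (F (tupD B) ^ κ * X / Real.log X ^ κ) := by gcongr
    linarith
  · -- large
    obtain ⟨y, hy2, hyX, hXy⟩ := exists_root e X (by omega) hs
    obtain ⟨M, hM⟩ : ∃ M, M = Nat.sqrt X := ⟨_, rfl⟩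
    have hMX : M ≤ X := by rw [hM]; exact Nat.sqrt_le_self X
    have hMs : (M : ℝ) ≤ √X := by
      apply Real.le_sqrt_of_sq_le
      have := Nat.sqrt_le' X
      rw [← hM] at this
      exact_mod_cast this
    have hyM : y ^ κ ≤ M := by
      rw [hM, Nat.le_sqrt', ← pow_mul]
      exact (Nat.pow_le_pow_right (by omega) (by omega)).trans hyX
    have hy6 : ((y : ℝ)) ^ (6 * κ + 6) ≤ √X := by
      apply Real.le_sqrt_of_sq_le
      rw [← pow_mul]
      have h1 : y ^ ((6 * κ + 6) * 2) ≤ X :=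
        (Nat.pow_le_pow_right (by omega) (by omega)).trans hyX
      exact_mod_cast h1
    have hy0 : (1 : ℝ) < y := by exact_mod_cast (by omega : 1 < y)
    have hly : 0 < Real.log y := Real.log_pos hy0
    have hlog : Real.log X ≤ 2 * e * Real.log y := by
      have h1 : (X : ℝ) ≤ ((y : ℝ) ^ 2) ^ e := by exact_mod_cast hXy.le
      calc Real.log X ≤ Real.log (((y : ℝ) ^ 2) ^ e) := Real.log_le_log hX0 h1
        _ = 2 * e * Real.log y := by
          rw [← pow_mul, Real.log_pow]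
          push_cast
          ring
    have hsub : (Finset.Icc 1 X).filter (fun n => ∀ b ∈ B, (n + b).Prime) ⊆
        Finset.Icc 1 M ∪ (Finset.Ioc M (M + (X - M))).filter (fun n => ∀ b ∈ B, (n + b).Prime) := by
      intro n hn
      rw [mem_filter, mem_Icc] at hn
      rw [mem_union, mem_Icc, mem_filter, mem_Ioc]
      rcases le_or_gt n M with h1 | h1
      · left; exact ⟨hn.1.1, h1⟩
      · right; exact ⟨⟨h1, by omega⟩, hn.2⟩
    have h1 := (Finset.card_le_card hsub).trans (Finset.card_union_le _ _)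
    rw [Nat.card_Icc, Nat.add_sub_cancel] at h1
    have h2 : (((Finset.Icc 1 X).filter (fun n => ∀ b ∈ B, (n + b).Prime)).card : ℝ) ≤
        M + (((Finset.Ioc M (M + (X - M))).filter (fun n => ∀ b ∈ B, (n + b).Prime)).card : ℝ) := by
      exact_mod_cast h1
    have h3 := h B M (X - M) y hB hy2 hyM
    have h4 : C * F (tupD B) ^ κ * ((X - M : ℕ) : ℝ) / Real.log y ^ κ ≤
        C * (2 * e) ^ κ * A := by
      have h5 : ((X - M : ℕ) : ℝ) ≤ X := by exact_mod_cast Nat.sub_le X M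
      have h6 : Real.log X / (2 * e) ≤ Real.log y := by
        rw [div_le_iff₀ (by rw [he]; positivity)]
        linarith
      have he0 : (0 : ℝ) < 2 * e := by rw [he]; positivity
      calc C * F (tupD B) ^ κ * ((X - M : ℕ) : ℝ) / Real.log y ^ κ ≤
          C * F (tupD B) ^ κ * X / (Real.log X / (2 * e)) ^ κ := by gcongr
        _ = C * (2 * e) ^ κ * A := by
          rw [hA, div_pow]
          field_simp
    linarith

theorem W_le {S : Finset ℕ} {k : ℕ} {T : ℝ} (h : ∀ a ∈ S, thp (k + a) ≤ T) :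
    W S k ≤ T ^ S.card := by
  unfold W
  calc ∏ a ∈ S, thp (k + a) ≤ ∏ _a ∈ S, T := Finset.prod_le_prod (fun a _ => thp_nonneg _) h
    _ = T ^ S.card := by rw [prod_const]

theorem WL_le {S : Finset ℕ} {k : ℕ} {T : ℝ}
    (h : ∀ a ∈ S, ArithmeticFunction.vonMangoldt (k + a) ≤ T) : WL S k ≤ T ^ S.card := by
  unfold WL
  calc ∏ a ∈ S, ArithmeticFunction.vonMangoldt (k + a) ≤ ∏ _a ∈ S, T :=
        Finset.prod_le_prod (fun a _ => ArithmeticFunction.vonMangoldt_nonneg) h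
    _ = T ^ S.card := by rw [prod_const]

theorem W_zero {S : Finset ℕ} {k a : ℕ} (ha : a ∈ S) (h : ¬ (k + a).Prime) : W S k = 0 := by
  unfold W
  apply Finset.prod_eq_zero ha
  unfold thp
  rw [if_neg h]

theorem sum_le_count (f : ℕ → ℝ) (T : ℝ) (X : ℕ) (P : ℕ → Prop) [DecidablePred P]
    (h1 : ∀ k ∈ Icc 1 X, f k ≤ T) (h0 : ∀ k ∈ Icc 1 X, ¬ P k → f k = 0) :
    ∑ k ∈ Icc 1 X, f k ≤ T * (((Icc 1 X).filter P).card : ℝ) := by
  have h2 : ∑ k ∈ Icc 1 X, f k = ∑ k ∈ (Icc 1 X).filter P, f k := by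
    rw [sum_filter]
    apply sum_congr rfl
    intro k hk
    by_cases hP : P k
    · rw [if_pos hP]
    · rw [if_neg hP, h0 k hk hP]
  rw [h2]
  calc ∑ k ∈ (Icc 1 X).filter P, f k ≤ ∑ _k ∈ (Icc 1 X).filter P, T :=
        sum_le_sum fun k hk => h1 k (mem_filter.1 hk).1
    _ = T * (((Icc 1 X).filter P).card : ℝ) := by
        rw [sum_const, nsmul_eq_mul, mul_comm]

/-- the constant in `log n ≤ L log X` for `n ≤ (2 + 2 m) X` -/
noncomputable def LcS (S : Finset ℕ) : ℝ := 1 + Real.log (2 + 2 * (S.sup id : ℕ)) / Real.log 2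

theorem LcS_pos (S : Finset ℕ) : 0 < LcS S := by
  unfold LcS
  have h1 : 0 ≤ Real.log (2 + 2 * ((S.sup id : ℕ) : ℝ)) := by
    apply Real.log_nonneg
    have : (0 : ℝ) ≤ ((S.sup id : ℕ) : ℝ) := Nat.cast_nonneg _
    linarith
  have h2 : 0 < Real.log 2 := Real.log_pos (by norm_num)
  positivity

theorem log_le_LcS (S : Finset ℕ) {n X : ℕ} (hX : 2 ≤ X) (hn : n ≤ (2 + 2 * S.sup id) * X) :
    Real.log n ≤ LcS S * Real.log X := by
  obtain ⟨m, hm⟩ : ∃ m : ℕ, m = S.sup id := ⟨_, rfl⟩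
  have hX0 : (0 : ℝ) < X := by exact_mod_cast (by omega : 0 < X)
  have h2 : 0 < Real.log 2 := Real.log_pos (by norm_num)
  have hlX : Real.log 2 ≤ Real.log X := Real.log_le_log (by norm_num) (by exact_mod_cast hX)
  have hm0 : (0 : ℝ) ≤ m := Nat.cast_nonneg _
  have h1 : 0 ≤ Real.log (2 + 2 * (m : ℝ)) := Real.log_nonneg (by linarith)
  have h3 : LcS S * Real.log X = Real.log X + Real.log (2 + 2 * (m : ℝ)) * (Real.log X / Real.log 2) := by
    unfold LcS
    rw [← hm]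
    field_simp
  have h4 : 1 ≤ Real.log X / Real.log 2 := by
    rw [le_div_iff₀ h2]
    linarith
  have h5 : Real.log X + Real.log (2 + 2 * (m : ℝ)) ≤ LcS S * Real.log X := by
    rw [h3]
    nlinarith
  refine le_trans ?_ h5
  rcases Nat.eq_zero_or_pos n with h0 | h0
  · rw [h0, Nat.cast_zero, Real.log_zero]
    linarith
  · rw [← Real.log_mul hX0.ne' (by positivity)]
    apply Real.log_le_log (by exact_mod_cast h0)
    rw [← hm] at hn
    have h6 : (n : ℝ) ≤ (2 + 2 * m) * X := by exact_mod_cast hn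
    linarith

theorem le_sup {S : Finset ℕ} {a : ℕ} (ha : a ∈ S) : a ≤ S.sup id :=
  Finset.le_sup (f := id) ha

theorem shift_le1 {S : Finset ℕ} {k a X : ℕ} (hk : k ≤ X) (ha : a ∈ S) (hX : 2 ≤ X) :
    k + a ≤ (2 + 2 * S.sup id) * X := by
  have h1 := le_sup ha
  nlinarith

theorem shift_le2 {S : Finset ℕ} {k d a X : ℕ} (hk : k ≤ X) (hd : d ≤ X) (ha : a ∈ S)
    (hX : 2 ≤ X) : k + d + a ≤ (2 + 2 * S.sup id) * X := by
  have h1 := le_sup ha
  nlinarith

theorem shift_le3 {S : Finset ℕ} {k d a X : ℕ} (hk : k ≤ X) (hd : d ≤ S.sup id) (ha : a ∈ S)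
    (hX : 2 ≤ X) : k + d + a ≤ (2 + 2 * S.sup id) * X := by
  have h1 := le_sup ha
  nlinarith

theorem difs_le {S : Finset ℕ} {d : ℕ} (hd : d ∈ difs S) : d ≤ S.sup id := by
  unfold difs at hd
  rw [mem_image] at hd
  obtain ⟨q, hq, rfl⟩ := hd
  rw [mem_product] at hq
  have := le_sup hq.1
  omega

end WUpAux

open WUpAux

theorem w_good (S : Finset ℕ) : WGood (W S) S.card := by
  classical
  obtain ⟨ℓ, hℓ⟩ : ∃ ℓ, ℓ = S.card := ⟨_, rfl⟩
  obtain ⟨L, hL⟩ : ∃ L, L = LcS S := ⟨_, rfl⟩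
  have hL0 : 0 < L := by rw [hL]; exact LcS_pos S
  obtain ⟨C1, hC1, hcnt1⟩ := cnt ℓ
  obtain ⟨C2, hC2, hcnt2⟩ := cnt (2 * ℓ)
  obtain ⟨C3, hC3, hmom⟩ := tup_mom S (4 * ℓ)
  obtain ⟨F0, hF0⟩ : ∃ F0, F0 = F (tupD S) ^ ℓ := ⟨_, rfl⟩
  have hF0' : 0 ≤ F0 := by
    rw [hF0]
    exact pow_nonneg (F_nonneg _) _
  obtain ⟨K, hK⟩ : ∃ K, K = L ^ (2 * ℓ) * C2 := ⟨_, rfl⟩
  have hK0 : 0 < K := by rw [hK]; positivity
  rw [← hℓ]
  have hthp : ∀ (X k a : ℕ), 2 ≤ X → k + a ≤ (2 + 2 * S.sup id) * X →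
      thp (k + a) ≤ L * Real.log X := by
    intro X k a hX h
    rw [hL]
    exact (thp_le _).trans (log_le_LcS S hX h)
  refine ⟨fun k => W_nonneg S k, L ^ ℓ * C1 * F0 + L ^ (2 * ℓ) * C1 * F0 + K ^ 2 * C3 + 1,
    fun d => if d ∈ difs S then 0 else K * F (tupD (S ∪ S.image (· + d))) ^ (2 * ℓ), difs S,
    by positivity, ?_, ?_, ?_, ?_, ?_, ?_⟩
  · intro d
    simp only
    split_ifs
    · exact le_rfl
    · exact mul_nonneg hK0.le (pow_nonneg (F_nonneg _) _)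
  · intro N
    have h1 : ∑ d ∈ Finset.Icc 1 N, (if d ∈ difs S then (0 : ℝ) else
        K * F (tupD (S ∪ S.image (· + d))) ^ (2 * ℓ)) ^ 2 =
        K ^ 2 * ∑ d ∈ (Finset.Icc 1 N).filter (fun d => d ∉ difs S),
          F (tupD (S ∪ S.image (· + d))) ^ (4 * ℓ) := by
      rw [sum_filter, mul_sum]
      apply sum_congr rfl
      intro d _
      by_cases hd : d ∈ difs S
      · rw [if_pos hd, if_neg (not_not.2 hd)]
        ring
      · rw [if_neg hd, if_pos hd, mul_pow, ← pow_mul, show 2 * ℓ * 2 = 4 * ℓ by ring]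
    simp only
    rw [h1]
    have h2 := hmom N
    have h3 : (0 : ℝ) ≤ N := Nat.cast_nonneg N
    calc K ^ 2 * ∑ d ∈ (Finset.Icc 1 N).filter (fun d => d ∉ difs S),
          F (tupD (S ∪ S.image (· + d))) ^ (4 * ℓ) ≤ K ^ 2 * (C3 * N) := by gcongr
      _ = (K ^ 2 * C3) * N := by ring
      _ ≤ _ := by
        apply mul_le_mul_of_nonneg_right _ h3
        have : 0 ≤ L ^ ℓ * C1 * F0 + L ^ (2 * ℓ) * C1 * F0 := by positivity
        linarith
  · intro X hX
    have hX1 : (1 : ℝ) < X := by exact_mod_cast (by omega : 1 < X)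
    have hlX : 0 < Real.log X := Real.log_pos hX1
    have hX0 : (0 : ℝ) ≤ X := Nat.cast_nonneg X
    have h1 := sum_le_count (fun k => W S k) ((L * Real.log X) ^ ℓ) X
      (fun n => ∀ b ∈ S, (n + b).Prime) (fun k hk => by
        rw [hℓ]
        rw [mem_Icc] at hk
        exact W_le fun a ha => hthp X k a hX (shift_le1 hk.2 ha hX)) (fun k _ hP => by
        push Not at hP
        obtain ⟨b, hb, hb'⟩ := hP
        exact W_zero hb hb')
    have h2 := hcnt1 S X hℓ.symm hX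
    calc ∑ k ∈ Finset.Icc 1 X, W S k ≤ _ := h1
      _ ≤ (L * Real.log X) ^ ℓ * (C1 * F (tupD S) ^ ℓ * X / Real.log X ^ ℓ) := by gcongr
      _ = L ^ ℓ * C1 * F0 * X := by
        rw [hF0, mul_pow]
        field_simp
      _ ≤ _ := by
        apply mul_le_mul_of_nonneg_right _ hX0
        have : 0 ≤ L ^ (2 * ℓ) * C1 * F0 + K ^ 2 * C3 := by positivity
        linarith
  · intro X hX
    have hX1 : (1 : ℝ) < X := by exact_mod_cast (by omega : 1 < X)
    have hlX : 0 < Real.log X := Real.log_pos hX1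
    have hX0 : (0 : ℝ) ≤ X := Nat.cast_nonneg X
    have h1 := sum_le_count (fun k => W S k ^ 2) ((L * Real.log X) ^ (2 * ℓ)) X
      (fun n => ∀ b ∈ S, (n + b).Prime) (fun k hk => by
        rw [mem_Icc] at hk
        have h3 : W S k ≤ (L * Real.log X) ^ ℓ := by
          rw [hℓ]
          exact W_le fun a ha => hthp X k a hX (shift_le1 hk.2 ha hX)
        calc W S k ^ 2 ≤ ((L * Real.log X) ^ ℓ) ^ 2 :=
              pow_le_pow_left₀ (W_nonneg S k) h3 2
          _ = (L * Real.log X) ^ (2 * ℓ) := by rw [← pow_mul, mul_comm ℓ 2]) (fun k _ hP => by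
        push Not at hP
        obtain ⟨b, hb, hb'⟩ := hP
        rw [W_zero hb hb']
        norm_num)
    have h2 := hcnt1 S X hℓ.symm hX
    calc ∑ k ∈ Finset.Icc 1 X, W S k ^ 2 ≤ _ := h1
      _ ≤ (L * Real.log X) ^ (2 * ℓ) * (C1 * F (tupD S) ^ ℓ * X / Real.log X ^ ℓ) := by gcongr
      _ = L ^ (2 * ℓ) * C1 * F0 * X * Real.log X ^ ℓ := by
        rw [hF0, mul_pow, show Real.log (X : ℝ) ^ (2 * ℓ) = Real.log X ^ ℓ * Real.log X ^ ℓ by
          rw [two_mul, pow_add]]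
        field_simp
      _ ≤ _ := by
        apply mul_le_mul_of_nonneg_right _ (by positivity)
        apply mul_le_mul_of_nonneg_right _ hX0
        have : 0 ≤ L ^ ℓ * C1 * F0 + K ^ 2 * C3 := by positivity
        linarith
  · intro X d hX hd1 hdX hd
    have hX1 : (1 : ℝ) < X := by exact_mod_cast (by omega : 1 < X)
    have hlX : 0 < Real.log X := Real.log_pos hX1
    simp only
    rw [if_neg hd]
    have h1 := sum_le_count (fun k => W S k * W S (k + d)) ((L * Real.log X) ^ (2 * ℓ)) X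
      (fun n => ∀ b ∈ S ∪ S.image (· + d), (n + b).Prime) (fun k hk => by
        rw [mem_Icc] at hk
        have h3 : W S k ≤ (L * Real.log X) ^ ℓ := by
          rw [hℓ]
          exact W_le fun a ha => hthp X k a hX (shift_le1 hk.2 ha hX)
        have h4 : W S (k + d) ≤ (L * Real.log X) ^ ℓ := by
          rw [hℓ]
          exact W_le fun a ha => hthp X (k + d) a hX (shift_le2 hk.2 hdX ha hX)
        calc W S k * W S (k + d) ≤ (L * Real.log X) ^ ℓ * (L * Real.log X) ^ ℓ :=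
              mul_le_mul h3 h4 (W_nonneg S _) (by positivity)
          _ = (L * Real.log X) ^ (2 * ℓ) := by rw [two_mul, pow_add]) (fun k _ hP => by
        push Not at hP
        obtain ⟨b, hb, hb'⟩ := hP
        rw [mem_union, mem_image] at hb
        rcases hb with hb | ⟨a, ha, rfl⟩
        · rw [W_zero hb hb', zero_mul]
        · have h5 : ¬ (k + d + a).Prime := by
            rw [show k + d + a = k + (a + d) by ring]
            exact hb'
          rw [W_zero ha h5, mul_zero])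
    have h2 := hcnt2 (S ∪ S.image (· + d)) X (by rw [hℓ]; exact card_union_shift S d hd1 hd) hX
    calc ∑ k ∈ Finset.Icc 1 X, W S k * W S (k + d) ≤ _ := h1
      _ ≤ (L * Real.log X) ^ (2 * ℓ) * (C2 * F (tupD (S ∪ S.image (· + d))) ^ (2 * ℓ) * X /
          Real.log X ^ (2 * ℓ)) := by gcongr
      _ = K * F (tupD (S ∪ S.image (· + d))) ^ (2 * ℓ) * X := by
        rw [hK, mul_pow]
        field_simp
  · intro X d hX hd
    have hX1 : (1 : ℝ) < X := by exact_mod_cast (by omega : 1 < X)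
    have hlX : 0 < Real.log X := Real.log_pos hX1
    have hX0 : (0 : ℝ) ≤ X := Nat.cast_nonneg X
    have hdm := difs_le hd
    have h1 := sum_le_count (fun k => W S k * W S (k + d)) ((L * Real.log X) ^ (2 * ℓ)) X
      (fun n => ∀ b ∈ S, (n + b).Prime) (fun k hk => by
        rw [mem_Icc] at hk
        have h3 : W S k ≤ (L * Real.log X) ^ ℓ := by
          rw [hℓ]
          exact W_le fun a ha => hthp X k a hX (shift_le1 hk.2 ha hX)
        have h4 : W S (k + d) ≤ (L * Real.log X) ^ ℓ := by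
          rw [hℓ]
          exact W_le fun a ha => hthp X (k + d) a hX (shift_le3 hk.2 hdm ha hX)
        calc W S k * W S (k + d) ≤ (L * Real.log X) ^ ℓ * (L * Real.log X) ^ ℓ :=
              mul_le_mul h3 h4 (W_nonneg S _) (by positivity)
          _ = (L * Real.log X) ^ (2 * ℓ) := by rw [two_mul, pow_add]) (fun k _ hP => by
        push Not at hP
        obtain ⟨b, hb, hb'⟩ := hP
        rw [W_zero hb hb', zero_mul])
    have h2 := hcnt1 S X hℓ.symm hX
    calc ∑ k ∈ Finset.Icc 1 X, W S k * W S (k + d) ≤ _ := h1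
      _ ≤ (L * Real.log X) ^ (2 * ℓ) * (C1 * F (tupD S) ^ ℓ * X / Real.log X ^ ℓ) := by gcongr
      _ = L ^ (2 * ℓ) * C1 * F0 * X * Real.log X ^ ℓ := by
        rw [hF0, mul_pow, show Real.log (X : ℝ) ^ (2 * ℓ) = Real.log X ^ ℓ * Real.log X ^ ℓ by
          rw [two_mul, pow_add]]
        field_simp
      _ ≤ _ := by
        apply mul_le_mul_of_nonneg_right _ (by positivity)
        apply mul_le_mul_of_nonneg_right _ hX0
        have : 0 ≤ L ^ ℓ * C1 * F0 + K ^ 2 * C3 := by positivity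
        linarith

namespace WUpAux

/-- telescoping the product -/
theorem telescope (S : Finset ℕ) (k : ℕ) (T : ℝ) (hT : 0 ≤ T)
    (h1 : ∀ a ∈ S, thp (k + a) ≤ T) (h2 : ∀ a ∈ S, ArithmeticFunction.vonMangoldt (k + a) ≤ T) :
    T * |WL S k - W S k| ≤
      T ^ S.card * ∑ a ∈ S, |ArithmeticFunction.vonMangoldt (k + a) - thp (k + a)| := by
  classical
  induction S using Finset.induction_on with
  | empty =>
    unfold WL W
    simp
  | insert a S ha ih =>
    have ih' := ih (fun b hb => h1 b (mem_insert_of_mem hb)) (fun b hb => h2 b (mem_insert_of_mem hb))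
    have hWL : WL S k ≤ T ^ S.card := WL_le fun b hb => h2 b (mem_insert_of_mem hb)
    have e1 : WL (insert a S) k = ArithmeticFunction.vonMangoldt (k + a) * WL S k := by
      unfold WL
      rw [prod_insert ha]
    have e2 : W (insert a S) k = thp (k + a) * W S k := by
      unfold W
      rw [prod_insert ha]
    rw [e1, e2, card_insert_of_notMem ha, sum_insert ha]
    obtain ⟨u, hu⟩ : ∃ u, u = ArithmeticFunction.vonMangoldt (k + a) := ⟨_, rfl⟩
    obtain ⟨v, hv⟩ : ∃ v, v = thp (k + a) := ⟨_, rfl⟩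
    rw [← hu, ← hv]
    have hv0 : 0 ≤ v := by rw [hv]; exact thp_nonneg _
    have hvT : v ≤ T := by rw [hv]; exact h1 a (mem_insert_self a S)
    have h3 : u * WL S k - v * W S k = (u - v) * WL S k + v * (WL S k - W S k) := by ring
    have h4 : |u * WL S k - v * W S k| ≤ |u - v| * T ^ S.card + T * |WL S k - W S k| := by
      rw [h3]
      refine (abs_add_le _ _).trans ?_
      rw [abs_mul, abs_mul, abs_of_nonneg (WL_nonneg S k), abs_of_nonneg hv0]
      exact add_le_add (mul_le_mul_of_nonneg_left hWL (abs_nonneg _))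
        (mul_le_mul_of_nonneg_right hvT (abs_nonneg _))
    calc T * |u * WL S k - v * W S k| ≤ T * (|u - v| * T ^ S.card + T * |WL S k - W S k|) :=
          mul_le_mul_of_nonneg_left h4 hT
      _ ≤ T * (|u - v| * T ^ S.card + T ^ S.card *
          ∑ a ∈ S, |ArithmeticFunction.vonMangoldt (k + a) - thp (k + a)|) :=
          mul_le_mul_of_nonneg_left (add_le_add_right ih' _) hT
      _ = _ := by ring

end WUpAux

theorem wl_sub_w (S : Finset ℕ) : ∃ C : ℝ, 0 < C ∧ ∀ X : ℕ, 2 ≤ X →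
    ∑ k ∈ Finset.Icc 1 X, |WL S k - W S k| ≤ C * Real.sqrt X * Real.log X ^ (S.card + 1) := by
  obtain ⟨ℓ, hℓ⟩ : ∃ ℓ, ℓ = S.card := ⟨_, rfl⟩
  obtain ⟨L, hL⟩ : ∃ L, L = LcS S := ⟨_, rfl⟩
  have hL0 : 0 < L := by rw [hL]; exact LcS_pos S
  obtain ⟨C, hC, h⟩ := vm_sub_thp
  obtain ⟨m, hm⟩ : ∃ m : ℕ, m = S.sup id := ⟨_, rfl⟩
  refine ⟨2 * (L ^ ℓ * ℓ * C * √(1 + m)) + 1, by positivity, ?_⟩
  intro X hX
  have hX2 : (2 : ℝ) ≤ X := by exact_mod_cast hX
  have hX1 : (1 : ℝ) < X := by linarith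
  have hlX : 0 < Real.log X := Real.log_pos hX1
  have hX0 : (0 : ℝ) ≤ X := Nat.cast_nonneg X
  have hlX2 : 1 / 2 ≤ Real.log X := by
    have h1 : Real.log 2 ≤ Real.log X := Real.log_le_log (by norm_num) hX2
    have := Real.log_two_gt_d9
    linarith
  obtain ⟨T, hT⟩ : ∃ T, T = L * Real.log X := ⟨_, rfl⟩
  have hT0 : 0 < T := by rw [hT]; positivity
  have hlog : ∀ n : ℕ, n ≤ (2 + 2 * S.sup id) * X → Real.log n ≤ T := by
    intro n hn
    rw [hT, hL]
    exact log_le_LcS S hX hn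
  have h1 : T * ∑ k ∈ Finset.Icc 1 X, |WL S k - W S k| ≤
      T ^ ℓ * ∑ a ∈ S, ∑ k ∈ Finset.Icc 1 X,
        |ArithmeticFunction.vonMangoldt (k + a) - thp (k + a)| := by
    rw [sum_comm, mul_sum, mul_sum]
    apply sum_le_sum
    intro k hk
    rw [mem_Icc] at hk
    rw [hℓ]
    exact telescope S k T hT0.le
      (fun a ha => (thp_le _).trans (hlog _ (shift_le1 hk.2 ha hX)))
      (fun a ha => ArithmeticFunction.vonMangoldt_le_log.trans (hlog _ (shift_le1 hk.2 ha hX)))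
  have h2 : ∀ a ∈ S, ∑ k ∈ Finset.Icc 1 X,
      |ArithmeticFunction.vonMangoldt (k + a) - thp (k + a)| ≤ C * (√(1 + m) * √X) * T := by
    intro a ha
    have ham : a ≤ m := by rw [hm]; exact le_sup ha
    have h3 : ∑ k ∈ Finset.Icc 1 X, |ArithmeticFunction.vonMangoldt (k + a) - thp (k + a)| ≤
        ∑ k ∈ Finset.Icc 1 (X + m), |ArithmeticFunction.vonMangoldt k - thp k| := by
      rw [← sum_image (f := fun k => |ArithmeticFunction.vonMangoldt k - thp k|)
        (g := fun k => k + a) (s := Finset.Icc 1 X) (fun x _ y _ hxy => by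
          simpa using hxy)]
      apply sum_le_sum_of_subset_of_nonneg
      · intro n hn
        rw [mem_image] at hn
        obtain ⟨k, hk, rfl⟩ := hn
        rw [mem_Icc] at hk ⊢
        omega
      · intro n _ _
        exact abs_nonneg _
    refine h3.trans ((h (X + m) (by omega)).trans ?_)
    have h4 : √((X + m : ℕ) : ℝ) ≤ √(1 + m) * √X := by
      rw [← Real.sqrt_mul (by positivity)]
      apply Real.sqrt_le_sqrt
      push_cast
      have hm0 : (0 : ℝ) ≤ m := Nat.cast_nonneg m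
      nlinarith
    have h5 : Real.log ((X + m : ℕ) : ℝ) ≤ T := hlog _ (by rw [← hm]; nlinarith)
    have h6 : 0 ≤ Real.log ((X + m : ℕ) : ℝ) := Real.log_natCast_nonneg _
    gcongr
  have h3 : T * ∑ k ∈ Finset.Icc 1 X, |WL S k - W S k| ≤
      T * (T ^ ℓ * ℓ * C * √(1 + m) * √X) := by
    refine h1.trans ?_
    calc T ^ ℓ * ∑ a ∈ S, ∑ k ∈ Finset.Icc 1 X,
        |ArithmeticFunction.vonMangoldt (k + a) - thp (k + a)| ≤
          T ^ ℓ * ∑ _a ∈ S, C * (√(1 + m) * √X) * T := by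
          apply mul_le_mul_of_nonneg_left (sum_le_sum h2) (by positivity)
      _ = T * (T ^ ℓ * ℓ * C * √(1 + m) * √X) := by
          rw [sum_const, nsmul_eq_mul, ← hℓ]
          ring
  have h4 := le_of_mul_le_mul_left h3 hT0
  refine h4.trans ?_
  rw [← hℓ, hT, mul_pow]
  have h5 : Real.log X ^ ℓ ≤ 2 * Real.log X ^ (ℓ + 1) := by
    rw [pow_succ]
    have h6 : 0 < Real.log X ^ ℓ := pow_pos hlX ℓ
    nlinarith
  have h6 : 0 ≤ √(X : ℝ) * Real.log X ^ (ℓ + 1) := by positivity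
  calc L ^ ℓ * Real.log X ^ ℓ * ℓ * C * √(1 + m) * √X =
      (L ^ ℓ * ℓ * C * √(1 + m) * √X) * Real.log X ^ ℓ := by ring
    _ ≤ (L ^ ℓ * ℓ * C * √(1 + m) * √X) * (2 * Real.log X ^ (ℓ + 1)) := by gcongr
    _ = 2 * (L ^ ℓ * ℓ * C * √(1 + m)) * (√X * Real.log X ^ (ℓ + 1)) := by ring
    _ ≤ 2 * (L ^ ℓ * ℓ * C * √(1 + m)) * (√X * Real.log X ^ (ℓ + 1)) +
        √X * Real.log X ^ (ℓ + 1) := by linarith
    _ = _ := by ring

end Pool.MRZ
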