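import Mathlib
import Pool.Agent.MRZ.AMom

/-!
# MRZ/CorrCore: the correlation estimate for short ranges of shifts

`|g| ≤ 1`, `SupA g`, `A ≥ 1` a natural number. For every `ε > 0` there are `η > 0`, `K`, `X₀`: for `X ≥ X₀`,
`K log X ≤ H ≤ ηX`, `h₀ ≤ A X`, `|b_k| ≤ 1`, `|e_h| ≤ 1`:
`|∑_{h₀<h≤h₀+H} e_h ∑_{1≤k≤X} thp k · b_k g(k+h)| ≤ ε H X`.

Proof. `a(k) = thp k b_k` for `1 ≤ k ≤ X`, `0` otherwise. `T = ∑_k a(k) ∑_h e_h g(k+h)` and
`T' = (1/H) ∑_{x<X} ∑_{x<k≤x+H} a(k) ∑_h e_h g(k+h)`; the `k ∈ (H, X]` are counted `H` times in `T'`, the `k ≤ H` at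
most `H` times, so `|T - T'| ≤ H ∑_{k≤H} thp k ≤ C H² ≤ C η H X` (`thp_sums`).
For fixed `x`: `k = x+i`, `h = h₀+h'`, `i,h' ∈ [1,H]`; `dft_triple` with `N = 2H`:
`∑ = (1/N) ∑_{r<N} Â_x(r) ê(r) B̂_x(r)`, `|Â_x(r)| = |∑_{x<k≤x+H} a(k) e(rk/N)|`, `ê(r) = ∑_{h'≤H} e_{h₀+h'} e(rh'/N)`,
`|B̂_x(r)| = |∑_{l≤2H} g(x+h₀+l) e(-rl/N)| = |∑_{x+h₀<n≤x+h₀+2H} g(n) e(-rn/N)|`. Cauchy–Schwarz over `x`, then
over `r`: `|T'| ≤ (1/(HN)) ∑_r |ê(r)| (A(r) B(r))^{1/2} ≤ (1/(HN)) (N H)^{1/2} (∑_r A(r) B(r))^{1/2}`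
(`dft_parseval` for `ê`), `A(r) = ∑_{x<X} |Â_x(r)|²`, `B(r) = ∑_{x<X} |B̂_x(r)|²`.
* `B(r) ≤ 2H ∑_{x<X} |B̂_x(r)| ≤ 2H ∑_{y<(A+1)X} |∑_{y<n≤y+2H} g(n)e(-rn/N)| ≤ 2H η' (2H)(A+1)X` by `SupA g`
  (`2H ≤ (A+1)X`, `2H ≥ K log X` large).
* `∑_r B(r) = ∑_x N ∑_l |g|² ≤ X N 2H` (`dft_parseval'`).
* `a_mom`: `A(r) ≤ C H X log X + C H² X ≤ 2C H² X` (`K ≥ 1`); if `A(r) > δH²X` then
  `A(r) - D ≥ δH²X - C H X log X ≥ (δ/2)H²X` (`K ≥ 2C/δ`), so there are at most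
  `C N H³X²/((δ/2)²H⁴X²) = 8C/δ²` such `r`.
`∑_r A B ≤ (8C/δ²)(2CH²X)(4η'(A+1)H²X) + δH²X·4H²X = (64C²(A+1)η'/δ² + 4δ) H⁴X²`. As `N = 2H`,
`|T'| ≤ (1/(√2 H)) (…)^{1/2}·… ≤ (64C²(A+1)η'/δ² + 4δ)^{1/2} H X`. Choose `δ`, then `η'`, then `η = ε/(2C)`.
-/

namespace Pool.MRZ

open Finset

namespace CorrCoreAux

/-- two applications of the Cauchy-Schwarz inequality -/
theorem cs2 {ι κ : Type*} (s : Finset ι) (t : Finset κ) (P Q : ι → κ → ℝ) (E : κ → ℝ) :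
    (∑ x ∈ s, ∑ r ∈ t, P x r * E r * Q x r) ^ 2 ≤
      (∑ r ∈ t, E r ^ 2) * ∑ r ∈ t, (∑ x ∈ s, P x r ^ 2) * (∑ x ∈ s, Q x r ^ 2) := by
  have h1 : ∑ x ∈ s, ∑ r ∈ t, P x r * E r * Q x r = ∑ r ∈ t, E r * ∑ x ∈ s, P x r * Q x r := by
    rw [Finset.sum_comm]
    refine Finset.sum_congr rfl fun r _ => ?_
    rw [Finset.mul_sum]
    refine Finset.sum_congr rfl fun x _ => ?_
    ring
  rw [h1]
  refine (Finset.sum_mul_sq_le_sq_mul_sq t E _).trans ?_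
  apply mul_le_mul_of_nonneg_left _ (Finset.sum_nonneg fun r _ => sq_nonneg _)
  refine Finset.sum_le_sum fun r _ => ?_
  exact Finset.sum_mul_sq_le_sq_mul_sq s (fun x => P x r) (fun x => Q x r)

theorem shift_sum {M : Type*} [AddCommMonoid M] (F : ℕ → M) (x H : ℕ) :
    ∑ i ∈ Finset.Icc 1 H, F (x + i) = ∑ k ∈ Finset.Ioc x (x + H), F k := by
  refine Finset.sum_bij (fun i _ => x + i) ?_ ?_ ?_ ?_
  · intro i hi
    rw [Finset.mem_Icc] at hi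
    rw [Finset.mem_Ioc]
    omega
  · intro i _ j _ h
    omega
  · intro k hk
    rw [Finset.mem_Ioc] at hk
    exact ⟨k - x, by rw [Finset.mem_Icc]; omega, by omega⟩
  · intro i _
    rfl

/-- the number of windows which contain `k` -/
def ww (X H k : ℕ) : ℕ := ((Finset.range X).filter (fun x => x < k ∧ k ≤ x + H)).card

theorem ww_le (X H k : ℕ) : ww X H k ≤ H := by
  have h1 : (Finset.range X).filter (fun x => x < k ∧ k ≤ x + H) ⊆ Finset.Ico (k - H) k := by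
    intro x hx
    rw [Finset.mem_filter] at hx
    rw [Finset.mem_Ico]
    omega
  have h2 := Finset.card_le_card h1
  rw [Nat.card_Ico] at h2
  unfold ww
  omega

theorem ww_eq {X H k : ℕ} (h1 : H ≤ k) (h2 : k ≤ X) : ww X H k = H := by
  have h3 : (Finset.range X).filter (fun x => x < k ∧ k ≤ x + H) = Finset.Ico (k - H) k := by
    ext x
    rw [Finset.mem_filter, Finset.mem_range, Finset.mem_Ico]
    omega
  unfold ww
  rw [h3, Nat.card_Ico]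
  omega

theorem window_sum (F : ℕ → ℂ) (X H : ℕ) (hF : ∀ k, X < k → F k = 0) :
    ∑ x ∈ Finset.range X, ∑ k ∈ Finset.Ioc x (x + H), F k =
      ∑ k ∈ Finset.Icc 1 X, (ww X H k : ℂ) * F k := by
  have h1 : ∀ x ∈ Finset.range X, ∑ k ∈ Finset.Ioc x (x + H), F k =
      ∑ k ∈ Finset.Icc 1 X, if x < k ∧ k ≤ x + H then F k else 0 := by
    intro x _
    rw [← Finset.sum_filter]
    symm
    apply Finset.sum_subset
    · intro k hk
      rw [Finset.mem_filter, Finset.mem_Icc] at hk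
      rw [Finset.mem_Ioc]
      exact hk.2
    · intro k hk hk'
      rw [Finset.mem_Ioc] at hk
      apply hF
      rw [Finset.mem_filter, Finset.mem_Icc] at hk'
      omega
  rw [Finset.sum_congr rfl h1, Finset.sum_comm]
  refine Finset.sum_congr rfl fun k _ => ?_
  rw [← Finset.sum_filter, Finset.sum_const, nsmul_eq_mul]
  rfl

/-- comparison of the sum with the average over windows -/
theorem window_error (F : ℕ → ℂ) (u : ℕ → ℝ) (X H : ℕ) (hF : ∀ k, X < k → F k = 0)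
    (hu : ∀ k, ‖F k‖ ≤ u k) :
    ‖(H : ℂ) * ∑ k ∈ Finset.Icc 1 X, F k - ∑ x ∈ Finset.range X, ∑ k ∈ Finset.Ioc x (x + H), F k‖ ≤
      H * ∑ k ∈ Finset.Icc 1 H, u k := by
  have hu0 : ∀ k, 0 ≤ u k := fun k => (norm_nonneg _).trans (hu k)
  rw [window_sum F X H hF, Finset.mul_sum, ← Finset.sum_sub_distrib]
  have h1 : ∀ k ∈ Finset.Icc 1 X, ‖(H : ℂ) * F k - (ww X H k : ℂ) * F k‖ ≤
      if k ≤ H then (H : ℝ) * u k else 0 := by
    intro k hk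
    rw [Finset.mem_Icc] at hk
    rw [← sub_mul, norm_mul]
    have h2 : ((H : ℂ) - (ww X H k : ℂ)) = (((H : ℝ) - (ww X H k : ℝ) : ℝ) : ℂ) := by push_cast; ring
    have h3 : (ww X H k : ℝ) ≤ H := by exact_mod_cast ww_le X H k
    rw [h2, Complex.norm_real, Real.norm_eq_abs, abs_of_nonneg (by linarith)]
    split_ifs with hkH
    · apply mul_le_mul _ (hu k) (norm_nonneg _) (Nat.cast_nonneg _)
      have : (0 : ℝ) ≤ (ww X H k : ℝ) := Nat.cast_nonneg _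
      linarith
    · have h4 : ww X H k = H := ww_eq (by omega) hk.2
      rw [h4, sub_self, zero_mul]
  refine (norm_sum_le_of_le _ h1).trans ?_
  rw [← Finset.sum_filter, ← Finset.mul_sum]
  apply mul_le_mul_of_nonneg_left _ (Nat.cast_nonneg _)
  apply Finset.sum_le_sum_of_subset_of_nonneg
  · intro k hk
    rw [Finset.mem_filter, Finset.mem_Icc] at hk
    rw [Finset.mem_Icc]
    omega
  · intro k _ _
    exact hu0 k

theorem norm_shift_ee (F : ℕ → ℂ) (β : ℝ) (x M : ℕ) :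
    ‖∑ i ∈ Finset.Icc 1 M, F (x + i) * ee (β * i)‖ = ‖∑ k ∈ Finset.Ioc x (x + M), F k * ee (β * k)‖ := by
  rw [← shift_sum (fun k => F k * ee (β * k)) x M]
  have h1 : ∑ i ∈ Finset.Icc 1 M, F (x + i) * ee (β * ((x + i : ℕ) : ℝ)) =
      ee (β * x) * ∑ i ∈ Finset.Icc 1 M, F (x + i) * ee (β * i) := by
    rw [Finset.mul_sum]
    refine Finset.sum_congr rfl fun i _ => ?_
    have h2 : ee (β * ((x + i : ℕ) : ℝ)) = ee (β * x) * ee (β * i) := by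
      rw [← ee_add]
      congr 1
      push_cast
      ring
    rw [h2]
    ring
  rw [h1, norm_mul, norm_ee, one_mul]

/-- the windowed sum, written with the finite Fourier transform -/
theorem window_dft (a e g : ℕ → ℂ) (x h₀ H : ℕ) (hH : 1 ≤ H) :
    ‖∑ k ∈ Finset.Ioc x (x + H), a k * ∑ h ∈ Finset.Ioc h₀ (h₀ + H), e h * g (k + h)‖ * (2 * H) ≤
      ∑ r ∈ Finset.range (2 * H),
        ‖∑ k ∈ Finset.Ioc x (x + H), a k * ee ((r : ℝ) / (2 * H : ℕ) * k)‖ *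
        ‖∑ h ∈ Finset.Icc 1 H, e (h₀ + h) * ee ((r : ℝ) / (2 * H : ℕ) * h)‖ *
        ‖∑ l ∈ Finset.Icc 1 (2 * H), g (x + h₀ + l) * ee (-((r : ℝ) / (2 * H : ℕ)) * l)‖ := by
  have h1 : ∑ k ∈ Finset.Ioc x (x + H), a k * ∑ h ∈ Finset.Ioc h₀ (h₀ + H), e h * g (k + h) =
      ∑ i ∈ Finset.Icc 1 H, ∑ h ∈ Finset.Icc 1 H, a (x + i) * e (h₀ + h) * g (x + h₀ + (i + h)) := by
    rw [← shift_sum (fun k => a k * ∑ h ∈ Finset.Ioc h₀ (h₀ + H), e h * g (k + h)) x H]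
    refine Finset.sum_congr rfl fun i _ => ?_
    rw [← shift_sum (fun h => e h * g (x + i + h)) h₀ H, Finset.mul_sum]
    refine Finset.sum_congr rfl fun h _ => ?_
    have h2 : x + i + (h₀ + h) = x + h₀ + (i + h) := by ring
    rw [h2]
    ring
  rw [h1, dft_triple (fun i => a (x + i)) (fun h => e (h₀ + h)) (fun l => g (x + h₀ + l)) H (2 * H) hH
    le_rfl]
  have hH0 : (0 : ℝ) < 2 * H := by
    have : (1 : ℝ) ≤ H := by exact_mod_cast hH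
    linarith
  rw [norm_mul, norm_inv, Complex.norm_natCast]
  have h3 : ((2 * H : ℕ) : ℝ) = 2 * H := by push_cast; ring
  have h4 : ∀ z : ℝ, ((2 * H : ℕ) : ℝ)⁻¹ * z * (2 * H) = z := by
    intro z
    rw [h3]
    field_simp
  rw [h4]
  refine norm_sum_le_of_le _ fun r _ => ?_
  rw [norm_mul, norm_mul, norm_shift_ee a]

/-- bounding the large values of `u` by the second moment of `u - D` -/
theorem large_values {u D C δ Y L : ℝ} (hY : 0 < Y) (hC : 0 < C) (hδ : 0 < δ) (hL : D ≤ L)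
    (hL1 : L ≤ δ / 2 * Y) (hu : u ≤ 2 * C * Y) :
    u ≤ δ * Y + 8 * C / (δ ^ 2 * Y) * (u - D) ^ 2 := by
  by_cases h : u ≤ δ * Y
  · have : 0 ≤ 8 * C / (δ ^ 2 * Y) * (u - D) ^ 2 := by positivity
    linarith
  · rw [not_le] at h
    have h1 : δ / 2 * Y ≤ u - D := by linarith
    have h2 : (δ / 2 * Y) ^ 2 ≤ (u - D) ^ 2 := pow_le_pow_left₀ (by positivity) h1 2
    have h3 : 8 * C / (δ ^ 2 * Y) * (δ / 2 * Y) ^ 2 ≤ 8 * C / (δ ^ 2 * Y) * (u - D) ^ 2 :=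
      mul_le_mul_of_nonneg_left h2 (by positivity)
    have h4 : 8 * C / (δ ^ 2 * Y) * (δ / 2 * Y) ^ 2 = 2 * C * Y := by
      field_simp
      ring
    have h5 : 0 < δ * Y := by positivity
    linarith

theorem sum_AB {κ : Type*} (t : Finset κ) (u v : κ → ℝ) {D C δ Y L Z S : ℝ} (hY : 0 < Y)
    (hC : 0 < C) (hδ : 0 < δ) (hL : D ≤ L) (hL1 : L ≤ δ / 2 * Y) (hu : ∀ r ∈ t, u r ≤ 2 * C * Y)
    (hv0 : ∀ r ∈ t, 0 ≤ v r) (hv : ∀ r ∈ t, v r ≤ Z) (hS : ∑ r ∈ t, v r ≤ S)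
    {Q : ℝ} (hQ : ∑ r ∈ t, (u r - D) ^ 2 ≤ Q) (hZ : 0 ≤ Z) :
    ∑ r ∈ t, u r * v r ≤ δ * Y * S + Z * (8 * C / (δ ^ 2 * Y)) * Q := by
  have h1 : ∀ r ∈ t, u r * v r ≤ δ * Y * v r + Z * (8 * C / (δ ^ 2 * Y)) * (u r - D) ^ 2 := by
    intro r hr
    have h2 := large_values hY hC hδ hL hL1 (hu r hr)
    have h3 := mul_le_mul_of_nonneg_right h2 (hv0 r hr)
    have h4 : 8 * C / (δ ^ 2 * Y) * (u r - D) ^ 2 * v r ≤ 8 * C / (δ ^ 2 * Y) * (u r - D) ^ 2 * Z :=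
      mul_le_mul_of_nonneg_left (hv r hr) (by positivity)
    linarith
  refine (Finset.sum_le_sum h1).trans ?_
  rw [Finset.sum_add_distrib, ← Finset.mul_sum, ← Finset.mul_sum]
  apply add_le_add
  · exact mul_le_mul_of_nonneg_left hS (by positivity)
  · exact mul_le_mul_of_nonneg_left hQ (by positivity)

end CorrCoreAux

open CorrCoreAux

theorem corr_core (g : ℕ → ℂ) (hg : ∀ n, ‖g n‖ ≤ 1) (hs : SupA g) (A : ℕ) (hA : 1 ≤ A) (ε : ℝ)
    (hε : 0 < ε) : ∃ (η K : ℝ) (X₀ : ℕ), 0 < η ∧ η ≤ 1 ∧ 0 < K ∧ ∀ (X H h₀ : ℕ) (b e : ℕ → ℂ),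
    X₀ ≤ X → K * Real.log X ≤ H → (H : ℝ) ≤ η * X → h₀ ≤ A * X → (∀ k, ‖b k‖ ≤ 1) →
    (∀ h, ‖e h‖ ≤ 1) →
    ‖∑ h ∈ Finset.Ioc h₀ (h₀ + H), e h * ∑ k ∈ Finset.Icc 1 X,
        (thp k : ℂ) * b k * g (k + h)‖ ≤ ε * H * X := by
  obtain ⟨C, hC, hmom⟩ := a_mom
  obtain ⟨C', hC', hthp⟩ := thp_sums
  obtain ⟨δ, hδe⟩ : ∃ δ : ℝ, δ = ε ^ 2 / 32 := ⟨_, rfl⟩
  have hδ : 0 < δ := by rw [hδe]; positivity
  have hA0 : (0 : ℝ) < (A : ℝ) + 1 := by positivity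
  obtain ⟨η', hη'e⟩ : ∃ η' : ℝ, η' = ε ^ 2 * δ ^ 2 / (512 * C ^ 2 * (A + 1)) := ⟨_, rfl⟩
  have hη' : 0 < η' := by rw [hη'e]; positivity
  obtain ⟨H₁, X₁, hsup⟩ := hs η' hη'
  have hlog2 : 0 < Real.log 2 := Real.log_pos (by norm_num)
  obtain ⟨K, hKe⟩ : ∃ K : ℝ, K = max 1 (max (2 * C / δ) ((H₁ + 2) / Real.log 2)) := ⟨_, rfl⟩
  have hK1 : 1 ≤ K := by rw [hKe]; exact le_max_left _ _
  have hK2 : 2 * C / δ ≤ K := by rw [hKe]; exact (le_max_left _ _).trans (le_max_right _ _)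
  have hK3 : (H₁ + 2) / Real.log 2 ≤ K := by
    rw [hKe]; exact (le_max_right _ _).trans (le_max_right _ _)
  refine ⟨min 1 (ε / (2 * C')), K, max 2 X₁, lt_min one_pos (by positivity), min_le_left _ _,
    by linarith, ?_⟩
  intro X H h₀ b e hX hHK hHη hh₀ hb he
  have hX2 : 2 ≤ X := (le_max_left _ _).trans hX
  have hXX₁ : X₁ ≤ X := (le_max_right _ _).trans hX
  have hX2' : (2 : ℝ) ≤ X := by exact_mod_cast hX2
  have hX0 : (0 : ℝ) < X := by linarith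
  have hlogX : Real.log 2 ≤ Real.log X := Real.log_le_log (by norm_num) hX2'
  have hlogX0 : 0 < Real.log X := by linarith
  have hHX : H ≤ X := by
    have h1 : min 1 (ε / (2 * C')) * (X : ℝ) ≤ 1 * X :=
      mul_le_mul_of_nonneg_right (min_le_left _ _) hX0.le
    have h2 : (H : ℝ) ≤ X := by linarith
    exact_mod_cast h2
  have hHbig : (H₁ : ℝ) + 2 ≤ H := by
    rw [div_le_iff₀ hlog2] at hK3
    have h1 : K * Real.log 2 ≤ K * Real.log X := mul_le_mul_of_nonneg_left hlogX (by linarith)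
    linarith
  have hH2 : 2 ≤ H := by
    have : ((2 : ℕ) : ℝ) ≤ H := by
      have h1 : (0 : ℝ) ≤ (H₁ : ℝ) := Nat.cast_nonneg _
      push_cast
      linarith
    exact_mod_cast this
  have hH₁ : H₁ ≤ H := by
    have : (H₁ : ℝ) ≤ H := by linarith
    exact_mod_cast this
  have hH2' : (2 : ℝ) ≤ H := by exact_mod_cast hH2
  have hH0 : (0 : ℝ) < H := by linarith
  have hlogH : Real.log X ≤ H := by
    have h1 : 1 * Real.log X ≤ K * Real.log X := mul_le_mul_of_nonneg_right hK1 hlogX0.le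
    linarith
  have hlogH2 : C * Real.log X ≤ δ / 2 * H := by
    rw [div_le_iff₀ hδ] at hK2
    have h1 : 2 * C * Real.log X ≤ K * δ * Real.log X :=
      mul_le_mul_of_nonneg_right hK2 hlogX0.le
    have h2 : K * δ * Real.log X = δ * (K * Real.log X) := by ring
    have h3 : δ * (K * Real.log X) ≤ δ * H := mul_le_mul_of_nonneg_left hHK hδ.le
    linarith
  -- the coefficients
  obtain ⟨a, ha⟩ : ∃ a : ℕ → ℂ, a = fun k => if k ≤ X then (thp k : ℂ) * b k else 0 := ⟨_, rfl⟩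
  have ha1 : ∀ k, ‖a k‖ ≤ thp k := by
    intro k
    rw [ha]
    simp only
    split_ifs
    · rw [norm_mul, Complex.norm_real, Real.norm_eq_abs, abs_of_nonneg (thp_nonneg k)]
      exact mul_le_of_le_one_right (thp_nonneg k) (hb k)
    · rw [norm_zero]
      exact thp_nonneg k
  have ha2 : ∀ k, X < k → a k = 0 := by
    intro k hk
    rw [ha]
    simp only
    rw [if_neg (not_le.2 hk)]
  have ha3 : ∀ k ∈ Finset.Icc 1 X, a k = (thp k : ℂ) * b k := by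
    intro k hk
    rw [Finset.mem_Icc] at hk
    rw [ha]
    simp only
    rw [if_pos hk.2]
  -- the sum
  obtain ⟨T, hT⟩ : ∃ T, T = ∑ h ∈ Finset.Ioc h₀ (h₀ + H), e h * ∑ k ∈ Finset.Icc 1 X,
        (thp k : ℂ) * b k * g (k + h) := ⟨_, rfl⟩
  rw [← hT]
  obtain ⟨F, hF⟩ : ∃ F : ℕ → ℂ, F = fun k => a k * ∑ h ∈ Finset.Ioc h₀ (h₀ + H), e h * g (k + h) :=
    ⟨_, rfl⟩
  have hTF : T = ∑ k ∈ Finset.Icc 1 X, F k := by
    rw [hT, hF]
    simp_rw [Finset.mul_sum]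
    rw [Finset.sum_comm]
    refine Finset.sum_congr rfl fun k hk => ?_
    refine Finset.sum_congr rfl fun h _ => ?_
    rw [ha3 k hk]
    ring
  have hFb : ∀ k, ‖F k‖ ≤ thp k * H := by
    intro k
    rw [hF]
    simp only
    rw [norm_mul]
    apply mul_le_mul (ha1 k) _ (norm_nonneg _) (thp_nonneg k)
    have h1 : ‖∑ h ∈ Finset.Ioc h₀ (h₀ + H), e h * g (k + h)‖ ≤
        ∑ h ∈ Finset.Ioc h₀ (h₀ + H), (1 : ℝ) := by
      refine norm_sum_le_of_le _ fun h _ => ?_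
      rw [norm_mul]
      exact mul_le_one₀ (he h) (norm_nonneg _) (hg _)
    rw [Finset.sum_const, Nat.card_Ioc, Nat.add_sub_cancel_left, nsmul_eq_mul, mul_one] at h1
    exact h1
  have hF0 : ∀ k, X < k → F k = 0 := by
    intro k hk
    rw [hF]
    simp only
    rw [ha2 k hk, zero_mul]
  obtain ⟨W, hW⟩ : ∃ W, W = ∑ x ∈ Finset.range X, ∑ k ∈ Finset.Ioc x (x + H), F k := ⟨_, rfl⟩
  -- error term
  have herr : ‖(H : ℂ) * T - W‖ ≤ C' * H ^ 3 := by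
    have h1 := window_error F (fun k => thp k * H) X H hF0 hFb
    rw [← hTF, ← hW, ← Finset.sum_mul] at h1
    have h2 := (hthp H hH2).1
    refine h1.trans ?_
    have h3 : (H : ℝ) * ((∑ k ∈ Finset.Icc 1 H, thp k) * H) ≤ H * ((C' * H) * H) := by
      apply mul_le_mul_of_nonneg_left _ hH0.le
      exact mul_le_mul_of_nonneg_right h2 hH0.le
    refine h3.trans (le_of_eq ?_)
    ring
  -- Fourier transform
  obtain ⟨P, hP⟩ : ∃ P : ℕ → ℕ → ℝ, P = fun (x r : ℕ) =>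
    ‖∑ k ∈ Finset.Ioc x (x + H), a k * ee ((r : ℝ) / (2 * H : ℕ) * k)‖ := ⟨_, rfl⟩
  obtain ⟨E, hE⟩ : ∃ E : ℕ → ℝ, E = fun (r : ℕ) =>
    ‖∑ h ∈ Finset.Icc 1 H, e (h₀ + h) * ee ((r : ℝ) / (2 * H : ℕ) * h)‖ := ⟨_, rfl⟩
  obtain ⟨Q, hQ⟩ : ∃ Q : ℕ → ℕ → ℝ, Q = fun (x r : ℕ) =>
    ‖∑ l ∈ Finset.Icc 1 (2 * H), g (x + h₀ + l) * ee (-((r : ℝ) / (2 * H : ℕ)) * l)‖ := ⟨_, rfl⟩
  have hW1 : ‖W‖ * (2 * H) ≤ ∑ x ∈ Finset.range X, ∑ r ∈ Finset.range (2 * H),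
      P x r * E r * Q x r := by
    have h1 : ‖W‖ ≤ ∑ x ∈ Finset.range X, ‖∑ k ∈ Finset.Ioc x (x + H), F k‖ := by
      rw [hW]; exact norm_sum_le _ _
    have h2 : ‖W‖ * (2 * H) ≤ (∑ x ∈ Finset.range X, ‖∑ k ∈ Finset.Ioc x (x + H), F k‖) * (2 * H) :=
      mul_le_mul_of_nonneg_right h1 (by positivity)
    refine h2.trans ?_
    rw [Finset.sum_mul]
    refine Finset.sum_le_sum fun x _ => ?_
    rw [hF, hP, hE, hQ]
    exact window_dft a e g x h₀ H (by omega)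
  have hE2 : ∑ r ∈ Finset.range (2 * H), E r ^ 2 ≤ 2 * (H : ℝ) ^ 2 := by
    rw [hE, dft_parseval (fun h => e (h₀ + h)) H (2 * H) (by omega) (by omega)]
    have h1 : ∑ l ∈ Finset.Icc 1 H, ‖e (h₀ + l)‖ ^ 2 ≤ ∑ l ∈ Finset.Icc 1 H, (1 : ℝ) :=
      Finset.sum_le_sum fun l _ => pow_le_one₀ (norm_nonneg _) (he _)
    rw [Finset.sum_const, Nat.card_Icc, Nat.add_sub_cancel, nsmul_eq_mul, mul_one] at h1
    have h2 := mul_le_mul_of_nonneg_left h1 (show (0 : ℝ) ≤ ((2 * H : ℕ) : ℝ) from Nat.cast_nonneg _)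
    refine h2.trans (le_of_eq ?_)
    push_cast
    ring
  -- the energies of g
  have hQle : ∀ x r, Q x r ≤ 2 * H := by
    intro x r
    rw [hQ]
    have h1 : ‖∑ l ∈ Finset.Icc 1 (2 * H), g (x + h₀ + l) * ee (-((r : ℝ) / (2 * H : ℕ)) * l)‖ ≤
        ∑ l ∈ Finset.Icc 1 (2 * H), (1 : ℝ) := by
      refine norm_sum_le_of_le _ fun l _ => ?_
      rw [norm_mul, norm_ee, mul_one]
      exact hg _
    rw [Finset.sum_const, Nat.card_Icc, Nat.add_sub_cancel, nsmul_eq_mul, mul_one] at h1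
    push_cast at h1 ⊢
    exact h1
  have hQ0 : ∀ x r, 0 ≤ Q x r := by
    intro x r
    rw [hQ]
    exact norm_nonneg _
  have hB1 : ∀ r ∈ Finset.range (2 * H), ∑ x ∈ Finset.range X, Q x r ^ 2 ≤
      4 * η' * (A + 1) * (H ^ 2 * X) := by
    intro r _
    have h1 : ∑ x ∈ Finset.range X, Q x r ^ 2 ≤ ∑ x ∈ Finset.range X, 2 * H * Q x r := by
      refine Finset.sum_le_sum fun x _ => ?_
      rw [sq]
      exact mul_le_mul_of_nonneg_right (hQle x r) (hQ0 x r)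
    rw [← Finset.mul_sum] at h1
    have h2 : ∑ x ∈ Finset.range X, Q x r ≤ ∑ y ∈ Finset.range ((A + 1) * X),
        ‖∑ n ∈ Finset.Ioc y (y + 2 * H), g n * ee (-((r : ℝ) / (2 * H : ℕ)) * n)‖ := by
      have h3 : ∑ x ∈ Finset.range X, Q x r = ∑ y ∈ (Finset.range X).image (fun x => x + h₀),
          ‖∑ n ∈ Finset.Ioc y (y + 2 * H), g n * ee (-((r : ℝ) / (2 * H : ℕ)) * n)‖ := by
        rw [Finset.sum_image (fun x _ y _ h => Nat.add_right_cancel h)]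
        refine Finset.sum_congr rfl fun x _ => ?_
        rw [hQ]
        exact norm_shift_ee g _ (x + h₀) (2 * H)
      rw [h3]
      apply Finset.sum_le_sum_of_subset_of_nonneg
      · intro y hy
        rw [Finset.mem_image] at hy
        obtain ⟨x, hx, rfl⟩ := hy
        rw [Finset.mem_range] at hx ⊢
        nlinarith
      · intro y _ _
        exact norm_nonneg _
    have h4 := hsup ((A + 1) * X) (2 * H) (by nlinarith) (by omega) (by nlinarith)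
      (-((r : ℝ) / (2 * H : ℕ)))
    have h5 := h2.trans h4
    have h6 := mul_le_mul_of_nonneg_left h5 (show (0 : ℝ) ≤ 2 * H by positivity)
    refine (h1.trans h6).trans (le_of_eq ?_)
    push_cast
    ring
  have hB2 : ∑ r ∈ Finset.range (2 * H), ∑ x ∈ Finset.range X, Q x r ^ 2 ≤ 4 * (H ^ 2 * X) := by
    rw [Finset.sum_comm]
    have h1 : ∀ x ∈ Finset.range X, ∑ r ∈ Finset.range (2 * H), Q x r ^ 2 ≤ 4 * (H : ℝ) ^ 2 := by
      intro x _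
      rw [hQ, dft_parseval' (fun l => g (x + h₀ + l)) (2 * H) (2 * H) le_rfl (by omega)]
      have h2 : ∑ l ∈ Finset.Icc 1 (2 * H), ‖g (x + h₀ + l)‖ ^ 2 ≤
          ∑ l ∈ Finset.Icc 1 (2 * H), (1 : ℝ) :=
        Finset.sum_le_sum fun l _ => pow_le_one₀ (norm_nonneg _) (hg _)
      rw [Finset.sum_const, Nat.card_Icc, Nat.add_sub_cancel, nsmul_eq_mul, mul_one] at h2
      have h3 := mul_le_mul_of_nonneg_left h2
        (show (0 : ℝ) ≤ ((2 * H : ℕ) : ℝ) from Nat.cast_nonneg _)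
      refine h3.trans (le_of_eq ?_)
      push_cast
      ring
    refine (Finset.sum_le_sum h1).trans ?_
    rw [Finset.sum_const, Finset.card_range, nsmul_eq_mul]
    apply le_of_eq
    ring
  -- the energies of a
  obtain ⟨m1, m2, m3⟩ := hmom X H (2 * H) a hX2 (by omega) hHX le_rfl ha1 ha2
  obtain ⟨D, hD⟩ : ∃ D, D = ∑ x ∈ Finset.range X, ∑ k ∈ Finset.Ioc x (x + H), ‖a k‖ ^ 2 :=
    ⟨_, rfl⟩
  have hPA : ∀ r : ℕ, ∑ x ∈ Finset.range X,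
      ‖∑ k ∈ Finset.Ioc x (x + H), a k * ee ((r : ℝ) / (2 * H : ℕ) * k)‖ ^ 2 =
      ∑ x ∈ Finset.range X, P x r ^ 2 := by
    intro r
    rw [hP]
  simp only [hPA, ← hD] at m1 m2 m3
  have hD0 : 0 ≤ D := by
    rw [hD]
    exact Finset.sum_nonneg fun x _ => Finset.sum_nonneg fun k _ => sq_nonneg _
  have hY : (0 : ℝ) < H ^ 2 * X := by positivity
  have hL1 : C * H * X * Real.log X ≤ δ / 2 * (H ^ 2 * X) := by
    have h1 := mul_le_mul_of_nonneg_left hlogH2 (show (0 : ℝ) ≤ H * X by positivity)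
    calc C * H * X * Real.log X = H * X * (C * Real.log X) := by ring
      _ ≤ H * X * (δ / 2 * H) := h1
      _ = δ / 2 * (H ^ 2 * X) := by ring
  have hu : ∀ r ∈ Finset.range (2 * H), ∑ x ∈ Finset.range X, P x r ^ 2 ≤ 2 * C * (H ^ 2 * X) := by
    intro r _
    have h1 := m2 r
    have h2 : C * H * X * Real.log X ≤ C * H * X * H :=
      mul_le_mul_of_nonneg_left hlogH (by positivity)
    have h3 : C * H * X * H = C * H ^ 2 * X := by ring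
    linarith
  have hAB := sum_AB (Finset.range (2 * H)) (fun r => ∑ x ∈ Finset.range X, P x r ^ 2)
    (fun r => ∑ x ∈ Finset.range X, Q x r ^ 2) hY hC hδ m1 hL1 hu
    (fun r _ => Finset.sum_nonneg fun x _ => sq_nonneg _) hB1 hB2 m3 (by positivity)
  have hAB2 : ∑ r ∈ Finset.range (2 * H), (∑ x ∈ Finset.range X, P x r ^ 2) *
      (∑ x ∈ Finset.range X, Q x r ^ 2) ≤ ε ^ 2 / 4 * (H ^ 2 * X) ^ 2 := by
    refine hAB.trans ?_
    have h1 : δ * (H ^ 2 * X) * (4 * (H ^ 2 * X)) = ε ^ 2 / 8 * (H ^ 2 * X) ^ 2 := by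
      rw [hδe]
      ring
    have h2 : 4 * η' * (A + 1) * (H ^ 2 * X) * (8 * C / (δ ^ 2 * (H ^ 2 * X))) *
        (C * (2 * H : ℕ) * H ^ 3 * X ^ 2) = ε ^ 2 / 8 * (H ^ 2 * X) ^ 2 := by
      rw [hη'e]
      push_cast
      field_simp
      ring
    rw [h1, h2]
    apply le_of_eq
    ring
  have hWsq : (‖W‖ * (2 * H)) ^ 2 ≤ 2 * (H : ℝ) ^ 2 * (ε ^ 2 / 4 * (H ^ 2 * X) ^ 2) := by
    have h0 : 0 ≤ ‖W‖ * (2 * H) := by positivity
    have h1 := pow_le_pow_left₀ h0 hW1 2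
    refine h1.trans ((cs2 _ _ P Q E).trans ?_)
    apply mul_le_mul hE2 hAB2 _ (by positivity)
    exact Finset.sum_nonneg fun r _ => mul_nonneg (Finset.sum_nonneg fun x _ => sq_nonneg _)
      (Finset.sum_nonneg fun x _ => sq_nonneg _)
  have hWle : ‖W‖ ≤ ε / 2 * (H ^ 2 * X) := by
    have h1 : ‖W‖ ^ 2 ≤ (ε / 2 * (H ^ 2 * X)) ^ 2 := by
      have h2 : (‖W‖ * (2 * H)) ^ 2 = ‖W‖ ^ 2 * (4 * (H : ℝ) ^ 2) := by ring
      rw [h2] at hWsq
      have h3 : 2 * (H : ℝ) ^ 2 * (ε ^ 2 / 4 * (H ^ 2 * X) ^ 2) =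
          ((ε / 2 * (H ^ 2 * X)) ^ 2 / 2) * (4 * (H : ℝ) ^ 2) := by ring
      rw [h3] at hWsq
      have h4 : ‖W‖ ^ 2 ≤ (ε / 2 * (H ^ 2 * X)) ^ 2 / 2 :=
        le_of_mul_le_mul_right hWsq (by positivity)
      have h5 : 0 ≤ (ε / 2 * (H ^ 2 * X)) ^ 2 := sq_nonneg _
      linarith
    exact abs_le_of_sq_le_sq' h1 (by positivity) |>.2
  -- conclusion
  have hfin : ‖(H : ℂ) * T‖ ≤ C' * H ^ 3 + ε / 2 * (H ^ 2 * X) := by
    have h1 : (H : ℂ) * T = ((H : ℂ) * T - W) + W := by ring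
    rw [h1]
    exact (norm_add_le _ _).trans (add_le_add herr hWle)
  rw [norm_mul, Complex.norm_natCast] at hfin
  have hη : C' * (H : ℝ) ≤ ε / 2 * X := by
    have h1 : (H : ℝ) ≤ ε / (2 * C') * X :=
      hHη.trans (mul_le_mul_of_nonneg_right (min_le_right _ _) hX0.le)
    have h2 := mul_le_mul_of_nonneg_left h1 hC'.le
    have h3 : C' * (ε / (2 * C') * X) = ε / 2 * X := by
      field_simp
    linarith
  have h7 : C' * (H : ℝ) ^ 3 ≤ ε / 2 * (H ^ 2 * X) := by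
    have h8 := mul_le_mul_of_nonneg_left hη (show (0 : ℝ) ≤ (H : ℝ) ^ 2 by positivity)
    linarith
  have h9 : (H : ℝ) * ‖T‖ ≤ H * (ε * H * X) := by
    refine hfin.trans ?_
    have h10 : (H : ℝ) * (ε * H * X) = ε / 2 * (H ^ 2 * X) + ε / 2 * (H ^ 2 * X) := by ring
    rw [h10]
    linarith
  exact le_of_mul_le_mul_left h9 hH0

end Pool.MRZ
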