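import Mathlib
import Pool.Agent.MRZ.CorrCore
import Pool.Agent.MRZ.SupLam

/-!
# MRZ/Corr: the correlation theorem

`corr_gen`: `|g| ≤ 1`, `SupA g`, `A ≥ 1`: for every `ε > 0` there are `K`, `X₀`: for `X ≥ X₀`,
`K log X ≤ H ≤ X`, `h₀ ≤ AX`, all `α`:
`∑_{h₀<h≤h₀+H} |∑_{n≤X} Λ(n) g(n+h) e(αn)| ≤ ε H X`.

Proof. `vm_sub_thp`: replacing `Λ` by `thp` costs `H · C √X log X ≤ (ε/4) HX`. Let `η, K, X₀` be from
`corr_core g (A+1) (ε/8)`.
* If `H ≤ ηX`: choose `e_h = conj(z_h)/|z_h|` (`0` if `z_h = 0`), `z_h = ∑_k thp k g(k+h) e(αk)`.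
* If `H > ηX`: `H' = ⌊ηX⌋ ≥ 1`, cover `(h₀, h₀+H]` by `⌈H/H'⌉ ≤ 2H/H'` intervals `(h₀+jH', h₀+(j+1)H']`
  (`h₀ + jH' ≤ (A+1)X`; `H' ≥ K log X` for large `X`), each contributes `≤ (ε/8) H' X`.
-/

namespace Pool.MRZ

open Finset

namespace CorrAux

/-- the inner sum with `thp` -/
noncomputable def zT (g : ℕ → ℂ) (X : ℕ) (b : ℕ → ℂ) (h : ℕ) : ℂ :=
  ∑ k ∈ Finset.Icc 1 X, (thp k : ℂ) * b k * g (k + h)

theorem log_small (c : ℝ) (hc : 0 < c) : ∃ X₁ : ℕ, ∀ X : ℕ, X₁ ≤ X → Real.log X ≤ c * Real.sqrt X := by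
  have h1 := (isLittleO_log_rpow_atTop (r := 1 / 2) (by norm_num)).def hc
  have h2 := tendsto_natCast_atTop_atTop.eventually h1
  obtain ⟨X₁, hX₁⟩ := Filter.eventually_atTop.1 h2
  refine ⟨max X₁ 1, fun X hX => ?_⟩
  have h3 := hX₁ X ((le_max_left _ _).trans hX)
  have h4 : (0 : ℝ) ≤ (X : ℝ) := Nat.cast_nonneg _
  rw [Real.norm_of_nonneg (Real.log_natCast_nonneg X), Real.norm_of_nonneg (Real.rpow_nonneg h4 _),
    ← Real.sqrt_eq_rpow] at h3
  exact h3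

theorem core_sum {g : ℕ → ℂ} {X H h₀ : ℕ} {b : ℕ → ℂ} {ε : ℝ}
    (h : ∀ e : ℕ → ℂ, (∀ h, ‖e h‖ ≤ 1) → ‖∑ h ∈ Finset.Ioc h₀ (h₀ + H), e h * zT g X b h‖ ≤ ε * H * X) :
    ∑ h ∈ Finset.Ioc h₀ (h₀ + H), ‖zT g X b h‖ ≤ ε * H * X := by
  have h1 : ∀ z : ℂ, ((starRingEnd ℂ) z / (‖z‖ : ℂ)) * z = ((‖z‖ : ℝ) : ℂ) := by
    intro z
    rcases eq_or_ne z 0 with hz | hz
    · simp [hz]
    have h2 : (‖z‖ : ℂ) ≠ 0 := by
      exact_mod_cast (norm_ne_zero_iff.2 hz)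
    rw [div_mul_eq_mul_div, Complex.conj_mul', div_eq_iff h2]
    ring
  have h3 := h (fun h => (starRingEnd ℂ) (zT g X b h) / (‖zT g X b h‖ : ℂ)) (by
    intro n
    rw [norm_div, Complex.norm_real, norm_norm, RCLike.norm_conj]
    exact div_self_le_one _)
  have h4 : ∑ h ∈ Finset.Ioc h₀ (h₀ + H),
      (starRingEnd ℂ) (zT g X b h) / (‖zT g X b h‖ : ℂ) * zT g X b h =
      ((∑ h ∈ Finset.Ioc h₀ (h₀ + H), ‖zT g X b h‖ : ℝ) : ℂ) := by
    rw [Complex.ofReal_sum]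
    exact Finset.sum_congr rfl fun n _ => h1 _
  rw [h4, Complex.norm_real, Real.norm_of_nonneg (Finset.sum_nonneg fun _ _ => norm_nonneg _)] at h3
  exact h3

theorem cover (F : ℕ → ℝ) (hF : ∀ h, 0 ≤ F h) (B : ℝ) (h₀ H' : ℕ) (J : ℕ)
    (hJ : ∀ j < J, ∑ h ∈ Finset.Ioc (h₀ + j * H') (h₀ + j * H' + H'), F h ≤ B) :
    ∑ h ∈ Finset.Ioc h₀ (h₀ + J * H'), F h ≤ J * B := by
  induction J with
  | zero => simp
  | succ J ih =>
    have h1 := ih fun j hj => hJ j (by omega)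
    have h2 := hJ J (by omega)
    have h3 : h₀ + (J + 1) * H' = h₀ + J * H' + H' := by ring
    rw [h3, ← Finset.sum_Ioc_consecutive F (by omega : h₀ ≤ h₀ + J * H') (by omega)]
    push_cast
    linarith

theorem corr_thp (g : ℕ → ℂ) (hg : ∀ n, ‖g n‖ ≤ 1) (hs : SupA g) (A : ℕ) (ε : ℝ)
    (hε : 0 < ε) : ∃ (K : ℝ) (X₀ : ℕ), 0 < K ∧ ∀ (X H h₀ : ℕ) (b : ℕ → ℂ),
    X₀ ≤ X → K * Real.log X ≤ H → H ≤ X → h₀ ≤ A * X → (∀ n, ‖b n‖ ≤ 1) →
    ∑ h ∈ Finset.Ioc h₀ (h₀ + H), ‖zT g X b h‖ ≤ ε * H * X := by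
  obtain ⟨η, K, X₀, hη, hη1, hK, hcore⟩ := corr_core g hg hs (A + 1) (by omega) (ε / 2) (by positivity)
  obtain ⟨X₁, hX₁⟩ := log_small (η / (2 * K)) (by positivity)
  refine ⟨K, max (max X₀ X₁) (⌈2 / η⌉₊ + 1), hK, ?_⟩
  intro X H h₀ b hX hKH hHX hh₀ hb
  have hX0 : X₀ ≤ X := (le_max_left _ _).trans ((le_max_left _ _).trans hX)
  have hX1 : X₁ ≤ X := (le_max_right _ _).trans ((le_max_left _ _).trans hX)
  have hX2 : ⌈2 / η⌉₊ + 1 ≤ X := (le_max_right _ _).trans hX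
  have hXpos : 1 ≤ X := by omega
  have hXr : (1 : ℝ) ≤ X := by exact_mod_cast hXpos
  by_cases hshort : (H : ℝ) ≤ η * X
  · have h1 := core_sum (ε := ε / 2) (H := H) (h₀ := h₀) (b := b) (X := X) (g := g) (fun e he =>
      hcore X H h₀ b e hX0 hKH hshort (hh₀.trans (Nat.mul_le_mul_right _ (by omega))) hb he)
    refine h1.trans ?_
    have : 0 ≤ ε * H * X := by positivity
    linarith
  · rw [not_le] at hshort
    set H' := ⌊η * X⌋₊ with hH'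
    have hηX : 0 ≤ η * X := by positivity
    have h2 : 2 ≤ η * X := by
      have h3 : 2 / η ≤ (X : ℝ) := by
        have h4 := Nat.le_ceil (2 / η)
        have h5 : ((⌈2 / η⌉₊ + 1 : ℕ) : ℝ) ≤ X := by exact_mod_cast hX2
        push_cast at h5
        linarith
      rw [div_le_iff₀ hη] at h3
      linarith
    have hH'1 : 1 ≤ H' := by
      rw [hH', Nat.one_le_floor_iff]
      linarith
    have hH'2 : (H' : ℝ) ≤ η * X := Nat.floor_le hηX
    have hH'3 : η * X < H' + 1 := Nat.lt_floor_add_one _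
    have hKH' : K * Real.log X ≤ H' := by
      have h3 := hX₁ X hX1
      have h4 : Real.sqrt X ≤ X := by
        rw [Real.sqrt_le_left (by linarith)]
        nlinarith
      have h5 : K * Real.log X ≤ K * (η / (2 * K) * X) := by
        refine mul_le_mul_of_nonneg_left (h3.trans ?_) hK.le
        exact mul_le_mul_of_nonneg_left h4 (by positivity)
      have h6 : K * (η / (2 * K) * X) = η * X / 2 := by
        field_simp
      linarith
    have hH'H : H' ≤ H := by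
      have : (H' : ℝ) ≤ H := by linarith
      exact_mod_cast this
    set J := H / H' + 1 with hJ
    have hJH : H ≤ J * H' := by
      have h3 := Nat.lt_div_mul_add (a := H) (b := H') hH'1
      rw [hJ, add_mul, one_mul]
      omega
    have hJH2 : J * H' ≤ 2 * H := by
      have h3 := Nat.div_mul_le_self H H'
      rw [hJ, add_mul, one_mul]
      omega
    have hc := cover (fun h => ‖zT g X b h‖) (fun _ => norm_nonneg _) (ε / 2 * H' * X) h₀ H' J (by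
      intro j hj
      refine core_sum (fun e he => hcore X H' (h₀ + j * H') b e hX0 hKH' hH'2 ?_ hb he)
      have h3 : j ≤ H / H' := by omega
      have h4 : j * H' ≤ X := ((Nat.mul_le_mul_right _ h3).trans (Nat.div_mul_le_self H H')).trans hHX
      rw [add_mul, one_mul]
      omega)
    have hsub : ∑ h ∈ Finset.Ioc h₀ (h₀ + H), ‖zT g X b h‖ ≤
        ∑ h ∈ Finset.Ioc h₀ (h₀ + J * H'), ‖zT g X b h‖ := by
      refine Finset.sum_le_sum_of_subset_of_nonneg ?_ fun _ _ _ => norm_nonneg _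
      exact Finset.Ioc_subset_Ioc_right (by omega)
    refine (hsub.trans hc).trans ?_
    have h3 : ((J * H' : ℕ) : ℝ) ≤ ((2 * H : ℕ) : ℝ) := by exact_mod_cast hJH2
    push_cast at h3
    have h4 : (J : ℝ) * (ε / 2 * H' * X) = (J * H') * (ε / 2 * X) := by ring
    have h5 : (J * H' : ℝ) * (ε / 2 * X) ≤ (2 * H) * (ε / 2 * X) :=
      mul_le_mul_of_nonneg_right h3 (by positivity)
    have h6 : (2 * H : ℝ) * (ε / 2 * X) = ε * H * X := by ring
    linarith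

end CorrAux

open CorrAux

theorem corr_gen (g : ℕ → ℂ) (hg : ∀ n, ‖g n‖ ≤ 1) (hs : SupA g) (A : ℕ) (hA : 1 ≤ A) (ε : ℝ)
    (hε : 0 < ε) : ∃ (K : ℝ) (X₀ : ℕ), 0 < K ∧ ∀ (X H h₀ : ℕ) (b : ℕ → ℂ),
    X₀ ≤ X → K * Real.log X ≤ H → H ≤ X → h₀ ≤ A * X → (∀ n, ‖b n‖ ≤ 1) →
    ∑ h ∈ Finset.Ioc h₀ (h₀ + H), ‖∑ n ∈ Finset.Icc 1 X,
        (ArithmeticFunction.vonMangoldt n : ℂ) * b n * g (n + h)‖ ≤ ε * H * X := by
  obtain ⟨K, X₀, hK, hthp⟩ := corr_thp g hg hs A (ε / 2) (by positivity)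
  obtain ⟨C, hC, hvm⟩ := vm_sub_thp
  obtain ⟨X₁, hX₁⟩ := log_small (ε / (2 * C)) (by positivity)
  refine ⟨K, max (max X₀ X₁) 2, hK, ?_⟩
  intro X H h₀ b hX hKH hHX hh₀ hb
  have hX0 : X₀ ≤ X := (le_max_left _ _).trans ((le_max_left _ _).trans hX)
  have hX1 : X₁ ≤ X := (le_max_right _ _).trans ((le_max_left _ _).trans hX)
  have hX2 : 2 ≤ X := (le_max_right _ _).trans hX
  have h1 := hthp X H h₀ b hX0 hKH hHX hh₀ hb
  have h2 := hvm X hX2
  have h3 := hX₁ X hX1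
  have hsq : Real.sqrt X * Real.sqrt X = X := Real.mul_self_sqrt (Nat.cast_nonneg _)
  have hsq0 : 0 ≤ Real.sqrt X := Real.sqrt_nonneg _
  have h4 : C * Real.sqrt X * Real.log X ≤ ε / 2 * X := by
    calc C * Real.sqrt X * Real.log X ≤ C * Real.sqrt X * (ε / (2 * C) * Real.sqrt X) :=
          mul_le_mul_of_nonneg_left h3 (by positivity)
      _ = ε / 2 * (Real.sqrt X * Real.sqrt X) := by
          field_simp
      _ = ε / 2 * X := by rw [hsq]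
  have h5 : ∀ h, ‖∑ n ∈ Finset.Icc 1 X,
        (ArithmeticFunction.vonMangoldt n : ℂ) * b n * g (n + h)‖ ≤
      ‖zT g X b h‖ + ε / 2 * X := by
    intro h
    have e1 : ∑ n ∈ Finset.Icc 1 X, (ArithmeticFunction.vonMangoldt n : ℂ) * b n * g (n + h) =
        zT g X b h + ∑ n ∈ Finset.Icc 1 X,
          ((ArithmeticFunction.vonMangoldt n - thp n : ℝ) : ℂ) * b n * g (n + h) := by
      unfold zT
      rw [← Finset.sum_add_distrib]
      refine Finset.sum_congr rfl fun n _ => ?_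
      push_cast
      ring
    rw [e1]
    refine (norm_add_le _ _).trans (add_le_add le_rfl ?_)
    refine le_trans (norm_sum_le_of_le (f := fun n => ((ArithmeticFunction.vonMangoldt n - thp n : ℝ) : ℂ)
      * b n * g (n + h)) (n := fun n => |ArithmeticFunction.vonMangoldt n - thp n|) _
      fun n _ => ?_) (h2.trans h4)
    rw [norm_mul, norm_mul, Complex.norm_real, Real.norm_eq_abs, mul_assoc]
    exact mul_le_of_le_one_right (abs_nonneg _) (mul_le_one₀ (hb _) (norm_nonneg _) (hg _))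
  calc ∑ h ∈ Finset.Ioc h₀ (h₀ + H), ‖∑ n ∈ Finset.Icc 1 X,
        (ArithmeticFunction.vonMangoldt n : ℂ) * b n * g (n + h)‖
      ≤ ∑ h ∈ Finset.Ioc h₀ (h₀ + H), (‖zT g X b h‖ + ε / 2 * X) :=
        Finset.sum_le_sum fun h _ => h5 h
    _ = (∑ h ∈ Finset.Ioc h₀ (h₀ + H), ‖zT g X b h‖) + H * (ε / 2 * X) := by
        rw [Finset.sum_add_distrib, Finset.sum_const, Nat.card_Ioc, nsmul_eq_mul]
        congr 2
        congr 1
        omega
    _ ≤ ε * H * X := by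
        have h6 : (H : ℝ) * (ε / 2 * X) = ε / 2 * H * X := by ring
        linarith

/-- the correlation theorem for `Λ` and `μ` -/
theorem corr_mu (A : ℕ) (hA : 1 ≤ A) (ε : ℝ) (hε : 0 < ε) :
    ∃ (K : ℝ) (X₀ : ℕ), 0 < K ∧ ∀ (X H h₀ : ℕ) (b : ℕ → ℂ),
    X₀ ≤ X → K * Real.log X ≤ H → H ≤ X → h₀ ≤ A * X → (∀ n, ‖b n‖ ≤ 1) →
    ∑ h ∈ Finset.Ioc h₀ (h₀ + H), ‖∑ n ∈ Finset.Icc 1 X,
        (ArithmeticFunction.vonMangoldt n : ℂ) * b n * mu (n + h)‖ ≤ ε * H * X :=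
  corr_gen mu norm_mu_le sup_mu A hA ε hε

end Pool.MRZ
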